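import Mathlib

open Set Filter Topology Metric

namespace Pool.Agent.Helper890.Cov

/-- the part of the zero set of `f` on which `g` vanishes locally -/
def PP (f g : ℂ × ℂ → ℂ) (p : ℂ × ℂ) : Prop := f p = 0 ∧ ∀ᶠ q in 𝓝 p, f q = 0 → g q = 0

/-- Hankel determinant of power sums counts distinct points -/
def StmtA1 : Prop := ∀ (s : Finset ℂ) (m : ℂ → ℕ), (∀ t ∈ s, 0 < m t) → ∀ k : ℕ,
  (s.card < k →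
    (Matrix.of (fun i j : Fin k => ∑ t ∈ s, (m t : ℂ) * t ^ ((i : ℕ) + (j : ℕ)))).det = 0) ∧
  (s.card = k →
    (Matrix.of (fun i j : Fin k => ∑ t ∈ s, (m t : ℂ) * t ^ ((i : ℕ) + (j : ℕ)))).det ≠ 0)

/-- argument principle for power sums of the zeros in a disc -/
def StmtA2 : Prop := ∀ (φ : ℂ → ℂ) (τ : ℂ) (ε : ℝ), Differentiable ℂ φ → 0 < ε →
  (∀ t ∈ sphere τ ε, φ t ≠ 0) →
  ∃ (s : Finset ℂ) (m : ℂ → ℕ), (∀ t, t ∈ s ↔ t ∈ ball τ ε ∧ φ t = 0) ∧ (∀ t ∈ s, 0 < m t) ∧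
    ∀ j : ℕ, (2 * Real.pi * Complex.I)⁻¹ * (∮ z in C(τ, ε), z ^ j * (deriv φ z / φ z)) =
      ∑ t ∈ s, (m t : ℂ) * t ^ j

/-- holomorphic dependence on the parameter -/
def StmtA3 : Prop := ∀ (f : ℂ × ℂ → ℂ) (U : Set ℂ) (τ : ℂ) (ε : ℝ), Differentiable ℂ f → IsOpen U →
  0 < ε → (∀ v ∈ U, ∀ t ∈ sphere τ ε, f (v, t) ≠ 0) → ∀ j : ℕ,
  DifferentiableOn ℂ (fun v => ∮ z in C(τ, ε), z ^ j * (deriv (fun t => f (v, t)) z / f (v, z))) U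

/-- the zeros of `f (v, ·)` in a disc -/
def QQ (f : ℂ × ℂ → ℂ) (τ : ℂ) (ε : ℝ) (v : ℂ) : Set ℂ := {t | t ∈ ball τ ε ∧ f (v, t) = 0}

/-- local analytic branches where the number of distinct zeros is constant -/
def StmtA4 : Prop := ∀ (f : ℂ × ℂ → ℂ) (v₁ τ : ℂ) (ε : ℝ) (k : ℕ), Differentiable ℂ f → 0 < ε →
  (∀ t ∈ sphere τ ε, f (v₁, t) ≠ 0) →
  (∀ᶠ v in 𝓝 v₁, (QQ f τ ε v).Finite ∧ (QQ f τ ε v).ncard = k) →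
  ∃ σ : Fin k → ℂ → ℂ, (∀ i, AnalyticAt ℂ (σ i) v₁) ∧ (Function.Injective fun i => σ i v₁) ∧
    ∀ᶠ v in 𝓝 v₁, QQ f τ ε v = Set.range (fun i => σ i v)

/-- the branches on which `g` vanishes -/
def StmtA5 : Prop := ∀ (f g : ℂ × ℂ → ℂ) (v₁ τ : ℂ) (ε : ℝ) (k : ℕ), Differentiable ℂ f →
  Differentiable ℂ g → 0 < ε →
  (∀ t ∈ sphere τ ε, f (v₁, t) ≠ 0) →
  (∀ᶠ v in 𝓝 v₁, (QQ f τ ε v).Finite ∧ (QQ f τ ε v).ncard = k) →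
  ∃ (σ : Fin k → ℂ → ℂ) (J : Finset (Fin k)), (∀ i, AnalyticAt ℂ (σ i) v₁) ∧
    (Function.Injective fun i => σ i v₁) ∧
    (∀ᶠ v in 𝓝 v₁, QQ f τ ε v = Set.range (fun i => σ i v)) ∧
    ∀ᶠ v in 𝓝 v₁, {t | t ∈ ball τ ε ∧ PP f g (v, t)} = (fun i => σ i v) '' (J : Set (Fin k))

/-- the number of distinct zeros is constant on a punctured neighbourhood -/
def StmtA6 : Prop := ∀ (f : ℂ × ℂ → ℂ) (v₀ τ : ℂ) (ε : ℝ), Differentiable ℂ f → 0 < ε →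
  (∀ t ∈ sphere τ ε, f (v₀, t) ≠ 0) →
  ∃ k : ℕ, ∀ᶠ v in 𝓝[≠] v₀, (QQ f τ ε v).Finite ∧ (QQ f τ ε v).ncard = k

/-- `a` agrees near `v₀`, off `v₀`, with a continuous function with the local sub-mean value
property, and is at most this function at `v₀` -/
def Loc (a : ℂ → ℝ) (v₀ : ℂ) : Prop := ∃ b : ℂ → ℝ, (∀ᶠ v in 𝓝 v₀, ContinuousAt b v) ∧
  (∀ᶠ v in 𝓝[≠] v₀, a v = b v) ∧ a v₀ ≤ b v₀ ∧
  ∀ᶠ v in 𝓝 v₀, ∀ᶠ r in 𝓝[>] (0 : ℝ), b v ≤ Real.circleAverage b v r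

/-- contribution of the zeros near `τ` -/
noncomputable def clus (f g : ℂ × ℂ → ℂ) (R : ℝ) (τ : ℂ) (ε : ℝ) (v : ℂ) : ℝ :=
  ∑ᶠ t ∈ {t | t ∈ ball τ ε ∧ PP f g (v, t)}, max 0 (Real.log (R / ‖t‖))

def StmtA7a : Prop := ∀ (f g : ℂ × ℂ → ℂ) (R : ℝ) (v₀ τ : ℂ) (ε : ℝ), Differentiable ℂ f →
  Differentiable ℂ g → 0 < R → 0 < ε → f (v₀, τ) = 0 → τ ≠ 0 → ‖τ‖ ≤ R →
  (∀ t ∈ closedBall τ ε, f (v₀, t) = 0 → t = τ) → (0 : ℂ) ∉ closedBall τ ε →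
  (‖τ‖ < R → ∀ t ∈ ball τ ε, ‖t‖ < R) →
  Loc (clus f g R τ ε) v₀

/-- the counting function -/
noncomputable def Afun (f g : ℂ × ℂ → ℂ) (R : ℝ) (v : ℂ) : ℝ :=
  ∑ᶠ t ∈ {t | ‖t‖ < R ∧ PP f g (v, t)}, Real.log (R / ‖t‖)

def StmtA7 : Prop := ∀ (f g : ℂ × ℂ → ℂ) (R : ℝ), Differentiable ℂ f → Differentiable ℂ g → 0 < R →
  (∀ v, f (v, 0) ≠ 0) → ∀ v₀, Loc (Afun f g R) v₀

/-- a function with the property `Loc` everywhere -/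
def StmtA8 : Prop := ∀ (a B : ℂ → ℝ), (∀ v, Loc a v) → ContinuousOn B (sphere 0 1) →
  (∀ v ∈ sphere (0 : ℂ) 1, a v ≤ B v) → a 0 ≤ Real.circleAverage B 0 1

/-- Proposition A -/
def StmtA : Prop := ∀ (f g : ℂ × ℂ → ℂ) (R : ℝ) (B : ℂ → ℝ), Differentiable ℂ f →
  Differentiable ℂ g → 0 < R → (∀ v, f (v, 0) ≠ 0) → ContinuousOn B (sphere 0 1) →
  (∀ v ∈ sphere (0 : ℂ) 1, ∀ S : Finset ℂ, (∀ t ∈ S, ‖t‖ < R ∧ f (v, t) = 0 ∧ g (v, t) = 0) →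
    ∑ t ∈ S, Real.log (R / ‖t‖) ≤ B v) →
  ∀ S : Finset ℂ, (∀ t ∈ S, ‖t‖ < R ∧ f (0, t) = 0 ∧
    ∀ᶠ q in 𝓝 ((0 : ℂ), t), f q = 0 → g q = 0) →
    ∑ t ∈ S, Real.log (R / ‖t‖) ≤ Real.circleAverage B 0 1

end Pool.Agent.Helper890.Cov
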