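import Mathlib
import Pool.Agent.Helper890.Cov.StA




namespace Pool.Agent.Helper890.Cov.JA1
open MeasureTheory Set Filter Topology Metric
open scoped RealInnerProductSpace

theorem stA1 : StmtA1 := by
  intro s m hm k
  refine ⟨fun hk => ?_, fun hk => ?_⟩
  · classical
    set Q : Polynomial ℂ := ∏ t ∈ s, (Polynomial.X - Polynomial.C t) with hQ
    have hdeg : Q.natDegree = s.card := by
      rw [hQ, Polynomial.natDegree_prod_of_monic _ _ fun t _ => Polynomial.monic_X_sub_C t]
      simp
    have hmon : Q.Monic := Polynomial.monic_prod_of_monic _ _ fun t _ => Polynomial.monic_X_sub_C t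
    have heval : ∀ t ∈ s, ∑ j : Fin k, Q.coeff j * t ^ (j : ℕ) = 0 := by
      intro t ht
      have h1 : Q.eval t = 0 := by
        rw [hQ, Polynomial.eval_prod]
        exact Finset.prod_eq_zero ht (by simp)
      rw [Polynomial.eval_eq_sum_range' (n := k) (by omega)] at h1
      rw [← h1, Finset.sum_range]
    refine Matrix.exists_mulVec_eq_zero_iff.mp ⟨fun j => Q.coeff j, ?_, ?_⟩
    · intro h0
      have h1 := congrFun h0 ⟨s.card, hk⟩
      have h2 : Q.coeff s.card = 1 := by
        rw [← hdeg]
        exact hmon.coeff_natDegree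
      simp only [Pi.zero_apply] at h1
      rw [h2] at h1
      exact one_ne_zero h1
    · funext i
      simp only [Matrix.mulVec, dotProduct, Matrix.of_apply, Pi.zero_apply]
      have h2 : ∑ j : Fin k, (∑ t ∈ s, (m t : ℂ) * t ^ ((i : ℕ) + (j : ℕ))) * Q.coeff j =
          ∑ t ∈ s, (m t : ℂ) * t ^ (i : ℕ) * ∑ j : Fin k, Q.coeff j * t ^ (j : ℕ) := by
        simp_rw [Finset.sum_mul, Finset.mul_sum]
        rw [Finset.sum_comm]
        refine Finset.sum_congr rfl fun t _ => Finset.sum_congr rfl fun j _ => ?_
        rw [pow_add]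
        ring
      rw [h2]
      refine Finset.sum_eq_zero fun t ht => ?_
      rw [heval t ht, mul_zero]
  · subst hk
    have e : Fin s.card ≃ s := s.equivFin.symm
    have hmat : (Matrix.of (fun i j : Fin s.card => ∑ t ∈ s, (m t : ℂ) * t ^ ((i : ℕ) + (j : ℕ)))) =
        (Matrix.vandermonde fun i => (e i : ℂ)).transpose *
          Matrix.diagonal (fun i => (m (e i) : ℂ)) * Matrix.vandermonde fun i => (e i : ℂ) := by
      ext i j
      rw [Matrix.mul_apply]
      simp only [Matrix.mul_diagonal, Matrix.transpose_apply, Matrix.vandermonde_apply,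
        Matrix.of_apply]
      rw [← Finset.sum_coe_sort s (fun t => (m t : ℂ) * t ^ ((i : ℕ) + (j : ℕ)))]
      rw [← Equiv.sum_comp e]
      refine Finset.sum_congr rfl fun l _ => ?_
      rw [pow_add]
      ring
    rw [hmat, Matrix.det_mul, Matrix.det_mul, Matrix.det_transpose, Matrix.det_diagonal]
    have hV : (Matrix.vandermonde fun i => (e i : ℂ)).det ≠ 0 := by
      rw [Matrix.det_vandermonde_ne_zero_iff]
      intro i j hij
      exact e.injective (Subtype.ext hij)
    refine mul_ne_zero (mul_ne_zero hV ?_) hV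
    rw [Finset.prod_ne_zero_iff]
    intro i _
    exact_mod_cast (hm (e i) (e i).2).ne'

end Pool.Agent.Helper890.Cov.JA1
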