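import Mathlib
import Pool.Agent.Helper890.Cov.StA




namespace Pool.Agent.Helper890.Cov.JA2
open MeasureTheory Set Filter Topology Metric
open scoped RealInnerProductSpace


/-- Extract a zero. -/
theorem aux_extract (f : ℂ → ℂ) (hf : Differentiable ℂ f) (hne : ∃ w, f w ≠ 0) (a : ℂ) :
    ∃ (n : ℕ) (g : ℂ → ℂ), Differentiable ℂ g ∧ g a ≠ 0 ∧ (∀ z, f z = (z - a) ^ n * g z) ∧
      (f a = 0 → 0 < n) := by
  have han : AnalyticAt ℂ f a := hf.analyticAt a
  have htop : analyticOrderAt f a ≠ ⊤ := by
    intro h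
    rw [analyticOrderAt_eq_top] at h
    obtain ⟨w, hw⟩ := hne
    have hAn : AnalyticOnNhd ℂ f univ := fun z _ => hf.analyticAt z
    have := hAn.eqOn_zero_of_preconnected_of_eventuallyEq_zero isPreconnected_univ (mem_univ a) h
    exact hw (this (mem_univ w))
  rw [han.analyticOrderAt_ne_top] at htop
  obtain ⟨g₀, hg₀, hg₀a, hg₀e⟩ := htop
  set n := analyticOrderNatAt f a with hn
  let g : ℂ → ℂ := fun z => if z = a then g₀ a else f z / (z - a) ^ n
  have hfg : ∀ z, f z = (z - a) ^ n * g z := by
    intro z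
    by_cases hz : z = a
    · have := hg₀e.self_of_nhds
      simp only [smul_eq_mul] at this
      subst hz
      simp only [g, if_true]
      exact this
    · simp only [g, if_neg hz]
      have : (z - a) ^ n ≠ 0 := pow_ne_zero _ (sub_ne_zero.mpr hz)
      field_simp
  have hga : g a ≠ 0 := by simp only [g, if_true]; exact hg₀a
  refine ⟨n, g, ?_, hga, hfg, ?_⟩
  · intro z
    by_cases hz : z = a
    · subst hz
      have hee : g =ᶠ[𝓝 z] g₀ := by
        filter_upwards [hg₀e] with w hw
        by_cases hwz : w = z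
        · subst hwz; simp only [g, if_true]
        · simp only [g, if_neg hwz]
          rw [hw, smul_eq_mul]
          have : (w - z) ^ n ≠ 0 := pow_ne_zero _ (sub_ne_zero.mpr hwz)
          field_simp
      exact (hg₀.differentiableAt).congr_of_eventuallyEq hee
    · have hee : g =ᶠ[𝓝 z] fun w => f w / (w - a) ^ n := by
        filter_upwards [isOpen_ne.mem_nhds hz] with w hw
        simp only [g, if_neg (show w ≠ a from hw)]
      refine DifferentiableAt.congr_of_eventuallyEq ?_ hee
      refine DifferentiableAt.div (hf z) (by fun_prop) (pow_ne_zero _ (sub_ne_zero.mpr hz))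
  · intro h0
    rcases Nat.eq_zero_or_pos n with h | h
    · exfalso
      have := hfg a
      rw [h0, h] at this
      simp at this
      exact hga this.symm
    · exact h

theorem aux_factor (f : ℂ → ℂ) (hf : Differentiable ℂ f) (hne : ∃ w, f w ≠ 0) (s : Finset ℂ) :
    ∃ (m : ℂ → ℕ) (ψ : ℂ → ℂ), Differentiable ℂ ψ ∧ (∀ t ∈ s, ψ t ≠ 0) ∧
      (∀ z, f z = (∏ t ∈ s, (z - t) ^ (m t)) * ψ z) ∧ (∀ t ∈ s, f t = 0 → 0 < m t) := by
  classical
  induction s using Finset.induction_on with
  | empty => exact ⟨fun _ => 0, f, hf, by simp, by simp, by simp⟩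
  | insert a s has ih =>
    obtain ⟨m, ψ, hψ, hψ0, hfψ, hm⟩ := ih
    obtain ⟨w, hw⟩ := hne
    have hψw : ψ w ≠ 0 := by
      intro h
      apply hw
      rw [hfψ w, h, mul_zero]
    obtain ⟨n, g, hg, hga, hψg, hn⟩ := aux_extract ψ hψ ⟨w, hψw⟩ a
    refine ⟨Function.update m a n, g, hg, ?_, ?_, ?_⟩
    · intro t ht
      rw [Finset.mem_insert] at ht
      rcases ht with rfl | ht
      · exact hga
      · intro h
        apply hψ0 t ht
        rw [hψg t, h, mul_zero]
    · intro z
      rw [Finset.prod_insert has, Function.update_self]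
      have : ∏ t ∈ s, (z - t) ^ (Function.update m a n t) = ∏ t ∈ s, (z - t) ^ (m t) := by
        refine Finset.prod_congr rfl fun t ht => ?_
        rw [Function.update_of_ne]
        rintro rfl
        exact has ht
      rw [this, hfψ z, hψg z]
      ring
    · intro t ht h0
      rw [Finset.mem_insert] at ht
      by_cases hta : t = a
      · subst hta
        rw [Function.update_self]
        apply hn
        have h1 := hfψ t
        rw [h0] at h1
        have h2 : (∏ x ∈ s, (t - x) ^ (m x)) ≠ 0 := by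
          rw [Finset.prod_ne_zero_iff]
          intro x hx
          refine pow_ne_zero _ (sub_ne_zero.mpr ?_)
          rintro rfl
          exact has hx
        rcases mul_eq_zero.mp h1.symm with h3 | h3
        · exact absurd h3 h2
        · exact h3
      · rw [Function.update_of_ne hta]
        rcases ht with rfl | ht
        · exact absurd rfl hta
        · exact hm t ht h0

theorem aux_finite (f : ℂ → ℂ) (hf : Differentiable ℂ f) (hne : ∃ w, f w ≠ 0) (τ : ℂ) (ε : ℝ) :
    {t | t ∈ closedBall τ ε ∧ f t = 0}.Finite := by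
  obtain ⟨w, hw⟩ := hne
  have hAn : AnalyticOnNhd ℂ f univ := fun z _ => hf.analyticAt z
  by_contra hinf
  have hinf' : {t | t ∈ closedBall τ ε ∧ f t = 0}.Infinite := hinf
  obtain ⟨x, hx, hacc⟩ := hinf'.exists_accPt_of_subset_isCompact
    (isCompact_closedBall τ ε) (fun t ht => ht.1)
  have hfreq : ∃ᶠ z in 𝓝[≠] x, f z = 0 := by
    rw [accPt_iff_frequently_nhdsNE] at hacc
    exact hacc.mono fun z hz => hz.2
  have := hAn.eqOn_zero_of_preconnected_of_frequently_eq_zero isPreconnected_univ (mem_univ x) hfreq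
  exact hw (this (mem_univ w))

theorem aux_int (τ t : ℂ) (ε : ℝ) (ht : t ∈ ball τ ε) (j : ℕ) :
    (∮ z in C(τ, ε), z ^ j * (z - t)⁻¹) = 2 * Real.pi * Complex.I * t ^ j := by
  have h := Complex.circleIntegral_sub_inv_smul_of_differentiable_on_off_countable
    (s := ∅) (f := fun z : ℂ => z ^ j) (c := τ) (R := ε) (w := t) countable_empty ht
    (by fun_prop) (by intro z _; fun_prop)
  simp only [smul_eq_mul] at h
  rw [← h]
  congr 1
  ext z
  ring

theorem stA2 : StmtA2 := by
  intro φ τ ε hφ hε hsph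
  have hne : ∃ w, φ w ≠ 0 := by
    refine ⟨τ + ε, hsph _ ?_⟩
    rw [mem_sphere, dist_eq_norm]
    simp [abs_of_pos hε]
  have hfin := aux_finite φ hφ hne τ ε
  let s : Finset ℂ := hfin.toFinset
  have hs : ∀ t, t ∈ s ↔ t ∈ ball τ ε ∧ φ t = 0 := by
    intro t
    simp only [s, Set.Finite.mem_toFinset, Set.mem_setOf_eq]
    constructor
    · rintro ⟨h1, h2⟩
      refine ⟨?_, h2⟩
      rw [mem_closedBall] at h1
      rcases h1.lt_or_eq with h | h
      · exact h
      · exact absurd h2 (hsph t h)
    · rintro ⟨h1, h2⟩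
      exact ⟨ball_subset_closedBall h1, h2⟩
  obtain ⟨m, ψ, hψ, hψ0, hfψ, hm⟩ := aux_factor φ hφ hne s
  refine ⟨s, m, hs, fun t ht => hm t ht ((hs t).1 ht).2, ?_⟩
  have hψcb : ∀ z ∈ closedBall τ ε, ψ z ≠ 0 := by
    intro z hz h0
    by_cases hzs : z ∈ s
    · exact hψ0 z hzs h0
    · have : φ z = 0 := by rw [hfψ z, h0, mul_zero]
      apply hzs
      simp only [s, Set.Finite.mem_toFinset, Set.mem_setOf_eq]
      exact ⟨hz, this⟩
  have hψd : Differentiable ℂ (deriv ψ) := fun z => ((hψ.analyticAt z).deriv).differentiableAt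
  have hlog : ∀ z ∈ sphere τ ε, deriv φ z / φ z = ∑ t ∈ s, (m t : ℂ) * (z - t)⁻¹ + deriv ψ z / ψ z := by
    intro z hz
    have hzt : ∀ t ∈ s, z - t ≠ 0 := by
      intro t ht h
      rw [sub_eq_zero] at h
      subst h
      exact hsph z hz ((hs z).1 ht).2
    have hψz : ψ z ≠ 0 := hψcb z (sphere_subset_closedBall hz)
    have hφe : φ = fun z => (∏ t ∈ s, (z - t) ^ (m t)) * ψ z := funext hfψ
    have h1 : deriv φ z / φ z = logDeriv φ z := rfl
    have h2 : deriv ψ z / ψ z = logDeriv ψ z := rfl
    rw [h1, h2]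
    have h3 : logDeriv φ z = logDeriv (fun z => (∏ t ∈ s, (z - t) ^ (m t)) * ψ z) z := by
      rw [← hφe]
    rw [h3, logDeriv_mul z (Finset.prod_ne_zero_iff.mpr fun t ht => pow_ne_zero _ (hzt t ht)) hψz
      (by fun_prop) (hψ z)]
    congr 1
    rw [logDeriv_prod (f := fun t z => (z - t) ^ (m t)) (fun t ht => pow_ne_zero _ (hzt t ht)) (fun t ht => by fun_prop)]
    refine Finset.sum_congr rfl fun t ht => ?_
    rw [logDeriv_fun_pow (f := fun z : ℂ => z - t) (x := z) (by fun_prop) (m t)]
    congr 1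
    rw [logDeriv_apply]
    simp
  intro j
  have hcong : (∮ z in C(τ, ε), z ^ j * (deriv φ z / φ z)) =
      ∮ z in C(τ, ε), ((∑ t ∈ s, (m t : ℂ) * (z ^ j * (z - t)⁻¹)) + z ^ j * (deriv ψ z / ψ z)) := by
    refine circleIntegral.integral_congr hε.le fun z hz => ?_
    show z ^ j * (deriv φ z / φ z) = _
    rw [hlog z hz, mul_add, Finset.mul_sum]
    congr 1
    refine Finset.sum_congr rfl fun t _ => by ring
  have hci1 : ∀ t ∈ s, CircleIntegrable (fun z => (m t : ℂ) * (z ^ j * (z - t)⁻¹)) τ ε := by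
    intro t ht
    refine ContinuousOn.circleIntegrable hε.le ?_
    refine ContinuousOn.mul continuousOn_const (ContinuousOn.mul (by fun_prop) (ContinuousOn.inv₀ (by fun_prop) ?_))
    intro z hz h
    rw [sub_eq_zero] at h
    subst h
    exact hsph z hz ((hs z).1 ht).2
  have hψc : ContinuousOn (fun z => z ^ j * (deriv ψ z / ψ z)) (closedBall τ ε) := by
    refine ContinuousOn.mul (by fun_prop) (ContinuousOn.div hψd.continuous.continuousOn hψ.continuous.continuousOn hψcb)
  have hci2 : CircleIntegrable (fun z => z ^ j * (deriv ψ z / ψ z)) τ ε :=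
    ContinuousOn.circleIntegrable hε.le (hψc.mono sphere_subset_closedBall)
  have hzero : (∮ z in C(τ, ε), z ^ j * (deriv ψ z / ψ z)) = 0 := by
    refine Complex.circleIntegral_eq_zero_of_differentiable_on_off_countable hε.le (s := ∅)
      countable_empty hψc ?_
    intro z hz
    have hz' : z ∈ closedBall τ ε := ball_subset_closedBall hz.1
    exact DifferentiableAt.mul (by fun_prop) (DifferentiableAt.div (hψd z) (hψ z) (hψcb z hz'))
  rw [hcong, circleIntegral.integral_add (CircleIntegrable.fun_sum s hci1) hci2, hzero, add_zero,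
    circleIntegral.integral_fun_sum hci1, Finset.mul_sum]
  refine Finset.sum_congr rfl fun t ht => ?_
  rw [circleIntegral.integral_const_mul, aux_int τ t ε ((hs t).1 ht).1 j]
  have : (2 * (Real.pi : ℂ) * Complex.I) ≠ 0 := by
    simp [Real.pi_ne_zero, Complex.I_ne_zero]
  field_simp

end Pool.Agent.Helper890.Cov.JA2
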