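import Mathlib
import Pool.Agent.Helper890.Cov.StA




namespace Pool.Agent.Helper890.Cov.JA3
open MeasureTheory Set Filter Topology Metric
open scoped RealInnerProductSpace

theorem stA3_DI (H : ℂ → ℂ → ℂ) (v₀ : ℂ) (r : ℝ) (hr : 0 < r) (τ : ℂ) (ε : ℝ) (hε : 0 < ε)
    (hc : ContinuousOn (fun p : ℂ × ℂ => H p.1 p.2) (closedBall v₀ r ×ˢ sphere τ ε))
    (hd : ∀ z ∈ sphere τ ε, ∀ v ∈ ball v₀ r, DifferentiableAt ℂ (fun v => H v z) v) :
    DifferentiableAt ℂ (fun v => ∮ z in C(τ, ε), H v z) v₀ := by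
  have hK : IsCompact (closedBall v₀ r ×ˢ sphere τ ε) :=
    (isCompact_closedBall v₀ r).prod (isCompact_sphere τ ε)
  obtain ⟨M, hM⟩ := hK.exists_bound_of_continuousOn hc
  have hsph : ∀ θ : ℝ, circleMap τ ε θ ∈ sphere τ ε := fun θ => circleMap_mem_sphere τ hε.le θ
  have hcont : ∀ v ∈ closedBall v₀ r, Continuous (fun θ : ℝ => H v (circleMap τ ε θ)) := by
    intro v hv
    exact hc.comp_continuous (f := fun θ : ℝ => (v, circleMap τ ε θ)) (by fun_prop)
      (fun θ => ⟨hv, hsph θ⟩)
  have hcirc : Continuous (fun θ : ℝ => deriv (circleMap τ ε) θ) := by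
    have : (fun θ : ℝ => deriv (circleMap τ ε) θ) = fun θ : ℝ => circleMap 0 ε θ * Complex.I := by
      funext θ
      exact deriv_circleMap τ ε θ
    rw [this]
    fun_prop
  have hnorm : ∀ θ : ℝ, ‖deriv (circleMap τ ε) θ‖ = ε := by
    intro θ
    rw [deriv_circleMap]
    simp [abs_of_pos hε]
  have hball : ball v₀ r ⊆ closedBall v₀ r := ball_subset_closedBall
  have key := intervalIntegral.hasDerivAt_integral_of_dominated_loc_of_deriv_le
    (μ := volume) (a := 0) (b := 2 * Real.pi)
    (F := fun v θ => deriv (circleMap τ ε) θ • H v (circleMap τ ε θ))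
    (F' := fun v θ => deriv (circleMap τ ε) θ • deriv (fun v => H v (circleMap τ ε θ)) v)
    (x₀ := v₀) (s := ball v₀ (r / 2)) (bound := fun _ => ε * (M / (r / 2)))
    (ball_mem_nhds v₀ (by positivity)) ?_ ?_ ?_ ?_ ?_ ?_
  · exact key.2.differentiableAt
  · filter_upwards [ball_mem_nhds v₀ hr] with v hv
    exact (hcirc.smul (hcont v (hball hv))).aestronglyMeasurable
  · exact (hcirc.smul (hcont v₀ (mem_closedBall_self hr.le))).intervalIntegrable _ _
  · set c : ℕ → ℂ := fun n => ((r / ((n : ℝ) + 2) : ℝ) : ℂ) with hcdef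
    have hcpos : ∀ n : ℕ, 0 < r / ((n : ℝ) + 2) := fun n => by positivity
    have hcn : ∀ n, v₀ + c n ∈ closedBall v₀ r := by
      intro n
      rw [mem_closedBall, dist_eq_norm, add_sub_cancel_left]
      show ‖((r / ((n : ℝ) + 2) : ℝ) : ℂ)‖ ≤ r
      rw [Complex.norm_real, Real.norm_of_nonneg (hcpos n).le]
      apply div_le_self hr.le
      have : (0 : ℝ) ≤ n := Nat.cast_nonneg n
      linarith
    have hc0 : Tendsto c atTop (𝓝[≠] 0) := by
      rw [tendsto_nhdsWithin_iff]
      refine ⟨?_, ?_⟩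
      · have h1 : Tendsto (fun n : ℕ => r / ((n : ℝ) + 2)) atTop (𝓝 0) := by
          apply Tendsto.div_atTop tendsto_const_nhds
          exact tendsto_atTop_add_const_right _ _ tendsto_natCast_atTop_atTop
        have h2 : Tendsto c atTop (𝓝 ((0 : ℝ) : ℂ)) := (Complex.continuous_ofReal.tendsto 0).comp h1
        rwa [Complex.ofReal_zero] at h2
      · filter_upwards with n
        show ((r / ((n : ℝ) + 2) : ℝ) : ℂ) ≠ 0
        exact_mod_cast (hcpos n).ne'
    refine aestronglyMeasurable_of_tendsto_ae (u := atTop)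
      (f := fun (n : ℕ) θ => deriv (circleMap τ ε) θ •
        ((c n)⁻¹ • (H (v₀ + c n) (circleMap τ ε θ) - H v₀ (circleMap τ ε θ)))) ?_ ?_
    · intro n
      have h1 := hcont _ (hcn n)
      have h2 := hcont v₀ (mem_closedBall_self hr.le)
      have h3 : Continuous (fun θ : ℝ => deriv (circleMap τ ε) θ •
        ((c n)⁻¹ • (H (v₀ + c n) (circleMap τ ε θ) - H v₀ (circleMap τ ε θ)))) :=
        hcirc.smul ((h1.sub h2).const_smul ((c n)⁻¹))
      exact h3.aestronglyMeasurable
    · filter_upwards with θ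
      have h1 := (hd _ (hsph θ) v₀ (mem_ball_self hr)).hasDerivAt
      have h2 := h1.tendsto_slope_zero.comp hc0
      exact h2.const_smul _
  · filter_upwards with θ _ v hv
    rw [norm_smul, hnorm]
    refine mul_le_mul_of_nonneg_left ?_ hε.le
    have hsub : closedBall v (r / 2) ⊆ ball v₀ r := by
      intro w hw
      rw [mem_closedBall] at hw
      rw [mem_ball] at hv ⊢
      calc dist w v₀ ≤ dist w v + dist v v₀ := dist_triangle _ _ _
        _ < r / 2 + r / 2 := by linarith
        _ = r := by ring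
    refine Complex.norm_deriv_le_of_forall_mem_sphere_norm_le (by positivity) ?_ ?_
    · apply DifferentiableOn.diffContOnCl
      intro w hw
      exact (hd _ (hsph θ) w (hsub (closure_ball_subset_closedBall hw))).differentiableWithinAt
    · intro w hw
      exact hM (w, circleMap τ ε θ) ⟨hball (hsub (sphere_subset_closedBall hw)), hsph θ⟩
  · exact intervalIntegrable_const
  · filter_upwards with θ _ v hv
    have hv' : v ∈ ball v₀ r := ball_subset_ball (by linarith) hv
    exact (hd _ (hsph θ) v hv').hasDerivAt.const_smul (deriv (circleMap τ ε) θ)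

theorem stA3_cauchy (f : ℂ × ℂ → ℂ) (hf : Differentiable ℂ f) (v z : ℂ) :
    deriv (fun t => f (v, t)) z =
      (2 * Real.pi * Complex.I)⁻¹ * ∮ w in C(z, 1), (1 / (w - z) ^ 2) • f (v, w) := by
  have h1 : DifferentiableOn ℂ (fun t => f (v, t)) (closedBall z 1) := by
    apply Differentiable.differentiableOn
    fun_prop
  have h2 := h1.deriv_eq_smul_circleIntegral one_pos
  rw [h2, smul_eq_mul, ← mul_assoc, inv_mul_cancel₀ Complex.two_pi_I_ne_zero, one_mul]

theorem stA3_diff (f : ℂ × ℂ → ℂ) (hf : Differentiable ℂ f) (z : ℂ) :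
    Differentiable ℂ (fun v => deriv (fun t => f (v, t)) z) := by
  have h1 : (fun v => deriv (fun t => f (v, t)) z) = fun v =>
      (2 * Real.pi * Complex.I)⁻¹ * ∮ w in C(z, 1), (1 / (w - z) ^ 2) • f (v, w) := by
    funext v
    exact stA3_cauchy f hf v z
  rw [h1]
  intro v
  refine DifferentiableAt.const_mul ?_ _
  refine stA3_DI (fun v w => (1 / (w - z) ^ 2) • f (v, w)) v 1 one_pos z 1 one_pos ?_ ?_
  · have hfc : Continuous f := hf.continuous
    show ContinuousOn (fun p : ℂ × ℂ => (1 / (p.2 - z) ^ 2) * f (p.1, p.2)) _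
    refine ContinuousOn.mul ?_ ?_
    · refine ContinuousOn.div continuousOn_const (by fun_prop) ?_
      rintro ⟨a, b⟩ ⟨-, hb⟩
      have : b ≠ z := ne_of_mem_sphere hb one_ne_zero
      exact pow_ne_zero 2 (sub_ne_zero.mpr this)
    · exact (hfc.comp (by fun_prop)).continuousOn
  · intro w _ v' _
    have : Differentiable ℂ (fun v => (1 / (w - z) ^ 2) • f (v, w)) := by fun_prop
    exact this v'

theorem stA3_cont (f : ℂ × ℂ → ℂ) (hf : Differentiable ℂ f) :
    Continuous (fun p : ℂ × ℂ => deriv (fun t => f (p.1, t)) p.2) := by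
  have h1 : (fun p : ℂ × ℂ => deriv (fun t => f (p.1, t)) p.2) = fun p : ℂ × ℂ =>
      (2 * Real.pi * Complex.I)⁻¹ * ∫ θ in (0 : ℝ)..2 * Real.pi,
        (circleMap 0 1 θ * Complex.I) * ((1 / (circleMap 0 1 θ) ^ 2) *
          f (p.1, p.2 + circleMap 0 1 θ)) := by
    funext p
    rw [stA3_cauchy f hf]
    congr 1
    rw [circleIntegral]
    refine intervalIntegral.integral_congr (fun θ _ => ?_)
    simp only [deriv_circleMap, smul_eq_mul]
    have : circleMap p.2 1 θ = p.2 + circleMap 0 1 θ := by simp [circleMap]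
    rw [this, add_sub_cancel_left]
  rw [h1]
  refine Continuous.mul continuous_const ?_
  apply intervalIntegral.continuous_parametric_intervalIntegral_of_continuous'
  have hfc : Continuous f := hf.continuous
  have hne : ∀ x : (ℂ × ℂ) × ℝ, (circleMap 0 1 x.2) ^ 2 ≠ 0 := by
    intro x
    refine pow_ne_zero 2 ?_
    intro h
    have := norm_circleMap_zero 1 x.2
    rw [h] at this
    simp at this
  have hA : Continuous (fun x : (ℂ × ℂ) × ℝ => circleMap 0 1 x.2 * Complex.I) := by fun_prop
  have hB : Continuous (fun x : (ℂ × ℂ) × ℝ => 1 / (circleMap 0 1 x.2) ^ 2) :=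
    Continuous.div continuous_const (by fun_prop) hne
  have hC : Continuous (fun x : (ℂ × ℂ) × ℝ => f (x.1.1, x.1.2 + circleMap 0 1 x.2)) :=
    hfc.comp (by fun_prop)
  exact hA.mul (hB.mul hC)

theorem stA3 : StmtA3 := by
  intro f U τ ε hf hU hε hne j v₀ hv₀
  obtain ⟨r, hr, hrU⟩ := Metric.nhds_basis_closedBall.mem_iff.mp (hU.mem_nhds hv₀)
  refine DifferentiableAt.differentiableWithinAt ?_
  refine stA3_DI (fun v z => z ^ j * (deriv (fun t => f (v, t)) z / f (v, z))) v₀ r hr τ ε hε ?_ ?_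
  · refine ContinuousOn.mul (by fun_prop) ?_
    refine ContinuousOn.div (stA3_cont f hf).continuousOn ?_ ?_
    · exact (hf.continuous.comp (by fun_prop)).continuousOn
    · rintro ⟨a, b⟩ ⟨ha, hb⟩
      exact hne a (hrU ha) b hb
  · intro z hz v hv
    refine DifferentiableAt.const_mul ?_ _
    refine DifferentiableAt.div (stA3_diff f hf z v) ?_ (hne v (hrU (ball_subset_closedBall hv)) z hz)
    have : Differentiable ℂ (fun v => f (v, z)) := by fun_prop
    exact this v

end Pool.Agent.Helper890.Cov.JA3
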