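import Mathlib
import Pool.Agent.Helper890.Cov.StA




namespace Pool.Agent.Helper890.Cov.JA4
open MeasureTheory Set Filter Topology Metric
open scoped RealInnerProductSpace


theorem nat_close_25093 (a b : ℕ) (h : ‖(a : ℂ) - (b : ℂ)‖ < 1) : a = b := by
  have h1 : ((a : ℂ) - (b : ℂ)) = (((a : ℤ) - (b : ℤ) : ℤ) : ℂ) := by push_cast; ring
  rw [h1, Complex.norm_intCast] at h
  have h2 : |((a : ℤ) - (b : ℤ))| < 1 := by exact_mod_cast h
  have h3 := Int.abs_lt_one_iff.mp h2
  omega

theorem stA4 (h2 : StmtA2) (h3 : StmtA3) : StmtA4 := by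
  intro f v₁ τ ε k hf hε hS hk
  classical
  obtain ⟨hfin, hcard⟩ := hk.self_of_nhds
  obtain ⟨t, htinj, htr⟩ : ∃ t : Fin k → ℂ, Function.Injective t ∧
      Set.range t = QQ f τ ε v₁ := by
    have hc : hfin.toFinset.card = k := by
      rw [← Set.ncard_eq_toFinset_card _ hfin]
      exact hcard
    let e := (Finset.equivFinOfCardEq hc).symm
    refine ⟨fun i => (e i : ℂ), Subtype.val_injective.comp e.injective, ?_⟩
    ext z
    constructor
    · rintro ⟨i, rfl⟩
      exact hfin.mem_toFinset.mp (e i).2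
    · intro hz
      refine ⟨e.symm ⟨z, hfin.mem_toFinset.mpr hz⟩, ?_⟩
      simp
  have htm : ∀ i, t i ∈ ball τ ε ∧ f (v₁, t i) = 0 := by
    intro i
    have : t i ∈ QQ f τ ε v₁ := by
      rw [← htr]
      exact ⟨i, rfl⟩
    exact this
  obtain ⟨r, hr0, hrb, hrd⟩ : ∃ r : ℝ, 0 < r ∧ (∀ i, closedBall (t i) r ⊆ ball τ ε) ∧
      ∀ i j, i ≠ j → 2 * r < dist (t i) (t j) := by
    have g1 : ∀ᶠ r in 𝓝[>] (0:ℝ), ∀ i, closedBall (t i) r ⊆ ball τ ε := by
      rw [eventually_all]
      intro i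
      have hti := (htm i).1
      rw [mem_ball] at hti
      have h0 : 0 < ε - dist (t i) τ := by linarith
      filter_upwards [Ioo_mem_nhdsGT h0] with r hr
      intro z hz
      rw [mem_closedBall] at hz
      rw [mem_ball]
      have := dist_triangle z (t i) τ
      linarith [hr.2]
    have g2 : ∀ᶠ r in 𝓝[>] (0:ℝ), ∀ i j, i ≠ j → 2 * r < dist (t i) (t j) := by
      rw [eventually_all]
      intro i
      rw [eventually_all]
      intro j
      by_cases hij : i = j
      · exact Eventually.of_forall fun r h => absurd hij h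
      · have h0 : 0 < dist (t i) (t j) / 2 := by
          have := dist_pos.mpr (htinj.ne hij)
          linarith
        filter_upwards [Ioo_mem_nhdsGT h0] with r hr _
        linarith [hr.2]
    have g3 : ∀ᶠ r in 𝓝[>] (0:ℝ), 0 < r := self_mem_nhdsWithin
    obtain ⟨r, a, b, c⟩ := (g3.and (g1.and g2)).exists
    exact ⟨r, a, b, c⟩
  have hdis : ∀ i j z, z ∈ closedBall (t i) r → z ∈ closedBall (t j) r → i = j := by
    intro i j z hi hj
    by_contra hij
    have h1 := hrd i j hij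
    rw [mem_closedBall] at hi hj
    have h4 := dist_triangle (t i) z (t j)
    rw [dist_comm (t i) z] at h4
    linarith
  have hsph : ∀ i, ∀ z ∈ sphere (t i) r, f (v₁, z) ≠ 0 := by
    intro i z hz h0
    have hzc : z ∈ closedBall (t i) r := sphere_subset_closedBall hz
    have hzQ : z ∈ QQ f τ ε v₁ := ⟨hrb i hzc, h0⟩
    rw [← htr] at hzQ
    obtain ⟨j, rfl⟩ := hzQ
    have := hdis i j (t j) hzc (mem_closedBall_self hr0.le)
    subst this
    rw [mem_sphere, dist_self] at hz
    linarith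
  have htube : ∀ᶠ v in 𝓝 v₁, ∀ i, ∀ z ∈ sphere (t i) r, f (v, z) ≠ 0 := by
    rw [eventually_all]
    intro i
    apply IsCompact.eventually_forall_of_forall_eventually (isCompact_sphere (t i) r)
    intro z hz
    have hc : ContinuousAt f (v₁, z) := hf.continuous.continuousAt
    exact hc.eventually_ne (hsph i z hz)
  obtain ⟨ρ, hρ0, hρ⟩ := Metric.eventually_nhds_iff_ball.mp htube
  set J : ℂ → Fin k → ℕ → ℂ := fun v i j =>
    ∮ z in C(t i, r), z ^ j * (deriv (fun t => f (v, t)) z / f (v, z)) with hJ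
  have hJd : ∀ i j, DifferentiableOn ℂ (fun v => J v i j) (ball v₁ ρ) := by
    intro i j
    exact h3 f (ball v₁ ρ) (t i) r hf isOpen_ball hr0 (fun v hv => hρ v hv i) j
  have hA : ∀ v ∈ ball v₁ ρ, ∀ i, ∃ (s : Finset ℂ) (m : ℂ → ℕ),
      (∀ z, z ∈ s ↔ z ∈ ball (t i) r ∧ f (v, z) = 0) ∧ (∀ z ∈ s, 0 < m z) ∧
      ∀ j : ℕ, (2 * Real.pi * Complex.I)⁻¹ * J v i j = ∑ z ∈ s, (m z : ℂ) * z ^ j := by
    intro v hv i
    exact h2 (fun z => f (v, z)) (t i) r
      (hf.comp ((differentiable_const v).prodMk differentiable_id)) hr0 (hρ v hv i)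
  choose! s m hs hm hsum using hA
  set N : ℂ → Fin k → ℕ := fun v i => ∑ z ∈ s v i, m v i z with hN
  have hNJ : ∀ v ∈ ball v₁ ρ, ∀ i, (2 * Real.pi * Complex.I)⁻¹ * J v i 0 = (N v i : ℂ) := by
    intro v hv i
    rw [hsum v hv i 0, hN]
    push_cast
    apply Finset.sum_congr rfl
    intro z _
    rw [pow_zero, mul_one]
  have hv1 : v₁ ∈ ball v₁ ρ := mem_ball_self hρ0
  have hN1 : ∀ i, 0 < N v₁ i := by
    intro i
    have hmem : t i ∈ s v₁ i := (hs v₁ hv1 i (t i)).mpr ⟨mem_ball_self hr0, (htm i).2⟩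
    exact lt_of_lt_of_le (hm v₁ hv1 i (t i) hmem)
      (Finset.single_le_sum (f := fun z => m v₁ i z) (fun _ _ => Nat.zero_le _) hmem)
  have hNc : ∀ᶠ v in 𝓝 v₁, ∀ i, N v i = N v₁ i := by
    rw [eventually_all]
    intro i
    have hc : ContinuousAt (fun v => (2 * Real.pi * Complex.I)⁻¹ * J v i 0) v₁ :=
      continuousAt_const.mul
        ((hJd i 0).continuousOn.continuousAt (isOpen_ball.mem_nhds hv1))
    have h5 : ∀ᶠ v in 𝓝 v₁, dist ((2 * Real.pi * Complex.I)⁻¹ * J v i 0)
        ((2 * Real.pi * Complex.I)⁻¹ * J v₁ i 0) < 1 :=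
      hc.eventually (Metric.ball_mem_nhds _ one_pos)
    filter_upwards [h5, isOpen_ball.mem_nhds hv1] with v hv hvb
    rw [hNJ v hvb i, hNJ v₁ hv1 i, dist_eq_norm] at hv
    exact nat_close_25093 _ _ hv
  have hmain : ∀ v ∈ ball v₁ ρ, (QQ f τ ε v).Finite → (QQ f τ ε v).ncard = k →
      (∀ i, N v i = N v₁ i) → ∃ z : Fin k → ℂ, (∀ i, z i ∈ ball (t i) r) ∧
      QQ f τ ε v = Set.range z ∧ ∀ i, s v i = {z i} := by
    intro v hv hQf hQc hNv
    have hne : ∀ i, (s v i).Nonempty := by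
      intro i
      by_contra h
      rw [Finset.not_nonempty_iff_eq_empty] at h
      have h6 : N v i = 0 := by
        show ∑ z ∈ s v i, m v i z = 0
        rw [h, Finset.sum_empty]
      have h7 := hN1 i
      rw [← hNv i] at h7
      omega
    choose z hz using hne
    have hzb : ∀ i, z i ∈ ball (t i) r ∧ f (v, z i) = 0 := fun i =>
      (hs v hv i (z i)).mp (hz i)
    have hzinj : Function.Injective z := by
      intro i j hij
      apply hdis i j (z i) (ball_subset_closedBall (hzb i).1)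
      rw [hij]
      exact ball_subset_closedBall (hzb j).1
    have hsub : Set.range z ⊆ QQ f τ ε v := by
      rintro _ ⟨i, rfl⟩
      exact ⟨hrb i (ball_subset_closedBall (hzb i).1), (hzb i).2⟩
    have hrc : (Set.range z).ncard = k := by
      rw [← Set.image_univ, Set.ncard_image_of_injective _ hzinj, Set.ncard_univ]
      simp
    have heq : Set.range z = QQ f τ ε v :=
      Set.eq_of_subset_of_ncard_le hsub (by rw [hrc, hQc]) hQf
    refine ⟨z, fun i => (hzb i).1, heq.symm, ?_⟩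
    intro i
    ext x
    rw [Finset.mem_singleton]
    constructor
    · intro hx
      have hx' := (hs v hv i x).mp hx
      have hxQ : x ∈ QQ f τ ε v := ⟨hrb i (ball_subset_closedBall hx'.1), hx'.2⟩
      rw [← heq] at hxQ
      obtain ⟨j, rfl⟩ := hxQ
      rw [hdis j i (z j) (ball_subset_closedBall (hzb j).1) (ball_subset_closedBall hx'.1)]
    · rintro rfl
      exact hz i
  set σ : Fin k → ℂ → ℂ := fun i v =>
    ((N v₁ i : ℂ))⁻¹ * ((2 * Real.pi * Complex.I)⁻¹ * J v i 1) with hσ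
  have hval : ∀ v ∈ ball v₁ ρ, (∀ i, N v i = N v₁ i) → ∀ z : Fin k → ℂ,
      (∀ i, s v i = {z i}) → ∀ i, σ i v = z i := by
    intro v hv hNv z hz i
    have h8 : N v i = m v i (z i) := by
      show ∑ z ∈ s v i, m v i z = _
      rw [hz i, Finset.sum_singleton]
    have h9 : (N v₁ i : ℂ) ≠ 0 := by
      have := hN1 i
      exact_mod_cast this.ne'
    show ((N v₁ i : ℂ))⁻¹ * ((2 * Real.pi * Complex.I)⁻¹ * J v i 1) = z i
    rw [hsum v hv i 1, hz i, Finset.sum_singleton, pow_one, ← h8, hNv i, inv_mul_cancel_left₀ h9]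
  refine ⟨σ, ?_, ?_, ?_⟩
  · intro i
    have hd : DifferentiableOn ℂ (σ i) (ball v₁ ρ) :=
      (differentiableOn_const _).mul ((differentiableOn_const _).mul (hJd i 1))
    exact hd.analyticAt (isOpen_ball.mem_nhds hv1)
  · obtain ⟨z, hzb, _, hzs⟩ := hmain v₁ hv1 hfin hcard (fun _ => rfl)
    have h10 := hval v₁ hv1 (fun _ => rfl) z hzs
    intro i j hij
    have h11 : z i = z j := by
      rw [← h10 i, ← h10 j]
      exact hij
    apply hdis i j (z i) (ball_subset_closedBall (hzb i))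
    rw [h11]
    exact ball_subset_closedBall (hzb j)
  · filter_upwards [hk, hNc, isOpen_ball.mem_nhds hv1] with v hQ hNv hvb
    obtain ⟨z, hzb, hQr, hzs⟩ := hmain v hvb hQ.1 hQ.2 hNv
    have h10 := hval v hvb hNv z hzs
    rw [hQr]
    congr 1
    funext i
    exact (h10 i).symm

end Pool.Agent.Helper890.Cov.JA4

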