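import Mathlib
import Pool.Agent.Helper890.Cov.StA




namespace Pool.Agent.Helper890.Cov.JA5
open MeasureTheory Set Filter Topology Metric
open scoped RealInnerProductSpace

theorem stA5 (h4 : StmtA4) : StmtA5 := by
  classical
  intro f g v₁ τ ε k hf hg hε hsph hQ
  obtain ⟨σ, hσa, hσi, hσr⟩ := h4 f v₁ τ ε k hf hε hsph hQ
  have hua : ∀ i, AnalyticAt ℂ (fun v => g (v, σ i v)) v₁ := by
    intro i
    rw [Complex.analyticAt_iff_eventually_differentiableAt]
    filter_upwards [(hσa i).eventually_analyticAt] with v hv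
    have h1 : DifferentiableAt ℂ (fun v => (v, σ i v)) v :=
      differentiableAt_id.prodMk hv.differentiableAt
    exact (hg _).comp v h1
  obtain ⟨J, hJ⟩ : ∃ J : Finset (Fin k), ∀ i, i ∈ J ↔ ∀ᶠ v in 𝓝 v₁, g (v, σ i v) = 0 :=
    ⟨Finset.univ.filter (fun i => ∀ᶠ v in 𝓝 v₁, g (v, σ i v) = 0), by simp⟩
  refine ⟨σ, J, hσa, hσi, hσr, ?_⟩
  have e1 : ∀ᶠ v in 𝓝 v₁, ∀ᶠ v' in 𝓝 v, QQ f τ ε v' = Set.range (fun i => σ i v') :=
    eventually_eventually_nhds.2 hσr
  have e2 : ∀ᶠ v in 𝓝 v₁, ∀ i, AnalyticAt ℂ (σ i) v :=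
    eventually_all.2 fun i => (hσa i).eventually_analyticAt
  have e3 : ∀ᶠ v in 𝓝 v₁, ∀ i j, i ≠ j → σ i v ≠ σ j v := by
    rw [eventually_all]
    intro i
    rw [eventually_all]
    intro j
    by_cases hij : i = j
    · exact Eventually.of_forall fun v h => absurd hij h
    · have h1 : σ i v₁ - σ j v₁ ≠ 0 := sub_ne_zero.2 fun h => hij (hσi h)
      filter_upwards [((hσa i).continuousAt.sub (hσa j).continuousAt).eventually_ne h1]
        with v hv _
      exact sub_ne_zero.1 hv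
  have e4 : ∀ᶠ v in 𝓝 v₁, ∀ᶠ v' in 𝓝 v, ∀ i ∈ J, g (v', σ i v') = 0 := by
    rw [eventually_eventually_nhds, eventually_all]
    intro i
    by_cases hi : i ∈ J
    · filter_upwards [(hJ i).1 hi] with v hv _
      exact hv
    · exact Eventually.of_forall fun v h => absurd h hi
  have e5 : ∀ᶠ v in 𝓝 v₁, ∀ᶠ v' in 𝓝 v, ∀ i, i ∉ J → v' ≠ v₁ → g (v', σ i v') ≠ 0 := by
    rw [eventually_eventually_nhds, eventually_all]
    intro i
    by_cases hi : i ∈ J
    · exact Eventually.of_forall fun v h => absurd hi h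
    · rcases (hua i).eventually_eq_zero_or_eventually_ne_zero with h | h
      · exact absurd ((hJ i).2 h) hi
      · rw [eventually_nhdsWithin_iff] at h
        filter_upwards [h] with v hv _ hne
        exact hv hne
  filter_upwards [e1, e2, e3, e4, e5] with v c1 c2 c3 c4 c5
  have c1' := c1.self_of_nhds
  have hmem : ∀ i, σ i v ∈ QQ f τ ε v := by
    intro i
    rw [c1']
    exact ⟨i, rfl⟩
  have hA : ∀ i ∈ J, PP f g (v, σ i v) := by
    intro i hi
    refine ⟨(hmem i).2, ?_⟩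
    have d1 : ∀ᶠ q : ℂ × ℂ in 𝓝 (v, σ i v), QQ f τ ε q.1 = Set.range (fun i => σ i q.1) :=
      (continuous_fst.continuousAt (x := ((v, σ i v) : ℂ × ℂ))).eventually c1
    have d2 : ∀ᶠ q : ℂ × ℂ in 𝓝 (v, σ i v), q.2 ∈ ball τ ε :=
      (continuous_snd.continuousAt (x := ((v, σ i v) : ℂ × ℂ))).eventually
        (isOpen_ball.mem_nhds (hmem i).1)
    have d3 : ∀ᶠ q : ℂ × ℂ in 𝓝 (v, σ i v), ∀ j, j ≠ i → q.2 ≠ σ j q.1 := by
      rw [eventually_all]
      intro j
      by_cases hij : j = i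
      · exact Eventually.of_forall fun v h => absurd hij h
      · have h1 : ContinuousAt (fun q : ℂ × ℂ => q.2 - σ j q.1) (v, σ i v) := by
          apply ContinuousAt.sub continuous_snd.continuousAt
          exact ContinuousAt.comp (g := σ j) (f := Prod.fst) (x := ((v, σ i v) : ℂ × ℂ))
            (c2 j).continuousAt continuous_fst.continuousAt
        have h2 : (fun q : ℂ × ℂ => q.2 - σ j q.1) (v, σ i v) ≠ 0 :=
          sub_ne_zero.2 (c3 i j (Ne.symm hij))
        filter_upwards [h1.eventually_ne h2] with q hq _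
        exact sub_ne_zero.1 hq
    have d4 : ∀ᶠ q : ℂ × ℂ in 𝓝 (v, σ i v), ∀ i ∈ J, g (q.1, σ i q.1) = 0 :=
      (continuous_fst.continuousAt (x := ((v, σ i v) : ℂ × ℂ))).eventually c4
    filter_upwards [d1, d2, d3, d4] with q q1 q2 q3 q4 hfq
    have h3 : q.2 ∈ QQ f τ ε q.1 := ⟨q2, hfq⟩
    rw [q1] at h3
    obtain ⟨j, hj⟩ := h3
    have hj' : σ j q.1 = q.2 := hj
    have hji : j = i := by
      by_contra hne
      exact q3 j hne hj'.symm
    subst hji
    have h5 := q4 j hi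
    rw [hj'] at h5
    exact h5
  have hB : ∀ i, i ∉ J → ¬ PP f g (v, σ i v) := by
    rintro i hi ⟨-, hP⟩
    have h1 : ContinuousAt (fun v' => (v', σ i v')) v :=
      continuousAt_id.prodMk (c2 i).continuousAt
    have h2 : ∀ᶠ v' in 𝓝 v, f (v', σ i v') = 0 → g (v', σ i v') = 0 := h1.eventually hP
    have h3 : ∀ᶠ v' in 𝓝 v, v' = v₁ := by
      filter_upwards [h2, c1, c5] with v' k1 k2 k3
      by_contra hne
      apply k3 i hi hne
      apply k1
      have : σ i v' ∈ QQ f τ ε v' := by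
        rw [k2]
        exact ⟨i, rfl⟩
      exact this.2
    have h4 : v = v₁ := h3.self_of_nhds
    subst h4
    have h5 : ∀ᶠ v' in 𝓝[≠] v, v' = v := h3.filter_mono nhdsWithin_le_nhds
    have h6 : ∀ᶠ v' in 𝓝[≠] v, v' ≠ v := self_mem_nhdsWithin
    obtain ⟨w, hw1, hw2⟩ := (h5.and h6).exists
    exact hw2 hw1
  ext t
  constructor
  · rintro ⟨ht1, ht2⟩
    have h3 : t ∈ QQ f τ ε v := ⟨ht1, ht2.1⟩
    rw [c1'] at h3
    obtain ⟨i, hi⟩ := h3
    have hi' : σ i v = t := hi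
    refine ⟨i, ?_, hi'⟩
    by_contra hn
    apply hB i hn
    rw [hi']
    exact ht2
  · rintro ⟨i, hi, rfl⟩
    exact ⟨(hmem i).1, hA i hi⟩

end Pool.Agent.Helper890.Cov.JA5
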