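import Mathlib
import Pool.Agent.Helper890.Cov.StA




namespace Pool.Agent.Helper890.Cov.JA6
open MeasureTheory Set Filter Topology Metric
open scoped RealInnerProductSpace



theorem stA6 (h1 : StmtA1) (h2 : StmtA2) (h3 : StmtA3) : StmtA6 := by
  intro f v₀ τ ε hf hε hsph
  -- a disc on which there are no zeros on the circle
  have hopen : ∀ᶠ v in 𝓝 v₀, ∀ t ∈ sphere τ ε, f (v, t) ≠ 0 := by
    apply (isCompact_sphere τ ε).eventually_forall_of_forall_eventually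
    intro t ht
    exact hf.continuous.continuousAt.eventually_ne (hsph t ht)
  obtain ⟨δ, hδ, hU⟩ := Metric.eventually_nhds_iff_ball.1 hopen
  set p : ℕ → ℂ → ℂ := fun j v => (2 * Real.pi * Complex.I)⁻¹ *
    (∮ z in C(τ, ε), z ^ j * (deriv (fun t => f (v, t)) z / f (v, z))) with hpdef
  have hp : ∀ j, DifferentiableOn ℂ (p j) (ball v₀ δ) := fun j =>
    (h3 f (ball v₀ δ) τ ε hf isOpen_ball hε hU j).const_mul _
  have hkey : ∀ v, ∃ (s : Finset ℂ) (m : ℂ → ℕ), v ∈ ball v₀ δ →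
      (∀ t, t ∈ s ↔ t ∈ ball τ ε ∧ f (v, t) = 0) ∧ (∀ t ∈ s, 0 < m t) ∧
      ∀ j, p j v = ∑ t ∈ s, (m t : ℂ) * t ^ j := by
    intro v
    by_cases hv : v ∈ ball v₀ δ
    · have hφ : Differentiable ℂ (fun t => f (v, t)) :=
        hf.comp ((differentiable_const v).prodMk differentiable_id)
      obtain ⟨s, m, e1, e2, e3⟩ := h2 (fun t => f (v, t)) τ ε hφ hε (hU v hv)
      exact ⟨s, m, fun _ => ⟨e1, e2, e3⟩⟩
    · exact ⟨∅, fun _ => 0, fun h => absurd h hv⟩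
  choose s m hsm using hkey
  -- boundedness of the number of zeros
  have hp0 : ContinuousAt (p 0) v₀ :=
    (hp 0).continuousOn.continuousAt (isOpen_ball.mem_nhds (mem_ball_self hδ))
  have hev : ∀ᶠ v in 𝓝 v₀, ‖p 0 v‖ < ‖p 0 v₀‖ + 1 :=
    hp0.norm.eventually_lt continuousAt_const (lt_add_one _)
  obtain ⟨δ₁, hδ₁, hb1⟩ := Metric.eventually_nhds_iff_ball.1 hev
  set δ' := min δ δ₁ with hδ'
  have hδ'p : 0 < δ' := lt_min hδ hδ₁
  have hsub : ball v₀ δ' ⊆ ball v₀ δ := ball_subset_ball (min_le_left _ _)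
  have hsub1 : ball v₀ δ' ⊆ ball v₀ δ₁ := ball_subset_ball (min_le_right _ _)
  have hcard : ∀ v ∈ ball v₀ δ', (s v).card ≤ ⌈‖p 0 v₀‖ + 1⌉₊ := by
    intro v hv
    obtain ⟨e1, e2, e3⟩ := hsm v (hsub hv)
    have h4 : p 0 v = ((∑ t ∈ s v, m v t : ℕ) : ℂ) := by
      rw [e3 0]
      push_cast
      apply Finset.sum_congr rfl
      intro t _
      rw [pow_zero, mul_one]
    have h5 : (s v).card ≤ ∑ t ∈ s v, m v t := by
      rw [Finset.card_eq_sum_ones]
      exact Finset.sum_le_sum fun t ht => e2 t ht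
    have h6 := hb1 v (hsub1 hv)
    rw [h4, Complex.norm_natCast] at h6
    have h7 : ((s v).card : ℝ) ≤ (⌈‖p 0 v₀‖ + 1⌉₊ : ℝ) := by
      calc ((s v).card : ℝ) ≤ ((∑ t ∈ s v, m v t : ℕ) : ℝ) := by exact_mod_cast h5
        _ ≤ ‖p 0 v₀‖ + 1 := h6.le
        _ ≤ _ := Nat.le_ceil _
    exact_mod_cast h7
  -- the maximal number of zeros
  have hbdd : BddAbove {N | ∃ v ∈ ball v₀ δ', (s v).card = N} := by
    refine ⟨⌈‖p 0 v₀‖ + 1⌉₊, ?_⟩
    rintro _ ⟨v, hv, rfl⟩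
    exact hcard v hv
  have hne : {N | ∃ v ∈ ball v₀ δ', (s v).card = N}.Nonempty :=
    ⟨_, v₀, mem_ball_self hδ'p, rfl⟩
  obtain ⟨vs, hvs, hk⟩ := Nat.sSup_mem hne hbdd
  set k := sSup {N | ∃ v ∈ ball v₀ δ', (s v).card = N} with hkdef
  have hmax : ∀ v ∈ ball v₀ δ', (s v).card ≤ k := fun v hv => le_csSup hbdd ⟨v, hv, rfl⟩
  set D : ℂ → ℂ := fun v => (Matrix.of (fun i j : Fin k => p ((i : ℕ) + (j : ℕ)) v)).det with hD
  have hDd : DifferentiableOn ℂ D (ball v₀ δ') := by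
    rw [hD]
    simp only [Matrix.det_apply']
    apply DifferentiableOn.fun_sum
    intro σ _
    apply DifferentiableOn.const_mul
    apply DifferentiableOn.fun_finsetProd
    intro i _
    exact (hp _).mono hsub
  have hDa : AnalyticOnNhd ℂ D (ball v₀ δ') := hDd.analyticOnNhd isOpen_ball
  have hDv : ∀ v ∈ ball v₀ δ', D v = (Matrix.of (fun i j : Fin k =>
      ∑ t ∈ s v, (m v t : ℂ) * t ^ ((i : ℕ) + (j : ℕ)))).det := by
    intro v hv
    obtain ⟨e1, e2, e3⟩ := hsm v (hsub hv)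
    show (Matrix.of (fun i j : Fin k => p ((i : ℕ) + (j : ℕ)) v)).det = _
    congr 1
    ext i j
    simp only [Matrix.of_apply]
    exact e3 _
  have hDs : D vs ≠ 0 := by
    rw [hDv vs hvs]
    exact (h1 (s vs) (m vs) (hsm vs (hsub hvs)).2.1 k).2 hk
  have hDk : ∀ v ∈ ball v₀ δ', D v ≠ 0 → (s v).card = k := by
    intro v hv hne0
    rcases (hmax v hv).lt_or_eq with h | h
    · exfalso
      apply hne0
      rw [hDv v hv]
      exact (h1 (s v) (m v) (hsm v (hsub hv)).2.1 k).1 h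
    · exact h
  refine ⟨k, ?_⟩
  have hpunct : ∀ᶠ v in 𝓝[≠] v₀, D v ≠ 0 := by
    rcases (hDa v₀ (mem_ball_self hδ'p)).eventually_eq_zero_or_eventually_ne_zero with h | h
    · exfalso
      apply hDs
      exact hDa.eqOn_zero_of_preconnected_of_eventuallyEq_zero
        (convex_ball v₀ δ').isPreconnected (mem_ball_self hδ'p) h hvs
    · exact h
  have hin : ∀ᶠ v in 𝓝[≠] v₀, v ∈ ball v₀ δ' :=
    mem_nhdsWithin_of_mem_nhds (isOpen_ball.mem_nhds (mem_ball_self hδ'p))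
  filter_upwards [hpunct, hin] with v hv1 hv2
  have hc := hDk v hv2 hv1
  have hQ : QQ f τ ε v = ↑(s v) := by
    ext t
    exact ((hsm v (hsub hv2)).1 t).symm
  rw [hQ]
  exact ⟨(s v).finite_toSet, by rw [Set.ncard_coe_finset]; exact hc⟩

end Pool.Agent.Helper890.Cov.JA6
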