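import Mathlib
import Pool.Agent.Helper890.Cov.StA




namespace Pool.Agent.Helper890.Cov.JA7
open MeasureTheory Set Filter Topology Metric
open scoped RealInnerProductSpace

theorem stA7_finZ (f : ℂ × ℂ → ℂ) (hf : Differentiable ℂ f) (v : ℂ) (h0 : f (v, 0) ≠ 0) (r : ℝ) :
    {t : ℂ | t ∈ closedBall 0 r ∧ f (v, t) = 0}.Finite := by
  by_contra hinf
  have hinf' : Set.Infinite {t : ℂ | t ∈ closedBall 0 r ∧ f (v, t) = 0} := hinf
  obtain ⟨z, hz, hacc⟩ := hinf'.exists_accPt_of_subset_isCompact (isCompact_closedBall 0 r)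
    (fun t ht => ht.1)
  have hd : Differentiable ℂ (fun t => f (v, t)) := hf.comp (by fun_prop)
  have han : AnalyticOnNhd ℂ (fun t => f (v, t)) univ := fun x _ => hd.analyticAt x
  have hfreq : ∃ᶠ t in 𝓝[≠] z, f (v, t) = 0 :=
    (accPt_iff_frequently_nhdsNE.1 hacc).mono (fun t ht => ht.2)
  have := han.eqOn_zero_of_preconnected_of_frequently_eq_zero isPreconnected_univ (mem_univ z) hfreq
  exact h0 (this (mem_univ 0))

theorem stA7_sum (v₀ : ℂ) (T : Finset ℂ) (F : ℂ → ℂ → ℝ) (a : ℂ → ℝ) (hF : ∀ τ ∈ T, Loc (F τ) v₀)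
    (ha : ∀ᶠ v in 𝓝 v₀, a v = ∑ τ ∈ T, F τ v) : Loc a v₀ := by
  classical
  have hex : ∀ τ : ℂ, ∃ b : ℂ → ℝ, τ ∈ T → ((∀ᶠ v in 𝓝 v₀, ContinuousAt b v) ∧
    (∀ᶠ v in 𝓝[≠] v₀, F τ v = b v) ∧ F τ v₀ ≤ b v₀ ∧
    ∀ᶠ v in 𝓝 v₀, ∀ᶠ r in 𝓝[>] (0 : ℝ), b v ≤ Real.circleAverage b v r) := by
    intro τ
    by_cases h : τ ∈ T
    · obtain ⟨b, hb⟩ := hF τ h
      exact ⟨b, fun _ => hb⟩
    · exact ⟨fun _ => 0, fun h' => absurd h' h⟩
  choose b hb using hex
  have hcont : ∀ᶠ v in 𝓝 v₀, ∀ τ ∈ T, ContinuousAt (b τ) v := by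
    rw [Filter.eventually_all_finset]
    exact fun τ hτ => (hb τ hτ).1
  refine ⟨fun v => ∑ τ ∈ T, b τ v, ?_, ?_, ?_, ?_⟩
  · filter_upwards [hcont] with v hv
    exact tendsto_finset_sum _ fun τ hτ => hv τ hτ
  · have h1 : ∀ᶠ v in 𝓝[≠] v₀, ∀ τ ∈ T, F τ v = b τ v := by
      rw [Filter.eventually_all_finset]
      exact fun τ hτ => (hb τ hτ).2.1
    filter_upwards [h1, ha.filter_mono nhdsWithin_le_nhds] with v hv1 hv2
    rw [hv2]
    exact Finset.sum_congr rfl hv1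
  · rw [ha.self_of_nhds]
    exact Finset.sum_le_sum fun τ hτ => (hb τ hτ).2.2.1
  · have h1 : ∀ᶠ v in 𝓝 v₀, ∀ τ ∈ T, ∀ᶠ r in 𝓝[>] (0 : ℝ),
        b τ v ≤ Real.circleAverage (b τ) v r := by
      rw [Filter.eventually_all_finset]
      exact fun τ hτ => (hb τ hτ).2.2.2
    have hcont2 : ∀ᶠ v in 𝓝 v₀, ∀ᶠ w in 𝓝 v, ∀ τ ∈ T, ContinuousAt (b τ) w :=
      eventually_eventually_nhds.2 hcont
    filter_upwards [h1, hcont2] with v hv1 hv2
    obtain ⟨δ, hδ, hball⟩ := Metric.eventually_nhds_iff_ball.1 hv2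
    have h2 : ∀ᶠ r in 𝓝[>] (0 : ℝ), ∀ τ ∈ T, b τ v ≤ Real.circleAverage (b τ) v r := by
      rw [Filter.eventually_all_finset]
      exact fun τ hτ => hv1 τ hτ
    have h3 : ∀ᶠ r in 𝓝[>] (0 : ℝ), r < δ := by
      apply Filter.Eventually.filter_mono nhdsWithin_le_nhds
      exact eventually_lt_nhds hδ
    filter_upwards [h2, h3, self_mem_nhdsWithin] with r hr1 hr2 hr3
    have hr3' : (0 : ℝ) < r := hr3
    rw [Real.circleAverage_fun_sum]
    · exact Finset.sum_le_sum hr1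
    · intro τ hτ
      apply ContinuousOn.circleIntegrable hr3'.le
      intro w hw
      have hw' : w ∈ ball v δ := by
        rw [mem_sphere] at hw
        rw [mem_ball, hw]
        exact hr2
      exact (hball w hw' τ hτ).continuousWithinAt

theorem stA7 (h2 : StmtA2) (h7a : StmtA7a) : StmtA7 := by
  classical
  intro f g R hf hg hR h0 v₀
  have hfin := fun v r => stA7_finZ f hf v (h0 v) r
  set T' := (hfin v₀ (R + 1)).toFinset with hT'
  set T := (hfin v₀ R).toFinset with hT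
  have memT' : ∀ t, t ∈ T' ↔ (t ∈ closedBall (0 : ℂ) (R + 1) ∧ f (v₀, t) = 0) := by
    intro t; rw [hT', Set.Finite.mem_toFinset]; rfl
  have memT : ∀ t, t ∈ T ↔ (t ∈ closedBall (0 : ℂ) R ∧ f (v₀, t) = 0) := by
    intro t; rw [hT, Set.Finite.mem_toFinset]; rfl
  have hTT' : ∀ t ∈ T, t ∈ T' := by
    intro t ht
    rw [memT] at ht
    rw [memT']
    exact ⟨closedBall_subset_closedBall (by linarith) ht.1, ht.2⟩
  have hsmall : ∀ c : ℝ, 0 < c → ∀ᶠ ε in 𝓝[>] (0 : ℝ), ε < c := fun c hc =>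
    Filter.Eventually.filter_mono nhdsWithin_le_nhds (eventually_lt_nhds hc)
  have hTne : ∀ τ ∈ T, τ ≠ 0 := by
    intro τ hτ h
    rw [memT, h] at hτ
    exact h0 v₀ hτ.2
  have e1 : ∀ᶠ ε in 𝓝[>] (0 : ℝ), ∀ τ ∈ T', ∀ t ∈ T', t ≠ τ → ε < dist t τ / 2 := by
    rw [Filter.eventually_all_finset]
    intro τ _
    rw [Filter.eventually_all_finset]
    intro t _
    by_cases h : t = τ
    · exact Filter.Eventually.of_forall fun ε h' => absurd h h'
    · filter_upwards [hsmall (dist t τ / 2) (by have := dist_pos.2 h; positivity)] with ε hε _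
      exact hε
  have e2 : ∀ᶠ ε in 𝓝[>] (0 : ℝ), ∀ τ ∈ T, ε < ‖τ‖ := by
    rw [Filter.eventually_all_finset]
    intro τ hτ
    exact hsmall _ (norm_pos_iff.2 (hTne τ hτ))
  have e3 : ∀ᶠ ε in 𝓝[>] (0 : ℝ), ∀ τ ∈ T, ‖τ‖ < R → ε < R - ‖τ‖ := by
    rw [Filter.eventually_all_finset]
    intro τ _
    by_cases h : ‖τ‖ < R
    · filter_upwards [hsmall (R - ‖τ‖) (by linarith)] with ε hε _
      exact hε
    · exact Filter.Eventually.of_forall fun ε h' => absurd h' h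
  obtain ⟨ε, hε1, hε2, hε3, hε4, hε5⟩ := (e1.and (e2.and (e3.and ((hsmall 1 one_pos).and
    self_mem_nhdsWithin)))).exists
  have hε0 : 0 < ε := hε5
  have hiso : ∀ τ ∈ T, ∀ t ∈ closedBall τ ε, f (v₀, t) = 0 → t = τ := by
    intro τ hτ t ht hft
    by_contra hne
    have ht' : t ∈ T' := by
      rw [memT']
      refine ⟨?_, hft⟩
      rw [mem_closedBall] at ht ⊢
      have hτR := ((memT τ).1 hτ).1
      rw [mem_closedBall] at hτR
      have := dist_triangle t τ 0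
      linarith
    have := hε1 τ (hTT' τ hτ) t ht' hne
    rw [mem_closedBall] at ht
    have h5 := dist_nonneg (x := t) (y := τ)
    linarith
  have hdisj : (T : Set ℂ).PairwiseDisjoint (fun τ => ball τ ε) := by
    intro τ hτ t ht hne
    apply ball_disjoint_ball
    have := hε1 τ (hTT' τ hτ) t (hTT' t ht) hne.symm
    rw [dist_comm] at this
    linarith
  have hzero : ∀ τ ∈ T, (0 : ℂ) ∉ closedBall τ ε := by
    intro τ hτ h
    rw [mem_closedBall, dist_zero_left] at h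
    have := hε2 τ hτ
    linarith
  have hin : ∀ τ ∈ T, ‖τ‖ < R → ∀ t ∈ ball τ ε, ‖t‖ < R := by
    intro τ hτ hτR t ht
    have := hε3 τ hτ hτR
    rw [mem_ball, dist_eq_norm] at ht
    have h6 : ‖t‖ ≤ ‖t - τ‖ + ‖τ‖ := by
      have := norm_add_le (t - τ) τ
      rwa [sub_add_cancel] at this
    linarith
  -- all zeros near
  have hcomp : ∀ᶠ v in 𝓝 v₀, ∀ t ∈ closedBall (0 : ℂ) R \ ⋃ τ ∈ T, ball τ ε, f (v, t) ≠ 0 := by
    have hK : IsCompact (closedBall (0 : ℂ) R \ ⋃ τ ∈ T, ball τ ε) := by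
      apply (isCompact_closedBall 0 R).diff
      exact isOpen_biUnion fun τ _ => isOpen_ball
    apply hK.eventually_forall_of_forall_eventually
    intro t ht
    have hne : f (v₀, t) ≠ 0 := by
      intro h
      apply ht.2
      rw [mem_iUnion₂]
      exact ⟨t, (memT t).2 ⟨ht.1, h⟩, mem_ball_self hε0⟩
    have hc : ContinuousAt f (v₀, t) := hf.continuous.continuousAt
    exact hc.eventually_ne hne
  apply stA7_sum v₀ T (fun τ => clus f g R τ ε)
  · intro τ hτ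
    have hτ' := (memT τ).1 hτ
    exact h7a f g R v₀ τ ε hf hg hR hε0 hτ'.2 (hTne τ hτ) (by simpa using hτ'.1) (hiso τ hτ)
      (hzero τ hτ) (hin τ hτ)
  · filter_upwards [hcomp] with v hv
    have hC : ∀ τ ∈ T, {t | t ∈ ball τ ε ∧ PP f g (v, t)}.Finite := by
      intro τ hτ
      apply (hfin v (R + 1)).subset
      intro t ht
      refine ⟨?_, ht.2.1⟩
      have hτR := ((memT τ).1 hτ).1
      have h1 := ht.1
      rw [mem_closedBall] at hτR ⊢
      rw [mem_ball] at h1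
      have := dist_triangle t τ 0
      linarith
    have hdisj2 : (T : Set ℂ).PairwiseDisjoint (fun τ => {t | t ∈ ball τ ε ∧ PP f g (v, t)}) := by
      intro τ hτ t ht hne
      exact (hdisj hτ ht hne).mono (fun x hx => hx.1) (fun x hx => hx.1)
    have h1 : ∑ τ ∈ T, clus f g R τ ε v =
        ∑ᶠ t ∈ ⋃ τ ∈ (T : Set ℂ), {t | t ∈ ball τ ε ∧ PP f g (v, t)}, max 0 (Real.log (R / ‖t‖)) := by
      rw [finsum_mem_biUnion hdisj2 T.finite_toSet hC, finsum_mem_coe_finset]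
      rfl
    rw [h1]
    unfold Afun
    have hfinU : (⋃ τ ∈ (T : Set ℂ), {t | t ∈ ball τ ε ∧ PP f g (v, t)}).Finite :=
      T.finite_toSet.biUnion hC
    have hSsub : {t | ‖t‖ < R ∧ PP f g (v, t)} ⊆
        ⋃ τ ∈ (T : Set ℂ), {t | t ∈ ball τ ε ∧ PP f g (v, t)} := by
      intro t ht
      by_contra hcon
      have h3 : t ∈ closedBall (0 : ℂ) R \ ⋃ τ ∈ T, ball τ ε := by
        refine ⟨by simpa using ht.1.le, fun h4 => hcon ?_⟩
        rw [mem_iUnion₂] at h4 ⊢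
        obtain ⟨τ, hτ, h5⟩ := h4
        exact ⟨τ, hτ, h5, ht.2⟩
      exact hv t h3 ht.2.1
    have hfinS : {t | ‖t‖ < R ∧ PP f g (v, t)}.Finite := hfinU.subset hSsub
    rw [finsum_mem_eq_finite_toFinset_sum _ hfinU, finsum_mem_eq_finite_toFinset_sum _ hfinS]
    have hsub2 : hfinS.toFinset ⊆ hfinU.toFinset := by
      intro t ht
      rw [Set.Finite.mem_toFinset] at ht ⊢
      exact hSsub ht
    have hpos : ∀ t : ℂ, ‖t‖ < R → PP f g (v, t) → 0 ≤ Real.log (R / ‖t‖) := by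
      intro t ht hP
      have ht0 : t ≠ 0 := by
        intro h
        rw [h] at hP
        exact h0 v hP.1
      have ht0' : 0 < ‖t‖ := norm_pos_iff.2 ht0
      apply Real.log_nonneg
      rw [le_div_iff₀ ht0']
      linarith
    rw [← Finset.sum_subset hsub2 (f := fun t => max 0 (Real.log (R / ‖t‖)))]
    · apply Finset.sum_congr rfl
      intro t ht
      rw [Set.Finite.mem_toFinset] at ht
      rw [max_eq_right (hpos t ht.1 ht.2)]
    · intro t ht1 ht2
      rw [Set.Finite.mem_toFinset] at ht1 ht2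
      rw [mem_iUnion₂] at ht1
      obtain ⟨τ, hτ, h5⟩ := ht1
      have hge : R ≤ ‖t‖ := by
        by_contra hlt
        exact ht2 ⟨not_le.1 hlt, h5.2⟩
      apply max_eq_left
      apply Real.log_nonpos (by positivity)
      exact div_le_one_of_le₀ hge (norm_nonneg _)

end Pool.Agent.Helper890.Cov.JA7
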