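import Mathlib
import Pool.Agent.Helper890.Cov.StA




namespace Pool.Agent.Helper890.Cov.JA7a
open MeasureTheory Set Filter Topology Metric
open scoped RealInnerProductSpace


def Good (a : ℂ → ℝ) (v : ℂ) : Prop := (∀ᶠ w in 𝓝 v, ContinuousAt a w) ∧
  ∀ᶠ r in 𝓝[>] (0 : ℝ), a v ≤ Real.circleAverage a v r

theorem ev_closedBall {p : ℂ → Prop} {v : ℂ} (h : ∀ᶠ w in 𝓝 v, p w) :
    ∀ᶠ r in 𝓝[>] (0 : ℝ), 0 < r ∧ ∀ w ∈ closedBall v r, p w := by
  obtain ⟨δ, hδ, hb⟩ := Metric.eventually_nhds_iff_ball.1 h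
  filter_upwards [Ioo_mem_nhdsGT hδ] with r hr
  refine ⟨hr.1, fun w hw => hb w ?_⟩
  rw [mem_closedBall] at hw
  rw [mem_ball]
  exact lt_of_le_of_lt hw hr.2

theorem Good_congr {a b : ℂ → ℝ} {v : ℂ} (h : ∀ᶠ w in 𝓝 v, b w = a w) (ha : Good a v) :
    Good b v := by
  refine ⟨?_, ?_⟩
  · filter_upwards [ha.1, h.eventually_nhds] with w hw h2
    exact hw.congr (h2.mono fun x hx => hx.symm)
  · filter_upwards [ha.2, ev_closedBall h] with r hr h2
    rw [h.self_of_nhds]
    have : Real.circleAverage b v r = Real.circleAverage a v r := by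
      apply Real.circleAverage_congr_sphere
      intro x hx
      rw [abs_of_pos h2.1] at hx
      exact h2.2 x (sphere_subset_closedBall hx)
    rw [this]
    exact hr

theorem ci_of {a : ℂ → ℝ} {v : ℂ} {r : ℝ} (hr : 0 < r)
    (h : ∀ w ∈ closedBall v r, ContinuousAt a w) : CircleIntegrable a v r := by
  apply ContinuousOn.circleIntegrable hr.le
  intro w hw
  exact (h w (sphere_subset_closedBall hw)).continuousWithinAt

theorem Good_sum {ι : Type*} {J : Finset ι} {a : ι → ℂ → ℝ} {v : ℂ}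
    (h : ∀ j ∈ J, Good (a j) v) : Good (fun w => ∑ j ∈ J, a j w) v := by
  have h1 : ∀ᶠ w in 𝓝 v, ∀ j ∈ J, ContinuousAt (a j) w := by
    rw [Filter.eventually_all_finset]
    exact fun j hj => (h j hj).1
  refine ⟨?_, ?_⟩
  · filter_upwards [h1] with w hw
    exact tendsto_finsetSum _ fun j hj => hw j hj
  · have h2 : ∀ᶠ r in 𝓝[>] (0 : ℝ), ∀ j ∈ J, a j v ≤ Real.circleAverage (a j) v r := by
      rw [Filter.eventually_all_finset]
      exact fun j hj => (h j hj).2
    filter_upwards [h2, ev_closedBall h1] with r hr h3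
    rw [Real.circleAverage_fun_sum]
    · exact Finset.sum_le_sum hr
    · intro j hj
      exact ci_of h3.1 fun w hw => h3.2 w hw j hj

theorem Good_max {a : ℂ → ℝ} {v : ℂ} (h : Good a v) : Good (fun w => max 0 (a w)) v := by
  have hc : ∀ᶠ w in 𝓝 v, ContinuousAt (fun w => max 0 (a w)) w := by
    filter_upwards [h.1] with w hw
    exact continuousAt_const.max hw
  refine ⟨hc, ?_⟩
  filter_upwards [h.2, ev_closedBall h.1, ev_closedBall hc] with r h1 h2 h3
  apply max_le
  · apply Real.circleAverage_nonneg_of_nonneg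
    intro x _
    exact le_max_left _ _
  · apply h1.trans
    apply Real.circleAverage_mono (ci_of h2.1 h2.2) (ci_of h3.1 h3.2)
    intro x _
    exact le_max_right _ _

theorem Good_log {s : ℂ → ℂ} {v : ℂ} (C : ℝ) (hs : AnalyticAt ℂ s v) (h0 : s v ≠ 0) :
    Good (fun w => C - Real.log ‖s w‖) v := by
  have h1 : ∀ᶠ w in 𝓝 v, AnalyticAt ℂ s w ∧ s w ≠ 0 :=
    hs.eventually_analyticAt.and (hs.continuousAt.eventually_ne h0)
  have hl : ∀ᶠ w in 𝓝 v, ContinuousAt (fun w => Real.log ‖s w‖) w := by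
    filter_upwards [h1] with w hw
    exact (hw.1.continuousAt.norm).log (norm_ne_zero_iff.2 hw.2)
  refine ⟨?_, ?_⟩
  · filter_upwards [hl] with w hw
    exact continuousAt_const.sub hw
  · filter_upwards [ev_closedBall h1, ev_closedBall hl] with r h2 h3
    rw [Real.circleAverage_fun_sub (circleIntegrable_const _ _ _) (ci_of h3.1 h3.2),
      Real.circleAverage_const, AnalyticOnNhd.circleAverage_log_norm_of_ne_zero]
    · intro x hx
      rw [abs_of_pos h2.1] at hx
      exact (h2.2 x hx).1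
    · intro x hx
      rw [abs_of_pos h2.1] at hx
      exact (h2.2 x hx).2


def Br (f g : ℂ × ℂ → ℂ) (τ : ℂ) (ε : ℝ) (k : ℕ) (v₁ : ℂ) : Prop :=
  ∃ (σ : Fin k → ℂ → ℂ) (J : Finset (Fin k)), (∀ i, AnalyticAt ℂ (σ i) v₁) ∧
    ∀ᶠ v in 𝓝 v₁, (Function.Injective fun i => σ i v) ∧ (∀ i, σ i v ∈ ball τ ε) ∧
      {t | t ∈ ball τ ε ∧ PP f g (v, t)} = (fun i => σ i v) '' (J : Set (Fin k))

theorem Br_of (h5 : StmtA5) {f g : ℂ × ℂ → ℂ} (hf : Differentiable ℂ f) (hg : Differentiable ℂ g)
    {τ : ℂ} {ε : ℝ} (hε : 0 < ε) {k : ℕ} {v₁ : ℂ} (hs : ∀ t ∈ sphere τ ε, f (v₁, t) ≠ 0)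
    (hQ : ∀ᶠ v in 𝓝 v₁, (QQ f τ ε v).Finite ∧ (QQ f τ ε v).ncard = k) : Br f g τ ε k v₁ := by
  obtain ⟨σ, J, hA, hI, hR, hP⟩ := h5 f g v₁ τ ε k hf hg hε hs hQ
  refine ⟨σ, J, hA, ?_⟩
  have h1 : ∀ᶠ v in 𝓝 v₁, ∀ i j : Fin k, i ≠ j → σ i v ≠ σ j v := by
    rw [Filter.eventually_all]
    intro i
    rw [Filter.eventually_all]
    intro j
    by_cases hij : i = j
    · exact Filter.Eventually.of_forall fun v h => absurd hij h
    · have h2 : σ i v₁ - σ j v₁ ≠ 0 := sub_ne_zero.2 fun h => hij (hI h)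
      have h3 := ((hA i).continuousAt.sub (hA j).continuousAt).eventually_ne h2
      filter_upwards [h3] with v hv _
      exact sub_ne_zero.1 hv
  filter_upwards [h1, hR, hP] with v h1 h2 h3
  refine ⟨?_, ?_, h3⟩
  · intro i j hij
    by_contra hne
    exact h1 i j hne hij
  · intro i
    have : σ i v ∈ QQ f τ ε v := by
      rw [h2]
      exact ⟨i, rfl⟩
    exact this.1

theorem Br_sum {f g : ℂ × ℂ → ℂ} {τ : ℂ} {ε : ℝ} {k : ℕ} {v : ℂ} {σ : Fin k → ℂ → ℂ}
    {J : Finset (Fin k)} (hI : Function.Injective fun i => σ i v)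
    (hP : {t | t ∈ ball τ ε ∧ PP f g (v, t)} = (fun i => σ i v) '' (J : Set (Fin k)))
    (φ : ℂ → ℝ) : ∑ᶠ t ∈ {t | t ∈ ball τ ε ∧ PP f g (v, t)}, φ t = ∑ j ∈ J, φ (σ j v) := by
  rw [hP, finsum_mem_image hI.injOn, finsum_mem_coe_finset]

theorem Br_prod {f g : ℂ × ℂ → ℂ} {τ : ℂ} {ε : ℝ} {k : ℕ} {v : ℂ} {σ : Fin k → ℂ → ℂ}
    {J : Finset (Fin k)} (hI : Function.Injective fun i => σ i v)
    (hP : {t | t ∈ ball τ ε ∧ PP f g (v, t)} = (fun i => σ i v) '' (J : Set (Fin k)))
     : ∏ᶠ t ∈ {t | t ∈ ball τ ε ∧ PP f g (v, t)}, t = ∏ j ∈ J, (σ j v) := by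
  rw [hP, finprod_mem_image hI.injOn, finprod_mem_coe_finset]

theorem Br_card {f g : ℂ × ℂ → ℂ} {τ : ℂ} {ε : ℝ} {k : ℕ} {v : ℂ} {σ : Fin k → ℂ → ℂ}
    {J : Finset (Fin k)} (hI : Function.Injective fun i => σ i v)
    (hP : {t | t ∈ ball τ ε ∧ PP f g (v, t)} = (fun i => σ i v) '' (J : Set (Fin k)))
     : {t | t ∈ ball τ ε ∧ PP f g (v, t)}.Finite ∧
      {t | t ∈ ball τ ε ∧ PP f g (v, t)}.ncard = J.card := by
  rw [hP]
  refine ⟨(Finset.finite_toSet J).image _, ?_⟩
  rw [Set.ncard_image_of_injective _ hI, Set.ncard_coe_finset]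

theorem tube {f : ℂ × ℂ → ℂ} (hf : Differentiable ℂ f) {v₀ τ : ℂ} {ε ε' : ℝ} (hε' : 0 < ε')
    (h : ∀ t ∈ closedBall τ ε, f (v₀, t) = 0 → t = τ) :
    ∀ᶠ v in 𝓝 v₀, ∀ t ∈ closedBall τ ε \ ball τ ε', f (v, t) ≠ 0 := by
  apply IsCompact.eventually_forall_of_forall_eventually
    (P := fun v t => f (v, t) ≠ 0) ((isCompact_closedBall τ ε).diff isOpen_ball)
  intro y hy
  have h1 : f (v₀, y) ≠ 0 := by
    intro h0
    have := h y hy.1 h0
    apply hy.2
    rw [this]
    exact mem_ball_self hε'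
  exact hf.continuous.continuousAt.eventually_ne h1

theorem persist {f : ℂ × ℂ → ℂ} (hf : Differentiable ℂ f) {v₀ τ : ℂ} {ε ε' : ℝ} (hε' : 0 < ε')
    (hle : ε' ≤ ε) (h0 : f (v₀, τ) = 0)
    (h : ∀ t ∈ closedBall τ ε, f (v₀, t) = 0 → t = τ) :
    ∀ᶠ v in 𝓝 v₀, ∃ t ∈ ball τ ε', f (v, t) = 0 := by
  have hcf : Continuous fun t => f (v₀, t) := hf.continuous.comp (by fun_prop)
  have hne : (sphere τ ε').Nonempty := NormedSpace.sphere_nonempty.2 hε'.le
  obtain ⟨t₀, ht₀, hmin⟩ := (isCompact_sphere τ ε').exists_isMinOn hne hcf.norm.continuousOn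
  have hm : 0 < ‖f (v₀, t₀)‖ := by
    rw [norm_pos_iff]
    intro h1
    have h2 := h t₀ (closedBall_subset_closedBall hle (sphere_subset_closedBall ht₀)) h1
    rw [h2, mem_sphere, dist_self] at ht₀
    linarith
  set m := ‖f (v₀, t₀)‖ with hmdef
  have h1 : ∀ᶠ v in 𝓝 v₀, ∀ t ∈ sphere τ ε', m / 2 < ‖f (v, t)‖ := by
    apply IsCompact.eventually_forall_of_forall_eventually
      (P := fun v t => m / 2 < ‖f (v, t)‖) (isCompact_sphere τ ε')
    intro y hy
    have h2 : m ≤ ‖f (v₀, y)‖ := hmin hy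
    have h3 : m / 2 < ‖f (v₀, y)‖ := by linarith
    exact hf.continuous.norm.continuousAt.eventually (lt_mem_nhds h3)
  have h2 : ∀ᶠ v in 𝓝 v₀, ‖f (v, τ)‖ < m / 2 := by
    have h3 : ContinuousAt (fun v => ‖f (v, τ)‖) v₀ :=
      (hf.continuous.comp (by fun_prop : Continuous fun v : ℂ => (v, τ))).norm.continuousAt
    apply h3.eventually (gt_mem_nhds _)
    change ‖f (v₀, τ)‖ < m / 2
    rw [h0, norm_zero]
    linarith
  filter_upwards [h1, h2] with v h3 h4
  by_contra hcon
  push Not at hcon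
  have hnz : ∀ t ∈ closedBall τ ε', f (v, t) ≠ 0 := by
    intro t ht
    rcases (mem_closedBall.1 ht).lt_or_eq with h5 | h5
    · exact hcon t h5
    · have := h3 t h5
      intro h6
      rw [h6, norm_zero] at this
      linarith
  have hd : DiffContOnCl ℂ (fun t => (f (v, t))⁻¹) (ball τ ε') := by
    apply DifferentiableOn.diffContOnCl
    rw [closure_ball _ hε'.ne']
    apply DifferentiableOn.fun_inv
    · apply Differentiable.differentiableOn
      exact hf.comp (by fun_prop)
    · exact hnz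
  have h5 := Complex.norm_le_of_forall_mem_frontier_norm_le isBounded_ball hd (C := (m / 2)⁻¹)
    (z := τ) (by
      intro z hz
      rw [frontier_ball _ hε'.ne'] at hz
      rw [norm_inv]
      exact inv_anti₀ (by linarith) (h3 z hz).le) (subset_closure (mem_ball_self hε'))
  rw [norm_inv] at h5
  have h6 : 0 < ‖f (v, τ)‖ := norm_pos_iff.2 (hnz τ (mem_closedBall_self hε'.le))
  have h7 := (inv_le_inv₀ h6 (by linarith)).1 h5
  linarith

theorem conn (v₀ : ℂ) (r : ℝ) : IsPreconnected (ball v₀ r \ {v₀}) := by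
  by_cases hr : 0 < r
  · have h1 : ball v₀ r \ {v₀} = (fun z => v₀ + Complex.exp z) '' {z : ℂ | z.re < Real.log r} := by
      ext w
      constructor
      · rintro ⟨hw, hne⟩
        have h2 : w - v₀ ≠ 0 := sub_ne_zero.2 hne
        refine ⟨Complex.log (w - v₀), ?_, ?_⟩
        · change (Complex.log (w - v₀)).re < Real.log r
          rw [Complex.log_re]
          apply Real.log_lt_log (norm_pos_iff.2 h2)
          rwa [← dist_eq_norm]
        · change v₀ + Complex.exp (Complex.log (w - v₀)) = w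
          rw [Complex.exp_log h2]
          ring
      · rintro ⟨z, hz, rfl⟩
        refine ⟨?_, ?_⟩
        · rw [mem_ball, dist_eq_norm]
          change ‖v₀ + Complex.exp z - v₀‖ < r
          rw [add_sub_cancel_left, Complex.norm_exp]
          exact (Real.lt_log_iff_exp_lt hr).1 hz
        · intro h3
          have h4 : v₀ + Complex.exp z = v₀ := h3
          exact Complex.exp_ne_zero z (add_eq_left.1 h4)
    rw [h1]
    apply IsPreconnected.image
    · exact (convex_halfSpace_re_lt _).isPreconnected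
    · fun_prop
  · rw [ball_eq_empty.2 (not_lt.1 hr), Set.empty_sdiff]
    exact isPreconnected_empty

theorem prod_lim (τ : ℂ) (q : ℕ) (δ : ℝ) (hδ : 0 < δ) : ∃ η > 0, ∀ s : Finset ℂ, s.card = q →
    (∀ t ∈ s, dist t τ < η) → dist (∏ t ∈ s, t) (τ ^ q) < δ := by
  have h1 : Continuous fun x : Fin q → ℂ => ∏ i, x i := by fun_prop
  obtain ⟨η, hη, h2⟩ := Metric.continuous_iff.1 h1 (fun _ => τ) δ hδ
  refine ⟨η, hη, fun s hs ht => ?_⟩
  have h3 := h2 (fun i => ((s.equivFinOfCardEq hs).symm i : ℂ)) (by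
    rw [dist_pi_lt_iff hη]
    intro i
    exact ht _ ((s.equivFinOfCardEq hs).symm i).2)
  have h4 : ∏ i : Fin q, (((s.equivFinOfCardEq hs).symm i : s) : ℂ) = ∏ t ∈ s, t := by
    rw [Equiv.prod_comp (s.equivFinOfCardEq hs).symm (fun t : s => (t : ℂ))]
    exact Finset.prod_coe_sort s (fun t => t)
  rw [h4] at h3
  simpa using h3


theorem ev_punct {p : ℂ → Prop} {v₀ : ℂ} (h : ∀ᶠ v in 𝓝[≠] v₀, p v) :
    ∀ᶠ v in 𝓝[≠] v₀, ∀ᶠ w in 𝓝 v, p w := by
  rw [eventually_nhdsWithin_iff] at h ⊢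
  filter_upwards [h.eventually_nhds] with v hv hne
  have h2 : ∀ᶠ w in 𝓝 v, w ∈ ({v₀}ᶜ : Set ℂ) := isOpen_compl_singleton.mem_nhds hne
  filter_upwards [hv, h2] with w h3 h4
  exact h3 h4

theorem stA7a (h5 : StmtA5) (h6 : StmtA6) : StmtA7a := by
  intro f g R v₀ τ ε hf hg hR hε hfτ hτ0 hτR hz h0 hin
  -- sphere condition at `v₀`
  have hsph : ∀ t ∈ sphere τ ε, f (v₀, t) ≠ 0 := by
    intro t ht h1
    have h2 := hz t (sphere_subset_closedBall ht) h1
    rw [h2, mem_sphere, dist_self] at ht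
    linarith
  obtain ⟨k, hk⟩ := h6 f v₀ τ ε hf hε hsph
  have hk2 := ev_punct hk
  have hsph2 : ∀ᶠ v in 𝓝 v₀, ∀ t ∈ sphere τ ε, f (v, t) ≠ 0 := by
    filter_upwards [tube hf hε hz] with v hv t ht
    apply hv t
    refine ⟨sphere_subset_closedBall ht, ?_⟩
    intro h1
    rw [mem_sphere] at ht
    rw [mem_ball] at h1
    linarith
  have hBr : ∀ᶠ v in 𝓝[≠] v₀, Br f g τ ε k v := by
    filter_upwards [hk2, hsph2.filter_mono nhdsWithin_le_nhds] with v h1 h2
    exact Br_of h5 hf hg hε h2 h1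
  have hnz : ∀ t ∈ ball τ ε, t ≠ 0 := by
    intro t ht h1
    apply h0
    rw [← h1]
    exact ball_subset_closedBall ht
  -- structure of `clus` off `v₀`
  have hGood : ∀ᶠ v in 𝓝[≠] v₀, Good (clus f g R τ ε) v := by
    filter_upwards [hBr] with v₁ hB
    obtain ⟨σ, J, hA, hev⟩ := hB
    have h1 : Good (fun v => ∑ j ∈ J, max 0 (Real.log R - Real.log ‖σ j v‖)) v₁ := by
      apply Good_sum
      intro j _
      apply Good_max
      exact Good_log _ (hA j) (hnz _ (hev.self_of_nhds.2.1 j))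
    refine Good_congr ?_ h1
    filter_upwards [hev] with v hv
    unfold clus
    rw [Br_sum hv.1 hv.2.2 (fun t => max 0 (Real.log (R / ‖t‖)))]
    apply Finset.sum_congr rfl
    intro j _
    rw [Real.log_div hR.ne' (norm_ne_zero_iff.2 (hnz _ (hv.2.1 j)))]
  -- zeros tend to `τ`
  have htend : ∀ ε' > 0, ∀ᶠ v in 𝓝 v₀, ∀ t ∈ {t | t ∈ ball τ ε ∧ PP f g (v, t)}, dist t τ < ε' := by
    intro ε' hε'
    filter_upwards [tube hf hε' hz] with v hv t ht
    by_contra h1
    exact hv t ⟨ball_subset_closedBall ht.1, h1⟩ ht.2.1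
  have hP0 : ∀ t ∈ {t | t ∈ ball τ ε ∧ PP f g (v₀, t)}, t = τ := by
    intro t ht
    exact hz t (ball_subset_closedBall ht.1) ht.2.1
  have hnn : ∀ v, 0 ≤ clus f g R τ ε v := by
    intro v
    unfold clus
    apply finsum_nonneg
    intro t
    apply finsum_nonneg
    intro _
    exact le_max_left _ _
  rcases hτR.lt_or_eq with hlt | heq
  · -- interior case
    have hq1 : ∀ᶠ v in 𝓝[≠] v₀, ∀ᶠ w in 𝓝 v,
        {t | t ∈ ball τ ε ∧ PP f g (w, t)}.ncard = {t | t ∈ ball τ ε ∧ PP f g (v, t)}.ncard := by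
      filter_upwards [hBr] with v₁ hB
      obtain ⟨σ, J, hA, hev⟩ := hB
      filter_upwards [hev] with w hw
      rw [(Br_card hw.1 hw.2.2).2, (Br_card hev.self_of_nhds.1 hev.self_of_nhds.2.2).2]
    obtain ⟨q, hq⟩ : ∃ q : ℕ, ∀ᶠ v in 𝓝[≠] v₀,
        {t | t ∈ ball τ ε ∧ PP f g (v, t)}.ncard = q := by
      rw [eventually_nhdsWithin_iff, Metric.eventually_nhds_iff_ball] at hq1
      obtain ⟨δ, hδ, h1⟩ := hq1
      have hc : ContinuousOn (fun v => {t | t ∈ ball τ ε ∧ PP f g (v, t)}.ncard)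
          (ball v₀ δ \ {v₀}) := by
        intro v hv
        apply ContinuousAt.continuousWithinAt
        have h2 := h1 v hv.1 hv.2
        exact (continuousAt_const (y := {t | t ∈ ball τ ε ∧ PP f g (v, t)}.ncard)).congr
          (h2.mono fun w hw => hw.symm)
      have h3 : v₀ + (δ / 2 : ℝ) ∈ ball v₀ δ \ {v₀} := by
        refine ⟨?_, ?_⟩
        · rw [mem_ball, dist_eq_norm, add_sub_cancel_left, Complex.norm_real, Real.norm_eq_abs,
            abs_of_pos (by linarith)]
          linarith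
        · intro h4
          have h5 : v₀ + ((δ / 2 : ℝ) : ℂ) = v₀ := h4
          have h6 := add_eq_left.1 h5
          have h7 : δ / 2 = 0 := by exact_mod_cast h6
          linarith
      refine ⟨{t | t ∈ ball τ ε ∧ PP f g (v₀ + (δ / 2 : ℝ), t)}.ncard, ?_⟩
      rw [eventually_nhdsWithin_iff, Metric.eventually_nhds_iff_ball]
      refine ⟨δ, hδ, fun v hv hne => ?_⟩
      exact (conn v₀ δ).constant hc ⟨hv, hne⟩ h3
    -- the product
    set e : ℂ → ℂ := fun v => ∏ᶠ t ∈ {t | t ∈ ball τ ε ∧ PP f g (v, t)}, t with he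
    have heA : ∀ᶠ v in 𝓝[≠] v₀, AnalyticAt ℂ e v ∧ e v ≠ 0 ∧
        clus f g R τ ε v = {t | t ∈ ball τ ε ∧ PP f g (v, t)}.ncard * Real.log R -
          Real.log ‖e v‖ := by
      filter_upwards [hBr] with v₁ hB
      obtain ⟨σ, J, hA, hev⟩ := hB
      have h1 : ∀ᶠ v in 𝓝 v₁, ∏ j ∈ J, σ j v = e v := by
        filter_upwards [hev] with v hv
        rw [he]
        exact (Br_prod hv.1 hv.2.2).symm
      refine ⟨?_, ?_, ?_⟩
      · exact (Finset.analyticAt_fun_prod J fun j _ => hA j).congr h1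
      · rw [← h1.self_of_nhds]
        exact Finset.prod_ne_zero_iff.2 fun j _ => hnz _ (hev.self_of_nhds.2.1 j)
      · rw [← h1.self_of_nhds, (Br_card hev.self_of_nhds.1 hev.self_of_nhds.2.2).2]
        unfold clus
        rw [Br_sum hev.self_of_nhds.1 hev.self_of_nhds.2.2 (fun t => max 0 (Real.log (R / ‖t‖))),
          norm_prod, Real.log_prod (fun j _ => norm_ne_zero_iff.2
            (hnz _ (hev.self_of_nhds.2.1 j))), ← nsmul_eq_mul, ← Finset.sum_const,
          ← Finset.sum_sub_distrib]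
        apply Finset.sum_congr rfl
        intro j _
        have h2 := hev.self_of_nhds.2.1 j
        have h3 := norm_pos_iff.2 (hnz _ h2)
        rw [max_eq_right, Real.log_div hR.ne' h3.ne']
        apply Real.log_nonneg
        rw [one_le_div h3]
        exact (hin hlt _ h2).le
    set e' : ℂ → ℂ := Function.update e v₀ (τ ^ q) with he'
    have he'0 : e' v₀ = τ ^ q := by rw [he', Function.update_self]
    have he'e : ∀ v, v ≠ v₀ → e' v = e v := fun v hv => by
      rw [he', Function.update_of_ne hv]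
    have hee : ∀ᶠ v in 𝓝[≠] v₀, ∀ᶠ w in 𝓝 v, e' w = e w := by
      apply ev_punct
      filter_upwards [self_mem_nhdsWithin] with w hw
      exact he'e w hw
    have hcont : ContinuousAt e' v₀ := by
      rw [continuousAt_iff_punctured_nhds, he'0]
      rw [Metric.tendsto_nhds]
      intro δ hδ
      obtain ⟨η, hη, h1⟩ := prod_lim τ q δ hδ
      filter_upwards [hq, (htend η hη).filter_mono nhdsWithin_le_nhds, hBr,
        self_mem_nhdsWithin] with v h2 h3 h4 h5
      rw [he'e v h5]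
      obtain ⟨σ, J, hA, hev⟩ := h4
      have h6 := (Br_card hev.self_of_nhds.1 hev.self_of_nhds.2.2)
      have h7 := h1 (J.image fun j => σ j v) (by
        rw [Finset.card_image_of_injective _ hev.self_of_nhds.1, ← h6.2, h2]) (by
        intro t ht
        apply h3
        change t ∈ {t | t ∈ ball τ ε ∧ PP f g (v, t)}
        rw [hev.self_of_nhds.2.2]
        obtain ⟨j, hj, rfl⟩ := Finset.mem_image.1 ht
        exact ⟨j, hj, rfl⟩)
      rw [he]
      change dist (∏ᶠ t ∈ {t | t ∈ ball τ ε ∧ PP f g (v, t)}, t) (τ ^ q) < δ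
      rw [Br_prod hev.self_of_nhds.1 hev.self_of_nhds.2.2]
      rwa [Finset.prod_image hev.self_of_nhds.1.injOn] at h7
    have hAn : AnalyticAt ℂ e' v₀ := by
      apply Complex.analyticAt_of_differentiable_on_punctured_nhds_of_continuousAt _ hcont
      filter_upwards [heA, hee] with v h1 h2
      exact h1.1.differentiableAt.congr_of_eventuallyEq h2
    have hAn2 : ∀ᶠ v in 𝓝 v₀, AnalyticAt ℂ e' v ∧ e' v ≠ 0 := by
      apply hAn.eventually_analyticAt.and
      apply hcont.eventually_ne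
      rw [he'0]
      exact pow_ne_zero _ hτ0
    have hG : ∀ᶠ v in 𝓝 v₀, Good (fun v => q * Real.log R - Real.log ‖e' v‖) v := by
      filter_upwards [hAn2] with v hv
      exact Good_log _ hv.1 hv.2
    refine ⟨fun v => q * Real.log R - Real.log ‖e' v‖, ?_, ?_, ?_, ?_⟩
    · filter_upwards [hG] with v hv
      exact hv.1.self_of_nhds
    · filter_upwards [heA, hq, self_mem_nhdsWithin] with v h1 h2 h3
      rw [he'e v h3, h1.2.2, h2]
    · change clus f g R τ ε v₀ ≤ q * Real.log R - Real.log ‖e' v₀‖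
      rw [he'0, norm_pow, Real.log_pow, ← mul_sub]
      have hτp : 0 < ‖τ‖ := norm_pos_iff.2 hτ0
      have hpos : 0 < Real.log R - Real.log ‖τ‖ := sub_pos.2 (Real.log_lt_log hτp hlt)
      by_cases hPP : PP f g (v₀, τ)
      · have hset : {t | t ∈ ball τ ε ∧ PP f g (v₀, t)} = {τ} := by
          ext t
          constructor
          · exact hP0 t
          · intro ht
            rw [Set.mem_singleton_iff] at ht
            rw [ht]
            exact ⟨mem_ball_self hε, hPP⟩
        have hc : clus f g R τ ε v₀ = Real.log R - Real.log ‖τ‖ := by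
          unfold clus
          rw [hset, finsum_mem_singleton, Real.log_div hR.ne' hτp.ne', max_eq_right hpos.le]
        rw [hc]
        -- `q ≥ 1`
        have hq1 : 1 ≤ q := by
          have h1 := hPP.2.eventually_nhds
          rw [nhds_prod_eq] at h1
          obtain ⟨pa, ha, pb, hb, hab⟩ := Filter.eventually_prod_iff.1 h1
          obtain ⟨ε₁, hε₁, hb1⟩ := Metric.eventually_nhds_iff_ball.1 hb
          have hmin : 0 < min ε₁ ε := lt_min hε₁ hε
          have h2 := persist hf hmin (min_le_right ε₁ ε) hfτ hz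
          have h3 : ∀ᶠ v in 𝓝[≠] v₀, 1 ≤ q := by
            filter_upwards [hq, hBr, h2.filter_mono nhdsWithin_le_nhds,
              ha.filter_mono nhdsWithin_le_nhds] with v h4 h5 h6 h7
            obtain ⟨t, ht, hft⟩ := h6
            have h8 : t ∈ {t | t ∈ ball τ ε ∧ PP f g (v, t)} := by
              refine ⟨ball_subset_ball (min_le_right _ _) ht, hft, ?_⟩
              exact hab h7 (hb1 t (ball_subset_ball (min_le_left _ _) ht))
            obtain ⟨σ, J, hA, hev⟩ := h5
            have h9 := (Br_card hev.self_of_nhds.1 hev.self_of_nhds.2.2)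
            rw [← h4, Nat.one_le_iff_ne_zero, Ne, Set.ncard_eq_zero h9.1]
            intro h10
            rw [h10] at h8
            exact h8
          exact h3.exists.choose_spec
        have hq2 : (1 : ℝ) ≤ q := by exact_mod_cast hq1
        nlinarith
      · have hset : {t | t ∈ ball τ ε ∧ PP f g (v₀, t)} = ∅ := by
          ext t
          constructor
          · intro ht
            have := hP0 t ht
            rw [this] at ht
            exact absurd ht.2 hPP
          · intro ht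
            exact absurd ht (Set.notMem_empty t)
        have hc : clus f g R τ ε v₀ = 0 := by
          unfold clus
          rw [hset, finsum_mem_empty]
        rw [hc]
        positivity
    · filter_upwards [hG] with v hv
      exact hv.2
  · -- boundary case
    have hc0 : clus f g R τ ε v₀ = 0 := by
      unfold clus
      apply finsum_mem_eq_zero_of_forall_eq_zero
      intro t ht
      rw [hP0 t ht, heq, div_self hR.ne', Real.log_one, max_self]
    have hcont : ContinuousAt (clus f g R τ ε) v₀ := by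
      rw [continuousAt_iff_punctured_nhds, hc0, Metric.tendsto_nhds]
      intro δ hδ
      have hφ : ContinuousAt (fun t : ℂ => max 0 (Real.log (R / ‖t‖))) τ := by
        apply continuousAt_const.max
        apply ContinuousAt.log
        · exact continuousAt_const.div continuousAt_id.norm (norm_ne_zero_iff.2 hτ0)
        · exact div_ne_zero hR.ne' (norm_ne_zero_iff.2 hτ0)
      have hkp : (0 : ℝ) < k + 1 := by positivity
      have h1 : ∀ᶠ t in 𝓝 τ, max 0 (Real.log (R / ‖t‖)) < δ / (k + 1) := by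
        apply hφ.eventually (gt_mem_nhds _)
        change max 0 (Real.log (R / ‖τ‖)) < δ / (k + 1)
        rw [heq, div_self hR.ne', Real.log_one, max_self]
        positivity
      obtain ⟨η, hη, h2⟩ := Metric.eventually_nhds_iff_ball.1 h1
      filter_upwards [(htend η hη).filter_mono nhdsWithin_le_nhds, hBr] with v h3 h4
      rw [Real.dist_eq, sub_zero, abs_of_nonneg (hnn v)]
      obtain ⟨σ, J, hA, hev⟩ := h4
      unfold clus
      rw [Br_sum hev.self_of_nhds.1 hev.self_of_nhds.2.2 (fun t => max 0 (Real.log (R / ‖t‖)))]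
      have h5 : ∀ j ∈ J, max 0 (Real.log (R / ‖σ j v‖)) ≤ δ / (k + 1) := by
        intro j hj
        apply (h2 _ _).le
        rw [mem_ball]
        apply h3
        change σ j v ∈ {t | t ∈ ball τ ε ∧ PP f g (v, t)}
        rw [hev.self_of_nhds.2.2]
        exact ⟨j, hj, rfl⟩
      have h6 := Finset.sum_le_card_nsmul J _ _ h5
      have h7 : (J.card : ℝ) ≤ k := by
        have := Finset.card_le_univ J
        rw [Fintype.card_fin] at this
        exact_mod_cast this
      rw [nsmul_eq_mul] at h6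
      have h8 : (J.card : ℝ) * (δ / (k + 1)) ≤ k * (δ / (k + 1)) :=
        mul_le_mul_of_nonneg_right h7 (by positivity)
      have h9 : (k : ℝ) * (δ / (k + 1)) < (k + 1) * (δ / (k + 1)) :=
        mul_lt_mul_of_pos_right (by linarith) (by positivity)
      have h10 : ((k : ℝ) + 1) * (δ / (k + 1)) = δ := by field_simp
      linarith
    refine ⟨clus f g R τ ε, ?_, ?_, le_rfl, ?_⟩
    · rw [eventually_nhdsWithin_iff] at hGood
      filter_upwards [hGood] with v hv
      by_cases hvv : v = v₀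
      · rw [hvv]
        exact hcont
      · exact (hv hvv).1.self_of_nhds
    · exact Filter.Eventually.of_forall fun _ => rfl
    · rw [eventually_nhdsWithin_iff] at hGood
      filter_upwards [hGood] with v hv
      by_cases hvv : v = v₀
      · rw [hvv, hc0]
        exact Filter.Eventually.of_forall fun r =>
          Real.circleAverage_nonneg_of_nonneg fun x _ => hnn x
      · exact (hv hvv).2

end Pool.Agent.Helper890.Cov.JA7a
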