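import Mathlib
import Pool.Agent.Helper890.Cov.StA




namespace Pool.Agent.Helper890.Cov.JA8
open MeasureTheory Set Filter Topology Metric
open scoped RealInnerProductSpace

theorem A8_b_eq {v₀ : ℂ} {b c : ℂ → ℝ} (hb : ContinuousAt b v₀) (hc : ContinuousAt c v₀)
    (h : ∀ᶠ v in 𝓝[≠] v₀, b v = c v) : b v₀ = c v₀ := by
  have h1 : Tendsto b (𝓝[≠] v₀) (𝓝 (b v₀)) := hb.mono_left nhdsWithin_le_nhds
  have h2 : Tendsto c (𝓝[≠] v₀) (𝓝 (c v₀)) := hc.mono_left nhdsWithin_le_nhds
  exact tendsto_nhds_unique h1 (h2.congr' (h.mono fun v hv => hv.symm))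

theorem A8_u (a B : ℂ → ℝ) (ha : ∀ v, Loc a v) (hB : ContinuousOn B (sphere 0 1))
    (hle : ∀ v ∈ sphere (0 : ℂ) 1, a v ≤ B v) :
    ∃ u : ℂ → ℝ, Continuous u ∧ (∀ v, ∀ᶠ r in 𝓝[>] (0 : ℝ), u v ≤ Real.circleAverage u v r) ∧
      (∀ v, a v ≤ u v) ∧ ∀ θ : ℝ, u (circleMap 0 1 θ) ≤ B (circleMap 0 1 θ) := by
  choose b hb1 hb2 hb3 hb4 using ha
  have hi : ∀ v₀, ∀ᶠ v in 𝓝 v₀, b v v = b v₀ v := by
    intro v₀
    have h1 := (eventually_nhdsWithin_iff.1 (hb2 v₀)).eventually_nhds
    filter_upwards [hb1 v₀, h1] with v hcont hv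
    by_cases hvv : v = v₀
    · rw [hvv]
    · refine A8_b_eq (hb1 v).self_of_nhds hcont ?_
      have h2 : ∀ᶠ v' in 𝓝 v, v' ≠ v₀ := isOpen_ne.mem_nhds hvv
      have h3 : ∀ᶠ v' in 𝓝[≠] v, a v' = b v₀ v' :=
        (hv.and h2).filter_mono nhdsWithin_le_nhds |>.mono fun v' h => h.1 h.2
      filter_upwards [h3, hb2 v] with v' h4 h5
      rw [← h5, h4]
  have hcontAt : ∀ v, ContinuousAt (fun v => b v v) v := fun v =>
    (hb1 v).self_of_nhds.congr ((hi v).mono fun v' h => h.symm)
  refine ⟨fun v => b v v, continuous_iff_continuousAt.2 hcontAt, ?_, hb3, ?_⟩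
  · intro v
    obtain ⟨ε, hε, hball⟩ := Metric.eventually_nhds_iff_ball.1 (hi v)
    filter_upwards [(hb4 v).self_of_nhds, Ioo_mem_nhdsGT hε] with r hr hrε
    have h1 : Real.circleAverage (fun v => b v v) v r = Real.circleAverage (b v) v r := by
      refine Real.circleAverage_congr_sphere fun z hz => ?_
      refine hball z ?_
      rw [mem_sphere, abs_of_pos hrε.1] at hz
      rw [mem_ball, hz]
      exact hrε.2
    rw [h1]
    exact hr
  · intro θ₀
    have hBc : Continuous (fun θ : ℝ => B (circleMap 0 1 θ)) :=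
      hB.comp_continuous (continuous_circleMap 0 1) (fun θ => circleMap_mem_sphere _ zero_le_one θ)
    have huc : Continuous (fun θ : ℝ => b (circleMap 0 1 θ) (circleMap 0 1 θ)) :=
      (continuous_iff_continuousAt.2 hcontAt).comp (continuous_circleMap 0 1)
    have hd := (hasDerivAt_circleMap 0 1 θ₀).tendsto_nhdsNE
      (mul_ne_zero (circleMap_ne_center one_ne_zero) Complex.I_ne_zero)
    have h1 : ∀ᶠ θ in 𝓝[≠] θ₀, a (circleMap 0 1 θ) =
        b (circleMap 0 1 θ₀) (circleMap 0 1 θ) := hd.eventually (hb2 (circleMap 0 1 θ₀))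
    have h2 : ∀ᶠ θ in 𝓝[≠] θ₀, b (circleMap 0 1 θ) (circleMap 0 1 θ) =
        b (circleMap 0 1 θ₀) (circleMap 0 1 θ) :=
      hd.eventually ((hi (circleMap 0 1 θ₀)).filter_mono nhdsWithin_le_nhds)
    refine le_of_tendsto_of_tendsto (b := 𝓝[≠] θ₀)
      ((huc.tendsto θ₀).mono_left nhdsWithin_le_nhds)
      ((hBc.tendsto θ₀).mono_left nhdsWithin_le_nhds) ?_
    filter_upwards [h1, h2] with θ h3 h4
    rw [h4, ← h3]
    exact hle _ (circleMap_mem_sphere _ zero_le_one θ)

theorem A8_max (w : ℂ → ℝ) (hw : Continuous w)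
    (hs : ∀ v, ∀ᶠ r in 𝓝[>] (0:ℝ), w v ≤ Real.circleAverage w v r) (η : ℝ)
    (hη : ∀ θ : ℝ, w (circleMap 0 1 θ) ≤ η) : w 0 ≤ η := by
  obtain ⟨z₁, hz₁, hmax⟩ := (isCompact_closedBall (0:ℂ) 1).exists_isMaxOn ⟨0, by simp⟩ hw.continuousOn
  have hmax' : ∀ z ∈ closedBall (0:ℂ) 1, w z ≤ w z₁ := fun z hz => hmax hz
  have hSc : IsCompact (closedBall (0:ℂ) 1 ∩ {z | w z = w z₁}) :=
    (isCompact_closedBall (0:ℂ) 1).inter_right (isClosed_eq hw continuous_const)
  obtain ⟨z₀, hz₀, hz₀max⟩ := hSc.exists_isMaxOn ⟨z₁, hz₁, rfl⟩ continuous_norm.continuousOn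
  have hz₀max' : ∀ z ∈ closedBall (0:ℂ) 1, w z = w z₁ → ‖z‖ ≤ ‖z₀‖ :=
    fun z hz h => hz₀max (show z ∈ closedBall (0:ℂ) 1 ∩ {z | w z = w z₁} from ⟨hz, h⟩)
  have hwz₀ : w z₀ = w z₁ := hz₀.2
  have hz₀n : ‖z₀‖ ≤ 1 := by simpa using hz₀.1
  have h0 : w 0 ≤ w z₁ := hmax' 0 (by simp)
  rcases hz₀n.eq_or_lt with h1 | h1
  · have h2 : circleMap 0 1 (Complex.arg z₀) = z₀ := by
      have := Complex.norm_mul_exp_arg_mul_I z₀
      rw [h1] at this
      simpa [circleMap] using this
    have h3 := hη (Complex.arg z₀)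
    rw [h2] at h3
    linarith
  · exfalso
    obtain ⟨r, hr, hr2⟩ := ((hs z₀).and (Ioo_mem_nhdsGT (show (0:ℝ) < 1 - ‖z₀‖ by linarith))).exists
    have hr0 : 0 < r := hr2.1
    have hin : ∀ θ : ℝ, circleMap z₀ r θ ∈ closedBall (0:ℂ) 1 := by
      intro θ
      rw [mem_closedBall_zero_iff]
      have h4 : ‖circleMap z₀ r θ‖ ≤ ‖z₀‖ + r := by
        unfold circleMap
        refine (norm_add_le _ _).trans ?_
        rw [norm_mul, Complex.norm_exp_ofReal_mul_I, Complex.norm_real, Real.norm_of_nonneg hr0.le,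
          mul_one]
      linarith [hr2.2]
    have hfar : w (circleMap z₀ r (0 + Complex.arg z₀)) < w z₁ := by
      refine lt_of_le_of_ne (hmax' _ (hin _)) fun he => ?_
      have h5 := hz₀max' _ (hin _) he
      have h6 : circleMap z₀ r (0 + Complex.arg z₀) =
          ((‖z₀‖ + r : ℝ) : ℂ) * Complex.exp (Complex.arg z₀ * Complex.I) := by
        unfold circleMap
        rw [zero_add]
        nth_rewrite 1 [← Complex.norm_mul_exp_arg_mul_I z₀]
        push_cast
        ring
      rw [h6, norm_mul, Complex.norm_exp_ofReal_mul_I, Complex.norm_real,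
        Real.norm_of_nonneg (by positivity), mul_one] at h5
      linarith
    rw [Real.circleAverage_eq_integral_add (Complex.arg z₀)] at hr
    have hlt := intervalIntegral.integral_lt_integral_of_continuousOn_of_le_of_exists_lt
      (f := fun θ : ℝ => w (circleMap z₀ r (θ + Complex.arg z₀))) (g := fun _ => w z₁)
      Real.two_pi_pos
      ((hw.comp ((continuous_circleMap z₀ r).comp (continuous_add_const _))).continuousOn)
      continuousOn_const (fun θ _ => hmax' _ (hin _)) ⟨0, ⟨le_rfl, Real.two_pi_pos.le⟩, hfar⟩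
    rw [intervalIntegral.integral_const, sub_zero, smul_eq_mul] at hlt
    rw [smul_eq_mul, hwz₀] at hr
    have h7 : (2 * Real.pi)⁻¹ * ∫ θ in (0:ℝ)..2 * Real.pi, w (circleMap z₀ r (θ + Complex.arg z₀)) <
        (2 * Real.pi)⁻¹ * (2 * Real.pi * w z₁) :=
      mul_lt_mul_of_pos_left hlt (inv_pos.2 Real.two_pi_pos)
    rw [← mul_assoc, inv_mul_cancel₀ Real.two_pi_pos.ne', one_mul] at h7
    linarith

theorem A8_span (P : C(AddCircle (2 * Real.pi), ℂ))
    (hP : P ∈ Submodule.span ℂ (Set.range (@fourier (2 * Real.pi)))) :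
    ∀ c : ℂ, ∃ F : ℂ → ℂ, Differentiable ℂ F ∧
      ∀ θ : ℝ, (F (circleMap 0 1 θ)).re = (c * P (θ : AddCircle (2 * Real.pi))).re := by
  induction hP using Submodule.span_induction with
  | mem x hx =>
    obtain ⟨n, rfl⟩ := hx
    intro c
    have hfo : ∀ (n : ℤ) (θ : ℝ), fourier n (θ : AddCircle (2 * Real.pi)) =
        Complex.exp (n * (θ * Complex.I)) := by
      intro n θ
      rw [fourier_coe_apply]
      congr 1
      have : (Real.pi : ℂ) ≠ 0 := by exact_mod_cast Real.pi_ne_zero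
      push_cast
      field_simp
    have hcm : ∀ (m : ℕ) (θ : ℝ), (circleMap 0 1 θ) ^ m = Complex.exp ((m : ℤ) * (θ * Complex.I)) := by
      intro m θ
      simp only [circleMap, Complex.ofReal_one, one_mul, zero_add]
      rw [← Complex.exp_nat_mul]
      norm_cast
    obtain ⟨m, rfl | rfl⟩ := Int.eq_nat_or_neg n
    · refine ⟨fun z => c * z ^ m, by fun_prop, fun θ => ?_⟩
      simp only
      rw [hcm, hfo]
    · refine ⟨fun z => (starRingEnd ℂ) c * z ^ m, by fun_prop, fun θ => ?_⟩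
      simp only
      rw [hcm, hfo]
      have h1 : Complex.exp ((-(m : ℤ) : ℤ) * (θ * Complex.I)) =
          (starRingEnd ℂ) (Complex.exp ((m : ℤ) * (θ * Complex.I))) := by
        rw [← Complex.exp_conj]
        congr 1
        simp
      rw [h1, ← Complex.conj_re ((starRingEnd ℂ) c * Complex.exp ((m : ℤ) * (θ * Complex.I))),
        map_mul, Complex.conj_conj]
  | zero =>
    intro c
    exact ⟨fun _ => 0, by fun_prop, fun θ => by simp⟩
  | add x y hx hy ihx ihy =>
    intro c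
    obtain ⟨F, hF, hF'⟩ := ihx c
    obtain ⟨G, hG, hG'⟩ := ihy c
    refine ⟨fun z => F z + G z, hF.add hG, fun θ => ?_⟩
    rw [Complex.add_re, hF', hG', ContinuousMap.add_apply, mul_add, Complex.add_re]
  | smul a x hx ih =>
    intro c
    obtain ⟨F, hF, hF'⟩ := ih (c * a)
    refine ⟨F, hF, fun θ => ?_⟩
    rw [hF', ContinuousMap.smul_apply, smul_eq_mul, mul_assoc]

theorem A8_approx (u : ℂ → ℝ) (hu : Continuous u) (η : ℝ) (hη : 0 < η) :
    ∃ F : ℂ → ℂ, Differentiable ℂ F ∧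
      ∀ θ : ℝ, |u (circleMap 0 1 θ) - (F (circleMap 0 1 θ)).re| < η := by
  have : Fact (0 < 2 * Real.pi) := ⟨Real.two_pi_pos⟩
  obtain ⟨f, hf⟩ : ∃ f : C(AddCircle (2 * Real.pi), ℂ),
      ∀ x, f x = ((u ((AddCircle.toCircle x : Circle) : ℂ) : ℝ) : ℂ) := by
    refine ⟨⟨fun x => ((u ((AddCircle.toCircle x : Circle) : ℂ) : ℝ) : ℂ), ?_⟩, fun x => rfl⟩
    have hcoe : Continuous (fun z : Circle => (z : ℂ)) := by
      first
        | exact Circle.continuous_coe
        | exact continuous_induced_dom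
        | exact continuous_subtype_val
        | fun_prop
    exact Complex.continuous_ofReal.comp (hu.comp (hcoe.comp AddCircle.continuous_toCircle))
  have hmem : f ∈ (Submodule.span ℂ (Set.range (@fourier (2 * Real.pi)))).topologicalClosure := by
    rw [span_fourier_closure_eq_top]; trivial
  rw [← SetLike.mem_coe, Submodule.topologicalClosure_coe, Metric.mem_closure_iff] at hmem
  obtain ⟨P, hP, hd⟩ := hmem η hη
  obtain ⟨F, hF, hF'⟩ := A8_span P hP 1
  refine ⟨F, hF, fun θ => ?_⟩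
  have h1 : dist (f (θ : AddCircle (2 * Real.pi))) (P (θ : AddCircle (2 * Real.pi))) ≤ dist f P :=
    ContinuousMap.dist_apply_le_dist _
  have h2 : f (θ : AddCircle (2 * Real.pi)) = ((u (circleMap 0 1 θ) : ℝ) : ℂ) := by
    rw [hf, AddCircle.toCircle_apply_mk]
    congr 2
    rw [div_self Real.two_pi_pos.ne', one_mul, Circle.coe_exp]
    simp [circleMap]
  rw [hF', one_mul]
  have h3 : u (circleMap 0 1 θ) - (P (θ : AddCircle (2 * Real.pi))).re =
      (f (θ : AddCircle (2 * Real.pi)) - P (θ : AddCircle (2 * Real.pi))).re := by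
    rw [Complex.sub_re, h2, Complex.ofReal_re]
  rw [h3]
  refine lt_of_le_of_lt (Complex.abs_re_le_norm _) ?_
  rw [dist_eq_norm] at h1
  exact lt_of_le_of_lt h1 hd

theorem A8_mv (F : ℂ → ℂ) (hF : Differentiable ℂ F) (v : ℂ) (r : ℝ) :
    Real.circleAverage (fun z => (F z).re) v r = (F v).re := by
  have h1 := Complex.reCLM.circleAverage_comp_comm (f := F) (c := v) (R := r)
    hF.continuous.continuousOn.circleIntegrable'
  have h2 : Real.circleAverage F v r = F v := (hF.diffContOnCl).circleAverage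
  rw [h2] at h1
  exact h1

theorem stA8 : StmtA8 := by
  intro a B ha hB hle
  obtain ⟨u, hu, hs, hau, huB⟩ := A8_u a B ha hB hle
  refine (hau 0).trans ?_
  refine le_of_forall_pos_le_add fun ε hε => ?_
  obtain ⟨F, hF, hF'⟩ := A8_approx u hu (ε / 2) (by linarith)
  have hFc : Continuous (fun z => (F z).re) := Complex.continuous_re.comp hF.continuous
  have h1 : u 0 - (F 0).re ≤ ε / 2 := by
    refine A8_max (fun z => u z - (F z).re) (hu.sub hFc) (fun v => ?_) (ε / 2)
      (fun θ => (le_abs_self _).trans (hF' θ).le)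
    filter_upwards [hs v] with r hr
    rw [Real.circleAverage_fun_sub hu.continuousOn.circleIntegrable'
      hFc.continuousOn.circleIntegrable', A8_mv F hF]
    linarith
  have h2 : (F 0).re = Real.circleAverage (fun z => (F z).re) 0 1 := (A8_mv F hF 0 1).symm
  have h3 : Real.circleAverage (fun z => (F z).re) 0 1 ≤
      Real.circleAverage (fun z => B z + ε / 2) 0 1 := by
    refine Real.circleAverage_mono hFc.continuousOn.circleIntegrable' ?_ ?_
    · refine ContinuousOn.circleIntegrable' ?_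
      rw [abs_one]
      exact hB.add continuousOn_const
    · intro z hz
      rw [abs_one] at hz
      obtain ⟨θ, rfl⟩ : ∃ θ : ℝ, circleMap 0 1 θ = z := by
        have : z ∈ Set.range (circleMap 0 1) := by
          rw [range_circleMap, abs_one]; exact hz
        exact this
      have h4 := (abs_lt.1 (hF' θ)).1
      have h5 := huB θ
      linarith
  have h4 : Real.circleAverage (fun z => B z + ε / 2) 0 1 = Real.circleAverage B 0 1 + ε / 2 := by
    rw [Real.circleAverage_fun_add, Real.circleAverage_const]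
    · refine ContinuousOn.circleIntegrable' ?_
      rw [abs_one]; exact hB
    · exact continuousOn_const.circleIntegrable'
  linarith

end Pool.Agent.Helper890.Cov.JA8
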