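import Mathlib

open MeasureTheory Set Filter Topology Metric

namespace Pool.Agent.Helper890.Cov

/-- Fourier-Laplace transform of a measure on the line -/
noncomputable def FT (ν : Measure ℝ) (t : ℂ) : ℂ := ∫ s, Complex.exp (Complex.I * t * (s : ℂ)) ∂ν

/-- the two-exponential main term -/
noncomputable def Mn (h h' a b φ : ℝ) (t : ℂ) : ℂ :=
  (a : ℂ) * Complex.exp (Complex.I * (t * (h : ℂ) + (φ : ℂ))) +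
    (b : ℂ) * Complex.exp (-(Complex.I * (t * (h' : ℂ) + (φ : ℂ))))

/-- data on a line: `p` is a lower bound and `P` an upper bound for all quantities -/
structure LineData (p P : ℝ) (ν : Measure ℝ) (h h' a b : ℝ) : Prop where
  fin : IsFiniteMeasure ν
  supp : ν (Icc (-h') h)ᶜ = 0
  mass : p ≤ ν.real univ
  mass' : ν.real univ ≤ P
  h1 : p ≤ h
  h2 : h ≤ P
  h3 : p ≤ h'
  h4 : h' ≤ P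
  a1 : p ≤ a
  a2 : a ≤ P
  b1 : p ≤ b
  b2 : b ≤ P

/-- squared distance to the main term on `[0, 2R]` -/
noncomputable def errI (κ φ : ℝ) (ν : Measure ℝ) (h h' a b R : ℝ) : ℝ :=
  ∫ t in (0 : ℝ)..(2 * R), ‖((t ^ κ : ℝ) : ℂ) * FT ν (t : ℂ) - Mn h h' a b φ (t : ℂ)‖ ^ 2

/-- local sup bound in a complex disc by the mean square on the real line -/
def StmtB1 : Prop := ∀ (κ φ p P r₁ : ℝ), 1 ≤ κ → 0 < p → 0 < r₁ → ∃ C : ℝ, 0 < C ∧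
  ∀ (ν : Measure ℝ) (h h' a b : ℝ), LineData p P ν h h' a b → ∀ t₀ : ℝ, 1 ≤ t₀ →
  ∀ τ : ℂ, ‖τ‖ ≤ r₁ →
    ‖((t₀ ^ κ : ℝ) : ℂ) * FT ν ((t₀ : ℂ) + τ) - Mn h h' a b φ ((t₀ : ℂ) + τ)‖ ^ 2 ≤
      C * ((∫ x in (t₀ / 2)..(3 * t₀ / 2),
        ‖((x ^ κ : ℝ) : ℂ) * FT ν (x : ℂ) - Mn h h' a b φ (x : ℂ)‖ ^ 2 * (1 + (x - t₀) ^ 2)⁻¹) + t₀⁻¹)

/-- center of the `m`-th predicted zero -/
noncomputable def tz (w φ a b : ℝ) (m : ℕ) : ℂ :=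
  (((2 * (m : ℝ) + 1) * Real.pi - 2 * φ : ℝ) + Complex.I * (Real.log (a / b) : ℝ)) / (w : ℝ)

/-- for most indices the functions are close to their main terms in a disc of radius `r₁`
around `Re (tz ..)` -/
def StmtB2 : Prop := ∀ (κ φ p P r₁ lam δ : ℝ), 1 ≤ κ → 0 < p → 0 < r₁ → 0 < lam → 0 < δ →
  ∃ ε R₀ : ℝ, 0 < ε ∧ 0 < R₀ ∧
  ∀ (ν : Measure ℝ) (h h' a b w : ℝ), LineData p P ν h h' a b → w = h + h' → ∀ R : ℝ, R₀ ≤ R →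
    errI κ φ ν h h' a b R ≤ ε * R →
    ∃ G : Finset ℕ, (∀ m ∈ G, m < ⌊w * R / (2 * Real.pi)⌋₊) ∧
      (((Finset.range ⌊w * R / (2 * Real.pi)⌋₊ \ G).card : ℕ) : ℝ) ≤ δ * R ∧
      ∀ m ∈ G, ∀ τ : ℂ, ‖τ‖ ≤ r₁ →
        1 ≤ ((2 * (m : ℝ) + 1) * Real.pi - 2 * φ) / w ∧
        ‖(((((2 * (m : ℝ) + 1) * Real.pi - 2 * φ) / w) ^ κ : ℝ) : ℂ) *
            FT ν (((((2 * (m : ℝ) + 1) * Real.pi - 2 * φ) / w : ℝ) : ℂ) + τ) -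
          Mn h h' a b φ (((((2 * (m : ℝ) + 1) * Real.pi - 2 * φ) / w : ℝ) : ℂ) + τ)‖ ≤ lam

/-- behaviour of the main term: zero at `tz`, bounded below on small circles around it -/
def StmtB3 : Prop := ∀ (φ p P r₀ : ℝ), 0 < p → 0 < r₀ → r₀ ≤ p / P → r₀ ≤ 1 / P → ∃ c : ℝ, 0 < c ∧
  ∀ (h h' a b w : ℝ) (m : ℕ), p ≤ h → h ≤ P → p ≤ h' → h' ≤ P → p ≤ a → a ≤ P → p ≤ b → b ≤ P →
    w = h + h' →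
    Mn h h' a b φ (tz w φ a b m) = 0 ∧
    (∀ t : ℂ, ‖t - tz w φ a b m‖ = r₀ → c ≤ ‖Mn h h' a b φ t‖)

/-- existence of a zero of a perturbation -/
def StmtB4 : Prop := ∀ (F M : ℂ → ℂ) (z₀ : ℂ) (r c lam : ℝ), Differentiable ℂ F → 0 < r →
  0 < c → lam < c / 2 → M z₀ = 0 → (∀ t, ‖t - z₀‖ = r → c ≤ ‖M t‖) →
  (∀ t, ‖t - z₀‖ ≤ r → ‖F t - M t‖ ≤ lam) → ∃ t, ‖t - z₀‖ < r ∧ F t = 0

/-- good indices, second function swapped: a zero of the first transform near `tz` at which the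
second transform does not vanish -/
def StmtC1b : Prop := ∀ (κ φ p P δ₀ r₀ δ : ℝ), 1 ≤ κ → 0 < p → 0 < δ₀ → 0 < r₀ → 0 < δ →
  ∃ ε R₀ : ℝ, 0 < ε ∧ 0 < R₀ ∧
  ∀ (ν₁ ν₂ : Measure ℝ) (h₁ h₁' h₂ h₂' a b w : ℝ), LineData p P ν₁ h₁ h₁' a b →
    LineData p P ν₂ h₂ h₂' b a → w = h₁ + h₁' → w = h₂ + h₂' → δ₀ ≤ |a - b| → ∀ R : ℝ, R₀ ≤ R →
    errI κ φ ν₁ h₁ h₁' a b R + errI κ φ ν₂ h₂ h₂' b a R ≤ ε * R →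
    ∃ G : Finset ℕ, (∀ m ∈ G, m < ⌊w * R / (2 * Real.pi)⌋₊) ∧
      (((Finset.range ⌊w * R / (2 * Real.pi)⌋₊ \ G).card : ℕ) : ℝ) ≤ δ * R ∧
      ∀ m ∈ G, 1 ≤ ((2 * (m : ℝ) + 1) * Real.pi - 2 * φ) / w ∧
        ∃ t : ℂ, ‖t - tz w φ a b m‖ ≤ r₀ ∧ FT ν₁ t = 0 ∧ FT ν₂ t ≠ 0

/-- good indices, same amplitudes: a zero of the first transform near `tz` whose negative is not
a zero of the second transform -/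
def StmtC1a : Prop := ∀ (κ φ p P δ₀ r₀ δ : ℝ), 1 ≤ κ → 0 < p → 0 < δ₀ → 0 < r₀ → 0 < δ →
  ∃ ε R₀ : ℝ, 0 < ε ∧ 0 < R₀ ∧
  ∀ (ν₁ ν₂ : Measure ℝ) (h₁ h₁' h₂ h₂' a b w : ℝ), LineData p P ν₁ h₁ h₁' a b →
    LineData p P ν₂ h₂ h₂' a b → w = h₁ + h₁' → w = h₂ + h₂' → δ₀ ≤ |a - b| → ∀ R : ℝ, R₀ ≤ R →
    errI κ φ ν₁ h₁ h₁' a b R + errI κ φ ν₂ h₂ h₂' a b R ≤ ε * R →
    ∃ G : Finset ℕ, (∀ m ∈ G, m < ⌊w * R / (2 * Real.pi)⌋₊) ∧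
      (((Finset.range ⌊w * R / (2 * Real.pi)⌋₊ \ G).card : ℕ) : ℝ) ≤ δ * R ∧
      ∀ m ∈ G, 1 ≤ ((2 * (m : ℝ) + 1) * Real.pi - 2 * φ) / w ∧
        ∃ t : ℂ, ‖t - tz w φ a b m‖ ≤ r₀ ∧ FT ν₁ t = 0 ∧ FT ν₂ (-t) ≠ 0

/-- lower bound for the sum of logarithms over most indices -/
def StmtC2 : Prop := ∀ (φ p P r₀ η : ℝ), 0 < p → 0 < r₀ → 0 < η → ∃ δ R₀ : ℝ, 0 < δ ∧ 0 < R₀ ∧
  ∀ (a b w : ℝ), 2 * p ≤ w → w ≤ 2 * P → p ≤ a → a ≤ P → p ≤ b → b ≤ P →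
  ∀ (R : ℝ) (G : Finset ℕ) (t : ℕ → ℂ), R₀ ≤ R → (∀ m ∈ G, m < ⌊w * R / (2 * Real.pi)⌋₊) →
    (((Finset.range ⌊w * R / (2 * Real.pi)⌋₊ \ G).card : ℕ) : ℝ) ≤ δ * R →
    (∀ m ∈ G, 1 ≤ ((2 * (m : ℝ) + 1) * Real.pi - 2 * φ) / w ∧ ‖t m - tz w φ a b m‖ ≤ r₀) →
    (w / (2 * Real.pi) - η) * R ≤
      ∑ m ∈ G with ‖t m‖ < R, Real.log (R / ‖t m‖)

/-- Jensen bound -/
def StmtC3 : Prop := ∀ (ν : Measure ℝ) (h h' : ℝ), IsFiniteMeasure ν → ν (Icc (-h') h)ᶜ = 0 →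
  0 < ν.real univ → 0 ≤ h → 0 ≤ h' → ∀ R : ℝ, 0 < R → ∀ S : Finset ℂ,
    (∀ t ∈ S, ‖t‖ < R ∧ FT ν t = 0) →
    ∑ t ∈ S, Real.log (R / ‖t‖) ≤ (h + h') * R / Real.pi

/-- few common zeros in swapped directions -/
def Stmt3b : Prop := ∀ (κ φ p P δ₀ η : ℝ), 1 ≤ κ → 0 < p → 0 < δ₀ → 0 < η →
  ∃ ε R₀ : ℝ, 0 < ε ∧ 0 < R₀ ∧
  ∀ (ν₁ ν₂ : Measure ℝ) (h₁ h₁' h₂ h₂' a b w : ℝ), LineData p P ν₁ h₁ h₁' a b →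
    LineData p P ν₂ h₂ h₂' b a → w = h₁ + h₁' → w = h₂ + h₂' → δ₀ ≤ |a - b| → ∀ R : ℝ, R₀ ≤ R →
    errI κ φ ν₁ h₁ h₁' a b R + errI κ φ ν₂ h₂ h₂' b a R ≤ ε * R →
    ∀ S : Finset ℂ, (∀ t ∈ S, ‖t‖ < R ∧ FT ν₁ t = 0 ∧ FT ν₂ t = 0) →
      ∑ t ∈ S, Real.log (R / ‖t‖) ≤ η * R

/-- many zeros of one type in matched directions -/
def Stmt3a : Prop := ∀ (κ φ p P δ₀ : ℝ), 1 ≤ κ → 0 < p → 0 < δ₀ →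
  ∃ c₀ ε R₀ : ℝ, 0 < c₀ ∧ 0 < ε ∧ 0 < R₀ ∧
  ∀ (ν₁ ν₂ : Measure ℝ) (h₁ h₁' h₂ h₂' a b w : ℝ), LineData p P ν₁ h₁ h₁' a b →
    LineData p P ν₂ h₂ h₂' a b → w = h₁ + h₁' → w = h₂ + h₂' → δ₀ ≤ |a - b| → ∀ R : ℝ, R₀ ≤ R →
    errI κ φ ν₁ h₁ h₁' a b R + errI κ φ ν₂ h₂ h₂' a b R ≤ ε * R →
    ∃ S : Finset ℂ, (∀ t ∈ S, ‖t‖ < R ∧ FT ν₁ t = 0 ∧ FT ν₂ (-t) ≠ 0) ∧
      c₀ * R ≤ ∑ t ∈ S, Real.log (R / ‖t‖)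

end Pool.Agent.Helper890.Cov
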