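import Mathlib
import Pool.Agent.Helper890.Cov.StB




namespace Pool.Agent.Helper890.Cov.JB1
open MeasureTheory Set Filter Topology Metric
open scoped RealInnerProductSpace


open scoped FourierTransform

noncomputable def LF (g : ℝ → ℂ) (z : ℂ) : ℂ :=
  ∫ s : ℝ, Complex.exp (Complex.I * z * (s : ℂ)) * g s

theorem LF_int (g : ℝ → ℂ) (hg : Continuous g) (hc : HasCompactSupport g) (z : ℂ) :
    Integrable (fun s : ℝ => Complex.exp (Complex.I * z * (s : ℂ)) * g s) :=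
  Continuous.integrable_of_hasCompactSupport (by fun_prop) hc.mul_left

theorem LF_deriv (g : ℝ → ℂ) (hg : ContDiff ℝ 1 g) (hc : HasCompactSupport g) (z : ℂ) :
    LF (deriv g) z = -(Complex.I * z * LF g z) := by
  have hd : Differentiable ℝ g := hg.differentiable one_ne_zero
  have hu : ∀ x : ℝ, HasDerivAt (fun s : ℝ => Complex.exp (Complex.I * z * (s : ℂ)))
      (Complex.I * z * Complex.exp (Complex.I * z * (x : ℂ))) x := by
    intro x
    have h0 : HasDerivAt (fun s : ℝ => (s : ℂ)) 1 x := by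
      simpa using (hasDerivAt_id x).ofReal_comp
    have h1 : HasDerivAt (fun s : ℝ => Complex.I * z * (s : ℂ)) (Complex.I * z) x := by
      simpa using h0.const_mul (Complex.I * z)
    exact h1.cexp.congr_deriv (by ring)
  have hdc : Continuous (deriv g) := hg.continuous_deriv le_rfl
  have i1 := LF_int (deriv g) hdc hc.deriv z
  have i3 := LF_int g hg.continuous hc z
  have i2 : Integrable (fun s : ℝ => Complex.I * z * Complex.exp (Complex.I * z * (s : ℂ)) * g s) := by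
    have := i3.const_mul (Complex.I * z)
    refine this.congr (Filter.Eventually.of_forall fun x => ?_)
    simp only; ring
  have key := integral_mul_deriv_eq_deriv_mul_of_integrable
    (u := fun s : ℝ => Complex.exp (Complex.I * z * (s : ℂ))) (v := g)
    (u' := fun s : ℝ => Complex.I * z * Complex.exp (Complex.I * z * (s : ℂ))) (v' := deriv g)
    (fun x _ => hu x) (fun x _ => (hd x).hasDerivAt) i1 i2 i3
  unfold LF
  rw [key, ← integral_const_mul]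
  congr 1
  refine integral_congr_ae (Filter.Eventually.of_forall fun x => ?_)
  simp only; ring

theorem norm_cexp_le (z : ℂ) (r B s : ℝ) (hz : |z.im| ≤ r) (hs : |s| ≤ B) :
    ‖Complex.exp (Complex.I * z * (s : ℂ))‖ ≤ Real.exp (r * B) := by
  rw [Complex.norm_exp]
  apply Real.exp_le_exp.2
  have : (Complex.I * z * (s : ℂ)).re = -(z.im * s) := by simp
  rw [this]
  have h1 : |z.im * s| ≤ r * B := by
    rw [abs_mul]
    exact mul_le_mul hz hs (abs_nonneg _) ((abs_nonneg _).trans hz)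
  exact (neg_le_abs _).trans h1

theorem LF_decay (m : ℕ) : ∀ (g : ℝ → ℂ), ContDiff ℝ (m : ℕ) g → HasCompactSupport g → ∀ r : ℝ,
    ∃ C : ℝ, 0 ≤ C ∧ ∀ z : ℂ, |z.im| ≤ r → ‖z‖ ^ m * ‖LF g z‖ ≤ C := by
  induction m with
  | zero =>
    intro g hg hc r
    obtain ⟨B, hB, hB2⟩ := hc.exists_pos_le_norm
    refine ⟨Real.exp (r * B) * ∫ s, ‖g s‖, by positivity, fun z hz => ?_⟩
    rw [pow_zero, one_mul]
    unfold LF
    have hgi : Integrable g := hg.continuous.integrable_of_hasCompactSupport hc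
    refine (norm_integral_le_integral_norm _).trans ?_
    rw [← integral_const_mul]
    refine integral_mono (LF_int g hg.continuous hc z).norm (hgi.norm.const_mul _) fun s => ?_
    simp only [norm_mul]
    by_cases hs : |s| ≤ B
    · exact mul_le_mul_of_nonneg_right (norm_cexp_le z r B s hz hs) (norm_nonneg _)
    · have : g s = 0 := hB2 s (by rw [Real.norm_eq_abs]; exact (not_le.1 hs).le)
      simp [this]
  | succ m ih =>
    intro g hg hc r
    have hg' : ContDiff ℝ ((m : ℕ) + 1) g := by exact_mod_cast hg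
    obtain ⟨hd, -, hdc⟩ := contDiff_succ_iff_deriv.1 hg'
    obtain ⟨C, hC, hC2⟩ := ih (deriv g) hdc hc.deriv r
    refine ⟨C, hC, fun z hz => ?_⟩
    have h1 := hC2 z hz
    rw [LF_deriv g (hg'.of_le (by exact_mod_cast (Nat.le_add_left 1 m))) hc z, norm_neg, norm_mul, norm_mul,
      Complex.norm_I, one_mul] at h1
    calc ‖z‖ ^ (m + 1) * ‖LF g z‖ = ‖z‖ ^ m * (‖z‖ * ‖LF g z‖) := by ring
      _ ≤ C := h1

theorem LF_decay' (M : ℕ) (g : ℝ → ℂ) (hg : ContDiff ℝ ((2 * M : ℕ) : ℕ∞) g)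
    (hc : HasCompactSupport g) (r : ℝ) (hr : 0 ≤ r) :
    ∃ C : ℝ, 0 < C ∧ ∀ τ : ℂ, ‖τ‖ ≤ r → ∀ x : ℝ, ‖LF g (τ - x)‖ ≤ C * ((1 + x ^ 2) ^ M)⁻¹ := by
  obtain ⟨C0, hC0, h0⟩ := LF_decay 0 g (hg.of_le (by norm_num)) hc r
  obtain ⟨C1, hC1, h1⟩ := LF_decay (2 * M) g (by exact_mod_cast hg) hc r
  refine ⟨2 ^ M * ((1 + 2 * r ^ 2) ^ M * C0 + 2 ^ M * C1) + 1, by positivity, fun τ hτ x => ?_⟩
  have him : |(τ - (x : ℂ)).im| ≤ r := by
    simp only [Complex.sub_im, Complex.ofReal_im, sub_zero]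
    exact (Complex.abs_im_le_norm τ).trans hτ
  have a0 := h0 _ him
  have a1 := h1 _ him
  rw [pow_zero, one_mul] at a0
  set N := ‖LF g (τ - x)‖ with hN
  have hN0 : 0 ≤ N := norm_nonneg _
  set y := ‖τ - (x : ℂ)‖ with hy
  have hy0 : 0 ≤ y := norm_nonneg _
  have hx : |x| ≤ y + r := by
    have : ‖(x : ℂ)‖ ≤ ‖τ - (x : ℂ)‖ + ‖τ‖ := by
      have h := norm_sub_le τ (τ - (x : ℂ))
      rw [sub_sub_cancel] at h
      linarith
    rw [Complex.norm_real, Real.norm_eq_abs] at this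
    linarith
  have hx2 : 1 + x ^ 2 ≤ (1 + 2 * r ^ 2) + 2 * y ^ 2 := by
    have : x ^ 2 ≤ (y + r) ^ 2 := by
      rw [← sq_abs x]; exact pow_le_pow_left₀ (abs_nonneg _) hx 2
    nlinarith [sq_nonneg (y - r)]
  have hpow : (1 + x ^ 2) ^ M ≤ 2 ^ M * ((1 + 2 * r ^ 2) ^ M + 2 ^ M * y ^ (2 * M)) := by
    have e1 : (1 + x ^ 2) ^ M ≤ ((1 + 2 * r ^ 2) + 2 * y ^ 2) ^ M :=
      pow_le_pow_left₀ (by positivity) hx2 M
    have e2 : ((1 + 2 * r ^ 2) + 2 * y ^ 2) ^ M ≤ (2 * max (1 + 2 * r ^ 2) (2 * y ^ 2)) ^ M := by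
      apply pow_le_pow_left₀ (by positivity)
      linarith [le_max_left (1 + 2 * r ^ 2) (2 * y ^ 2), le_max_right (1 + 2 * r ^ 2) (2 * y ^ 2)]
    have e3 : (max (1 + 2 * r ^ 2) (2 * y ^ 2)) ^ M ≤ (1 + 2 * r ^ 2) ^ M + 2 ^ M * y ^ (2 * M) := by
      rcases max_cases (1 + 2 * r ^ 2) (2 * y ^ 2) with ⟨h, _⟩ | ⟨h, _⟩
      · rw [h]; have : 0 ≤ 2 ^ M * y ^ (2 * M) := by positivity
        linarith
      · rw [h, mul_pow, pow_mul]; have : 0 ≤ (1 + 2 * r ^ 2) ^ M := by positivity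
        linarith
    calc (1 + x ^ 2) ^ M ≤ (2 * max (1 + 2 * r ^ 2) (2 * y ^ 2)) ^ M := e1.trans e2
      _ = 2 ^ M * (max (1 + 2 * r ^ 2) (2 * y ^ 2)) ^ M := by rw [mul_pow]
      _ ≤ _ := mul_le_mul_of_nonneg_left e3 (by positivity)
  have hpos : 0 < (1 + x ^ 2) ^ M := by positivity
  rw [← div_eq_mul_inv, le_div_iff₀ hpos]
  calc N * (1 + x ^ 2) ^ M ≤ N * (2 ^ M * ((1 + 2 * r ^ 2) ^ M + 2 ^ M * y ^ (2 * M))) :=
        mul_le_mul_of_nonneg_left hpow hN0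
    _ = 2 ^ M * ((1 + 2 * r ^ 2) ^ M * N + 2 ^ M * (y ^ (2 * M) * N)) := by ring
    _ ≤ 2 ^ M * ((1 + 2 * r ^ 2) ^ M * C0 + 2 ^ M * C1) := by
        apply mul_le_mul_of_nonneg_left _ (by positivity)
        exact add_le_add (mul_le_mul_of_nonneg_left a0 (by positivity))
          (mul_le_mul_of_nonneg_left a1 (by positivity))
    _ ≤ _ := by linarith

/-- reproducing formula for exponentials -/
theorem repro (P : ℝ) (hP : 0 < P) (M : ℕ) (hM : 1 ≤ M) (r : ℝ) (hr : 0 ≤ r) :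
    ∃ C : ℝ, 0 < C ∧ ∀ τ : ℂ, ‖τ‖ ≤ r → ∃ K : ℝ → ℂ, Continuous K ∧ Integrable K ∧
      (∀ w, ‖K w‖ ≤ C * ((1 + (2 * Real.pi * w) ^ 2) ^ M)⁻¹) ∧
      ∀ u : ℝ, |u| ≤ P → ∀ t : ℂ, Complex.exp (Complex.I * (t + τ) * (u : ℂ)) =
        ∫ w : ℝ, K w * Complex.exp (Complex.I * (t + ((2 * Real.pi * w : ℝ) : ℂ)) * (u : ℂ)) := by
  let χ : ContDiffBump (0 : ℝ) := ⟨P, P + 1, hP, by linarith⟩
  let g : ℝ → ℂ := fun s => ((χ s : ℝ) : ℂ)
  have hgc : ∀ n : ℕ∞, ContDiff ℝ n g := fun n => Complex.ofRealCLM.contDiff.comp χ.contDiff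
  have hgs : HasCompactSupport g := χ.hasCompactSupport.comp_left (g := fun t : ℝ => (t : ℂ)) (by simp)
  obtain ⟨C, hC, hdec⟩ := LF_decay' M g (hgc _) hgs r hr
  refine ⟨C, hC, fun τ hτ => ?_⟩
  have hcont : Continuous g := (hgc 0).continuous
  have hKc : Continuous (fun w : ℝ => LF g (τ - ((2 * Real.pi * w : ℝ) : ℂ))) := by
    unfold LF
    obtain ⟨B, hB, hB2⟩ := hgs.exists_pos_le_norm
    refine continuous_of_dominated (bound := fun s => Real.exp (r * B) * ‖g s‖) ?_ ?_ ?_ ?_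
    · intro w
      exact (LF_int g hcont hgs _).aestronglyMeasurable
    · intro w
      refine Filter.Eventually.of_forall fun s => ?_
      rw [norm_mul]
      by_cases hs : |s| ≤ B
      · refine mul_le_mul_of_nonneg_right (norm_cexp_le _ r B s ?_ hs) (norm_nonneg _)
        simp only [Complex.sub_im, Complex.ofReal_im, sub_zero]
        exact (Complex.abs_im_le_norm τ).trans hτ
      · have : g s = 0 := hB2 s (by rw [Real.norm_eq_abs]; exact (not_le.1 hs).le)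
        simp [this]
    · exact (hcont.integrable_of_hasCompactSupport hgs).norm.const_mul _
    · refine Filter.Eventually.of_forall fun s => ?_
      fun_prop
  have hKb : ∀ w : ℝ, ‖LF g (τ - ((2 * Real.pi * w : ℝ) : ℂ))‖ ≤ C * ((1 + (2 * Real.pi * w) ^ 2) ^ M)⁻¹ :=
    fun w => hdec τ hτ _
  have hKi : Integrable (fun w : ℝ => LF g (τ - ((2 * Real.pi * w : ℝ) : ℂ))) := by
    have hi : Integrable (fun w : ℝ => C * (1 + w ^ 2)⁻¹) := integrable_inv_one_add_sq.const_mul C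
    refine hi.mono' hKc.aestronglyMeasurable (Filter.Eventually.of_forall fun w => ?_)
    refine (hKb w).trans ?_
    apply mul_le_mul_of_nonneg_left _ hC.le
    apply inv_anti₀ (by positivity)
    have h1 : 1 + w ^ 2 ≤ 1 + (2 * Real.pi * w) ^ 2 := by
      have : 1 ≤ (2 * Real.pi) ^ 2 := by nlinarith [Real.pi_gt_three]
      nlinarith [sq_nonneg w, mul_le_mul_of_nonneg_right this (sq_nonneg w)]
    exact h1.trans (le_self_pow₀ (by nlinarith [sq_nonneg (2 * Real.pi * w)]) (by omega))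
  refine ⟨_, hKc, hKi, hKb, fun u hu t => ?_⟩
  -- Fourier inversion
  let θ : ℝ → ℂ := fun s => Complex.exp (Complex.I * τ * (s : ℂ)) * g s
  have hθc : Continuous θ := by fun_prop
  have hθi : Integrable θ := LF_int g hcont hgs τ
  have hF : 𝓕 θ = fun w : ℝ => LF g (τ - ((2 * Real.pi * w : ℝ) : ℂ)) := by
    funext w
    rw [Real.fourier_real_eq_integral_exp_smul]
    unfold LF
    refine integral_congr_ae (Filter.Eventually.of_forall fun v => ?_)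
    simp only [θ, smul_eq_mul]
    rw [← mul_assoc, ← Complex.exp_add]
    congr 2
    push_cast
    ring
  have hinv := hθc.fourierInv_fourier_eq hθi (by rw [hF]; exact hKi)
  have hu1 := congrFun hinv u
  rw [Real.fourierInv_eq', hF] at hu1
  have hgu : g u = 1 := by
    have : χ u = 1 := χ.one_of_mem_closedBall (by simpa using hu)
    simp [g, this]
  have hθu : θ u = Complex.exp (Complex.I * τ * (u : ℂ)) := by simp [θ, hgu]
  rw [hθu] at hu1
  have e1 : Complex.exp (Complex.I * (t + τ) * (u : ℂ)) =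
      Complex.exp (Complex.I * t * (u : ℂ)) * Complex.exp (Complex.I * τ * (u : ℂ)) := by
    rw [← Complex.exp_add]; congr 1; ring
  rw [e1, ← hu1, ← integral_const_mul]
  refine integral_congr_ae (Filter.Eventually.of_forall fun w => ?_)
  simp only [smul_eq_mul]
  rw [show Complex.I * (t + ((2 * Real.pi * w : ℝ) : ℂ)) * (u : ℂ) =
    Complex.I * t * u + ((2 * Real.pi * ⟪w, u⟫ : ℝ) : ℂ) * Complex.I by
      simp only [RCLike.inner_apply, conj_trivial]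
      push_cast; ring]
  rw [Complex.exp_add]
  ring

theorem FT_real_bound (ν : Measure ℝ) [IsFiniteMeasure ν] (x : ℝ) : ‖FT ν (x : ℂ)‖ ≤ ν.real univ := by
  unfold FT
  refine (norm_integral_le_integral_norm _).trans (le_of_eq ?_)
  have : ∀ s : ℝ, ‖Complex.exp (Complex.I * (x : ℂ) * (s : ℂ))‖ = 1 := by
    intro s
    rw [Complex.norm_exp]
    simp
  simp_rw [this]
  simp

theorem FT_cont (ν : Measure ℝ) [IsFiniteMeasure ν] : Continuous (fun x : ℝ => FT ν (x : ℂ)) := by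
  unfold FT
  refine continuous_of_dominated (bound := fun _ => (1 : ℝ)) ?_ ?_ ?_ ?_
  · intro x
    exact Continuous.aestronglyMeasurable (by fun_prop)
  · intro x
    refine Filter.Eventually.of_forall fun s => ?_
    rw [Complex.norm_exp]
    simp
  · exact integrable_const _
  · exact Filter.Eventually.of_forall fun s => by fun_prop

theorem Mn_cont (h h' a b φ : ℝ) : Continuous (fun x : ℝ => Mn h h' a b φ (x : ℂ)) := by
  unfold Mn; fun_prop

theorem Mn_real_bound (h h' a b φ : ℝ) (ha : 0 ≤ a) (hb : 0 ≤ b) (x : ℝ) :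
    ‖Mn h h' a b φ (x : ℂ)‖ ≤ a + b := by
  unfold Mn
  refine (norm_add_le _ _).trans ?_
  rw [norm_mul, norm_mul, Complex.norm_exp, Complex.norm_exp, Complex.norm_real, Complex.norm_real,
    Real.norm_of_nonneg ha, Real.norm_of_nonneg hb]
  simp

/-- representation of the error function -/
theorem q_repr (P : ℝ) (ν : Measure ℝ) [IsFiniteMeasure ν] (h h' a b φ T : ℝ) (t₀ : ℝ) (τ : ℂ)
    (hsupp : ∀ᵐ s ∂ν, |s| ≤ P) (hh : |h| ≤ P) (hh' : |h'| ≤ P)
    (K : ℝ → ℂ) (hKc : Continuous K) (hKi : Integrable K)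
    (hK : ∀ u : ℝ, |u| ≤ P → ∀ t : ℂ, Complex.exp (Complex.I * (t + τ) * (u : ℂ)) =
        ∫ w : ℝ, K w * Complex.exp (Complex.I * (t + ((2 * Real.pi * w : ℝ) : ℂ)) * (u : ℂ))) :
    (T : ℂ) * FT ν ((t₀ : ℂ) + τ) - Mn h h' a b φ ((t₀ : ℂ) + τ) =
      ∫ w : ℝ, K w * ((T : ℂ) * FT ν ((t₀ + 2 * Real.pi * w : ℝ) : ℂ) -
        Mn h h' a b φ ((t₀ + 2 * Real.pi * w : ℝ) : ℂ)) := by
  have hcast : ∀ w : ℝ, ((t₀ + 2 * Real.pi * w : ℝ) : ℂ) = (t₀ : ℂ) + ((2 * Real.pi * w : ℝ) : ℂ) := by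
    intro w; push_cast; ring
  -- FT part
  have e1 : FT ν ((t₀ : ℂ) + τ) = ∫ w : ℝ, K w * FT ν ((t₀ + 2 * Real.pi * w : ℝ) : ℂ) := by
    have s1 : FT ν ((t₀ : ℂ) + τ) = ∫ s : ℝ, (∫ w : ℝ, K w * Complex.exp (Complex.I *
        ((t₀ + 2 * Real.pi * w : ℝ) : ℂ) * (s : ℂ))) ∂ν := by
      unfold FT
      refine integral_congr_ae ?_
      filter_upwards [hsupp] with s hs
      rw [hK s hs (t₀ : ℂ)]
      simp_rw [hcast]
    rw [s1, integral_integral_swap]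
    · refine integral_congr_ae (Filter.Eventually.of_forall fun w => ?_)
      simp only
      rw [integral_const_mul]
      rfl
    · have hb : Integrable (fun z : ℝ × ℝ => (1 : ℝ) * ‖K z.2‖) (ν.prod volume) :=
        (integrable_const (1 : ℝ)).mul_prod hKi.norm
      refine hb.mono' (Continuous.aestronglyMeasurable ?_) (Filter.Eventually.of_forall fun z => ?_)
      · unfold Function.uncurry
        fun_prop
      · simp only [Function.uncurry]
        rw [norm_mul, Complex.norm_exp, one_mul]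
        simp
  have e2 : Complex.exp (Complex.I * ((t₀ : ℂ) + τ) * (h : ℂ)) =
      ∫ w : ℝ, K w * Complex.exp (Complex.I * ((t₀ + 2 * Real.pi * w : ℝ) : ℂ) * (h : ℂ)) := by
    rw [hK h hh (t₀ : ℂ)]; simp_rw [hcast]
  have e3 : Complex.exp (Complex.I * ((t₀ : ℂ) + τ) * ((-h' : ℝ) : ℂ)) =
      ∫ w : ℝ, K w * Complex.exp (Complex.I * ((t₀ + 2 * Real.pi * w : ℝ) : ℂ) * ((-h' : ℝ) : ℂ)) := by
    rw [hK (-h') (by rwa [abs_neg]) (t₀ : ℂ)]; simp_rw [hcast]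
  have hMn : ∀ z : ℂ, Mn h h' a b φ z = (a : ℂ) * Complex.exp (Complex.I * φ) *
      Complex.exp (Complex.I * z * (h : ℂ)) + (b : ℂ) * Complex.exp (-(Complex.I * φ)) *
      Complex.exp (Complex.I * z * ((-h' : ℝ) : ℂ)) := by
    intro z
    have m1 : Complex.exp (Complex.I * (z * (h : ℂ) + (φ : ℂ))) =
        Complex.exp (Complex.I * φ) * Complex.exp (Complex.I * z * (h : ℂ)) := by
      rw [← Complex.exp_add]; congr 1; ring
    have m2 : Complex.exp (-(Complex.I * (z * (h' : ℂ) + (φ : ℂ)))) =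
        Complex.exp (-(Complex.I * φ)) * Complex.exp (Complex.I * z * ((-h' : ℝ) : ℂ)) := by
      rw [← Complex.exp_add]; congr 1; push_cast; ring
    unfold Mn
    rw [m1, m2]; ring
  have iF : Integrable (fun w : ℝ => K w * FT ν ((t₀ + 2 * Real.pi * w : ℝ) : ℂ)) := by
    refine (hKi.norm.mul_const (ν.real univ)).mono' (Continuous.aestronglyMeasurable ?_)
      (Filter.Eventually.of_forall fun w => ?_)
    · exact hKc.mul ((FT_cont ν).comp (by fun_prop : Continuous fun w : ℝ => t₀ + 2 * Real.pi * w))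
    · rw [norm_mul]
      exact mul_le_mul_of_nonneg_left (FT_real_bound ν _) (norm_nonneg _)
  have iE : ∀ u : ℝ, Integrable (fun w : ℝ => K w * Complex.exp (Complex.I *
      ((t₀ + 2 * Real.pi * w : ℝ) : ℂ) * (u : ℂ))) := by
    intro u
    refine hKi.norm.mono' (Continuous.aestronglyMeasurable (by fun_prop))
      (Filter.Eventually.of_forall fun w => ?_)
    rw [norm_mul, Complex.norm_exp]
    simp
  have iA := (iE h).const_mul ((a : ℂ) * Complex.exp (Complex.I * φ))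
  have iB := (iE (-h')).const_mul ((b : ℂ) * Complex.exp (-(Complex.I * φ)))
  have iAB : Integrable (fun w : ℝ => (a : ℂ) * Complex.exp (Complex.I * φ) * (K w * Complex.exp (Complex.I *
      ((t₀ + 2 * Real.pi * w : ℝ) : ℂ) * (h : ℂ))) + (b : ℂ) * Complex.exp (-(Complex.I * φ)) *
      (K w * Complex.exp (Complex.I *
      ((t₀ + 2 * Real.pi * w : ℝ) : ℂ) * ((-h' : ℝ) : ℂ)))) := iA.add iB
  rw [hMn, e1, e2, e3, ← integral_const_mul, ← integral_const_mul, ← integral_const_mul,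
    ← integral_add iA iB, ← integral_sub (iF.const_mul _) iAB]
  refine integral_congr_ae (Filter.Eventually.of_forall fun w => ?_)
  simp only
  rw [hMn]
  ring

/-- Cauchy-Schwarz with a weight -/
theorem cs_weight (W f : ℝ → ℝ) (hW : Integrable W) (hWf : Integrable (fun x => W x * f x))
    (hWf2 : Integrable (fun x => W x * f x ^ 2)) (hW0 : ∀ x, 0 ≤ W x) (hpos : 0 < ∫ x, W x) :
    (∫ x, W x * f x) ^ 2 ≤ (∫ x, W x) * ∫ x, W x * f x ^ 2 := by
  set A := ∫ x, W x with hA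
  set B := ∫ x, W x * f x with hB
  have h0 : 0 ≤ ∫ x, W x * (f x - B / A) ^ 2 :=
    integral_nonneg fun x => mul_nonneg (hW0 x) (sq_nonneg _)
  have h1 : ∫ x, W x * (f x - B / A) ^ 2 =
      (∫ x, W x * f x ^ 2) - 2 * (B / A) * B + (B / A) ^ 2 * A := by
    have : ∀ x, W x * (f x - B / A) ^ 2 = W x * f x ^ 2 - 2 * (B / A) * (W x * f x) + (B / A) ^ 2 * W x := by
      intro x; ring
    simp_rw [this]
    have i1 : Integrable (fun x => W x * f x ^ 2 - 2 * (B / A) * (W x * f x)) :=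
      hWf2.sub (hWf.const_mul _)
    rw [integral_add i1 (hW.const_mul _), integral_sub hWf2 (hWf.const_mul _),
      integral_const_mul, integral_const_mul]
  rw [h1] at h0
  have h2 : (B / A) ^ 2 * A = B ^ 2 / A := by field_simp
  have h3 : 2 * (B / A) * B = 2 * (B ^ 2 / A) := by ring
  rw [h2, h3] at h0
  have h4 : B ^ 2 / A ≤ ∫ x, W x * f x ^ 2 := by linarith
  rw [div_le_iff₀ hpos] at h4
  linarith

theorem rpow_sub_one_bd (κ t₀ x : ℝ) (hκ : 1 ≤ κ) (ht₀ : 1 ≤ t₀) (h1 : -(t₀ / 2) < x) :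
    (t₀ / (t₀ + x)) ^ κ ≤ 2 ^ κ ∧ |(t₀ / (t₀ + x)) ^ κ - 1| ≤ κ * 2 ^ κ * (|x| / t₀) := by
  have ht : 0 < t₀ := by linarith
  have htx : t₀ / 2 < t₀ + x := by linarith
  have htx0 : 0 < t₀ + x := by linarith
  have hs0 : 0 < t₀ / (t₀ + x) := by positivity
  have hs2 : t₀ / (t₀ + x) ≤ 2 := by
    rw [div_le_iff₀ htx0]; linarith
  have hy : (t₀ / (t₀ + x)) ^ κ ≤ 2 ^ κ := Real.rpow_le_rpow hs0.le hs2 (by linarith)
  have hy0 : 0 < (t₀ / (t₀ + x)) ^ κ := Real.rpow_pos_of_pos hs0 _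
  have h2κ : (2 : ℝ) ≤ 2 ^ κ := by
    calc (2 : ℝ) = 2 ^ (1 : ℝ) := by simp
      _ ≤ 2 ^ κ := Real.rpow_le_rpow_of_exponent_le (by norm_num) hκ
  refine ⟨hy, abs_le.2 ⟨?_, ?_⟩⟩
  · -- lower bound
    have hb := one_add_mul_self_le_rpow_one_add (s := t₀ / (t₀ + x) - 1) (by linarith) hκ
    rw [show 1 + (t₀ / (t₀ + x) - 1) = t₀ / (t₀ + x) by ring] at hb
    have e : t₀ / (t₀ + x) - 1 = -(x / (t₀ + x)) := by field_simp; ring
    have h3 : x / (t₀ + x) ≤ 2 * (|x| / t₀) := by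
      rw [div_le_iff₀ htx0]
      have : |x| ≤ 2 * (|x| / t₀) * (t₀ + x) := by
        have h4 : 2 * (|x| / t₀) * (t₀ / 2) ≤ 2 * (|x| / t₀) * (t₀ + x) :=
          mul_le_mul_of_nonneg_left htx.le (by positivity)
        have h5 : 2 * (|x| / t₀) * (t₀ / 2) = |x| := by field_simp
        linarith
      exact (le_abs_self x).trans this
    have h6 : κ * (x / (t₀ + x)) ≤ κ * 2 ^ κ * (|x| / t₀) := by
      calc κ * (x / (t₀ + x)) ≤ κ * (2 * (|x| / t₀)) := mul_le_mul_of_nonneg_left h3 (by linarith)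
        _ ≤ κ * (2 ^ κ * (|x| / t₀)) := by
          apply mul_le_mul_of_nonneg_left _ (by linarith)
          exact mul_le_mul_of_nonneg_right h2κ (by positivity)
        _ = _ := by ring
    rw [e] at hb
    nlinarith
  · have hb := one_add_mul_self_le_rpow_one_add (s := x / t₀) (by
      rw [le_div_iff₀ ht]; linarith) hκ
    have e : 1 + x / t₀ = (t₀ / (t₀ + x))⁻¹ := by
      rw [inv_div]; field_simp
    rw [e, Real.inv_rpow hs0.le] at hb
    set y := (t₀ / (t₀ + x)) ^ κ with hydef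
    have h3 : y * (1 + κ * (x / t₀)) ≤ 1 := by
      calc y * (1 + κ * (x / t₀)) ≤ y * y⁻¹ := mul_le_mul_of_nonneg_left hb hy0.le
        _ = 1 := mul_inv_cancel₀ hy0.ne'
    have h4 : -(x / t₀) ≤ |x| / t₀ := by
      rw [← neg_div]
      exact div_le_div_of_nonneg_right (neg_le_abs x) ht.le
    have h5 : y * (κ * -(x / t₀)) ≤ 2 ^ κ * (κ * (|x| / t₀)) := by
      have h6 : κ * -(x / t₀) ≤ κ * (|x| / t₀) := mul_le_mul_of_nonneg_left h4 (by linarith)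
      have h7 : y * (κ * -(x / t₀)) ≤ y * (κ * (|x| / t₀)) := mul_le_mul_of_nonneg_left h6 hy0.le
      have h8 : y * (κ * (|x| / t₀)) ≤ 2 ^ κ * (κ * (|x| / t₀)) :=
        mul_le_mul_of_nonneg_right hy (by positivity)
      exact h7.trans h8
    nlinarith

theorem pointwise_bd (κ φ p P : ℝ) (hκ : 1 ≤ κ) (hP : 0 < P) : ∃ M : ℕ, 1 ≤ M ∧ ∃ C : ℝ, 0 < C ∧
    ∀ (ν : Measure ℝ) (h h' a b : ℝ), LineData p P ν h h' a b → 0 ≤ a → 0 ≤ b → ∀ t₀ : ℝ, 1 ≤ t₀ →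
    ∀ x : ℝ, ((1 + x ^ 2) ^ M)⁻¹ *
      ‖((t₀ ^ κ : ℝ) : ℂ) * FT ν ((t₀ + x : ℝ) : ℂ) - Mn h h' a b φ ((t₀ + x : ℝ) : ℂ)‖ ^ 2 ≤
      C * (Set.indicator (Ioc (-(t₀ / 2)) (t₀ / 2)) (fun x =>
        ‖(((t₀ + x) ^ κ : ℝ) : ℂ) * FT ν ((t₀ + x : ℝ) : ℂ) - Mn h h' a b φ ((t₀ + x : ℝ) : ℂ)‖ ^ 2 *
          (1 + (t₀ + x - t₀) ^ 2)⁻¹) x + t₀⁻¹ * (1 + x ^ 2)⁻¹) := by
  set m : ℕ := ⌈κ⌉₊ + 1 with hm
  have hκm : κ + 1 ≤ (m : ℝ) := by
    rw [hm]; push_cast; linarith [Nat.le_ceil κ]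
  refine ⟨m + 1, by omega, 2 * (2 ^ κ) ^ 2 + 2 * (κ * 2 ^ κ * (2 * P)) ^ 2 + 9 * P ^ 2 * 4 ^ m, by positivity, ?_⟩
  intro ν h h' a b hL ha hb t₀ ht₀ x
  have := hL.fin
  have hF : ‖FT ν ((t₀ + x : ℝ) : ℂ)‖ ≤ P := (FT_real_bound ν _).trans hL.mass'
  have hMn : ‖Mn h h' a b φ ((t₀ + x : ℝ) : ℂ)‖ ≤ 2 * P :=
    (Mn_real_bound h h' a b φ ha hb _).trans (by linarith [hL.a2, hL.b2])
  set Fv := FT ν ((t₀ + x : ℝ) : ℂ) with hFv
  set Mv := Mn h h' a b φ ((t₀ + x : ℝ) : ℂ) with hMv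
  have ht : 0 < t₀ := by linarith
  have hx1 : 0 < 1 + x ^ 2 := by positivity
  have hti : t₀⁻¹ ≤ 1 := inv_le_one_of_one_le₀ ht₀
  have hti0 : 0 < t₀⁻¹ := by positivity
  set C1 := 2 * ((2 : ℝ) ^ κ) ^ 2 with hC1
  set C2 := 2 * (κ * (2 : ℝ) ^ κ * (2 * P)) ^ 2 with hC2
  set C3 := 9 * P ^ 2 * (4 : ℝ) ^ m with hC3
  have hC1p : 0 ≤ C1 := by positivity
  have hC2p : 0 ≤ C2 := by positivity
  have hC3p : 0 ≤ C3 := by positivity
  by_cases hx : x ∈ Ioc (-(t₀ / 2)) (t₀ / 2)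
  · rw [Set.indicator_of_mem hx]
    obtain ⟨r1, r2⟩ := rpow_sub_one_bd κ t₀ x hκ ht₀ hx.1
    have htx0 : 0 < t₀ + x := by linarith [hx.1]
    set y := (t₀ / (t₀ + x)) ^ κ with hy
    have hy0 : 0 ≤ y := by positivity
    have hyt : y * (t₀ + x) ^ κ = t₀ ^ κ := by
      rw [hy, ← Real.mul_rpow (by positivity) htx0.le, div_mul_cancel₀ _ htx0.ne']
    set D := (((t₀ + x) ^ κ : ℝ) : ℂ) * Fv - Mv with hD
    have hQ : ((t₀ ^ κ : ℝ) : ℂ) * Fv - Mv = (y : ℂ) * D + ((y - 1 : ℝ) : ℂ) * Mv := by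
      rw [hD, ← hyt]; push_cast; ring
    have hn : ‖((t₀ ^ κ : ℝ) : ℂ) * Fv - Mv‖ ≤ 2 ^ κ * ‖D‖ + κ * 2 ^ κ * (|x| / t₀) * (2 * P) := by
      rw [hQ]
      refine (norm_add_le _ _).trans ?_
      rw [norm_mul, norm_mul, Complex.norm_real, Complex.norm_real, Real.norm_of_nonneg hy0,
        Real.norm_eq_abs]
      exact add_le_add (mul_le_mul_of_nonneg_right r1 (norm_nonneg _))
        (mul_le_mul r2 hMn (norm_nonneg _) (by positivity))
    have hn2 : ‖((t₀ ^ κ : ℝ) : ℂ) * Fv - Mv‖ ^ 2 ≤ C1 * ‖D‖ ^ 2 + C2 * (x ^ 2 * t₀⁻¹) := by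
      calc ‖((t₀ ^ κ : ℝ) : ℂ) * Fv - Mv‖ ^ 2
          ≤ (2 ^ κ * ‖D‖ + κ * 2 ^ κ * (|x| / t₀) * (2 * P)) ^ 2 :=
            pow_le_pow_left₀ (norm_nonneg _) hn 2
        _ ≤ 2 * (2 ^ κ * ‖D‖) ^ 2 + 2 * (κ * 2 ^ κ * (|x| / t₀) * (2 * P)) ^ 2 := by
            nlinarith [sq_nonneg (2 ^ κ * ‖D‖ - κ * 2 ^ κ * (|x| / t₀) * (2 * P))]
        _ = C1 * ‖D‖ ^ 2 + C2 * (x ^ 2 * (t₀⁻¹ * t₀⁻¹)) := by
            rw [hC1, hC2]
            have : (|x| / t₀) ^ 2 = x ^ 2 * (t₀⁻¹ * t₀⁻¹) := by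
              rw [div_pow, sq_abs]; field_simp
            calc _ = 2 * (2 ^ κ) ^ 2 * ‖D‖ ^ 2 + 2 * (κ * 2 ^ κ * (2 * P)) ^ 2 * (|x| / t₀) ^ 2 := by ring
              _ = _ := by rw [this]
        _ ≤ C1 * ‖D‖ ^ 2 + C2 * (x ^ 2 * t₀⁻¹) := by
            have : t₀⁻¹ * t₀⁻¹ ≤ t₀⁻¹ := by nlinarith
            have h7 : x ^ 2 * (t₀⁻¹ * t₀⁻¹) ≤ x ^ 2 * t₀⁻¹ := mul_le_mul_of_nonneg_left this (sq_nonneg _)
            have := mul_le_mul_of_nonneg_left h7 hC2p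
            linarith
    have hW1 : ((1 + x ^ 2) ^ (m + 1))⁻¹ ≤ (1 + x ^ 2)⁻¹ :=
      inv_anti₀ hx1 (le_self_pow₀ (by nlinarith [sq_nonneg x]) (by omega))
    have hW2 : ((1 + x ^ 2) ^ (m + 1))⁻¹ * x ^ 2 ≤ (1 + x ^ 2)⁻¹ := by
      have h8 : (1 + x ^ 2) ^ 2 ≤ (1 + x ^ 2) ^ (m + 1) :=
        pow_le_pow_right₀ (by nlinarith [sq_nonneg x]) (by omega)
      have h9 : ((1 + x ^ 2) ^ (m + 1))⁻¹ ≤ ((1 + x ^ 2) ^ 2)⁻¹ := inv_anti₀ (by positivity) h8
      calc ((1 + x ^ 2) ^ (m + 1))⁻¹ * x ^ 2 ≤ ((1 + x ^ 2) ^ 2)⁻¹ * (1 + x ^ 2) :=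
            mul_le_mul h9 (by linarith) (sq_nonneg _) (by positivity)
        _ = (1 + x ^ 2)⁻¹ := by field_simp
    have hW0 : 0 ≤ ((1 + x ^ 2) ^ (m + 1))⁻¹ := by positivity
    calc ((1 + x ^ 2) ^ (m + 1))⁻¹ * ‖((t₀ ^ κ : ℝ) : ℂ) * Fv - Mv‖ ^ 2
        ≤ ((1 + x ^ 2) ^ (m + 1))⁻¹ * (C1 * ‖D‖ ^ 2 + C2 * (x ^ 2 * t₀⁻¹)) :=
          mul_le_mul_of_nonneg_left hn2 hW0
      _ = C1 * (‖D‖ ^ 2 * ((1 + x ^ 2) ^ (m + 1))⁻¹) +
          C2 * (t₀⁻¹ * (((1 + x ^ 2) ^ (m + 1))⁻¹ * x ^ 2)) := by ring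
      _ ≤ C1 * (‖D‖ ^ 2 * (1 + x ^ 2)⁻¹) + C2 * (t₀⁻¹ * (1 + x ^ 2)⁻¹) := by
          apply add_le_add
          · exact mul_le_mul_of_nonneg_left (mul_le_mul_of_nonneg_left hW1 (sq_nonneg _)) hC1p
          · exact mul_le_mul_of_nonneg_left (mul_le_mul_of_nonneg_left hW2 hti0.le) hC2p
      _ ≤ (C1 + C2 + C3) * (‖D‖ ^ 2 * (1 + x ^ 2)⁻¹) + (C1 + C2 + C3) * (t₀⁻¹ * (1 + x ^ 2)⁻¹) := by
          apply add_le_add
          · exact mul_le_mul_of_nonneg_right (by linarith) (by positivity)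
          · exact mul_le_mul_of_nonneg_right (by linarith) (by positivity)
      _ = _ := by rw [add_sub_cancel_left]; ring
  · rw [Set.indicator_of_notMem hx, zero_add]
    have hx2 : t₀ / 2 ≤ |x| := by
      by_contra hcon
      push Not at hcon
      have := abs_lt.1 hcon
      exact hx ⟨this.1, this.2.le⟩
    have ht1 : 1 ≤ t₀ ^ κ := Real.one_le_rpow ht₀ (by linarith)
    have hn : ‖((t₀ ^ κ : ℝ) : ℂ) * Fv - Mv‖ ≤ 3 * P * t₀ ^ κ := by
      refine (norm_sub_le _ _).trans ?_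
      rw [norm_mul, Complex.norm_real, Real.norm_of_nonneg (by positivity)]
      have h1 : t₀ ^ κ * ‖Fv‖ ≤ t₀ ^ κ * P := mul_le_mul_of_nonneg_left hF (by positivity)
      nlinarith
    have hn2 : ‖((t₀ ^ κ : ℝ) : ℂ) * Fv - Mv‖ ^ 2 ≤ 9 * P ^ 2 * (t₀ ^ κ) ^ 2 := by
      calc _ ≤ (3 * P * t₀ ^ κ) ^ 2 := pow_le_pow_left₀ (norm_nonneg _) hn 2
        _ = _ := by ring
    have hx4 : t₀ ^ 2 / 4 ≤ 1 + x ^ 2 := by
      have : (t₀ / 2) ^ 2 ≤ |x| ^ 2 := pow_le_pow_left₀ (by positivity) hx2 2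
      rw [sq_abs] at this
      nlinarith
    have hpw : t₀ ^ (2 * m) / 4 ^ m ≤ (1 + x ^ 2) ^ m := by
      have := pow_le_pow_left₀ (by positivity) hx4 m
      rwa [div_pow, ← pow_mul] at this
    have htk : (t₀ ^ κ) ^ 2 * t₀ ≤ t₀ ^ (2 * m) := by
      have e1 : (t₀ ^ κ) ^ 2 * t₀ = t₀ ^ (κ * 2 + 1) := by
        rw [Real.rpow_add ht, Real.rpow_one, Real.rpow_mul ht.le]
        norm_cast
      have e2 : t₀ ^ (2 * m) = t₀ ^ ((2 * m : ℕ) : ℝ) := by rw [Real.rpow_natCast]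
      rw [e1, e2]
      apply Real.rpow_le_rpow_of_exponent_le ht₀
      push_cast
      linarith
    have hkey : (t₀ ^ κ) ^ 2 ≤ 4 ^ m * (1 + x ^ 2) ^ m * t₀⁻¹ := by
      rw [← div_eq_mul_inv, le_div_iff₀ ht]
      rw [div_le_iff₀ (by positivity)] at hpw
      linarith
    have hW : ((1 + x ^ 2) ^ (m + 1))⁻¹ * (1 + x ^ 2) ^ m = (1 + x ^ 2)⁻¹ := by
      rw [pow_succ]; field_simp
    calc ((1 + x ^ 2) ^ (m + 1))⁻¹ * ‖((t₀ ^ κ : ℝ) : ℂ) * Fv - Mv‖ ^ 2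
        ≤ ((1 + x ^ 2) ^ (m + 1))⁻¹ * (9 * P ^ 2 * (4 ^ m * (1 + x ^ 2) ^ m * t₀⁻¹)) := by
          apply mul_le_mul_of_nonneg_left _ (by positivity)
          exact hn2.trans (mul_le_mul_of_nonneg_left hkey (by positivity))
      _ = C3 * (t₀⁻¹ * (((1 + x ^ 2) ^ (m + 1))⁻¹ * (1 + x ^ 2) ^ m)) := by rw [hC3]; ring
      _ = C3 * (t₀⁻¹ * (1 + x ^ 2)⁻¹) := by rw [hW]
      _ ≤ (C1 + C2 + C3) * (t₀⁻¹ * (1 + x ^ 2)⁻¹) :=
          mul_le_mul_of_nonneg_right (by linarith) (by positivity)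

theorem stB1 : StmtB1 := by
  intro κ φ p P r₁ hκ hp hr₁
  by_cases hP : 0 < P
  swap
  · refine ⟨1, one_pos, fun ν h h' a b hL => ?_⟩
    exact absurd (lt_of_lt_of_le hp (hL.h1.trans hL.h2)) hP
  obtain ⟨M, hM, C1, hC1, hpt⟩ := pointwise_bd κ φ p P hκ hP
  obtain ⟨CK, hCK, hrep⟩ := repro P hP M hM r₁ hr₁.le
  refine ⟨CK ^ 2 * Real.pi ^ 2 * C1, by positivity, ?_⟩
  intro ν h h' a b hL t₀ ht₀ τ hτ
  have := hL.fin
  have ha : 0 ≤ a := hp.le.trans hL.a1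
  have hb : 0 ≤ b := hp.le.trans hL.b1
  have ht : 0 < t₀ := by linarith
  obtain ⟨K, hKc, hKi, hKb, hK⟩ := hrep τ hτ
  have hsupp : ∀ᵐ s ∂ν, |s| ≤ P := by
    have h0 := hL.supp
    rw [measure_eq_zero_iff_ae_notMem] at h0
    filter_upwards [h0] with s hs
    rw [Set.notMem_compl_iff] at hs
    exact abs_le.2 ⟨by linarith [hs.1, hL.h4], by linarith [hs.2, hL.h2]⟩
  have hq := q_repr P ν h h' a b φ (t₀ ^ κ) t₀ τ hsupp
    (abs_le.2 ⟨by linarith [hL.h1], hL.h2⟩) (abs_le.2 ⟨by linarith [hL.h3], hL.h4⟩) K hKc hKi hK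
  set Q : ℝ → ℂ := fun x => ((t₀ ^ κ : ℝ) : ℂ) * FT ν ((t₀ + x : ℝ) : ℂ) -
    Mn h h' a b φ ((t₀ + x : ℝ) : ℂ) with hQ
  have hQc : Continuous Q := by
    refine Continuous.sub (continuous_const.mul ((FT_cont ν).comp (by fun_prop :
      Continuous fun x : ℝ => t₀ + x))) ((Mn_cont h h' a b φ).comp (by fun_prop :
      Continuous fun x : ℝ => t₀ + x))
  set B : ℝ := t₀ ^ κ * P + 2 * P with hB
  have hQB : ∀ x, ‖Q x‖ ≤ B := by
    intro x
    refine (norm_sub_le _ _).trans (add_le_add ?_ ?_)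
    · rw [norm_mul, Complex.norm_real, Real.norm_of_nonneg (by positivity)]
      exact mul_le_mul_of_nonneg_left ((FT_real_bound ν _).trans hL.mass') (by positivity)
    · exact (Mn_real_bound h h' a b φ ha hb _).trans (by linarith [hL.a2, hL.b2])
  set W : ℝ → ℝ := fun x => ((1 + x ^ 2) ^ M)⁻¹ with hW
  have hW0 : ∀ x, 0 < W x := fun x => by simp only [hW]; positivity
  have hWc : Continuous W := by
    simp only [hW]
    exact Continuous.inv₀ (by fun_prop) (fun x => by positivity)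
  have hWle : ∀ x, W x ≤ (1 + x ^ 2)⁻¹ := fun x =>
    inv_anti₀ (by positivity) (le_self_pow₀ (by nlinarith [sq_nonneg x]) (by omega))
  have hWi : Integrable W := integrable_inv_one_add_sq.mono' hWc.aestronglyMeasurable
    (Filter.Eventually.of_forall fun x => by
      rw [Real.norm_of_nonneg (hW0 x).le]; exact hWle x)
  have hWint : ∫ x, W x ≤ Real.pi := by
    rw [← integral_univ_inv_one_add_sq]
    exact integral_mono hWi integrable_inv_one_add_sq hWle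
  have hWpos : 0 < ∫ x, W x := by
    rw [integral_pos_iff_support_of_nonneg (fun x => (hW0 x).le) hWi]
    have : Function.support W = univ := by
      ext x; simp [(hW0 x).ne']
    rw [this]; simp
  have i1 : Integrable (fun x => W x * ‖Q x‖) := by
    refine (hWi.mul_const B).mono' (hWc.mul hQc.norm).aestronglyMeasurable
      (Filter.Eventually.of_forall fun x => ?_)
    rw [Real.norm_of_nonneg (mul_nonneg (hW0 x).le (norm_nonneg _))]
    exact mul_le_mul_of_nonneg_left (hQB x) (hW0 x).le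
  have i2 : Integrable (fun x => W x * ‖Q x‖ ^ 2) := by
    refine (hWi.mul_const (B ^ 2)).mono' (hWc.mul (hQc.norm.pow 2)).aestronglyMeasurable
      (Filter.Eventually.of_forall fun x => ?_)
    rw [Real.norm_of_nonneg (mul_nonneg (hW0 x).le (sq_nonneg _))]
    exact mul_le_mul_of_nonneg_left (pow_le_pow_left₀ (norm_nonneg _) (hQB x) 2) (hW0 x).le
  -- bound of q
  have hq1 : ‖((t₀ ^ κ : ℝ) : ℂ) * FT ν ((t₀ : ℂ) + τ) - Mn h h' a b φ ((t₀ : ℂ) + τ)‖ ≤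
      CK * ∫ x, W x * ‖Q x‖ := by
    rw [hq]
    have e0 : ∀ w : ℝ, ‖K w * (((t₀ ^ κ : ℝ) : ℂ) * FT ν ((t₀ + 2 * Real.pi * w : ℝ) : ℂ) -
        Mn h h' a b φ ((t₀ + 2 * Real.pi * w : ℝ) : ℂ))‖ ≤
        CK * (W (2 * Real.pi * w) * ‖Q (2 * Real.pi * w)‖) := by
      intro w
      rw [norm_mul, ← mul_assoc]
      exact mul_le_mul_of_nonneg_right (hKb w) (norm_nonneg _)
    have i3 : Integrable (fun w : ℝ => CK * (W (2 * Real.pi * w) * ‖Q (2 * Real.pi * w)‖)) := by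
      have := i1.comp_mul_left' (R := 2 * Real.pi) (by positivity)
      exact this.const_mul CK
    refine (norm_integral_le_of_norm_le i3 (Filter.Eventually.of_forall e0)).trans ?_
    rw [integral_const_mul]
    apply mul_le_mul_of_nonneg_left _ hCK.le
    have e1 := MeasureTheory.Measure.integral_comp_mul_left (fun x => W x * ‖Q x‖) (2 * Real.pi)
    rw [e1, smul_eq_mul]
    have h0 : 0 ≤ ∫ x, W x * ‖Q x‖ := integral_nonneg fun x => mul_nonneg (hW0 x).le (norm_nonneg _)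
    have h1 : |(2 * Real.pi)⁻¹| ≤ 1 := by
      rw [abs_of_pos (by positivity)]
      exact inv_le_one_of_one_le₀ (by nlinarith [Real.pi_gt_three])
    nlinarith
  have hcs := cs_weight W (fun x => ‖Q x‖) hWi i1 i2 (fun x => (hW0 x).le) hWpos
  -- the local integral
  set G : ℝ → ℝ := fun x => ‖((x ^ κ : ℝ) : ℂ) * FT ν (x : ℂ) - Mn h h' a b φ (x : ℂ)‖ ^ 2 *
    (1 + (x - t₀) ^ 2)⁻¹ with hG
  have hGc : Continuous G := by
    refine Continuous.mul (Continuous.pow (Continuous.norm (Continuous.sub (Continuous.mul ?_ (FT_cont ν))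
      (Mn_cont h h' a b φ))) 2) (Continuous.inv₀ (by fun_prop) (fun x => by positivity))
    exact Complex.continuous_ofReal.comp (continuous_id.rpow_const (fun x => Or.inr (by linarith)))
  have hG0 : ∀ x, 0 ≤ G x := fun x => by simp only [hG]; positivity
  have hIeq : ∫ x, Set.indicator (Ioc (-(t₀ / 2)) (t₀ / 2)) (fun x => G (t₀ + x)) x =
      ∫ x in (t₀ / 2)..(3 * t₀ / 2), G x := by
    rw [integral_indicator measurableSet_Ioc, ← intervalIntegral.integral_of_le (by linarith),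
      intervalIntegral.integral_comp_add_left]
    congr 1 <;> ring
  have iI : Integrable (fun x => Set.indicator (Ioc (-(t₀ / 2)) (t₀ / 2)) (fun x => G (t₀ + x)) x) := by
    rw [integrable_indicator_iff measurableSet_Ioc]
    have : Continuous (fun x => G (t₀ + x)) := hGc.comp (by fun_prop)
    exact (this.integrableOn_Icc).mono_set Ioc_subset_Icc_self
  have hI0 : 0 ≤ ∫ x in (t₀ / 2)..(3 * t₀ / 2), G x :=
    intervalIntegral.integral_nonneg (by linarith) (fun x _ => hG0 x)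
  have hfin : ∫ x, W x * ‖Q x‖ ^ 2 ≤ C1 * ((∫ x in (t₀ / 2)..(3 * t₀ / 2), G x) + t₀⁻¹ * Real.pi) := by
    calc ∫ x, W x * ‖Q x‖ ^ 2 ≤ ∫ x, C1 * (Set.indicator (Ioc (-(t₀ / 2)) (t₀ / 2))
          (fun x => G (t₀ + x)) x + t₀⁻¹ * (1 + x ^ 2)⁻¹) := by
          refine integral_mono i2 ((iI.add (integrable_inv_one_add_sq.const_mul _)).const_mul C1) ?_
          intro x
          exact hpt ν h h' a b hL ha hb t₀ ht₀ x
      _ = _ := by
          rw [integral_const_mul, integral_add iI (integrable_inv_one_add_sq.const_mul _), hIeq,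
            integral_const_mul, integral_univ_inv_one_add_sq]
  have hn0 : 0 ≤ ∫ x, W x * ‖Q x‖ := integral_nonneg fun x => mul_nonneg (hW0 x).le (norm_nonneg _)
  have hn1 : 0 ≤ ∫ x, W x * ‖Q x‖ ^ 2 := integral_nonneg fun x => mul_nonneg (hW0 x).le (sq_nonneg _)
  have hti : 0 < t₀⁻¹ := by positivity
  have hpi1 : 1 ≤ Real.pi := by linarith [Real.pi_gt_three]
  calc ‖((t₀ ^ κ : ℝ) : ℂ) * FT ν ((t₀ : ℂ) + τ) - Mn h h' a b φ ((t₀ : ℂ) + τ)‖ ^ 2
      ≤ (CK * ∫ x, W x * ‖Q x‖) ^ 2 := pow_le_pow_left₀ (norm_nonneg _) hq1 2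
    _ = CK ^ 2 * (∫ x, W x * ‖Q x‖) ^ 2 := by ring
    _ ≤ CK ^ 2 * (Real.pi * (C1 * ((∫ x in (t₀ / 2)..(3 * t₀ / 2), G x) + t₀⁻¹ * Real.pi))) := by
        apply mul_le_mul_of_nonneg_left _ (by positivity)
        refine hcs.trans (mul_le_mul hWint hfin hn1 Real.pi_pos.le)
    _ ≤ CK ^ 2 * (Real.pi * (C1 * (Real.pi * ((∫ x in (t₀ / 2)..(3 * t₀ / 2), G x) + t₀⁻¹)))) := by
        apply mul_le_mul_of_nonneg_left _ (by positivity)
        apply mul_le_mul_of_nonneg_left _ Real.pi_pos.le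
        apply mul_le_mul_of_nonneg_left _ hC1.le
        nlinarith
    _ = CK ^ 2 * Real.pi ^ 2 * C1 * ((∫ x in (t₀ / 2)..(3 * t₀ / 2), G x) + t₀⁻¹) := by ring

end Pool.Agent.Helper890.Cov.JB1
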