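import Mathlib
import Pool.Agent.Helper890.Cov.StB




namespace Pool.Agent.Helper890.Cov.JB2
open MeasureTheory Set Filter Topology Metric
open scoped RealInnerProductSpace

lemma kern_sum (s₀ : ℝ) (hs : 0 < s₀) : ∃ K : ℝ, 0 < K ∧ ∀ (s c₀ x : ℝ), s₀ ≤ s → ∀ A : Finset ℕ,
    ∑ m ∈ A, (1 + (x - (c₀ + s * m)) ^ 2)⁻¹ ≤ K := by
  set u : ℤ → ℝ := fun j => (1 + s₀ ^ 2 * (j : ℝ) ^ 2)⁻¹ with hu
  have hu0 : ∀ j, 0 ≤ u j := fun j => by
    rw [hu]; positivity
  have hsum : Summable u := by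
    have h1 : Summable (fun n : ℤ => (s₀ ^ 2)⁻¹ * (1 / (n : ℝ) ^ 2)) :=
      (Real.summable_one_div_int_pow.2 (by norm_num)).mul_left _
    refine Summable.of_norm_bounded_eventually h1 ?_
    rw [Filter.eventually_cofinite]
    refine Set.Finite.subset (Set.finite_singleton (0 : ℤ)) ?_
    intro n hn
    simp only [Set.mem_ofPred_eq] at hn
    rw [Set.mem_singleton_iff]
    by_contra h0
    apply hn
    have h0r : (0 : ℝ) < (n : ℝ) ^ 2 := by
      have : (n : ℝ) ≠ 0 := by exact_mod_cast h0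
      positivity
    rw [Real.norm_eq_abs, abs_of_nonneg (hu0 n), hu]
    simp only []
    rw [one_div, ← mul_inv]
    apply inv_anti₀ (by positivity)
    linarith
  have h0 : 0 ≤ ∑' j, u j := tsum_nonneg hu0
  refine ⟨2 * ∑' j, u j + 1, by linarith, ?_⟩
  intro s c₀ x hss A
  have hs' : 0 < s := lt_of_lt_of_le hs hss
  set y : ℝ := (x - c₀) / s with hy
  set n₀ : ℤ := ⌊y⌋ with hn₀
  have hyx : ∀ m : ℕ, x - (c₀ + s * m) = s * (y - m) := by
    intro m
    rw [hy]; field_simp; ring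
  have hf1 : (n₀ : ℝ) ≤ y := Int.floor_le y
  have hf2 : y < n₀ + 1 := Int.lt_floor_add_one y
  have hss2 : s₀ ^ 2 ≤ s ^ 2 := by nlinarith
  have hterm : ∀ m : ℕ, (1 + (x - (c₀ + s * m)) ^ 2)⁻¹ ≤ u ((m : ℤ) - n₀) + u ((m : ℤ) - (n₀ + 1)) := by
    intro m
    rw [hyx m]
    rcases le_or_gt (m : ℤ) n₀ with hm | hm
    · have hm' : (m : ℝ) ≤ n₀ := by exact_mod_cast hm
      have h2 : (1 + (s * (y - m)) ^ 2)⁻¹ ≤ u ((m : ℤ) - n₀) := by
        rw [hu]; simp only []
        apply inv_anti₀ (by positivity)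
        push_cast
        have h3 : ((m : ℝ) - n₀) ^ 2 ≤ (y - m) ^ 2 := by nlinarith
        rw [mul_pow]
        nlinarith [mul_le_mul hss2 h3 (sq_nonneg _) (sq_nonneg s)]
      linarith [hu0 ((m : ℤ) - (n₀ + 1))]
    · have hm' : (n₀ : ℝ) + 1 ≤ m := by exact_mod_cast hm
      have h2 : (1 + (s * (y - m)) ^ 2)⁻¹ ≤ u ((m : ℤ) - (n₀ + 1)) := by
        rw [hu]; simp only []
        apply inv_anti₀ (by positivity)
        push_cast
        have h3 : ((m : ℝ) - (n₀ + 1)) ^ 2 ≤ (y - m) ^ 2 := by nlinarith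
        rw [mul_pow]
        nlinarith [mul_le_mul hss2 h3 (sq_nonneg _) (sq_nonneg s)]
      linarith [hu0 ((m : ℤ) - n₀)]
  have hshift : ∀ k : ℤ, ∑ m ∈ A, u ((m : ℤ) - k) ≤ ∑' j, u j := by
    intro k
    have h4 : ∑ m ∈ A, u ((m : ℤ) - k) = ∑ j ∈ A.image (fun m : ℕ => (m : ℤ) - k), u j := by
      rw [Finset.sum_image]
      intro a _ b _ hab
      simp only [sub_left_inj, Nat.cast_inj] at hab
      exact hab
    rw [h4]
    exact hsum.sum_le_tsum _ (fun j _ => hu0 j)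
  calc ∑ m ∈ A, (1 + (x - (c₀ + s * m)) ^ 2)⁻¹
      ≤ ∑ m ∈ A, (u ((m : ℤ) - n₀) + u ((m : ℤ) - (n₀ + 1))) := Finset.sum_le_sum fun m _ => hterm m
    _ = ∑ m ∈ A, u ((m : ℤ) - n₀) + ∑ m ∈ A, u ((m : ℤ) - (n₀ + 1)) := Finset.sum_add_distrib
    _ ≤ 2 * ∑' j, u j + 1 := by linarith [hshift n₀, hshift (n₀ + 1)]

lemma FT_cont (ν : Measure ℝ) [IsFiniteMeasure ν] : Continuous (fun t : ℝ => FT ν (t : ℂ)) := by
  unfold FT
  refine MeasureTheory.continuous_of_dominated (bound := fun _ => (1 : ℝ)) ?_ ?_ ?_ ?_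
  · intro t
    exact (Continuous.aestronglyMeasurable (by fun_prop))
  · intro t
    refine Filter.Eventually.of_forall fun s => ?_
    have : Complex.I * (t : ℂ) * (s : ℂ) = ((t * s : ℝ) : ℂ) * Complex.I := by push_cast; ring
    rw [this, Complex.norm_exp_ofReal_mul_I]
  · exact integrable_const _
  · refine Filter.Eventually.of_forall fun s => ?_
    fun_prop

theorem stB2 (h1 : StmtB1) : StmtB2 := by
  intro κ φ p P r₁ lam δ hκ hp hr hlam hδ
  obtain ⟨C, hC, hB1⟩ := h1 κ φ p P r₁ hκ hp hr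
  set P' : ℝ := |P| + 1 with hP'
  have hP'0 : 0 < P' := by positivity
  have hPP' : P ≤ P' := by have := le_abs_self P; linarith
  obtain ⟨K, hK, hker⟩ := kern_sum (Real.pi / P') (by positivity)
  set T : ℝ := max 1 (2 * C / lam ^ 2) with hT
  have hT1 : 1 ≤ T := le_max_left _ _
  have hT2 : C / T ≤ lam ^ 2 / 2 := by
    have h2 : 2 * C / lam ^ 2 ≤ T := le_max_right _ _
    rw [div_le_div_iff₀ (by linarith) (by norm_num)]
    rw [div_le_iff₀ (by positivity)] at h2
    linarith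
  set Q : ℝ := (P' * T + |φ|) / Real.pi + 1 with hQ
  refine ⟨δ * lam ^ 2 / (4 * C * K), max (max 1 (3 * |φ| / p)) (2 * Q / δ), by positivity,
    by positivity, ?_⟩
  intro ν h h' a b w hL hw R hR herr
  have hR1 : 1 ≤ R := le_trans (le_trans (le_max_left _ _) (le_max_left _ _)) hR
  have hR2 : 3 * |φ| / p ≤ R := le_trans (le_trans (le_max_right _ _) (le_max_left _ _)) hR
  have hR3 : 2 * Q / δ ≤ R := le_trans (le_max_right _ _) hR
  have hR2' : 3 * |φ| ≤ R * p := (div_le_iff₀ hp).1 hR2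
  have hR3' : 2 * Q ≤ R * δ := (div_le_iff₀ hδ).1 hR3
  have hwl : 2 * p ≤ w := by rw [hw]; linarith [hL.h1, hL.h3]
  have hwu : w ≤ 2 * P' := by rw [hw]; linarith [hL.h2, hL.h4]
  have hw0 : 0 < w := by linarith
  have hπ := Real.pi_pos
  have := hL.fin
  set c : ℕ → ℝ := fun m => ((2 * (m : ℝ) + 1) * Real.pi - 2 * φ) / w with hc
  set g : ℝ → ℝ := fun t => ‖((t ^ κ : ℝ) : ℂ) * FT ν (t : ℂ) - Mn h h' a b φ (t : ℂ)‖ ^ 2 with hg
  have hgc : Continuous g := by
    rw [hg]
    have h2 : Continuous (fun t : ℝ => t ^ κ) :=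
      continuous_iff_continuousAt.2 fun x => Real.continuousAt_rpow_const x κ (Or.inr (by linarith))
    have h3 : Continuous (fun t : ℝ => ((t ^ κ : ℝ) : ℂ)) := Complex.continuous_ofReal.comp h2
    have h4 : Continuous (fun t : ℝ => Mn h h' a b φ (t : ℂ)) := by
      unfold Mn
      fun_prop
    exact ((h3.mul (FT_cont ν)).sub h4).norm.pow 2
  have hg0 : ∀ x, 0 ≤ g x := fun x => by rw [hg]; positivity
  have hkc : ∀ m : ℕ, Continuous (fun x : ℝ => g x * (1 + (x - c m) ^ 2)⁻¹) := by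
    intro m
    refine hgc.mul (Continuous.inv₀ (by fun_prop) (fun x => by positivity))
  set N : ℕ := ⌊w * R / (2 * Real.pi)⌋₊ with hN
  classical
  have hNle : (N : ℝ) ≤ w * R / (2 * Real.pi) := Nat.floor_le (by positivity)
  have hcle : ∀ m ∈ Finset.range N, c m ≤ 4 * R / 3 := by
    intro m hm
    have hm1 : (m : ℝ) + 1 ≤ N := by exact_mod_cast Finset.mem_range.1 hm
    have h5 : (N : ℝ) * (2 * Real.pi) ≤ w * R := (le_div_iff₀ (by positivity)).1 hNle
    have h6 : (2 * (m : ℝ) + 1) * Real.pi ≤ w * R := by nlinarith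
    rw [hc]; simp only []
    rw [div_le_iff₀ hw0]
    have h7 : -2 * φ ≤ 2 * |φ| := by nlinarith [neg_abs_le φ]
    nlinarith
  refine ⟨(Finset.range N).filter (fun m => T ≤ c m ∧
    C * (∫ x in (c m / 2)..(3 * c m / 2), g x * (1 + (x - c m) ^ 2)⁻¹) ≤ lam ^ 2 / 2), ?_, ?_, ?_⟩
  · intro m hm
    exact Finset.mem_range.1 (Finset.mem_filter.1 hm).1
  · set A1 := (Finset.range N).filter (fun m => c m < T) with hA1
    set A2 := (Finset.range N).filter (fun m => T ≤ c m ∧ lam ^ 2 / 2 <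
      C * (∫ x in (c m / 2)..(3 * c m / 2), g x * (1 + (x - c m) ^ 2)⁻¹)) with hA2
    have hsub : Finset.range N \ (Finset.range N).filter (fun m => T ≤ c m ∧
        C * (∫ x in (c m / 2)..(3 * c m / 2), g x * (1 + (x - c m) ^ 2)⁻¹) ≤ lam ^ 2 / 2) ⊆
        A1 ∪ A2 := by
      intro m hm
      rw [Finset.mem_sdiff, Finset.mem_filter] at hm
      rw [Finset.mem_union, hA1, hA2, Finset.mem_filter, Finset.mem_filter]
      by_cases h8 : c m < T
      · exact Or.inl ⟨hm.1, h8⟩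
      · right
        refine ⟨hm.1, not_lt.1 h8, ?_⟩
        by_contra h9
        exact hm.2 ⟨hm.1, not_lt.1 h8, not_lt.1 h9⟩
    have hcard : ((Finset.range N \ (Finset.range N).filter (fun m => T ≤ c m ∧
        C * (∫ x in (c m / 2)..(3 * c m / 2), g x * (1 + (x - c m) ^ 2)⁻¹) ≤ lam ^ 2 / 2)).card : ℝ) ≤
        (A1.card : ℝ) + A2.card := by
      have := (Finset.card_le_card hsub).trans (Finset.card_union_le A1 A2)
      exact_mod_cast this
    have hc1 : (A1.card : ℝ) ≤ Q := by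
      have h10 : A1 ⊆ Finset.range (⌊(P' * T + |φ|) / Real.pi⌋₊ + 1) := by
        intro m hm
        rw [hA1, Finset.mem_filter] at hm
        rw [Finset.mem_range, Nat.lt_add_one_iff]
        apply Nat.le_floor
        rw [le_div_iff₀ hπ]
        have h11 : ((2 * (m : ℝ) + 1) * Real.pi - 2 * φ) < T * w := (div_lt_iff₀ hw0).1 hm.2
        have h12 : φ ≤ |φ| := le_abs_self φ
        nlinarith
      have h13 : (A1.card : ℝ) ≤ (⌊(P' * T + |φ|) / Real.pi⌋₊ : ℝ) + 1 := by
        have := Finset.card_le_card h10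
        rw [Finset.card_range] at this
        exact_mod_cast this
      have h14 : (⌊(P' * T + |φ|) / Real.pi⌋₊ : ℝ) ≤ (P' * T + |φ|) / Real.pi :=
        Nat.floor_le (by positivity)
      rw [hQ]; linarith
    have hc2 : (A2.card : ℝ) * (lam ^ 2 / 2) ≤ C * (K * (δ * lam ^ 2 / (4 * C * K) * R)) := by
      have h15 : (A2.card : ℝ) * (lam ^ 2 / 2) ≤ ∑ m ∈ A2,
          C * (∫ x in (c m / 2)..(3 * c m / 2), g x * (1 + (x - c m) ^ 2)⁻¹) := by
        rw [← nsmul_eq_mul]
        refine Finset.card_nsmul_le_sum _ _ _ fun m hm => ?_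
        rw [hA2, Finset.mem_filter] at hm
        exact hm.2.2.le
      have h16 : ∑ m ∈ A2, C * (∫ x in (c m / 2)..(3 * c m / 2), g x * (1 + (x - c m) ^ 2)⁻¹) ≤
          ∑ m ∈ A2, C * (∫ x in (0 : ℝ)..(2 * R), g x * (1 + (x - c m) ^ 2)⁻¹) := by
        refine Finset.sum_le_sum fun m hm => mul_le_mul_of_nonneg_left ?_ hC.le
        rw [hA2, Finset.mem_filter] at hm
        have h17 := hcle m hm.1
        have h18 : 1 ≤ c m := hT1.trans hm.2.1
        refine intervalIntegral.integral_mono_interval (by linarith) (by linarith) (by linarith)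
          (Filter.Eventually.of_forall fun x => ?_) ((hkc m).intervalIntegrable _ _)
        exact mul_nonneg (hg0 x) (by positivity)
      have h19 : ∑ m ∈ A2, C * (∫ x in (0 : ℝ)..(2 * R), g x * (1 + (x - c m) ^ 2)⁻¹) =
          C * ∫ x in (0 : ℝ)..(2 * R), g x * ∑ m ∈ A2, (1 + (x - c m) ^ 2)⁻¹ := by
        rw [← Finset.mul_sum, ← intervalIntegral.integral_finsetSum
          (fun m _ => (hkc m).intervalIntegrable _ _)]
        congr 1
        refine intervalIntegral.integral_congr fun x _ => ?_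
        exact (Finset.mul_sum _ _ _).symm
      have h20 : ∫ x in (0 : ℝ)..(2 * R), g x * ∑ m ∈ A2, (1 + (x - c m) ^ 2)⁻¹ ≤
          ∫ x in (0 : ℝ)..(2 * R), g x * K := by
        refine intervalIntegral.integral_mono_on (by linarith) ?_ ?_ ?_
        · refine Continuous.intervalIntegrable ?_ _ _
          refine hgc.mul (continuous_finsetSum _ fun m _ => ?_)
          exact Continuous.inv₀ (by fun_prop) (fun x => by positivity)
        · exact (hgc.mul continuous_const).intervalIntegrable _ _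
        · intro x _
          refine mul_le_mul_of_nonneg_left ?_ (hg0 x)
          have h21 := hker (2 * Real.pi / w) ((Real.pi - 2 * φ) / w) x (by
            rw [div_le_div_iff₀ hP'0 hw0]; nlinarith) A2
          refine le_trans (le_of_eq ?_) h21
          refine Finset.sum_congr rfl fun m _ => ?_
          have h22 : c m = (Real.pi - 2 * φ) / w + 2 * Real.pi / w * m := by
            rw [hc]; simp only []; ring
          rw [h22]
      have h23 : ∫ x in (0 : ℝ)..(2 * R), g x * K = K * errI κ φ ν h h' a b R := by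
        rw [intervalIntegral.integral_mul_const, mul_comm]
        rfl
      calc (A2.card : ℝ) * (lam ^ 2 / 2) ≤ C * ∫ x in (0 : ℝ)..(2 * R), g x * ∑ m ∈ A2,
            (1 + (x - c m) ^ 2)⁻¹ := by rw [← h19]; exact h15.trans h16
        _ ≤ C * (K * errI κ φ ν h h' a b R) := by
            rw [← h23]; exact mul_le_mul_of_nonneg_left h20 hC.le
        _ ≤ _ := mul_le_mul_of_nonneg_left (mul_le_mul_of_nonneg_left herr hK.le) hC.le
    have hc3 : (A2.card : ℝ) ≤ δ * R / 2 := by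
      have h24 : C * (K * (δ * lam ^ 2 / (4 * C * K) * R)) = δ * R / 2 * (lam ^ 2 / 2) := by
        field_simp
        ring
      rw [h24] at hc2
      exact le_of_mul_le_mul_right hc2 (by positivity)
    linarith
  · intro m hm τ hτ
    rw [Finset.mem_filter] at hm
    obtain ⟨hm0, hm1, hm2⟩ := hm
    have h25 : 1 ≤ c m := hT1.trans hm1
    refine ⟨h25, ?_⟩
    have h26 := hB1 ν h h' a b hL (c m) h25 τ hτ
    have h27 : C * (c m)⁻¹ ≤ lam ^ 2 / 2 := by
      refine le_trans ?_ hT2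
      rw [div_eq_mul_inv]
      exact mul_le_mul_of_nonneg_left (inv_anti₀ (by linarith) hm1) hC.le
    have h28 : ‖((c m ^ κ : ℝ) : ℂ) * FT ν ((c m : ℂ) + τ) - Mn h h' a b φ ((c m : ℂ) + τ)‖ ^ 2 ≤
        lam ^ 2 := by
      refine h26.trans ?_
      rw [mul_add]
      have h29 : C * (∫ x in (c m / 2)..(3 * c m / 2),
          ‖((x ^ κ : ℝ) : ℂ) * FT ν (x : ℂ) - Mn h h' a b φ (x : ℂ)‖ ^ 2 * (1 + (x - c m) ^ 2)⁻¹) ≤
          lam ^ 2 / 2 := hm2
      linarith
    exact (pow_le_pow_iff_left₀ (norm_nonneg _) hlam.le two_ne_zero).1 h28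

end Pool.Agent.Helper890.Cov.JB2
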