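import Mathlib
import Pool.Agent.Helper890.Cov.StB




namespace Pool.Agent.Helper890.Cov.JB4
open MeasureTheory Set Filter Topology Metric
open scoped RealInnerProductSpace

theorem stB4 : StmtB4 := by
  intro F M z₀ r c lam hF hr hc hlam hM0 hM hFM
  by_contra hcon
  push Not at hcon
  have h1 : ∀ t, ‖t - z₀‖ = r → c - lam ≤ ‖F t‖ := by
    intro t ht
    have h2 := hM t ht
    have h3 := hFM t ht.le
    have h4 : ‖M t‖ ≤ ‖F t‖ + ‖F t - M t‖ := by
      calc ‖M t‖ = ‖F t - (F t - M t)‖ := by rw [sub_sub_cancel]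
        _ ≤ _ := norm_sub_le _ _
    linarith
  have hne : ∀ t, ‖t - z₀‖ ≤ r → F t ≠ 0 := by
    intro t ht h0
    rcases ht.lt_or_eq with h2 | h2
    · exact hcon t h2 h0
    · have := h1 t h2
      rw [h0, norm_zero] at this
      linarith
  have hd : DiffContOnCl ℂ (fun t => (F t)⁻¹) (ball z₀ r) := by
    apply DifferentiableOn.diffContOnCl
    rw [closure_ball z₀ hr.ne']
    intro t ht
    refine ((hF t).inv (hne t ?_)).differentiableWithinAt
    rwa [mem_closedBall, dist_eq_norm] at ht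
  have hz : ‖(F z₀)⁻¹‖ ≤ (c - lam)⁻¹ := by
    refine Complex.norm_le_of_forall_mem_frontier_norm_le (U := ball z₀ r) isBounded_ball hd ?_
      (subset_closure (mem_ball_self hr))
    intro t ht
    rw [frontier_ball z₀ hr.ne', mem_sphere, dist_eq_norm] at ht
    rw [norm_inv]
    exact inv_anti₀ (by linarith) (h1 t ht)
  have h5 := hFM z₀ (by rw [sub_self, norm_zero]; exact hr.le)
  rw [hM0, sub_zero] at h5
  have h6 : F z₀ ≠ 0 := hne z₀ (by rw [sub_self, norm_zero]; exact hr.le)
  have h7 : 0 < ‖F z₀‖ := norm_pos_iff.2 h6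
  rw [norm_inv, inv_le_inv₀ h7 (by linarith)] at hz
  linarith

end Pool.Agent.Helper890.Cov.JB4
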