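import Mathlib
import Pool.Agent.Helper890.Cov.StB




namespace Pool.Agent.Helper890.Cov.JC1a
open MeasureTheory Set Filter Topology Metric
open scoped RealInnerProductSpace

theorem c1_FT_entire (ν : Measure ℝ) [IsFiniteMeasure ν] (h h' : ℝ)
    (hs : ν (Icc (-h') h)ᶜ = 0) : Differentiable ℂ (FT ν) := by
  have hint : ∀ t : ℝ, Integrable (fun s : ℝ => Real.exp (t * s)) ν := by
    intro t
    refine Integrable.of_bound (by fun_prop) (Real.exp (|t| * (|h| + |h'|))) ?_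
    have hae : ∀ᵐ s ∂ν, s ∈ Icc (-h') h := by
      rw [ae_iff]
      exact hs
    filter_upwards [hae] with s hs
    rw [Real.norm_eq_abs, abs_of_pos (Real.exp_pos _)]
    apply Real.exp_le_exp.mpr
    calc t * s ≤ |t * s| := le_abs_self _
      _ = |t| * |s| := abs_mul _ _
      _ ≤ |t| * (|h| + |h'|) := by
        refine mul_le_mul_of_nonneg_left ?_ (abs_nonneg _)
        have e1 := le_abs_self h
        have e2 := le_abs_self h'
        have e3 := abs_nonneg h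
        have e4 := abs_nonneg h'
        rw [abs_le]
        exact ⟨by linarith [hs.1], by linarith [hs.2]⟩
  have huniv : ProbabilityTheory.integrableExpSet id ν = univ := by
    apply Set.eq_univ_of_forall
    intro t
    exact hint t
  have hd : Differentiable ℂ (ProbabilityTheory.complexMGF id ν) := fun z =>
    (ProbabilityTheory.hasDerivAt_complexMGF
      (by rw [huniv, interior_univ]; trivial)).differentiableAt
  have he : FT ν = fun t => ProbabilityTheory.complexMGF id ν (Complex.I * t) := rfl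
  rw [he]
  exact hd.comp (differentiable_id.const_mul _)

theorem c1_FT_conj (ν : Measure ℝ) (t : ℂ) :
    FT ν (-t) = (starRingEnd ℂ) (FT ν ((starRingEnd ℂ) t)) := by
  unfold FT
  rw [← integral_conj]
  congr 1
  funext s
  rw [← Complex.exp_conj]
  congr 1
  simp only [map_mul, Complex.conj_I, Complex.conj_conj, Complex.conj_ofReal]
  ring

theorem c1_tzw (w φ a b : ℝ) (m : ℕ) (hw : 0 < w) :
    tz w φ a b m = (((((2 * (m : ℝ) + 1) * Real.pi - 2 * φ) / w : ℝ)) : ℂ) +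
      Complex.I * ((Real.log (a / b) / w : ℝ) : ℂ) := by
  have hwc : (w : ℂ) ≠ 0 := by exact_mod_cast hw.ne'
  unfold tz
  push_cast
  field_simp

theorem c1_expm (m : ℕ) : Complex.exp (((2 * (m : ℂ) + 1) * Real.pi) * Complex.I) = -1 := by
  have h : ((2 * (m : ℂ) + 1) * Real.pi) * Complex.I =
      (m : ℂ) * (2 * Real.pi * Complex.I) + Real.pi * Complex.I := by ring
  rw [h, Complex.exp_add, Complex.exp_pi_mul_I, Complex.exp_nat_mul, Complex.exp_two_pi_mul_I,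
    one_pow, one_mul]

theorem c1_expz (w φ a b : ℝ) (m : ℕ) (hw : 0 < w) (ha : 0 < a) (hb : 0 < b) :
    Complex.exp (Complex.I * ((starRingEnd ℂ) (tz w φ a b m) * (w : ℂ) + 2 * (φ : ℂ))) =
      -((a / b : ℝ) : ℂ) := by
  have hwc : (w : ℂ) ≠ 0 := by exact_mod_cast hw.ne'
  have h1 : Complex.I * ((starRingEnd ℂ) (tz w φ a b m) * (w : ℂ) + 2 * (φ : ℂ)) =
      ((2 * (m : ℂ) + 1) * Real.pi) * Complex.I + ((Real.log (a / b) : ℝ) : ℂ) := by
    rw [c1_tzw w φ a b m hw, map_add, map_mul, Complex.conj_I, Complex.conj_ofReal,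
      Complex.conj_ofReal]
    push_cast
    field_simp
    linear_combination (-((Real.log (a / b) : ℝ) : ℂ)) * Complex.I_sq
  rw [h1, Complex.exp_add, c1_expm, ← Complex.ofReal_exp, Real.exp_log (by positivity)]
  ring

theorem c1_Mn (h h' a b φ w : ℝ) (hw : w = h + h') (u : ℂ) :
    Mn h h' a b φ u = Complex.exp (-(Complex.I * (u * (h' : ℂ) + (φ : ℂ)))) *
      ((a : ℂ) * Complex.exp (Complex.I * (u * (w : ℂ) + 2 * (φ : ℂ))) + (b : ℂ)) := by
  have e1 : Complex.exp (Complex.I * (u * (h : ℂ) + (φ : ℂ))) =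
      Complex.exp (-(Complex.I * (u * (h' : ℂ) + (φ : ℂ)))) *
        Complex.exp (Complex.I * (u * (w : ℂ) + 2 * (φ : ℂ))) := by
    rw [← Complex.exp_add]
    congr 1
    rw [hw]
    push_cast
    ring
  unfold Mn
  rw [e1]
  ring

theorem c1_low (φ p P δ₀ r r₁ : ℝ) (hp : 0 < p) (hpP : p ≤ P) (hδ : 0 < δ₀) (hr : 0 ≤ r)
    (hr1 : r ≤ 1 / (2 * P)) (hr2 : r ≤ p ^ 2 * δ₀ / (4 * P ^ 4)) (hr₁ : 0 ≤ r₁)
    (h h' a b w : ℝ) (m : ℕ)
    (k1 : p ≤ h) (k2 : h ≤ P) (k3 : p ≤ h') (k4 : h' ≤ P) (a1 : p ≤ a) (a2 : a ≤ P)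
    (b1 : p ≤ b) (b2 : b ≤ P) (hw : w = h + h')
    (hab : δ₀ ≤ |a - b|) (t : ℂ) (ht : ‖t - tz w φ a b m‖ ≤ r) (him : |t.im| ≤ r₁) :
    Real.exp (-(r₁ * P)) * (p * δ₀ / P) ≤ ‖Mn h h' a b φ ((starRingEnd ℂ) t)‖ := by
  have hP : 0 < P := by linarith
  have ha : 0 < a := by linarith
  have hb : 0 < b := by linarith
  have hw0 : 0 < w := by linarith
  have hw2 : w ≤ 2 * P := by linarith
  rw [c1_Mn h h' a b φ w hw, norm_mul]
  have f1 : Real.exp (-(r₁ * P)) ≤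
      ‖Complex.exp (-(Complex.I * ((starRingEnd ℂ) t * (h' : ℂ) + (φ : ℂ))))‖ := by
    rw [Complex.norm_exp]
    apply Real.exp_le_exp.mpr
    have e1 : (-(Complex.I * ((starRingEnd ℂ) t * (h' : ℂ) + (φ : ℂ)))).re = -(t.im * h') := by
      simp
    rw [e1]
    have e2 : t.im * h' ≤ r₁ * P :=
      (mul_le_mul_of_nonneg_right ((le_abs_self _).trans him) (by linarith)).trans
        (mul_le_mul_of_nonneg_left k4 hr₁)
    linarith
  have f2 : p * δ₀ / P ≤ ‖(a : ℂ) * Complex.exp (Complex.I * ((starRingEnd ℂ) t * (w : ℂ) +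
      2 * (φ : ℂ))) + (b : ℂ)‖ := by
    obtain ⟨s, hs⟩ : ∃ s : ℂ, s = (starRingEnd ℂ) (t - tz w φ a b m) := ⟨_, rfl⟩
    have hsn : ‖s‖ ≤ r := by rw [hs, RCLike.norm_conj]; exact ht
    have e1 : Complex.I * ((starRingEnd ℂ) t * (w : ℂ) + 2 * (φ : ℂ)) =
        Complex.I * ((starRingEnd ℂ) (tz w φ a b m) * (w : ℂ) + 2 * (φ : ℂ)) +
          Complex.I * s * (w : ℂ) := by
      rw [hs, map_sub]
      ring
    obtain ⟨E, hE⟩ : ∃ E : ℂ, E = Complex.exp (Complex.I * s * (w : ℂ)) := ⟨_, rfl⟩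
    have hz : ‖Complex.I * s * (w : ℂ)‖ ≤ r * (2 * P) := by
      rw [norm_mul, norm_mul, Complex.norm_I, one_mul, Complex.norm_real,
        Real.norm_of_nonneg hw0.le]
      exact mul_le_mul hsn hw2 hw0.le hr
    have hz1 : r * (2 * P) ≤ 1 := by
      rw [le_div_iff₀ (by positivity)] at hr1
      exact hr1
    have hEn : ‖E - 1‖ ≤ 2 * (r * (2 * P)) := by
      rw [hE]
      have := Complex.norm_exp_sub_one_le (hz.trans hz1)
      linarith
    rw [e1, Complex.exp_add, c1_expz w φ a b m hw0 ha hb, ← hE]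
    have hbc : (b : ℂ) ≠ 0 := by exact_mod_cast hb.ne'
    have e2 : (a : ℂ) * (-((a / b : ℝ) : ℂ) * E) + (b : ℂ) =
        (((b ^ 2 - a ^ 2) / b : ℝ) : ℂ) - ((a ^ 2 / b : ℝ) : ℂ) * (E - 1) := by
      push_cast
      field_simp
      ring
    rw [e2]
    have e3 : |(b ^ 2 - a ^ 2) / b| - (a ^ 2 / b) * ‖E - 1‖ ≤
        ‖(((b ^ 2 - a ^ 2) / b : ℝ) : ℂ) - ((a ^ 2 / b : ℝ) : ℂ) * (E - 1)‖ := by
      have := norm_sub_norm_le (((b ^ 2 - a ^ 2) / b : ℝ) : ℂ) (((a ^ 2 / b : ℝ) : ℂ) * (E - 1))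
      rw [norm_mul, Complex.norm_real, Complex.norm_real, Real.norm_eq_abs, Real.norm_eq_abs,
        abs_of_nonneg (show (0:ℝ) ≤ a ^ 2 / b by positivity)] at this
      exact this
    refine le_trans ?_ e3
    have e4 : 2 * (p * δ₀ / P) ≤ |(b ^ 2 - a ^ 2) / b| := by
      rw [abs_div, abs_of_pos hb]
      have e5 : |b ^ 2 - a ^ 2| = |a - b| * (a + b) := by
        have : b ^ 2 - a ^ 2 = -((a - b) * (a + b)) := by ring
        rw [this, abs_neg, abs_mul, abs_of_pos (by linarith : (0:ℝ) < a + b)]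
      have e6 : δ₀ * (2 * p) ≤ |b ^ 2 - a ^ 2| := by
        rw [e5]
        exact mul_le_mul hab (by linarith) (by positivity) (abs_nonneg _)
      calc 2 * (p * δ₀ / P) = (δ₀ * (2 * p)) / P := by ring
        _ ≤ |b ^ 2 - a ^ 2| / P := div_le_div_of_nonneg_right e6 hP.le
        _ ≤ |b ^ 2 - a ^ 2| / b := div_le_div_of_nonneg_left (abs_nonneg _) hb b2
    have e7 : (a ^ 2 / b) * ‖E - 1‖ ≤ p * δ₀ / P := by
      have e8 : a ^ 2 / b ≤ P ^ 2 / p := by
        rw [div_le_div_iff₀ hb hp]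
        exact mul_le_mul (pow_le_pow_left₀ ha.le a2 2) b1 hp.le (by positivity)
      calc (a ^ 2 / b) * ‖E - 1‖ ≤ (P ^ 2 / p) * (2 * (r * (2 * P))) :=
            mul_le_mul e8 hEn (norm_nonneg _) (by positivity)
        _ = (4 * P ^ 3 / p) * r := by ring
        _ ≤ (4 * P ^ 3 / p) * (p ^ 2 * δ₀ / (4 * P ^ 4)) :=
            mul_le_mul_of_nonneg_left hr2 (by positivity)
        _ = p * δ₀ / P := by
            field_simp
    linarith
  exact mul_le_mul f1 f2 (by positivity) (norm_nonneg _)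

theorem c1_err (κ φ : ℝ) (ν : Measure ℝ) (h h' a b R : ℝ) (hR : 0 ≤ R) :
    0 ≤ errI κ φ ν h h' a b R := by
  unfold errI
  exact intervalIntegral.integral_nonneg (by linarith) (fun t _ => sq_nonneg _)

theorem stC1a (h2 : StmtB2) (h3 : StmtB3) (h4 : StmtB4) : StmtC1a := by
  intro κ φ p P δ₀ r₀ δ hκ hp hδ₀ hr₀ hδ
  by_cases hpP : p ≤ P
  swap
  · refine ⟨1, 1, one_pos, one_pos, ?_⟩
    intro ν₁ ν₂ h₁ h₁' h₂ h₂' a b w L1 L2
    exact absurd (L1.h1.trans L1.h2) hpP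
  have hP : 0 < P := by linarith
  obtain ⟨r, hrd⟩ : ∃ r : ℝ, r = min r₀ (min (p / P) (min (1 / (2 * P))
    (p ^ 2 * δ₀ / (4 * P ^ 4)))) := ⟨_, rfl⟩
  have hr : 0 < r := by
    rw [hrd]
    refine lt_min hr₀ (lt_min (by positivity) (lt_min (by positivity) (by positivity)))
  have hr_0 : r ≤ r₀ := by rw [hrd]; exact min_le_left _ _
  have hr_1 : r ≤ p / P := by
    rw [hrd]
    exact (min_le_right _ _).trans (min_le_left _ _)
  have hr_2 : r ≤ 1 / (2 * P) := by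
    rw [hrd]
    exact (min_le_right _ _).trans ((min_le_right _ _).trans (min_le_left _ _))
  have hr_3 : r ≤ p ^ 2 * δ₀ / (4 * P ^ 4) := by
    rw [hrd]
    exact (min_le_right _ _).trans ((min_le_right _ _).trans (min_le_right _ _))
  have hr_4 : r ≤ 1 / P := by
    refine hr_2.trans ?_
    exact one_div_le_one_div_of_le hP (by linarith)
  obtain ⟨c, hc, hB3⟩ := h3 φ p P r hp hr hr_1 hr_4
  obtain ⟨L, hL⟩ : ∃ L : ℝ, L = Real.log (P / p) / (2 * p) := ⟨_, rfl⟩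
  have hlogPp : 0 ≤ Real.log (P / p) := Real.log_nonneg (by rw [le_div_iff₀ hp]; linarith)
  have hL0 : 0 ≤ L := by rw [hL]; positivity
  obtain ⟨r₁, hr₁⟩ : ∃ r₁ : ℝ, r₁ = L + r + 1 := ⟨_, rfl⟩
  have hr₁0 : 0 < r₁ := by rw [hr₁]; positivity
  obtain ⟨c'', hc''⟩ : ∃ c'' : ℝ, c'' = Real.exp (-(r₁ * P)) * (p * δ₀ / P) := ⟨_, rfl⟩
  have hc''0 : 0 < c'' := by rw [hc'']; positivity
  obtain ⟨lam, hlam⟩ : ∃ lam : ℝ, lam = min (c / 4) (c'' / 2) := ⟨_, rfl⟩
  have hlam0 : 0 < lam := by rw [hlam]; exact lt_min (by positivity) (by positivity)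
  have hlam1 : lam < c / 2 := by
    have : lam ≤ c / 4 := by rw [hlam]; exact min_le_left _ _
    linarith
  have hlam2 : lam < c'' := by
    have : lam ≤ c'' / 2 := by rw [hlam]; exact min_le_right _ _
    linarith
  obtain ⟨ε, R₀, hε, hR₀, H2⟩ := h2 κ φ p P r₁ lam (δ / 2) hκ hp hr₁0 hlam0 (by positivity)
  refine ⟨ε, R₀, hε, hR₀, ?_⟩
  intro ν₁ ν₂ h₁ h₁' h₂ h₂' a b w L1 L2 hw1 hw2 hab R hR herr
  have hR0 : 0 ≤ R := by linarith
  have hn1 := c1_err κ φ ν₁ h₁ h₁' a b R hR0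
  have hn2 := c1_err κ φ ν₂ h₂ h₂' a b R hR0
  obtain ⟨G₁, hG1a, hG1b, hG1c⟩ := H2 ν₁ h₁ h₁' a b w L1 hw1 R hR (by linarith)
  obtain ⟨G₂, hG2a, hG2b, hG2c⟩ := H2 ν₂ h₂ h₂' a b w L2 hw2 R hR (by linarith)
  refine ⟨G₁ ∩ G₂, ?_, ?_, ?_⟩
  · intro m hm
    exact hG1a m (Finset.mem_inter.mp hm).1
  · have hsub : Finset.range ⌊w * R / (2 * Real.pi)⌋₊ \ (G₁ ∩ G₂) ⊆
        (Finset.range ⌊w * R / (2 * Real.pi)⌋₊ \ G₁) ∪
          (Finset.range ⌊w * R / (2 * Real.pi)⌋₊ \ G₂) := by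
      intro x hx
      rw [Finset.mem_sdiff, Finset.mem_inter] at hx
      rw [Finset.mem_union, Finset.mem_sdiff, Finset.mem_sdiff]
      by_cases h : x ∈ G₁
      · exact Or.inr ⟨hx.1, fun h' => hx.2 ⟨h, h'⟩⟩
      · exact Or.inl ⟨hx.1, h⟩
    have hcard := (Finset.card_le_card hsub).trans (Finset.card_union_le _ _)
    have hcard' : (((Finset.range ⌊w * R / (2 * Real.pi)⌋₊ \ (G₁ ∩ G₂)).card : ℕ) : ℝ) ≤
        (((Finset.range ⌊w * R / (2 * Real.pi)⌋₊ \ G₁).card : ℕ) : ℝ) +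
        (((Finset.range ⌊w * R / (2 * Real.pi)⌋₊ \ G₂).card : ℕ) : ℝ) := by
      exact_mod_cast hcard
    linarith
  · intro m hm
    obtain ⟨hm1, hm2⟩ := Finset.mem_inter.mp hm
    have hw0 : 0 < w := by linarith [L1.h1, L1.h3]
    have ha0 : 0 < a := by linarith [L1.a1]
    have hb0 : 0 < b := by linarith [L1.b1]
    have hcm1 := (hG1c m hm1 0 (by rw [norm_zero]; exact hr₁0.le)).1
    refine ⟨hcm1, ?_⟩
    have H1c := hG1c m hm1
    have H2c := hG2c m hm2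
    have htzw := c1_tzw w φ a b m hw0
    obtain ⟨cm, hcm⟩ : ∃ cm : ℝ, cm = ((2 * (m : ℝ) + 1) * Real.pi - 2 * φ) / w := ⟨_, rfl⟩
    rw [← hcm] at htzw hcm1 H1c H2c
    have hlogab : |Real.log (a / b)| ≤ Real.log (P / p) := by
      rw [abs_le]
      constructor
      · have e1 : -Real.log (P / p) = Real.log (p / P) := by
          rw [← Real.log_inv, inv_div]
        rw [e1]
        exact Real.log_le_log (by positivity) (by
          rw [div_le_div_iff₀ hP hb0]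
          exact mul_le_mul L1.a1 L1.b2 hb0.le ha0.le)
      · exact Real.log_le_log (by positivity) (by
          rw [div_le_div_iff₀ hb0 hp]
          exact mul_le_mul L1.a2 L1.b1 hp.le hP.le)
    have htzc : ‖tz w φ a b m - (cm : ℂ)‖ ≤ L := by
      rw [htzw, add_sub_cancel_left, norm_mul, Complex.norm_I, one_mul, Complex.norm_real,
        Real.norm_eq_abs, abs_div, abs_of_pos hw0, hL]
      exact div_le_div₀ hlogPp hlogab (by positivity) (by linarith [L1.h1, L1.h3])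
    have hdisc : ∀ t : ℂ, ‖t - tz w φ a b m‖ ≤ r → ‖t - (cm : ℂ)‖ ≤ r₁ := by
      intro t ht
      have e1 : t - (cm : ℂ) = (t - tz w φ a b m) + (tz w φ a b m - (cm : ℂ)) := by ring
      rw [e1]
      have := norm_add_le (t - tz w φ a b m) (tz w φ a b m - (cm : ℂ))
      linarith
    obtain ⟨hz0, hzc⟩ := hB3 h₁ h₁' a b w m L1.h1 L1.h2 L1.h3 L1.h4 L1.a1 L1.a2 L1.b1 L1.b2 hw1
    have hfin1 := L1.fin
    have hcmκ : ((cm ^ κ : ℝ) : ℂ) ≠ 0 := by
      have : 0 < cm ^ κ := Real.rpow_pos_of_pos (by linarith) _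
      exact_mod_cast this.ne'
    obtain ⟨t, ht1, ht2⟩ := h4 (fun t => ((cm ^ κ : ℝ) : ℂ) * FT ν₁ t) (Mn h₁ h₁' a b φ)
      (tz w φ a b m) r c lam
      ((c1_FT_entire ν₁ h₁ h₁' L1.supp).const_mul _) hr hc hlam1 hz0 hzc
      (by
        intro t ht
        have h5 := (H1c (t - cm) (hdisc t ht)).2
        rw [add_sub_cancel] at h5
        exact h5)
    have ht3 : FT ν₁ t = 0 := (mul_eq_zero.mp ht2).resolve_left hcmκ
    refine ⟨t, ht1.le.trans hr_0, ht3, ?_⟩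
    rw [c1_FT_conj]
    intro h0
    have h6 : FT ν₂ ((starRingEnd ℂ) t) = 0 := (map_eq_zero _).mp h0
    have hconj : ‖(starRingEnd ℂ) t - (cm : ℂ)‖ ≤ r₁ := by
      have e1 : (starRingEnd ℂ) t - (cm : ℂ) = (starRingEnd ℂ) (t - (cm : ℂ)) := by
        rw [map_sub, Complex.conj_ofReal]
      rw [e1, RCLike.norm_conj]
      exact hdisc t ht1.le
    have h7 := (H2c ((starRingEnd ℂ) t - cm) hconj).2
    rw [add_sub_cancel, h6, mul_zero, zero_sub, norm_neg] at h7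
    have him : |t.im| ≤ r₁ := by
      have e1 : t.im = (t - (cm : ℂ)).im := by
        rw [Complex.sub_im, Complex.ofReal_im, sub_zero]
      rw [e1]
      exact (Complex.abs_im_le_norm _).trans (hdisc t ht1.le)
    have h8 := c1_low φ p P δ₀ r r₁ hp hpP hδ₀ hr.le hr_2 hr_3 hr₁0.le h₂ h₂' a b w m
      L2.h1 L2.h2 L2.h3 L2.h4 L2.a1 L2.a2 L2.b1 L2.b2 hw2 hab t ht1.le him
    rw [← hc''] at h8
    linarith

end Pool.Agent.Helper890.Cov.JC1a
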