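import Mathlib
import Pool.Agent.Helper890.Cov.StB




namespace Pool.Agent.Helper890.Cov.JC1b
open MeasureTheory Set Filter Topology Metric
open scoped RealInnerProductSpace


theorem FT_diff_25430 (ν : Measure ℝ) (h h' : ℝ) (hfin : IsFiniteMeasure ν)
    (hsupp : ν (Icc (-h') h)ᶜ = 0) : Differentiable ℂ (FT ν) := by
  have hset : ProbabilityTheory.integrableExpSet (fun s : ℝ => s) ν = Set.univ := by
    rw [Set.eq_univ_iff_forall]
    intro t
    show Integrable (fun s : ℝ => Real.exp (t * s)) ν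
    obtain ⟨C, hC⟩ := (isCompact_Icc (a := -h') (b := h)).exists_bound_of_continuousOn
      (f := fun s : ℝ => Real.exp (t * s)) (by fun_prop)
    refine Integrable.of_bound (by fun_prop) C ?_
    have hae : ∀ᵐ s ∂ν, s ∈ Icc (-h') h := hsupp
    filter_upwards [hae] with s hs
    exact hC s hs
  have h1 : DifferentiableOn ℂ (ProbabilityTheory.complexMGF (fun s : ℝ => s) ν)
      {z | z.re ∈ interior (ProbabilityTheory.integrableExpSet (fun s : ℝ => s) ν)} :=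
    ProbabilityTheory.differentiableOn_complexMGF
  rw [hset, interior_univ] at h1
  have h2 : Differentiable ℂ (ProbabilityTheory.complexMGF (fun s : ℝ => s) ν) := by
    intro z
    exact (h1 z (Set.mem_univ _)).differentiableAt Filter.univ_mem
  have h3 : FT ν = (ProbabilityTheory.complexMGF (fun s : ℝ => s) ν) ∘
      (fun t : ℂ => Complex.I * t) := by
    funext t
    rfl
  rw [h3]
  exact h2.comp (differentiable_id.const_mul Complex.I)

theorem tz_exp_25430 {w φ a b : ℝ} {m : ℕ} (hw : w ≠ 0) (ha : 0 < a) (hb : 0 < b) (s : ℂ) :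
    Complex.exp (Complex.I * ((tz w φ a b m + s) * (w:ℂ) + 2 * (φ:ℂ))) =
      -((b:ℂ)/(a:ℂ)) * Complex.exp (Complex.I * (s * (w:ℂ))) := by
  have hw' : (w:ℂ) ≠ 0 := by exact_mod_cast hw
  have h0 : tz w φ a b m * (w:ℂ) = ((((2 * (m : ℝ) + 1) * Real.pi - 2 * φ : ℝ) : ℂ) +
      Complex.I * ((Real.log (a / b) : ℝ) : ℂ)) := by
    unfold tz
    rw [div_mul_cancel₀ _ hw']
  have h1 : Complex.I * ((tz w φ a b m + s) * (w:ℂ) + 2 * (φ:ℂ)) =
      (m:ℂ) * (2 * Real.pi * Complex.I) + Real.pi * Complex.I + ((-Real.log (a/b) : ℝ) : ℂ) +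
        Complex.I * (s * w) := by
    rw [add_mul, h0]
    push_cast
    have hI : Complex.I * Complex.I = -1 := Complex.I_mul_I
    linear_combination ((Real.log (a / b) : ℝ) : ℂ) * hI
  rw [h1, Complex.exp_add, Complex.exp_add, Complex.exp_add, Complex.exp_nat_mul_two_pi_mul_I,
    Complex.exp_pi_mul_I, ← Complex.ofReal_exp, Real.exp_neg, Real.exp_log (by positivity)]
  push_cast
  rw [inv_div]
  ring

theorem Mn_lower_25430 {p P δ₀ r r₁ h₂ h₂' a b w φ : ℝ} {m : ℕ} (hp : 0 < p) (hpP : p ≤ P)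
    (hδ : 0 < δ₀) (hr : 0 ≤ r) (hr1 : 2 * P * r ≤ 1) (hr2 : 8 * P ^ 3 * r ≤ δ₀ * p)
    (hh : p ≤ h₂) (hhP : h₂ ≤ P)
    (hh' : p ≤ h₂') (hhP' : h₂' ≤ P) (ha : p ≤ a) (haP : a ≤ P) (hb : p ≤ b) (hbP : b ≤ P)
    (hw : w = h₂ + h₂') (hab : δ₀ ≤ |a - b|) (t : ℂ) (ht : ‖t - tz w φ a b m‖ ≤ r)
    (hIm : |t.im| ≤ r₁) :
    Real.exp (-(r₁ * P)) * (δ₀ / 2) ≤ ‖Mn h₂ h₂' b a φ t‖ := by
  have hP : 0 < P := lt_of_lt_of_le hp hpP
  have ha0 : 0 < a := lt_of_lt_of_le hp ha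
  have hb0 : 0 < b := lt_of_lt_of_le hp hb
  have hw0 : 0 < w := by rw [hw]; linarith
  have hwP : w ≤ 2 * P := by rw [hw]; linarith
  set s : ℂ := t - tz w φ a b m with hs
  have hts : tz w φ a b m + s = t := by rw [hs]; ring
  have hfac : Mn h₂ h₂' b a φ t = Complex.exp (-(Complex.I * (t * (h₂' : ℂ) + (φ : ℂ)))) *
      ((b : ℂ) * Complex.exp (Complex.I * (t * (w:ℂ) + 2 * (φ:ℂ))) + (a : ℂ)) := by
    unfold Mn
    have h1 : Complex.I * (t * (h₂:ℂ) + (φ:ℂ)) = -(Complex.I * (t * (h₂' : ℂ) + (φ : ℂ))) +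
        Complex.I * (t * (w:ℂ) + 2 * (φ:ℂ)) := by
      rw [hw]
      push_cast
      ring
    rw [h1, Complex.exp_add]
    ring
  have hexp := tz_exp_25430 (φ := φ) (m := m) hw0.ne' ha0 hb0 s
  rw [hts] at hexp
  rw [hfac, hexp, norm_mul, Complex.norm_exp]
  have hpre : Real.exp (-(r₁ * P)) ≤ Real.exp (-(Complex.I * (t * (h₂' : ℂ) + (φ : ℂ)))).re := by
    apply Real.exp_le_exp.mpr
    have h2 : (-(Complex.I * (t * (h₂' : ℂ) + (φ : ℂ)))).re = t.im * h₂' := by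
      simp [Complex.mul_re, Complex.mul_im]
    rw [h2]
    have h3 := abs_le.mp hIm
    have h4 : 0 ≤ h₂' := by linarith
    have h5 : |t.im * h₂'| ≤ r₁ * P := by
      rw [abs_mul, abs_of_nonneg h4]
      exact mul_le_mul hIm hhP' h4 (le_trans (abs_nonneg _) hIm)
    exact (abs_le.mp h5).1
  have hbr : δ₀ / 2 ≤ ‖(b : ℂ) * (-((b:ℂ)/(a:ℂ)) * Complex.exp (Complex.I * (s * (w:ℂ)))) +
      (a : ℂ)‖ := by
    have ha' : (a : ℂ) ≠ 0 := by exact_mod_cast ha0.ne'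
    have h6 : (b : ℂ) * (-((b:ℂ)/(a:ℂ)) * Complex.exp (Complex.I * (s * (w:ℂ)))) + (a : ℂ) =
        (((a - b) * ((a + b) / a) : ℝ) : ℂ) -
          ((b ^ 2 / a : ℝ) : ℂ) * (Complex.exp (Complex.I * (s * (w:ℂ))) - 1) := by
      push_cast
      field_simp
      ring
    rw [h6]
    have h7 : ‖s * (w:ℂ)‖ ≤ 2 * P * r := by
      rw [norm_mul, Complex.norm_real, Real.norm_of_nonneg hw0.le]
      have := mul_le_mul ht hwP hw0.le hr
      linarith
    have h8 : ‖Complex.I * (s * (w:ℂ))‖ ≤ 2 * P * r := by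
      rw [norm_mul, Complex.norm_I, one_mul]
      exact h7
    have h9 : ‖Complex.exp (Complex.I * (s * (w:ℂ))) - 1‖ ≤ 2 * (2 * P * r) :=
      (Complex.norm_exp_sub_one_le (h8.trans hr1)).trans (by linarith)
    have h10 : ‖((b ^ 2 / a : ℝ) : ℂ) * (Complex.exp (Complex.I * (s * (w:ℂ))) - 1)‖ ≤
        δ₀ / 2 := by
      rw [norm_mul, Complex.norm_real, Real.norm_of_nonneg (by positivity)]
      have h11 : b ^ 2 / a ≤ P ^ 2 / p := by
        apply div_le_div₀ (by positivity) _ hp ha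
        exact pow_le_pow_left₀ hb0.le hbP 2
      calc b ^ 2 / a * ‖Complex.exp (Complex.I * (s * (w:ℂ))) - 1‖
          ≤ P ^ 2 / p * (2 * (2 * P * r)) := by
            apply mul_le_mul h11 h9 (norm_nonneg _) (by positivity)
        _ = (8 * P ^ 3 * r) / p / 2 := by ring
        _ ≤ (δ₀ * p) / p / 2 := by
            gcongr
        _ = δ₀ / 2 := by
            rw [mul_div_cancel_right₀ _ hp.ne']
    have h12 : δ₀ ≤ ‖(((a - b) * ((a + b) / a) : ℝ) : ℂ)‖ := by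
      rw [Complex.norm_real, Real.norm_eq_abs, abs_mul]
      have h13 : 1 ≤ |(a + b) / a| := by
        rw [abs_of_nonneg (by positivity), le_div_iff₀ ha0]
        linarith
      calc δ₀ ≤ |a - b| * 1 := by linarith
        _ ≤ |a - b| * |(a + b) / a| := by
          apply mul_le_mul_of_nonneg_left h13 (abs_nonneg _)
    have h14 := norm_sub_norm_le (((a - b) * ((a + b) / a) : ℝ) : ℂ)
      (((b ^ 2 / a : ℝ) : ℂ) * (Complex.exp (Complex.I * (s * (w:ℂ))) - 1))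
    linarith
  exact mul_le_mul hpre hbr (by positivity) (Real.exp_pos _).le

theorem errI_nonneg_25430 {κ φ : ℝ} {ν : Measure ℝ} {h h' a b R : ℝ} (hR : 0 < R) :
    0 ≤ errI κ φ ν h h' a b R := by
  unfold errI
  apply intervalIntegral.integral_nonneg (by linarith)
  intro t _
  positivity

theorem stC1b (h2 : StmtB2) (h3 : StmtB3) (h4 : StmtB4) : StmtC1b := by
  intro κ φ p P δ₀ r₀ δ hκ hp hδ₀ hr₀ hδ
  by_cases hpP : p ≤ P
  swap
  · exact ⟨1, 1, one_pos, one_pos, fun ν₁ ν₂ h₁ h₁' h₂ h₂' a b w L1 L2 _ _ _ R _ _ =>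
      absurd (L1.h1.trans L1.h2) hpP⟩
  have hP : 0 < P := lt_of_lt_of_le hp hpP
  obtain ⟨r, hr, hrr₀, hrpP, hr1P, hr2P, hr3P⟩ : ∃ r : ℝ, 0 < r ∧ r ≤ r₀ ∧ r ≤ p / P ∧
      r ≤ 1 / P ∧ 2 * P * r ≤ 1 ∧ 8 * P ^ 3 * r ≤ δ₀ * p := by
    refine ⟨min r₀ (min (p / P) (min (1 / P) (min (1 / (2 * P)) (δ₀ * p / (8 * P ^ 3))))),
      by positivity, min_le_left _ _, ?_, ?_, ?_, ?_⟩
    · exact (min_le_right _ _).trans (min_le_left _ _)
    · exact (min_le_right _ _).trans ((min_le_right _ _).trans (min_le_left _ _))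
    · have := (min_le_right r₀ (min (p / P) (min (1 / P) (min (1 / (2 * P))
        (δ₀ * p / (8 * P ^ 3)))))).trans ((min_le_right _ _).trans ((min_le_right _ _).trans
        (min_le_left _ _)))
      rw [le_div_iff₀ (by positivity)] at this
      linarith
    · have := (min_le_right r₀ (min (p / P) (min (1 / P) (min (1 / (2 * P))
        (δ₀ * p / (8 * P ^ 3)))))).trans ((min_le_right _ _).trans ((min_le_right _ _).trans
        (min_le_right _ _)))
      rw [le_div_iff₀ (by positivity)] at this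
      linarith
  set L : ℝ := Real.log (P / p) / (2 * p) with hL
  have hL0 : 0 ≤ L := by
    apply div_nonneg (Real.log_nonneg _) (by linarith)
    rw [le_div_iff₀ hp]
    linarith
  set r₁ : ℝ := L + r + 1 with hr₁
  have hr₁0 : 0 < r₁ := by linarith
  obtain ⟨c, hc, hcM⟩ := h3 φ p P r hp hr hrpP hr1P
  set c' : ℝ := Real.exp (-(r₁ * P)) * (δ₀ / 2) with hc'
  have hc'0 : 0 < c' := by positivity
  set lam : ℝ := min (c / 4) (c' / 2) with hlam
  have hlam0 : 0 < lam := by positivity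
  have hlamc : lam < c / 2 := lt_of_le_of_lt (min_le_left _ _) (by linarith)
  have hlamc' : lam < c' := lt_of_le_of_lt (min_le_right _ _) (by linarith)
  obtain ⟨ε, R₀, hε, hR₀, hB⟩ := h2 κ φ p P r₁ lam (δ / 2) hκ hp hr₁0 hlam0 (by linarith)
  refine ⟨ε, R₀, hε, hR₀, ?_⟩
  intro ν₁ ν₂ h₁ h₁' h₂ h₂' a b w L1 L2 hw1 hw2 hab R hR herr
  have hRpos : 0 < R := lt_of_lt_of_le hR₀ hR
  have he1 : 0 ≤ errI κ φ ν₁ h₁ h₁' a b R := errI_nonneg_25430 hRpos
  have he2 : 0 ≤ errI κ φ ν₂ h₂ h₂' b a R := errI_nonneg_25430 hRpos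
  obtain ⟨G₁, hG₁, hG₁c, hG₁m⟩ := hB ν₁ h₁ h₁' a b w L1 hw1 R hR (by linarith)
  obtain ⟨G₂, hG₂, hG₂c, hG₂m⟩ := hB ν₂ h₂ h₂' b a w L2 hw2 R hR (by linarith)
  have ha0 : 0 < a := lt_of_lt_of_le hp L1.a1
  have hb0 : 0 < b := lt_of_lt_of_le hp L1.b1
  have hw0 : 2 * p ≤ w := by
    have := L1.h1
    have := L1.h3
    linarith
  refine ⟨G₁ ∩ G₂, fun m hm => hG₁ m (Finset.mem_inter.mp hm).1, ?_, ?_⟩
  · have hsub : Finset.range ⌊w * R / (2 * Real.pi)⌋₊ \ (G₁ ∩ G₂) ⊆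
        (Finset.range ⌊w * R / (2 * Real.pi)⌋₊ \ G₁) ∪
        (Finset.range ⌊w * R / (2 * Real.pi)⌋₊ \ G₂) := by
      intro m hm
      rw [Finset.mem_sdiff, Finset.mem_inter] at hm
      rw [Finset.mem_union, Finset.mem_sdiff, Finset.mem_sdiff]
      by_cases h5 : m ∈ G₁
      · exact Or.inr ⟨hm.1, fun h6 => hm.2 ⟨h5, h6⟩⟩
      · exact Or.inl ⟨hm.1, h5⟩
    have hcard := (Finset.card_le_card hsub).trans (Finset.card_union_le _ _)
    have hcard' : (((Finset.range ⌊w * R / (2 * Real.pi)⌋₊ \ (G₁ ∩ G₂)).card : ℕ) : ℝ) ≤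
        (((Finset.range ⌊w * R / (2 * Real.pi)⌋₊ \ G₁).card : ℕ) : ℝ) +
        (((Finset.range ⌊w * R / (2 * Real.pi)⌋₊ \ G₂).card : ℕ) : ℝ) := by
      exact_mod_cast hcard
    linarith
  · intro m hm
    have hm1 := (Finset.mem_inter.mp hm).1
    have hm2 := (Finset.mem_inter.mp hm).2
    set cm : ℝ := ((2 * (m : ℝ) + 1) * Real.pi - 2 * φ) / w with hcm
    have hcm1 : 1 ≤ cm := (hG₁m m hm1 0 (by rw [norm_zero]; exact hr₁0.le)).1
    refine ⟨hcm1, ?_⟩
    have hcmκ : 0 < cm ^ κ := Real.rpow_pos_of_pos (by linarith) κ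
    have hcmκ' : ((cm ^ κ : ℝ) : ℂ) ≠ 0 := by exact_mod_cast hcmκ.ne'
    -- distance from the center
    have hdist : ‖tz w φ a b m - (cm : ℂ)‖ ≤ L := by
      have h7 : tz w φ a b m - (cm : ℂ) = Complex.I * ((Real.log (a / b) / w : ℝ) : ℂ) := by
        unfold tz
        rw [hcm]
        push_cast
        ring
      rw [h7, norm_mul, Complex.norm_I, one_mul, Complex.norm_real, Real.norm_eq_abs, abs_div,
        abs_of_pos (show 0 < w by linarith), hL]
      apply div_le_div₀ _ _ (by linarith) hw0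
      · apply Real.log_nonneg
        rw [le_div_iff₀ hp]
        linarith
      · rw [abs_le]
        constructor
        · rw [neg_le, ← Real.log_inv, inv_div]
          apply Real.log_le_log (by positivity)
          apply div_le_div₀ hP.le L1.b2 hp L1.a1
        · apply Real.log_le_log (by positivity)
          apply div_le_div₀ hP.le L1.a2 hp L1.b1
    have hτ : ∀ t : ℂ, ‖t - tz w φ a b m‖ ≤ r → ‖t - (cm : ℂ)‖ ≤ r₁ := by
      intro t ht
      have h8 : t - (cm : ℂ) = (t - tz w φ a b m) + (tz w φ a b m - (cm : ℂ)) := by ring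
      rw [h8]
      have := norm_add_le (t - tz w φ a b m) (tz w φ a b m - (cm : ℂ))
      linarith
    have hcl1 : ∀ t : ℂ, ‖t - tz w φ a b m‖ ≤ r →
        ‖((cm ^ κ : ℝ) : ℂ) * FT ν₁ t - Mn h₁ h₁' a b φ t‖ ≤ lam := by
      intro t ht
      have h9 := (hG₁m m hm1 (t - (cm : ℂ)) (hτ t ht)).2
      rw [add_sub_cancel] at h9
      exact h9
    have hcl2 : ∀ t : ℂ, ‖t - tz w φ a b m‖ ≤ r →
        ‖((cm ^ κ : ℝ) : ℂ) * FT ν₂ t - Mn h₂ h₂' b a φ t‖ ≤ lam := by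
      intro t ht
      have h9 := (hG₂m m hm2 (t - (cm : ℂ)) (hτ t ht)).2
      rw [add_sub_cancel] at h9
      exact h9
    obtain ⟨hz, hzb⟩ := hcM h₁ h₁' a b w m L1.h1 L1.h2 L1.h3 L1.h4 L1.a1 L1.a2 L1.b1 L1.b2 hw1
    obtain ⟨t, htr, ht0⟩ := h4 (fun t => ((cm ^ κ : ℝ) : ℂ) * FT ν₁ t) (Mn h₁ h₁' a b φ)
      (tz w φ a b m) r c lam
      ((FT_diff_25430 ν₁ h₁ h₁' L1.fin L1.supp).const_mul _) hr hc hlamc hz hzb hcl1
    refine ⟨t, htr.le.trans hrr₀, ?_, ?_⟩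
    · rcases mul_eq_zero.mp ht0 with h10 | h10
      · exact absurd h10 hcmκ'
      · exact h10
    · intro h11
      have h12 := hcl2 t htr.le
      rw [h11, mul_zero, zero_sub, norm_neg] at h12
      have hIm : |t.im| ≤ r₁ := by
        have h13 := Complex.abs_im_le_norm (t - (cm : ℂ))
        rw [Complex.sub_im, Complex.ofReal_im, sub_zero] at h13
        exact h13.trans (hτ t htr.le)
      have h14 := Mn_lower_25430 (p := p) (P := P) (δ₀ := δ₀) (r := r) (r₁ := r₁) (h₂ := h₂)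
        (h₂' := h₂') (a := a) (b := b) (w := w) (φ := φ) (m := m) hp hpP hδ₀ hr.le hr2P hr3P
        L2.h1 L2.h2 L2.h3 L2.h4 L1.a1 L1.a2 L1.b1 L1.b2 hw2 hab t htr.le hIm
      linarith

end Pool.Agent.Helper890.Cov.JC1b

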