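import Mathlib
import Pool.Agent.Helper890.Cov.StB




namespace Pool.Agent.Helper890.Cov.JC2
open MeasureTheory Set Filter Topology Metric
open scoped RealInnerProductSpace

theorem c2_l1 (c : ℝ) (hc : 1 ≤ c) (N : ℕ) :
    ∑ m ∈ Finset.range N, Real.log ((m : ℝ) + c) ≤ (N + c) * Real.log (N + c) - N := by
  induction N with
  | zero =>
    simp only [Finset.range_zero, Finset.sum_empty, Nat.cast_zero, zero_add, sub_zero]
    exact mul_nonneg (by linarith) (Real.log_nonneg hc)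
  | succ N ih =>
    rw [Finset.sum_range_succ]
    have h0 : (0 : ℝ) < N + c := by positivity
    have h1 : (0 : ℝ) < N + 1 + c := by positivity
    have h2 := Real.one_sub_inv_le_log_of_pos (div_pos h1 h0)
    rw [Real.log_div h1.ne' h0.ne', inv_div] at h2
    have h3 : 1 ≤ (N + 1 + c) * (Real.log (N + 1 + c) - Real.log (N + c)) := by
      have e : 1 - (N + c) / (N + 1 + c) = 1 / (N + 1 + c) := by field_simp; ring
      rw [e] at h2
      have h4 := mul_le_mul_of_nonneg_left h2 h1.le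
      rwa [mul_one_div_cancel h1.ne'] at h4
    push_cast
    nlinarith

theorem c2_l2a (Y : ℝ) (hY : 0 < Y) (N : ℕ) :
    ∑ m ∈ Finset.range N, Real.log (Y / ((m : ℝ) + 1)) = Real.log (Y ^ N / N.factorial) := by
  induction N with
  | zero => simp
  | succ N ih =>
    rw [Finset.sum_range_succ, ih, ← Real.log_mul (by positivity) (by positivity)]
    congr 1
    rw [Nat.factorial_succ]
    push_cast
    field_simp
    ring

theorem c2_l2 (Y : ℝ) (hY : 0 < Y) (N : ℕ) :
    ∑ m ∈ Finset.range N, max 0 (Real.log (Y / ((m : ℝ) + 1))) ≤ Y := by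
  induction N with
  | zero => simpa using hY.le
  | succ N ih =>
    by_cases h : Y / ((N : ℝ) + 1) ≤ 1
    · rw [Finset.sum_range_succ]
      have h1 : max 0 (Real.log (Y / ((N : ℝ) + 1))) = 0 :=
        max_eq_left (Real.log_nonpos (by positivity) h)
      rw [h1, add_zero]
      exact ih
    · push Not at h
      have h2 : ∀ m ∈ Finset.range (N + 1), max 0 (Real.log (Y / ((m : ℝ) + 1))) =
          Real.log (Y / ((m : ℝ) + 1)) := by
        intro m hm
        apply max_eq_right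
        apply Real.log_nonneg
        have hmN : (m : ℝ) ≤ N := by
          exact_mod_cast Nat.lt_succ_iff.1 (Finset.mem_range.1 hm)
        refine h.le.trans ?_
        apply div_le_div_of_nonneg_left hY.le (by positivity) (by linarith)
      rw [Finset.sum_congr rfl h2, c2_l2a Y hY]
      exact (Real.log_le_log (by positivity)
        (Real.pow_div_factorial_le_exp Y hY.le (N + 1))).trans_eq (Real.log_exp Y)

theorem c2_log (y s : ℝ) (hy : 0 < y) (hs : 0 < s) :
    Real.log y ≤ s * y - 1 - Real.log s := by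
  have h := Real.log_le_sub_one_of_pos (mul_pos hs hy)
  rw [Real.log_mul hs.ne' hy.ne'] at h
  linarith

/-- lower bound of the full sum -/
theorem c2_full (c X : ℝ) (hc : 1 ≤ c) (hX : 1 ≤ X) :
    X - 1 - c - c * Real.log (X + c) ≤
      ∑ m ∈ Finset.range ⌊X⌋₊, Real.log (X / ((m : ℝ) + c)) := by
  have hX0 : 0 < X := by linarith
  have hN1 : (⌊X⌋₊ : ℝ) ≤ X := Nat.floor_le hX0.le
  have hN2 : X < (⌊X⌋₊ : ℝ) + 1 := Nat.lt_floor_add_one X
  have h1 : ∑ m ∈ Finset.range ⌊X⌋₊, Real.log (X / ((m : ℝ) + c)) =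
      (⌊X⌋₊ : ℝ) * Real.log X - ∑ m ∈ Finset.range ⌊X⌋₊, Real.log ((m : ℝ) + c) := by
    have h2 : ∀ m ∈ Finset.range ⌊X⌋₊, Real.log (X / ((m : ℝ) + c)) =
        Real.log X - Real.log ((m : ℝ) + c) := by
      intro m _
      exact Real.log_div hX0.ne' (by positivity)
    rw [Finset.sum_congr rfl h2, Finset.sum_sub_distrib, Finset.sum_const, Finset.card_range,
      nsmul_eq_mul]
  rw [h1]
  have h3 := c2_l1 c hc ⌊X⌋₊
  have h4 : Real.log ((⌊X⌋₊ : ℝ) + c) ≤ Real.log (X + c) :=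
    Real.log_le_log (by positivity) (by linarith)
  have h5 : Real.log (X + c) - Real.log X ≤ c / X := by
    rw [← Real.log_div (by positivity) hX0.ne']
    have h6 := Real.log_le_sub_one_of_pos (show 0 < (X + c) / X by positivity)
    refine h6.trans (le_of_eq ?_)
    field_simp
    ring
  have h7 : (⌊X⌋₊ : ℝ) * (c / X) ≤ c := by
    rw [mul_div_assoc', div_le_iff₀ hX0]
    nlinarith
  have h8 : (0 : ℝ) ≤ (⌊X⌋₊ : ℝ) := Nat.cast_nonneg _
  have h9 : ((⌊X⌋₊ : ℝ) + c) * Real.log ((⌊X⌋₊ : ℝ) + c) ≤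
      ((⌊X⌋₊ : ℝ) + c) * Real.log (X + c) :=
    mul_le_mul_of_nonneg_left h4 (by positivity)
  have h10 := mul_le_mul_of_nonneg_left h5 h8
  nlinarith

/-- upper bound of the missing sum -/
theorem c2_miss (c X θ : ℝ) (hc : 1 ≤ c) (hX : 1 ≤ X) (hθ : 0 < θ) (hθ1 : θ ≤ 1) (N : ℕ)
    (M : Finset ℕ) (hM : M ⊆ Finset.range N) :
    ∑ m ∈ M, Real.log (X / ((m : ℝ) + c)) ≤ (M.card : ℝ) * Real.log (1 / θ) + θ * X := by
  have hX0 : 0 < X := by linarith
  have h1 : ∀ m ∈ M, Real.log (X / ((m : ℝ) + c)) ≤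
      Real.log (1 / θ) + max 0 (Real.log (θ * X / ((m : ℝ) + 1))) := by
    intro m _
    have h2 : Real.log (X / ((m : ℝ) + c)) ≤ Real.log (X / ((m : ℝ) + 1)) := by
      apply Real.log_le_log (by positivity)
      apply div_le_div_of_nonneg_left hX0.le (by positivity) (by linarith)
    have h3 : Real.log (X / ((m : ℝ) + 1)) =
        Real.log (1 / θ) + Real.log (θ * X / ((m : ℝ) + 1)) := by
      rw [← Real.log_mul (by positivity) (by positivity)]
      congr 1
      field_simp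
    have h4 := le_max_right 0 (Real.log (θ * X / ((m : ℝ) + 1)))
    linarith
  refine (Finset.sum_le_sum h1).trans ?_
  rw [Finset.sum_add_distrib, Finset.sum_const, nsmul_eq_mul]
  have h5 : ∑ m ∈ M, max 0 (Real.log (θ * X / ((m : ℝ) + 1))) ≤
      ∑ m ∈ Finset.range N, max 0 (Real.log (θ * X / ((m : ℝ) + 1))) :=
    Finset.sum_le_sum_of_subset_of_nonneg hM fun m _ _ => le_max_left _ _
  have h6 := c2_l2 (θ * X) (by positivity) N
  linarith

theorem c2_tz (φ p P r₀ : ℝ) (hp : 0 < p) (hr₀ : 0 < r₀) (a b w : ℝ)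
    (hw1 : 2 * p ≤ w) (hw2 : w ≤ 2 * P) (ha1 : p ≤ a) (ha2 : a ≤ P) (hb1 : p ≤ b) (hb2 : b ≤ P)
    (m : ℕ) (t : ℂ) (ht : ‖t - tz w φ a b m‖ ≤ r₀) :
    ‖t‖ ≤ 2 * Real.pi / w * ((m : ℝ) + (1 + |φ| + (Real.log P - Real.log p) + r₀ * P)) := by
  have hπ := Real.pi_pos
  have hπ3 := Real.pi_gt_three
  have hw0 : 0 < w := by linarith
  have hlog : |Real.log (a / b)| ≤ Real.log P - Real.log p := by
    have ha0 : 0 < a := by linarith
    have hb0 : 0 < b := by linarith
    rw [Real.log_div ha0.ne' hb0.ne', abs_le]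
    have e1 := Real.log_le_log hp ha1
    have e2 := Real.log_le_log ha0 ha2
    have e3 := Real.log_le_log hp hb1
    have e4 := Real.log_le_log hb0 hb2
    constructor <;> linarith
  have h1 : ‖tz w φ a b m‖ ≤ (|(2 * (m : ℝ) + 1) * Real.pi - 2 * φ| + |Real.log (a / b)|) / w := by
    unfold tz
    rw [norm_div, Complex.norm_real, Real.norm_eq_abs, abs_of_pos hw0]
    apply div_le_div_of_nonneg_right _ hw0.le
    refine (norm_add_le _ _).trans ?_
    rw [norm_mul, Complex.norm_I, one_mul, Complex.norm_real, Complex.norm_real,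
      Real.norm_eq_abs, Real.norm_eq_abs]
  have h2 : ‖t‖ ≤ r₀ + ‖tz w φ a b m‖ := by
    have := norm_add_le (t - tz w φ a b m) (tz w φ a b m)
    rw [sub_add_cancel] at this
    linarith
  have h3 : |(2 * (m : ℝ) + 1) * Real.pi - 2 * φ| ≤ (2 * (m : ℝ) + 1) * Real.pi + 2 * |φ| := by
    refine (abs_sub _ _).trans ?_
    rw [abs_of_pos (by positivity), abs_mul, abs_two]
  have h4 : ‖t‖ * w ≤ r₀ * w + ((2 * (m : ℝ) + 1) * Real.pi + 2 * |φ| +
      (Real.log P - Real.log p)) := by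
    rw [le_div_iff₀ hw0] at h1
    nlinarith
  have h5 : 2 * Real.pi / w * ((m : ℝ) + (1 + |φ| + (Real.log P - Real.log p) + r₀ * P)) =
      (2 * Real.pi * ((m : ℝ) + (1 + |φ| + (Real.log P - Real.log p) + r₀ * P))) / w := by
    ring
  rw [h5, le_div_iff₀ hw0]
  refine h4.trans ?_
  have hL : 0 ≤ Real.log P - Real.log p := (abs_nonneg _).trans hlog
  have hφ := abs_nonneg φ
  have h6 : r₀ * w ≤ 2 * (r₀ * P) := by nlinarith
  have hP : 0 < P := by linarith
  have h7 : 0 < r₀ * P := mul_pos hr₀ hP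
  nlinarith [mul_nonneg hφ (by linarith : (0 : ℝ) ≤ Real.pi - 1),
    mul_nonneg hL (by linarith : (0 : ℝ) ≤ Real.pi - 1),
    mul_nonneg h7.le (by linarith : (0 : ℝ) ≤ Real.pi - 1)]

theorem c2_ne (φ p P r₀ : ℝ) (hp : 0 < p) (hr₀ : 0 < r₀) (a b w : ℝ)
    (hw1 : 2 * p ≤ w) (hw2 : w ≤ 2 * P) (m : ℕ) (hm : 2 * P * r₀ + 2 * |φ| ≤ m)
    (t : ℂ) (ht : ‖t - tz w φ a b m‖ ≤ r₀) : 0 < ‖t‖ := by
  have hπ3 := Real.pi_gt_three
  have hw0 : 0 < w := by linarith
  rw [norm_pos_iff]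
  rintro rfl
  rw [zero_sub, norm_neg] at ht
  have h1 : (tz w φ a b m).re = ((2 * (m : ℝ) + 1) * Real.pi - 2 * φ) / w := by
    unfold tz
    rw [Complex.div_ofReal_re]
    simp
  have h2 := (Complex.re_le_norm (tz w φ a b m)).trans ht
  rw [h1, div_le_iff₀ hw0] at h2
  have h3 := le_abs_self φ
  have h4 : r₀ * w ≤ 2 * P * r₀ := by nlinarith
  have h5 : (0 : ℝ) ≤ m := Nat.cast_nonneg _
  nlinarith

theorem stC2 : StmtC2 := by
  classical
  intro φ p P r₀ η hp hr₀ hη
  by_cases hPp : P < p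
  · refine ⟨1, 1, one_pos, one_pos, ?_⟩
    intro a b w _ _ h1 h2
    exact absurd (h1.trans h2) (not_le.2 hPp)
  push Not at hPp
  have hP : 0 < P := hp.trans_le hPp
  have hπ := Real.pi_pos
  have hL : 0 ≤ Real.log P - Real.log p := by
    have := Real.log_le_log hp hPp
    linarith
  set c : ℝ := 1 + |φ| + (Real.log P - Real.log p) + r₀ * P with hcdef
  have hc : 1 ≤ c := by
    have h1 := abs_nonneg φ
    have h2 := mul_pos hr₀ hP
    linarith
  have hc0 : 0 < c := by linarith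
  set θ : ℝ := min 1 (η * Real.pi / (4 * P)) with hθdef
  have hθ0 : 0 < θ := lt_min one_pos (by positivity)
  have hθ1 : θ ≤ 1 := min_le_left _ _
  have hθ2 : θ * (P / Real.pi) ≤ η / 4 := by
    have h1 : θ ≤ η * Real.pi / (4 * P) := min_le_right _ _
    calc θ * (P / Real.pi) ≤ η * Real.pi / (4 * P) * (P / Real.pi) :=
          mul_le_mul_of_nonneg_right h1 (by positivity)
      _ = η / 4 := by field_simp
  set Λ : ℝ := Real.log (1 / θ) with hΛdef
  have hΛ : 0 ≤ Λ := Real.log_nonneg (by rw [le_div_iff₀ hθ0]; linarith)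
  set δ : ℝ := η / (4 * (Λ + 1)) with hδdef
  have hδ : 0 < δ := by positivity
  have hδΛ : δ * Λ ≤ η / 4 := by
    rw [hδdef, div_mul_eq_mul_div, div_le_div_iff₀ (by positivity) (by norm_num)]
    nlinarith
  set M₀ : ℕ := ⌈2 * P * r₀ + 2 * |φ|⌉₊ with hM₀
  set s : ℝ := η / (4 * c * (P / Real.pi)) with hsdef
  have hs : 0 < s := by positivity
  have hs2 : c * s * (P / Real.pi) = η / 4 := by
    rw [hsdef]; field_simp
  set K : ℝ := 1 + c + c * (s * c - 1 - Real.log s) + M₀ * Λ with hKdef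
  refine ⟨δ, max (Real.pi / p) (4 * K / η), hδ, lt_max_of_lt_left (by positivity), ?_⟩
  intro a b w hw1 hw2 ha1 ha2 hb1 hb2 R G t hR hGN hGc hG
  have hR1 : Real.pi / p ≤ R := (le_max_left _ _).trans hR
  have hR2 : 4 * K / η ≤ R := (le_max_right _ _).trans hR
  have hR0 : 0 < R := (by positivity : 0 < Real.pi / p).trans_le hR1
  have hw0 : 0 < w := by linarith
  set X : ℝ := w * R / (2 * Real.pi) with hXdef
  have hX1 : 1 ≤ X := by
    rw [hXdef, le_div_iff₀ (by positivity)]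
    rw [div_le_iff₀ hp] at hR1
    nlinarith
  have hX0 : 0 < X := by linarith
  have hXP : X ≤ P / Real.pi * R := by
    rw [hXdef, div_le_iff₀ (by positivity)]
    have : P / Real.pi * R * (2 * Real.pi) = 2 * P * R := by field_simp
    rw [this]
    nlinarith
  set G' : Finset ℕ := G.filter (fun m => M₀ ≤ m) with hG'
  have hA : ∀ m ∈ G, ‖t m‖ ≤ 2 * Real.pi / w * ((m : ℝ) + c) := fun m hm =>
    c2_tz φ p P r₀ hp hr₀ a b w hw1 hw2 ha1 ha2 hb1 hb2 m (t m) (hG m hm).2
  have hpos : ∀ m ∈ G', 0 < ‖t m‖ := by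
    intro m hm
    obtain ⟨hm1, hm2⟩ := Finset.mem_filter.1 hm
    refine c2_ne φ p P r₀ hp hr₀ a b w hw1 hw2 m ?_ (t m) (hG m hm1).2
    exact (Nat.le_ceil _).trans (by exact_mod_cast hm2)
  have hcmp : ∀ m ∈ G', X / ((m : ℝ) + c) ≤ R / ‖t m‖ := by
    intro m hm
    have h1 := hA m (Finset.mem_filter.1 hm).1
    have h2 := hpos m hm
    have hmc : 0 < (m : ℝ) + c := by positivity
    rw [div_le_div_iff₀ hmc h2]
    calc X * ‖t m‖ ≤ X * (2 * Real.pi / w * ((m : ℝ) + c)) :=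
          mul_le_mul_of_nonneg_left h1 hX0.le
      _ = R * ((m : ℝ) + c) := by
          rw [hXdef]; field_simp
  have e1 : ∑ m ∈ G' with ‖t m‖ < R, Real.log (R / ‖t m‖) ≤
      ∑ m ∈ G with ‖t m‖ < R, Real.log (R / ‖t m‖) := by
    apply Finset.sum_le_sum_of_subset_of_nonneg
    · exact Finset.filter_subset_filter _ (Finset.filter_subset _ _)
    · intro m hm _
      have h1 := (Finset.mem_filter.1 hm).2
      rcases (norm_nonneg (t m)).eq_or_lt with h2 | h2
      · rw [← h2]; simp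
      · exact Real.log_nonneg (by rw [le_div_iff₀ h2]; linarith)
  have e2 : ∑ m ∈ G' with ‖t m‖ < R, Real.log (X / ((m : ℝ) + c)) ≤
      ∑ m ∈ G' with ‖t m‖ < R, Real.log (R / ‖t m‖) := by
    apply Finset.sum_le_sum
    intro m hm
    exact Real.log_le_log (by positivity) (hcmp m (Finset.mem_filter.1 hm).1)
  have e3 : ∑ m ∈ G', Real.log (X / ((m : ℝ) + c)) ≤
      ∑ m ∈ G' with ‖t m‖ < R, Real.log (X / ((m : ℝ) + c)) := by
    rw [← Finset.sum_filter_add_sum_filter_not G' (fun m => ‖t m‖ < R)]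
    have h1 : ∑ m ∈ G' with ¬ ‖t m‖ < R, Real.log (X / ((m : ℝ) + c)) ≤ 0 := by
      apply Finset.sum_nonpos
      intro m hm
      obtain ⟨hm1, hm2⟩ := Finset.mem_filter.1 hm
      apply Real.log_nonpos (by positivity)
      refine (hcmp m hm1).trans ?_
      rw [div_le_one (hpos m hm1)]
      exact not_lt.1 hm2
    linarith
  have hsub : G' ⊆ Finset.range ⌊X⌋₊ := by
    intro m hm
    exact Finset.mem_range.2 (hGN m (Finset.mem_filter.1 hm).1)
  have e4 : ∑ m ∈ G', Real.log (X / ((m : ℝ) + c)) =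
      ∑ m ∈ Finset.range ⌊X⌋₊, Real.log (X / ((m : ℝ) + c)) -
        ∑ m ∈ Finset.range ⌊X⌋₊ \ G', Real.log (X / ((m : ℝ) + c)) := by
    rw [← Finset.sum_sdiff hsub]
    ring
  have e5 := c2_full c X hc hX1
  have e6 := c2_miss c X θ hc hX1 hθ0 hθ1 ⌊X⌋₊ (Finset.range ⌊X⌋₊ \ G') Finset.sdiff_subset
  have hcard : ((Finset.range ⌊X⌋₊ \ G').card : ℝ) ≤ δ * R + M₀ := by
    have h1 : Finset.range ⌊X⌋₊ \ G' ⊆ (Finset.range ⌊X⌋₊ \ G) ∪ Finset.range M₀ := by
      intro m hm
      obtain ⟨hm1, hm2⟩ := Finset.mem_sdiff.1 hm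
      by_cases hmG : m ∈ G
      · apply Finset.mem_union_right
        rw [Finset.mem_range]
        by_contra hcon
        exact hm2 (Finset.mem_filter.2 ⟨hmG, not_lt.1 hcon⟩)
      · exact Finset.mem_union_left _ (Finset.mem_sdiff.2 ⟨hm1, hmG⟩)
    have h2 := (Finset.card_le_card h1).trans (Finset.card_union_le _ _)
    rw [Finset.card_range] at h2
    have h3 : ((Finset.range ⌊X⌋₊ \ G').card : ℝ) ≤
        ((Finset.range ⌊X⌋₊ \ G).card : ℝ) + M₀ := by exact_mod_cast h2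
    linarith
  have e7 : ((Finset.range ⌊X⌋₊ \ G').card : ℝ) * Λ ≤ η / 4 * R + M₀ * Λ := by
    calc ((Finset.range ⌊X⌋₊ \ G').card : ℝ) * Λ ≤ (δ * R + M₀) * Λ :=
          mul_le_mul_of_nonneg_right hcard hΛ
      _ = (δ * Λ) * R + M₀ * Λ := by ring
      _ ≤ η / 4 * R + M₀ * Λ := by
          have := mul_le_mul_of_nonneg_right hδΛ hR0.le
          linarith
  have e8 : θ * X ≤ η / 4 * R := by
    calc θ * X ≤ θ * (P / Real.pi * R) := mul_le_mul_of_nonneg_left hXP hθ0.le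
      _ = (θ * (P / Real.pi)) * R := by ring
      _ ≤ η / 4 * R := mul_le_mul_of_nonneg_right hθ2 hR0.le
  have e9 : c * Real.log (X + c) ≤ η / 4 * R + c * (s * c - 1 - Real.log s) := by
    have h1 := c2_log (X + c) s (by positivity) hs
    calc c * Real.log (X + c) ≤ c * (s * (X + c) - 1 - Real.log s) :=
          mul_le_mul_of_nonneg_left h1 hc0.le
      _ = c * s * X + c * (s * c - 1 - Real.log s) := by ring
      _ ≤ c * s * (P / Real.pi * R) + c * (s * c - 1 - Real.log s) := by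
          have := mul_le_mul_of_nonneg_left hXP (by positivity : 0 ≤ c * s)
          linarith
      _ = (c * s * (P / Real.pi)) * R + c * (s * c - 1 - Real.log s) := by ring
      _ = _ := by rw [hs2]
  have e10 : K ≤ η / 4 * R := by
    rw [div_le_iff₀ hη] at hR2
    linarith
  have e11 : (w / (2 * Real.pi) - η) * R = X - η * R := by
    rw [hXdef]; ring
  rw [e11]
  rw [hKdef] at e10
  linarith

end Pool.Agent.Helper890.Cov.JC2
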