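import Mathlib
import Pool.Agent.Helper890.Cov.StB




namespace Pool.Agent.Helper890.Cov.JC3
open MeasureTheory Set Filter Topology Metric
open scoped RealInnerProductSpace

theorem stC3_diff (ν : Measure ℝ) [IsFiniteMeasure ν] (h h' : ℝ) (hs : ν (Icc (-h') h)ᶜ = 0) :
    Differentiable ℂ (FT ν) := by
  have hset : ProbabilityTheory.integrableExpSet (id : ℝ → ℝ) ν = univ := by
    rw [eq_univ_iff_forall]
    intro t
    change Integrable (fun ω : ℝ => Real.exp (t * id ω)) ν
    refine Integrable.of_bound (C := Real.exp (|t| * (|h| + |h'|))) ?_ ?_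
    · exact (Real.continuous_exp.comp (continuous_const.mul continuous_id)).aestronglyMeasurable
    · have hae : ∀ᵐ s ∂ν, s ∈ Icc (-h') h := hs
      filter_upwards [hae] with s hs
      rw [Real.norm_of_nonneg (Real.exp_pos _).le]
      apply Real.exp_le_exp.2
      calc t * id s ≤ |t * id s| := le_abs_self _
        _ = |t| * |s| := abs_mul _ _
        _ ≤ |t| * (|h| + |h'|) := by
          refine mul_le_mul_of_nonneg_left ?_ (abs_nonneg t)
          rw [abs_le]
          constructor
          · have h1 := hs.1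
            have h2 := le_abs_self h'
            have h3 := abs_nonneg h
            linarith
          · have h1 := hs.2
            have h2 := le_abs_self h
            have h3 := abs_nonneg h'
            linarith
  have h1 : FT ν = fun t => ProbabilityTheory.complexMGF id ν (Complex.I * t) := by
    funext t
    unfold FT ProbabilityTheory.complexMGF
    rfl
  rw [h1]
  intro t
  have h2 : DifferentiableAt ℂ (ProbabilityTheory.complexMGF (id : ℝ → ℝ) ν) (Complex.I * t) := by
    refine (ProbabilityTheory.hasDerivAt_complexMGF ?_).differentiableAt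
    rw [hset, interior_univ]
    trivial
  exact h2.comp t ((differentiableAt_const _).mul differentiableAt_id)

theorem stC3_bound (ν : Measure ℝ) [IsFiniteMeasure ν] (h h' : ℝ) (hs : ν (Icc (-h') h)ᶜ = 0)
    (t : ℂ) :
    ‖FT ν t‖ ≤ Real.exp (max t.im 0 * h' + max (-t.im) 0 * h) * ν.real univ := by
  unfold FT
  refine norm_integral_le_of_norm_le_const ?_
  have hae : ∀ᵐ s ∂ν, s ∈ Icc (-h') h := hs
  filter_upwards [hae] with s hs
  rw [Complex.norm_exp]
  apply Real.exp_le_exp.2
  have h1 : (Complex.I * t * (s : ℂ)).re = -t.im * s := by simp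
  rw [h1]
  obtain ⟨h2, h3⟩ := hs
  rcases le_total 0 t.im with h4 | h4
  · rw [max_eq_left h4, max_eq_right (by linarith)]
    nlinarith
  · rw [max_eq_right h4, max_eq_left (by linarith)]
    nlinarith

theorem stC3_avg (R h h' : ℝ) (hR : 0 < R) :
    CircleIntegrable (fun t : ℂ => max t.im 0 * h' + max (-t.im) 0 * h) 0 R ∧
    Real.circleAverage (fun t : ℂ => max t.im 0 * h' + max (-t.im) 0 * h) 0 R =
      (h + h') * R / Real.pi := by
  have hc : Continuous (fun t : ℂ => max t.im 0 * h' + max (-t.im) 0 * h) := by fun_prop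
  refine ⟨hc.continuousOn.circleIntegrable', ?_⟩
  unfold Real.circleAverage
  have him : ∀ θ : ℝ, (circleMap 0 R θ).im = R * Real.sin θ := by
    intro θ
    unfold circleMap
    simp [Complex.exp_im]
  have hcθ : Continuous (fun θ : ℝ => max (R * Real.sin θ) 0 * h' + max (-(R * Real.sin θ)) 0 * h) := by
    fun_prop
  simp only [him]
  rw [← intervalIntegral.integral_add_adjacent_intervals (b := Real.pi)
    (hcθ.intervalIntegrable _ _) (hcθ.intervalIntegrable _ _)]
  have e1 : ∫ θ in (0 : ℝ)..Real.pi, (max (R * Real.sin θ) 0 * h' + max (-(R * Real.sin θ)) 0 * h) =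
      ∫ θ in (0 : ℝ)..Real.pi, (R * h') * Real.sin θ := by
    refine intervalIntegral.integral_congr fun θ hθ => ?_
    rw [uIcc_of_le Real.pi_pos.le] at hθ
    have h1 : 0 ≤ Real.sin θ := Real.sin_nonneg_of_mem_Icc hθ
    have h2 : 0 ≤ R * Real.sin θ := mul_nonneg hR.le h1
    rw [max_eq_left h2, max_eq_right (by linarith)]
    ring
  have e2 : ∫ θ in Real.pi..(2 * Real.pi),
      (max (R * Real.sin θ) 0 * h' + max (-(R * Real.sin θ)) 0 * h) =
      ∫ θ in Real.pi..(2 * Real.pi), (-(R * h)) * Real.sin θ := by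
    refine intervalIntegral.integral_congr fun θ hθ => ?_
    rw [uIcc_of_le (by linarith [Real.pi_pos])] at hθ
    have h1 : Real.sin θ ≤ 0 := by
      have h3 : 0 ≤ Real.sin (θ - Real.pi) :=
        Real.sin_nonneg_of_mem_Icc ⟨by linarith [hθ.1], by linarith [hθ.2]⟩
      rw [Real.sin_sub_pi] at h3
      linarith
    have h2 : R * Real.sin θ ≤ 0 := mul_nonpos_of_nonneg_of_nonpos hR.le h1
    rw [max_eq_right h2, max_eq_left (by linarith)]
    ring
  rw [e1, e2, intervalIntegral.integral_const_mul, intervalIntegral.integral_const_mul,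
    integral_sin, integral_sin]
  have := Real.pi_pos
  simp only [Real.cos_pi, Real.cos_zero, Real.cos_two_pi, smul_eq_mul]
  field_simp
  ring

theorem stC3 : StmtC3 := by
  intro ν h h' hfin hs hV hh hh' R hR S hS
  set V : ℝ := ν.real univ with hVdef
  set G : ℂ → ℂ := fun t => FT ν t / (V : ℂ) with hG
  have hVc : (V : ℂ) ≠ 0 := by exact_mod_cast hV.ne'
  have hGd : Differentiable ℂ G := (stC3_diff ν h h' hs).div_const _
  have hGa : ∀ t, AnalyticAt ℂ G t := fun t => hGd.analyticAt t
  have hG0 : G 0 = 1 := by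
    have h1 : FT ν 0 = (V : ℂ) := by
      unfold FT
      simp [hVdef]
    simp only [hG, h1]
    exact div_self hVc
  have habs : |R| = R := abs_of_pos hR
  have hGcb : AnalyticOnNhd ℂ G (closedBall 0 |R|) := fun t _ => hGa t
  have jensen := hGcb.circleAverage_log_norm hR.ne' (by rw [hG0]; exact one_ne_zero)
  rw [hG0, norm_one, Real.log_one, add_zero] at jensen
  -- upper bound of the average
  have hup : Real.circleAverage (Real.log ‖G ·‖) 0 R ≤ (h + h') * R / Real.pi := by
    obtain ⟨h1, h2⟩ := stC3_avg R h h' hR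
    rw [← h2]
    refine Real.circleAverage_mono ?_ h1 fun t _ => ?_
    · exact (hGcb.mono sphere_subset_closedBall).meromorphicOn.circleIntegrable_log_norm
    · have hb : ‖G t‖ ≤ Real.exp (max t.im 0 * h' + max (-t.im) 0 * h) := by
        have h3 := stC3_bound ν h h' hs t
        simp only [hG]
        rw [norm_div, Complex.norm_real, Real.norm_of_nonneg hV.le, div_le_iff₀ hV]
        exact h3
      have hnn : 0 ≤ max t.im 0 * h' + max (-t.im) 0 * h :=
        add_nonneg (mul_nonneg (le_max_right _ _) hh') (mul_nonneg (le_max_right _ _) hh)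
      rcases eq_or_lt_of_le (norm_nonneg (G t)) with h4 | h4
      · simp only [← h4, Real.log_zero]
        exact hnn
      · calc Real.log ‖G t‖ ≤ Real.log (Real.exp (max t.im 0 * h' + max (-t.im) 0 * h)) :=
              Real.log_le_log h4 hb
          _ = _ := Real.log_exp _
  refine le_trans ?_ hup
  rw [jensen]
  -- the sum
  set D := MeromorphicOn.divisor G (closedBall 0 |R|) with hD
  have hfs : (Function.support fun u => (D u : ℝ) * Real.log (R * ‖(0 : ℂ) - u‖⁻¹)).Finite :=
    (D.finiteSupport (isCompact_closedBall _ _)).subset fun u hu => by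
      intro h0
      apply hu
      simp only [h0, Int.cast_zero, zero_mul]
  classical
  rw [finsum_eq_sum_of_support_subset (s := hfs.toFinset ∪ S) _ (by
    intro u hu
    rw [Finset.coe_union]
    left
    rw [Set.Finite.coe_toFinset]
    exact hu)]
  have hterm : ∀ u, 0 ≤ (D u : ℝ) * Real.log (R * ‖(0 : ℂ) - u‖⁻¹) := by
    intro u
    by_cases hu : u ∈ closedBall (0 : ℂ) |R|
    · have h1 : (0 : ℤ) ≤ D u := MeromorphicOn.AnalyticOnNhd.divisor_nonneg hGcb u
      have h2 : (0 : ℝ) ≤ D u := by exact_mod_cast h1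
      refine mul_nonneg h2 ?_
      rw [mem_closedBall_zero_iff, habs] at hu
      rw [zero_sub, norm_neg]
      rcases eq_or_lt_of_le (norm_nonneg u) with h3 | h3
      · rw [← h3]; simp
      · apply Real.log_nonneg
        rw [← div_eq_mul_inv, one_le_div h3]
        exact hu
    · rw [Function.locallyFinsuppWithin.apply_eq_zero_of_notMem D hu]
      simp
  refine le_trans ?_ (Finset.sum_le_sum_of_subset_of_nonneg (Finset.subset_union_right)
    fun u _ _ => hterm u)
  refine Finset.sum_le_sum fun t ht => ?_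
  obtain ⟨h1, h2⟩ := hS t ht
  have hGt : G t = 0 := by simp only [hG, h2, zero_div]
  have ht0 : t ≠ 0 := by
    rintro rfl
    rw [hG0] at hGt
    exact one_ne_zero hGt
  have htn : 0 < ‖t‖ := norm_pos_iff.2 ht0
  have hlog : 0 ≤ Real.log (R / ‖t‖) := Real.log_nonneg (by rw [one_le_div htn]; exact h1.le)
  have hmem : t ∈ closedBall (0 : ℂ) |R| := by
    rw [mem_closedBall_zero_iff, habs]; exact h1.le
  have htop : analyticOrderAt G t ≠ ⊤ := by
    have hU : AnalyticOnNhd ℂ G univ := fun t _ => hGa t
    refine hU.analyticOrderAt_ne_top_of_isPreconnected isPreconnected_univ (mem_univ 0)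
      (mem_univ t) ?_
    rw [(hGa 0).analyticOrderAt_eq_zero.2 (by rw [hG0]; exact one_ne_zero)]
    simp
  have hne : analyticOrderAt G t ≠ 0 := by
    intro h3
    exact (hGa t).analyticOrderAt_eq_zero.1 h3 hGt
  obtain ⟨n, hn⟩ := ENat.ne_top_iff_exists.1 htop
  have hDt : D t = (n : ℤ) := by
    rw [hD, MeromorphicOn.AnalyticOnNhd.divisor_apply hGcb hmem, ← hn]
    rfl
  have hn1 : 1 ≤ n := by
    rw [← hn] at hne
    have : n ≠ 0 := fun h => hne (by rw [h]; rfl)
    omega
  rw [hDt, zero_sub, norm_neg, ← div_eq_mul_inv]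
  have hn2 : (1 : ℝ) ≤ ((n : ℤ) : ℝ) := by exact_mod_cast hn1
  nlinarith

end Pool.Agent.Helper890.Cov.JC3
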