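import Mathlib

open MeasureTheory Set Filter Topology Metric
open scoped RealInnerProductSpace Pointwise

namespace Pool.Agent.Helper890.Cov

/-- Euclidean space -/
abbrev E (n : ℕ) := EuclideanSpace ℝ (Fin n)

/-- the support function -/
noncomputable def sf {n : ℕ} (K : Set (E n)) (u : E n) : ℝ := sSup ((fun x => ⟪x, u⟫) '' K)

/-- working description of a `C^2_+` body with the origin in its interior: `h` is the support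
function, `X` its gradient -/
structure Good {n : ℕ} (K : Set (E n)) (h : E n → ℝ) (X : E n → E n) : Prop where
  compact : IsCompact K
  convex : Convex ℝ K
  zero_mem : (0 : E n) ∈ interior K
  grad : ∀ u, u ≠ 0 → HasFDerivAt h (innerSL ℝ (X u)) u
  c1 : ContDiffOn ℝ 1 X {0}ᶜ
  mem : ∀ u, u ≠ 0 → X u ∈ K
  le : ∀ x ∈ K, ∀ u, ⟪x, u⟫ ≤ h u
  eq : ∀ u, u ≠ 0 → ⟪X u, u⟫ = h u
  charac : ∀ x, (∀ u, ⟪x, u⟫ ≤ h u) → x ∈ K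
  homog : ∀ (r : ℝ) (u : E n), 0 ≤ r → h (r • u) = r * h u
  homogX : ∀ (r : ℝ) (u : E n), 0 < r → u ≠ 0 → X (r • u) = X u
  pos : ∀ u, u ≠ 0 → ∀ w, w ≠ 0 → ⟪w, u⟫ = 0 → 0 < ⟪fderiv ℝ X u w, w⟫
  symm : ∀ u, u ≠ 0 → ∀ w w', ⟪fderiv ℝ X u w, w'⟫ = ⟪w, fderiv ℝ X u w'⟫

/-- `‖u‖ D X(u)` plus the orthogonal projection on the line of `u` -/
noncomputable def BB {n : ℕ} (X : E n → E n) (u : E n) : E n →L[ℝ] E n :=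
  ‖u‖ • fderiv ℝ X u + (‖u‖ ^ 2)⁻¹ • (innerSL ℝ u).smulRight u

/-- the curvature function (product of the principal radii of curvature) -/
noncomputable def curv {n : ℕ} (X : E n → E n) (u : E n) : ℝ := (BB X u).det

/-- surface measure of the unit sphere -/
noncomputable def sph (n : ℕ) : Measure (sphere (0 : E n) 1) := (volume : Measure (E n)).toSphere

noncomputable def kap (n : ℕ) : ℝ := ((n : ℝ) + 1) / 2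
noncomputable def cc (n : ℕ) : ℝ := (2 * Real.pi) ^ (((n : ℝ) - 1) / 2)
noncomputable def ph (n : ℕ) : ℝ := -(Real.pi * kap n / 2)

/-- from the support function to the working description -/
def StmtG0 : Prop := ∀ (n : ℕ), 2 ≤ n → ∀ K : Set (E n), IsCompact K → Convex ℝ K → (0 : E n) ∈ interior K →
  ContDiffOn ℝ 2 (sf K) {0}ᶜ →
  (∀ u, u ≠ 0 → ∀ w, w ≠ 0 → ⟪w, u⟫ = 0 → 0 < ⟪fderiv ℝ (gradient (sf K)) u w, w⟫) →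
  Good K (sf K) (gradient (sf K))

/-- quantitative strict convexity -/
def StmtG1 : Prop := ∀ (n : ℕ), 2 ≤ n → ∀ (K : Set (E n)) (h : E n → ℝ) (X : E n → E n), Good K h X →
  ∃ c C : ℝ, 0 < c ∧ ∀ u v : E n, ‖u‖ = 1 → ‖v‖ = 1 →
    c * ‖u - v‖ ^ 2 ≤ h v - ⟪X u, v⟫ ∧ h v - ⟪X u, v⟫ ≤ C * ‖u - v‖ ^ 2 ∧
    c * ‖u - v‖ ≤ ‖X u - X v‖ ∧ ‖X u - X v‖ ≤ C * ‖u - v‖

/-- the curvature function is continuous, positive and homogeneous of degree zero -/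
def StmtG3 : Prop := ∀ (n : ℕ), 2 ≤ n → ∀ (K : Set (E n)) (h : E n → ℝ) (X : E n → E n), Good K h X →
  ContinuousOn (curv X) {0}ᶜ ∧ (∀ u, u ≠ 0 → 0 < curv X u) ∧
  (∀ (r : ℝ) (u : E n), 0 < r → u ≠ 0 → curv X (r • u) = curv X u) ∧
  ContinuousOn X {0}ᶜ ∧ Continuous h ∧ (∀ u, u ≠ 0 → 0 < h u)

/-- upper bound for cap volumes -/
def StmtG4 : Prop := ∀ (n : ℕ), 2 ≤ n → ∀ (K : Set (E n)) (h : E n → ℝ) (X : E n → E n), Good K h X →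
  ∃ C : ℝ, ∀ u : E n, ‖u‖ = 1 → ∀ ε : ℝ, 0 < ε →
    (volume : Measure (E n)).real {x | x ∈ K ∧ h u - ε ≤ ⟪x, u⟫} ≤ C * ε ^ kap n

/-- asymptotics of cap volumes -/
def StmtG5 : Prop := ∀ (n : ℕ), 2 ≤ n → ∀ (K : Set (E n)) (h : E n → ℝ) (X : E n → E n), Good K h X →
  ∀ u : E n, ‖u‖ = 1 →
    Tendsto (fun ε : ℝ => (volume : Measure (E n)).real {x | x ∈ K ∧ h u - ε ≤ ⟪x, u⟫} / ε ^ kap n)
      (𝓝[>] 0) (𝓝 (cc n * Real.sqrt (curv X u) / Real.Gamma (kap n + 1)))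

/-- volume of the model cap -/
def StmtG5a : Prop := ∀ (n : ℕ), 2 ≤ n → ∀ u : E n, ‖u‖ = 1 →
  (volume : Measure (E n)).real {z | ‖z - ⟪z, u⟫ • u‖ ^ 2 / 2 ≤ ⟪z, u⟫ ∧ ⟪z, u⟫ ≤ 1} =
    cc n / Real.Gamma (kap n + 1)

/-- polar coordinates -/
def StmtP : Prop := ∀ (n : ℕ), 2 ≤ n →
  (∀ f : E n → ℝ, Integrable f → ∫ ξ, f ξ =
    ∫ v : sphere (0 : E n) 1, (∫ r in Ioi (0 : ℝ), r ^ (n - 1) * f (r • (v : E n))) ∂(sph n)) ∧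
  (∀ f : E n → ℂ, Integrable f → ∫ ξ, f ξ =
    ∫ v : sphere (0 : E n) 1, (∫ r in Ioi (0 : ℝ), ((r ^ (n - 1) : ℝ) : ℂ) * f (r • (v : E n))) ∂(sph n)) ∧
  (∀ f : E n → ENNReal, Measurable f → ∫⁻ ξ, f ξ =
    ∫⁻ v : sphere (0 : E n) 1, (∫⁻ r in Ioi (0 : ℝ), ENNReal.ofReal (r ^ (n - 1)) * f (r • (v : E n))) ∂(sph n))

/-- change of variables `x = ‖η‖ X(η)` -/
def StmtG6 : Prop := ∀ (n : ℕ), 2 ≤ n → ∀ (K : Set (E n)) (h : E n → ℝ) (X : E n → E n), Good K h X →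
  ∀ g : E n → ℂ, ∫ x in K, g x = ∫ η in ball (0 : E n) 1, (h η / ‖η‖ * curv X η) • g (‖η‖ • X η)

/-- divergence theorem in the support parametrisation -/
def StmtG7 : Prop := ∀ (n : ℕ), 2 ≤ n → ∀ (K : Set (E n)) (h : E n → ℝ) (X : E n → E n), Good K h X →
  ∀ (g : E n → ℂ) (e : E n), ContDiff ℝ 1 g →
    ∫ x in K, fderiv ℝ g x e = ∫ v : sphere (0 : E n) 1, (⟪(v : E n), e⟫ * curv X v) • g (X v) ∂(sph n)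

/-- Fourier transform of the indicator function -/
noncomputable def FK {n : ℕ} (K : Set (E n)) (ξ : E n) : ℂ := ∫ x in K, Complex.exp (Complex.I * (⟪ξ, x⟫ : ℝ))

/-- the main term -/
noncomputable def Mhat {n : ℕ} (h : E n → ℝ) (X : E n → E n) (ξ : E n) : ℂ :=
  ((cc n * ‖ξ‖ ^ (-kap n) : ℝ) : ℂ) *
    ((Real.sqrt (curv X ξ) : ℂ) * Complex.exp (Complex.I * (((h ξ + ph n : ℝ)) : ℂ)) +
     (Real.sqrt (curv X (-ξ)) : ℂ) * Complex.exp (-(Complex.I * (((h (-ξ) + ph n : ℝ)) : ℂ))))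

/-- local Gaussian integral on the sphere -/
def StmtG8a : Prop := ∀ (n : ℕ), 2 ≤ n → ∀ (K : Set (E n)) (h : E n → ℝ) (X : E n → E n), Good K h X →
  (∃ C : ℝ, ∀ v : sphere (0 : E n) 1, ∀ T : ℝ, 1 ≤ T →
    T ^ ((n : ℝ) - 1) * ∫ v' : sphere (0 : E n) 1, curv X v' * Real.exp (-(T ^ 2 * ‖X v - X v'‖ ^ 2 / 4)) ∂(sph n) ≤ C) ∧
  ∀ v : sphere (0 : E n) 1, Tendsto (fun T : ℝ => T ^ ((n : ℝ) - 1) *
    ∫ v' : sphere (0 : E n) 1, curv X v' * Real.exp (-(T ^ 2 * ‖X v - X v'‖ ^ 2 / 4)) ∂(sph n)) atTop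
    (𝓝 ((4 * Real.pi) ^ (((n : ℝ) - 1) / 2)))

/-- Gaussian weighted energy -/
def StmtG8 : Prop := ∀ (n : ℕ), 2 ≤ n → ∀ (K : Set (E n)) (h : E n → ℝ) (X : E n → E n), Good K h X →
  (∃ C : ℝ, ∀ T : ℝ, 0 < T → T⁻¹ * ∫ ξ : E n, Real.exp (-(‖ξ‖ ^ 2 / T ^ 2)) * (‖ξ‖ ^ 2 * ‖FK K ξ‖ ^ 2) ≤ C) ∧
  ∀ η : ℝ, 0 < η → ∀ᶠ T : ℝ in atTop,
    T⁻¹ * ∫ ξ : E n, Real.exp (-(‖ξ‖ ^ 2 / T ^ 2)) * (‖ξ‖ ^ 2 * ‖FK K ξ‖ ^ 2) ≤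
      Real.sqrt Real.pi * (2 * Real.pi) ^ ((n : ℝ) - 1) * (∫ v : sphere (0 : E n) 1, curv X v ∂(sph n)) + η

/-- exponentially weighted energy -/
def StmtG9 : Prop := ∀ (n : ℕ), 2 ≤ n → ∀ (K : Set (E n)) (h : E n → ℝ) (X : E n → E n), Good K h X →
  ∀ η : ℝ, 0 < η → ∀ᶠ T : ℝ in atTop,
    T⁻¹ * ∫ ξ : E n, Real.exp (-(‖ξ‖ / T)) * (‖ξ‖ ^ 2 * ‖FK K ξ‖ ^ 2) ≤
      2 * (2 * Real.pi) ^ ((n : ℝ) - 1) * (∫ v : sphere (0 : E n) 1, curv X v ∂(sph n)) + η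

/-- the smoothed contribution of one boundary point -/
def StmtG10 : Prop := ∀ (n : ℕ), 2 ≤ n → ∀ (K : Set (E n)) (h : E n → ℝ) (X : E n → E n), Good K h X →
  (∃ C : ℝ, ∀ u : E n, ‖u‖ = 1 → ∀ T : ℝ, 0 < T →
    ‖((T ^ kap n : ℝ) : ℂ) * ∫ x in K, (Real.Gamma (kap n + 1) : ℂ) *
      (1 + Complex.I * ((T * (h u - ⟪x, u⟫) : ℝ) : ℂ)) ^ (-((kap n + 1 : ℝ) : ℂ))‖ ≤ C) ∧
  ∀ u : E n, ‖u‖ = 1 → Tendsto (fun T : ℝ => ((T ^ kap n : ℝ) : ℂ) * ∫ x in K, (Real.Gamma (kap n + 1) : ℂ) *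
      (1 + Complex.I * ((T * (h u - ⟪x, u⟫) : ℝ) : ℂ)) ^ (-((kap n + 1 : ℝ) : ℂ))) atTop
    (𝓝 ((cc n * Real.sqrt (curv X u) : ℝ) * Complex.exp (Complex.I * (ph n : ℂ))))

/-- averaged asymptotics of the Fourier transform -/
def StmtG11 : Prop := ∀ (n : ℕ), 2 ≤ n → ∀ (K : Set (E n)) (h : E n → ℝ) (X : E n → E n), Good K h X →
  (∀ T : ℝ, 0 < T → Integrable (fun ξ : E n => Real.exp (-(‖ξ‖ / T)) * (‖ξ‖ ^ 2 * ‖FK K ξ - Mhat h X ξ‖ ^ 2))) ∧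
  Tendsto (fun T : ℝ => T⁻¹ * ∫ ξ : E n, Real.exp (-(‖ξ‖ / T)) * (‖ξ‖ ^ 2 * ‖FK K ξ - Mhat h X ξ‖ ^ 2))
    atTop (𝓝 0)

end Pool.Agent.Helper890.Cov
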