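import Mathlib
import Pool.Agent.Helper890.Cov.StA
import Pool.Agent.Helper890.Cov.StB
import Pool.Agent.Helper890.Cov.StG

open MeasureTheory Set Filter Topology Metric
open scoped RealInnerProductSpace Pointwise

namespace Pool.Agent.Helper890.Cov

/-- the covariogram `g_K(x) = vol (K ∩ (K + x))` -/
noncomputable def covg {n : ℕ} (K : Set (E n)) (x : E n) : ℝ :=
  (volume : Measure (E n)).real (K ∩ (fun y => y + x) '' K)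

/-- the covariogram determines the product of the transforms at opposite complex frequencies -/
def StmtF0 : Prop := ∀ (n : ℕ), 1 ≤ n → ∀ (K H : Set (E n)), IsCompact K → IsCompact H →
  (∀ x, covg K x = covg H x) → ∀ L : E n →L[ℝ] ℂ,
  (∫ x in K, Complex.exp (Complex.I * L x)) * (∫ x in K, Complex.exp (-(Complex.I * L x))) =
  (∫ x in H, Complex.exp (Complex.I * L x)) * (∫ x in H, Complex.exp (-(Complex.I * L x)))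

/-- equality of widths -/
def StmtF1 : Prop := ∀ (n : ℕ), 2 ≤ n → ∀ (K H : Set (E n)) (hK hH : E n → ℝ) (XK XH : E n → E n),
  Good K hK XK → Good H hH XH → (∀ x, covg K x = covg H x) →
  ∀ u, u ≠ 0 → hK u + hK (-u) = hH u + hH (-u)

/-- equality of sums and products of curvature functions at opposite directions -/
def StmtF3 : Prop := ∀ (n : ℕ), 2 ≤ n → ∀ (K H : Set (E n)) (hK hH : E n → ℝ) (XK XH : E n → E n),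
  Good K hK XK → Good H hH XH → (∀ x, covg K x = covg H x) →
  ∀ u, u ≠ 0 → curv XK u + curv XK (-u) = curv XH u + curv XH (-u) ∧
    curv XK u * curv XK (-u) = curv XH u * curv XH (-u)

/-- entire functions of two variables attached to a plane -/
noncomputable def F2 {n : ℕ} (K : Set (E n)) (a b : E n) (p : ℂ × ℂ) : ℂ :=
  ∫ x in K, Complex.exp (Complex.I * (p.2 * (p.1 * ((⟪a, x⟫ : ℝ) : ℂ) + (1 + p.1 ^ 2) / 2 * ((⟪b, x⟫ : ℝ) : ℂ))))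

def StmtF2 : Prop := ∀ (n : ℕ) (K : Set (E n)) (a b : E n), IsCompact K → Differentiable ℂ (F2 K a b)

/-- push forward of the volume of `K` to a line -/
noncomputable def nuz {n : ℕ} (K : Set (E n)) (z : E n) : Measure ℝ :=
  ((volume : Measure (E n)).restrict K).map (fun x => ⟪z, x⟫)

/-- amplitude -/
noncomputable def amp {n : ℕ} (X : E n → E n) (z : E n) : ℝ :=
  cc n * ‖z‖ ^ (-kap n) * Real.sqrt (curv X z)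

def StmtL1 : Prop := ∀ (n : ℕ), 2 ≤ n → ∀ (K : Set (E n)) (h : E n → ℝ) (X : E n → E n), Good K h X →
  ∀ C : Set (E n), IsCompact C → (0 : E n) ∉ C → ∃ p P : ℝ, 0 < p ∧ ∀ z ∈ C,
    LineData p P (nuz K z) (h z) (h (-z)) (amp X z) (amp X (-z))

def StmtL2 : Prop := ∀ (n : ℕ), 2 ≤ n → ∀ (K : Set (E n)) (h : E n → ℝ) (X : E n → E n), Good K h X →
  (∀ (z : E n) (t : ℂ), FT (nuz K z) t = ∫ x in K, Complex.exp (Complex.I * (t * ((⟪z, x⟫ : ℝ) : ℂ)))) ∧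
  ∀ z : E n, z ≠ 0 → ∀ R : ℝ, 0 ≤ R →
    errI (kap n) (ph n) (nuz K z) (h z) (h (-z)) (amp X z) (amp X (-z)) R =
      ∫ t in (0 : ℝ)..(2 * R), t ^ (n + 1) * ‖FK K (t • z) - Mhat h X (t • z)‖ ^ 2

/-- selection of a good plane -/
def StmtZ1 : Prop := ∀ (n : ℕ), 2 ≤ n → ∀ (G : E n → ℝ) (C : ℝ), (∀ ξ, 0 ≤ G ξ) → ContinuousOn G {0}ᶜ →
  (∀ ξ, ξ ≠ 0 → ‖ξ‖ ^ (n + 1) * G ξ ≤ C * (1 + ‖ξ‖ ^ (n + 1))) →
  (∀ T : ℝ, 0 < T → Integrable (fun ξ : E n => Real.exp (-(‖ξ‖ / T)) * (‖ξ‖ ^ 2 * G ξ))) →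
  Tendsto (fun T : ℝ => T⁻¹ * ∫ ξ : E n, Real.exp (-(‖ξ‖ / T)) * (‖ξ‖ ^ 2 * G ξ)) atTop (𝓝 0) →
  ∀ (a₀ b₀ : E n) (r : ℝ), 0 < r →
  (∀ a ∈ closedBall a₀ r, ∀ b ∈ closedBall b₀ r, ∀ s ∈ Icc (-1 : ℝ) 1, a + s • b ≠ 0 ∧ b ≠ 0) →
  ∀ ε : ℝ, 0 < ε → ∃ R₀ : ℝ, 0 < R₀ ∧ ∀ R : ℝ, R₀ ≤ R → ∃ a ∈ ball a₀ r, ∃ b ∈ ball b₀ r,
    (∫ t in (0 : ℝ)..(2 * R), t ^ (n + 1) * G (t • ((1 / 2 : ℝ) • b))) ≤ ε * R ∧
    Real.circleAverage (fun v : ℂ => ∫ t in (0 : ℝ)..(2 * R), t ^ (n + 1) * G (t • (a + v.re • b))) 0 1 ≤ ε * R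

/-- continuity of the error in the direction -/
def StmtZ2 : Prop := ∀ (n : ℕ), 2 ≤ n → ∀ (G : E n → ℝ) (C : ℝ), (∀ ξ, 0 ≤ G ξ) → ContinuousOn G {0}ᶜ →
  (∀ ξ, ξ ≠ 0 → ‖ξ‖ ^ (n + 1) * G ξ ≤ C * (1 + ‖ξ‖ ^ (n + 1))) →
  ∀ (a b : E n) (R : ℝ), 0 < R → (∀ s ∈ Icc (-1 : ℝ) 1, a + s • b ≠ 0) →
  ContinuousOn (fun v : ℂ => ∫ t in (0 : ℝ)..(2 * R), t ^ (n + 1) * G (t • (a + v.re • b))) (sphere 0 1)

/-- regularity of the error function -/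
def StmtZ0 : Prop := ∀ (n : ℕ), 2 ≤ n → ∀ (K : Set (E n)) (h : E n → ℝ) (X : E n → E n), Good K h X →
  ContinuousOn (fun ξ => ‖FK K ξ - Mhat h X ξ‖ ^ 2) {0}ᶜ ∧
  ∃ C : ℝ, ∀ ξ : E n, ξ ≠ 0 → ‖ξ‖ ^ (n + 1) * ‖FK K ξ - Mhat h X ξ‖ ^ 2 ≤ C * (1 + ‖ξ‖ ^ (n + 1))

/-- matched and swapped directions do not both occur -/
def StmtZ : Prop := ∀ (n : ℕ), 2 ≤ n → ∀ (K H : Set (E n)) (hK hH : E n → ℝ) (XK XH : E n → E n),
  Good K hK XK → Good H hH XH → (∀ x, covg K x = covg H x) →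
  ¬ ∃ u₁ u₂ : E n, u₁ ≠ 0 ∧ u₂ ≠ 0 ∧ curv XH u₁ = curv XK u₁ ∧ curv XK u₁ ≠ curv XK (-u₁) ∧
    curv XH u₂ = curv XK (-u₂) ∧ curv XK u₂ ≠ curv XK (-u₂)

/-- linear algebra: trace inequality -/
def StmtM2 : Prop := ∀ (n : ℕ), 1 ≤ n → ∀ (B₁ B₂ C : E n →L[ℝ] E n),
  (∀ w w', ⟪B₁ w, w'⟫ = ⟪w, B₁ w'⟫) → (∀ w w', ⟪B₂ w, w'⟫ = ⟪w, B₂ w'⟫) →
  (∀ w, w ≠ 0 → 0 < ⟪B₁ w, w⟫) → (∀ w, w ≠ 0 → 0 < ⟪B₂ w, w⟫) → B₁.det = B₂.det → C.comp B₂ = B₁ →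
  (n : ℝ) ≤ LinearMap.trace ℝ (E n) (C : E n →ₗ[ℝ] E n) ∧
    (LinearMap.trace ℝ (E n) (C : E n →ₗ[ℝ] E n) = n → B₁ = B₂)

/-- integration by parts identity for mixed volumes -/
def StmtM1 : Prop := ∀ (n : ℕ), 2 ≤ n → ∀ (K H : Set (E n)) (hK hH : E n → ℝ) (XK XH : E n → E n),
  Good K hK XK → Good H hH XH →
  (n : ℝ) * ∫ v : sphere (0 : E n) 1, hK v * curv XH v ∂(sph n) =
    ∫ v : sphere (0 : E n) 1, (hK v + hH v * (LinearMap.trace ℝ (E n)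
      (((BB XK v).comp (ContinuousLinearMap.inverse (BB XH v)) : E n →L[ℝ] E n) : E n →ₗ[ℝ] E n) - 1)) *
      curv XH v ∂(sph n)

/-- uniqueness in the Minkowski problem -/
def StmtM : Prop := ∀ (n : ℕ), 2 ≤ n → ∀ (K H : Set (E n)) (hK hH : E n → ℝ) (XK XH : E n → E n),
  Good K hK XK → Good H hH XH → (∀ u, u ≠ 0 → curv XK u = curv XH u) →
  ∃ z : E n, H = (fun x => x + z) '' K

/-- the theorem for bodies containing the origin in the interior -/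
def StmtT : Prop := ∀ (n : ℕ), 2 ≤ n → ∀ (K H : Set (E n)) (hK hH : E n → ℝ) (XK XH : E n → E n),
  Good K hK XK → Good H hH XH → (∀ x, covg K x = covg H x) →
  ∃ z : E n, H = (fun x => x + z) '' K ∨ H = (fun x => -x + z) '' K

/-- the boundary is a `C^2` hypersurface with positive principal curvatures -/
def BdryC2Plus {n : ℕ} (K : Set (E n)) : Prop := ∀ p ∈ frontier K, ∃ ρ : E n → ℝ,
  ContDiffAt ℝ 2 ρ p ∧ fderiv ℝ ρ p ≠ 0 ∧ (∀ᶠ x in 𝓝 p, x ∈ K ↔ ρ x ≤ 0) ∧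
  ∀ w, w ≠ 0 → fderiv ℝ ρ p w = 0 → 0 < fderiv ℝ (fderiv ℝ ρ) p w w

/-- from the boundary description to the support function -/
def StmtS : Prop := ∀ (n : ℕ), 2 ≤ n → ∀ K : Set (E n), IsCompact K → Convex ℝ K → (interior K).Nonempty →
  BdryC2Plus K → ContDiffOn ℝ 2 (sf K) {0}ᶜ ∧
  ∀ u, u ≠ 0 → ∀ w, w ≠ 0 → ⟪w, u⟫ = 0 → 0 < ⟪fderiv ℝ (gradient (sf K)) u w, w⟫

end Pool.Agent.Helper890.Cov
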