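import Mathlib
import Pool.Agent.Helper890.Cov.StA
import Pool.Agent.Helper890.Cov.StB
import Pool.Agent.Helper890.Cov.StG
import Pool.Agent.Helper890.Cov.StF




namespace Pool.Agent.Helper890.Cov.JF0
open MeasureTheory Set Filter Topology Metric
open scoped RealInnerProductSpace

theorem prod_eq_352 {n : ℕ} (K : Set (E n)) (hK : IsCompact K) (L : E n →L[ℝ] ℂ) :
    (∫ x in K, Complex.exp (Complex.I * L x)) * (∫ x in K, Complex.exp (-(Complex.I * L x))) =
      ∫ z, (covg K z) • Complex.exp (Complex.I * L z) := by
  have hKm : MeasurableSet K := hK.measurableSet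
  set f : E n → ℂ := K.indicator (fun x => Complex.exp (Complex.I * L x)) with hf
  set G : E n → ℂ := K.indicator (fun x => Complex.exp (-(Complex.I * L x))) with hG
  have hfi : Integrable f := by
    rw [hf, integrable_indicator_iff hKm]
    exact (Continuous.continuousOn (by fun_prop)).integrableOn_compact hK
  have hGi : Integrable G := by
    rw [hG, integrable_indicator_iff hKm]
    exact (Continuous.continuousOn (by fun_prop)).integrableOn_compact hK
  have hg : Integrable (fun x => G (-x)) := hGi.comp_neg
  have h1 := integral_convolution (ContinuousLinearMap.mul ℝ ℂ) hfi hg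
  rw [integral_neg_eq_self G] at h1
  have h2 : (∫ x, f x) = ∫ x in K, Complex.exp (Complex.I * L x) := integral_indicator hKm
  have h3 : (∫ x, G x) = ∫ x in K, Complex.exp (-(Complex.I * L x)) := integral_indicator hKm
  rw [ContinuousLinearMap.mul_apply', h2, h3] at h1
  rw [← h1]
  refine integral_congr_ae (Filter.Eventually.of_forall fun z => ?_)
  show (∫ t, (ContinuousLinearMap.mul ℝ ℂ) (f t) (G (-(z - t)))) =
    (covg K z) • Complex.exp (Complex.I * L z)
  have hAm : MeasurableSet (K ∩ (fun y => y + z) '' K) :=
    hKm.inter (hK.image (continuous_id.add continuous_const)).measurableSet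
  have h4 : (fun t => (ContinuousLinearMap.mul ℝ ℂ) (f t) (G (-(z - t)))) =
      (K ∩ (fun y => y + z) '' K).indicator (fun _ => Complex.exp (Complex.I * L z)) := by
    funext t
    rw [ContinuousLinearMap.mul_apply', neg_sub]
    have hmem : t - z ∈ K ↔ t ∈ (fun y => y + z) '' K := by
      constructor
      · intro h
        exact ⟨t - z, h, sub_add_cancel t z⟩
      · rintro ⟨y, hy, rfl⟩
        simpa using hy
    by_cases ht : t ∈ K
    · by_cases ht2 : t - z ∈ K
      · rw [Set.indicator_of_mem (show t ∈ K ∩ (fun y => y + z) '' K from ⟨ht, hmem.1 ht2⟩), hf, hG,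
          Set.indicator_of_mem ht, Set.indicator_of_mem ht2, ← Complex.exp_add, map_sub]
        congr 1
        ring
      · rw [Set.indicator_of_notMem (fun h => ht2 (hmem.2 h.2)), hG,
          Set.indicator_of_notMem ht2, mul_zero]
    · rw [Set.indicator_of_notMem (fun h => ht h.1), hf, Set.indicator_of_notMem ht, zero_mul]
  rw [h4, integral_indicator_const _ hAm]
  rfl

theorem stF0 : StmtF0 := by
  intro n hn K H hK hH hc L
  rw [prod_eq_352 K hK L, prod_eq_352 H hH L]
  refine integral_congr_ae (Filter.Eventually.of_forall fun z => ?_)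
  show (covg K z) • Complex.exp (Complex.I * L z) = (covg H z) • Complex.exp (Complex.I * L z)
  rw [hc z]

end Pool.Agent.Helper890.Cov.JF0
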