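import Mathlib
import Pool.Agent.Helper890.Cov.StA
import Pool.Agent.Helper890.Cov.StB
import Pool.Agent.Helper890.Cov.StG
import Pool.Agent.Helper890.Cov.StF




namespace Pool.Agent.Helper890.Cov.JF1
open MeasureTheory Set Filter Topology Metric
open scoped RealInnerProductSpace

theorem stF1_pos {n : ℕ} {K : Set (E n)} {h : E n → ℝ} {X : E n → E n} (G : Good K h X)
    (a b : E n) (ha : a ∈ K) (hb : b ∈ K) (t : ℝ) (h0 : 0 ≤ t) (h1 : t < 1) :
    0 < covg K (t • (a - b)) := by
  have hint : ∀ c ∈ K, t • c ∈ interior K := by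
    intro c hc
    have h2 := G.convex.add_smul_mem_interior hc (y := -c) (by rw [add_neg_cancel]; exact G.zero_mem)
      (t := 1 - t) ⟨by linarith, by linarith⟩
    have e : c + (1 - t) • (-c) = t • c := by
      rw [sub_smul, one_smul, smul_neg]; abel
    rwa [e] at h2
  set x := t • (a - b) with hx
  set S : Set (E n) := interior K ∩ (fun y => y + x) '' interior K with hS
  have hSo : IsOpen S := isOpen_interior.inter ((Homeomorph.addRight x).isOpenMap _ isOpen_interior)
  have hSn : S.Nonempty := by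
    refine ⟨t • a, hint a ha, t • b, hint b hb, ?_⟩
    show t • b + x = t • a
    rw [hx, smul_sub]; abel
  have hsub : S ⊆ K ∩ (fun y => y + x) '' K :=
    inter_subset_inter interior_subset (image_mono interior_subset)
  have hpos : 0 < (volume : Measure (E n)) (K ∩ (fun y => y + x) '' K) :=
    lt_of_lt_of_le (hSo.measure_pos volume hSn) (measure_mono hsub)
  have hfin : (volume : Measure (E n)) (K ∩ (fun y => y + x) '' K) ≠ ⊤ :=
    ((measure_mono inter_subset_left).trans_lt G.compact.measure_lt_top).ne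
  unfold covg
  exact ENNReal.toReal_pos hpos.ne' hfin

theorem stF1_le {n : ℕ} {K H : Set (E n)} {hK hH : E n → ℝ} {XK XH : E n → E n}
    (GK : Good K hK XK) (GH : Good H hH XH) (hc : ∀ x, covg K x = covg H x) (u : E n) (hu : u ≠ 0) :
    hK u + hK (-u) ≤ hH u + hH (-u) := by
  have hnu : -u ≠ 0 := neg_ne_zero.2 hu
  have hw : hK u + hK (-u) = ⟪XK u - XK (-u), u⟫ := by
    rw [← GK.eq u hu, ← GK.eq (-u) hnu, inner_sub_left, inner_neg_right]; ring
  have key : ∀ t : ℝ, 0 ≤ t → t < 1 → t * (hK u + hK (-u)) ≤ hH u + hH (-u) := by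
    intro t h0 h1
    have hpos := stF1_pos GK (XK u) (XK (-u)) (GK.mem u hu) (GK.mem (-u) hnu) t h0 h1
    rw [hc] at hpos
    have hne : (H ∩ (fun y => y + t • (XK u - XK (-u))) '' H).Nonempty := by
      by_contra hcon
      rw [Set.not_nonempty_iff_eq_empty] at hcon
      unfold covg at hpos
      rw [hcon] at hpos
      simp at hpos
    obtain ⟨y, hy, z, hz, hzy⟩ := hne
    have e1 : ⟪y, u⟫ ≤ hH u := GH.le y hy u
    have e2 : ⟪z, -u⟫ ≤ hH (-u) := GH.le z hz (-u)
    have e3 : ⟪y, u⟫ = ⟪z, u⟫ + t * ⟪XK u - XK (-u), u⟫ := by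
      rw [← hzy, inner_add_left, real_inner_smul_left]
    rw [inner_neg_right] at e2
    rw [hw]
    linarith
  have hd : 0 ≤ hH u + hH (-u) := by
    have := key 0 le_rfl one_pos
    linarith
  by_contra hcon
  rw [not_le] at hcon
  set c := hK u + hK (-u)
  set d := hH u + hH (-u)
  have hc0 : 0 < c := lt_of_le_of_lt hd hcon
  have h2 := key ((c + d) / (2 * c)) (by positivity) (by rw [div_lt_one (by positivity)]; linarith)
  have e : (c + d) / (2 * c) * c = (c + d) / 2 := by field_simp
  rw [e] at h2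
  linarith

theorem stF1 : StmtF1 := by
  intro n _ K H hK hH XK XH GK GH hc u hu
  exact le_antisymm (stF1_le GK GH hc u hu) (stF1_le GH GK (fun x => (hc x).symm) u hu)

end Pool.Agent.Helper890.Cov.JF1
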