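import Mathlib
import Pool.Agent.Helper890.Cov.StA
import Pool.Agent.Helper890.Cov.StB
import Pool.Agent.Helper890.Cov.StG
import Pool.Agent.Helper890.Cov.StF




namespace Pool.Agent.Helper890.Cov.JF2
open MeasureTheory Set Filter Topology Metric
open scoped RealInnerProductSpace

/-- the integrand -/
noncomputable def stF2_f (A B : ℝ) (p : ℂ × ℂ) : ℂ :=
  Complex.exp (Complex.I * (p.2 * (p.1 * (A : ℂ) + (1 + p.1 ^ 2) / 2 * (B : ℂ))))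

/-- the derivative of the integrand -/
noncomputable def stF2_L (A B : ℝ) (p : ℂ × ℂ) : ℂ × ℂ →L[ℂ] ℂ :=
  (stF2_f A B p * (Complex.I * (p.2 * ((A : ℂ) + p.1 * (B : ℂ))))) • ContinuousLinearMap.fst ℂ ℂ ℂ +
    (stF2_f A B p * (Complex.I * (p.1 * (A : ℂ) + (1 + p.1 ^ 2) / 2 * (B : ℂ)))) •
      ContinuousLinearMap.snd ℂ ℂ ℂ

theorem stF2_deriv (A B : ℝ) (p : ℂ × ℂ) : HasFDerivAt (stF2_f A B) (stF2_L A B p) p := by
  have h1 : HasFDerivAt (fun p : ℂ × ℂ => p.1) (ContinuousLinearMap.fst ℂ ℂ ℂ) p := hasFDerivAt_fst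
  have h2 : HasFDerivAt (fun p : ℂ × ℂ => p.2) (ContinuousLinearMap.snd ℂ ℂ ℂ) p := hasFDerivAt_snd
  have h3a : HasFDerivAt (fun p : ℂ × ℂ => p.1 * (A : ℂ)) ((A : ℂ) • ContinuousLinearMap.fst ℂ ℂ ℂ) p :=
    h1.mul_const (A : ℂ)
  have h3b : HasFDerivAt (fun p : ℂ × ℂ => p.1 * p.1)
      (p.1 • ContinuousLinearMap.fst ℂ ℂ ℂ + p.1 • ContinuousLinearMap.fst ℂ ℂ ℂ) p :=
    h1.mul h1
  have h3c : HasFDerivAt (fun p : ℂ × ℂ => 1 + p.1 * p.1)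
      (p.1 • ContinuousLinearMap.fst ℂ ℂ ℂ + p.1 • ContinuousLinearMap.fst ℂ ℂ ℂ) p :=
    h3b.const_add 1
  have h3d := (h3c.mul_const (1 / 2 : ℂ)).mul_const (B : ℂ)
  have h3 := h3a.add h3d
  have h4 := ((h2.mul h3).const_mul Complex.I).cexp
  have e1 : (fun x : ℂ × ℂ => Complex.exp (Complex.I * (x.2 * (x.1 * (A : ℂ) +
      (1 + x.1 * x.1) * (1 / 2 : ℂ) * (B : ℂ))))) = stF2_f A B := by
    funext x
    unfold stF2_f
    congr 1
    ring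
  have e2 : Complex.exp (Complex.I * (p.2 * (p.1 * (A : ℂ) +
      (1 + p.1 * p.1) * (1 / 2 : ℂ) * (B : ℂ)))) = stF2_f A B p := congrFun e1 p
  have h5 : HasFDerivAt (fun x : ℂ × ℂ => Complex.exp (Complex.I * (x.2 * (x.1 * (A : ℂ) +
      (1 + x.1 * x.1) * (1 / 2 : ℂ) * (B : ℂ))))) (stF2_L A B p) p := by
    refine HasFDerivAt.congr_fderiv h4 ?_
    apply ContinuousLinearMap.ext
    intro q
    unfold stF2_L
    rw [← e2]
    simp only [_root_.add_apply, _root_.smul_apply, smul_eq_mul,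
      ContinuousLinearMap.coe_fst', ContinuousLinearMap.coe_snd', Pi.add_apply, Pi.mul_apply]
    ring
  rw [e1] at h5
  exact h5

theorem stF2_cont {n : ℕ} (a b : E n) :
    Continuous (fun q : (ℂ × ℂ) × E n => stF2_f ⟪a, q.2⟫ ⟪b, q.2⟫ q.1) := by
  unfold stF2_f
  fun_prop

theorem stF2_contL {n : ℕ} (a b : E n) :
    Continuous (fun q : (ℂ × ℂ) × E n => stF2_L ⟪a, q.2⟫ ⟪b, q.2⟫ q.1) := by
  have h := stF2_cont a b
  have h1 : Continuous (fun q : (ℂ × ℂ) × E n => stF2_f ⟪a, q.2⟫ ⟪b, q.2⟫ q.1 *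
      (Complex.I * (q.1.2 * (((⟪a, q.2⟫ : ℝ) : ℂ) + q.1.1 * ((⟪b, q.2⟫ : ℝ) : ℂ))))) :=
    h.mul (by fun_prop)
  have h2 : Continuous (fun q : (ℂ × ℂ) × E n => stF2_f ⟪a, q.2⟫ ⟪b, q.2⟫ q.1 *
      (Complex.I * (q.1.1 * ((⟪a, q.2⟫ : ℝ) : ℂ) + (1 + q.1.1 ^ 2) / 2 * ((⟪b, q.2⟫ : ℝ) : ℂ)))) :=
    h.mul (by fun_prop)
  exact (h1.smul continuous_const).add (h2.smul continuous_const)

theorem stF2_hx {n : ℕ} (a b : E n) (p : ℂ × ℂ) :
    Continuous (fun x : E n => stF2_f ⟪a, x⟫ ⟪b, x⟫ p) := by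
  unfold stF2_f
  fun_prop

theorem stF2_hxL {n : ℕ} (a b : E n) (p : ℂ × ℂ) :
    Continuous (fun x : E n => stF2_L ⟪a, x⟫ ⟪b, x⟫ p) := by
  have h := stF2_hx a b p
  have h1 : Continuous (fun x : E n => stF2_f ⟪a, x⟫ ⟪b, x⟫ p *
      (Complex.I * (p.2 * (((⟪a, x⟫ : ℝ) : ℂ) + p.1 * ((⟪b, x⟫ : ℝ) : ℂ))))) :=
    h.mul (by fun_prop)
  have h2 : Continuous (fun x : E n => stF2_f ⟪a, x⟫ ⟪b, x⟫ p *
      (Complex.I * (p.1 * ((⟪a, x⟫ : ℝ) : ℂ) + (1 + p.1 ^ 2) / 2 * ((⟪b, x⟫ : ℝ) : ℂ)))) :=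
    h.mul (by fun_prop)
  exact (h1.smul continuous_const).add (h2.smul continuous_const)

theorem stF2_main (n : ℕ) (K : Set (E n)) (a b : E n) (hK : IsCompact K) :
    Differentiable ℂ (fun p : ℂ × ℂ => ∫ x in K, stF2_f ⟪a, x⟫ ⟪b, x⟫ p) := by
  intro p₀
  have hfin : IsFiniteMeasure ((volume : Measure (E n)).restrict K) :=
    ⟨by simpa using hK.measure_lt_top⟩
  obtain ⟨C, hC⟩ := ((isCompact_closedBall p₀ 1).prod hK).exists_bound_of_continuousOn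
    (stF2_contL a b).continuousOn
  have hx := stF2_hx a b
  have hx' := stF2_hxL a b
  have a1 : ∀ᶠ p in 𝓝 p₀, AEStronglyMeasurable (fun x : E n => stF2_f ⟪a, x⟫ ⟪b, x⟫ p)
      ((volume : Measure (E n)).restrict K) :=
    Eventually.of_forall fun p => (hx p).aestronglyMeasurable
  have a2 : Integrable (fun x : E n => stF2_f ⟪a, x⟫ ⟪b, x⟫ p₀)
      ((volume : Measure (E n)).restrict K) := (hx p₀).continuousOn.integrableOn_compact hK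
  have a3 : AEStronglyMeasurable (fun x : E n => stF2_L ⟪a, x⟫ ⟪b, x⟫ p₀)
      ((volume : Measure (E n)).restrict K) := (hx' p₀).aestronglyMeasurable
  have a4 : ∀ᵐ x ∂((volume : Measure (E n)).restrict K), ∀ p ∈ closedBall p₀ 1,
      ‖stF2_L ⟪a, x⟫ ⟪b, x⟫ p‖ ≤ C := by
    refine ae_restrict_of_forall_mem hK.measurableSet ?_
    intro x hxK p hp
    exact hC (p, x) ⟨hp, hxK⟩
  have a5 : Integrable (fun _ : E n => C) ((volume : Measure (E n)).restrict K) :=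
    integrable_const C
  have a6 : ∀ᵐ x ∂((volume : Measure (E n)).restrict K), ∀ p ∈ closedBall p₀ 1,
      HasFDerivAt (fun q => stF2_f ⟪a, x⟫ ⟪b, x⟫ q) (stF2_L ⟪a, x⟫ ⟪b, x⟫ p) p := by
    refine ae_restrict_of_forall_mem hK.measurableSet ?_
    intro x hxK p hp
    exact stF2_deriv _ _ p
  have h := hasFDerivAt_integral_of_dominated_of_fderiv_le (𝕜 := ℂ)
    (μ := (volume : Measure (E n)).restrict K)
    (F := fun (p : ℂ × ℂ) (x : E n) => stF2_f ⟪a, x⟫ ⟪b, x⟫ p)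
    (F' := fun (p : ℂ × ℂ) (x : E n) => stF2_L ⟪a, x⟫ ⟪b, x⟫ p) (x₀ := p₀)
    (s := closedBall p₀ 1) (bound := fun _ => C) (closedBall_mem_nhds p₀ one_pos)
    a1 a2 a3 a4 a5 a6
  exact h.differentiableAt

theorem stF2 : StmtF2 := by
  intro n K a b hK
  have e : F2 K a b = fun p : ℂ × ℂ => ∫ x in K, stF2_f ⟪a, x⟫ ⟪b, x⟫ p := by
    funext p
    rfl
  rw [e]
  exact stF2_main n K a b hK

end Pool.Agent.Helper890.Cov.JF2
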