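import Mathlib
import Pool.Agent.Helper890.Cov.StA
import Pool.Agent.Helper890.Cov.StB
import Pool.Agent.Helper890.Cov.StG
import Pool.Agent.Helper890.Cov.StF




namespace Pool.Agent.Helper890.Cov.JF3
open MeasureTheory Set Filter Topology Metric
open scoped RealInnerProductSpace

theorem stF3_normsq (x y A B : ℝ) :
    ‖(x : ℂ) * Complex.exp (Complex.I * (A : ℂ)) +
      (y : ℂ) * Complex.exp (-(Complex.I * (B : ℂ)))‖ ^ 2 =
      x ^ 2 + y ^ 2 + 2 * x * y * Real.cos (A + B) := by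
  have h1 := Real.sin_sq_add_cos_sq A
  have h2 := Real.sin_sq_add_cos_sq B
  have r1 : (Complex.exp (Complex.I * (A : ℂ))).re = Real.cos A := by simp [Complex.exp_re]
  have r2 : (Complex.exp (Complex.I * (A : ℂ))).im = Real.sin A := by simp [Complex.exp_im]
  have r3 : (Complex.exp (-(Complex.I * (B : ℂ)))).re = Real.cos B := by simp [Complex.exp_re]
  have r4 : (Complex.exp (-(Complex.I * (B : ℂ)))).im = -Real.sin B := by simp [Complex.exp_im]
  rw [← Complex.normSq_eq_norm_sq, Complex.normSq_apply]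
  rw [Complex.add_re, Complex.add_im, Complex.re_ofReal_mul, Complex.re_ofReal_mul,
    Complex.im_ofReal_mul, Complex.im_ofReal_mul, r1, r2, r3, r4, Real.cos_add]
  linear_combination x ^ 2 * h1 + y ^ 2 * h2

theorem stF3_FK {n : ℕ} (h0 : StmtF0) (hn : 1 ≤ n) (K H : Set (E n)) (hK : IsCompact K)
    (hH : IsCompact H) (hcov : ∀ x, covg K x = covg H x) (ξ : E n) : ‖FK K ξ‖ = ‖FK H ξ‖ := by
  have h := h0 n hn K H hK hH hcov (Complex.ofRealCLM.comp (innerSL ℝ ξ))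
  have e1 : ∀ S : Set (E n), ∫ x in S, Complex.exp
      (-(Complex.I * (Complex.ofRealCLM.comp (innerSL ℝ ξ)) x)) = (starRingEnd ℂ) (FK S ξ) := by
    intro S
    unfold FK
    rw [← integral_conj]
    congr 1
    funext x
    rw [← Complex.exp_conj]
    congr 1
    simp
  have e2 : ∀ S : Set (E n), ∫ x in S, Complex.exp
      (Complex.I * (Complex.ofRealCLM.comp (innerSL ℝ ξ)) x) = FK S ξ := by
    intro S
    rfl
  rw [e2, e1, e2, e1, Complex.mul_conj, Complex.mul_conj] at h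
  have h' : Complex.normSq (FK K ξ) = Complex.normSq (FK H ξ) := by exact_mod_cast h
  rw [Complex.normSq_eq_norm_sq, Complex.normSq_eq_norm_sq] at h'
  exact (sq_eq_sq₀ (norm_nonneg _) (norm_nonneg _)).1 h'

theorem stF3_Mhat {n : ℕ} (h : E n → ℝ) (X : E n → E n) (ξ : E n)
    (h1 : 0 ≤ curv X ξ) (h2 : 0 ≤ curv X (-ξ)) :
    ‖Mhat h X ξ‖ ^ 2 = (cc n * ‖ξ‖ ^ (-kap n)) ^ 2 * (curv X ξ + curv X (-ξ) +
      2 * (√(curv X ξ) * √(curv X (-ξ))) * Real.cos (h ξ + h (-ξ) + 2 * ph n)) := by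
  unfold Mhat
  have e : h ξ + ph n + (h (-ξ) + ph n) = h ξ + h (-ξ) + 2 * ph n := by ring
  rw [norm_mul, mul_pow, Complex.norm_real, stF3_normsq, Real.sq_sqrt h1, Real.sq_sqrt h2,
    Real.norm_eq_abs, sq_abs, e]
  ring

theorem stF3_rpow {n : ℕ} (t : ℝ) (ht : 0 < t) : (t ^ (-kap n)) ^ 2 * t ^ (n + 1) = 1 := by
  rw [← Real.rpow_natCast (t ^ (-kap n)) 2, ← Real.rpow_mul ht.le,
    show -kap n * ((2 : ℕ) : ℝ) = -((n + 1 : ℕ) : ℝ) by unfold kap; push_cast; ring,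
    Real.rpow_neg ht.le, Real.rpow_natCast, inv_mul_cancel₀ (by positivity)]

theorem stF3_alg {mK mH f eK eH c SK SH S0 : ℝ} (hc : 0 < c) (m1 : 0 ≤ mK) (m2 : 0 ≤ mH)
    (hK : |mK - f| ≤ eK) (hH : |mH - f| ≤ eH) (h1 : mK ^ 2 = c ^ 2 * SK)
    (h2 : mH ^ 2 = c ^ 2 * SH) (hS : SK + SH ≤ S0) :
    c ^ 2 * (SK - SH) ^ 2 ≤ 4 * S0 * (eK ^ 2 + eH ^ 2) := by
  have a1 : (mK ^ 2 - mH ^ 2) ^ 2 = (mK - mH) ^ 2 * (mK + mH) ^ 2 := by ring
  have e0 : 0 ≤ eK := (abs_nonneg _).trans hK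
  have e0' : 0 ≤ eH := (abs_nonneg _).trans hH
  have a2 : (mK - mH) ^ 2 ≤ 2 * (eK ^ 2 + eH ^ 2) := by
    have b1 : |mK - mH| ≤ eK + eH := by
      have : mK - mH = (mK - f) - (mH - f) := by ring
      rw [this]
      exact (abs_sub _ _).trans (add_le_add hK hH)
    have b2 : (mK - mH) ^ 2 ≤ (eK + eH) ^ 2 := by
      rw [← sq_abs (mK - mH)]
      exact pow_le_pow_left₀ (abs_nonneg _) b1 2
    nlinarith [sq_nonneg (eK - eH)]
  have a3 : (mK + mH) ^ 2 ≤ 2 * (c ^ 2 * S0) := by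
    have b1 : (mK + mH) ^ 2 ≤ 2 * (mK ^ 2 + mH ^ 2) := by nlinarith [sq_nonneg (mK - mH)]
    have b2 : mK ^ 2 + mH ^ 2 = c ^ 2 * (SK + SH) := by rw [h1, h2]; ring
    have b3 : c ^ 2 * (SK + SH) ≤ c ^ 2 * S0 := mul_le_mul_of_nonneg_left hS (by positivity)
    linarith
  have a4 : (c ^ 2) * (c ^ 2 * (SK - SH) ^ 2) ≤ c ^ 2 * (4 * S0 * (eK ^ 2 + eH ^ 2)) := by
    calc (c ^ 2) * (c ^ 2 * (SK - SH) ^ 2) = (mK ^ 2 - mH ^ 2) ^ 2 := by rw [h1, h2]; ring
      _ = (mK - mH) ^ 2 * (mK + mH) ^ 2 := a1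
      _ ≤ (2 * (eK ^ 2 + eH ^ 2)) * (2 * (c ^ 2 * S0)) :=
        mul_le_mul a2 a3 (sq_nonneg _) (by positivity)
      _ = _ := by ring
  exact le_of_mul_le_mul_left a4 (by positivity)

theorem stF3_bdd {n : ℕ} (F : E n → ℝ) (hF : ContinuousOn F {0}ᶜ)
    (hom : ∀ (r : ℝ) (u : E n), 0 < r → u ≠ 0 → F (r • u) = F u) :
    ∃ C, ∀ u, u ≠ 0 → |F u| ≤ C := by
  have hsub : sphere (0 : E n) 1 ⊆ {0}ᶜ := by
    intro x hx h
    rw [mem_singleton_iff] at h
    rw [h] at hx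
    simp at hx
  obtain ⟨C, hC⟩ := (isCompact_sphere (0 : E n) 1).exists_bound_of_continuousOn (hF.mono hsub)
  refine ⟨C, fun u hu => ?_⟩
  have hnu : 0 < ‖u‖ := norm_pos_iff.2 hu
  rw [← hom ‖u‖⁻¹ u (by positivity) hu]
  apply hC
  rw [mem_sphere_zero_iff_norm, norm_smul, norm_inv, norm_norm, inv_mul_cancel₀ hnu.ne']

theorem stF3_oscint (s w α : ℝ) (hs : 0 < s) :
    IntegrableOn (fun r => Real.exp (-(s * r)) * Real.cos (r * w + α)) (Ioi 0) := by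
  have h1 : IntegrableOn (fun r : ℝ => Real.exp (-s * r)) (Ioi 0) := exp_neg_integrableOn_Ioi 0 hs
  have hc : Continuous (fun r : ℝ => Real.exp (-(s * r)) * Real.cos (r * w + α)) := by fun_prop
  refine Integrable.mono' h1 hc.aestronglyMeasurable (Eventually.of_forall fun r => ?_)
  rw [norm_mul, Real.norm_eq_abs, Real.norm_eq_abs, abs_of_pos (Real.exp_pos _), neg_mul]
  exact mul_le_of_le_one_right (Real.exp_pos _).le (Real.abs_cos_le_one _)

theorem stF3_osc (s w α : ℝ) (hs : 0 < s) :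
    ∫ r in Ioi (0:ℝ), Real.exp (-(s * r)) * Real.cos (r * w + α) =
      (s * Real.cos α - w * Real.sin α) / (s ^ 2 + w ^ 2) := by
  have hpos : 0 < s ^ 2 + w ^ 2 := by positivity
  let F : ℝ → ℝ := fun r => Real.exp (-(s * r)) *
    ((w * Real.sin (r * w + α) - s * Real.cos (r * w + α)) / (s ^ 2 + w ^ 2))
  have hder : ∀ r ∈ Ici (0:ℝ), HasDerivAt F (Real.exp (-(s * r)) * Real.cos (r * w + α)) r := by
    intro r _
    have d1 : HasDerivAt (fun r : ℝ => Real.exp (-(s * r))) (Real.exp (-(s * r)) * (-(s * 1))) r :=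
      (((hasDerivAt_id r).const_mul s).neg).exp
    have d2 : HasDerivAt (fun r : ℝ => r * w + α) (1 * w) r :=
      ((hasDerivAt_id r).mul_const w).add_const α
    have d3 : HasDerivAt (fun r : ℝ => (w * Real.sin (r * w + α) - s * Real.cos (r * w + α)) /
        (s ^ 2 + w ^ 2)) ((w * (Real.cos (r * w + α) * (1 * w)) -
          s * (-Real.sin (r * w + α) * (1 * w))) / (s ^ 2 + w ^ 2)) r :=
      ((d2.sin.const_mul w).sub (d2.cos.const_mul s)).div_const _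
    refine (d1.mul d3).congr_deriv ?_
    field_simp
    ring
  have hlim : Tendsto F atTop (𝓝 0) := by
    have h1 : Tendsto (fun r : ℝ => Real.exp (-(s * r)) * ((|w| + s) / (s ^ 2 + w ^ 2))) atTop
        (𝓝 (0 * ((|w| + s) / (s ^ 2 + w ^ 2)))) := by
      apply Tendsto.mul_const
      apply Real.tendsto_exp_neg_atTop_nhds_zero.comp
      exact tendsto_id.const_mul_atTop hs
    rw [zero_mul] at h1
    refine squeeze_zero_norm (fun r => ?_) h1
    simp only [F]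
    rw [norm_mul, Real.norm_eq_abs, Real.norm_eq_abs, abs_of_pos (Real.exp_pos _), abs_div,
      abs_of_pos hpos]
    apply mul_le_mul_of_nonneg_left _ (Real.exp_pos _).le
    apply div_le_div_of_nonneg_right _ hpos.le
    refine (abs_sub _ _).trans (add_le_add ?_ ?_)
    · rw [abs_mul]
      exact mul_le_of_le_one_right (abs_nonneg _) (Real.abs_sin_le_one _)
    · rw [abs_mul, abs_of_pos hs]
      exact mul_le_of_le_one_right hs.le (Real.abs_cos_le_one _)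
  rw [integral_Ioi_of_hasDerivAt_of_tendsto' hder (stF3_oscint s w α hs) hlim]
  simp only [F]
  rw [mul_zero, neg_zero, Real.exp_zero, one_mul, zero_mul, zero_add]
  field_simp
  ring

theorem stF3_rad (s w α D0 D1 : ℝ) (hs : 0 < s) :
    ∫ r in Ioi (0:ℝ), Real.exp (-(s * r)) * (D0 + 2 * D1 * Real.cos (r * w + α)) ^ 2 =
      s⁻¹ * (D0 ^ 2 + 2 * D1 ^ 2) +
        (4 * D0 * D1 * ((s * Real.cos α - w * Real.sin α) / (s ^ 2 + w ^ 2)) +
        2 * D1 ^ 2 * ((s * Real.cos (2 * α) - (2 * w) * Real.sin (2 * α)) /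
          (s ^ 2 + (2 * w) ^ 2))) := by
  have i0 : IntegrableOn (fun r : ℝ => Real.exp (-(s * r))) (Ioi 0) := by
    have := stF3_oscint s 0 0 hs
    simpa using this
  have v0 : ∫ r in Ioi (0:ℝ), Real.exp (-(s * r)) = s⁻¹ := by
    have := stF3_osc s 0 0 hs
    simp only [mul_zero, add_zero, Real.cos_zero, mul_one, Real.sin_zero, sub_zero] at this
    rw [this]
    field_simp
    ring
  have i1 := stF3_oscint s w α hs
  have i2 := stF3_oscint s (2 * w) (2 * α) hs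
  have hfun : (fun r : ℝ => Real.exp (-(s * r)) * (D0 + 2 * D1 * Real.cos (r * w + α)) ^ 2) =
      fun r : ℝ => (D0 ^ 2 + 2 * D1 ^ 2) * Real.exp (-(s * r)) +
        (4 * D0 * D1 * (Real.exp (-(s * r)) * Real.cos (r * w + α)) +
        2 * D1 ^ 2 * (Real.exp (-(s * r)) * Real.cos (r * (2 * w) + 2 * α))) := by
    funext r
    have : r * (2 * w) + 2 * α = 2 * (r * w + α) := by ring
    rw [this, Real.cos_two_mul]
    ring
  rw [hfun, integral_add, integral_add, integral_const_mul, integral_const_mul,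
    integral_const_mul, v0, stF3_osc s w α hs, stF3_osc s (2 * w) (2 * α) hs]
  · ring
  · exact i1.const_mul _
  · exact i2.const_mul _
  · exact i0.const_mul _
  · exact (i1.const_mul _).add (i2.const_mul _)

theorem stF3_oscbd (s w w0 α : ℝ) (hs : 0 < s) (hw0 : 0 < w0) (hw : w0 ≤ w) :
    |(s * Real.cos α - w * Real.sin α) / (s ^ 2 + w ^ 2)| ≤ 2 / w0 := by
  have hpos : 0 < s ^ 2 + w ^ 2 := by positivity
  have hw' : 0 < w := lt_of_lt_of_le hw0 hw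
  rw [abs_div, abs_of_pos hpos, div_le_div_iff₀ hpos hw0]
  have h1 : |s * Real.cos α - w * Real.sin α| ≤ s + w := by
    refine (abs_sub _ _).trans (add_le_add ?_ ?_)
    · rw [abs_mul, abs_of_pos hs]
      exact mul_le_of_le_one_right hs.le (Real.abs_cos_le_one _)
    · rw [abs_mul, abs_of_pos hw']
      exact mul_le_of_le_one_right hw'.le (Real.abs_sin_le_one _)
  calc |s * Real.cos α - w * Real.sin α| * w0 ≤ (s + w) * w :=
        mul_le_mul h1 hw hw0.le (by positivity)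
    _ ≤ 2 * (s ^ 2 + w ^ 2) := by nlinarith [sq_nonneg (s - w)]

theorem stF3_Sb {a b C θ : ℝ} (ha : 0 ≤ a) (hb : 0 ≤ b) (ha' : a ≤ C) (hb' : b ≤ C) :
    a + b + 2 * (√a * √b) * Real.cos θ ≤ 4 * C := by
  have h1 : √a * √b * Real.cos θ ≤ √a * √b :=
    mul_le_of_le_one_right (by positivity) (Real.cos_le_one _)
  have h2 : 2 * (√a * √b) ≤ a + b := by
    nlinarith [sq_nonneg (√a - √b), Real.sq_sqrt ha, Real.sq_sqrt hb]
  nlinarith

theorem stF3 (h0 : StmtF0) (h1 : StmtF1) (h3 : StmtG3) (hP : StmtP) (h11 : StmtG11) : StmtF3 := by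
  intro n hn K H hK hH XK XH gK gH hcov
  haveI : Nonempty (Fin n) := ⟨⟨0, by omega⟩⟩
  haveI : IsFiniteMeasure (sph n) := by unfold sph; infer_instance
  haveI : (sph n).IsOpenPosMeasure := by unfold sph; infer_instance
  obtain ⟨cK, pK, oK, -, hcK, hpK⟩ := h3 n hn K hK XK gK
  obtain ⟨cH, pH, oH, -, hcH, hpH⟩ := h3 n hn H hH XH gH
  have hw := h1 n hn K H hK hH XK XH gK gH hcov
  have negmap : MapsTo (fun v : E n => -v) {0}ᶜ {0}ᶜ := by
    intro v hv h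
    apply hv
    simpa using h
  have cKn : ContinuousOn (fun v => curv XK (-v)) {0}ᶜ :=
    cK.comp continuous_neg.continuousOn negmap
  have cHn : ContinuousOn (fun v => curv XH (-v)) {0}ᶜ :=
    cH.comp continuous_neg.continuousOn negmap
  have oKn : ∀ (r : ℝ) (u : E n), 0 < r → u ≠ 0 → curv XK (-(r • u)) = curv XK (-u) := by
    intro r u hr hu
    rw [← smul_neg]
    exact oK r (-u) hr (neg_ne_zero.2 hu)
  have oHn : ∀ (r : ℝ) (u : E n), 0 < r → u ≠ 0 → curv XH (-(r • u)) = curv XH (-u) := by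
    intro r u hr hu
    rw [← smul_neg]
    exact oH r (-u) hr (neg_ne_zero.2 hu)
  let D0 : E n → ℝ := fun v => curv XK v + curv XK (-v) - (curv XH v + curv XH (-v))
  let D1 : E n → ℝ := fun v =>
    √(curv XK v) * √(curv XK (-v)) - √(curv XH v) * √(curv XH (-v))
  let w : E n → ℝ := fun v => hK v + hK (-v)
  have cD0 : ContinuousOn D0 {0}ᶜ := (cK.add cKn).sub (cH.add cHn)
  have cD1 : ContinuousOn D1 {0}ᶜ := (cK.sqrt.mul cKn.sqrt).sub (cH.sqrt.mul cHn.sqrt)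
  have cw : Continuous w := hcK.add (hcK.comp continuous_neg)
  have oD0 : ∀ (r : ℝ) (u : E n), 0 < r → u ≠ 0 → D0 (r • u) = D0 u := by
    intro r u hr hu
    simp only [D0]
    rw [oK r u hr hu, oKn r u hr hu, oH r u hr hu, oHn r u hr hu]
  have oD1 : ∀ (r : ℝ) (u : E n), 0 < r → u ≠ 0 → D1 (r • u) = D1 u := by
    intro r u hr hu
    simp only [D1]
    rw [oK r u hr hu, oKn r u hr hu, oH r u hr hu, oHn r u hr hu]
  have ow : ∀ (r : ℝ) (u : E n), 0 < r → w (r • u) = r * w u := by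
    intro r u hr
    simp only [w]
    rw [← smul_neg, gK.homog r u hr.le, gK.homog r (-u) hr.le]
    ring
  let α : ℝ := 2 * ph n
  let N : E n → ℝ := fun ξ => D0 ξ + 2 * D1 ξ * Real.cos (w ξ + α)
  have cN : ContinuousOn N {0}ᶜ := cD0.add ((continuousOn_const.mul cD1).mul
    (Real.continuous_cos.comp (cw.add continuous_const)).continuousOn)
  obtain ⟨CK, hCK⟩ := stF3_bdd (curv XK) cK oK
  obtain ⟨CH, hCH⟩ := stF3_bdd (curv XH) cH oH
  obtain ⟨B0, hB0⟩ := stF3_bdd D0 cD0 oD0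
  obtain ⟨B1, hB1⟩ := stF3_bdd D1 cD1 oD1
  let SK : E n → ℝ := fun ξ => curv XK ξ + curv XK (-ξ) +
    2 * (√(curv XK ξ) * √(curv XK (-ξ))) * Real.cos (hK ξ + hK (-ξ) + 2 * ph n)
  let SH : E n → ℝ := fun ξ => curv XH ξ + curv XH (-ξ) +
    2 * (√(curv XH ξ) * √(curv XH (-ξ))) * Real.cos (hH ξ + hH (-ξ) + 2 * ph n)
  have hSN : ∀ ξ, ξ ≠ 0 → SK ξ - SH ξ = N ξ := by
    intro ξ hξ
    simp only [SK, SH, N, D0, D1, w, α]
    rw [← hw ξ hξ]
    ring
  have hcc : 0 < cc n := by unfold cc; positivity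
  let S0 : ℝ := 4 * CK + 4 * CH
  let C1 : ℝ := 4 * S0 / cc n ^ 2
  have hpt : ∀ ξ : E n, ξ ≠ 0 → (‖ξ‖ ^ (n - 1))⁻¹ * N ξ ^ 2 ≤
      C1 * (‖ξ‖ ^ 2 * ‖FK K ξ - Mhat hK XK ξ‖ ^ 2) +
      C1 * (‖ξ‖ ^ 2 * ‖FK H ξ - Mhat hH XH ξ‖ ^ 2) := by
    intro ξ hξ
    have hξn : -ξ ≠ 0 := neg_ne_zero.2 hξ
    have hnξ : 0 < ‖ξ‖ := norm_pos_iff.2 hξ
    have m1 : ‖Mhat hK XK ξ‖ ^ 2 = (cc n * ‖ξ‖ ^ (-kap n)) ^ 2 * SK ξ :=
      stF3_Mhat hK XK ξ (pK ξ hξ).le (pK _ hξn).le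
    have m2 : ‖Mhat hH XH ξ‖ ^ 2 = (cc n * ‖ξ‖ ^ (-kap n)) ^ 2 * SH ξ :=
      stF3_Mhat hH XH ξ (pH ξ hξ).le (pH _ hξn).le
    have e1 : |‖Mhat hK XK ξ‖ - ‖FK K ξ‖| ≤ ‖FK K ξ - Mhat hK XK ξ‖ := by
      rw [norm_sub_rev]
      exact abs_norm_sub_norm_le _ _
    have e2 : |‖Mhat hH XH ξ‖ - ‖FK K ξ‖| ≤ ‖FK H ξ - Mhat hH XH ξ‖ := by
      rw [stF3_FK h0 (by omega) K H gK.compact gH.compact hcov ξ, norm_sub_rev]
      exact abs_norm_sub_norm_le _ _
    have hS : SK ξ + SH ξ ≤ S0 := by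
      have s1 : SK ξ ≤ 4 * CK := stF3_Sb (pK ξ hξ).le (pK _ hξn).le
        ((le_abs_self _).trans (hCK ξ hξ)) ((le_abs_self _).trans (hCK _ hξn))
      have s2 : SH ξ ≤ 4 * CH := stF3_Sb (pH ξ hξ).le (pH _ hξn).le
        ((le_abs_self _).trans (hCH ξ hξ)) ((le_abs_self _).trans (hCH _ hξn))
      simp only [S0]
      linarith
    have b := stF3_alg (c := cc n * ‖ξ‖ ^ (-kap n)) (by positivity) (norm_nonneg _)
      (norm_nonneg _) e1 e2 m1 m2 hS
    rw [hSN ξ hξ] at b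
    have r := stF3_rpow (n := n) ‖ξ‖ hnξ
    have e3 : ‖ξ‖ ^ (n + 1) = ‖ξ‖ ^ (n - 1) * ‖ξ‖ ^ 2 := by
      rw [← pow_add]
      congr 1
      omega
    have q : 0 < ‖ξ‖ ^ (n - 1) := by positivity
    have b2 : cc n ^ 2 * N ξ ^ 2 ≤ 4 * S0 * (‖FK K ξ - Mhat hK XK ξ‖ ^ 2 +
        ‖FK H ξ - Mhat hH XH ξ‖ ^ 2) * ‖ξ‖ ^ (n + 1) := by
      calc cc n ^ 2 * N ξ ^ 2
          = cc n ^ 2 * N ξ ^ 2 * ((‖ξ‖ ^ (-kap n)) ^ 2 * ‖ξ‖ ^ (n + 1)) := by rw [r, mul_one]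
        _ = ((cc n * ‖ξ‖ ^ (-kap n)) ^ 2 * N ξ ^ 2) * ‖ξ‖ ^ (n + 1) := by ring
        _ ≤ _ := mul_le_mul_of_nonneg_right b (by positivity)
    rw [e3] at b2
    have b3 := mul_le_mul_of_nonneg_left b2
      (show 0 ≤ (cc n ^ 2)⁻¹ * (‖ξ‖ ^ (n - 1))⁻¹ by positivity)
    have l1 : (cc n ^ 2)⁻¹ * (‖ξ‖ ^ (n - 1))⁻¹ * (cc n ^ 2 * N ξ ^ 2) =
        (‖ξ‖ ^ (n - 1))⁻¹ * N ξ ^ 2 := by
      field_simp
    have l2 : (cc n ^ 2)⁻¹ * (‖ξ‖ ^ (n - 1))⁻¹ * (4 * S0 * (‖FK K ξ - Mhat hK XK ξ‖ ^ 2 +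
        ‖FK H ξ - Mhat hH XH ξ‖ ^ 2) * (‖ξ‖ ^ (n - 1) * ‖ξ‖ ^ 2)) =
        C1 * (‖ξ‖ ^ 2 * ‖FK K ξ - Mhat hK XK ξ‖ ^ 2) +
        C1 * (‖ξ‖ ^ 2 * ‖FK H ξ - Mhat hH XH ξ‖ ^ 2) := by
      simp only [C1]
      field_simp
    rw [l1, l2] at b3
    exact b3
  let G : ℝ → E n → ℝ := fun T ξ => Real.exp (-(‖ξ‖ / T)) * ((‖ξ‖ ^ (n - 1))⁻¹ * N ξ ^ 2)
  let gK' : ℝ → E n → ℝ := fun T ξ =>
    Real.exp (-(‖ξ‖ / T)) * (‖ξ‖ ^ 2 * ‖FK K ξ - Mhat hK XK ξ‖ ^ 2)
  let gH' : ℝ → E n → ℝ := fun T ξ =>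
    Real.exp (-(‖ξ‖ / T)) * (‖ξ‖ ^ 2 * ‖FK H ξ - Mhat hH XH ξ‖ ^ 2)
  obtain ⟨iK, tK⟩ := h11 n hn K hK XK gK
  obtain ⟨iH, tH⟩ := h11 n hn H hH XH gH
  have hae : ∀ᵐ ξ : E n, ξ ≠ 0 := by
    have := (measure_eq_zero_iff_ae_notMem (μ := (volume : Measure (E n)))).1
      (measure_singleton (0 : E n))
    filter_upwards [this] with ξ hξ h
    exact hξ h
  have hGle : ∀ T, ∀ ξ, ξ ≠ 0 → G T ξ ≤ C1 * gK' T ξ + C1 * gH' T ξ := by
    intro T ξ hξ
    have := mul_le_mul_of_nonneg_left (hpt ξ hξ) (Real.exp_pos (-(‖ξ‖ / T))).le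
    simp only [G, gK', gH']
    calc _ ≤ _ := this
      _ = _ := by ring
  have hG0 : ∀ T ξ, 0 ≤ G T ξ := by
    intro T ξ
    simp only [G]
    positivity
  have hGm : ∀ T, AEStronglyMeasurable (G T) volume := by
    intro T
    rw [← restrict_compl_singleton (μ := (volume : Measure (E n))) (0 : E n)]
    apply ContinuousOn.aestronglyMeasurable _ (measurableSet_singleton _).compl
    apply ContinuousOn.mul
    · apply Continuous.continuousOn
      fun_prop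
    · apply ContinuousOn.mul
      · apply ContinuousOn.inv₀ (continuous_norm.pow _).continuousOn
        intro x hx
        exact pow_ne_zero _ (norm_ne_zero_iff.2 hx)
      · exact cN.pow 2
  have hGi : ∀ T, 0 < T → Integrable (G T) := by
    intro T hT
    refine Integrable.mono' (((iK T hT).const_mul C1).add ((iH T hT).const_mul C1)) (hGm T) ?_
    filter_upwards [hae] with ξ hξ
    rw [Real.norm_eq_abs, abs_of_nonneg (hG0 T ξ)]
    exact hGle T ξ hξ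
  have hGint : ∀ T, 0 < T → ∫ ξ, G T ξ ≤ C1 * (∫ ξ, gK' T ξ) + C1 * ∫ ξ, gH' T ξ := by
    intro T hT
    rw [← integral_const_mul, ← integral_const_mul,
      ← integral_add ((iK T hT).const_mul C1) ((iH T hT).const_mul C1)]
    apply integral_mono_ae (hGi T hT) (((iK T hT).const_mul C1).add ((iH T hT).const_mul C1))
    filter_upwards [hae] with ξ hξ
    exact hGle T ξ hξ
  have hvne : ∀ v : sphere (0 : E n) 1, (v : E n) ≠ 0 := by
    intro v h
    have := v.2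
    rw [h] at this
    simp at this
  let R : ℝ → E n → ℝ := fun T v =>
    4 * D0 v * D1 v * ((T⁻¹ * Real.cos α - w v * Real.sin α) / (T⁻¹ ^ 2 + w v ^ 2)) +
      2 * D1 v ^ 2 * ((T⁻¹ * Real.cos (2 * α) - (2 * w v) * Real.sin (2 * α)) /
        (T⁻¹ ^ 2 + (2 * w v) ^ 2))
  have hpol : ∀ T, 0 < T → ∫ ξ, G T ξ =
      ∫ v : sphere (0 : E n) 1, (T * (D0 v ^ 2 + 2 * D1 v ^ 2) + R T v) ∂(sph n) := by
    intro T hT
    rw [(hP n hn).1 (G T) (hGi T hT)]
    congr 1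
    funext v
    have hv := hvne v
    have hnv : ‖(v : E n)‖ = 1 := by simpa using v.2
    have e := stF3_rad T⁻¹ (w v) α (D0 v) (D1 v) (inv_pos.2 hT)
    rw [inv_inv] at e
    refine Eq.trans ?_ e
    apply setIntegral_congr_fun measurableSet_Ioi
    intro r hr
    have hr' : 0 < r := hr
    have hnr : ‖r • (v : E n)‖ = r := by
      rw [norm_smul, hnv, mul_one, Real.norm_of_nonneg hr'.le]
    simp only [G, N]
    rw [hnr, oD0 r v hr' hv, oD1 r v hr' hv, ow r v hr']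
    have q2 : -(r / T) = -(T⁻¹ * r) := by ring
    rw [q2]
    have q : r ^ (n - 1) ≠ 0 := by positivity
    field_simp
  have cs : ∀ F : E n → ℝ, ContinuousOn F {0}ᶜ →
      Continuous (fun v : sphere (0 : E n) 1 => F v) := fun F hF =>
    hF.comp_continuous continuous_subtype_val (fun v => hvne v)
  have cD0s := cs D0 cD0
  have cD1s := cs D1 cD1
  have cws : Continuous (fun v : sphere (0 : E n) 1 => w v) := cw.comp continuous_subtype_val
  have hPc : Continuous (fun v : sphere (0 : E n) 1 => D0 v ^ 2 + 2 * D1 v ^ 2) :=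
    (cD0s.pow 2).add (continuous_const.mul (cD1s.pow 2))
  have hRc : ∀ T, 0 < T → Continuous (fun v : sphere (0 : E n) 1 => R T v) := by
    intro T hT
    have hT' : 0 < T⁻¹ := inv_pos.2 hT
    apply Continuous.add
    · apply Continuous.mul ((continuous_const.mul cD0s).mul cD1s)
      apply Continuous.div
      · exact continuous_const.sub (cws.mul continuous_const)
      · exact continuous_const.add (cws.pow 2)
      · intro v
        positivity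
    · apply Continuous.mul (continuous_const.mul (cD1s.pow 2))
      apply Continuous.div
      · exact continuous_const.sub ((continuous_const.mul cws).mul continuous_const)
      · exact continuous_const.add ((continuous_const.mul cws).pow 2)
      · intro v
        positivity
  have hPi : Integrable (fun v : sphere (0 : E n) 1 => D0 v ^ 2 + 2 * D1 v ^ 2) (sph n) :=
    hPc.integrable_of_hasCompactSupport (HasCompactSupport.of_compactSpace _)
  have hRi : ∀ T, 0 < T → Integrable (fun v : sphere (0 : E n) 1 => R T v) (sph n) := fun T hT =>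
    (hRc T hT).integrable_of_hasCompactSupport (HasCompactSupport.of_compactSpace _)
  obtain ⟨w0, hw0, hwle⟩ : ∃ w0 : ℝ, 0 < w0 ∧ ∀ v ∈ sphere (0 : E n) 1, w0 ≤ w v := by
    refine (isCompact_sphere (0 : E n) 1).exists_forall_le' cw.continuousOn (a := 0) ?_
    intro v hv
    have hv0 := hvne ⟨v, hv⟩
    exact add_pos (hpK v hv0) (hpK (-v) (neg_ne_zero.2 hv0))
  let CR : ℝ := 4 * B0 * B1 * (2 / w0) + 2 * B1 ^ 2 * (2 / w0)
  have hR : ∀ T, 0 < T → ∀ v : sphere (0 : E n) 1, ‖R T v‖ ≤ CR := by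
    intro T hT v
    have b0 := hB0 v (hvne v)
    have b1 := hB1 v (hvne v)
    have n0 : 0 ≤ B0 := (abs_nonneg _).trans b0
    have n1 : 0 ≤ B1 := (abs_nonneg _).trans b1
    have c1 := stF3_oscbd T⁻¹ (w v) w0 α (inv_pos.2 hT) hw0 (hwle v v.2)
    have c2 := stF3_oscbd T⁻¹ (2 * w v) w0 (2 * α) (inv_pos.2 hT) hw0
      (by linarith [hwle v v.2])
    rw [Real.norm_eq_abs]
    refine (abs_add_le _ _).trans (add_le_add ?_ ?_)
    · rw [abs_mul, abs_mul, abs_mul, abs_of_pos (show (0 : ℝ) < 4 by norm_num)]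
      exact mul_le_mul (mul_le_mul (mul_le_mul_of_nonneg_left b0 (by norm_num)) b1
        (abs_nonneg _) (by positivity)) c1 (abs_nonneg _) (by positivity)
    · rw [abs_mul, abs_mul, abs_pow, abs_of_pos (show (0 : ℝ) < 2 by norm_num)]
      exact mul_le_mul (mul_le_mul_of_nonneg_left (pow_le_pow_left₀ (abs_nonneg _) b1 2)
        (by norm_num)) c2 (abs_nonneg _) (by positivity)
  have hmain : ∀ T : ℝ, 0 < T →
      ∫ v : sphere (0 : E n) 1, (D0 v ^ 2 + 2 * D1 v ^ 2) ∂(sph n) ≤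
      C1 * (T⁻¹ * ∫ ξ, gK' T ξ) + C1 * (T⁻¹ * ∫ ξ, gH' T ξ) +
        T⁻¹ * (CR * (sph n).real univ) := by
    intro T hT
    have e1 := hpol T hT
    rw [integral_add (hPi.const_mul T) (hRi T hT), integral_const_mul] at e1
    have e2 : ‖∫ v : sphere (0 : E n) 1, R T v ∂(sph n)‖ ≤ CR * (sph n).real univ :=
      norm_integral_le_of_norm_le_const (Eventually.of_forall (hR T hT))
    have e3 := hGint T hT
    rw [Real.norm_eq_abs] at e2
    have e4 := (abs_le.1 e2).1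
    have e5 : T * ∫ v : sphere (0 : E n) 1, (D0 v ^ 2 + 2 * D1 v ^ 2) ∂(sph n) ≤
        C1 * (∫ ξ, gK' T ξ) + C1 * (∫ ξ, gH' T ξ) + CR * (sph n).real univ := by
      linarith
    have e6 := mul_le_mul_of_nonneg_left e5 (inv_nonneg.2 hT.le)
    rw [← mul_assoc, inv_mul_cancel₀ hT.ne', one_mul] at e6
    linarith
  have hlim : Tendsto (fun T : ℝ => C1 * (T⁻¹ * ∫ ξ, gK' T ξ) + C1 * (T⁻¹ * ∫ ξ, gH' T ξ) +
      T⁻¹ * (CR * (sph n).real univ)) atTop
      (𝓝 (C1 * 0 + C1 * 0 + 0 * (CR * (sph n).real univ))) :=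
    ((tK.const_mul C1).add (tH.const_mul C1)).add (tendsto_inv_atTop_zero.mul_const _)
  have hI : ∫ v : sphere (0 : E n) 1, (D0 v ^ 2 + 2 * D1 v ^ 2) ∂(sph n) ≤ 0 := by
    have h5 : ∀ᶠ T : ℝ in atTop, ∫ v : sphere (0 : E n) 1, (D0 v ^ 2 + 2 * D1 v ^ 2) ∂(sph n) ≤
        C1 * (T⁻¹ * ∫ ξ, gK' T ξ) + C1 * (T⁻¹ * ∫ ξ, gH' T ξ) +
        T⁻¹ * (CR * (sph n).real univ) := by
      filter_upwards [eventually_gt_atTop 0] with T hT
      exact hmain T hT
    have := ge_of_tendsto hlim h5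
    simpa using this
  have hnn : ∀ v : sphere (0 : E n) 1, 0 ≤ D0 v ^ 2 + 2 * D1 v ^ 2 := fun v => by positivity
  have hI0 : ∫ v : sphere (0 : E n) 1, (D0 v ^ 2 + 2 * D1 v ^ 2) ∂(sph n) = 0 :=
    le_antisymm hI (integral_nonneg hnn)
  have hae0 := (integral_eq_zero_iff_of_nonneg hnn hPi).1 hI0
  have hall : (fun v : sphere (0 : E n) 1 => D0 v ^ 2 + 2 * D1 v ^ 2) = fun _ => 0 :=
    (Continuous.ae_eq_iff_eq (sph n) hPc continuous_const).1 hae0
  intro u hu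
  have hnu : 0 < ‖u‖ := norm_pos_iff.2 hu
  have hmem : ‖u‖⁻¹ • u ∈ sphere (0 : E n) 1 := by
    rw [mem_sphere_zero_iff_norm, norm_smul, norm_inv, norm_norm, inv_mul_cancel₀ hnu.ne']
  have h6 := congrFun hall ⟨‖u‖⁻¹ • u, hmem⟩
  have h7 : D0 (‖u‖⁻¹ • u) ^ 2 + 2 * D1 (‖u‖⁻¹ • u) ^ 2 = 0 := h6
  rw [oD0 _ _ (inv_pos.2 hnu) hu, oD1 _ _ (inv_pos.2 hnu) hu] at h7
  have h8 : D0 u = 0 := by
    have : D0 u ^ 2 = 0 := by nlinarith [sq_nonneg (D0 u), sq_nonneg (D1 u)]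
    simpa using this
  have h9 : D1 u = 0 := by
    have : D1 u ^ 2 = 0 := by nlinarith [sq_nonneg (D0 u), sq_nonneg (D1 u)]
    simpa using this
  refine ⟨sub_eq_zero.1 h8, ?_⟩
  have h10 : √(curv XK u) * √(curv XK (-u)) = √(curv XH u) * √(curv XH (-u)) :=
    sub_eq_zero.1 h9
  have hun : -u ≠ 0 := neg_ne_zero.2 hu
  have h11' := congrArg (fun x => x ^ 2) h10
  simp only [mul_pow] at h11'
  rw [Real.sq_sqrt (pK u hu).le, Real.sq_sqrt (pK _ hun).le, Real.sq_sqrt (pH u hu).le,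
    Real.sq_sqrt (pH _ hun).le] at h11'
  exact h11'

end Pool.Agent.Helper890.Cov.JF3
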