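import Mathlib
import Pool.Agent.Helper890.Cov.StG
import Pool.Agent.Helper890.Cov.StF

open MeasureTheory Set Filter Topology Metric
open scoped RealInnerProductSpace Pointwise

namespace Pool.Agent.Helper890.Cov

/-- `K` is of class `C^2_+`: near each boundary point `K` is `{ρ ≤ 0}` with `ρ` of class `C^2`,
nonzero gradient at the point, and the restriction of the second derivative of `ρ` to the tangent
space (a nonzero multiple of the second fundamental form) is nondegenerate, i.e. the Gauss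
curvature does not vanish at the point. -/
def IsC2Plus {n : ℕ} (K : Set (E n)) : Prop := ∀ p ∈ frontier K, ∃ ρ : E n → ℝ,
  ContDiffAt ℝ 2 ρ p ∧ fderiv ℝ ρ p ≠ 0 ∧ (∀ᶠ x in 𝓝 p, x ∈ K ↔ ρ x ≤ 0) ∧
  ∀ w, w ≠ 0 → fderiv ℝ ρ p w = 0 → ∃ w', fderiv ℝ ρ p w' = 0 ∧ fderiv ℝ (fderiv ℝ ρ) p w w' ≠ 0

/-- for convex bodies a nondegenerate second fundamental form is positive definite -/
def StmtS0 : Prop := ∀ (n : ℕ) (K : Set (E n)), IsCompact K → Convex ℝ K →
  (interior K).Nonempty → IsC2Plus K → BdryC2Plus K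

end Pool.Agent.Helper890.Cov
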