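import Mathlib
import Pool.Agent.Helper890.Cov.StG
import Pool.Agent.Helper890.Cov.StF
import Pool.Agent.Helper890.Cov.StS

open MeasureTheory Set Filter Topology Metric
open scoped RealInnerProductSpace Pointwise

namespace Pool.Agent.Helper890.Cov

/-- final theorem -/
def StmtFin : Prop := ∀ (n : ℕ), 2 ≤ n → ∀ (K H : Set (E n)), IsCompact K → Convex ℝ K →
  (interior K).Nonempty → IsCompact H → Convex ℝ H → (interior H).Nonempty → IsC2Plus K → IsC2Plus H →
  (∀ x, covg K x = covg H x) → ∃ z : E n, K = (fun x => x + z) '' H ∨ K = (fun x => -x + z) '' H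

/-- the unit ball is of class `C^2_+` -/
def StmtBall : Prop := ∀ (n : ℕ), 1 ≤ n → IsC2Plus (closedBall (0 : E n) 1)

end Pool.Agent.Helper890.Cov
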