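import Mathlib
import Pool.Agent.Helper890.Cov.StA
import Pool.Agent.Helper890.Cov.StB
import Pool.Agent.Helper890.Cov.StG
import Pool.Agent.Helper890.Cov.StF
import Pool.Agent.Helper890.Cov.StS
import Pool.Agent.Helper890.Cov.StE




namespace Pool.Agent.Helper890.Cov.JFin
open MeasureTheory Set Filter Topology Metric
open scoped RealInnerProductSpace

/-- translate of a body -/
def stFin_tr {n : ℕ} (K : Set (E n)) (a : E n) : Set (E n) := (fun x => x + a) ⁻¹' K

theorem stFin_c2 {n : ℕ} {K : Set (E n)} (a : E n) (h : IsC2Plus K) : IsC2Plus (stFin_tr K a) := by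
  intro p hp
  have hp' : p + a ∈ frontier K := by
    have h1 : frontier (stFin_tr K a) = (Homeomorph.addRight a) ⁻¹' (frontier K) :=
      ((Homeomorph.addRight a).preimage_frontier K).symm
    rw [h1] at hp
    exact hp
  obtain ⟨ρ, hρ1, hρ2, hρ3, hρ4⟩ := h (p + a) hp'
  have hd : fderiv ℝ (fun x => ρ (x + a)) = fun x => fderiv ℝ ρ (x + a) := by
    funext x
    exact fderiv_comp_add_right a
  have hdd : fderiv ℝ (fderiv ℝ (fun x => ρ (x + a))) p = fderiv ℝ (fderiv ℝ ρ) (p + a) := by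
    rw [hd]
    exact fderiv_comp_add_right a
  refine ⟨fun x => ρ (x + a), ?_, ?_, ?_, ?_⟩
  · exact ContDiffAt.comp p hρ1 (by fun_prop)
  · rw [hd]
    exact hρ2
  · have ht : Tendsto (fun x : E n => x + a) (𝓝 p) (𝓝 (p + a)) :=
      (continuous_id.add continuous_const).tendsto p
    exact ht.eventually hρ3
  · intro w hw hw0
    rw [hd] at hw0
    obtain ⟨w', hw'1, hw'2⟩ := hρ4 w hw hw0
    refine ⟨w', ?_, ?_⟩
    · rw [hd]
      exact hw'1
    · rw [hdd]
      exact hw'2

theorem stFin_covg {n : ℕ} (K : Set (E n)) (a x : E n) : covg (stFin_tr K a) x = covg K x := by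
  unfold covg
  have h : stFin_tr K a ∩ (fun y => y + x) '' (stFin_tr K a) =
      (fun z => z + a) ⁻¹' (K ∩ (fun y => y + x) '' K) := by
    ext z
    simp only [stFin_tr, mem_inter_iff, mem_preimage, mem_image]
    constructor
    · rintro ⟨h1, y, hy, rfl⟩
      exact ⟨h1, y + a, hy, by abel⟩
    · rintro ⟨h1, y, hy, hyz⟩
      refine ⟨h1, y - a, ?_, ?_⟩
      · rw [sub_add_cancel]
        exact hy
      · have : y - a + x = (y + x) - a := by abel
        rw [this, hyz]
        abel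
  rw [h]
  unfold Measure.real
  rw [measure_preimage_add_right]

theorem stFin_good (hS0 : StmtS0) (hS : StmtS) (hG0 : StmtG0) {n : ℕ} (hn : 2 ≤ n) {K : Set (E n)}
    (hK1 : IsCompact K) (hK2 : Convex ℝ K) {a : E n} (ha : a ∈ interior K) (hK4 : IsC2Plus K) :
    Good (stFin_tr K a) (sf (stFin_tr K a)) (gradient (sf (stFin_tr K a))) := by
  have h1 : IsCompact (stFin_tr K a) := (Homeomorph.addRight a).isCompact_preimage.2 hK1
  have h2 : Convex ℝ (stFin_tr K a) := hK2.translate_preimage_left a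
  have h3 : (0 : E n) ∈ interior (stFin_tr K a) := by
    have h : interior (stFin_tr K a) = (Homeomorph.addRight a) ⁻¹' (interior K) :=
      ((Homeomorph.addRight a).preimage_interior K).symm
    rw [h]
    show (0 : E n) + a ∈ interior K
    rw [zero_add]
    exact ha
  have h4 := hS0 n _ h1 h2 ⟨0, h3⟩ (stFin_c2 a hK4)
  obtain ⟨h5, h6⟩ := hS n hn _ h1 h2 ⟨0, h3⟩ h4
  exact hG0 n hn _ h1 h2 h3 h5 h6

theorem stFin (hS0 : StmtS0) (hS : StmtS) (hG0 : StmtG0) (hT : StmtT) : StmtFin := by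
  rintro n hn K H hK1 hK2 ⟨a, ha⟩ hH1 hH2 ⟨b, hb⟩ hK4 hH4 hcov
  have gK := stFin_good hS0 hS hG0 hn hK1 hK2 ha hK4
  have gH := stFin_good hS0 hS hG0 hn hH1 hH2 hb hH4
  obtain ⟨z, hz⟩ := hT n hn _ _ _ _ _ _ gH gK
    (fun x => by rw [stFin_covg, stFin_covg, hcov])
  have hmK : ∀ x, x ∈ K ↔ x - a ∈ stFin_tr K a := by
    intro x
    show x ∈ K ↔ x - a + a ∈ K
    rw [sub_add_cancel]
  have hmH : ∀ x, x ∈ stFin_tr H b ↔ x + b ∈ H := fun x => Iff.rfl
  rcases hz with hz | hz
  · refine ⟨z + a - b, Or.inl ?_⟩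
    ext x
    rw [hmK, hz]
    simp only [mem_image]
    constructor
    · rintro ⟨y, hy, hyx⟩
      refine ⟨y + b, (hmH y).1 hy, ?_⟩
      have : y + b + (z + a - b) = (y + z) + a := by abel
      rw [this, hyx, sub_add_cancel]
    · rintro ⟨y, hy, rfl⟩
      refine ⟨y - b, (hmH _).2 (by rw [sub_add_cancel]; exact hy), ?_⟩
      abel
  · refine ⟨b + z + a, Or.inr ?_⟩
    ext x
    rw [hmK, hz]
    simp only [mem_image]
    constructor
    · rintro ⟨y, hy, hyx⟩
      refine ⟨y + b, (hmH y).1 hy, ?_⟩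
      have : -(y + b) + (b + z + a) = (-y + z) + a := by abel
      rw [this, hyx, sub_add_cancel]
    · rintro ⟨y, hy, rfl⟩
      refine ⟨y - b, (hmH _).2 (by rw [sub_add_cancel]; exact hy), ?_⟩
      abel


end Pool.Agent.Helper890.Cov.JFin
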