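import Mathlib
import Pool.Agent.Helper890.Cov.StG




namespace Pool.Agent.Helper890.Cov.JG0
open MeasureTheory Set Filter Topology Metric
open scoped RealInnerProductSpace

theorem stG0_bdd {n : ℕ} {K : Set (E n)} (hK : IsCompact K) (u : E n) :
    BddAbove ((fun x => ⟪x, u⟫) '' K) := by
  have hc : Continuous (fun x : E n => ⟪x, u⟫) := by fun_prop
  exact (hK.image hc).bddAbove

theorem stG0_le {n : ℕ} {K : Set (E n)} (hK : IsCompact K) {x : E n} (hx : x ∈ K) (u : E n) :
    ⟪x, u⟫ ≤ sf K u :=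
  le_csSup (stG0_bdd hK u) ⟨x, hx, rfl⟩

theorem stG0_ex {n : ℕ} {K : Set (E n)} (hK : IsCompact K) (hne : K.Nonempty) (u : E n) :
    ∃ x ∈ K, ⟪x, u⟫ = sf K u := by
  have hc : Continuous (fun x : E n => ⟪x, u⟫) := by fun_prop
  obtain ⟨x, hx, hmax⟩ := hK.exists_isMaxOn hne hc.continuousOn
  refine ⟨x, hx, le_antisymm (stG0_le hK hx u) ?_⟩
  apply csSup_le (hne.image _)
  rintro _ ⟨y, hy, rfl⟩
  exact hmax hy

theorem stG0 : StmtG0 := by
  intro n hn K hK hconv h0 hC2 hpos
  have hne : K.Nonempty := ⟨0, interior_subset h0⟩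
  set h := sf K with hh
  set X := gradient h with hX
  have hop : IsOpen ({0}ᶜ : Set (E n)) := isOpen_compl_singleton
  have hmem0 : ∀ u : E n, u ≠ 0 → ({0}ᶜ : Set (E n)) ∈ 𝓝 u := fun u hu => hop.mem_nhds hu
  have hdiff : ∀ u : E n, u ≠ 0 → DifferentiableAt ℝ h u := by
    intro u hu
    exact (hC2.contDiffAt (hmem0 u hu)).differentiableAt (by norm_num)
  have hgrad : ∀ u, u ≠ 0 → HasFDerivAt h (innerSL ℝ (X u)) u := by
    intro u hu
    have h1 := (hdiff u hu).hasGradientAt.hasFDerivAt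
    have h2 : (InnerProductSpace.toDual ℝ (E n)) (gradient h u) = innerSL ℝ (X u) := by
      ext v
      simp [hX]
    rw [h2] at h1
    exact h1
  -- uniqueness of maximisers
  have huniq : ∀ u, u ≠ 0 → ∀ x ∈ K, ⟪x, u⟫ = h u → X u = x := by
    intro u hu x hx hxu
    have h1 : HasFDerivAt (fun v => h v - ⟪x, v⟫) (innerSL ℝ (X u) - innerSL ℝ x) u :=
      (hgrad u hu).sub (innerSL ℝ x).hasFDerivAt
    have h2 : IsLocalMin (fun v => h v - ⟪x, v⟫) u := by
      refine Filter.Eventually.of_forall ?_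
      intro v
      have := stG0_le hK hx v
      show h u - ⟪x, u⟫ ≤ h v - ⟪x, v⟫
      rw [hxu, sub_self]
      linarith
    have h3 := h2.hasFDerivAt_eq_zero h1
    have h4 : innerSL ℝ (X u) = innerSL ℝ x := sub_eq_zero.mp h3
    apply ext_inner_right ℝ
    intro v
    exact congrArg (fun T : E n →L[ℝ] ℝ => T v) h4
  have hXmax : ∀ u, u ≠ 0 → X u ∈ K ∧ ⟪X u, u⟫ = h u := by
    intro u hu
    obtain ⟨x, hx, hxu⟩ := stG0_ex hK hne u
    rw [huniq u hu x hx hxu]
    exact ⟨hx, hxu⟩
  have hhom : ∀ (r : ℝ) (u : E n), 0 ≤ r → h (r • u) = r * h u := by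
    intro r u hr
    obtain ⟨x, hx, hxu⟩ := stG0_ex hK hne u
    obtain ⟨y, hy, hyu⟩ := stG0_ex hK hne (r • u)
    apply le_antisymm
    · show sf K (r • u) ≤ r * h u
      rw [← hyu, inner_smul_right]
      exact mul_le_mul_of_nonneg_left (stG0_le hK hy u) hr
    · show r * sf K u ≤ sf K (r • u)
      rw [← hxu, ← inner_smul_right]
      exact stG0_le hK hx _
  have hfe : ∀ u, u ≠ 0 → fderiv ℝ h u = innerSL ℝ (X u) := fun u hu => (hgrad u hu).fderiv
  have hc1 : ContDiffOn ℝ 1 X {0}ᶜ := by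
    have h1 : ContDiffOn ℝ 1 (fderiv ℝ h) {0}ᶜ :=
      hC2.fderiv_of_isOpen hop (by norm_num)
    rw [contDiffOn_euclidean]
    intro i
    have h2 : ContDiffOn ℝ 1 (fun v => fderiv ℝ h v (EuclideanSpace.single i (1 : ℝ))) {0}ᶜ :=
      h1.clm_apply contDiffOn_const
    apply h2.congr
    intro v hv
    rw [hfe v hv]
    simp [EuclideanSpace.inner_single_right]
  have hXd : ∀ u, u ≠ 0 → DifferentiableAt ℝ X u := by
    intro u hu
    exact (hc1.contDiffAt (hmem0 u hu)).differentiableAt (by norm_num)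
  refine
    { compact := hK
      convex := hconv
      zero_mem := h0
      grad := hgrad
      c1 := hc1
      mem := fun u hu => (hXmax u hu).1
      le := fun x hx u => stG0_le hK hx u
      eq := fun u hu => (hXmax u hu).2
      charac := ?_
      homog := hhom
      homogX := ?_
      pos := hpos
      symm := ?_ }
  · intro x hx
    by_contra hxK
    obtain ⟨f, t, hf1, hf2⟩ := geometric_hahn_banach_closed_point hconv hK.isClosed hxK
    set g : E n := (InnerProductSpace.toDual ℝ (E n)).symm f with hg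
    have hfg : ∀ y, f y = ⟪y, g⟫ := by
      intro y
      rw [real_inner_comm, hg]
      exact (InnerProductSpace.toDual_symm_apply).symm
    obtain ⟨y, hy, hyg⟩ := stG0_ex hK hne g
    have h1 := hf1 y hy
    have h2 := hx g
    rw [hfg] at h1 hf2
    rw [hh, ← hyg] at h2
    linarith
  · intro r u hr hu
    have hru : r • u ≠ 0 := smul_ne_zero hr.ne' hu
    have h1 := hXmax (r • u) hru
    symm
    apply huniq u hu _ h1.1
    have h2 := h1.2
    rw [hhom r u hr.le, inner_smul_right] at h2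
    exact mul_left_cancel₀ hr.ne' h2
  · intro u hu
    have hcd : ContDiffAt ℝ 2 h u := hC2.contDiffAt (hmem0 u hu)
    have hsym : IsSymmSndFDerivAt ℝ h u := hcd.isSymmSndFDerivAt (by simp)
    have hkey : ∀ w w', fderiv ℝ (fderiv ℝ h) u w w' = ⟪fderiv ℝ X u w, w'⟫ := by
      intro w w'
      have hd2 : DifferentiableAt ℝ (fderiv ℝ h) u := by
        have h1 : ContDiffOn ℝ 1 (fderiv ℝ h) {0}ᶜ :=
          hC2.fderiv_of_isOpen hop (by norm_num)
        exact (h1.contDiffAt (hmem0 u hu)).differentiableAt (by norm_num)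
      have e1 : HasFDerivAt (fun v => fderiv ℝ h v w')
          ((fderiv ℝ (fderiv ℝ h) u).flip w') u := by
        have := hd2.hasFDerivAt.clm_apply (hasFDerivAt_const w' u)
        simpa using this
      have e2 : HasFDerivAt (fun v => ⟪w', X v⟫) ((innerSL ℝ w').comp (fderiv ℝ X u)) u :=
        (innerSL ℝ w').hasFDerivAt.comp u (hXd u hu).hasFDerivAt
      have e3 : (fun v => fderiv ℝ h v w') =ᶠ[𝓝 u] (fun v => ⟪w', X v⟫) := by
        filter_upwards [hmem0 u hu] with v hv
        rw [hfe v hv, real_inner_comm]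
        simp
      have e4 := e1.unique (e2.congr_of_eventuallyEq e3)
      have e5 := congrArg (fun T : E n →L[ℝ] ℝ => T w) e4
      simp only [ContinuousLinearMap.flip_apply, ContinuousLinearMap.comp_apply] at e5
      rw [e5, real_inner_comm]
      simp
    intro w w'
    rw [← hkey w w', hsym w w', hkey w' w, real_inner_comm]

end Pool.Agent.Helper890.Cov.JG0
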