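import Mathlib
import Pool.Agent.Helper890.Cov.StG




namespace Pool.Agent.Helper890.Cov.JG1
open MeasureTheory Set Filter Topology Metric
open scoped RealInnerProductSpace

theorem g1_diff {n : ℕ} {K : Set (E n)} {h : E n → ℝ} {X : E n → E n} (G : Good K h X)
    {u : E n} (hu : u ≠ 0) : DifferentiableAt ℝ X u := by
  have : ContDiffAt ℝ 1 X u := G.c1.contDiffAt (isOpen_compl_singleton.mem_nhds hu)
  exact this.differentiableAt (by norm_num)

theorem g1_cont {n : ℕ} {K : Set (E n)} {h : E n → ℝ} {X : E n → E n} (G : Good K h X) :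
    ContinuousOn (fderiv ℝ X) {0}ᶜ :=
  G.c1.continuousOn_fderiv_of_isOpen isOpen_compl_singleton le_rfl

theorem g1_radial {n : ℕ} {K : Set (E n)} {h : E n → ℝ} {X : E n → E n} (G : Good K h X)
    {u : E n} (hu : u ≠ 0) : fderiv ℝ X u u = 0 := by
  have h1 : HasDerivAt (fun t : ℝ => X ((1 + t) • u)) (fderiv ℝ X u u) 0 := by
    have hX : HasFDerivAt X (fderiv ℝ X u) ((1 + (0:ℝ)) • u) := by
      simpa using (g1_diff G hu).hasFDerivAt
    have hl : HasDerivAt (fun t : ℝ => (1 + t) • u) u 0 := by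
      simpa using ((hasDerivAt_id (0:ℝ)).const_add 1).smul_const u
    exact hX.comp_hasDerivAt 0 hl
  have h2 : (fun t : ℝ => X ((1 + t) • u)) =ᶠ[𝓝 0] fun _ => X u := by
    filter_upwards [Ioi_mem_nhds (show (-1:ℝ) < 0 by norm_num)] with t ht
    exact G.homogX _ _ (by simp only [Set.mem_Ioi] at ht; linarith) hu
  have h3 : HasDerivAt (fun t : ℝ => X ((1 + t) • u)) 0 0 :=
    (hasDerivAt_const 0 (X u)).congr_of_eventuallyEq h2
  exact h1.unique h3

theorem g1_Qpos {n : ℕ} {K : Set (E n)} {h : E n → ℝ} {X : E n → E n} (G : Good K h X)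
    {w e : E n} (hw : w ≠ 0) (he : e ≠ 0) : 0 < ⟪fderiv ℝ X w e, e⟫ + ⟪w, e⟫ ^ 2 := by
  have hw2 : 0 < ‖w‖ ^ 2 := by have := norm_pos_iff.2 hw; positivity
  set a : ℝ := ⟪w, e⟫ / ‖w‖ ^ 2 with ha
  set e' : E n := e - a • w with he'
  have hee : e = e' + a • w := by simp [he']
  have hperp : ⟪e', w⟫ = 0 := by
    rw [he', inner_sub_left, inner_smul_left, real_inner_self_eq_norm_sq, real_inner_comm, ha]
    simp only [conj_trivial]
    field_simp
    ring
  have hrad := g1_radial G hw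
  have h1 : fderiv ℝ X w e = fderiv ℝ X w e' := by
    rw [hee, map_add, map_smul, hrad, smul_zero, add_zero]
  have h2 : ⟪fderiv ℝ X w e', e⟫ = ⟪fderiv ℝ X w e', e'⟫ := by
    rw [hee, inner_add_right, inner_smul_right, G.symm w hw e' w, hrad, inner_zero_right,
      mul_zero, add_zero]
  rw [h1, h2]
  by_cases h0 : e' = 0
  · rw [h0]
    simp only [map_zero, inner_zero_left, zero_add]
    have hea : e = a • w := by rw [hee, h0, zero_add]
    have ha0 : a ≠ 0 := by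
      intro h; apply he; rw [hea, h, zero_smul]
    have : ⟪w, e⟫ = a * ‖w‖ ^ 2 := by rw [ha]; field_simp
    rw [this]
    have : a * ‖w‖ ^ 2 ≠ 0 := mul_ne_zero ha0 hw2.ne'
    positivity
  · have := G.pos w hw e' h0 hperp
    positivity

theorem g1_annulus {n : ℕ} : IsCompact {w : E n | 1 / 2 ≤ ‖w‖ ∧ ‖w‖ ≤ 1} := by
  have h1 : {w : E n | 1 / 2 ≤ ‖w‖ ∧ ‖w‖ ≤ 1} = closedBall (0 : E n) 1 ∩ {w | 1 / 2 ≤ ‖w‖} := by
    ext w; simp [and_comm]
  rw [h1]
  exact (isCompact_closedBall _ _).inter_right (isClosed_le continuous_const continuous_norm)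

theorem g1_Qmin {n : ℕ} {K : Set (E n)} {h : E n → ℝ} {X : E n → E n} (G : Good K h X) :
    ∃ m : ℝ, 0 < m ∧ ∀ w : E n, 1 / 2 ≤ ‖w‖ → ‖w‖ ≤ 1 → ∀ p : E n,
      m * ‖p‖ ^ 2 ≤ ⟪fderiv ℝ X w p, p⟫ + ⟪w, p⟫ ^ 2 := by
  have hS : IsCompact ({w : E n | 1 / 2 ≤ ‖w‖ ∧ ‖w‖ ≤ 1} ×ˢ sphere (0 : E n) 1) :=
    g1_annulus.prod (isCompact_sphere _ _)
  have hsub : ∀ q ∈ ({w : E n | 1 / 2 ≤ ‖w‖ ∧ ‖w‖ ≤ 1} ×ˢ sphere (0 : E n) 1), q.1 ≠ 0 := by
    intro q hq h0
    have := hq.1.1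
    rw [h0] at this
    simp at this
    linarith
  have hcont : ContinuousOn (fun q : E n × E n => ⟪fderiv ℝ X q.1 q.2, q.2⟫ + ⟪q.1, q.2⟫ ^ 2)
      ({w : E n | 1 / 2 ≤ ‖w‖ ∧ ‖w‖ ≤ 1} ×ˢ sphere (0 : E n) 1) := by
    have hf : ContinuousOn (fun q : E n × E n => fderiv ℝ X q.1)
        ({w : E n | 1 / 2 ≤ ‖w‖ ∧ ‖w‖ ≤ 1} ×ˢ sphere (0 : E n) 1) :=
      (g1_cont G).comp continuousOn_fst (fun q hq => hsub q hq)
    exact ((hf.clm_apply continuousOn_snd).inner continuousOn_snd).add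
      ((continuousOn_fst.inner continuousOn_snd).pow 2)
  obtain ⟨m, hm, hmin⟩ := hS.exists_forall_le' hcont (a := 0) (by
    intro q hq
    refine g1_Qpos G (hsub q hq) ?_
    intro h0
    have := hq.2
    rw [h0] at this
    simp at this)
  refine ⟨m, hm, ?_⟩
  intro w hw1 hw2 p
  by_cases hp : p = 0
  · simp [hp]
  · have hpn : 0 < ‖p‖ := norm_pos_iff.2 hp
    have := hmin (w, ‖p‖⁻¹ • p) ⟨⟨hw1, hw2⟩, by
      simp [norm_smul, hpn.ne']⟩
    simp only [map_smul, inner_smul_left, inner_smul_right, conj_trivial] at this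
    have h2 : ‖p‖ ^ 2 * m ≤ ‖p‖ ^ 2 * (‖p‖⁻¹ * (‖p‖⁻¹ * ⟪fderiv ℝ X w p, p⟫) +
        (‖p‖⁻¹ * ⟪w, p⟫) ^ 2) := mul_le_mul_of_nonneg_left this (by positivity)
    have h3 : ‖p‖ ^ 2 * (‖p‖⁻¹ * (‖p‖⁻¹ * ⟪fderiv ℝ X w p, p⟫) +
        (‖p‖⁻¹ * ⟪w, p⟫) ^ 2) = ⟪fderiv ℝ X w p, p⟫ + ⟪w, p⟫ ^ 2 := by
      field_simp
    linarith

theorem g1_seg {n : ℕ} {u v : E n} (hu : ‖u‖ = 1) (hv : ‖v‖ = 1) (huv : ‖v - u‖ ≤ 1)
    {s : ℝ} (h0 : 0 ≤ s) (h1 : s ≤ 1) :
    1 / 2 ≤ ‖u + s • (v - u)‖ ∧ ‖u + s • (v - u)‖ ≤ 1 := by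
  constructor
  · by_cases hs : s ≤ 1 / 2
    · have h2 : ‖u‖ ≤ ‖u + s • (v - u)‖ + ‖s • (v - u)‖ := by
        have := norm_sub_le (u + s • (v - u)) (s • (v - u))
        simpa using this
      rw [norm_smul, Real.norm_of_nonneg h0, hu] at h2
      nlinarith [norm_nonneg (v - u)]
    · have h2 : ‖v‖ ≤ ‖u + s • (v - u)‖ + ‖(1 - s) • (v - u)‖ := by
        have := norm_add_le (u + s • (v - u)) ((1 - s) • (v - u))
        have e : u + s • (v - u) + (1 - s) • (v - u) = v := by module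
        rwa [e] at this
      rw [norm_smul, Real.norm_of_nonneg (by linarith : (0:ℝ) ≤ 1 - s), hv] at h2
      push Not at hs
      nlinarith [norm_nonneg (v - u)]
  · have e : u + s • (v - u) = (1 - s) • u + s • v := by module
    rw [e]
    calc ‖(1 - s) • u + s • v‖ ≤ ‖(1 - s) • u‖ + ‖s • v‖ := norm_add_le _ _
      _ = 1 := by
        rw [norm_smul, norm_smul, Real.norm_of_nonneg h0,
          Real.norm_of_nonneg (by linarith : (0:ℝ) ≤ 1 - s), hu, hv]; ring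

theorem g1_inner {n : ℕ} {u v : E n} (hu : ‖u‖ = 1) (hv : ‖v‖ = 1) (s : ℝ) :
    ⟪u + s • (v - u), v - u⟫ = (s - 1 / 2) * ‖v - u‖ ^ 2 := by
  have h1 : ‖v - u‖ ^ 2 = 2 - 2 * ⟪u, v⟫ := by
    rw [norm_sub_sq_real, hu, hv, real_inner_comm]; ring
  rw [inner_add_left, inner_smul_left, real_inner_self_eq_norm_sq, inner_sub_right,
    real_inner_self_eq_norm_sq, hu]
  simp only [conj_trivial]
  linarith [h1]

/-- the bound near the diagonal -/
theorem g1_near {n : ℕ} {K : Set (E n)} {h : E n → ℝ} {X : E n → E n} (G : Good K h X) :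
    ∃ c δ : ℝ, 0 < c ∧ 0 < δ ∧ ∀ u v : E n, ‖u‖ = 1 → ‖v‖ = 1 → ‖v - u‖ ≤ δ →
      c * ‖v - u‖ ^ 2 ≤ h v - ⟪X u, v⟫ := by
  obtain ⟨m, hm, hQ⟩ := g1_Qmin G
  refine ⟨m / 4, min 1 (Real.sqrt m), by positivity, lt_min one_pos (Real.sqrt_pos.2 hm), ?_⟩
  intro u v hu hv huv
  have huv1 : ‖v - u‖ ≤ 1 := huv.trans (min_le_left _ _)
  have huv2 : ‖v - u‖ ^ 2 ≤ m := by
    have := huv.trans (min_le_right _ _)
    calc ‖v - u‖ ^ 2 ≤ (Real.sqrt m) ^ 2 := by gcongr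
      _ = m := Real.sq_sqrt hm.le
  set p : E n := v - u with hp
  have hu0 : u ≠ 0 := by
    intro h; rw [h] at hu; simp at hu
  have hne : ∀ s ∈ Icc (0:ℝ) 1, u + s • p ≠ 0 := by
    intro s hs h0
    have := (g1_seg hu hv huv1 hs.1 hs.2).1
    rw [← hp, h0] at this
    simp at this
    linarith
  have hline : ∀ s : ℝ, HasDerivAt (fun t : ℝ => u + t • p) p s := by
    intro s
    simpa using ((hasDerivAt_id s).smul_const p).const_add u
  -- first derivative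
  have hd1 : ∀ s ∈ Icc (0:ℝ) 1, HasDerivAt (fun t : ℝ => h (u + t • p) - ⟪X u, u + t • p⟫
      - m / 4 * ‖p‖ ^ 2 * t ^ 2) (⟪X (u + s • p), p⟫ - ⟪X u, p⟫ - m / 2 * ‖p‖ ^ 2 * s) s := by
    intro s hs
    have a1 : HasDerivAt (fun t : ℝ => h (u + t • p)) (⟪X (u + s • p), p⟫) s := by
      have a0 : HasDerivAt (fun t : ℝ => h (u + t • p)) (innerSL ℝ (X (u + s • p)) p) s :=
        (G.grad _ (hne s hs)).comp_hasDerivAt s (hline s)
      exact a0
    have a2 : HasDerivAt (fun t : ℝ => ⟪X u, u + t • p⟫) (⟪X u, p⟫) s := by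
      have := (hasDerivAt_const s (X u)).inner ℝ (hline s)
      simpa using this
    have a3 : HasDerivAt (fun t : ℝ => m / 4 * ‖p‖ ^ 2 * t ^ 2) (m / 2 * ‖p‖ ^ 2 * s) s := by
      have := ((hasDerivAt_id s).pow 2).const_mul (m / 4 * ‖p‖ ^ 2)
      refine this.congr_deriv ?_
      simp; ring
    exact (a1.sub a2).sub a3
  have hd2 : ∀ s ∈ Icc (0:ℝ) 1, HasDerivAt
      (fun s : ℝ => ⟪X (u + s • p), p⟫ - ⟪X u, p⟫ - m / 2 * ‖p‖ ^ 2 * s)
      (⟪fderiv ℝ X (u + s • p) p, p⟫ - m / 2 * ‖p‖ ^ 2) s := by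
    intro s hs
    have a1 : HasDerivAt (fun t : ℝ => X (u + t • p)) (fderiv ℝ X (u + s • p) p) s :=
      (g1_diff G (hne s hs)).hasFDerivAt.comp_hasDerivAt s (hline s)
    have a2 : HasDerivAt (fun t : ℝ => ⟪X (u + t • p), p⟫) (⟪fderiv ℝ X (u + s • p) p, p⟫) s := by
      have := a1.inner ℝ (hasDerivAt_const s p)
      simpa using this
    have a3 : HasDerivAt (fun t : ℝ => m / 2 * ‖p‖ ^ 2 * t) (m / 2 * ‖p‖ ^ 2) s := by
      simpa using (hasDerivAt_id s).const_mul (m / 2 * ‖p‖ ^ 2)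
    exact (a2.sub_const _).sub a3
  have hmono2 : MonotoneOn (fun s : ℝ => ⟪X (u + s • p), p⟫ - ⟪X u, p⟫ - m / 2 * ‖p‖ ^ 2 * s)
      (Icc (0:ℝ) 1) := by
    refine monotoneOn_of_deriv_nonneg (convex_Icc 0 1)
      (fun s hs => (hd2 s hs).continuousAt.continuousWithinAt)
      (fun s hs => ((hd2 s (interior_subset hs)).differentiableAt.differentiableWithinAt)) ?_
    intro s hs
    have hs' := interior_subset hs
    rw [(hd2 s hs').deriv]
    have hq := hQ (u + s • p) (g1_seg hu hv huv1 hs'.1 hs'.2).1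
      (g1_seg hu hv huv1 hs'.1 hs'.2).2 p
    have hin : ⟪u + s • p, p⟫ = (s - 1 / 2) * ‖p‖ ^ 2 := g1_inner hu hv s
    rw [hin] at hq
    have hsq : (s - 1 / 2) ^ 2 ≤ 1 / 4 := by nlinarith [hs'.1, hs'.2]
    have h4 : ((s - 1 / 2) * ‖p‖ ^ 2) ^ 2 ≤ 1 / 4 * m * ‖p‖ ^ 2 := by
      have : ((s - 1 / 2) * ‖p‖ ^ 2) ^ 2 = (s - 1 / 2) ^ 2 * (‖p‖ ^ 2 * ‖p‖ ^ 2) := by ring
      rw [this]
      calc (s - 1 / 2) ^ 2 * (‖p‖ ^ 2 * ‖p‖ ^ 2) ≤ 1 / 4 * (m * ‖p‖ ^ 2) := by gcongr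
        _ = 1 / 4 * m * ‖p‖ ^ 2 := by ring
    nlinarith [sq_nonneg ‖p‖, mul_nonneg hm.le (sq_nonneg ‖p‖)]
  have hg : ∀ s ∈ Icc (0:ℝ) 1, 0 ≤ ⟪X (u + s • p), p⟫ - ⟪X u, p⟫ - m / 2 * ‖p‖ ^ 2 * s := by
    intro s hs
    have := hmono2 (left_mem_Icc.2 zero_le_one) hs hs.1
    simpa using this
  have hmono1 : MonotoneOn (fun t : ℝ => h (u + t • p) - ⟪X u, u + t • p⟫
      - m / 4 * ‖p‖ ^ 2 * t ^ 2) (Icc (0:ℝ) 1) := by
    refine monotoneOn_of_deriv_nonneg (convex_Icc 0 1)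
      (fun s hs => (hd1 s hs).continuousAt.continuousWithinAt)
      (fun s hs => ((hd1 s (interior_subset hs)).differentiableAt.differentiableWithinAt)) ?_
    intro s hs
    have hs' := interior_subset hs
    rw [(hd1 s hs').deriv]
    exact hg s hs'
  have hfin := hmono1 (left_mem_Icc.2 zero_le_one) (right_mem_Icc.2 zero_le_one) zero_le_one
  have hup : u + p = v := by rw [hp]; abel
  simp only [zero_smul, add_zero, one_smul, hup, G.eq u hu0] at hfin
  linarith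

theorem g1_hpos {n : ℕ} {K : Set (E n)} {h : E n → ℝ} {X : E n → E n} (G : Good K h X)
    {u : E n} (hu : u ≠ 0) : 0 < h u := by
  obtain ⟨ε, hε, hball⟩ := Metric.isOpen_iff.1 isOpen_interior 0 G.zero_mem
  have hun : 0 < ‖u‖ := norm_pos_iff.2 hu
  have hm : (ε / 2 / ‖u‖) • u ∈ K := by
    apply interior_subset
    apply hball
    rw [mem_ball, dist_zero_right, norm_smul, Real.norm_of_nonneg (by positivity)]
    have : ε / 2 / ‖u‖ * ‖u‖ = ε / 2 := by field_simp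
    rw [this]; linarith
  have := G.le _ hm u
  rw [inner_smul_left, real_inner_self_eq_norm_sq] at this
  simp only [conj_trivial] at this
  have h2 : 0 < ε / 2 / ‖u‖ * ‖u‖ ^ 2 := by positivity
  linarith

/-- strictness -/
theorem g1_strict {n : ℕ} {K : Set (E n)} {h : E n → ℝ} {X : E n → E n} (G : Good K h X)
    {u v : E n} (hu : ‖u‖ = 1) (hv : ‖v‖ = 1) (huv : u ≠ v) : 0 < h v - ⟪X u, v⟫ := by
  have hu0 : u ≠ 0 := by
    intro h; rw [h] at hu; simp at hu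
  have hv0 : v ≠ 0 := by
    intro h; rw [h] at hv; simp at hv
  have hge : 0 ≤ h v - ⟪X u, v⟫ := sub_nonneg.2 (G.le _ (G.mem u hu0) v)
  rcases hge.lt_or_eq with h1 | h1
  · exact h1
  exfalso
  obtain ⟨c, δ, hc, hδ, hnear⟩ := g1_near G
  by_cases hanti : v = -u
  · rw [hanti] at h1
    rw [inner_neg_right, G.eq u hu0] at h1
    have a := g1_hpos G hu0
    have b := g1_hpos G (neg_ne_zero.2 hu0)
    linarith
  -- the path
  have huv2 : ‖v - u‖ ≤ 2 := by
    calc ‖v - u‖ ≤ ‖v‖ + ‖u‖ := norm_sub_le _ _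
      _ = 2 := by rw [hu, hv]; norm_num
  set s : ℝ := min (1 / 4) (δ / 4) with hs
  have hs0 : 0 < s := lt_min (by norm_num) (by linarith)
  have hs1 : s ≤ 1 / 4 := min_le_left _ _
  have hs2 : s ≤ δ / 4 := min_le_right _ _
  set w : E n := u + s • (v - u) with hw
  have hwu : ‖w - u‖ ≤ 2 * s := by
    have : w - u = s • (v - u) := by rw [hw]; abel
    rw [this, norm_smul, Real.norm_of_nonneg hs0.le]
    nlinarith
  have hwn : 1 / 2 ≤ ‖w‖ := by
    have := norm_sub_norm_le u w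
    rw [norm_sub_rev] at this
    linarith
  have hw0 : w ≠ 0 := by
    intro h; rw [h] at hwn; simp at hwn; linarith
  have hwn0 : 0 < ‖w‖ := by linarith
  have hwe : w = (1 - s) • u + s • v := by rw [hw]; module
  have hle : h w ≤ ⟪X u, w⟫ := by
    have e1 : h w = (1 - s) * ⟪X w, u⟫ + s * ⟪X w, v⟫ := by
      rw [← G.eq w hw0]
      have e3 : ∀ x : E n, ⟪x, w⟫ = (1 - s) * ⟪x, u⟫ + s * ⟪x, v⟫ := by
        intro x
        rw [hwe, inner_add_right, inner_smul_right, inner_smul_right]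
      exact e3 (X w)
    have e2 : ⟪X u, w⟫ = (1 - s) * h u + s * h v := by
      rw [hwe, inner_add_right, inner_smul_right, inner_smul_right, G.eq u hu0]
      have : ⟪X u, v⟫ = h v := by linarith
      rw [this]
    rw [e1, e2]
    have a1 := G.le _ (G.mem w hw0) u
    have a2 := G.le _ (G.mem w hw0) v
    have : 0 ≤ 1 - s := by linarith
    gcongr
  set z : E n := ‖w‖⁻¹ • w with hz
  have hzn : ‖z‖ = 1 := by
    rw [hz, norm_smul, norm_inv, norm_norm]; field_simp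
  have hzw : ‖z - w‖ ≤ 2 * s := by
    have : z - w = (‖w‖⁻¹ - 1) • w := by rw [hz]; module
    rw [this, norm_smul]
    have e : ‖‖w‖⁻¹ - 1‖ * ‖w‖ = |1 - ‖w‖| := by
      rw [Real.norm_eq_abs, ← abs_of_pos hwn0, ← abs_mul]
      simp only [abs_norm]
      congr 1
      field_simp
    rw [e]
    have := abs_norm_sub_norm_le u w
    rw [hu, norm_sub_rev] at this
    linarith
  have hzu : ‖z - u‖ ≤ δ := by
    calc ‖z - u‖ = ‖(z - w) + (w - u)‖ := by congr 1; abel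
      _ ≤ ‖z - w‖ + ‖w - u‖ := norm_add_le _ _
      _ ≤ δ := by linarith
  have hn := hnear u z hu hzn hzu
  have hz0 : h z - ⟪X u, z⟫ ≤ 0 := by
    rw [hz, G.homog _ _ (by positivity), inner_smul_right, ← mul_sub]
    exact mul_nonpos_of_nonneg_of_nonpos (by positivity) (by linarith)
  have hzu0 : ‖z - u‖ ^ 2 ≤ 0 := by
    by_contra hcon
    push Not at hcon
    have : 0 < c * ‖z - u‖ ^ 2 := by positivity
    linarith
  have hzu1 : z = u := by
    have : ‖z - u‖ = 0 := by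
      have := sq_nonneg ‖z - u‖
      exact pow_eq_zero_iff (two_ne_zero) |>.1 (le_antisymm hzu0 this)
    exact sub_eq_zero.1 (norm_eq_zero.1 this)
  have hwv : w = ‖w‖ • u := by
    rw [← hzu1, hz, smul_smul, mul_inv_cancel₀ hwn0.ne', one_smul]
  have hvb : v = ((‖w‖ - 1 + s) / s) • u := by
    have e1 : s • v = (‖w‖ - 1 + s) • u := by
      have : s • v = w - (1 - s) • u := by
        rw [hwe]; abel
      rw [this]
      conv_lhs => rw [hwv]
      module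
    calc v = s⁻¹ • (s • v) := by rw [smul_smul, inv_mul_cancel₀ hs0.ne', one_smul]
      _ = ((‖w‖ - 1 + s) / s) • u := by rw [e1, smul_smul]; congr 1; field_simp
  have habs : |(‖w‖ - 1 + s) / s| = 1 := by
    have := hv
    rw [hvb, norm_smul, hu, mul_one, Real.norm_eq_abs] at this
    exact this
  rcases eq_or_eq_neg_of_abs_eq habs with hb | hb
  · rw [hb, one_smul] at hvb
    exact huv hvb.symm
  · rw [hb, neg_smul, one_smul] at hvb
    exact hanti hvb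

theorem g1_ne {n : ℕ} {u : E n} (hu : ‖u‖ = 1) : u ≠ 0 := by
  intro h; rw [h] at hu; simp at hu

theorem g1_hcont {n : ℕ} {K : Set (E n)} {h : E n → ℝ} {X : E n → E n} (G : Good K h X) :
    ContinuousOn h {0}ᶜ := fun u hu => (G.grad u hu).continuousAt.continuousWithinAt

theorem g1_lower {n : ℕ} {K : Set (E n)} {h : E n → ℝ} {X : E n → E n} (G : Good K h X) :
    ∃ c : ℝ, 0 < c ∧ ∀ u v : E n, ‖u‖ = 1 → ‖v‖ = 1 →
      c * ‖v - u‖ ^ 2 ≤ h v - ⟪X u, v⟫ := by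
  obtain ⟨c, δ, hc, hδ, hnear⟩ := g1_near G
  have hT : IsCompact ((sphere (0 : E n) 1 ×ˢ sphere (0 : E n) 1) ∩ {q | δ ≤ ‖q.2 - q.1‖}) :=
    ((isCompact_sphere _ _).prod (isCompact_sphere _ _)).inter_right
      (isClosed_le continuous_const (continuous_snd.sub continuous_fst).norm)
  have hcont : ContinuousOn (fun q : E n × E n => h q.2 - ⟪X q.1, q.2⟫)
      ((sphere (0 : E n) 1 ×ˢ sphere (0 : E n) 1) ∩ {q | δ ≤ ‖q.2 - q.1‖}) := by
    refine ((g1_hcont G).comp continuousOn_snd ?_).sub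
      (((G.c1.continuousOn).comp continuousOn_fst ?_).inner continuousOn_snd)
    · intro q hq
      exact g1_ne (by simpa using hq.1.2)
    · intro q hq
      exact g1_ne (by simpa using hq.1.1)
  obtain ⟨c', hc', hmin⟩ := hT.exists_forall_le' hcont (a := 0) (by
    intro q hq
    refine g1_strict G (by simpa using hq.1.1) (by simpa using hq.1.2) ?_
    intro he
    have := hq.2
    simp only [mem_setOf_eq, he, sub_self, norm_zero] at this
    linarith)
  refine ⟨min c (c' / 4), lt_min hc (by positivity), ?_⟩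
  intro u v hu hv
  by_cases hd : ‖v - u‖ ≤ δ
  · refine le_trans ?_ (hnear u v hu hv hd)
    gcongr
    exact min_le_left _ _
  · push Not at hd
    have h1 := hmin (u, v) ⟨⟨by simpa using hu, by simpa using hv⟩, hd.le⟩
    have huv2 : ‖v - u‖ ≤ 2 := by
      calc ‖v - u‖ ≤ ‖v‖ + ‖u‖ := norm_sub_le _ _
        _ = 2 := by rw [hu, hv]; norm_num
    refine le_trans ?_ h1
    calc min c (c' / 4) * ‖v - u‖ ^ 2 ≤ c' / 4 * 2 ^ 2 := by
          gcongr
          exact min_le_right _ _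
      _ = c' := by ring

theorem g1_lip {n : ℕ} {K : Set (E n)} {h : E n → ℝ} {X : E n → E n} (G : Good K h X) :
    ∃ C : ℝ, 0 ≤ C ∧ ∀ u v : E n, ‖u‖ = 1 → ‖v‖ = 1 → ‖X v - X u‖ ≤ C * ‖v - u‖ := by
  obtain ⟨M, hM⟩ := (g1_annulus (n := n)).exists_bound_of_continuousOn
    ((g1_cont G).mono (fun w hw h0 => by
      rw [h0] at hw
      have := hw.1
      simp at this
      linarith))
  obtain ⟨B, hB⟩ := (isCompact_sphere (0 : E n) 1).exists_bound_of_continuousOn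
    (G.c1.continuousOn.mono (fun w hw => g1_ne (by simpa using hw)))
  refine ⟨max (max M (2 * B)) 0, le_max_right _ _, ?_⟩
  intro u v hu hv
  by_cases hd : ‖v - u‖ ≤ 1
  · have hseg : ∀ w ∈ segment ℝ u v, 1 / 2 ≤ ‖w‖ ∧ ‖w‖ ≤ 1 := by
      intro w hw
      rw [segment_eq_image'] at hw
      obtain ⟨s, hs, rfl⟩ := hw
      exact g1_seg hu hv hd hs.1 hs.2
    have hne : ∀ w ∈ segment ℝ u v, w ≠ 0 := by
      intro w hw h0
      have := (hseg w hw).1
      rw [h0] at this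
      simp at this
      linarith
    have := Convex.norm_image_sub_le_of_norm_fderiv_le (𝕜 := ℝ) (f := X) (C := M)
      (fun w hw => g1_diff G (hne w hw)) (fun w hw => hM w (hseg w hw)) (convex_segment u v)
      (left_mem_segment ℝ u v) (right_mem_segment ℝ u v)
    refine this.trans ?_
    gcongr
    exact (le_max_left _ _).trans (le_max_left _ _)
  · push Not at hd
    have h1 : ‖X v - X u‖ ≤ 2 * B := by
      have a := hB v (by simpa using hv)
      have b := hB u (by simpa using hu)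
      have := norm_sub_le (X v) (X u)
      linarith
    have hB0 : 0 ≤ 2 * B := (norm_nonneg _).trans h1
    calc ‖X v - X u‖ ≤ 2 * B := h1
      _ ≤ 2 * B * ‖v - u‖ := by nlinarith
      _ ≤ max (max M (2 * B)) 0 * ‖v - u‖ := by
        gcongr
        exact (le_max_right _ _).trans (le_max_left _ _)

theorem stG1 : StmtG1 := by
  intro n _ K h X G
  obtain ⟨c, hc, hlow⟩ := g1_lower G
  obtain ⟨C, hC, hlip⟩ := g1_lip G
  refine ⟨c, C, hc, ?_⟩
  intro u v hu hv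
  have hu0 := g1_ne hu
  have hv0 := g1_ne hv
  have hsum : (h v - ⟪X u, v⟫) + (h u - ⟪X v, u⟫) = ⟪X v - X u, v - u⟫ := by
    rw [inner_sub_right, inner_sub_left, inner_sub_left, G.eq u hu0, G.eq v hv0]
    ring
  have hcs : ⟪X v - X u, v - u⟫ ≤ ‖X v - X u‖ * ‖v - u‖ := real_inner_le_norm _ _
  have hl1 := hlip u v hu hv
  have hr : ‖u - v‖ = ‖v - u‖ := norm_sub_rev _ _
  have hr' : ‖X u - X v‖ = ‖X v - X u‖ := norm_sub_rev _ _
  rw [hr, hr']
  have ha := hlow u v hu hv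
  have hb := hlow v u hv hu
  rw [hr] at hb
  have hb0 : 0 ≤ h u - ⟪X v, u⟫ := le_trans (by positivity) hb
  have hn := norm_nonneg (v - u)
  refine ⟨ha, ?_, ?_, hl1⟩
  · nlinarith
  · by_cases h0 : ‖v - u‖ = 0
    · rw [h0]; simp
    · have hpos : 0 < ‖v - u‖ := lt_of_le_of_ne hn (Ne.symm h0)
      have h2 : c * ‖v - u‖ * ‖v - u‖ ≤ ‖X v - X u‖ * ‖v - u‖ := by nlinarith [sq_nonneg ‖v - u‖, mul_nonneg hc.le (sq_nonneg ‖v - u‖)]
      exact le_of_mul_le_mul_right h2 hpos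

end Pool.Agent.Helper890.Cov.JG1
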