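import Mathlib
import Pool.Agent.Helper890.Cov.StG




namespace Pool.Agent.Helper890.Cov.JG10
open MeasureTheory Set Filter Topology Metric
open scoped RealInnerProductSpace

/-- the kernel -/
noncomputable def g10L (κ : ℝ) (s : ℝ) : ℂ := (1 + Complex.I * (s : ℂ)) ^ (-((κ + 1 : ℝ) : ℂ))

/-- minus the derivative of the kernel -/
noncomputable def g10l (κ : ℝ) (s : ℝ) : ℂ :=
  Complex.I * ((κ + 1 : ℝ) : ℂ) * (1 + Complex.I * (s : ℂ)) ^ (-((κ + 2 : ℝ) : ℂ))

theorem g10_re (s : ℝ) : (1 + Complex.I * (s : ℂ)).re = 1 := by simp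

theorem g10_ne (s : ℝ) : (1 + Complex.I * (s : ℂ)) ≠ 0 := by
  intro h
  have := congrArg Complex.re h
  rw [g10_re] at this
  simp at this

theorem g10_slit (s : ℝ) : (1 + Complex.I * (s : ℂ)) ∈ Complex.slitPlane := by
  left
  rw [g10_re]
  exact one_pos

theorem g10_normsq (s : ℝ) : ‖(1 + Complex.I * (s : ℂ))‖ ^ 2 = 1 + s ^ 2 := by
  rw [← Complex.normSq_eq_norm_sq, Complex.normSq_apply]
  simp
  ring

theorem g10_one_le (s : ℝ) : 1 ≤ ‖(1 + Complex.I * (s : ℂ))‖ := by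
  have h := g10_normsq s
  have h0 := norm_nonneg (1 + Complex.I * (s : ℂ))
  nlinarith [sq_nonneg s]

theorem g10_abs_le (s : ℝ) : |s| ≤ ‖(1 + Complex.I * (s : ℂ))‖ := by
  have h := g10_normsq s
  have h0 := norm_nonneg (1 + Complex.I * (s : ℂ))
  apply abs_le_of_sq_le_sq _ h0
  nlinarith

theorem g10_deriv_inner (s : ℝ) : HasDerivAt (fun s : ℝ => (1 + Complex.I * (s : ℂ)))
    Complex.I s := by
  have h1 : HasDerivAt (fun s : ℝ => (s : ℂ)) 1 s := Complex.ofRealCLM.hasDerivAt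
  have h2 := (h1.const_mul Complex.I).const_add 1
  simpa using h2

theorem g10_deriv (κ s : ℝ) : HasDerivAt (g10L κ) (-(g10l κ s)) s := by
  have h0 : HasDerivAt (fun z : ℂ => z ^ (-((κ + 1 : ℝ) : ℂ)))
      (-((κ + 1 : ℝ) : ℂ) * (1 + Complex.I * (s : ℂ)) ^ (-((κ + 1 : ℝ) : ℂ) - 1))
      (1 + Complex.I * (s : ℂ)) := (Complex.hasStrictDerivAt_cpow_const (g10_slit s)).hasDerivAt
  have h : HasDerivAt (g10L κ) (Complex.I • (-((κ + 1 : ℝ) : ℂ) *
      (1 + Complex.I * (s : ℂ)) ^ (-((κ + 1 : ℝ) : ℂ) - 1))) s := by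
    have := HasDerivAt.scomp (g₁ := fun z : ℂ => z ^ (-((κ + 1 : ℝ) : ℂ))) s h0 (g10_deriv_inner s)
    exact this
  refine h.congr_deriv ?_
  unfold g10l
  have e1 : -((κ + 1 : ℝ) : ℂ) - 1 = -((κ + 2 : ℝ) : ℂ) := by push_cast; ring
  rw [e1, smul_eq_mul]
  ring

theorem g10_continuous_l (κ : ℝ) : Continuous (g10l κ) := by
  unfold g10l
  refine Continuous.mul continuous_const ?_
  refine Continuous.cpow (by fun_prop) continuous_const (fun s => g10_slit s)

theorem g10_norm_l {κ : ℝ} (hκ : 0 ≤ κ) (s : ℝ) :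
    ‖g10l κ s‖ = (κ + 1) * ‖(1 + Complex.I * (s : ℂ))‖ ^ (-(κ + 2)) := by
  unfold g10l
  rw [norm_mul, norm_mul, Complex.norm_I, one_mul, Complex.norm_real, Real.norm_eq_abs,
    abs_of_nonneg (by linarith)]
  rw [← Complex.ofReal_neg, Complex.norm_cpow_real]

theorem g10_rpow_two (s : ℝ) : ‖(1 + Complex.I * (s : ℂ))‖ ^ (-(2 : ℝ)) = (1 + s ^ 2)⁻¹ := by
  rw [Real.rpow_neg (norm_nonneg _), Real.rpow_two, g10_normsq]

/-- the main bound -/
theorem g10_bound {κ : ℝ} (hκ : 0 ≤ κ) {s : ℝ} (hs : 0 ≤ s) :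
    ‖g10l κ s‖ * s ^ κ ≤ (κ + 1) * (1 + s ^ 2)⁻¹ := by
  rw [g10_norm_l hκ, ← g10_rpow_two, mul_assoc]
  refine mul_le_mul_of_nonneg_left ?_ (by linarith)
  have hN := g10_one_le s
  have hN0 : 0 < ‖(1 + Complex.I * (s : ℂ))‖ := by linarith
  have h1 : s ^ κ ≤ ‖(1 + Complex.I * (s : ℂ))‖ ^ κ :=
    Real.rpow_le_rpow hs ((le_abs_self s).trans (g10_abs_le s)) hκ
  calc ‖(1 + Complex.I * (s : ℂ))‖ ^ (-(κ + 2)) * s ^ κ
      ≤ ‖(1 + Complex.I * (s : ℂ))‖ ^ (-(κ + 2)) * ‖(1 + Complex.I * (s : ℂ))‖ ^ κ :=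
        mul_le_mul_of_nonneg_left h1 (Real.rpow_nonneg hN0.le _)
    _ = ‖(1 + Complex.I * (s : ℂ))‖ ^ (-(2 : ℝ)) := by
        rw [← Real.rpow_add hN0]; congr 1; ring

theorem g10_bound' {κ : ℝ} (hκ : 0 ≤ κ) (s : ℝ) :
    ‖g10l κ s‖ ≤ (κ + 1) * (1 + s ^ 2)⁻¹ := by
  rw [g10_norm_l hκ, ← g10_rpow_two]
  refine mul_le_mul_of_nonneg_left ?_ (by linarith)
  exact Real.rpow_le_rpow_of_exponent_le (g10_one_le s) (by linarith)

theorem g10_integrable_l {κ : ℝ} (hκ : 0 ≤ κ) : Integrable (g10l κ) := by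
  refine Integrable.mono' (integrable_inv_one_add_sq.const_mul (κ + 1))
    (g10_continuous_l κ).aestronglyMeasurable (Eventually.of_forall fun s => g10_bound' hκ s)

theorem g10_tendsto_L {κ : ℝ} (hκ : 0 ≤ κ) : Tendsto (g10L κ) atTop (𝓝 0) := by
  rw [tendsto_zero_iff_norm_tendsto_zero]
  refine squeeze_zero' (Eventually.of_forall fun s => norm_nonneg _) ?_
    (tendsto_inv_atTop_zero (𝕜 := ℝ))
  filter_upwards [eventually_gt_atTop 0] with s hs
  unfold g10L
  rw [← Complex.ofReal_neg, Complex.norm_cpow_real]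
  have h1 : ‖(1 + Complex.I * (s : ℂ))‖ ^ (-(κ + 1)) ≤ ‖(1 + Complex.I * (s : ℂ))‖ ^ (-(1 : ℝ)) :=
    Real.rpow_le_rpow_of_exponent_le (g10_one_le s) (by linarith)
  refine h1.trans ?_
  rw [Real.rpow_neg_one]
  exact inv_anti₀ hs ((le_abs_self s).trans (g10_abs_le s))

theorem g10_L_eq {κ : ℝ} (hκ : 0 ≤ κ) (a : ℝ) : g10L κ a = ∫ s in Ioi a, g10l κ s := by
  have h := integral_Ioi_of_hasDerivAt_of_tendsto' (a := a) (f := g10L κ)
    (f' := fun s => -(g10l κ s)) (fun s _ => g10_deriv κ s)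
    (g10_integrable_l hκ).neg.integrableOn (g10_tendsto_L hκ)
  rw [integral_neg, zero_sub] at h
  exact (neg_injective h).symm

/-- Fubini -/
theorem g10_fubini {α : Type*} [MeasurableSpace α] (μ : Measure α) [IsFiniteMeasure μ]
    {y : α → ℝ} (hy : Measurable y) (hy0 : ∀ᵐ x ∂μ, 0 ≤ y x) {κ T : ℝ} (hκ : 0 ≤ κ)
    (hT : 0 < T) :
    ∫ x, g10L κ (T * y x) ∂μ = ∫ s in Ioi (0 : ℝ), g10l κ s * ((μ.real {x | y x ≤ s / T} : ℝ) : ℂ) := by
  have hmeas : MeasurableSet {p : α × ℝ | T * y p.1 ≤ p.2} :=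
    measurableSet_le ((hy.comp measurable_fst).const_mul T) measurable_snd
  set f : α → ℝ → ℂ := fun x s => {p : α × ℝ | T * y p.1 ≤ p.2}.indicator (fun p => g10l κ p.2) (x, s)
    with hf
  have hint : Integrable (Function.uncurry f) (μ.prod (volume.restrict (Ioi (0 : ℝ)))) := by
    have h1 : Integrable (fun p : α × ℝ => g10l κ p.2) (μ.prod (volume.restrict (Ioi (0 : ℝ)))) :=
      (g10_integrable_l hκ).integrableOn.integrable.comp_snd μ
    have h2 := h1.indicator hmeas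
    exact h2
  have hsw := integral_integral_swap hint
  have hL : ∫ x, g10L κ (T * y x) ∂μ = ∫ x, (∫ s in Ioi (0 : ℝ), f x s) ∂μ := by
    apply integral_congr_ae
    filter_upwards [hy0] with x hx
    rw [g10_L_eq hκ]
    have h3 : ∀ s, f x s = (Ici (T * y x)).indicator (g10l κ) s := by
      intro s
      simp only [hf]
      by_cases hs : T * y x ≤ s
      · rw [indicator_of_mem (show (x, s) ∈ {p : α × ℝ | T * y p.1 ≤ p.2} from hs),
          indicator_of_mem (show s ∈ Ici (T * y x) from hs)]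
      · rw [indicator_of_notMem (show (x, s) ∉ {p : α × ℝ | T * y p.1 ≤ p.2} from hs),
          indicator_of_notMem (show s ∉ Ici (T * y x) from hs)]
    simp_rw [h3]
    rw [setIntegral_indicator measurableSet_Ici]
    have hTy : 0 ≤ T * y x := mul_nonneg hT.le hx
    have h4 : (Ioi (0 : ℝ) ∩ Ici (T * y x) : Set ℝ) =ᵐ[volume] (Ioi (T * y x) : Set ℝ) := by
      rcases hTy.eq_or_lt with h0 | h0
      · rw [← h0]
        have : Ioi (0 : ℝ) ∩ Ici 0 = Ioi 0 := by
          ext s; simp only [mem_inter_iff, mem_Ioi, mem_Ici]; constructor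
          · exact fun h => h.1
          · exact fun h => ⟨h, h.le⟩
        rw [this]
        all_goals exact Filter.EventuallyEq.rfl
      · have : Ioi (0 : ℝ) ∩ Ici (T * y x) = Ici (T * y x) := by
          ext s; simp only [mem_inter_iff, mem_Ioi, mem_Ici]; constructor
          · exact fun h => h.2
          · exact fun h => ⟨h0.trans_le h, h⟩
        rw [this]
        exact Ioi_ae_eq_Ici.symm
    exact (setIntegral_congr_set h4).symm
  rw [hL, hsw]
  apply integral_congr_ae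
  filter_upwards with s
  have h5 : ∀ x, f x s = {x | y x ≤ s / T}.indicator (fun _ => g10l κ s) x := by
    intro x
    simp only [hf]
    by_cases hs : T * y x ≤ s
    · rw [indicator_of_mem (show (x, s) ∈ {p : α × ℝ | T * y p.1 ≤ p.2} from hs),
        indicator_of_mem (show x ∈ {x | y x ≤ s / T} from by
          show y x ≤ s / T
          rw [le_div_iff₀ hT, mul_comm]; exact hs)]
    · rw [indicator_of_notMem (show (x, s) ∉ {p : α × ℝ | T * y p.1 ≤ p.2} from hs),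
        indicator_of_notMem (show x ∉ {x | y x ≤ s / T} from by
          show ¬ (y x ≤ s / T)
          rw [le_div_iff₀ hT, mul_comm]; exact hs)]
  simp_rw [h5]
  have h6 : MeasurableSet {x | y x ≤ s / T} := measurableSet_le hy measurable_const
  rw [integral_indicator h6, setIntegral_const]
  rw [Complex.real_smul, mul_comm]

theorem g10_fubini' {α : Type*} [MeasurableSpace α] (μ : Measure α) [IsFiniteMeasure μ]
    {y : α → ℝ} (hy : Measurable y) (hy0 : ∀ᵐ x ∂μ, 0 ≤ y x) {κ T : ℝ} (hκ : 0 ≤ κ)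
    (hT : 0 < T) :
    ((T ^ κ : ℝ) : ℂ) * ∫ x, g10L κ (T * y x) ∂μ = ∫ s in Ioi (0 : ℝ),
      (g10l κ s * ((s ^ κ : ℝ) : ℂ)) * ((μ.real {x | y x ≤ s / T} / (s / T) ^ κ : ℝ) : ℂ) := by
  rw [g10_fubini μ hy hy0 hκ hT, ← integral_const_mul]
  apply setIntegral_congr_fun measurableSet_Ioi
  intro s hs
  have hs0 : (0 : ℝ) < s := hs
  have h1 : 0 < s ^ κ := Real.rpow_pos_of_pos hs0 _
  have h2 : 0 < T ^ κ := Real.rpow_pos_of_pos hT _
  beta_reduce
  rw [Real.div_rpow hs0.le hT.le]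
  have h1' : ((s ^ κ : ℝ) : ℂ) ≠ 0 := Complex.ofReal_ne_zero.2 h1.ne'
  have h2' : ((T ^ κ : ℝ) : ℂ) ≠ 0 := Complex.ofReal_ne_zero.2 h2.ne'
  rw [Complex.ofReal_div, Complex.ofReal_div]
  generalize ((μ.real {x | y x ≤ s / T} : ℝ) : ℂ) = m
  field_simp

theorem g10_integrable_phi {κ : ℝ} (hκ : 0 ≤ κ) :
    IntegrableOn (fun s : ℝ => g10l κ s * ((s ^ κ : ℝ) : ℂ)) (Ioi 0) := by
  refine Integrable.mono' (integrable_inv_one_add_sq.const_mul (κ + 1)).integrableOn ?_ ?_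
  · refine (Continuous.mul (g10_continuous_l κ) ?_).aestronglyMeasurable
    exact Complex.continuous_ofReal.comp (Real.continuous_rpow_const hκ)
  · rw [ae_restrict_iff' measurableSet_Ioi]
    filter_upwards with s hs
    rw [norm_mul, Complex.norm_real, Real.norm_eq_abs, abs_of_nonneg (Real.rpow_nonneg (le_of_lt hs) _)]
    exact g10_bound hκ (le_of_lt hs)

theorem g10_antideriv {κ : ℝ} (hκ : 0 ≤ κ) {s : ℝ} (hs : 0 < s) :
    HasDerivAt (fun s : ℝ => Complex.I * (((s ^ (κ + 1) : ℝ) : ℂ) * g10L κ s))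
      (g10l κ s * ((s ^ κ : ℝ) : ℂ)) s := by
  have h1 : HasDerivAt (fun s : ℝ => s ^ (κ + 1)) ((κ + 1) * s ^ κ) s := by
    have := Real.hasDerivAt_rpow_const (x := s) (p := κ + 1) (Or.inl hs.ne')
    simpa using this
  have h2 := h1.ofReal_comp
  have h3 := (h2.mul (g10_deriv κ s)).const_mul Complex.I
  refine HasDerivAt.congr_deriv h3 ?_
  unfold g10l g10L
  have e1 : (1 + Complex.I * (s : ℂ)) ^ (-((κ + 1 : ℝ) : ℂ)) =
      (1 + Complex.I * (s : ℂ)) ^ (-((κ + 2 : ℝ) : ℂ)) * (1 + Complex.I * (s : ℂ)) := by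
    have e2 : -((κ + 1 : ℝ) : ℂ) = -((κ + 2 : ℝ) : ℂ) + 1 := by push_cast; ring
    rw [e2, Complex.cpow_add _ _ (g10_ne s), Complex.cpow_one]
  have e3 : ((s ^ (κ + 1) : ℝ) : ℂ) = ((s ^ κ : ℝ) : ℂ) * (s : ℂ) := by
    rw [Real.rpow_add_one hs.ne']
    push_cast
    ring
  rw [e1, e3]
  push_cast
  have hI : Complex.I ^ 2 = -1 := Complex.I_sq
  ring

theorem g10_limit (κ : ℝ) : Tendsto (fun s : ℝ => Complex.I * (((s ^ (κ + 1) : ℝ) : ℂ) * g10L κ s))
    atTop (𝓝 (Complex.exp (Complex.I * ((-(Real.pi * κ / 2) : ℝ) : ℂ)))) := by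
  have h1 : Tendsto (fun s : ℝ => Complex.I * ((((s⁻¹ : ℝ) : ℂ) + Complex.I) ^ (-((κ + 1 : ℝ) : ℂ))))
      atTop (𝓝 (Complex.I * (Complex.I ^ (-((κ + 1 : ℝ) : ℂ))))) := by
    refine Tendsto.const_mul _ ?_
    have h2 : Tendsto (fun s : ℝ => (((s⁻¹ : ℝ) : ℂ) + Complex.I)) atTop (𝓝 Complex.I) := by
      have h3 : Tendsto (fun s : ℝ => ((s⁻¹ : ℝ) : ℂ)) atTop (𝓝 ((0 : ℝ) : ℂ)) :=
        (Complex.continuous_ofReal.tendsto 0).comp (tendsto_inv_atTop_zero (𝕜 := ℝ))
      have h4 := h3.add_const Complex.I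
      simpa using h4
    have h5 : ContinuousAt (fun z : ℂ => z ^ (-((κ + 1 : ℝ) : ℂ))) Complex.I := by
      refine continuousAt_cpow_const ?_
      right
      simp
    exact h5.tendsto.comp h2
  have hval : Complex.I * (Complex.I ^ (-((κ + 1 : ℝ) : ℂ))) =
      Complex.exp (Complex.I * ((-(Real.pi * κ / 2) : ℝ) : ℂ)) := by
    rw [Complex.cpow_def_of_ne_zero Complex.I_ne_zero, Complex.log_I]
    have e1 : Complex.I = Complex.exp (Real.pi / 2 * Complex.I) := by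
      rw [Complex.exp_pi_div_two_mul_I]
    conv_lhs => rw [e1]
    rw [← Complex.exp_add]
    congr 1
    rw [← e1]
    push_cast
    ring
  rw [hval] at h1
  refine h1.congr' ?_
  filter_upwards [eventually_gt_atTop 0] with s hs
  have hz : (((s⁻¹ : ℝ) : ℂ) + Complex.I) ≠ 0 := by
    intro h
    have := congrArg Complex.im h
    simp at this
  have hs' : (s : ℂ) ≠ 0 := Complex.ofReal_ne_zero.2 hs.ne'
  have e2 : (1 + Complex.I * (s : ℂ)) = (s : ℂ) * (((s⁻¹ : ℝ) : ℂ) + Complex.I) := by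
    push_cast
    field_simp
  unfold g10L
  rw [e2, Complex.cpow_def_of_ne_zero (mul_ne_zero hs' hz), Complex.log_ofReal_mul hs hz,
    Complex.cpow_def_of_ne_zero hz, add_mul, Complex.exp_add]
  have e3 : ((s ^ (κ + 1) : ℝ) : ℂ) = Complex.exp ((Real.log s : ℂ) * ((κ + 1 : ℝ) : ℂ)) := by
    rw [Real.rpow_def_of_pos hs]
    push_cast
    rfl
  rw [e3]
  have e4 : Complex.exp ((Real.log s : ℂ) * ((κ + 1 : ℝ) : ℂ)) *
      Complex.exp ((Real.log s : ℂ) * -((κ + 1 : ℝ) : ℂ)) = 1 := by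
    rw [← Complex.exp_add]
    have : (Real.log s : ℂ) * ((κ + 1 : ℝ) : ℂ) + (Real.log s : ℂ) * -((κ + 1 : ℝ) : ℂ) = 0 := by ring
    rw [this, Complex.exp_zero]
  rw [← mul_assoc (Complex.exp ((Real.log s : ℂ) * ((κ + 1 : ℝ) : ℂ))), e4, one_mul]

theorem g10_integral_phi {κ : ℝ} (hκ : 0 ≤ κ) :
    ∫ s in Ioi (0 : ℝ), g10l κ s * ((s ^ κ : ℝ) : ℂ) =
      Complex.exp (Complex.I * ((-(Real.pi * κ / 2) : ℝ) : ℂ)) := by
  have h := integral_Ioi_of_hasDerivAt_of_tendsto (a := (0 : ℝ))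
    (f := fun s : ℝ => Complex.I * (((s ^ (κ + 1) : ℝ) : ℂ) * g10L κ s))
    (f' := fun s : ℝ => g10l κ s * ((s ^ κ : ℝ) : ℂ)) ?_
    (fun s hs => g10_antideriv hκ hs) (g10_integrable_phi hκ) (g10_limit κ)
  · rw [h]
    rw [Real.zero_rpow (by linarith)]
    simp
  · apply ContinuousAt.continuousWithinAt
    refine ContinuousAt.mul continuousAt_const (ContinuousAt.mul ?_ ?_)
    · exact (Complex.continuous_ofReal.comp
        (Real.continuous_rpow_const (by linarith : (0 : ℝ) ≤ κ + 1))).continuousAt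
    · exact (g10_deriv κ 0).continuousAt

theorem g10_kap_pos (n : ℕ) : 0 < kap n := by
  unfold kap
  positivity

theorem g10_V {n : ℕ} {K : Set (E n)} (h : E n → ℝ) (u : E n) (ε : ℝ) :
    (volume.restrict K).real {x : E n | h u - ⟪x, u⟫ ≤ ε} =
      (volume : Measure (E n)).real {x | x ∈ K ∧ h u - ε ≤ ⟪x, u⟫} := by
  have hm : MeasurableSet {x : E n | h u - ⟪x, u⟫ ≤ ε} :=
    measurableSet_le (by fun_prop) measurable_const
  rw [measureReal_restrict_apply hm]
  congr 1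
  ext x
  constructor
  · rintro ⟨h1, h2⟩
    refine ⟨h2, ?_⟩
    have h1' : h u - ⟪x, u⟫ ≤ ε := h1
    linarith
  · rintro ⟨h1, h2⟩
    refine ⟨?_, h1⟩
    show h u - ⟪x, u⟫ ≤ ε
    linarith

theorem g10_rep {n : ℕ} {K : Set (E n)} {h : E n → ℝ} {X : E n → E n} (hG : Good K h X)
    {u : E n} {T : ℝ} (hT : 0 < T) :
    ((T ^ kap n : ℝ) : ℂ) * ∫ x in K, (Real.Gamma (kap n + 1) : ℂ) *
      (1 + Complex.I * ((T * (h u - ⟪x, u⟫) : ℝ) : ℂ)) ^ (-((kap n + 1 : ℝ) : ℂ)) =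
    (Real.Gamma (kap n + 1) : ℂ) * ∫ s in Ioi (0 : ℝ),
      (g10l (kap n) s * ((s ^ kap n : ℝ) : ℂ)) *
        (((volume : Measure (E n)).real {x | x ∈ K ∧ h u - s / T ≤ ⟪x, u⟫} / (s / T) ^ kap n : ℝ) : ℂ) := by
  haveI : IsFiniteMeasure (volume.restrict K : Measure (E n)) :=
    ⟨by rw [Measure.restrict_apply_univ]; exact hG.compact.measure_lt_top⟩
  have h1 := g10_fubini' (volume.restrict K : Measure (E n)) (y := fun x => h u - ⟪x, u⟫)
    (by fun_prop) (by
      refine (ae_restrict_iff' hG.compact.isClosed.measurableSet).2 (Eventually.of_forall ?_)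
      intro x hx
      have := hG.le x hx u
      linarith) (g10_kap_pos n).le hT
  rw [integral_const_mul]
  have h2 : ∫ x in K, (1 + Complex.I * ((T * (h u - ⟪x, u⟫) : ℝ) : ℂ)) ^ (-((kap n + 1 : ℝ) : ℂ)) =
      ∫ x in K, g10L (kap n) (T * (h u - ⟪x, u⟫)) := rfl
  rw [h2, mul_left_comm, h1]
  simp_rw [g10_V]

theorem stG10 (h3 : StmtG3) (h4 : StmtG4) (h5 : StmtG5) : StmtG10 := by
  intro n hn K h X hG
  obtain ⟨C0, hC0⟩ := h4 n hn K h X hG
  have hκ := g10_kap_pos n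
  have hΓ : 0 < Real.Gamma (kap n + 1) := Real.Gamma_pos_of_pos (by linarith)
  -- the bound of the integrand
  have hbd : ∀ u : E n, ‖u‖ = 1 → ∀ T : ℝ, 0 < T → ∀ s ∈ Ioi (0 : ℝ),
      ‖(g10l (kap n) s * ((s ^ kap n : ℝ) : ℂ)) *
        (((volume : Measure (E n)).real {x | x ∈ K ∧ h u - s / T ≤ ⟪x, u⟫} / (s / T) ^ kap n : ℝ) : ℂ)‖ ≤
      (kap n + 1) * (1 + s ^ 2)⁻¹ * |C0| := by
    intro u hu T hT s hs
    have hs0 : (0 : ℝ) < s := hs
    rw [norm_mul, norm_mul, Complex.norm_real, Complex.norm_real, Real.norm_eq_abs,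
      Real.norm_eq_abs, abs_of_nonneg (Real.rpow_nonneg hs0.le _)]
    have hsT : 0 < s / T := div_pos hs0 hT
    have hp : 0 < (s / T) ^ kap n := Real.rpow_pos_of_pos hsT _
    refine mul_le_mul (g10_bound hκ.le hs0.le) ?_ (abs_nonneg _) (by positivity)
    rw [abs_of_nonneg (div_nonneg measureReal_nonneg hp.le), div_le_iff₀ hp]
    exact (hC0 u hu _ hsT).trans (mul_le_mul_of_nonneg_right (le_abs_self _) hp.le)
  have hbi : Integrable (fun s : ℝ => (kap n + 1) * (1 + s ^ 2)⁻¹ * |C0|)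
      (volume.restrict (Ioi (0 : ℝ))) :=
    ((integrable_inv_one_add_sq.const_mul (kap n + 1)).mul_const _).integrableOn
  refine ⟨⟨Real.Gamma (kap n + 1) * ∫ s in Ioi (0 : ℝ), (kap n + 1) * (1 + s ^ 2)⁻¹ * |C0|, ?_⟩, ?_⟩
  · intro u hu T hT
    rw [g10_rep hG hT, norm_mul, Complex.norm_real, Real.norm_eq_abs, abs_of_pos hΓ]
    refine mul_le_mul_of_nonneg_left ?_ hΓ.le
    refine norm_integral_le_of_norm_le hbi ?_
    exact (ae_restrict_iff' measurableSet_Ioi).2 (Eventually.of_forall fun s hs => hbd u hu T hT s hs)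
  · intro u hu
    have hlim : Tendsto (fun T : ℝ => ∫ s in Ioi (0 : ℝ),
      (g10l (kap n) s * ((s ^ kap n : ℝ) : ℂ)) *
        (((volume : Measure (E n)).real {x | x ∈ K ∧ h u - s / T ≤ ⟪x, u⟫} / (s / T) ^ kap n : ℝ) : ℂ))
        atTop (𝓝 (∫ s in Ioi (0 : ℝ), (g10l (kap n) s * ((s ^ kap n : ℝ) : ℂ)) *
          ((cc n * Real.sqrt (curv X u) / Real.Gamma (kap n + 1) : ℝ) : ℂ))) := by
      refine tendsto_integral_filter_of_dominated_convergence
        (fun s : ℝ => (kap n + 1) * (1 + s ^ 2)⁻¹ * |C0|) ?_ ?_ hbi ?_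
      · filter_upwards [eventually_gt_atTop 0] with T hT
        have hmono : Monotone (fun ε : ℝ =>
            (volume : Measure (E n)).real {x | x ∈ K ∧ h u - ε ≤ ⟪x, u⟫}) := by
          intro a b hab
          refine measureReal_mono ?_ ?_
          · rintro x ⟨hx1, hx2⟩
            exact ⟨hx1, by linarith⟩
          · exact ((measure_mono (fun x hx => hx.1)).trans_lt hG.compact.measure_lt_top).ne
        have hm1 : Measurable (fun s : ℝ =>
            (volume : Measure (E n)).real {x | x ∈ K ∧ h u - s / T ≤ ⟪x, u⟫}) :=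
          hmono.measurable.comp (measurable_id.div_const T)
        have hm2 : Measurable (fun s : ℝ => (s / T) ^ kap n) :=
          (Real.continuous_rpow_const hκ.le).measurable.comp (measurable_id.div_const T)
        have hm3 : Measurable (fun s : ℝ => g10l (kap n) s * ((s ^ kap n : ℝ) : ℂ)) :=
          (g10_continuous_l _).measurable.mul
            (Complex.measurable_ofReal.comp (Real.continuous_rpow_const hκ.le).measurable)
        exact (hm3.mul (Complex.measurable_ofReal.comp (hm1.div hm2))).aestronglyMeasurable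
      · filter_upwards [eventually_gt_atTop 0] with T hT
        exact (ae_restrict_iff' measurableSet_Ioi).2
          (Eventually.of_forall fun s hs => hbd u hu T hT s hs)
      · refine (ae_restrict_iff' measurableSet_Ioi).2 (Eventually.of_forall fun s hs => ?_)
        have hs0 : (0 : ℝ) < s := hs
        refine Tendsto.const_mul _ ?_
        refine (Complex.continuous_ofReal.tendsto _).comp ?_
        have ht : Tendsto (fun T : ℝ => s / T) atTop (𝓝[>] 0) := by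
          rw [tendsto_nhdsWithin_iff]
          refine ⟨tendsto_const_nhds.div_atTop tendsto_id, ?_⟩
          filter_upwards [eventually_gt_atTop 0] with T hT
          exact div_pos hs0 hT
        exact (h5 n hn K h X hG u hu).comp ht
    rw [integral_mul_const, g10_integral_phi hκ.le] at hlim
    have hlim2 := hlim.const_mul (Real.Gamma (kap n + 1) : ℂ)
    have hval : (Real.Gamma (kap n + 1) : ℂ) *
        (Complex.exp (Complex.I * ((-(Real.pi * kap n / 2) : ℝ) : ℂ)) *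
          ((cc n * Real.sqrt (curv X u) / Real.Gamma (kap n + 1) : ℝ) : ℂ)) =
        (cc n * Real.sqrt (curv X u) : ℝ) * Complex.exp (Complex.I * (ph n : ℂ)) := by
      have hΓ' : (Real.Gamma (kap n + 1) : ℂ) ≠ 0 := Complex.ofReal_ne_zero.2 hΓ.ne'
      unfold ph
      rw [Complex.ofReal_div (cc n * Real.sqrt (curv X u))]
      generalize Complex.exp (Complex.I * ((-(Real.pi * kap n / 2) : ℝ) : ℂ)) = e
      field_simp
    rw [hval] at hlim2
    refine hlim2.congr' ?_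
    filter_upwards [eventually_gt_atTop 0] with T hT
    rw [g10_rep hG hT]

end Pool.Agent.Helper890.Cov.JG10
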