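import Mathlib
import Pool.Agent.Helper890.Cov.StG




namespace Pool.Agent.Helper890.Cov.JG11
open MeasureTheory Set Filter Topology Metric
open scoped RealInnerProductSpace

theorem g11_meas (κ : ℝ) (z : ℂ) :
    Measurable (fun t : ℝ => ((t ^ κ : ℝ) : ℂ) * Complex.exp (-(z * t))) := by
  have h1 : Measurable (fun t : ℝ => t ^ κ) := measurable_id.pow_const κ
  have h2 : Measurable (fun t : ℝ => ((t ^ κ : ℝ) : ℂ)) := Complex.measurable_ofReal.comp h1
  have h3 : Continuous (fun t : ℝ => Complex.exp (-(z * t))) := by fun_prop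
  exact h2.mul h3.measurable

theorem g11_norm (κ : ℝ) (z : ℂ) (t : ℝ) (ht : 0 < t) :
    ‖((t ^ κ : ℝ) : ℂ) * Complex.exp (-(z * t))‖ = t ^ κ * Real.exp (-z.re * t ^ (1:ℝ)) := by
  rw [norm_mul, Complex.norm_exp, Complex.norm_real, Real.norm_of_nonneg (Real.rpow_nonneg ht.le _),
    Real.rpow_one]
  congr 2
  simp

theorem g11_int (κ : ℝ) (hκ : -1 < κ) (z : ℂ) (hz : 0 < z.re) :
    IntegrableOn (fun t : ℝ => ((t ^ κ : ℝ) : ℂ) * Complex.exp (-(z * t))) (Ioi 0) := by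
  have h := integrableOn_rpow_mul_exp_neg_mul_rpow (p := 1) (s := κ) (b := z.re) hκ
    (by norm_num) hz
  refine Integrable.mono' h (g11_meas κ z).aestronglyMeasurable ?_
  filter_upwards [ae_restrict_mem measurableSet_Ioi] with t ht
  exact (g11_norm κ z t ht).le

theorem g11_deriv (κ : ℝ) (hκ : -1 < κ) (z₀ : ℂ) (hz : 0 < z₀.re) :
    DifferentiableAt ℂ (fun z : ℂ => ∫ t in Ioi (0 : ℝ), ((t ^ κ : ℝ) : ℂ) * Complex.exp (-(z * t)))
      z₀ := by
  have hs : {z : ℂ | z₀.re / 2 < z.re} ∈ 𝓝 z₀ := by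
    apply (isOpen_lt continuous_const Complex.continuous_re).mem_nhds
    show z₀.re / 2 < z₀.re
    linarith
  have key := hasDerivAt_integral_of_dominated_loc_of_deriv_le (μ := volume.restrict (Ioi (0:ℝ)))
    (𝕜 := ℂ) (E := ℂ) (x₀ := z₀)
    (F := fun (z : ℂ) (t : ℝ) => ((t ^ κ : ℝ) : ℂ) * Complex.exp (-(z * t)))
    (bound := fun t : ℝ => t ^ (κ + 1) * Real.exp (-(z₀.re/2) * t ^ (1:ℝ))) hs
    (Eventually.of_forall (fun z => (g11_meas κ z).aestronglyMeasurable))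
    (g11_int κ hκ z₀ hz)
    (F' := fun (z : ℂ) (t : ℝ) => ((t ^ κ : ℝ) : ℂ) * (Complex.exp (-(z * t)) * (-(t:ℂ))))
    (by
      have h : Measurable (fun t : ℝ => (((t ^ κ : ℝ) : ℂ) * Complex.exp (-(z₀ * t))) * (-(t:ℂ))) :=
        (g11_meas κ z₀).mul (Complex.measurable_ofReal.neg)
      have h2 : (fun t : ℝ => (((t ^ κ : ℝ) : ℂ) * Complex.exp (-(z₀ * t))) * (-(t:ℂ))) =
          (fun t : ℝ => ((t ^ κ : ℝ) : ℂ) * (Complex.exp (-(z₀ * t)) * (-(t:ℂ)))) := by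
        funext t
        ring
      rw [h2] at h
      exact h.aestronglyMeasurable)
    (by
      filter_upwards [ae_restrict_mem measurableSet_Ioi] with t ht z hzz
      have ht' : (0:ℝ) < t := ht
      have hzz' : z₀.re / 2 < z.re := hzz
      rw [← mul_assoc, norm_mul, g11_norm κ z t ht', norm_neg, Complex.norm_real,
        Real.norm_of_nonneg ht'.le, Real.rpow_add ht', Real.rpow_one]
      have h1 : Real.exp (-z.re * t) ≤ Real.exp (-(z₀.re/2) * t) := by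
        apply Real.exp_le_exp.mpr
        nlinarith
      have h2 : 0 ≤ t ^ κ := Real.rpow_nonneg ht'.le _
      calc t ^ κ * Real.exp (-z.re * t) * t = (t ^ κ * t) * Real.exp (-z.re * t) := by ring
        _ ≤ (t ^ κ * t) * Real.exp (-(z₀.re/2) * t) := by
          apply mul_le_mul_of_nonneg_left h1
          positivity)
    (integrableOn_rpow_mul_exp_neg_mul_rpow (p := 1) (s := κ + 1) (b := z₀.re / 2) (by linarith)
      (by norm_num) (by linarith))
    (by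
      refine Eventually.of_forall (fun t z _ => ?_)
      apply HasDerivAt.const_mul
      have h1 : HasDerivAt (fun x : ℂ => -(x * t)) (-(t:ℂ)) z := by
        have h0 := ((hasDerivAt_id z).mul_const (t:ℂ)).neg
        rw [one_mul] at h0
        exact h0
      exact h1.cexp)
  exact key.2.differentiableAt

/-- Laplace transform of a power, complex parameter -/
theorem g11_lap (κ : ℝ) (hκ : -1 < κ) (z : ℂ) (hz : 0 < z.re) :
    IntegrableOn (fun t : ℝ => ((t ^ κ : ℝ) : ℂ) * Complex.exp (-(z * t))) (Ioi 0) ∧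
    ∫ t in Ioi (0 : ℝ), ((t ^ κ : ℝ) : ℂ) * Complex.exp (-(z * t)) =
      (Real.Gamma (κ + 1) : ℂ) * z ^ (-((κ + 1 : ℝ) : ℂ)) := by
  refine ⟨g11_int κ hκ z hz, ?_⟩
  have hopen : IsOpen {w : ℂ | 0 < w.re} := isOpen_lt continuous_const Complex.continuous_re
  have hf : AnalyticOnNhd ℂ (fun z : ℂ => ∫ t in Ioi (0 : ℝ), ((t ^ κ : ℝ) : ℂ) *
      Complex.exp (-(z * t))) {w : ℂ | 0 < w.re} := by
    apply DifferentiableOn.analyticOnNhd _ hopen
    intro w hw
    exact (g11_deriv κ hκ w hw).differentiableWithinAt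
  have hg : AnalyticOnNhd ℂ (fun z : ℂ => (Real.Gamma (κ + 1) : ℂ) * z ^ (-((κ + 1 : ℝ) : ℂ)))
      {w : ℂ | 0 < w.re} := by
    apply DifferentiableOn.analyticOnNhd _ hopen
    intro w hw
    apply DifferentiableAt.differentiableWithinAt
    apply DifferentiableAt.const_mul
    apply DifferentiableAt.cpow_const differentiableAt_id
    left
    exact hw
  have hconv : Convex ℝ {w : ℂ | 0 < w.re} := by
    have := (convex_Ioi (0:ℝ)).is_linear_preimage (f := fun w : ℂ => w.re)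
      Complex.reLm.isLinear
    exact this
  have h1 : (1:ℂ) ∈ {w : ℂ | 0 < w.re} := by simp
  -- agreement at positive reals
  have hreal : ∀ r : ℝ, 0 < r → (∫ t in Ioi (0 : ℝ), ((t ^ κ : ℝ) : ℂ) *
      Complex.exp (-((r:ℂ) * t))) = (Real.Gamma (κ + 1) : ℂ) * (r:ℂ) ^ (-((κ + 1 : ℝ) : ℂ)) := by
    intro r hr
    have h := Complex.integral_cpow_mul_exp_neg_mul_Ioi (a := ((κ + 1 : ℝ) : ℂ)) (r := r)
      (by rw [Complex.ofReal_re]; linarith) hr
    have h2 : (∫ t in Ioi (0 : ℝ), ((t ^ κ : ℝ) : ℂ) * Complex.exp (-((r:ℂ) * t)))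
        = ∫ (t : ℝ) in Ioi 0, (t:ℂ) ^ (((κ + 1 : ℝ) : ℂ) - 1) * Complex.exp (-(r * t)) := by
      apply setIntegral_congr_fun measurableSet_Ioi
      intro t ht
      have ht' : (0:ℝ) < t := ht
      simp only
      congr 1
      rw [Complex.ofReal_cpow ht'.le]
      congr 1
      push_cast
      ring
    rw [h2, h, Complex.Gamma_ofReal, mul_comm]
    congr 1
    rw [one_div, Complex.cpow_neg, Complex.inv_cpow]
    rw [Complex.arg_ofReal_of_nonneg hr.le]
    exact Real.pi_pos.ne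
  have hfreq : ∃ᶠ w in 𝓝[≠] (1:ℂ), (∫ t in Ioi (0 : ℝ), ((t ^ κ : ℝ) : ℂ) *
      Complex.exp (-(w * t))) = (Real.Gamma (κ + 1) : ℂ) * w ^ (-((κ + 1 : ℝ) : ℂ)) := by
    have htend : Tendsto (fun n : ℕ => (((1 + 1 / ((n:ℝ) + 1) : ℝ)) : ℂ)) atTop (𝓝[≠] (1:ℂ)) := by
      apply tendsto_nhdsWithin_of_tendsto_nhds_of_eventually_within
      · have h := tendsto_one_div_add_atTop_nhds_zero_nat (𝕜 := ℝ)
        have h' : Tendsto (fun n : ℕ => 1 + 1 / ((n:ℝ) + 1)) atTop (𝓝 (1 + 0)) := h.const_add 1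
        rw [add_zero] at h'
        have h'' := (Complex.continuous_ofReal.tendsto (1:ℝ)).comp h'
        rw [Complex.ofReal_one] at h''
        exact h''
      · refine Eventually.of_forall (fun n => ?_)
        rw [mem_compl_iff, mem_singleton_iff]
        intro hcon
        have h1 : (1 + 1 / ((n:ℝ) + 1) : ℝ) = 1 := by exact_mod_cast hcon
        have h2 : (0:ℝ) < 1 / ((n:ℝ) + 1) := by positivity
        linarith
    apply htend.frequently
    refine Frequently.of_forall (fun n => ?_)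
    apply hreal
    positivity
  exact AnalyticOnNhd.eqOn_of_preconnected_of_frequently_eq hf hg hconv.isPreconnected h1 hfreq hz

theorem g11_w (hP : StmtP) (n : ℕ) (hn : 2 ≤ n) (T : ℝ) (hT : 0 < T) (s : ℝ) (hs : -(n : ℝ) < s) :
    Integrable (fun ξ : E n => Real.exp (-(‖ξ‖ / T)) * ‖ξ‖ ^ s) := by
  have hfr : Module.finrank ℝ (E n) = n := by
    rw [finrank_euclideanSpace, Fintype.card_fin]
  have hnt : Nontrivial (E n) := by
    apply Module.nontrivial_of_finrank_pos (R := ℝ)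
    rw [hfr]
    omega
  have h := (integrable_fun_norm_addHaar (volume : Measure (E n))
    (f := fun y : ℝ => Real.exp (-(y / T)) * y ^ s)).2 (by
      rw [hfr]
      have h1 : IntegrableOn (fun x : ℝ => x ^ (((n : ℝ) - 1) + s) * Real.exp (-(1 / T) * x ^ (1 : ℝ)))
          (Ioi 0) :=
        integrableOn_rpow_mul_exp_neg_mul_rpow (by linarith) one_pos (by positivity)
      refine h1.congr_fun ?_ measurableSet_Ioi
      intro y hy
      have hy' : (0 : ℝ) < y := hy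
      have e1 : y ^ (((n : ℝ) - 1) + s) = y ^ (n - 1) * y ^ s := by
        rw [Real.rpow_add hy']
        congr 1
        rw [← Real.rpow_natCast]
        congr 1
        rw [Nat.cast_sub (by omega)]
        norm_num
      simp only [smul_eq_mul]
      rw [e1, Real.rpow_one]
      have e2 : -(1 / T) * y = -(y / T) := by ring
      rw [e2]
      ring)
  exact h

/-- first half of the main term -/
noncomputable def M1 {n : ℕ} (h : E n → ℝ) (X : E n → E n) (ξ : E n) : ℂ :=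
  ((cc n * ‖ξ‖ ^ (-kap n) : ℝ) : ℂ) *
    ((Real.sqrt (curv X ξ) : ℂ) * Complex.exp (Complex.I * (((h ξ + ph n : ℝ)) : ℂ)))

/-- the weight -/
noncomputable def W {n : ℕ} (T : ℝ) (ξ : E n) : ℝ := Real.exp (-(‖ξ‖ / T)) * ‖ξ‖ ^ 2

theorem g11_split {n : ℕ} (h : E n → ℝ) (X : E n → E n) (ξ : E n) :
    Mhat h X ξ = M1 h X ξ + (starRingEnd ℂ) (M1 h X (-ξ)) := by
  unfold Mhat M1
  rw [map_mul, map_mul, Complex.conj_ofReal, Complex.conj_ofReal, ← Complex.exp_conj, map_mul,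
    Complex.conj_I, Complex.conj_ofReal, norm_neg]
  ring_nf

theorem g11_FK {n : ℕ} (K : Set (E n)) (hK : IsCompact K) :
    Continuous (FK K) ∧ (∃ C : ℝ, 0 ≤ C ∧ ∀ ξ, ‖FK K ξ‖ ≤ C) ∧
      ∀ ξ, FK K (-ξ) = (starRingEnd ℂ) (FK K ξ) := by
  have hfin : IsFiniteMeasure ((volume : Measure (E n)).restrict K) :=
    ⟨by rw [Measure.restrict_apply_univ]; exact hK.measure_lt_top⟩
  have hnorm : ∀ a : ℝ, ‖Complex.exp (Complex.I * (a : ℂ))‖ = 1 := by
    intro a
    rw [mul_comm]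
    exact Complex.norm_exp_ofReal_mul_I a
  refine ⟨?_, ⟨(volume : Measure (E n)).real K, measureReal_nonneg, ?_⟩, ?_⟩
  · unfold FK
    refine continuous_of_dominated (bound := fun _ => (1:ℝ)) ?_ ?_ (integrable_const _) ?_
    · intro ξ
      exact Continuous.aestronglyMeasurable (by fun_prop)
    · intro ξ
      exact Filter.Eventually.of_forall fun x => (hnorm _).le
    · exact Filter.Eventually.of_forall fun x => by fun_prop
  · intro ξ
    unfold FK
    have := norm_integral_le_of_norm_le_const (μ := (volume : Measure (E n)).restrict K)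
      (f := fun x => Complex.exp (Complex.I * (⟪ξ, x⟫ : ℝ))) (C := 1)
      (Filter.Eventually.of_forall fun x => (hnorm _).le)
    simpa [Measure.real] using this
  · intro ξ
    unfold FK
    rw [← integral_conj]
    congr 1
    funext x
    rw [← Complex.exp_conj, map_mul, Complex.conj_I, Complex.conj_ofReal, inner_neg_left]
    push_cast
    ring_nf

section main
variable {n : ℕ} {K : Set (E n)} {h : E n → ℝ} {X : E n → E n}

theorem g11_cc (n : ℕ) : 0 ≤ cc n ∧ cc n ^ 2 = (2 * Real.pi) ^ ((n : ℝ) - 1) := by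
  have h0 : (0:ℝ) ≤ 2 * Real.pi := by positivity
  refine ⟨Real.rpow_nonneg h0 _, ?_⟩
  unfold cc
  rw [← Real.rpow_natCast, ← Real.rpow_mul h0]
  congr 1
  push_cast
  ring

theorem g11_M1_polar (h3 : StmtG3) (hn : 2 ≤ n) (hG : Good K h X) (r : ℝ) (hr : 0 < r)
    (v : E n) (hv : ‖v‖ = 1) :
    M1 h X (r • v) = ((cc n * r ^ (-kap n) : ℝ) : ℂ) *
      ((Real.sqrt (curv X v) : ℂ) * Complex.exp (Complex.I * (((r * h v + ph n : ℝ)) : ℂ))) := by
  obtain ⟨_, _, hh, _⟩ := h3 n hn K h X hG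
  have hv0 : v ≠ 0 := by
    rintro rfl
    simp at hv
  unfold M1
  rw [hh r v hr hv0, hG.homog r v hr.le, norm_smul, hv, mul_one, Real.norm_eq_abs, abs_of_pos hr]

theorem g11_M1_norm (h X) (ξ : E n) :
    ‖M1 h X ξ‖ = cc n * ‖ξ‖ ^ (-kap n) * Real.sqrt (curv X ξ) := by
  unfold M1
  rw [norm_mul, norm_mul, Complex.norm_real, Complex.norm_real, mul_comm Complex.I,
    Complex.norm_exp_ofReal_mul_I, mul_one, Real.norm_of_nonneg (Real.sqrt_nonneg _),
    Real.norm_of_nonneg]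
  exact mul_nonneg (g11_cc n).1 (Real.rpow_nonneg (norm_nonneg _) _)

theorem g11_sphere_bd (h3 : StmtG3) (hn : 2 ≤ n) (hG : Good K h X) :
    Continuous (fun v : sphere (0 : E n) 1 => curv X (v : E n)) ∧
    Continuous (fun v : sphere (0 : E n) 1 => curv X (-(v : E n))) ∧
    ∃ C : ℝ, 0 ≤ C ∧ ∀ ξ : E n, ξ ≠ 0 → curv X ξ ≤ C := by
  obtain ⟨hc, hp, hh, _⟩ := h3 n hn K h X hG
  have hne : ∀ v : sphere (0 : E n) 1, (v : E n) ≠ 0 := by
    intro v hv
    have := v.2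
    rw [hv] at this
    simp at this
  have h1 : Continuous (fun v : sphere (0 : E n) 1 => curv X (v : E n)) := by
    refine hc.comp_continuous continuous_subtype_val ?_
    intro v
    exact hne v
  have h2 : Continuous (fun v : sphere (0 : E n) 1 => curv X (-(v : E n))) := by
    refine hc.comp_continuous (continuous_subtype_val.neg) ?_
    intro v
    exact neg_ne_zero.2 (hne v)
  refine ⟨h1, h2, ?_⟩
  obtain ⟨C, hC⟩ := (isCompact_univ (X := sphere (0 : E n) 1)).exists_bound_of_continuousOn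
    h1.continuousOn
  refine ⟨max C 0, le_max_right _ _, fun ξ hξ => ?_⟩
  have hnξ : 0 < ‖ξ‖ := norm_pos_iff.2 hξ
  have h4 : ξ = ‖ξ‖ • (‖ξ‖⁻¹ • ξ) := by
    rw [smul_smul, mul_inv_cancel₀ hnξ.ne', one_smul]
  have h5 : ‖(‖ξ‖⁻¹ • ξ)‖ = 1 := by
    rw [norm_smul, norm_inv, norm_norm, inv_mul_cancel₀ hnξ.ne']
  have h6 : (‖ξ‖⁻¹ • ξ) ≠ 0 := by
    intro h0
    rw [h0] at h5
    simp at h5
  rw [h4, hh _ _ hnξ h6]
  have := hC ⟨‖ξ‖⁻¹ • ξ, by simp [h5]⟩ (mem_univ _)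
  exact le_trans (le_trans (le_abs_self _) this) (le_max_left _ _)

theorem g11_M1_meas (h3 : StmtG3) (hn : 2 ≤ n) (hG : Good K h X) :
    AEStronglyMeasurable (M1 h X) volume := by
  obtain ⟨hc, hp, hh, _, hhc, _⟩ := h3 n hn K h X hG
  have : Nontrivial (E n) := by
    have : Nonempty (Fin n) := ⟨⟨0, by omega⟩⟩
    infer_instance
  have h1 : ContinuousOn (M1 h X) {0}ᶜ := by
    unfold M1
    refine ContinuousOn.mul ?_ (ContinuousOn.mul ?_ ?_)
    · refine Complex.continuous_ofReal.comp_continuousOn (continuousOn_const.mul ?_)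
      intro ξ hξ
      exact (continuous_norm.continuousAt.rpow_const (Or.inl (norm_ne_zero_iff.2 hξ))).continuousWithinAt
    · exact Complex.continuous_ofReal.comp_continuousOn (Real.continuous_sqrt.comp_continuousOn hc)
    · exact Continuous.continuousOn (by fun_prop)
  have h2 := h1.aestronglyMeasurable (μ := (volume : Measure (E n))) (measurableSet_singleton 0).compl
  have h3 : (volume : Measure (E n)).restrict {0}ᶜ = volume := by
    apply Measure.restrict_eq_self_of_ae_mem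
    rw [ae_iff]
    simp
  rwa [h3] at h2

theorem g11_M1_sq (h3 : StmtG3) (hn : 2 ≤ n) (hG : Good K h X) :
    ∃ C : ℝ, 0 ≤ C ∧ ∀ T : ℝ, ∀ ξ : E n, ξ ≠ 0 → W T ξ * ‖M1 h X ξ‖ ^ 2 ≤
      C * (Real.exp (-(‖ξ‖ / T)) * ‖ξ‖ ^ (1 - (n : ℝ))) := by
  obtain ⟨_, hp, _, _, _, _⟩ := h3 n hn K h X hG
  obtain ⟨_, _, C, hC0, hC⟩ := g11_sphere_bd h3 hn hG
  refine ⟨cc n ^ 2 * C, by positivity, fun T ξ hξ => ?_⟩
  have hnξ : 0 < ‖ξ‖ := norm_pos_iff.2 hξ
  rw [g11_M1_norm, W, mul_pow, mul_pow, Real.sq_sqrt (hp ξ hξ).le]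
  have h1 : ‖ξ‖ ^ 2 * (‖ξ‖ ^ (-kap n)) ^ 2 = ‖ξ‖ ^ (1 - (n : ℝ)) := by
    rw [← Real.rpow_natCast (‖ξ‖ ^ (-kap n)), ← Real.rpow_mul hnξ.le, ← Real.rpow_natCast ‖ξ‖ 2,
      ← Real.rpow_add hnξ]
    congr 1
    unfold kap
    push_cast
    ring
  have h2 : 0 ≤ Real.exp (-(‖ξ‖ / T)) * ‖ξ‖ ^ (1 - (n : ℝ)) := by positivity
  calc Real.exp (-(‖ξ‖ / T)) * ‖ξ‖ ^ 2 * (cc n ^ 2 * (‖ξ‖ ^ (-kap n)) ^ 2 * curv X ξ)
      = (cc n ^ 2 * curv X ξ) * (Real.exp (-(‖ξ‖ / T)) * (‖ξ‖ ^ 2 * (‖ξ‖ ^ (-kap n)) ^ 2)) := by ring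
    _ = (cc n ^ 2 * curv X ξ) * (Real.exp (-(‖ξ‖ / T)) * ‖ξ‖ ^ (1 - (n : ℝ))) := by rw [h1]
    _ ≤ _ := by
      apply mul_le_mul_of_nonneg_right _ h2
      apply mul_le_mul_of_nonneg_left (hC ξ hξ) (by positivity)

theorem g11_ae_ne (hn : 2 ≤ n) : ∀ᵐ ξ : E n, ξ ≠ 0 := by
  have : Nontrivial (E n) := by
    have : Nonempty (Fin n) := ⟨⟨0, by omega⟩⟩
    infer_instance
  rw [ae_iff]
  simp

theorem g11_W_cont (T : ℝ) : Continuous (W (n := n) T) := by
  unfold W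
  fun_prop

theorem g11_W_nonneg (T : ℝ) (ξ : E n) : 0 ≤ W T ξ := by
  unfold W
  positivity

theorem g11_intM (h3 : StmtG3) (hP : StmtP) (hn : 2 ≤ n) (hG : Good K h X) (T : ℝ) (hT : 0 < T) :
    Integrable (fun ξ : E n => W T ξ * ‖M1 h X ξ‖ ^ 2) := by
  obtain ⟨C, hC0, hC⟩ := g11_M1_sq h3 hn hG
  refine Integrable.mono' ((g11_w hP n hn T hT (1 - (n:ℝ)) (by linarith)).const_mul C) ?_ ?_
  · exact (g11_W_cont T).aestronglyMeasurable.mul ((g11_M1_meas h3 hn hG).norm.pow 2)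
  · filter_upwards [g11_ae_ne hn] with ξ hξ
    rw [Real.norm_of_nonneg (mul_nonneg (g11_W_nonneg T ξ) (by positivity))]
    exact hC T ξ hξ

theorem g11_intF (hP : StmtP) (hn : 2 ≤ n) (hG : Good K h X) (T : ℝ) (hT : 0 < T) :
    Integrable (fun ξ : E n => W T ξ * ‖FK K ξ‖ ^ 2) := by
  obtain ⟨hFc, ⟨C, hC0, hC⟩, _⟩ := g11_FK K hG.compact
  have h1 := (g11_w hP n hn T hT 2 (by
    have : (0:ℝ) ≤ n := Nat.cast_nonneg n
    linarith)).const_mul (C ^ 2)
  refine Integrable.mono' h1 ?_ ?_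
  · exact ((g11_W_cont T).mul (hFc.norm.pow 2)).aestronglyMeasurable
  · refine Filter.Eventually.of_forall fun ξ => ?_
    rw [Real.norm_of_nonneg (mul_nonneg (g11_W_nonneg T ξ) (by positivity))]
    unfold W
    rw [Real.rpow_two, mul_comm (C ^ 2)]
    exact mul_le_mul_of_nonneg_left (pow_le_pow_left₀ (norm_nonneg _) (hC ξ) 2) (by positivity)

theorem g11_intProd (T : ℝ) (f g : E n → ℂ) (hf : AEStronglyMeasurable f volume)
    (hg : AEStronglyMeasurable g volume) (h1 : Integrable (fun ξ : E n => W T ξ * ‖f ξ‖ ^ 2))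
    (h2 : Integrable (fun ξ : E n => W T ξ * ‖g ξ‖ ^ 2)) :
    Integrable (fun ξ : E n => ((W T ξ : ℝ) : ℂ) * (f ξ * g ξ)) := by
  refine Integrable.mono' (h1.add h2) ?_ ?_
  · exact (Complex.continuous_ofReal.comp (g11_W_cont T)).aestronglyMeasurable.mul (hf.mul hg)
  · refine Filter.Eventually.of_forall fun ξ => ?_
    rw [norm_mul, norm_mul, Complex.norm_real, Real.norm_of_nonneg (g11_W_nonneg T ξ)]
    simp only [Pi.add_apply]
    rw [← mul_add]
    apply mul_le_mul_of_nonneg_left _ (g11_W_nonneg T ξ)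
    nlinarith [sq_nonneg (‖f ξ‖ - ‖g ξ‖), norm_nonneg (f ξ), norm_nonneg (g ξ)]

theorem g11_neg_meas (f : E n → ℂ) (hf : AEStronglyMeasurable f volume) :
    AEStronglyMeasurable (fun ξ => f (-ξ)) volume :=
  hf.comp_quasiMeasurePreserving (Measure.measurePreserving_neg (volume : Measure (E n))).quasiMeasurePreserving

end main

end Pool.Agent.Helper890.Cov.JG11

namespace Pool.Agent.Helper890.Cov.JG11
open MeasureTheory Set Filter Topology Metric
open scoped RealInnerProductSpace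

section main2
variable {n : ℕ} {K : Set (E n)} {h : E n → ℝ} {X : E n → E n}

theorem g11_pow (hn : 2 ≤ n) (r : ℝ) (hr : 0 < r) :
    r ^ (n - 1) * r ^ 2 * r ^ (-kap n) = r ^ kap n ∧
    r ^ (n - 1) * r ^ 2 * (r ^ (-kap n)) ^ 2 = 1 := by
  have h1 : r ^ (n - 1) * r ^ 2 = r ^ ((n : ℝ) + 1) := by
    rw [← pow_add, ← Real.rpow_natCast]
    congr 1
    have : n - 1 + 2 = n + 1 := by omega
    rw [this]
    push_cast
    ring
  have h2 : (r ^ (-kap n)) ^ 2 = r ^ (-((n : ℝ) + 1)) := by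
    rw [← Real.rpow_natCast, ← Real.rpow_mul hr.le]
    congr 1
    unfold kap
    push_cast
    ring
  constructor
  · rw [h1, ← Real.rpow_add hr]
    congr 1
    unfold kap
    ring
  · rw [h1, h2, ← Real.rpow_add hr, add_neg_cancel, Real.rpow_zero]

theorem g11_sph_norm (v : sphere (0 : E n) 1) : ‖(v : E n)‖ = 1 := by
  simp

theorem g11_W_polar (T r : ℝ) (hr : 0 < r) (v : E n) (hv : ‖v‖ = 1) :
    W T (r • v) = Real.exp (-(r / T)) * r ^ 2 := by
  unfold W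
  rw [norm_smul, hv, mul_one, Real.norm_eq_abs, abs_of_pos hr]

theorem g11_M (h3 : StmtG3) (hP : StmtP) (hn : 2 ≤ n) (hG : Good K h X) (T : ℝ) (hT : 0 < T) :
    ∫ ξ : E n, W T ξ * ‖M1 h X ξ‖ ^ 2 =
      T * (cc n ^ 2 * ∫ v : sphere (0 : E n) 1, curv X v ∂(sph n)) := by
  rw [(hP n hn).1 _ (g11_intM h3 hP hn hG T hT), ← integral_const_mul, ← integral_const_mul]
  congr 1
  funext v
  have hv := g11_sph_norm v
  have hp : 0 < curv X (v : E n) := by
    refine (h3 n hn K h X hG).2.1 _ ?_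
    intro h0
    rw [h0] at hv
    simp at hv
  have h1 : ∫ r in Ioi (0 : ℝ), r ^ (n - 1) * (W T (r • (v : E n)) * ‖M1 h X (r • (v : E n))‖ ^ 2) =
      ∫ r in Ioi (0 : ℝ), (cc n ^ 2 * curv X (v : E n)) * Real.exp (-(1 / T) * r) := by
    refine setIntegral_congr_fun measurableSet_Ioi fun r hr => ?_
    have hr' : (0:ℝ) < r := hr
    rw [g11_W_polar T r hr' (v : E n) hv, g11_M1_polar h3 hn hG r hr' (v : E n) hv, norm_mul, norm_mul,
      Complex.norm_real, Complex.norm_real, mul_comm Complex.I,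
      Complex.norm_exp_ofReal_mul_I, mul_one, Real.norm_of_nonneg (Real.sqrt_nonneg _),
      Real.norm_of_nonneg (mul_nonneg (g11_cc n).1 (Real.rpow_nonneg hr'.le _)), mul_pow, mul_pow,
      Real.sq_sqrt hp.le]
    have h2 := (g11_pow hn r hr').2
    have h3 : -(1 / T) * r = -(r / T) := by ring
    rw [h3]
    calc r ^ (n - 1) * (Real.exp (-(r / T)) * r ^ 2 * (cc n ^ 2 * (r ^ (-kap n)) ^ 2 * curv X (v : E n)))
        = (r ^ (n - 1) * r ^ 2 * (r ^ (-kap n)) ^ 2) *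
          ((cc n ^ 2 * curv X (v : E n)) * Real.exp (-(r / T))) := by ring
      _ = _ := by rw [h2, one_mul]
  rw [h1, integral_const_mul, integral_exp_mul_Ioi (by
    have : 0 < 1 / T := by positivity
    linarith)]
  simp only [mul_zero, Real.exp_zero]
  field_simp

/-- the cross term of the two halves -/
theorem g11_MM_eq (h3 : StmtG3) (hP : StmtP) (hn : 2 ≤ n) (hG : Good K h X) (T : ℝ) (hT : 0 < T) :
    ((T⁻¹ : ℝ) : ℂ) * ∫ ξ : E n, ((W T ξ : ℝ) : ℂ) * (M1 h X ξ * M1 h X (-ξ)) =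
      ∫ v : sphere (0 : E n) 1, (((cc n ^ 2 * (Real.sqrt (curv X (v : E n)) *
        Real.sqrt (curv X (-(v : E n)))) : ℝ) : ℂ) * Complex.exp (Complex.I * ((2 * ph n : ℝ) : ℂ))) *
        (1 - Complex.I * ((T * (h (v : E n) + h (-(v : E n))) : ℝ) : ℂ))⁻¹ ∂(sph n) := by
  have hm := g11_M1_meas h3 hn hG
  have hi := g11_intM h3 hP hn hG T hT
  have hi2 : Integrable (fun ξ : E n => W T ξ * ‖M1 h X (-ξ)‖ ^ 2) := by
    have := hi.comp_neg
    refine this.congr (Filter.Eventually.of_forall fun ξ => ?_)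
    simp [W]
  have hint := g11_intProd T (M1 h X) (fun ξ => M1 h X (-ξ)) hm (g11_neg_meas _ hm) hi hi2
  rw [(hP n hn).2.1 _ hint, ← integral_const_mul]
  congr 1
  funext v
  have hv := g11_sph_norm v
  have hv' : ‖-(v : E n)‖ = 1 := by rw [norm_neg, hv]
  have h1 : ∫ r in Ioi (0 : ℝ), ((r ^ (n - 1) : ℝ) : ℂ) * (((W T (r • (v : E n)) : ℝ) : ℂ) *
      (M1 h X (r • (v : E n)) * M1 h X (-(r • (v : E n))))) =
      ∫ r in Ioi (0 : ℝ), (((cc n ^ 2 * (Real.sqrt (curv X (v : E n)) *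
        Real.sqrt (curv X (-(v : E n)))) : ℝ) : ℂ) * Complex.exp (Complex.I * ((2 * ph n : ℝ) : ℂ))) *
        Complex.exp ((-(T⁻¹ : ℂ) + Complex.I * ((h (v : E n) + h (-(v : E n)) : ℝ) : ℂ)) * (r : ℂ)) := by
    refine setIntegral_congr_fun measurableSet_Ioi fun r hr => ?_
    have hr' : (0:ℝ) < r := hr
    rw [← smul_neg, g11_W_polar T r hr' (v : E n) hv, g11_M1_polar h3 hn hG r hr' (v : E n) hv,
      g11_M1_polar h3 hn hG r hr' (-(v : E n)) hv']
    have h2 := (g11_pow hn r hr').2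
    have h2' : ((r ^ (n - 1) : ℝ) : ℂ) * ((r ^ 2 : ℝ) : ℂ) * ((((r ^ (-kap n) : ℝ) : ℂ))) ^ 2 = 1 := by
      rw [← Complex.ofReal_pow, ← Complex.ofReal_mul, ← Complex.ofReal_mul, h2, Complex.ofReal_one]
    have h4 : Complex.exp ((-(T⁻¹ : ℂ) + Complex.I * ((h (v : E n) + h (-(v : E n)) : ℝ) : ℂ)) * (r : ℂ)) *
        Complex.exp (Complex.I * ((2 * ph n : ℝ) : ℂ)) =
        ((Real.exp (-(r / T)) : ℝ) : ℂ) * Complex.exp (Complex.I * (((r * h v + ph n : ℝ)) : ℂ)) *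
          Complex.exp (Complex.I * (((r * h (-(v : E n)) + ph n : ℝ)) : ℂ)) := by
      rw [Complex.ofReal_exp, ← Complex.exp_add, ← Complex.exp_add, ← Complex.exp_add]
      congr 1
      push_cast
      ring
    push_cast at h2' h4 ⊢
    linear_combination ((cc n : ℂ) ^ 2 * (Real.sqrt (curv X (v : E n)) : ℂ) *
        (Real.sqrt (curv X (-(v : E n))) : ℂ) * (Complex.exp (-(↑r / ↑T)) *
          Complex.exp (Complex.I * (↑r * ↑(h (v : E n)) + ↑(ph n))) *
          Complex.exp (Complex.I * (↑r * ↑(h (-(v : E n))) + ↑(ph n))))) * h2' -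
      ((cc n : ℂ) ^ 2 * (Real.sqrt (curv X (v : E n)) : ℂ) *
        (Real.sqrt (curv X (-(v : E n))) : ℂ)) * h4
  rw [h1, integral_const_mul, integral_exp_mul_complex_Ioi (by simpa using hT)]
  simp only [Complex.ofReal_zero, mul_zero, Complex.exp_zero]
  rw [mul_left_comm]
  congr 1
  have hTC : (T : ℂ) ≠ 0 := by exact_mod_cast hT.ne'
  have hne : (1 - Complex.I * ((T * (h (v : E n) + h (-(v : E n))) : ℝ) : ℂ)) ≠ 0 := by
    intro h0
    have := congrArg Complex.re h0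
    simp at this
  have hne2 : (-(T⁻¹ : ℂ) + Complex.I * ((h (v : E n) + h (-(v : E n)) : ℝ) : ℂ)) ≠ 0 := by
    intro h0
    have := congrArg Complex.re h0
    simp at this
    exact hT.ne' this
  have hrel : (-(T⁻¹ : ℂ) + Complex.I * ((h (v : E n) + h (-(v : E n)) : ℝ) : ℂ)) =
      -(T⁻¹ : ℂ) * (1 - Complex.I * ((T * (h (v : E n) + h (-(v : E n))) : ℝ) : ℂ)) := by
    push_cast
    field_simp
    ring
  rw [hrel]
  push_cast
  push_cast at hne
  field_simp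

theorem g11_MM (h3 : StmtG3) (hP : StmtP) (hn : 2 ≤ n) (hG : Good K h X) :
    Tendsto (fun T : ℝ => ((T⁻¹ : ℝ) : ℂ) * ∫ ξ : E n, ((W T ξ : ℝ) : ℂ) *
      (M1 h X ξ * M1 h X (-ξ))) atTop (𝓝 0) := by
  obtain ⟨_, hp, _, _, hhc, hhpos⟩ := h3 n hn K h X hG
  obtain ⟨hc1, hc2, C, hC0, hC⟩ := g11_sphere_bd h3 hn hG
  have hfin : IsFiniteMeasure (sph n) := by unfold sph; infer_instance
  have hne : ∀ v : sphere (0 : E n) 1, (v : E n) ≠ 0 := by
    intro v hv
    have := g11_sph_norm v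
    rw [hv] at this
    simp at this
  have hwpos : ∀ v : sphere (0 : E n) 1, 0 < h (v : E n) + h (-(v : E n)) := fun v =>
    add_pos (hhpos _ (hne v)) (hhpos _ (neg_ne_zero.2 (hne v)))
  have hev : (fun T : ℝ => ((T⁻¹ : ℝ) : ℂ) * ∫ ξ : E n, ((W T ξ : ℝ) : ℂ) *
      (M1 h X ξ * M1 h X (-ξ))) =ᶠ[atTop] fun T : ℝ =>
      ∫ v : sphere (0 : E n) 1, (((cc n ^ 2 * (Real.sqrt (curv X (v : E n)) *
        Real.sqrt (curv X (-(v : E n)))) : ℝ) : ℂ) * Complex.exp (Complex.I * ((2 * ph n : ℝ) : ℂ))) *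
        (1 - Complex.I * ((T * (h (v : E n) + h (-(v : E n))) : ℝ) : ℂ))⁻¹ ∂(sph n) := by
    filter_upwards [Filter.eventually_gt_atTop 0] with T hT
    exact g11_MM_eq h3 hP hn hG T hT
  rw [tendsto_congr' hev]
  have hnorm : ∀ (T : ℝ) (v : sphere (0 : E n) 1),
      (1:ℝ) ≤ ‖(1 - Complex.I * ((T * (h (v : E n) + h (-(v : E n))) : ℝ) : ℂ))‖ := by
    intro T v
    have := Complex.abs_re_le_norm (1 - Complex.I * ((T * (h (v : E n) + h (-(v : E n))) : ℝ) : ℂ))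
    simpa using this
  have hlim : ∫ v : sphere (0 : E n) 1, (0:ℂ) ∂(sph n) = 0 := by simp
  rw [← hlim]
  refine tendsto_integral_filter_of_dominated_convergence (fun _ => cc n ^ 2 * (C + C)) ?_ ?_
    (integrable_const _) ?_
  · refine Filter.Eventually.of_forall fun T => Continuous.aestronglyMeasurable ?_
    refine Continuous.mul (Continuous.mul ?_ continuous_const) (Continuous.inv₀ ?_ ?_)
    · fun_prop
    · fun_prop
    · intro v h0
      have := hnorm T v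
      rw [h0, norm_zero] at this
      linarith
  · refine Filter.Eventually.of_forall fun T => Filter.Eventually.of_forall fun v => ?_
    rw [norm_mul, norm_mul, Complex.norm_real, mul_comm Complex.I,
      Complex.norm_exp_ofReal_mul_I, mul_one, norm_inv]
    have h1 : ‖(1 - ((T * (h (v : E n) + h (-(v : E n))) : ℝ) : ℂ) * Complex.I)‖⁻¹ ≤ 1 := by
      rw [mul_comm]
      exact inv_le_one_of_one_le₀ (hnorm T v)
    have h2 : Real.sqrt (curv X (v : E n)) * Real.sqrt (curv X (-(v : E n))) ≤ C + C := by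
      have a1 := hC _ (hne v)
      have a2 := hC _ (neg_ne_zero.2 (hne v))
      have b1 := Real.sq_sqrt (hp _ (hne v)).le
      have b2 := Real.sq_sqrt (hp _ (neg_ne_zero.2 (hne v))).le
      nlinarith [sq_nonneg (Real.sqrt (curv X (v : E n)) - Real.sqrt (curv X (-(v : E n))))]
    have h3 : ‖cc n ^ 2 * (Real.sqrt (curv X (v : E n)) * Real.sqrt (curv X (-(v : E n))))‖ ≤
        cc n ^ 2 * (C + C) := by
      rw [Real.norm_of_nonneg (by positivity)]
      exact mul_le_mul_of_nonneg_left h2 (by positivity)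
    calc _ ≤ cc n ^ 2 * (C + C) * 1 :=
          mul_le_mul h3 (by simpa [mul_comm] using h1) (by positivity) (by positivity)
      _ = _ := mul_one _
  · refine Filter.Eventually.of_forall fun v => ?_
    have h1 : Tendsto (fun T : ℝ => ‖(1 - Complex.I * ((T * (h (v : E n) + h (-(v : E n))) : ℝ) : ℂ))‖) atTop atTop := by
      refine tendsto_atTop_mono (f := fun T : ℝ => T * (h (v : E n) + h (-(v : E n)))) (fun T => ?_)
        (tendsto_id.atTop_mul_const (hwpos v))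
      have := Complex.abs_im_le_norm (1 - Complex.I * ((T * (h (v : E n) + h (-(v : E n))) : ℝ) : ℂ))
      refine le_trans ?_ this
      simp only [Complex.sub_im, Complex.one_im, Complex.mul_im, Complex.I_re, Complex.I_im,
        Complex.ofReal_re, Complex.ofReal_im, zero_mul, one_mul, zero_add, zero_sub, abs_neg]
      exact le_abs_self _
    have h2 : Tendsto (fun T : ℝ => (1 - Complex.I * ((T * (h (v : E n) + h (-(v : E n))) : ℝ) : ℂ))⁻¹) atTop (𝓝 0) := by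
      rw [tendsto_zero_iff_norm_tendsto_zero]
      simp only [norm_inv]
      exact h1.inv_tendsto_atTop
    have h3 := h2.const_mul (((cc n ^ 2 * (Real.sqrt (curv X (v : E n)) *
        Real.sqrt (curv X (-(v : E n)))) : ℝ) : ℂ) * Complex.exp (Complex.I * ((2 * ph n : ℝ) : ℂ)))
    rw [mul_zero] at h3
    exact h3

end main2

end Pool.Agent.Helper890.Cov.JG11

namespace Pool.Agent.Helper890.Cov.JG11
open MeasureTheory Set Filter Topology Metric
open scoped RealInnerProductSpace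

section main3
variable {n : ℕ} {K : Set (E n)} {h : E n → ℝ} {X : E n → E n}

theorem g11_cpow (T : ℝ) (hT : 0 < T) (a : ℝ) (w : ℂ) (hw : w ≠ 0) :
    (((T⁻¹ : ℝ) : ℂ) * w) ^ (-(a : ℂ)) = ((T ^ a : ℝ) : ℂ) * w ^ (-(a : ℂ)) := by
  have hT' : (0:ℝ) < T⁻¹ := inv_pos.2 hT
  rw [Complex.cpow_def_of_ne_zero (mul_ne_zero (by exact_mod_cast hT'.ne') hw),
    Complex.cpow_def_of_ne_zero hw, Complex.log_ofReal_mul hT' hw, Real.log_inv,
    Real.rpow_def_of_pos hT, Complex.ofReal_exp, ← Complex.exp_add]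
  congr 1
  push_cast
  ring

theorem g11_inner (hn : 2 ≤ n) (hG : Good K h X) (T : ℝ) (hT : 0 < T) (v : E n) :
    ∫ r in Ioi (0:ℝ), ((r ^ kap n : ℝ) : ℂ) * (((Real.exp (-(r/T)) : ℝ) : ℂ) *
        Complex.exp (-(Complex.I * ((r * h v : ℝ) : ℂ))) * FK K (r • v)) =
      ((T ^ (kap n + 1) : ℝ) : ℂ) * ∫ x in K, (Real.Gamma (kap n + 1) : ℂ) *
      (1 + Complex.I * ((T * (h v - ⟪x, v⟫) : ℝ) : ℂ)) ^ (-((kap n + 1 : ℝ) : ℂ)) := by
  have hk : 0 < kap n := by unfold kap; positivity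
  have hfin : IsFiniteMeasure ((volume : Measure (E n)).restrict K) :=
    ⟨by rw [Measure.restrict_apply_univ]; exact hG.compact.measure_lt_top⟩
  have hTC : (T : ℂ) ≠ 0 := by exact_mod_cast hT.ne'
  have h1 : ∀ r : ℝ, ((r ^ kap n : ℝ) : ℂ) * (((Real.exp (-(r/T)) : ℝ) : ℂ) *
        Complex.exp (-(Complex.I * ((r * h v : ℝ) : ℂ))) * FK K (r • v)) =
      ∫ x in K, ((r ^ kap n : ℝ) : ℂ) * Complex.exp (-((((T⁻¹ : ℝ) : ℂ) +
        Complex.I * ((h v - ⟪x, v⟫ : ℝ) : ℂ)) * (r : ℂ))) := by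
    intro r
    unfold FK
    rw [← integral_const_mul, ← integral_const_mul]
    congr 1
    funext x
    rw [Complex.ofReal_exp, ← Complex.exp_add, ← Complex.exp_add]
    congr 2
    rw [real_inner_smul_left, real_inner_comm]
    push_cast
    field_simp
    ring
  have hint : Integrable (Function.uncurry (fun (r : ℝ) (x : E n) => ((r ^ kap n : ℝ) : ℂ) *
      Complex.exp (-((((T⁻¹ : ℝ) : ℂ) + Complex.I * ((h v - ⟪x, v⟫ : ℝ) : ℂ)) * (r : ℂ)))))
      ((volume.restrict (Ioi (0:ℝ))).prod ((volume : Measure (E n)).restrict K)) := by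
    have hb := (g11_lap (kap n) (by linarith) ((T⁻¹ : ℝ) : ℂ) (by simpa using hT)).1.norm
    have hb2 := hb.mul_prod (integrable_const (μ := (volume : Measure (E n)).restrict K) (1:ℝ))
    refine Integrable.mono' hb2 ?_ ?_
    · refine Measurable.aestronglyMeasurable (Measurable.mul ?_ ?_)
      · exact Complex.measurable_ofReal.comp (measurable_fst.pow_const _)
      · exact Continuous.measurable (by fun_prop)
    · refine Filter.Eventually.of_forall fun z => ?_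
      simp only [Function.uncurry, norm_mul, Complex.norm_exp, mul_one]
      apply le_of_eq
      congr 2
      simp
  calc _ = ∫ r in Ioi (0:ℝ), ∫ x in K, ((r ^ kap n : ℝ) : ℂ) * Complex.exp (-((((T⁻¹ : ℝ) : ℂ) +
        Complex.I * ((h v - ⟪x, v⟫ : ℝ) : ℂ)) * (r : ℂ))) := by simp_rw [h1]
    _ = ∫ x in K, ∫ r in Ioi (0:ℝ), ((r ^ kap n : ℝ) : ℂ) * Complex.exp (-((((T⁻¹ : ℝ) : ℂ) +
        Complex.I * ((h v - ⟪x, v⟫ : ℝ) : ℂ)) * (r : ℂ))) := integral_integral_swap hint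
    _ = _ := by
      rw [← integral_const_mul]
      congr 1
      funext x
      have hz : 0 < (((T⁻¹ : ℝ) : ℂ) + Complex.I * ((h v - ⟪x, v⟫ : ℝ) : ℂ)).re := by
        simpa using hT
      rw [(g11_lap (kap n) (by linarith) _ hz).2]
      have hne : (1 + Complex.I * ((T * (h v - ⟪x, v⟫) : ℝ) : ℂ)) ≠ 0 := by
        intro h0
        have := congrArg Complex.re h0
        simp at this
      have hz2 : (((T⁻¹ : ℝ) : ℂ) + Complex.I * ((h v - ⟪x, v⟫ : ℝ) : ℂ)) =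
          ((T⁻¹ : ℝ) : ℂ) * (1 + Complex.I * ((T * (h v - ⟪x, v⟫) : ℝ) : ℂ)) := by
        push_cast
        field_simp
      rw [hz2, g11_cpow T hT (kap n + 1) _ hne]
      ring

theorem g11_FM_eq (h3 : StmtG3) (hP : StmtP) (hn : 2 ≤ n) (hG : Good K h X) (T : ℝ) (hT : 0 < T) :
    ((T⁻¹ : ℝ) : ℂ) * ∫ ξ : E n, ((W T ξ : ℝ) : ℂ) * (FK K ξ * (starRingEnd ℂ) (M1 h X ξ)) =
      ∫ v : sphere (0 : E n) 1, ((cc n * Real.sqrt (curv X (v : E n)) : ℝ) : ℂ) *
        Complex.exp (-(Complex.I * (ph n : ℂ))) *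
        (((T ^ kap n : ℝ) : ℂ) * ∫ x in K, (Real.Gamma (kap n + 1) : ℂ) *
      (1 + Complex.I * ((T * (h (v : E n) - ⟪x, (v : E n)⟫) : ℝ) : ℂ)) ^
        (-((kap n + 1 : ℝ) : ℂ))) ∂(sph n) := by
  have hm := g11_M1_meas h3 hn hG
  have hi := g11_intM h3 hP hn hG T hT
  obtain ⟨hFc, _, _⟩ := g11_FK K hG.compact
  have hmc : AEStronglyMeasurable (fun ξ => (starRingEnd ℂ) (M1 h X ξ)) volume :=
    Complex.continuous_conj.comp_aestronglyMeasurable hm
  have hint := g11_intProd T (FK K) (fun ξ => (starRingEnd ℂ) (M1 h X ξ))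
    hFc.aestronglyMeasurable hmc (g11_intF hP hn hG T hT) (by
      refine hi.congr (Filter.Eventually.of_forall fun ξ => ?_)
      simp)
  rw [(hP n hn).2.1 _ hint, ← integral_const_mul]
  congr 1
  funext v
  have hv := g11_sph_norm v
  have h1 : ∫ r in Ioi (0 : ℝ), ((r ^ (n - 1) : ℝ) : ℂ) * (((W T (r • (v : E n)) : ℝ) : ℂ) *
      (FK K (r • (v : E n)) * (starRingEnd ℂ) (M1 h X (r • (v : E n))))) =
      ∫ r in Ioi (0 : ℝ), (((cc n * Real.sqrt (curv X (v : E n)) : ℝ) : ℂ) *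
        Complex.exp (-(Complex.I * (ph n : ℂ)))) *
        (((r ^ kap n : ℝ) : ℂ) * (((Real.exp (-(r/T)) : ℝ) : ℂ) *
        Complex.exp (-(Complex.I * ((r * h (v : E n) : ℝ) : ℂ))) * FK K (r • (v : E n)))) := by
    refine setIntegral_congr_fun measurableSet_Ioi fun r hr => ?_
    have hr' : (0:ℝ) < r := hr
    rw [g11_W_polar T r hr' (v : E n) hv, g11_M1_polar h3 hn hG r hr' (v : E n) hv]
    have h2 := (g11_pow hn r hr').1
    have h2' : ((r ^ (n - 1) : ℝ) : ℂ) * ((r ^ 2 : ℝ) : ℂ) * (((r ^ (-kap n) : ℝ) : ℂ)) =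
        ((r ^ kap n : ℝ) : ℂ) := by
      rw [← Complex.ofReal_mul, ← Complex.ofReal_mul, h2]
    have h4 : (starRingEnd ℂ) (Complex.exp (Complex.I * (((r * h (v : E n) + ph n : ℝ)) : ℂ))) =
        Complex.exp (-(Complex.I * (ph n : ℂ))) *
          Complex.exp (-(Complex.I * ((r * h (v : E n) : ℝ) : ℂ))) := by
      rw [← Complex.exp_conj, map_mul, Complex.conj_I, Complex.conj_ofReal, ← Complex.exp_add]
      congr 1
      push_cast
      ring
    rw [map_mul, map_mul, Complex.conj_ofReal, Complex.conj_ofReal, h4, ← h2']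
    push_cast
    ring
  rw [h1, integral_const_mul, g11_inner hn hG T hT (v : E n), mul_left_comm]
  congr 1
  rw [← mul_assoc]
  congr 1
  rw [← Complex.ofReal_mul]
  congr 1
  rw [Real.rpow_add hT, Real.rpow_one]
  field_simp

theorem g11_FM (h3 : StmtG3) (hP : StmtP) (h10 : StmtG10) (hn : 2 ≤ n) (hG : Good K h X) :
    Tendsto (fun T : ℝ => ((T⁻¹ : ℝ) : ℂ) * ∫ ξ : E n, ((W T ξ : ℝ) : ℂ) *
      (FK K ξ * (starRingEnd ℂ) (M1 h X ξ))) atTop
      (𝓝 ((cc n ^ 2 * ∫ v : sphere (0 : E n) 1, curv X v ∂(sph n) : ℝ) : ℂ)) := by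
  obtain ⟨_, hp, _, _, hhc, hhpos⟩ := h3 n hn K h X hG
  obtain ⟨hc1, hc2, C, hC0, hC⟩ := g11_sphere_bd h3 hn hG
  obtain ⟨⟨C', hC'⟩, hlim⟩ := h10 n hn K h X hG
  have hfin : IsFiniteMeasure (sph n) := by unfold sph; infer_instance
  have hfinK : IsFiniteMeasure ((volume : Measure (E n)).restrict K) :=
    ⟨by rw [Measure.restrict_apply_univ]; exact hG.compact.measure_lt_top⟩
  have hne : ∀ v : sphere (0 : E n) 1, (v : E n) ≠ 0 := by
    intro v hv
    have := g11_sph_norm v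
    rw [hv] at this
    simp at this
  have hev : (fun T : ℝ => ((T⁻¹ : ℝ) : ℂ) * ∫ ξ : E n, ((W T ξ : ℝ) : ℂ) *
      (FK K ξ * (starRingEnd ℂ) (M1 h X ξ))) =ᶠ[atTop] fun T : ℝ =>
      ∫ v : sphere (0 : E n) 1, ((cc n * Real.sqrt (curv X (v : E n)) : ℝ) : ℂ) *
        Complex.exp (-(Complex.I * (ph n : ℂ))) *
        (((T ^ kap n : ℝ) : ℂ) * ∫ x in K, (Real.Gamma (kap n + 1) : ℂ) *
      (1 + Complex.I * ((T * (h (v : E n) - ⟪x, (v : E n)⟫) : ℝ) : ℂ)) ^
        (-((kap n + 1 : ℝ) : ℂ))) ∂(sph n) := by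
    filter_upwards [Filter.eventually_gt_atTop 0] with T hT
    exact g11_FM_eq h3 hP hn hG T hT
  rw [tendsto_congr' hev]
  have hval : ∫ v : sphere (0 : E n) 1, ((cc n * Real.sqrt (curv X (v : E n)) : ℝ) : ℂ) *
        Complex.exp (-(Complex.I * (ph n : ℂ))) *
        (((cc n * Real.sqrt (curv X (v : E n)) : ℝ) : ℂ) * Complex.exp (Complex.I * (ph n : ℂ))) ∂(sph n) =
      ((cc n ^ 2 * ∫ v : sphere (0 : E n) 1, curv X v ∂(sph n) : ℝ) : ℂ) := by
    rw [← integral_const_mul, ← integral_complex_ofReal]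
    congr 1
    funext v
    have h5 : Complex.exp (-(Complex.I * (ph n : ℂ))) * Complex.exp (Complex.I * (ph n : ℂ)) = 1 := by
      rw [← Complex.exp_add, neg_add_cancel, Complex.exp_zero]
    have h6 : ((Real.sqrt (curv X (v : E n)) : ℝ) : ℂ) ^ 2 = ((curv X (v : E n) : ℝ) : ℂ) := by
      rw [← Complex.ofReal_pow, Real.sq_sqrt (hp _ (hne v)).le]
    push_cast
    rw [← h6]
    linear_combination ((cc n : ℂ) ^ 2 * ((Real.sqrt (curv X (v : E n)) : ℝ) : ℂ) ^ 2) * h5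
  rw [← hval]
  refine tendsto_integral_filter_of_dominated_convergence (fun _ => cc n * Real.sqrt C * C') ?_ ?_
    (integrable_const _) ?_
  · refine Filter.Eventually.of_forall fun T => ?_
    refine AEStronglyMeasurable.mul (Continuous.aestronglyMeasurable ?_)
      (AEStronglyMeasurable.mul aestronglyMeasurable_const ?_)
    · exact (Complex.continuous_ofReal.comp (continuous_const.mul
        (Real.continuous_sqrt.comp hc1))).mul continuous_const
    · refine StronglyMeasurable.aestronglyMeasurable ?_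
      refine StronglyMeasurable.integral_prod_right (f := fun (v : sphere (0 : E n) 1) (x : E n) =>
        (Real.Gamma (kap n + 1) : ℂ) * (1 + Complex.I * ((T * (h (v : E n) - ⟪x, (v : E n)⟫) : ℝ) : ℂ)) ^
        (-((kap n + 1 : ℝ) : ℂ))) ?_
      refine Measurable.stronglyMeasurable ?_
      refine Measurable.const_mul ?_ _
      refine Measurable.pow_const ?_ _
      exact Continuous.measurable (by fun_prop)
  · filter_upwards [Filter.eventually_gt_atTop 0] with T hT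
    refine Filter.Eventually.of_forall fun v => ?_
    have hv := g11_sph_norm v
    have h7 := hC' (v : E n) hv T hT
    have h8 : ‖Complex.exp (-(Complex.I * (ph n : ℂ)))‖ = 1 := by
      rw [Complex.norm_exp]
      simp
    rw [norm_mul, norm_mul, h8, mul_one, Complex.norm_real, Real.norm_of_nonneg
      (mul_nonneg (g11_cc n).1 (Real.sqrt_nonneg _))]
    refine mul_le_mul ?_ h7 (norm_nonneg _) (mul_nonneg (g11_cc n).1 (Real.sqrt_nonneg _))
    exact mul_le_mul_of_nonneg_left (Real.sqrt_le_sqrt (hC _ (hne v))) (g11_cc n).1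
  · refine Filter.Eventually.of_forall fun v => ?_
    exact (hlim (v : E n) (g11_sph_norm v)).const_mul _

end main3

/-- algebra for the final expansion -/
theorem g11_expand (a b c : ℂ) : ‖a - (b + (starRingEnd ℂ) c)‖ ^ 2 =
    ‖a‖ ^ 2 + ‖b‖ ^ 2 + ‖c‖ ^ 2 - 2 * (a * (starRingEnd ℂ) b).re - 2 * (a * c).re +
      2 * (b * c).re := by
  simp only [← Complex.normSq_eq_norm_sq, Complex.normSq_apply, Complex.sub_re, Complex.sub_im,
    Complex.add_re, Complex.add_im, Complex.mul_re, Complex.conj_re, Complex.conj_im]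
  ring

theorem stG11 (h3 : StmtG3) (hP : StmtP) (h9 : StmtG9) (h10 : StmtG10) : StmtG11 := by
  intro n hn K h X hG
  have hm := g11_M1_meas h3 hn hG
  have hmn := g11_neg_meas _ hm
  obtain ⟨hFc, _, hFneg⟩ := g11_FK K hG.compact
  have hFm : AEStronglyMeasurable (FK K) volume := hFc.aestronglyMeasurable
  have hmc : AEStronglyMeasurable (fun ξ => (starRingEnd ℂ) (M1 h X ξ)) volume :=
    Complex.continuous_conj.comp_aestronglyMeasurable hm
  have hWneg : ∀ T : ℝ, ∀ ξ : E n, W T (-ξ) = W T ξ := by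
    intro T ξ
    unfold W
    rw [norm_neg]
  have hexp : ∀ T : ℝ, ∀ ξ : E n, Real.exp (-(‖ξ‖ / T)) * (‖ξ‖ ^ 2 * ‖FK K ξ - Mhat h X ξ‖ ^ 2) =
      W T ξ * ‖FK K ξ‖ ^ 2 + W T ξ * ‖M1 h X ξ‖ ^ 2 + W T ξ * ‖M1 h X (-ξ)‖ ^ 2 -
      2 * (((W T ξ : ℝ) : ℂ) * (FK K ξ * (starRingEnd ℂ) (M1 h X ξ))).re -
      2 * (((W T ξ : ℝ) : ℂ) * (FK K ξ * M1 h X (-ξ))).re +
      2 * (((W T ξ : ℝ) : ℂ) * (M1 h X ξ * M1 h X (-ξ))).re := by
    intro T ξ
    rw [g11_split, g11_expand, Complex.re_ofReal_mul, Complex.re_ofReal_mul, Complex.re_ofReal_mul,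
      W]
    ring
  have hI : ∀ T : ℝ, 0 < T →
      Integrable (fun ξ : E n => W T ξ * ‖FK K ξ‖ ^ 2) ∧
      Integrable (fun ξ : E n => W T ξ * ‖M1 h X ξ‖ ^ 2) ∧
      Integrable (fun ξ : E n => W T ξ * ‖M1 h X (-ξ)‖ ^ 2) ∧
      Integrable (fun ξ : E n => ((W T ξ : ℝ) : ℂ) * (FK K ξ * (starRingEnd ℂ) (M1 h X ξ))) ∧
      Integrable (fun ξ : E n => ((W T ξ : ℝ) : ℂ) * (FK K ξ * M1 h X (-ξ))) ∧
      Integrable (fun ξ : E n => ((W T ξ : ℝ) : ℂ) * (M1 h X ξ * M1 h X (-ξ))) := by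
    intro T hT
    have i1 := g11_intF hP hn hG T hT
    have i2 := g11_intM h3 hP hn hG T hT
    have i3 : Integrable (fun ξ : E n => W T ξ * ‖M1 h X (-ξ)‖ ^ 2) := by
      refine i2.comp_neg.congr (Filter.Eventually.of_forall fun ξ => ?_)
      simp only [hWneg]
    refine ⟨i1, i2, i3, g11_intProd T _ _ hFm hmc i1 ?_, g11_intProd T _ _ hFm hmn i1 i3,
      g11_intProd T _ _ hm hmn i2 i3⟩
    refine i2.congr (Filter.Eventually.of_forall fun ξ => ?_)
    simp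
  have hInt : ∀ T : ℝ, 0 < T → Integrable (fun ξ : E n => Real.exp (-(‖ξ‖ / T)) *
      (‖ξ‖ ^ 2 * ‖FK K ξ - Mhat h X ξ‖ ^ 2)) := by
    intro T hT
    obtain ⟨i1, i2, i3, i4, i5, i6⟩ := hI T hT
    have := ((((i1.add i2).add i3).sub (i4.re.const_mul 2)).sub (i5.re.const_mul 2)).add
      (i6.re.const_mul 2)
    exact this.congr (Filter.Eventually.of_forall fun ξ => (hexp T ξ).symm)
  refine ⟨hInt, ?_⟩
  set S : ℝ := ∫ v : sphere (0 : E n) 1, curv X v ∂(sph n) with hS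
  have hD : ∀ T : ℝ, 0 < T → T⁻¹ * ∫ ξ : E n, Real.exp (-(‖ξ‖ / T)) *
      (‖ξ‖ ^ 2 * ‖FK K ξ - Mhat h X ξ‖ ^ 2) =
      T⁻¹ * (∫ ξ : E n, Real.exp (-(‖ξ‖ / T)) * (‖ξ‖ ^ 2 * ‖FK K ξ‖ ^ 2)) + 2 * (cc n ^ 2 * S) -
      4 * (((T⁻¹ : ℝ) : ℂ) * ∫ ξ : E n, ((W T ξ : ℝ) : ℂ) *
        (FK K ξ * (starRingEnd ℂ) (M1 h X ξ))).re +
      2 * (((T⁻¹ : ℝ) : ℂ) * ∫ ξ : E n, ((W T ξ : ℝ) : ℂ) * (M1 h X ξ * M1 h X (-ξ))).re := by
    intro T hT
    obtain ⟨i1, i2, i3, i4, i5, i6⟩ := hI T hT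
    have e0 : ∫ ξ : E n, Real.exp (-(‖ξ‖ / T)) * (‖ξ‖ ^ 2 * ‖FK K ξ‖ ^ 2) =
        ∫ ξ : E n, W T ξ * ‖FK K ξ‖ ^ 2 := by
      congr 1
      funext ξ
      rw [W]
      ring
    have e3 : ∫ ξ : E n, W T ξ * ‖M1 h X (-ξ)‖ ^ 2 = ∫ ξ : E n, W T ξ * ‖M1 h X ξ‖ ^ 2 := by
      rw [← integral_neg_eq_self (fun ξ : E n => W T ξ * ‖M1 h X ξ‖ ^ 2)]
      simp only [hWneg]
    have e5 : ∫ ξ : E n, ((W T ξ : ℝ) : ℂ) * (FK K ξ * M1 h X (-ξ)) =
        (starRingEnd ℂ) (∫ ξ : E n, ((W T ξ : ℝ) : ℂ) * (FK K ξ * (starRingEnd ℂ) (M1 h X ξ))) := by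
      rw [← integral_neg_eq_self, ← integral_conj]
      congr 1
      funext ξ
      rw [neg_neg, hWneg, hFneg, map_mul, map_mul, Complex.conj_ofReal, Complex.conj_conj]
    have r4 : ∫ ξ : E n, (((W T ξ : ℝ) : ℂ) * (FK K ξ * (starRingEnd ℂ) (M1 h X ξ))).re =
        (∫ ξ : E n, ((W T ξ : ℝ) : ℂ) * (FK K ξ * (starRingEnd ℂ) (M1 h X ξ))).re := integral_re i4
    have r5 : ∫ ξ : E n, (((W T ξ : ℝ) : ℂ) * (FK K ξ * M1 h X (-ξ))).re =
        (∫ ξ : E n, ((W T ξ : ℝ) : ℂ) * (FK K ξ * M1 h X (-ξ))).re := integral_re i5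
    have r6 : ∫ ξ : E n, (((W T ξ : ℝ) : ℂ) * (M1 h X ξ * M1 h X (-ξ))).re =
        (∫ ξ : E n, ((W T ξ : ℝ) : ℂ) * (M1 h X ξ * M1 h X (-ξ))).re := integral_re i6
    have i4' : Integrable (fun ξ : E n => (((W T ξ : ℝ) : ℂ) *
      (FK K ξ * (starRingEnd ℂ) (M1 h X ξ))).re) := i4.re
    have i5' : Integrable (fun ξ : E n => (((W T ξ : ℝ) : ℂ) * (FK K ξ * M1 h X (-ξ))).re) := i5.re
    have i6' : Integrable (fun ξ : E n => (((W T ξ : ℝ) : ℂ) * (M1 h X ξ * M1 h X (-ξ))).re) := i6.re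
    have j1 : Integrable (fun ξ : E n => W T ξ * ‖FK K ξ‖ ^ 2 + W T ξ * ‖M1 h X ξ‖ ^ 2) := i1.add i2
    have j2 : Integrable (fun ξ : E n => W T ξ * ‖FK K ξ‖ ^ 2 + W T ξ * ‖M1 h X ξ‖ ^ 2 +
      W T ξ * ‖M1 h X (-ξ)‖ ^ 2) := j1.add i3
    have j3 : Integrable (fun ξ : E n => W T ξ * ‖FK K ξ‖ ^ 2 + W T ξ * ‖M1 h X ξ‖ ^ 2 +
      W T ξ * ‖M1 h X (-ξ)‖ ^ 2 -
      2 * (((W T ξ : ℝ) : ℂ) * (FK K ξ * (starRingEnd ℂ) (M1 h X ξ))).re) :=
      j2.sub (i4'.const_mul 2)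
    have j4 : Integrable (fun ξ : E n => W T ξ * ‖FK K ξ‖ ^ 2 + W T ξ * ‖M1 h X ξ‖ ^ 2 +
      W T ξ * ‖M1 h X (-ξ)‖ ^ 2 -
      2 * (((W T ξ : ℝ) : ℂ) * (FK K ξ * (starRingEnd ℂ) (M1 h X ξ))).re -
      2 * (((W T ξ : ℝ) : ℂ) * (FK K ξ * M1 h X (-ξ))).re) := j3.sub (i5'.const_mul 2)
    simp_rw [hexp T]
    rw [integral_add j4 (i6'.const_mul 2), integral_sub j3 (i5'.const_mul 2),
      integral_sub j2 (i4'.const_mul 2), integral_add j1 i3,
      integral_add i1 i2, integral_const_mul, integral_const_mul, integral_const_mul, r4, r5, r6,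
      e5, e3, e0, g11_M h3 hP hn hG T hT, Complex.conj_re, Complex.re_ofReal_mul,
      Complex.re_ofReal_mul, ← hS]
    field_simp
    ring
  have hx := (Complex.continuous_re.tendsto _).comp (g11_FM h3 hP h10 hn hG)
  have hy := (Complex.continuous_re.tendsto _).comp (g11_MM h3 hP hn hG)
  rw [Complex.ofReal_re] at hx
  rw [Complex.zero_re] at hy
  rw [Metric.tendsto_nhds]
  intro η hη
  have hcc := (g11_cc n).2
  filter_upwards [h9 n hn K h X hG (η / 4) (by positivity), Filter.eventually_gt_atTop 0,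
    (tendsto_order.1 hx).1 (cc n ^ 2 * S - η / 16) (by linarith),
    (tendsto_order.1 hy).2 (η / 8) (by positivity)] with T h1 hT h2 h3'
  have hnn : 0 ≤ T⁻¹ * ∫ ξ : E n, Real.exp (-(‖ξ‖ / T)) *
      (‖ξ‖ ^ 2 * ‖FK K ξ - Mhat h X ξ‖ ^ 2) := by
    refine mul_nonneg (inv_nonneg.2 hT.le) (integral_nonneg fun ξ => ?_)
    positivity
  rw [Real.dist_eq, sub_zero, abs_of_nonneg hnn, hD T hT]
  simp only [Function.comp_apply] at h2 h3'
  rw [← hcc, ← hS] at h1
  linarith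

end Pool.Agent.Helper890.Cov.JG11
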