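import Mathlib
import Pool.Agent.Helper890.Cov.StG




namespace Pool.Agent.Helper890.Cov.JG3
open MeasureTheory Set Filter Topology Metric
open scoped RealInnerProductSpace

theorem stG3_diff {n : ℕ} {K : Set (E n)} {h : E n → ℝ} {X : E n → E n} (hG : Good K h X)
    {u : E n} (hu : u ≠ 0) : DifferentiableAt ℝ X u := by
  have h1 : ({0}ᶜ : Set (E n)) ∈ 𝓝 u := isOpen_compl_singleton.mem_nhds hu
  exact (hG.c1.contDiffAt h1).differentiableAt one_ne_zero

theorem stG3_fderiv_smul {n : ℕ} {K : Set (E n)} {h : E n → ℝ} {X : E n → E n} (hG : Good K h X)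
    {r : ℝ} (hr : 0 < r) {u : E n} (hu : u ≠ 0) :
    r • fderiv ℝ X (r • u) = fderiv ℝ X u := by
  rw [← fderiv_comp_smul]
  apply Filter.EventuallyEq.fderiv_eq
  have h1 : ({0}ᶜ : Set (E n)) ∈ 𝓝 u := isOpen_compl_singleton.mem_nhds hu
  filter_upwards [h1] with v hv
  exact hG.homogX r v hr hv

theorem stG3_radial {n : ℕ} {K : Set (E n)} {h : E n → ℝ} {X : E n → E n} (hG : Good K h X)
    {u : E n} (hu : u ≠ 0) : fderiv ℝ X u u = 0 := by
  have h1 : HasFDerivAt X (fderiv ℝ X u) ((1 : ℝ) • u) := by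
    rw [one_smul]
    exact (stG3_diff hG hu).hasFDerivAt
  have h2 : HasDerivAt (fun r : ℝ => r • u) u 1 := by
    have := (hasDerivAt_id (1 : ℝ)).smul_const u
    simpa using this
  have h3 : HasDerivAt (fun r : ℝ => X (r • u)) (fderiv ℝ X u u) 1 :=
    HasFDerivAt.comp_hasDerivAt (f := fun r : ℝ => r • u) (l := X) (1 : ℝ) h1 h2
  have h4 : HasDerivAt (fun r : ℝ => X (r • u)) 0 1 := by
    have h5 : HasDerivAt (fun _ : ℝ => X u) 0 (1 : ℝ) := hasDerivAt_const _ _
    refine h5.congr_of_eventuallyEq ?_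
    have h6 : Ioi (0 : ℝ) ∈ 𝓝 (1 : ℝ) := Ioi_mem_nhds one_pos
    filter_upwards [h6] with r hr
    exact hG.homogX r u hr hu
  exact h3.unique h4

theorem stG3_posdef {n : ℕ} {K : Set (E n)} {h : E n → ℝ} {X : E n → E n} (hG : Good K h X)
    {u : E n} (hu : u ≠ 0) {w : E n} (hw : w ≠ 0) : 0 < ⟪BB X u w, w⟫ := by
  have hnu : 0 < ‖u‖ := norm_pos_iff.mpr hu
  have e0 : ⟪BB X u w, w⟫ = ‖u‖ * ⟪fderiv ℝ X u w, w⟫ + (‖u‖ ^ 2)⁻¹ * ⟪u, w⟫ ^ 2 := by
    have e1 : BB X u w = ‖u‖ • fderiv ℝ X u w + (‖u‖ ^ 2)⁻¹ • (⟪u, w⟫ • u) := rfl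
    rw [e1, inner_add_left, real_inner_smul_left, real_inner_smul_left, real_inner_smul_left]
    ring
  set α : ℝ := ⟪u, w⟫ / ‖u‖ ^ 2 with hα
  set w' : E n := w - α • u with hw'
  have hwu : ⟪w', u⟫ = 0 := by
    rw [hw', inner_sub_left, real_inner_smul_left, real_inner_self_eq_norm_sq, hα,
      real_inner_comm]
    field_simp
    ring
  have hD : fderiv ℝ X u w = fderiv ℝ X u w' := by
    rw [hw', map_sub, map_smul, stG3_radial hG hu, smul_zero, sub_zero]
  have e2 : ⟪fderiv ℝ X u w, w⟫ = ⟪fderiv ℝ X u w', w'⟫ := by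
    have e3 : w = w' + α • u := by rw [hw']; abel
    rw [hD]
    conv_lhs => rw [e3]
    rw [inner_add_right, real_inner_smul_right, hG.symm u hu w' u, stG3_radial hG hu,
      inner_zero_right, mul_zero, add_zero]
  rw [e0, e2]
  by_cases hz : w' = 0
  · have e3 : w = α • u := by
      have : w - α • u = 0 := hz
      exact sub_eq_zero.mp this
    have hne : ⟪u, w⟫ ≠ 0 := by
      intro h0
      rw [h0, zero_div] at hα
      rw [hα, zero_smul] at e3
      exact hw e3
    rw [hz, map_zero, inner_zero_left, mul_zero, zero_add]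
    have : 0 < ⟪u, w⟫ ^ 2 := by positivity
    positivity
  · have h1 := hG.pos u hu w' hz hwu
    have h2 : 0 < ‖u‖ * ⟪fderiv ℝ X u w', w'⟫ := mul_pos hnu h1
    have h3 : 0 ≤ (‖u‖ ^ 2)⁻¹ * ⟪u, w⟫ ^ 2 := by positivity
    linarith

theorem stG3_det_pos {n : ℕ} (B : E n →L[ℝ] E n) (hB : ∀ w, w ≠ 0 → 0 < ⟪B w, w⟫) :
    0 < B.det := by
  let p : ℝ → (E n →L[ℝ] E n) := fun s => (1 - s) • ContinuousLinearMap.id ℝ (E n) + s • B
  have hp : Continuous p := by
    show Continuous fun s : ℝ => (1 - s) • ContinuousLinearMap.id ℝ (E n) + s • B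
    fun_prop
  have hdet : Continuous fun s => (p s).det := ContinuousLinearMap.continuous_det.comp hp
  have hne : ∀ s ∈ Icc (0 : ℝ) 1, (p s).det ≠ 0 := by
    intro s hs h0
    have h1 : LinearMap.det (p s : E n →ₗ[ℝ] E n) = 0 := h0
    have h2 := LinearMap.bot_lt_ker_of_det_eq_zero h1
    obtain ⟨w, hw, hw0⟩ := Submodule.exists_mem_ne_zero_of_ne_bot h2.ne'
    have h3 : p s w = 0 := LinearMap.mem_ker.mp hw
    have h4 : ⟪p s w, w⟫ = (1 - s) * ‖w‖ ^ 2 + s * ⟪B w, w⟫ := by
      have e1 : p s w = (1 - s) • w + s • B w := rfl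
      rw [e1, inner_add_left, real_inner_smul_left, real_inner_smul_left,
        real_inner_self_eq_norm_sq]
    rw [h3, inner_zero_left] at h4
    have h5 := hB w hw0
    have h6 : 0 < ‖w‖ ^ 2 := by
      have := norm_pos_iff.mpr hw0
      positivity
    rcases hs.1.eq_or_lt with h7 | h7
    · rw [← h7] at h4
      linarith
    · have h8 : 0 < s * ⟪B w, w⟫ := mul_pos h7 h5
      have h9 : 0 ≤ (1 - s) * ‖w‖ ^ 2 := mul_nonneg (by linarith [hs.2]) h6.le
      linarith
  have h0 : (p 0).det = 1 := by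
    have e1 : p 0 = ContinuousLinearMap.id ℝ (E n) := by
      ext1 w
      show (1 - (0 : ℝ)) • w + (0 : ℝ) • B w = w
      rw [sub_zero, one_smul, zero_smul, add_zero]
    rw [e1]
    exact LinearMap.det_id
  have h1 : p 1 = B := by
    ext1 w
    show (1 - (1 : ℝ)) • w + (1 : ℝ) • B w = B w
    rw [sub_self, one_smul, zero_smul, zero_add]
  by_contra hcon
  push Not at hcon
  have hivt := intermediate_value_Icc' (zero_le_one' ℝ) hdet.continuousOn
  have hmem : (0 : ℝ) ∈ Icc ((p 1).det) ((p 0).det) := by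
    rw [h1, h0]
    exact ⟨hcon, zero_le_one⟩
  obtain ⟨s, hs, hs0⟩ := hivt hmem
  exact hne s hs hs0

theorem stG3 : StmtG3 := by
  intro n hn K h X hG
  refine ⟨?_, ?_, ?_, hG.c1.continuousOn, ?_, ?_⟩
  · have hf : ContinuousOn (fderiv ℝ X) {0}ᶜ :=
      hG.c1.continuousOn_fderiv_of_isOpen isOpen_compl_singleton le_rfl
    have hBB : ContinuousOn (BB X) {0}ᶜ := by
      have h1 : ContinuousOn (fun u : E n => ‖u‖ • fderiv ℝ X u) {0}ᶜ :=
        continuous_norm.continuousOn.smul hf
      have h2 : ContinuousOn (fun u : E n => (‖u‖ ^ 2)⁻¹) {0}ᶜ := by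
        refine ContinuousOn.inv₀ (by fun_prop) ?_
        intro u hu
        have hu' : u ≠ 0 := hu
        have := norm_pos_iff.mpr hu'
        positivity
      have h3 : Continuous (fun u : E n => (innerSL ℝ u).smulRight u) := by fun_prop
      exact h1.add (h2.smul h3.continuousOn)
    exact ContinuousLinearMap.continuous_det.comp_continuousOn hBB
  · intro u hu
    exact stG3_det_pos _ fun w hw => stG3_posdef hG hu hw
  · intro r u hr hu
    unfold curv
    congr 1
    unfold BB
    have e1 : ‖r • u‖ = r * ‖u‖ := by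
      rw [norm_smul, Real.norm_eq_abs, abs_of_pos hr]
    have e2 := stG3_fderiv_smul hG hr hu
    have hnu : ‖u‖ ≠ 0 := norm_ne_zero_iff.mpr hu
    congr 1
    · rw [← e2, e1, smul_smul, mul_comm]
    · ext1 w
      simp only [ContinuousLinearMap.smul_apply, ContinuousLinearMap.smulRight_apply,
        innerSL_apply_apply, real_inner_smul_left, smul_smul]
      congr 1
      rw [e1]
      field_simp
  · rw [continuous_iff_continuousAt]
    intro u
    by_cases hu : u = 0
    · subst hu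
      have h0 : h 0 = 0 := by
        have := hG.homog 0 0 le_rfl
        simpa using this
      obtain ⟨C, hC⟩ := hG.compact.isBounded.exists_norm_le
      have hb : ∀ u : E n, ‖h u‖ ≤ |C| * ‖u‖ := by
        intro u
        by_cases hu : u = 0
        · rw [hu, h0]
          simp
        · rw [← hG.eq u hu]
          refine (norm_inner_le_norm (𝕜 := ℝ) _ _).trans ?_
          exact mul_le_mul_of_nonneg_right ((hC _ (hG.mem u hu)).trans (le_abs_self C))
            (norm_nonneg _)
      show Tendsto h (𝓝 0) (𝓝 (h 0))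
      rw [h0]
      refine squeeze_zero_norm hb ?_
      have h1 : Continuous fun u : E n => |C| * ‖u‖ := by fun_prop
      have h2 := h1.tendsto 0
      simpa using h2
    · exact (hG.grad u hu).continuousAt
  · intro u hu
    have hnu : 0 < ‖u‖ := norm_pos_iff.mpr hu
    obtain ⟨ε, hε, hball⟩ := Metric.isOpen_iff.mp isOpen_interior 0 hG.zero_mem
    have hmem : (ε / (2 * ‖u‖)) • u ∈ K := by
      apply interior_subset
      apply hball
      rw [mem_ball_zero_iff, norm_smul, Real.norm_eq_abs, abs_of_pos (by positivity)]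
      have : ε / (2 * ‖u‖) * ‖u‖ = ε / 2 := by field_simp
      rw [this]
      linarith
    have h1 := hG.le _ hmem u
    rw [real_inner_smul_left, real_inner_self_eq_norm_sq] at h1
    have h2 : 0 < ε / (2 * ‖u‖) * ‖u‖ ^ 2 := by positivity
    linarith

end Pool.Agent.Helper890.Cov.JG3
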