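import Mathlib
import Pool.Agent.Helper890.Cov.StG




namespace Pool.Agent.Helper890.Cov.JG4
open MeasureTheory Set Filter Topology Metric
open scoped RealInnerProductSpace

theorem stG4_key {n : ℕ} {K : Set (E n)} {h : E n → ℝ} {X : E n → E n} (hG : Good K h X) {C : ℝ}
    (hC : 0 ≤ C) (hup : ∀ u v : E n, ‖u‖ = 1 → ‖v‖ = 1 → h v - ⟪X u, v⟫ ≤ C * ‖u - v‖ ^ 2)
    {u w x : E n} (hu : ‖u‖ = 1) (hw : ‖w‖ = 1) (huw : ⟪u, w⟫ = 0) (hx : x ∈ K) {ε : ℝ}
    (hε : 0 < ε) (hxu : h u - ε ≤ ⟪x, u⟫) : ⟪x - X u, w⟫ ≤ (C + 1) * √ε := by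
  have hu0 : u ≠ 0 := by rintro rfl; simp at hu
  set δ : ℝ := √ε with hδ
  have hδ0 : 0 < δ := Real.sqrt_pos.2 hε
  have hδ2 : δ * δ = ε := Real.mul_self_sqrt hε.le
  set v' : E n := u + δ • w with hv'
  have huu : ⟪u, u⟫ = 1 := by rw [real_inner_self_eq_norm_sq, hu]; norm_num
  have hww : ⟪w, w⟫ = 1 := by rw [real_inner_self_eq_norm_sq, hw]; norm_num
  have hwu : ⟪w, u⟫ = 0 := by rw [real_inner_comm]; exact huw
  have hN2 : ‖v'‖ ^ 2 = 1 + δ ^ 2 := by
    rw [← real_inner_self_eq_norm_sq, hv']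
    simp only [inner_add_left, inner_add_right, real_inner_smul_left, real_inner_smul_right,
      huu, hww, huw, hwu]
    ring
  set N : ℝ := ‖v'‖ with hN
  have hN0 : 0 ≤ N := norm_nonneg _
  have hN1 : 1 ≤ N := by nlinarith [sq_nonneg δ]
  have hNp : 0 < N := by linarith
  have hN3 : N ≤ 1 + δ ^ 2 / 2 := by nlinarith [sq_nonneg (δ ^ 2)]
  set v : E n := N⁻¹ • v' with hv
  have hv1 : ‖v‖ = 1 := by
    rw [hv, norm_smul, norm_inv, Real.norm_of_nonneg hN0, ← hN]
    exact inv_mul_cancel₀ hNp.ne'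
  have h1 := hup u v hu hv1
  have h2 := hG.le x hx v
  have huv : ⟪u, v⟫ = N⁻¹ := by
    rw [hv, real_inner_smul_right, hv', inner_add_right, real_inner_smul_right, huu, huw]; ring
  have hdist : ‖u - v‖ ^ 2 = 2 - 2 * N⁻¹ := by
    rw [norm_sub_sq_real, hu, hv1, huv]; ring
  have h3 : ⟪x - X u, v⟫ ≤ C * (2 - 2 * N⁻¹) := by
    rw [inner_sub_left, ← hdist]; linarith
  have h4 : ⟪x - X u, v⟫ = N⁻¹ * (⟪x - X u, u⟫ + δ * ⟪x - X u, w⟫) := by
    rw [hv, real_inner_smul_right, hv', inner_add_right, real_inner_smul_right]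
  have h5 : ⟪x - X u, u⟫ + δ * ⟪x - X u, w⟫ ≤ C * (2 * N - 2) := by
    rw [h4] at h3
    have h6 := mul_le_mul_of_nonneg_left h3 hN0
    have e1 : N * (N⁻¹ * (⟪x - X u, u⟫ + δ * ⟪x - X u, w⟫)) =
        ⟪x - X u, u⟫ + δ * ⟪x - X u, w⟫ := by
      rw [← mul_assoc, mul_inv_cancel₀ hNp.ne', one_mul]
    have e2 : N * (C * (2 - 2 * N⁻¹)) = C * (2 * N - 2) := by
      field_simp
    rwa [e1, e2] at h6
  have h7 : -ε ≤ ⟪x - X u, u⟫ := by
    rw [inner_sub_left, hG.eq u hu0]; linarith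
  have h8 : C * (2 * N - 2) ≤ C * δ ^ 2 := mul_le_mul_of_nonneg_left (by linarith) hC
  have h9 : δ * ⟪x - X u, w⟫ ≤ δ * ((C + 1) * δ) := by nlinarith
  exact le_of_mul_le_mul_left h9 hδ0

theorem stG4 (h1 : StmtG1) (h3 : StmtG3) : StmtG4 := by
  intro n hn K h X hG
  obtain ⟨m, rfl⟩ : ∃ m, n = m + 1 := ⟨n - 1, by omega⟩
  obtain ⟨c, C0, hc, hb⟩ := h1 _ hn K h X hG
  set C := max C0 0 with hCdef
  have hC : 0 ≤ C := le_max_right _ _
  have hup : ∀ u v : E (m + 1), ‖u‖ = 1 → ‖v‖ = 1 → h v - ⟪X u, v⟫ ≤ C * ‖u - v‖ ^ 2 :=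
    fun u v hu hv => (hb u v hu hv).2.1.trans
      (mul_le_mul_of_nonneg_right (le_max_left _ _) (sq_nonneg _))
  refine ⟨2 * (2 * (C + 1)) ^ m, fun u hu ε hε => ?_⟩
  have hu0 : u ≠ 0 := by rintro rfl; simp at hu
  -- orthonormal basis
  obtain ⟨b, hb0⟩ : ∃ b : OrthonormalBasis (Fin (m + 1)) ℝ (E (m + 1)), b 0 = u := by
    have hon : Orthonormal ℝ (({0} : Set (Fin (m + 1))).domRestrict (fun _ => u)) := by
      constructor
      · intro i; simpa using hu
      · intro i j hij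
        exact absurd (Subtype.ext ((i.2 : (i : Fin (m + 1)) = 0).trans (j.2 : (j : Fin (m + 1)) = 0).symm)) hij
    obtain ⟨b, hb⟩ := hon.exists_orthonormalBasis_extension_of_card_eq (by simp)
    exact ⟨b, hb 0 rfl⟩
  set f : E (m + 1) → (Fin (m + 1) → ℝ) := fun x => WithLp.ofLp (b.repr (x - X u)) with hf
  have hfm : MeasurePreserving f := (PiLp.volume_preserving_ofLp (Fin (m + 1))).comp
    (b.measurePreserving_repr.comp (measurePreserving_sub_right volume (X u)))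
  set s : Fin (m + 1) → ℝ := fun i => if i = 0 then ε else (C + 1) * √ε with hs
  have hsub : {x | x ∈ K ∧ h u - ε ≤ ⟪x, u⟫} ⊆ f ⁻¹' (Icc (-s) s) := by
    rintro x ⟨hx, hxu⟩
    have hfi : ∀ i, f x i = ⟪x - X u, b i⟫ := by
      intro i
      rw [hf]
      simp only
      rw [b.repr_apply_apply, real_inner_comm]
    have hbd : ∀ i, -s i ≤ f x i ∧ f x i ≤ s i := by
      intro i
      rw [hfi]
      by_cases hi : i = 0
      · simp only [hs, hi, if_true]
        rw [hb0, inner_sub_left, hG.eq u hu0]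
        have := hG.le x hx u
        constructor <;> linarith
      · simp only [hs, hi, if_false]
        have hor : ⟪u, b i⟫ = 0 := by
          rw [← hb0]; exact b.orthonormal.2 (fun h => hi h.symm)
        have hbi : ‖b i‖ = 1 := b.orthonormal.1 i
        have k1 := stG4_key hG hC hup hu hbi hor hx hε hxu
        have k2 := stG4_key hG hC hup (w := -(b i)) hu (by rw [norm_neg]; exact hbi)
          (by rw [inner_neg_right, hor, neg_zero]) hx hε hxu
        rw [inner_neg_right] at k2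
        constructor <;> linarith
    exact ⟨fun i => (hbd i).1, fun i => (hbd i).2⟩
  have hs0 : ∀ i, 0 ≤ s i := by
    intro i
    simp only [hs]
    split_ifs
    · exact hε.le
    · positivity
  have hvol : (volume : Measure (E (m + 1))).real (f ⁻¹' (Icc (-s) s)) =
      ∏ i, (s i - (-s) i) := by
    rw [Measure.real, hfm.measure_preimage measurableSet_Icc.nullMeasurableSet,
      Real.volume_Icc_pi_toReal (fun i => by have := hs0 i; simp only [Pi.neg_apply]; linarith)]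
  have hfin : (volume : Measure (E (m + 1))) (f ⁻¹' (Icc (-s) s)) ≠ ⊤ := by
    rw [hfm.measure_preimage measurableSet_Icc.nullMeasurableSet, Real.volume_Icc_pi]
    exact ENNReal.prod_ne_top fun i _ => ENNReal.ofReal_ne_top
  refine (measureReal_mono hsub hfin).trans (le_of_eq ?_)
  rw [hvol, Fin.prod_univ_succ]
  have e0 : s 0 - (-s) 0 = 2 * ε := by simp [hs]; ring
  have e1 : ∀ i : Fin m, s i.succ - (-s) i.succ = 2 * (C + 1) * √ε := by
    intro i; simp [hs, Fin.succ_ne_zero]; ring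
  rw [e0, Finset.prod_congr rfl (fun i _ => e1 i), Finset.prod_const, Finset.card_univ,
    Fintype.card_fin, mul_pow]
  have e2 : ε ^ kap (m + 1) = ε * √ε ^ m := by
    rw [Real.sqrt_eq_rpow, ← Real.rpow_natCast (ε ^ (1 / 2 : ℝ)) m, ← Real.rpow_mul hε.le]
    have : kap (m + 1) = 1 + 1 / 2 * (m : ℝ) := by unfold kap; push_cast; ring
    rw [this, Real.rpow_add hε, Real.rpow_one]
  rw [e2]; ring

end Pool.Agent.Helper890.Cov.JG4
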