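import Mathlib
import Pool.Agent.Helper890.Cov.StG




namespace Pool.Agent.Helper890.Cov.JG5
open MeasureTheory Set Filter Topology Metric
open scoped RealInnerProductSpace Pointwise


theorem g5_exists_sqrt {n : ℕ} (B : E n →ₗ[ℝ] E n) (hs : ∀ x y, ⟪B x, y⟫ = ⟪x, B y⟫)
    (hp : ∀ x, x ≠ 0 → 0 < ⟪B x, x⟫) (u : E n) (hu : B u = u) :
    ∃ R R' : E n →ₗ[ℝ] E n, (∀ x, R (R' x) = x) ∧ (∀ x, R' (R x) = x) ∧ (∀ x, R (R x) = B x) ∧
      (∀ x y, ⟪R x, y⟫ = ⟪x, R y⟫) ∧ R u = u := by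
  have hS : B.IsSymmetric := fun x y => hs x y
  have hn : Module.finrank ℝ (E n) = n := by simp
  set b := hS.eigenvectorBasis hn with hb
  set l := hS.eigenvalues hn with hl
  have hBb : ∀ i, B (b i) = l i • b i := fun i => hS.apply_eigenvectorBasis hn i
  have hnorm : ∀ i j, ⟪b i, b j⟫ = if i = j then (1 : ℝ) else 0 := fun i j => by
    rw [orthonormal_iff_ite.1 b.orthonormal i j]
  have hlpos : ∀ i, 0 < l i := by
    intro i
    have h1 := hp (b i) (b.orthonormal.ne_zero i)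
    rw [hBb i, real_inner_smul_left, hnorm, if_pos rfl, mul_one] at h1
    exact h1
  let T : (Fin n → ℝ) → (E n →ₗ[ℝ] E n) := fun c =>
    ∑ i, c i • ((innerSL ℝ (b i)).toLinearMap.smulRight (b i))
  have hT : ∀ c x, T c x = ∑ i, (c i * ⟪b i, x⟫) • b i := by
    intro c x
    simp only [T, LinearMap.sum_apply, LinearMap.smul_apply, LinearMap.smulRight_apply]
    refine Finset.sum_congr rfl fun i _ => ?_
    rw [smul_smul]
    rfl
  have hTb : ∀ c x i, ⟪b i, T c x⟫ = c i * ⟪b i, x⟫ := by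
    intro c x i
    rw [hT, inner_sum, Finset.sum_eq_single i]
    · rw [real_inner_smul_right, hnorm, if_pos rfl, mul_one]
    · intro j _ hj
      rw [real_inner_smul_right, hnorm, if_neg (Ne.symm hj), mul_zero]
    · intro h; exact absurd (Finset.mem_univ i) h
  have hsum : ∀ x : E n, x = ∑ i, ⟪b i, x⟫ • b i := fun x => (b.sum_repr' x).symm
  have hcomp : ∀ c d : Fin n → ℝ, (∀ i, c i * d i = 1) → ∀ x, T c (T d x) = x := by
    intro c d hcd x
    rw [hT]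
    conv_rhs => rw [hsum x]
    refine Finset.sum_congr rfl fun i _ => ?_
    rw [hTb, ← mul_assoc, hcd, one_mul]
  refine ⟨T (fun i => √(l i)), T (fun i => (√(l i))⁻¹), ?_, ?_, ?_, ?_, ?_⟩
  · apply hcomp
    intro i
    exact mul_inv_cancel₀ (Real.sqrt_pos.2 (hlpos i)).ne'
  · apply hcomp
    intro i
    exact inv_mul_cancel₀ (Real.sqrt_pos.2 (hlpos i)).ne'
  · intro x
    rw [hT]
    conv_rhs => rw [hsum (B x)]
    refine Finset.sum_congr rfl fun i _ => ?_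
    rw [hTb, ← mul_assoc, Real.mul_self_sqrt (hlpos i).le, ← hs, hBb, real_inner_smul_left]
  · intro x y
    rw [hT, hT, sum_inner, inner_sum]
    refine Finset.sum_congr rfl fun i _ => ?_
    rw [real_inner_smul_left, real_inner_smul_right, real_inner_comm (b i) x]
    ring
  · rw [hT]
    conv_rhs => rw [hsum u]
    refine Finset.sum_congr rfl fun i _ => ?_
    have h1 : l i * ⟪b i, u⟫ = ⟪b i, u⟫ := by
      rw [← real_inner_smul_left, ← hBb, hs, hu]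
    congr 1
    by_cases h0 : ⟪b i, u⟫ = 0
    · rw [h0, mul_zero]
    · have h2 : l i = 1 := mul_right_cancel₀ h0 (by rw [h1, one_mul])
      rw [h2, Real.sqrt_one, one_mul]

theorem g5_diff {n : ℕ} {K : Set (E n)} {h : E n → ℝ} {X : E n → E n} (hG : Good K h X)
    {u : E n} (hu : u ≠ 0) : HasFDerivAt X (fderiv ℝ X u) u := by
  have h1 : ContDiffAt ℝ 1 X u :=
    hG.c1.contDiffAt (isOpen_compl_singleton.mem_nhds hu)
  exact (h1.differentiableAt one_ne_zero).hasFDerivAt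

theorem g5_Du {n : ℕ} {K : Set (E n)} {h : E n → ℝ} {X : E n → E n} (hG : Good K h X)
    {u : E n} (hu : u ≠ 0) : fderiv ℝ X u u = 0 := by
  have h1 : HasDerivAt (fun r : ℝ => X (r • u)) (fderiv ℝ X u u) 1 := by
    have h2 : HasDerivAt (fun r : ℝ => r • u) ((1:ℝ) • u) 1 := (hasDerivAt_id (1:ℝ)).smul_const u
    have h3 : HasFDerivAt X (fderiv ℝ X u) ((1:ℝ) • u) := by rw [one_smul]; exact g5_diff hG hu
    have h4 := h3.comp_hasDerivAt (1:ℝ) h2
    rwa [one_smul] at h4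
  have h2 : HasDerivAt (fun r : ℝ => X (r • u)) 0 1 := by
    refine (hasDerivAt_const (1:ℝ) (X u)).congr_of_eventuallyEq ?_
    filter_upwards [lt_mem_nhds (show (0:ℝ) < 1 by norm_num)] with r hr
    exact hG.homogX r u hr hu
  exact h1.unique h2

theorem g5_psd {n : ℕ} {K : Set (E n)} {h : E n → ℝ} {X : E n → E n} (hG : Good K h X)
    {u : E n} (hu : ‖u‖ = 1) (x : E n) : 0 ≤ ⟪fderiv ℝ X u x, x⟫ := by
  have hu0 : u ≠ 0 := by rintro rfl; simp at hu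
  have huu : ⟪u, u⟫ = 1 := by rw [real_inner_self_eq_norm_sq, hu]; norm_num
  set w := x - ⟪x, u⟫ • u with hw
  have hwu : ⟪w, u⟫ = 0 := by
    rw [hw, inner_sub_left, real_inner_smul_left, huu]; ring
  have hx : x = w + ⟪x, u⟫ • u := by rw [hw]; abel
  have h1 : fderiv ℝ X u x = fderiv ℝ X u w := by
    conv_lhs => rw [hx]
    rw [map_add, map_smul, g5_Du hG hu0, smul_zero, add_zero]
  have h2 : ⟪fderiv ℝ X u w, u⟫ = 0 := by
    rw [hG.symm u hu0, g5_Du hG hu0, inner_zero_right]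
  have h3 : ⟪fderiv ℝ X u x, x⟫ = ⟪fderiv ℝ X u w, w⟫ := by
    rw [h1]
    conv_lhs => rw [hx]
    rw [inner_add_right, real_inner_smul_right, h2, mul_zero, add_zero]
  rw [h3]
  by_cases hw0 : w = 0
  · rw [hw0]; simp
  · exact (hG.pos u hu0 w hw0 hwu).le

theorem g5_taylor {n : ℕ} {K : Set (E n)} {h : E n → ℝ} {X : E n → E n} (hG : Good K h X)
    {u : E n} (hu : ‖u‖ = 1) (δ : ℝ) (hδ : 0 < δ) :
    ∃ r : ℝ, 0 < r ∧ ∀ v, ‖v - u‖ < r →
      |h v - ⟪X u, v⟫ - (1 / 2) * ⟪fderiv ℝ X u (v - u), v - u⟫| ≤ δ * ‖v - u‖ ^ 2 := by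
  have hu0 : u ≠ 0 := by rintro rfl; simp at hu
  set D := fderiv ℝ X u with hD
  have hlo := (g5_diff hG hu0).isLittleO
  have hev := hlo.def hδ
  rw [Metric.eventually_nhds_iff] at hev
  obtain ⟨r, hr, hball⟩ := hev
  refine ⟨min r (1 / 2), lt_min hr (by norm_num), ?_⟩
  intro v hv
  have hvr : ‖v - u‖ < r := lt_of_lt_of_le hv (min_le_left _ _)
  have hvh : ‖v - u‖ < 1 / 2 := lt_of_lt_of_le hv (min_le_right _ _)
  set ψ : E n → ℝ := fun v => h v - ⟪X u, v⟫ - (1 / 2) * ⟪D (v - u), v - u⟫ with hψ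
  have hder : ∀ y ∈ closedBall u ‖v - u‖, HasFDerivWithinAt ψ (innerSL ℝ (X y - X u - D (y - u)))
      (closedBall u ‖v - u‖) y := by
    intro y hy
    rw [mem_closedBall, dist_eq_norm] at hy
    have hy0 : y ≠ 0 := by
      rintro rfl
      rw [zero_sub, norm_neg, hu] at hy
      linarith
    have e1 : HasFDerivAt h (innerSL ℝ (X y)) y := hG.grad y hy0
    have e2 : HasFDerivAt (fun v : E n => ⟪X u, v⟫) (innerSL ℝ (X u)) y :=
      (innerSL ℝ (X u)).hasFDerivAt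
    have e3 : HasFDerivAt (fun v : E n => v - u) (ContinuousLinearMap.id ℝ (E n)) y :=
      (hasFDerivAt_id y).sub_const u
    have e4 : HasFDerivAt (fun v : E n => D (v - u)) (D.comp (ContinuousLinearMap.id ℝ (E n))) y :=
      D.hasFDerivAt.comp y e3
    have e5 := e4.inner ℝ e3
    have e6 := (e1.sub e2).sub (e5.const_mul (1 / 2))
    refine (e6.congr_fderiv ?_).hasFDerivWithinAt
    ext w
    simp only [ContinuousLinearMap.sub_apply, ContinuousLinearMap.smul_apply,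
      ContinuousLinearMap.comp_apply, ContinuousLinearMap.prod_apply, fderivInnerCLM_apply,
      innerSL_apply_apply, ContinuousLinearMap.id_apply, smul_eq_mul, ContinuousLinearMap.coe_comp',
      Function.comp_apply]
    rw [inner_sub_left, inner_sub_left]
    have h7 : ⟪D w, y - u⟫ = ⟪D (y - u), w⟫ := by
      rw [hG.symm u hu0, real_inner_comm]
    rw [h7]
    ring
  have hbound : ∀ y ∈ closedBall u ‖v - u‖,
      ‖innerSL ℝ (X y - X u - D (y - u))‖ ≤ δ * ‖v - u‖ := by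
    intro y hy
    rw [mem_closedBall] at hy
    have h1 := hball (lt_of_le_of_lt hy hvr)
    rw [innerSL_apply_norm]
    rw [dist_eq_norm] at hy
    calc ‖X y - X u - D (y - u)‖ ≤ δ * ‖y - u‖ := h1
      _ ≤ δ * ‖v - u‖ := mul_le_mul_of_nonneg_left hy hδ.le
  have hmv := (convex_closedBall u ‖v - u‖).norm_image_sub_le_of_norm_hasFDerivWithin_le
    hder hbound (mem_closedBall_self (norm_nonneg _))
    (show v ∈ closedBall u ‖v - u‖ by rw [mem_closedBall, dist_eq_norm])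
  have hψu : ψ u = 0 := by
    simp only [hψ, sub_self, map_zero, inner_zero_left, mul_zero, sub_zero]
    rw [hG.eq u hu0, sub_self]
  rw [hψu, sub_zero, Real.norm_eq_abs] at hmv
  calc |h v - ⟪X u, v⟫ - (1 / 2) * ⟪D (v - u), v - u⟫| = |ψ v| := rfl
    _ ≤ δ * ‖v - u‖ * ‖v - u‖ := hmv
    _ = δ * ‖v - u‖ ^ 2 := by ring

theorem g5_quad {n : ℕ} (D : E n →L[ℝ] E n) (hD : ∀ x y, ⟪D x, y⟫ = ⟪x, D y⟫) (a η w : E n) (t : ℝ)
    (hη : D η = w) :
    ⟪D (a - t • η), a - t • η⟫ = ⟪D a, a⟫ - 2 * t * ⟪w, a⟫ + t ^ 2 * ⟪w, η⟫ := by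
  rw [map_sub, map_smul, hη, inner_sub_left, inner_sub_right, inner_sub_right,
    real_inner_smul_left, real_inner_smul_left, real_inner_smul_right,
    real_inner_smul_right, hD a η, hη, real_inner_comm w a]
  ring

theorem g5_out {n : ℕ} {K : Set (E n)} {h : E n → ℝ} {X : E n → E n} (hG : Good K h X)
    {u : E n} (hu : ‖u‖ = 1) (w η : E n) (s : ℝ) (hwu : ⟪w, u⟫ = 0) (hηu : ⟪η, u⟫ = 0)
    (hη : fderiv ℝ X u η = w) (hs : s < (1 / 2) * ⟪w, η⟫) :
    ∃ r : ℝ, 0 < r ∧ ∀ t : ℝ, 0 < t → t < r → X u + t • w - (t ^ 2 * s) • u ∉ K := by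
  have hu0 : u ≠ 0 := by rintro rfl; simp at hu
  have huu : ⟪u, u⟫ = 1 := by rw [real_inner_self_eq_norm_sq, hu]; norm_num
  set gap := (1 / 2) * ⟪w, η⟫ - s with hgap
  have hgap0 : 0 < gap := by linarith
  obtain ⟨r, hr, hT⟩ := g5_taylor hG hu (gap / (2 * (‖η‖ ^ 2 + 1))) (by positivity)
  refine ⟨r / (‖η‖ + 1), by positivity, ?_⟩
  intro t ht htr hmem
  have h1 := hG.le _ hmem (u + t • η)
  have h2 : ‖(u + t • η) - u‖ = t * ‖η‖ := by
    rw [add_sub_cancel_left, norm_smul, Real.norm_eq_abs, abs_of_pos ht]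
  have h3 : ‖(u + t • η) - u‖ < r := by
    rw [h2]
    have h4 : t * (‖η‖ + 1) < r := by
      rwa [lt_div_iff₀ (by positivity)] at htr
    nlinarith [norm_nonneg η]
  have h4 := hT _ h3
  rw [h2, add_sub_cancel_left] at h4
  have h5 : ⟪fderiv ℝ X u (t • η), t • η⟫ = t ^ 2 * ⟪w, η⟫ := by
    rw [map_smul, hη, real_inner_smul_left, real_inner_smul_right]; ring
  rw [h5] at h4
  have h6 := (abs_le.1 h4).2
  have h7 : ⟪X u + t • w - (t ^ 2 * s) • u, u + t • η⟫ =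
      ⟪X u, u + t • η⟫ + t ^ 2 * ⟪w, η⟫ - t ^ 2 * s := by
    rw [inner_sub_left, inner_add_left, real_inner_smul_left, real_inner_smul_left,
      inner_add_right w, inner_add_right u, real_inner_smul_right, real_inner_smul_right, hwu, huu,
      real_inner_comm η u, hηu]
    ring
  rw [h7] at h1
  have h8 : gap / (2 * (‖η‖ ^ 2 + 1)) * (t * ‖η‖) ^ 2 ≤ t ^ 2 * (gap / 2) := by
    have h9 : gap / (2 * (‖η‖ ^ 2 + 1)) * (t * ‖η‖) ^ 2 =
        t ^ 2 * (gap / 2) * (‖η‖ ^ 2 / (‖η‖ ^ 2 + 1)) := by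
      field_simp
    rw [h9]
    have h10 : ‖η‖ ^ 2 / (‖η‖ ^ 2 + 1) ≤ 1 := by
      rw [div_le_one (by positivity)]; linarith
    exact mul_le_of_le_one_right (by positivity) h10
  have h11 : 0 < t ^ 2 * (gap / 2) := by positivity
  have h12 : t ^ 2 * gap = t ^ 2 * ((1 / 2) * ⟪w, η⟫ - s) := by rw [hgap]
  nlinarith

theorem g5_in {n : ℕ} {K : Set (E n)} {h : E n → ℝ} {X : E n → E n} (hG : Good K h X)
    {u : E n} (hu : ‖u‖ = 1) (c : ℝ) (hc : 0 < c)
    (hc1 : ∀ v : E n, ‖v‖ = 1 → c * ‖u - v‖ ^ 2 ≤ h v - ⟪X u, v⟫)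
    (w η : E n) (s : ℝ) (hwu : ⟪w, u⟫ = 0)
    (hη : fderiv ℝ X u η = w) (hs : (1 / 2) * ⟪w, η⟫ < s) :
    ∃ r : ℝ, 0 < r ∧ ∀ t : ℝ, 0 < t → t < r → X u + t • w - (t ^ 2 * s) • u ∈ K := by
  have hu0 : u ≠ 0 := by rintro rfl; simp at hu
  have huu : ⟪u, u⟫ = 1 := by rw [real_inner_self_eq_norm_sq, hu]; norm_num
  set gap := s - (1 / 2) * ⟪w, η⟫ with hgap
  have hgap0 : 0 < gap := by linarith
  set M : ℝ := (‖w‖ + |s| + 1) / c + 1 with hM
  have hM1 : 1 ≤ M := by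
    have : 0 ≤ (‖w‖ + |s| + 1) / c := by positivity
    linarith
  have hMc : ‖w‖ + |s| ≤ c * M := by
    have : c * M = ‖w‖ + |s| + 1 + c := by rw [hM]; field_simp
    linarith
  obtain ⟨r, hr, hT⟩ := g5_taylor hG hu (gap / (4 * M ^ 2)) (by positivity)
  set r1 : ℝ := r / M with hr1
  set r2 : ℝ := √(gap / (|s| * M ^ 2 + 1)) with hr2
  have hr2pos : 0 < r2 := Real.sqrt_pos.2 (by positivity)
  refine ⟨min r1 r2, lt_min (by positivity) hr2pos, ?_⟩
  intro t ht htr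
  have ht1 : t < r1 := lt_of_lt_of_le htr (min_le_left _ _)
  have ht2 : t < r2 := lt_of_lt_of_le htr (min_le_right _ _)
  have htM : t * M < r := by rwa [hr1, lt_div_iff₀ (by positivity)] at ht1
  have ht2' : t ^ 2 * (|s| * M ^ 2) ≤ gap := by
    have h1 : t ^ 2 < r2 ^ 2 := by
      apply pow_lt_pow_left₀ ht2 ht.le (by norm_num)
    rw [hr2, Real.sq_sqrt (by positivity), lt_div_iff₀ (by positivity)] at h1
    nlinarith [sq_nonneg t]
  -- unit vectors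
  have key : ∀ v : E n, ‖v‖ = 1 → ⟪X u + t • w - (t ^ 2 * s) • u, v⟫ ≤ h v := by
    intro v hv
    set a := v - u with ha
    have hva : v = u + a := by rw [ha]; abel
    have huv : ⟪u, v⟫ = 1 - ‖a‖ ^ 2 / 2 := by
      have h1 : ‖a‖ ^ 2 = ‖v‖ ^ 2 - 2 * ⟪v, u⟫ + ‖u‖ ^ 2 := norm_sub_sq_real v u
      rw [hv, hu, real_inner_comm] at h1
      linarith
    have hwv : ⟪w, v⟫ = ⟪w, a⟫ := by rw [hva, inner_add_right, hwu, zero_add]
    have hexp : ⟪X u + t • w - (t ^ 2 * s) • u, v⟫ =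
        ⟪X u, v⟫ + t * ⟪w, a⟫ - t ^ 2 * s * (1 - ‖a‖ ^ 2 / 2) := by
      rw [inner_sub_left, inner_add_left, real_inner_smul_left, real_inner_smul_left, hwv, huv]
    rw [hexp]
    have hna : ‖u - v‖ = ‖a‖ := by rw [ha, norm_sub_rev]
    have ha2 : ‖a‖ ≤ 2 := by
      calc ‖a‖ ≤ ‖v‖ + ‖u‖ := norm_sub_le _ _
        _ = 2 := by rw [hv, hu]; norm_num
    have huv1 : |1 - ‖a‖ ^ 2 / 2| ≤ 1 := by
      rw [abs_le]; constructor <;> nlinarith [norm_nonneg a]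
    rcases le_total (M * t) ‖a‖ with hcase | hcase
    · -- far
      have h1 := hc1 v hv
      rw [hna] at h1
      have h2 : t * ⟪w, a⟫ ≤ t * (‖w‖ * ‖a‖) :=
        mul_le_mul_of_nonneg_left (real_inner_le_norm w a) ht.le
      have h3 : -(t ^ 2 * s * (1 - ‖a‖ ^ 2 / 2)) ≤ t ^ 2 * |s| := by
        have h4 : |t ^ 2 * s * (1 - ‖a‖ ^ 2 / 2)| ≤ t ^ 2 * |s| := by
          rw [abs_mul, abs_mul, abs_of_nonneg (sq_nonneg t)]
          exact mul_le_of_le_one_right (by positivity) huv1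
        exact (neg_le_abs _).trans h4
      have hta : t ≤ ‖a‖ := by nlinarith
      have h5 : t * (‖w‖ * ‖a‖) + t ^ 2 * |s| ≤ (‖w‖ + |s|) * (t * ‖a‖) := by
        have h6 : t ^ 2 * |s| ≤ |s| * (t * ‖a‖) := by
          have : t * t ≤ t * ‖a‖ := mul_le_mul_of_nonneg_left hta ht.le
          nlinarith [abs_nonneg s]
        nlinarith
      have h7 : (‖w‖ + |s|) * (t * ‖a‖) ≤ c * M * (t * ‖a‖) :=
        mul_le_mul_of_nonneg_right hMc (by positivity)
      have h8 : c * M * (t * ‖a‖) ≤ c * ‖a‖ ^ 2 := by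
        have : (M * t) * ‖a‖ ≤ ‖a‖ * ‖a‖ := mul_le_mul_of_nonneg_right hcase (norm_nonneg a)
        nlinarith
      linarith
    · -- near
      have hav : ‖v - u‖ < r := by
        calc ‖v - u‖ ≤ M * t := hcase
          _ < r := by linarith
      have h1 := (abs_le.1 (hT v hav)).1
      have h2 : 0 ≤ ⟪fderiv ℝ X u (a - t • η), a - t • η⟫ := g5_psd hG hu _
      have h3 : ⟪fderiv ℝ X u (a - t • η), a - t • η⟫ =
          ⟪fderiv ℝ X u a, a⟫ - 2 * t * ⟪w, a⟫ + t ^ 2 * ⟪w, η⟫ := by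
        exact g5_quad (fderiv ℝ X u) (hG.symm u hu0) a η w t hη
      rw [h3] at h2
      have hsq : ‖a‖ ^ 2 ≤ M ^ 2 * t ^ 2 := by
        calc ‖a‖ ^ 2 ≤ (M * t) ^ 2 := pow_le_pow_left₀ (norm_nonneg a) hcase 2
          _ = M ^ 2 * t ^ 2 := by ring
      have h4 : gap / (4 * M ^ 2) * ‖v - u‖ ^ 2 ≤ gap / 4 * t ^ 2 := by
        have : gap / (4 * M ^ 2) * (M ^ 2 * t ^ 2) = gap / 4 * t ^ 2 := by
          field_simp
        rw [← this]
        exact mul_le_mul_of_nonneg_left hsq (by positivity)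
      have h5 : t ^ 2 * s * (‖a‖ ^ 2 / 2) ≤ t ^ 2 * (gap / 2) := by
        have h6 : s * ‖a‖ ^ 2 ≤ |s| * (M ^ 2 * t ^ 2) :=
          (mul_le_mul_of_nonneg_right (le_abs_self s) (sq_nonneg _)).trans
            (mul_le_mul_of_nonneg_left hsq (abs_nonneg s))
        have h7 : s * ‖a‖ ^ 2 ≤ gap := by
          calc s * ‖a‖ ^ 2 ≤ |s| * (M ^ 2 * t ^ 2) := h6
            _ = t ^ 2 * (|s| * M ^ 2) := by ring
            _ ≤ gap := ht2'
        nlinarith [sq_nonneg t]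
      have h8 : t ^ 2 * gap = t ^ 2 * s - t ^ 2 * ((1 / 2) * ⟪w, η⟫) := by rw [hgap]; ring
      have h9 : 0 < t ^ 2 * gap := by positivity
      have h1' : -(gap / (4 * M ^ 2) * ‖v - u‖ ^ 2) ≤
        h v - ⟪X u, v⟫ - 1 / 2 * ⟪fderiv ℝ X u a, a⟫ := h1
      nlinarith
  apply hG.charac
  intro v
  by_cases hv0 : v = 0
  · subst hv0
    rw [inner_zero_right]
    have := hG.homog 0 (0 : E n) le_rfl
    rw [zero_smul, zero_mul] at this
    rw [this]
  · have hvn : 0 < ‖v‖ := norm_pos_iff.2 hv0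
    have h1 := key (‖v‖⁻¹ • v) (by rw [norm_smul, norm_inv, norm_norm, inv_mul_cancel₀ hvn.ne'])
    rw [real_inner_smul_right, hG.homog _ _ (by positivity)] at h1
    exact le_of_mul_le_mul_left h1 (by positivity)

theorem g5_bdd {n : ℕ} {K : Set (E n)} {h : E n → ℝ} {X : E n → E n} (hG : Good K h X)
    {u : E n} (hu : ‖u‖ = 1) :
    ∃ C r : ℝ, 0 < r ∧ ∀ t : ℝ, 0 < t → t < r → ∀ (w : E n) (s : ℝ), ⟪w, u⟫ = 0 → s ≤ 1 →
      X u + t • w - (t ^ 2 * s) • u ∈ K → ‖w‖ ≤ C ∧ 0 ≤ s := by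
  have hu0 : u ≠ 0 := by rintro rfl; simp at hu
  have huu : ⟪u, u⟫ = 1 := by rw [real_inner_self_eq_norm_sq, hu]; norm_num
  obtain ⟨r, hr, hT⟩ := g5_taylor hG hu 1 one_pos
  refine ⟨2 + ‖fderiv ℝ X u‖, r, hr, ?_⟩
  intro t ht htr w s hwu hs hmem
  have hs0 : 0 ≤ s := by
    have h1 := hG.le _ hmem u
    rw [inner_sub_left, inner_add_left, real_inner_smul_left, real_inner_smul_left, hwu, huu,
      hG.eq u hu0] at h1
    have h2 : 0 ≤ t ^ 2 * s := by linarith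
    exact nonneg_of_mul_nonneg_right h2 (by positivity)
  refine ⟨?_, hs0⟩
  by_cases hw : w = 0
  · rw [hw, norm_zero]; positivity
  have hwn : 0 < ‖w‖ := norm_pos_iff.2 hw
  set θ : E n := ‖w‖⁻¹ • w with hθ
  have hθn : ‖θ‖ = 1 := by rw [hθ, norm_smul, norm_inv, norm_norm, inv_mul_cancel₀ hwn.ne']
  have hθu : ⟪θ, u⟫ = 0 := by rw [hθ, real_inner_smul_left, hwu, mul_zero]
  have hwθ : ⟪w, θ⟫ = ‖w‖ := by
    rw [hθ, real_inner_smul_right, real_inner_self_eq_norm_sq]; field_simp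
  clear_value θ
  have h1 := hG.le _ hmem (u + t • θ)
  have h2 : ‖(u + t • θ) - u‖ = t := by
    rw [add_sub_cancel_left, norm_smul, Real.norm_eq_abs, abs_of_pos ht, hθn, mul_one]
  have h4 := (abs_le.1 (hT (u + t • θ) (by rw [h2]; exact htr))).2
  rw [h2, add_sub_cancel_left] at h4
  have h5 : ⟪fderiv ℝ X u (t • θ), t • θ⟫ = t ^ 2 * ⟪fderiv ℝ X u θ, θ⟫ := by
    rw [map_smul, real_inner_smul_left, real_inner_smul_right]; ring
  have h5b : ⟪fderiv ℝ X u θ, θ⟫ ≤ ‖fderiv ℝ X u‖ := by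
    calc ⟪fderiv ℝ X u θ, θ⟫ ≤ ‖fderiv ℝ X u θ‖ * ‖θ‖ := real_inner_le_norm _ _
      _ ≤ ‖fderiv ℝ X u‖ * ‖θ‖ * ‖θ‖ :=
        mul_le_mul_of_nonneg_right ((fderiv ℝ X u).le_opNorm θ) (norm_nonneg _)
      _ = ‖fderiv ℝ X u‖ := by rw [hθn]; ring
  rw [h5] at h4
  have h7 : ⟪X u + t • w - (t ^ 2 * s) • u, u + t • θ⟫ =
      ⟪X u, u + t • θ⟫ + t ^ 2 * ‖w‖ - t ^ 2 * s := by
    rw [inner_sub_left, inner_add_left, real_inner_smul_left, real_inner_smul_left,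
      inner_add_right w, inner_add_right u, real_inner_smul_right, real_inner_smul_right, hwu, huu,
      real_inner_comm θ u, hθu, hwθ]
    ring
  rw [h7] at h1
  have ht2 : 0 < t ^ 2 := by positivity
  have h8 : t ^ 2 * ‖w‖ ≤ t ^ 2 * (2 + ‖fderiv ℝ X u‖) := by
    have h9 : t ^ 2 * s ≤ t ^ 2 * 1 := mul_le_mul_of_nonneg_left hs ht2.le
    have h10 : t ^ 2 * ⟪fderiv ℝ X u θ, θ⟫ ≤ t ^ 2 * ‖fderiv ℝ X u‖ :=
      mul_le_mul_of_nonneg_left h5b ht2.le
    have h11 : 0 ≤ t ^ 2 * ‖fderiv ℝ X u‖ := by positivity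
    linarith
  exact le_of_mul_le_mul_left h8 ht2

theorem g5_detL {n : ℕ} {u : E n} (hu : ‖u‖ = 1) (t : ℝ) :
    ∃ L : E n →ₗ[ℝ] E n, (∀ y, L y = t • (y - ⟪y, u⟫ • u) - (t ^ 2 * ⟪y, u⟫) • u) ∧
      LinearMap.det L = -(t ^ (n + 1)) := by
  have huu : ⟪u, u⟫ = 1 := by rw [real_inner_self_eq_norm_sq, hu]; norm_num
  refine ⟨t • LinearMap.transvection (innerSL ℝ u).toLinearMap (-((1 + t) • u)), ?_, ?_⟩
  · intro y
    rw [LinearMap.smul_apply, LinearMap.transvection.apply]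
    have h1 : (innerSL ℝ u).toLinearMap y = ⟪y, u⟫ := by
      rw [real_inner_comm]; rfl
    rw [h1]
    module
  · rw [LinearMap.det_smul, LinearMap.transvection.det]
    have h1 : (innerSL ℝ u).toLinearMap (-((1 + t) • u)) = -(1 + t) := by
      change ⟪u, -((1 + t) • u)⟫ = -(1 + t)
      rw [inner_neg_right, real_inner_smul_right, huu, mul_one]
    rw [h1]
    have h2 : Module.finrank ℝ (E n) = n := by simp
    rw [h2]
    ring

theorem g5_scale {n : ℕ} {K : Set (E n)} {h : E n → ℝ} {X : E n → E n} (hG : Good K h X)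
    {u : E n} (hu : ‖u‖ = 1) (ε : ℝ) (hε : 0 < ε) :
    (volume : Measure (E n)).real {x | x ∈ K ∧ h u - ε ≤ ⟪x, u⟫} / ε ^ kap n =
      (volume : Measure (E n)).real {y | X u + √ε • (y - ⟪y, u⟫ • u) - (ε * ⟪y, u⟫) • u ∈ K ∧
        ⟪y, u⟫ ≤ 1} := by
  have hu0 : u ≠ 0 := by rintro rfl; simp at hu
  have huu : ⟪u, u⟫ = 1 := by rw [real_inner_self_eq_norm_sq, hu]; norm_num
  obtain ⟨L, hL, hdet⟩ := g5_detL hu (√ε)
  have hsε : 0 < √ε := Real.sqrt_pos.2 hε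
  have hs2 : √ε ^ 2 = ε := Real.sq_sqrt hε.le
  rw [hs2] at hL
  have hset : {y : E n | X u + √ε • (y - ⟪y, u⟫ • u) - (ε * ⟪y, u⟫) • u ∈ K ∧ ⟪y, u⟫ ≤ 1} =
      L ⁻¹' ((fun z => X u + z) ⁻¹' {x | x ∈ K ∧ h u - ε ≤ ⟪x, u⟫}) := by
    ext y
    have h1 : X u + L y = X u + √ε • (y - ⟪y, u⟫ • u) - (ε * ⟪y, u⟫) • u := by
      rw [hL, add_sub_assoc]
    have h2 : ⟪X u + L y, u⟫ = h u - ε * ⟪y, u⟫ := by
      rw [h1, inner_sub_left, inner_add_left, real_inner_smul_left, real_inner_smul_left,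
        inner_sub_left, real_inner_smul_left, huu, hG.eq u hu0]
      ring
    change _ ↔ (X u + L y ∈ K ∧ h u - ε ≤ ⟪X u + L y, u⟫)
    rw [h2, h1]
    refine and_congr_right fun _ => ?_
    constructor
    · intro h3; nlinarith
    · intro h3
      have h4 : ε * ⟪y, u⟫ ≤ ε * 1 := by linarith
      exact le_of_mul_le_mul_left h4 hε
  have hdet0 : LinearMap.det L ≠ 0 := by
    rw [hdet, neg_ne_zero]; positivity
  rw [hset, measureReal_def, measureReal_def, Measure.addHaar_preimage_linearMap volume hdet0,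
    measure_preimage_add, ENNReal.toReal_mul, ENNReal.toReal_ofReal (abs_nonneg _), hdet]
  have h5 : |(-(√ε ^ (n + 1)))⁻¹| = (ε ^ kap n)⁻¹ := by
    rw [abs_inv, abs_neg, abs_of_pos (by positivity)]
    congr 1
    rw [Real.sqrt_eq_rpow, ← Real.rpow_natCast, ← Real.rpow_mul hε.le, kap]
    congr 1
    push_cast
    ring
  rw [h5, div_eq_inv_mul]

theorem g5_null {n : ℕ} (R' : E n →ₗ[ℝ] E n) {u : E n} (hu : ‖u‖ = 1) (hR : R' u = u) :
    (volume : Measure (E n)) {y | ‖R' y - ⟪R' y, u⟫ • u‖ ^ 2 / 2 = ⟪R' y, u⟫} = 0 := by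
  have huu : ⟪u, u⟫ = 1 := by rw [real_inner_self_eq_norm_sq, hu]; norm_num
  have hRc : Continuous R' := R'.continuous_of_finiteDimensional
  apply Measure.addHaar_eq_zero_of_disjoint_translates volume
    (fun k : ℕ => ((k : ℝ) + 1)⁻¹ • u)
  · rw [isBounded_iff_forall_norm_le]
    refine ⟨1, ?_⟩
    rintro _ ⟨k, rfl⟩
    change ‖((k : ℝ) + 1)⁻¹ • u‖ ≤ 1
    rw [norm_smul, hu, mul_one, Real.norm_eq_abs, abs_of_pos (by positivity)]
    apply inv_le_one_of_one_le₀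
    have : (0 : ℝ) ≤ k := Nat.cast_nonneg k
    linarith
  · intro k m hkm
    change Disjoint ({((k : ℝ) + 1)⁻¹ • u} + _) ({((m : ℝ) + 1)⁻¹ • u} + _)
    rw [Set.disjoint_left]
    intro y hy hy'
    rw [Set.singleton_add] at hy hy'
    obtain ⟨p, hp, rfl⟩ := hy
    obtain ⟨q, hq, hpq⟩ := hy'
    change ‖R' p - ⟪R' p, u⟫ • u‖ ^ 2 / 2 = ⟪R' p, u⟫ at hp
    change ‖R' q - ⟪R' q, u⟫ • u‖ ^ 2 / 2 = ⟪R' q, u⟫ at hq
    have hqe : q = p + (((k : ℝ) + 1)⁻¹ - ((m : ℝ) + 1)⁻¹) • u := by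
      have h1 : ((m : ℝ) + 1)⁻¹ • u + q = ((k : ℝ) + 1)⁻¹ • u + p := hpq
      rw [sub_smul]
      calc q = (((m : ℝ) + 1)⁻¹ • u + q) - ((m : ℝ) + 1)⁻¹ • u := by abel
        _ = (((k : ℝ) + 1)⁻¹ • u + p) - ((m : ℝ) + 1)⁻¹ • u := by rw [h1]
        _ = _ := by abel
    set c := ((k : ℝ) + 1)⁻¹ - ((m : ℝ) + 1)⁻¹ with hc
    have h2 : R' q = R' p + c • u := by rw [hqe, map_add, map_smul, hR]
    have h3 : ⟪R' q, u⟫ = ⟪R' p, u⟫ + c := by
      rw [h2, inner_add_left, real_inner_smul_left, huu, mul_one]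
    have h4 : R' q - ⟪R' q, u⟫ • u = R' p - ⟪R' p, u⟫ • u := by
      rw [h3, h2, add_smul]; abel
    rw [h4, h3, hp] at hq
    have hc0 : c = 0 := by linarith
    rw [hc, sub_eq_zero, inv_inj] at hc0
    apply hkm
    have : (k : ℝ) = m := by linarith
    exact_mod_cast this
  · apply IsClosed.measurableSet
    apply isClosed_eq
    · fun_prop
    · fun_prop

theorem stG5 (h1 : StmtG1) (h3 : StmtG3) (h5a : StmtG5a) : StmtG5 := by
  intro n hn K h X hG u hu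
  have hu0 : u ≠ 0 := by rintro rfl; simp at hu
  have huu : ⟪u, u⟫ = 1 := by rw [real_inner_self_eq_norm_sq, hu]; norm_num
  obtain ⟨c, C, hc, hcC⟩ := h1 n hn K h X hG
  -- the operator
  set B : E n →ₗ[ℝ] E n := (BB X u).toLinearMap with hB
  have hBapp : ∀ x, B x = fderiv ℝ X u x + ⟪u, x⟫ • u := by
    intro x
    change (BB X u) x = _
    simp [BB, hu]
  have hBsym : ∀ x y, ⟪B x, y⟫ = ⟪x, B y⟫ := by
    intro x y
    rw [hBapp, hBapp, inner_add_left, inner_add_right, hG.symm u hu0, real_inner_smul_left,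
      real_inner_smul_right, real_inner_comm u x]
    ring
  have hBu : B u = u := by rw [hBapp, g5_Du hG hu0, huu, zero_add, one_smul]
  have hBpos : ∀ x, x ≠ 0 → 0 < ⟪B x, x⟫ := by
    intro x hx
    rw [hBapp, inner_add_left, real_inner_smul_left]
    by_cases h0 : ⟪u, x⟫ = 0
    · rw [h0, zero_mul, add_zero]
      exact hG.pos u hu0 x hx (by rw [real_inner_comm]; exact h0)
    · have h2 := g5_psd hG hu x
      have h4 : 0 < ⟪u, x⟫ * ⟪u, x⟫ := mul_self_pos.2 h0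
      linarith
  obtain ⟨R, R', hRR', hR'R, hRR, hRsym, hRu⟩ := g5_exists_sqrt B hBsym hBpos u hBu
  have hR'u : R' u = u := by
    conv_lhs => rw [← hRu]
    rw [hR'R]
  have hR'sym : ∀ x y, ⟪R' x, y⟫ = ⟪x, R' y⟫ := by
    intro x y
    conv_lhs => rw [← hRR' y]
    rw [← hRsym, hRR']
  have hR'uu : ∀ y, ⟪R' y, u⟫ = ⟪y, u⟫ := fun y => by rw [hR'sym, hR'u]
  -- the model
  set S0 : Set (E n) := {y | ‖R' y - ⟪R' y, u⟫ • u‖ ^ 2 / 2 ≤ ⟪R' y, u⟫ ∧ ⟪R' y, u⟫ ≤ 1} with hS0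
  have hR'c : Continuous R' := R'.continuous_of_finiteDimensional
  have hS0vol : (volume : Measure (E n)).real S0 =
      cc n * √(curv X u) / Real.Gamma (kap n + 1) := by
    have hS0im : S0 = R '' {z | ‖z - ⟪z, u⟫ • u‖ ^ 2 / 2 ≤ ⟪z, u⟫ ∧ ⟪z, u⟫ ≤ 1} := by
      ext y
      constructor
      · intro hy
        exact ⟨R' y, hy, hRR' y⟩
      · rintro ⟨z, hz, rfl⟩
        change ‖R' (R z) - ⟪R' (R z), u⟫ • u‖ ^ 2 / 2 ≤ ⟪R' (R z), u⟫ ∧ ⟪R' (R z), u⟫ ≤ 1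
        rw [hR'R]
        exact hz
    have hdet : |LinearMap.det R| = √(curv X u) := by
      have h2 : LinearMap.det R * LinearMap.det R = curv X u := by
        rw [← LinearMap.det_comp]
        have : R ∘ₗ R = B := LinearMap.ext hRR
        rw [this]
        rfl
      rw [← h2, Real.sqrt_mul_self_eq_abs]
    rw [hS0im, measureReal_def, Measure.addHaar_image_linearMap, ENNReal.toReal_mul,
      ENNReal.toReal_ofReal (abs_nonneg _), ← measureReal_def, h5a n hn u hu, hdet]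
    ring
  -- the rescaled caps
  set S : ℝ → Set (E n) := fun ε =>
    {y | X u + √ε • (y - ⟪y, u⟫ • u) - (ε * ⟪y, u⟫) • u ∈ K ∧ ⟪y, u⟫ ≤ 1} with hS
  have hSm : ∀ ε, MeasurableSet (S ε) := by
    intro ε
    apply IsClosed.measurableSet
    have hc1 : Continuous (fun y : E n => X u + √ε • (y - ⟪y, u⟫ • u) - (ε * ⟪y, u⟫) • u) := by
      fun_prop
    have hc2 : Continuous (fun y : E n => ⟪y, u⟫) := by fun_prop
    exact (hG.compact.isClosed.preimage hc1).inter (isClosed_le hc2 continuous_const)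
  have hS0m : MeasurableSet S0 := by
    apply IsClosed.measurableSet
    have hc1 : Continuous (fun y : E n => ‖R' y - ⟪R' y, u⟫ • u‖ ^ 2 / 2) := by fun_prop
    have hc2 : Continuous (fun y : E n => ⟪R' y, u⟫) := by fun_prop
    exact (isClosed_le hc1 hc2).inter (isClosed_le hc2 continuous_const)
  obtain ⟨C', r, hr, hbdd⟩ := g5_bdd hG hu
  have hsqrt : Tendsto (fun ε : ℝ => √ε) (𝓝[>] 0) (𝓝[>] 0) := by
    apply tendsto_nhdsWithin_iff.2
    refine ⟨?_, ?_⟩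
    · have h2 : Tendsto (fun ε : ℝ => √ε) (𝓝 0) (𝓝 (√0)) := Real.continuous_sqrt.tendsto 0
      rw [Real.sqrt_zero] at h2
      exact h2.mono_left nhdsWithin_le_nhds
    · filter_upwards [self_mem_nhdsWithin] with ε hε
      exact Real.sqrt_pos.2 hε
  have hlt : ∀ r : ℝ, 0 < r → ∀ᶠ ε : ℝ in 𝓝[>] 0, 0 < ε ∧ √ε < r := by
    intro r hr
    have h2 : ∀ᶠ t : ℝ in 𝓝[>] 0, t < r :=
      nhdsWithin_le_nhds (Iio_mem_nhds hr)
    filter_upwards [hsqrt.eventually h2, self_mem_nhdsWithin] with ε h4 h5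
    exact ⟨h5, h4⟩
  have hSsub : ∀ᶠ ε : ℝ in 𝓝[>] 0, S ε ⊆ closedBall 0 (C' + 1) := by
    filter_upwards [hlt r hr] with ε hε
    intro y hy
    obtain ⟨hy1, hy2⟩ := hy
    have h2 : ⟪y - ⟪y, u⟫ • u, u⟫ = 0 := by
      rw [inner_sub_left, real_inner_smul_left, huu]; ring
    have h4 := hbdd (√ε) (Real.sqrt_pos.2 hε.1) hε.2 (y - ⟪y, u⟫ • u) ⟪y, u⟫ h2 hy2
      (by rw [Real.sq_sqrt hε.1.le]; exact hy1)
    rw [mem_closedBall_zero_iff]
    calc ‖y‖ = ‖(y - ⟪y, u⟫ • u) + ⟪y, u⟫ • u‖ := by rw [sub_add_cancel]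
      _ ≤ ‖y - ⟪y, u⟫ • u‖ + ‖⟪y, u⟫ • u‖ := norm_add_le _ _
      _ ≤ C' + 1 := by
        apply add_le_add h4.1
        rw [norm_smul, hu, mul_one, Real.norm_eq_abs, abs_of_nonneg h4.2]
        exact hy2
  have hlim : ∀ᵐ y ∂(volume : Measure (E n)), ∀ᶠ ε in 𝓝[>] (0 : ℝ), y ∈ S ε ↔ y ∈ S0 := by
    have hnull := g5_null R' hu hR'u
    rw [← compl_mem_ae_iff] at hnull
    filter_upwards [hnull] with y hy
    set s := ⟪y, u⟫ with hs
    set w := y - s • u with hw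
    have hwu : ⟪w, u⟫ = 0 := by
      rw [hw, inner_sub_left, real_inner_smul_left, huu]; ring
    set η := R' (R' w) with hη
    have hηu : ⟪η, u⟫ = 0 := by rw [hη, hR'uu, hR'uu, hwu]
    have hBη : B η = w := by rw [← hRR, hη, hRR', hRR']
    have hDη : fderiv ℝ X u η = w := by
      rw [hBapp, real_inner_comm, hηu, zero_smul, add_zero] at hBη
      exact hBη
    have hQ : ‖R' y - ⟪R' y, u⟫ • u‖ ^ 2 / 2 = (1 / 2) * ⟪w, η⟫ := by
      have h2 : R' y - ⟪R' y, u⟫ • u = R' w := by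
        rw [hw, map_sub, map_smul, hR'u, hR'uu]
      have h4 : ⟪R' w, R' w⟫ = ⟪w, η⟫ := hR'sym w (R' w)
      rw [h2, ← real_inner_self_eq_norm_sq, h4]
      ring
    have hne : ¬ (‖R' y - ⟪R' y, u⟫ • u‖ ^ 2 / 2 = ⟪R' y, u⟫) := hy
    have hS0iff : y ∈ S0 ↔ ((1 / 2) * ⟪w, η⟫ ≤ s ∧ s ≤ 1) := by
      change (‖R' y - ⟪R' y, u⟫ • u‖ ^ 2 / 2 ≤ ⟪R' y, u⟫ ∧ ⟪R' y, u⟫ ≤ 1) ↔ _
      rw [hQ, hR'uu]
    rw [hQ, hR'uu] at hne
    rcases lt_or_gt_of_ne hne with hlt1 | hgt1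
    · obtain ⟨r1, hr1, hin⟩ := g5_in hG hu c hc (fun v hv => (hcC u v hu hv).1) w η s hwu hDη hlt1
      filter_upwards [hlt r1 hr1] with ε hε
      rw [hS0iff]
      constructor
      · intro hyS
        exact ⟨hlt1.le, hyS.2⟩
      · intro hyS
        refine ⟨?_, hyS.2⟩
        have h2 := hin (√ε) (Real.sqrt_pos.2 hε.1) hε.2
        rw [Real.sq_sqrt hε.1.le] at h2
        exact h2
    · obtain ⟨r1, hr1, hout⟩ := g5_out hG hu w η s hwu hηu hDη hgt1
      filter_upwards [hlt r1 hr1] with ε hε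
      rw [hS0iff]
      constructor
      · intro hyS
        have h2 := hout (√ε) (Real.sqrt_pos.2 hε.1) hε.2
        rw [Real.sq_sqrt hε.1.le] at h2
        exact absurd hyS.1 h2
      · intro hyS
        exact absurd hyS.1 (not_le.2 hgt1)
  have hfin : (volume : Measure (E n)) (closedBall 0 (C' + 1)) ≠ ⊤ :=
    (isCompact_closedBall _ _).measure_lt_top.ne
  have hmeas := tendsto_measure_of_ae_tendsto_indicator (𝓝[>] (0 : ℝ)) hS0m hSm
    isClosed_closedBall.measurableSet hfin hSsub hlim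
  have hS0fin : (volume : Measure (E n)) S0 ≠ ⊤ := by
    have h2 : (volume : Measure (E n)) S0 ≤ (volume : Measure (E n)) (closedBall 0 (C' + 1)) := by
      apply le_of_tendsto hmeas
      filter_upwards [hSsub] with ε hε
      exact measure_mono hε
    exact (lt_of_le_of_lt h2 (lt_top_iff_ne_top.2 hfin)).ne
  have hreal := (ENNReal.tendsto_toReal hS0fin).comp hmeas
  rw [← hS0vol]
  refine hreal.congr' ?_
  filter_upwards [self_mem_nhdsWithin] with ε hε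
  exact (g5_scale hG hu ε hε).symm

end Pool.Agent.Helper890.Cov.JG5
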