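import Mathlib
import Pool.Agent.Helper890.Cov.StG




namespace Pool.Agent.Helper890.Cov.JG6
open MeasureTheory Set Filter Topology Metric
open scoped RealInnerProductSpace

section g6
variable {n : ℕ} {K : Set (E n)} {h : E n → ℝ} {X : E n → E n}

theorem g6_diff (G : Good K h X) {u : E n} (hu : u ≠ 0) : DifferentiableAt ℝ X u :=
  (G.c1.differentiableOn (by norm_num)).differentiableAt (isOpen_compl_singleton.mem_nhds hu)

theorem g6_self (G : Good K h X) {u : E n} (hu : u ≠ 0) : fderiv ℝ X u u = 0 := by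
  have hd : HasDerivAt (fun r : ℝ => X (u + r • u)) (fderiv ℝ X u u) 0 := by
    have h1 : HasFDerivAt X (fderiv ℝ X u) (u + (0 : ℝ) • u) := by
      simpa using (g6_diff G hu).hasFDerivAt
    have h2 : HasDerivAt (fun r : ℝ => u + r • u) u 0 := by
      simpa using ((hasDerivAt_id (0 : ℝ)).smul_const u).const_add u
    exact h1.comp_hasDerivAt 0 h2
  have hc : HasDerivAt (fun r : ℝ => X (u + r • u)) 0 0 := by
    refine (hasDerivAt_const (0 : ℝ) (X u)).congr_of_eventuallyEq ?_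
    have : ∀ᶠ r : ℝ in 𝓝 0, -1 < r := lt_mem_nhds (by norm_num)
    filter_upwards [this] with r hr
    have e : u + r • u = (1 + r) • u := by rw [add_smul, one_smul]
    show X (u + r • u) = X u
    rw [e, G.homogX (1 + r) u (by linarith) hu]
  exact hd.unique hc

theorem g6_orth (G : Good K h X) {u : E n} (hu : u ≠ 0) (w : E n) :
    ⟪u, fderiv ℝ X u w⟫ = 0 := by
  rw [real_inner_comm, G.symm u hu w u, g6_self G hu, inner_zero_right]

theorem g6_det (f : E n →L[ℝ] ℝ) (w : E n) :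
    (ContinuousLinearMap.id ℝ (E n) + f.smulRight w).det = 1 + f w := by
  have h := LinearMap.transvection.det (f : E n →ₗ[ℝ] ℝ) w
  rw [show ((f : E n →ₗ[ℝ] ℝ) w) = f w from rfl] at h
  rw [← h]
  congr 1

theorem g6_norm {u : E n} (hu : u ≠ 0) :
    HasFDerivAt (fun x : E n => ‖x‖) (‖u‖⁻¹ • innerSL ℝ u) u := by
  have hn : ‖u‖ ≠ 0 := norm_ne_zero_iff.2 hu
  have h1 := (hasStrictFDerivAt_norm_sq u).hasFDerivAt.sqrt (by positivity)
  have h2 : (fun y : E n => √(‖y‖ ^ 2)) = fun y => ‖y‖ := by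
    funext y; exact Real.sqrt_sq (norm_nonneg y)
  rw [h2] at h1
  refine h1.congr_fderiv ?_
  rw [Real.sqrt_sq (norm_nonneg u)]
  ext1 w
  simp only [ContinuousLinearMap.smul_apply, innerSL_apply_apply, smul_eq_mul, nsmul_eq_mul]
  push_cast
  field_simp

/-- the derivative of the parametrisation -/
noncomputable def DP (X : E n → E n) (u : E n) : E n →L[ℝ] E n :=
  ‖u‖ • fderiv ℝ X u + (‖u‖⁻¹ • innerSL ℝ u).smulRight (X u)

theorem g6_deriv (G : Good K h X) {u : E n} (hu : u ≠ 0) :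
    HasFDerivAt (fun x : E n => ‖x‖ • X x) (DP X u) u :=
  (g6_norm hu).smul (g6_diff G hu).hasFDerivAt

theorem g6_comp (G : Good K h X) {u : E n} (hu : u ≠ 0) :
    DP X u = (ContinuousLinearMap.id ℝ (E n) +
      (‖u‖⁻¹ • innerSL ℝ u).smulRight (X u - ‖u‖⁻¹ • u)).comp (BB X u) := by
  have hn : ‖u‖ ≠ 0 := norm_ne_zero_iff.2 hu
  ext1 w
  simp only [DP, BB, ContinuousLinearMap.comp_apply, ContinuousLinearMap.add_apply,
    ContinuousLinearMap.smul_apply, ContinuousLinearMap.smulRight_apply, innerSL_apply_apply,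
    ContinuousLinearMap.id_apply, smul_eq_mul, inner_add_right, inner_smul_right,
    g6_orth G hu w, real_inner_self_eq_norm_sq]
  have e : ‖u‖⁻¹ * (‖u‖ * 0 + (‖u‖ ^ 2)⁻¹ * (⟪u, w⟫ * ‖u‖ ^ 2)) = ‖u‖⁻¹ * ⟪u, w⟫ := by
    field_simp
    ring
  rw [e, smul_sub, smul_smul, smul_smul]
  have e2 : ‖u‖⁻¹ * ⟪u, w⟫ * ‖u‖⁻¹ = (‖u‖ ^ 2)⁻¹ * ⟪u, w⟫ := by
    field_simp
  rw [e2]
  abel

theorem g6_detDP (G : Good K h X) {u : E n} (hu : u ≠ 0) :
    (DP X u).det = h u / ‖u‖ * curv X u := by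
  have hn : ‖u‖ ≠ 0 := norm_ne_zero_iff.2 hu
  rw [g6_comp G hu]
  have : ((ContinuousLinearMap.id ℝ (E n) +
      (‖u‖⁻¹ • innerSL ℝ u).smulRight (X u - ‖u‖⁻¹ • u)).comp (BB X u)).det =
      (ContinuousLinearMap.id ℝ (E n) +
      (‖u‖⁻¹ • innerSL ℝ u).smulRight (X u - ‖u‖⁻¹ • u)).det * (BB X u).det :=
    LinearMap.det_comp _ _
  rw [this, g6_det, curv]
  congr 1
  simp only [ContinuousLinearMap.smul_apply, innerSL_apply_apply, smul_eq_mul, inner_sub_right,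
    inner_smul_right, real_inner_self_eq_norm_sq]
  rw [real_inner_comm, G.eq u hu]
  field_simp
  ring

theorem g6_inj (h1 : StmtG1) (h3 : StmtG3) (hn : 2 ≤ n) (G : Good K h X) :
    InjOn (fun x : E n => ‖x‖ • X x) {0}ᶜ := by
  obtain ⟨c, C, hc, hb⟩ := h1 n hn K h X G
  have hpos := (h3 n hn K h X G).2.2.2.2.2
  have key : ∀ a b : E n, a ≠ 0 → b ≠ 0 → ‖a‖ • X a = ‖b‖ • X b → ‖a‖ ≤ ‖b‖ := by
    intro a b ha hb' hab
    have e1 : ‖a‖ * h a = ‖b‖ * ⟪X b, a⟫ := by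
      rw [← G.eq a ha, ← real_inner_smul_left, ← real_inner_smul_left, hab]
    have e2 : ⟪X b, a⟫ ≤ h a := G.le _ (G.mem b hb') a
    have e3 : ‖a‖ * h a ≤ ‖b‖ * h a := by
      rw [e1]; exact mul_le_mul_of_nonneg_left e2 (norm_nonneg _)
    exact le_of_mul_le_mul_right e3 (hpos a ha)
  intro a ha b hb' hab
  have ha0 : a ≠ 0 := ha
  have hb0 : b ≠ 0 := hb'
  have hab' : ‖a‖ • X a = ‖b‖ • X b := hab
  have hr : ‖a‖ = ‖b‖ := le_antisymm (key a b ha0 hb0 hab') (key b a hb0 ha0 hab'.symm)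
  have hna : ‖a‖ ≠ 0 := norm_ne_zero_iff.2 ha0
  have hnb : ‖b‖ ≠ 0 := norm_ne_zero_iff.2 hb0
  have hX : X a = X b := by
    rw [← hr] at hab'
    exact smul_right_injective _ hna hab'
  have pa : 0 < ‖a‖⁻¹ := inv_pos.2 (norm_pos_iff.2 ha0)
  have pb : 0 < ‖b‖⁻¹ := inv_pos.2 (norm_pos_iff.2 hb0)
  have h4 := (hb (‖a‖⁻¹ • a) (‖b‖⁻¹ • b) (by rw [norm_smul, norm_inv, norm_norm]; field_simp)
    (by rw [norm_smul, norm_inv, norm_norm]; field_simp)).2.2.1
  rw [G.homogX _ a pa ha0, G.homogX _ b pb hb0, hX, sub_self, norm_zero] at h4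
  have h5 : ‖‖a‖⁻¹ • a - ‖b‖⁻¹ • b‖ = 0 := by
    have : 0 ≤ ‖‖a‖⁻¹ • a - ‖b‖⁻¹ • b‖ := norm_nonneg _
    nlinarith
  have h6 : ‖a‖⁻¹ • a = ‖b‖⁻¹ • b := sub_eq_zero.1 (norm_eq_zero.1 h5)
  rw [← hr] at h6
  exact smul_right_injective _ (inv_ne_zero hna) h6

theorem g6_sub (G : Good K h X) :
    (fun x : E n => ‖x‖ • X x) '' (ball 0 1 \ {0}) ⊆ K := by
  rintro _ ⟨u, ⟨hu, hu0⟩, rfl⟩
  have hu0' : u ≠ 0 := hu0
  have hu1 : ‖u‖ < 1 := by simpa using hu
  have := G.convex (interior_subset G.zero_mem) (G.mem u hu0') (a := 1 - ‖u‖) (b := ‖u‖)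
    (by linarith) (norm_nonneg _) (by ring)
  simpa using this

theorem g6_surj (h3 : StmtG3) (hn : 2 ≤ n) (G : Good K h X) :
    interior K \ {0} ⊆ (fun x : E n => ‖x‖ • X x) '' (ball 0 1 \ {0}) := by
  have hpos := (h3 n hn K h X G).2.2.2.2.2
  have hcont := (h3 n hn K h X G).2.2.2.2.1
  rintro x ⟨hx, hx0⟩
  have hx0' : x ≠ 0 := hx0
  have hnx : 0 < ‖x‖ := norm_pos_iff.2 hx0'
  have hsn : ∀ v ∈ sphere (0 : E n) 1, v ≠ 0 := by
    rintro v hv rfl
    simp at hv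
  obtain ⟨v0, hv0, hmax⟩ := (isCompact_sphere (0 : E n) 1).exists_isMaxOn
    (f := fun v => ⟪x, v⟫ / h v) ⟨‖x‖⁻¹ • x, by
      rw [mem_sphere_zero_iff_norm, norm_smul, norm_inv, norm_norm]; field_simp⟩ (by
      apply ContinuousOn.div (by fun_prop) hcont.continuousOn
      intro v hv
      exact (hpos v (hsn v hv)).ne')
  have hv0' : v0 ≠ 0 := hsn v0 hv0
  have hv1 : ‖v0‖ = 1 := by simpa using hv0
  set ρ : ℝ := ⟪x, v0⟫ / h v0 with hρ
  have hb : ∀ u : E n, ⟪x, u⟫ ≤ ρ * h u := by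
    intro u
    by_cases hu : u = 0
    · subst hu
      have : h 0 = 0 := by
        have := G.homog 0 0 le_rfl
        simpa using this
      rw [this]; simp
    · have hnu : 0 < ‖u‖ := norm_pos_iff.2 hu
      have hm : ‖u‖⁻¹ • u ∈ sphere (0 : E n) 1 := by
        rw [mem_sphere_zero_iff_norm, norm_smul, norm_inv, norm_norm]; field_simp
      have h5 : ⟪x, ‖u‖⁻¹ • u⟫ / h (‖u‖⁻¹ • u) ≤ ρ := hmax hm
      rw [G.homog _ _ (by positivity), inner_smul_right,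
        mul_div_mul_left _ _ (by positivity : (‖u‖⁻¹ : ℝ) ≠ 0), div_le_iff₀ (hpos u hu)] at h5
      exact h5
  have hρ0 : 0 < ρ := by
    have h5 := hb x
    rw [real_inner_self_eq_norm_sq] at h5
    have h6 := hpos x hx0'
    by_contra hneg
    push Not at hneg
    nlinarith [mul_nonneg (neg_nonneg.2 hneg) h6.le, sq_pos_of_pos hnx]
  have heq : ⟪x, v0⟫ = ρ * h v0 := by
    rw [hρ, div_mul_cancel₀ _ (hpos v0 hv0').ne']
  have hX : X v0 = ρ⁻¹ • x := by
    have hd : HasFDerivAt (fun u => h u - ⟪ρ⁻¹ • x, u⟫) (innerSL ℝ (X v0) - innerSL ℝ (ρ⁻¹ • x)) v0 :=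
      (G.grad v0 hv0').sub (innerSL ℝ (ρ⁻¹ • x)).hasFDerivAt
    have hmin : IsLocalMin (fun u => h u - ⟪ρ⁻¹ • x, u⟫) v0 := by
      refine Eventually.of_forall fun u => ?_
      have h7 : h v0 - ⟪ρ⁻¹ • x, v0⟫ = 0 := by
        rw [real_inner_smul_left, heq]
        field_simp
        ring
      have h8 : ⟪ρ⁻¹ • x, u⟫ ≤ h u := by
        rw [real_inner_smul_left, inv_mul_le_iff₀ hρ0]
        exact hb u
      show h v0 - ⟪ρ⁻¹ • x, v0⟫ ≤ h u - ⟪ρ⁻¹ • x, u⟫
      linarith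
    have h9 := hmin.hasFDerivAt_eq_zero hd
    have h10 : innerSL ℝ (X v0) = innerSL ℝ (ρ⁻¹ • x) := sub_eq_zero.1 h9
    have h11 : ∀ w, ⟪X v0, w⟫ = ⟪ρ⁻¹ • x, w⟫ := fun w => by
      have := congrArg (fun f : E n →L[ℝ] ℝ => f w) h10
      simpa [real_inner_smul_left] using this
    exact ext_inner_right ℝ h11
  have hρ1 : ρ < 1 := by
    have hnh : K ∈ 𝓝 x := mem_interior_iff_mem_nhds.1 hx
    have hcx : Tendsto (fun r : ℝ => (1 + r) • x) (𝓝 0) (𝓝 x) := by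
      have : Continuous (fun r : ℝ => (1 + r) • x) := by fun_prop
      simpa using this.tendsto 0
    have hev := hcx.eventually hnh
    have hev2 : ∀ᶠ r : ℝ in 𝓝[>] 0, (1 + r) • x ∈ K := hev.filter_mono nhdsWithin_le_nhds
    obtain ⟨r, hr, hr0⟩ := (hev2.and self_mem_nhdsWithin).exists
    have hr0' : 0 < r := hr0
    have h12 := G.le _ hr v0
    rw [real_inner_smul_left, heq] at h12
    have h13 := hpos v0 hv0'
    by_contra hge
    push Not at hge
    nlinarith [mul_pos hr0' h13, mul_le_mul_of_nonneg_right hge h13.le,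
      mul_nonneg (mul_nonneg hr0'.le hρ0.le) h13.le, mul_pos (mul_pos hr0' hρ0) h13]
  refine ⟨ρ • v0, ⟨?_, ?_⟩, ?_⟩
  · rw [mem_ball_zero_iff, norm_smul, hv1, mul_one, Real.norm_of_nonneg hρ0.le]
    exact hρ1
  · intro hc
    have : ρ • v0 = 0 := hc
    rcases smul_eq_zero.1 this with h | h
    · exact hρ0.ne' h
    · exact hv0' h
  · show ‖ρ • v0‖ • X (ρ • v0) = x
    rw [G.homogX ρ v0 hρ0 hv0', norm_smul, hv1, mul_one, Real.norm_of_nonneg hρ0.le, hX, smul_smul,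
      mul_inv_cancel₀ hρ0.ne', one_smul]

end g6

theorem stG6 (h1 : StmtG1) (h3 : StmtG3) : StmtG6 := by
  intro n hn K h X G g
  have hpos := (h3 n hn K h X G).2.2.2.2.2
  have hcurv := (h3 n hn K h X G).2.1
  have : Nonempty (Fin n) := ⟨⟨0, by omega⟩⟩
  have : Nontrivial (E n) := inferInstance
  have hms : MeasurableSet (ball (0 : E n) 1 \ {0}) := measurableSet_ball.diff (measurableSet_singleton 0)
  have hch := integral_image_eq_integral_abs_det_fderiv_smul (volume : Measure (E n)) hms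
    (f := fun x : E n => ‖x‖ • X x) (f' := DP X)
    (fun x hx => (g6_deriv G (show x ≠ 0 from hx.2)).hasFDerivWithinAt)
    ((g6_inj h1 h3 hn G).mono fun x hx => hx.2) g
  have hae : (fun x : E n => ‖x‖ • X x) '' (ball 0 1 \ {0}) =ᵐ[volume] K := by
    refine HasSubset.Subset.eventuallyLE (g6_sub G) |>.antisymm ?_
    rw [ae_le_set]
    have hsub : K \ (fun x : E n => ‖x‖ • X x) '' (ball 0 1 \ {0}) ⊆ frontier K ∪ {0} := by
      rintro x ⟨hxK, hxn⟩
      by_cases hx0 : x = 0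
      · right; exact hx0
      · left
        refine ⟨subset_closure hxK, fun hxi => hxn (g6_surj h3 hn G ⟨hxi, hx0⟩)⟩
    refine measure_mono_null hsub ?_
    rw [measure_union_null_iff]
    exact ⟨G.convex.addHaar_frontier volume, measure_singleton 0⟩
  rw [← setIntegral_congr_set hae, hch]
  have hae2 : (ball (0 : E n) 1 \ {0} : Set (E n)) =ᵐ[volume] ball (0 : E n) 1 :=
    diff_null_ae_eq_self (measure_singleton 0)
  rw [← setIntegral_congr_set hae2]
  refine setIntegral_congr_fun hms fun u hu => ?_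
  have hu0 : u ≠ 0 := hu.2
  show |(DP X u).det| • g (‖u‖ • X u) = (h u / ‖u‖ * curv X u) • g (‖u‖ • X u)
  rw [g6_detDP G hu0, abs_of_pos]
  have := hpos u hu0
  have := hcurv u hu0
  have := norm_pos_iff.2 hu0
  positivity

end Pool.Agent.Helper890.Cov.JG6
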