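import Mathlib
import Pool.Agent.Helper890.Cov.StG




namespace Pool.Agent.Helper890.Cov.JG7
open MeasureTheory Set Filter Topology Metric
open scoped RealInnerProductSpace

theorem stG7_F {n : ℕ} {K : Set (E n)} {h : E n → ℝ} {X : E n → E n} (hG : Good K h X)
    (hcurv : ∀ (r : ℝ) (u : E n), 0 < r → u ≠ 0 → curv X (r • u) = curv X u)
    (G : E n → ℂ) (v : E n) (hv : ‖v‖ = 1) (r : ℝ) (hr : 0 < r) :
    (h (r • v) / ‖r • v‖ * curv X (r • v)) • G (‖r • v‖ • X (r • v)) =
      (h v * curv X v) • G (r • X v) := by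
  have hv0 : v ≠ 0 := by
    intro h0
    rw [h0, norm_zero] at hv
    exact zero_ne_one hv
  have hn : ‖r • v‖ = r := by rw [norm_smul, hv, mul_one, Real.norm_of_nonneg hr.le]
  rw [hn, hG.homog r v hr.le, hcurv r v hr hv0, hG.homogX r v hr hv0,
    mul_div_cancel_left₀ _ hr.ne']

theorem stG7_int {n : ℕ} (hn : 2 ≤ n) {K : Set (E n)} {h : E n → ℝ} {X : E n → E n} (hG : Good K h X)
    (hcurvc : ContinuousOn (curv X) {0}ᶜ)
    (hcurv : ∀ (r : ℝ) (u : E n), 0 < r → u ≠ 0 → curv X (r • u) = curv X u)
    (hXc : ContinuousOn X {0}ᶜ) (hhc : Continuous h) (G : E n → ℂ) (hGc : Continuous G) :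
    Integrable ((ball (0 : E n) 1).indicator
      (fun η => (h η / ‖η‖ * curv X η) • G (‖η‖ • X η))) := by
  rw [integrable_indicator_iff measurableSet_ball]
  have hset : (ball (0 : E n) 1 \ {0} : Set (E n)) ⊆ {0}ᶜ := fun x hx => hx.2
  have hsph : (sphere (0 : E n) 1 : Set (E n)) ⊆ {0}ᶜ := by
    intro x hx h0
    rw [Set.mem_singleton_iff] at h0
    rw [mem_sphere_zero_iff_norm, h0, norm_zero] at hx
    exact zero_ne_one hx
  have hcont : ContinuousOn (fun η : E n => (h η / ‖η‖ * curv X η) • G (‖η‖ • X η))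
      (ball (0 : E n) 1 \ {0}) := by
    refine ContinuousOn.smul (f := fun η : E n => h η / ‖η‖ * curv X η)
      (g := fun η => G (‖η‖ • X η)) ?_ ?_
    · apply ContinuousOn.mul
      · apply ContinuousOn.div hhc.continuousOn continuous_norm.continuousOn
        intro x hx
        exact norm_ne_zero_iff.mpr (hset hx)
      · exact hcurvc.mono hset
    · apply hGc.comp_continuousOn
      exact continuous_norm.continuousOn.smul (hXc.mono hset)
  obtain ⟨C1, hC1⟩ := (isCompact_sphere (0 : E n) 1).exists_bound_of_continuousOn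
    (f := fun v => h v * curv X v) (hhc.continuousOn.mul (hcurvc.mono hsph))
  obtain ⟨C2, hC2⟩ := ((isCompact_Icc (a := (0 : ℝ)) (b := 1)).prod
    (isCompact_sphere (0 : E n) 1)).exists_bound_of_continuousOn
    (f := fun p : ℝ × E n => G (p.1 • X p.2)) (by
      apply hGc.comp_continuousOn
      apply ContinuousOn.smul continuous_fst.continuousOn
      exact hXc.comp continuous_snd.continuousOn (fun p hp => hsph hp.2))
  have hio : IntegrableOn (fun η : E n => (h η / ‖η‖ * curv X η) • G (‖η‖ • X η))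
      (ball (0 : E n) 1 \ {0}) := by
    have hfin : volume (ball (0 : E n) 1 \ {0}) ≠ ⊤ :=
      ne_top_of_le_ne_top measure_ball_lt_top.ne (measure_mono Set.diff_subset)
    refine Integrable.mono' (g := fun _ => C1 * C2) (integrableOn_const hfin) ?_ ?_
    · exact hcont.aestronglyMeasurable (measurableSet_ball.diff (measurableSet_singleton 0))
    · rw [ae_restrict_iff' (measurableSet_ball.diff (measurableSet_singleton 0))]
      refine Filter.Eventually.of_forall fun η hη => ?_
      have hη0 : η ≠ 0 := hset hη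
      have hpos : 0 < ‖η‖ := norm_pos_iff.mpr hη0
      have hη1 : ‖η‖ < 1 := mem_ball_zero_iff.mp hη.1
      set v : E n := ‖η‖⁻¹ • η with hvdef
      have hv1 : ‖v‖ = 1 := by
        rw [hvdef, norm_smul, norm_inv, norm_norm, inv_mul_cancel₀ hpos.ne']
      have hηv : η = ‖η‖ • v := by
        rw [hvdef, smul_smul, mul_inv_cancel₀ hpos.ne', one_smul]
      have hF := stG7_F hG hcurv G v hv1 ‖η‖ hpos
      rw [← hηv] at hF
      rw [hF, norm_smul]
      have hvs : v ∈ sphere (0 : E n) 1 := mem_sphere_zero_iff_norm.mpr hv1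
      have h1 := hC1 v hvs
      have h2 := hC2 (‖η‖, v) ⟨⟨hpos.le, hη1.le⟩, hvs⟩
      exact mul_le_mul h1 h2 (norm_nonneg _) (le_trans (norm_nonneg _) h1)
  apply hio.congr_set_ae
  have hpos : 0 < n := by omega
  haveI : Nontrivial (E n) := by
    refine ⟨EuclideanSpace.single (⟨0, hpos⟩ : Fin n) (1 : ℝ), 0, fun h1 => ?_⟩
    have h2 := congrArg (fun x : E n => x ⟨0, hpos⟩) h1
    simp at h2
  exact (diff_null_ae_eq_self (measure_singleton (0 : E n))).symm

theorem stG7_radial (h3 : StmtG3) (h6 : StmtG6) (hP : StmtP) (n : ℕ) (hn : 2 ≤ n)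
    (K : Set (E n)) (h : E n → ℝ) (X : E n → E n) (hG : Good K h X) (g : E n → ℂ)
    (hg : ContDiff ℝ 1 g) :
    ∫ x in K, ((n : ℂ) * g x + fderiv ℝ g x x) =
      ∫ v : sphere (0 : E n) 1, (h v * curv X v) • g (X v) ∂(sph n) := by
  obtain ⟨hcurvc, _, hcurv, hXc, hhc, _⟩ := h3 n hn K h X hG
  have hgc : Continuous g := hg.continuous
  have hdc : Continuous (fderiv ℝ g) := hg.continuous_fderiv (by norm_num)
  have hGc : Continuous (fun x => (n : ℂ) * g x + fderiv ℝ g x x) :=
    (continuous_const.mul hgc).add (hdc.clm_apply continuous_id)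
  rw [h6 n hn K h X hG (fun x => (n : ℂ) * g x + fderiv ℝ g x x),
    ← integral_indicator measurableSet_ball,
    (hP n hn).2.1 _ (stG7_int hn hG hcurvc hcurv hXc hhc _ hGc)]
  apply integral_congr_ae
  refine Filter.Eventually.of_forall fun v => ?_
  beta_reduce
  have hv1 : ‖(v : E n)‖ = 1 := mem_sphere_zero_iff_norm.mp v.2
  have hstep : ∀ r ∈ Ioi (0 : ℝ), ((r ^ (n - 1) : ℝ) : ℂ) *
      (ball (0 : E n) 1).indicator (fun η => (h η / ‖η‖ * curv X η) •
        ((n : ℂ) * g (‖η‖ • X η) + fderiv ℝ g (‖η‖ • X η) (‖η‖ • X η))) (r • (v : E n)) =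
      (Iio (1 : ℝ)).indicator (fun r => (h v * curv X v) • (((r ^ (n - 1) : ℝ) : ℂ) *
        ((n : ℂ) * g (r • X v) + fderiv ℝ g (r • X v) (r • X v)))) r := by
    intro r hr
    have hr0 : 0 < r := hr
    have hnr : ‖r • (v : E n)‖ = r := by
      rw [norm_smul, hv1, mul_one, Real.norm_of_nonneg hr0.le]
    by_cases hr1 : r < 1
    · rw [Set.indicator_of_mem (by rw [mem_ball_zero_iff, hnr]; exact hr1),
        Set.indicator_of_mem (show r ∈ Iio (1 : ℝ) from hr1)]
      have hF := stG7_F hG hcurv (fun x => (n : ℂ) * g x + fderiv ℝ g x x) v hv1 r hr0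
      beta_reduce at hF
      rw [hF, mul_smul_comm]
    · rw [Set.indicator_of_notMem (by rw [mem_ball_zero_iff, hnr]; exact hr1),
        Set.indicator_of_notMem (show r ∉ Iio (1 : ℝ) from hr1), mul_zero]
  rw [setIntegral_congr_fun measurableSet_Ioi hstep, setIntegral_indicator measurableSet_Iio,
    Ioi_inter_Iio, ← integral_Ioc_eq_integral_Ioo, ← intervalIntegral.integral_of_le zero_le_one,
    intervalIntegral.integral_smul]
  congr 1
  have hderiv : ∀ r ∈ uIcc (0 : ℝ) 1, HasDerivAt (fun r : ℝ => ((r ^ n : ℝ) : ℂ) * g (r • X v))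
      (((r ^ (n - 1) : ℝ) : ℂ) * ((n : ℂ) * g (r • X v) + fderiv ℝ g (r • X v) (r • X v))) r := by
    intro r _
    have h1 : HasDerivAt (fun r : ℝ => ((r ^ n : ℝ) : ℂ)) (((n * r ^ (n - 1) : ℝ)) : ℂ) r :=
      (hasDerivAt_pow n r).ofReal_comp
    have h2 : HasDerivAt (fun r : ℝ => g (r • X v)) (fderiv ℝ g (r • X v) (X v)) r := by
      have h3 : HasDerivAt (fun r : ℝ => r • X (v : E n)) (X v) r := by
        simpa using (hasDerivAt_id r).smul_const (X (v : E n))
      exact ((hg.differentiable (by norm_num)) (r • X v)).hasFDerivAt.comp_hasDerivAt r h3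
    have h4 := h1.mul h2
    refine HasDerivAt.congr_deriv h4 ?_
    symm
    rw [map_smul]
    have h5 : r ^ n = r ^ (n - 1) * r := by
      rw [← pow_succ]
      congr 1
      omega
    rw [h5]
    push_cast
    rw [Complex.real_smul]
    ring
  rw [intervalIntegral.integral_eq_sub_of_hasDerivAt hderiv]
  · simp only [one_pow, one_smul, Complex.ofReal_one, one_mul]
    rw [zero_pow (by omega)]
    simp
  · apply Continuous.intervalIntegrable
    apply Continuous.mul
    · exact Complex.continuous_ofReal.comp (continuous_pow _)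
    · have hc : Continuous (fun r : ℝ => r • X (v : E n)) := continuous_id.smul continuous_const
      exact hGc.comp hc

theorem stG7_good {n : ℕ} {K : Set (E n)} {h : E n → ℝ} {X : E n → E n} (hG : Good K h X)
    (e : E n) (he : -e ∈ interior K) :
    Good ((fun x => x + e) '' K) (fun u => h u + ⟪e, u⟫) (fun u => X u + e) := by
  have hfd : ∀ u, fderiv ℝ (fun u => X u + e) u = fderiv ℝ X u := fun u => fderiv_add_const e
  refine ⟨?_, ?_, ?_, ?_, ?_, ?_, ?_, ?_, ?_, ?_, ?_, ?_, ?_⟩
  · exact hG.compact.image (continuous_id.add continuous_const)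
  · have h0 : (fun x : E n => x + e) '' K = (fun x => e + x) '' K :=
      Set.image_congr (fun x _ => add_comm x e)
    rw [h0]
    exact hG.convex.translate e
  · have h1 : (fun x : E n => x + e) '' interior K ⊆ interior ((fun x => x + e) '' K) :=
      (isOpenMap_add_right e).image_interior_subset K
    exact h1 ⟨-e, he, by simp⟩
  · intro u hu
    have h1 := hG.grad u hu
    have h2 : HasFDerivAt (fun u : E n => (⟪e, u⟫ : ℝ)) (innerSL ℝ e) u :=
      (innerSL ℝ e).hasFDerivAt
    have h3 := h1.add h2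
    exact h3.congr_fderiv (map_add _ _ _).symm
  · exact hG.c1.add contDiffOn_const
  · intro u hu
    exact ⟨X u, hG.mem u hu, rfl⟩
  · rintro _ ⟨x, hx, rfl⟩ u
    beta_reduce
    rw [inner_add_left]
    have := hG.le x hx u
    linarith
  · intro u hu
    rw [inner_add_left, hG.eq u hu]
  · intro x hx
    refine ⟨x - e, hG.charac _ (fun u => ?_), by simp⟩
    have := hx u
    rw [inner_sub_left]
    linarith
  · intro r u hr
    beta_reduce
    rw [hG.homog r u hr, inner_smul_right]
    ring
  · intro r u hr hu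
    beta_reduce
    rw [hG.homogX r u hr hu]
  · intro u hu w hw hwu
    rw [hfd u]
    exact hG.pos u hu w hw hwu
  · intro u hu w w'
    rw [hfd u]
    exact hG.symm u hu w w'

theorem stG7 (h1 : StmtG1) (h3 : StmtG3) (h6 : StmtG6) (hP : StmtP) : StmtG7 := by
  intro n hn K h X hG g e hg
  obtain ⟨hcurvc, _, hcurv, hXc, hhc, _⟩ := h3 n hn K h X hG
  haveI : IsFiniteMeasure (sph n) := by unfold sph; infer_instance
  have hgc : Continuous g := hg.continuous
  have hdc : Continuous (fderiv ℝ g) := hg.continuous_fderiv (by norm_num)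
  -- a small translation
  obtain ⟨ρ, hρ, hρe⟩ : ∃ ρ : ℝ, 0 < ρ ∧ -(ρ • e) ∈ interior K := by
    have hc : Continuous (fun ρ : ℝ => -(ρ • e)) := (continuous_id.smul continuous_const).neg
    have hopen : IsOpen ((fun ρ : ℝ => -(ρ • e)) ⁻¹' interior K) :=
      isOpen_interior.preimage hc
    have h0 : (0 : ℝ) ∈ (fun ρ : ℝ => -(ρ • e)) ⁻¹' interior K := by
      simpa using hG.zero_mem
    obtain ⟨ε, hε, hball⟩ := Metric.isOpen_iff.mp hopen 0 h0
    refine ⟨ε / 2, by positivity, ?_⟩
    apply hball
    rw [Metric.mem_ball, Real.dist_eq, sub_zero, abs_of_pos (by positivity)]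
    linarith
  have hG' := stG7_good hG (ρ • e) hρe
  have hr1 := stG7_radial h3 h6 hP n hn K h X hG g hg
  have hg' : ContDiff ℝ 1 (fun x => g (x - ρ • e)) := hg.comp (contDiff_id.sub contDiff_const)
  have hr2 := stG7_radial h3 h6 hP n hn _ _ _ hG' (fun x => g (x - ρ • e)) hg'
  have hcurv' : ∀ u, curv (fun u => X u + ρ • e) u = curv X u := by
    intro u
    have hfd : fderiv ℝ (fun u => X u + ρ • e) u = fderiv ℝ X u := fderiv_add_const _
    unfold curv BB
    rw [hfd]
  have hfd2 : ∀ x, fderiv ℝ (fun x => g (x - ρ • e)) x = fderiv ℝ g (x - ρ • e) := by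
    intro x
    have h4 : HasFDerivAt (fun x : E n => x - ρ • e) (ContinuousLinearMap.id ℝ (E n)) x :=
      (hasFDerivAt_id x).sub_const _
    have h5 := ((hg.differentiable (by norm_num)) (x - ρ • e)).hasFDerivAt.comp x h4
    have h6' := h5.fderiv
    rw [ContinuousLinearMap.comp_id] at h6'
    exact h6'
  have hemb : MeasurableEmbedding (fun x : E n => x + ρ • e) :=
    (Homeomorph.addRight (ρ • e)).measurableEmbedding
  have hmp : MeasurePreserving (fun x : E n => x + ρ • e) volume volume :=
    measurePreserving_add_right volume (ρ • e)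
  rw [hmp.setIntegral_image_emb hemb] at hr2
  simp only [hfd2, add_sub_cancel_right, hcurv', map_add] at hr2
  have hK : MeasurableSet K := hG.compact.isClosed.measurableSet
  have hi1 : IntegrableOn (fun x => (n : ℂ) * g x + fderiv ℝ g x x) K :=
    ((continuous_const.mul hgc).add (hdc.clm_apply continuous_id)).continuousOn.integrableOn_compact
      hG.compact
  have hi0 : IntegrableOn (fun x => fderiv ℝ g x e) K :=
    (hdc.clm_apply continuous_const).continuousOn.integrableOn_compact hG.compact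
  have hi2 : IntegrableOn (fun x => ρ • fderiv ℝ g x e) K := Integrable.smul ρ hi0
  have hL : ∫ x in K, ((n : ℂ) * g x + (fderiv ℝ g x x + fderiv ℝ g x (ρ • e))) =
      (∫ x in K, ((n : ℂ) * g x + fderiv ℝ g x x)) + ρ • ∫ x in K, fderiv ℝ g x e := by
    rw [← integral_smul, ← integral_add hi1 hi2]
    apply integral_congr_ae
    refine Filter.Eventually.of_forall fun x => ?_
    simp only [map_smul]
    ring
  -- continuity on the sphere
  have hsc : Continuous (fun v : sphere (0 : E n) 1 => (v : E n)) := continuous_subtype_val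
  have hne : ∀ v : sphere (0 : E n) 1, (v : E n) ∈ ({0}ᶜ : Set (E n)) := by
    intro v h0
    have h1 : ‖(v : E n)‖ = 1 := mem_sphere_zero_iff_norm.mp v.2
    rw [Set.mem_singleton_iff] at h0
    rw [h0, norm_zero] at h1
    exact zero_ne_one h1
  have hcs : Continuous (fun v : sphere (0 : E n) 1 => curv X v) :=
    hcurvc.comp_continuous hsc hne
  have hXs : Continuous (fun v : sphere (0 : E n) 1 => X v) := hXc.comp_continuous hsc hne
  have hhs : Continuous (fun v : sphere (0 : E n) 1 => h v) := hhc.comp hsc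
  have his : Continuous (fun v : sphere (0 : E n) 1 => (⟪(v : E n), e⟫ : ℝ)) :=
    hsc.inner continuous_const
  haveI : CompactSpace (sphere (0 : E n) 1) := isCompact_iff_compactSpace.mp (isCompact_sphere _ _)
  have hj1 : Integrable (fun v : sphere (0 : E n) 1 => (h v * curv X v) • g (X v)) (sph n) :=
    ((hhs.mul hcs).smul (hgc.comp hXs)).integrable_of_hasCompactSupport
      (HasCompactSupport.of_compactSpace _)
  have hj2 : Integrable (fun v : sphere (0 : E n) 1 => (⟪(v : E n), e⟫ * curv X v) • g (X v))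
      (sph n) :=
    ((his.mul hcs).smul (hgc.comp hXs)).integrable_of_hasCompactSupport
      (HasCompactSupport.of_compactSpace _)
  have hR : ∫ v : sphere (0 : E n) 1, ((h v + ⟪ρ • e, (v : E n)⟫) * curv X v) • g (X v) ∂(sph n) =
      (∫ v : sphere (0 : E n) 1, (h v * curv X v) • g (X v) ∂(sph n)) +
        ρ • ∫ v : sphere (0 : E n) 1, (⟪(v : E n), e⟫ * curv X v) • g (X v) ∂(sph n) := by
    have hj3 : Integrable (fun v : sphere (0 : E n) 1 =>
        ρ • ((⟪(v : E n), e⟫ * curv X v) • g (X v))) (sph n) := hj2.smul ρ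
    rw [← integral_smul, ← integral_add hj1 hj3]
    apply integral_congr_ae
    refine Filter.Eventually.of_forall fun v => ?_
    beta_reduce
    rw [real_inner_smul_left, real_inner_comm, smul_smul, ← add_smul]
    congr 1
    ring
  rw [hL, hR, hr1] at hr2
  have hfin := add_left_cancel hr2
  exact smul_right_injective ℂ hρ.ne' hfin

end Pool.Agent.Helper890.Cov.JG7
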