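import Mathlib
import Pool.Agent.Helper890.Cov.StG




namespace Pool.Agent.Helper890.Cov.JG8
open MeasureTheory Set Filter Topology Metric
open scoped RealInnerProductSpace

theorem j25770_int {S : Type} [TopologicalSpace S] [CompactSpace S] [MeasurableSpace S]
    [BorelSpace S] (μ : Measure S) [IsFiniteMeasure μ] {F : Type} [NormedAddCommGroup F]
    (g : S → F) (hg : Continuous g) : Integrable g μ :=
  hg.integrable_of_hasCompactSupport (HasCompactSupport.of_compactSpace g)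

theorem j25770_inner {n : ℕ} (x y : E n) : ⟪x, y⟫ = ∑ j, x j * y j := by
  rw [PiLp.inner_apply]
  refine Finset.sum_congr rfl fun j _ => ?_
  rw [RCLike.inner_apply]
  simp [mul_comm]

theorem j25770_B {S : Type} [TopologicalSpace S] [CompactSpace S] [MeasurableSpace S]
    [BorelSpace S] [SecondCountableTopology S] {n : ℕ} (σ : Measure S) [IsFiniteMeasure σ]
    (V Y : S → E n) (f : S → ℝ) (hV : Continuous V) (hY : Continuous Y) (hf : Continuous f)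
    (Φ : E n → ℂ)
    (hΦ : ∀ ξ e : E n, Complex.I * ((⟪ξ, e⟫ : ℝ) : ℂ) * Φ ξ =
      ∫ v, (⟪V v, e⟫ * f v) • Complex.exp (Complex.I * ((⟪ξ, Y v⟫ : ℝ) : ℂ)) ∂σ) (ξ : E n) :
    ((‖ξ‖ ^ 2 * ‖Φ ξ‖ ^ 2 : ℝ) : ℂ) = ∫ p : S × S, ((⟪V p.1, V p.2⟫ * f p.1 * f p.2 : ℝ) : ℂ) *
      Complex.exp (Complex.I * ((⟪Y p.1 - Y p.2, ξ⟫ : ℝ) : ℂ)) ∂(σ.prod σ) := by
  have hj : ∀ j : Fin n, ((((ξ j) ^ 2 * ‖Φ ξ‖ ^ 2 : ℝ)) : ℂ) =
      ∫ p : S × S, ((V p.1 j * V p.2 j * (f p.1 * f p.2) : ℝ) : ℂ) *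
      Complex.exp (Complex.I * ((⟪Y p.1 - Y p.2, ξ⟫ : ℝ) : ℂ)) ∂(σ.prod σ) := by
    intro j
    have h1 := hΦ ξ (EuclideanSpace.single j 1)
    have hin : ∀ x : E n, ⟪x, (EuclideanSpace.single j (1 : ℝ) : E n)⟫ = x j := by
      intro x
      rw [EuclideanSpace.inner_single_right]
      simp
    rw [hin] at h1
    simp only [hin] at h1
    obtain ⟨J, hJ⟩ : ∃ J : ℂ, J = ∫ v, (V v j * f v) •
      Complex.exp (Complex.I * ((⟪ξ, Y v⟫ : ℝ) : ℂ)) ∂σ := ⟨_, rfl⟩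
    rw [← hJ] at h1
    have h2 : ((((ξ j) ^ 2 * ‖Φ ξ‖ ^ 2 : ℝ)) : ℂ) = J * (starRingEnd ℂ) J := by
      rw [← h1, map_mul, map_mul, Complex.conj_I, Complex.conj_ofReal]
      have h3 : Φ ξ * (starRingEnd ℂ) (Φ ξ) = ((‖Φ ξ‖ ^ 2 : ℝ) : ℂ) := by
        rw [Complex.mul_conj, Complex.normSq_eq_norm_sq]
      push_cast at h3 ⊢
      linear_combination (-((ξ j : ℂ) ^ 2)) * h3 +
        ((ξ j : ℂ) ^ 2 * (Φ ξ * (starRingEnd ℂ) (Φ ξ))) * Complex.I_mul_I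
    have h3 : (starRingEnd ℂ) J = ∫ v, (V v j * f v) •
      Complex.exp (-(Complex.I * ((⟪ξ, Y v⟫ : ℝ) : ℂ))) ∂σ := by
      rw [hJ, ← integral_conj]
      refine integral_congr_ae (Eventually.of_forall fun v => ?_)
      simp only [Complex.real_smul, map_mul, Complex.conj_ofReal, ← Complex.exp_conj,
        Complex.conj_I, neg_mul]
    rw [h2, h3, hJ, ← integral_prod_mul]
    refine integral_congr_ae (Eventually.of_forall fun p => ?_)
    simp only [Complex.real_smul]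
    have h4 : Complex.exp (Complex.I * ((⟪Y p.1 - Y p.2, ξ⟫ : ℝ) : ℂ)) =
        Complex.exp (Complex.I * ((⟪ξ, Y p.1⟫ : ℝ) : ℂ)) *
          Complex.exp (-(Complex.I * ((⟪ξ, Y p.2⟫ : ℝ) : ℂ))) := by
      rw [← Complex.exp_add, real_inner_comm, inner_sub_right]
      congr 1
      push_cast
      ring
    rw [h4]
    push_cast
    ring
  have hs : ((‖ξ‖ ^ 2 * ‖Φ ξ‖ ^ 2 : ℝ) : ℂ) = ∑ j : Fin n, ((((ξ j) ^ 2 * ‖Φ ξ‖ ^ 2 : ℝ)) : ℂ) := by
    rw [EuclideanSpace.real_norm_sq_eq, Finset.sum_mul]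
    push_cast
    rfl
  rw [hs, Finset.sum_congr rfl (fun j _ => hj j), ← integral_finsetSum]
  · refine integral_congr_ae (Eventually.of_forall fun p => ?_)
    simp only
    rw [← Finset.sum_mul]
    congr 1
    rw [j25770_inner, Finset.sum_mul, Finset.sum_mul]
    push_cast
    refine Finset.sum_congr rfl fun j _ => ?_
    ring
  · intro j _
    apply j25770_int
    fun_prop

theorem j25770_gauss {n : ℕ} (T : ℝ) (hT : 0 < T) (z : E n) :
    ∫ ξ : E n, ((Real.exp (-(‖ξ‖ ^ 2 / T ^ 2)) : ℝ) : ℂ) *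
      Complex.exp (Complex.I * ((⟪z, ξ⟫ : ℝ) : ℂ)) =
    (((Real.pi * T ^ 2) ^ ((n : ℝ) / 2) * Real.exp (-(T ^ 2 * ‖z‖ ^ 2 / 4)) : ℝ) : ℂ) := by
  have hT2 : (0 : ℝ) < T ^ 2 := by positivity
  have hb : 0 < ((((T ^ 2)⁻¹ : ℝ)) : ℂ).re := by rw [Complex.ofReal_re]; positivity
  have h1 := GaussianFourier.integral_cexp_neg_mul_sq_norm_add (V := E n) hb Complex.I z
  have h2 : (fun ξ : E n => ((Real.exp (-(‖ξ‖ ^ 2 / T ^ 2)) : ℝ) : ℂ) *
      Complex.exp (Complex.I * ((⟪z, ξ⟫ : ℝ) : ℂ))) = fun ξ : E n =>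
      Complex.exp (-((((T ^ 2)⁻¹ : ℝ)) : ℂ) * (‖ξ‖ : ℂ) ^ 2 + Complex.I * ((⟪z, ξ⟫ : ℝ) : ℂ)) := by
    funext ξ
    rw [Complex.ofReal_exp, ← Complex.exp_add]
    congr 1
    push_cast
    ring
  rw [h2, h1, finrank_euclideanSpace, Fintype.card_fin]
  have h3 : ((Real.pi : ℂ) / ((((T ^ 2)⁻¹ : ℝ)) : ℂ)) ^ ((n : ℂ) / 2) =
      (((Real.pi * T ^ 2) ^ ((n : ℝ) / 2) : ℝ) : ℂ) := by
    rw [Complex.ofReal_cpow (by positivity)]
    congr 1
    · push_cast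
      field_simp
    · push_cast
      rfl
  rw [h3, Complex.ofReal_mul, Complex.ofReal_exp]
  congr 2
  rw [Complex.I_sq]
  push_cast
  have hTc : (T : ℂ) ≠ 0 := by exact_mod_cast hT.ne'
  field_simp

theorem j25770_C {S : Type} [TopologicalSpace S] [CompactSpace S] [MeasurableSpace S]
    [BorelSpace S] [SecondCountableTopology S] {n : ℕ} (σ : Measure S) [IsFiniteMeasure σ]
    (V Y : S → E n) (f : S → ℝ) (hV : Continuous V) (hY : Continuous Y) (hf : Continuous f)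
    (Φ : E n → ℂ)
    (hΦ : ∀ ξ e : E n, Complex.I * ((⟪ξ, e⟫ : ℝ) : ℂ) * Φ ξ =
      ∫ v, (⟪V v, e⟫ * f v) • Complex.exp (Complex.I * ((⟪ξ, Y v⟫ : ℝ) : ℂ)) ∂σ) (T : ℝ)
    (hT : 0 < T) :
    ∫ ξ : E n, Real.exp (-(‖ξ‖ ^ 2 / T ^ 2)) * (‖ξ‖ ^ 2 * ‖Φ ξ‖ ^ 2) =
      ∫ p : S × S, (⟪V p.1, V p.2⟫ * f p.1 * f p.2) * ((Real.pi * T ^ 2) ^ ((n : ℝ) / 2) *
        Real.exp (-(T ^ 2 * ‖Y p.1 - Y p.2‖ ^ 2 / 4))) ∂(σ.prod σ) := by
  apply Complex.ofReal_injective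
  rw [← integral_complex_ofReal, ← integral_complex_ofReal]
  have h1 : ∀ ξ : E n, ((Real.exp (-(‖ξ‖ ^ 2 / T ^ 2)) * (‖ξ‖ ^ 2 * ‖Φ ξ‖ ^ 2) : ℝ) : ℂ) =
      ∫ p : S × S, ((Real.exp (-(‖ξ‖ ^ 2 / T ^ 2)) : ℝ) : ℂ) *
        (((⟪V p.1, V p.2⟫ * f p.1 * f p.2 : ℝ) : ℂ) *
        Complex.exp (Complex.I * ((⟪Y p.1 - Y p.2, ξ⟫ : ℝ) : ℂ))) ∂(σ.prod σ) := by
    intro ξ
    rw [integral_const_mul, ← j25770_B σ V Y f hV hY hf Φ hΦ ξ]
    push_cast
    rfl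
  simp only [h1]
  have hint : Integrable (Function.uncurry fun (ξ : E n) (p : S × S) =>
      ((Real.exp (-(‖ξ‖ ^ 2 / T ^ 2)) : ℝ) : ℂ) *
        (((⟪V p.1, V p.2⟫ * f p.1 * f p.2 : ℝ) : ℂ) *
        Complex.exp (Complex.I * ((⟪Y p.1 - Y p.2, ξ⟫ : ℝ) : ℂ)))) (volume.prod (σ.prod σ)) := by
    have hb : 0 < ((((T ^ 2)⁻¹ : ℝ)) : ℂ).re := by rw [Complex.ofReal_re]; positivity
    have i1 : Integrable (fun ξ : E n => ((Real.exp (-(‖ξ‖ ^ 2 / T ^ 2)) : ℝ) : ℂ)) := by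
      have i2 := GaussianFourier.integrable_cexp_neg_mul_sq_norm_add (V := E n) hb 0 0
      refine i2.congr (Eventually.of_forall fun ξ => ?_)
      simp only
      rw [Complex.ofReal_exp]
      congr 1
      push_cast
      ring
    have i3 : Integrable (fun p : S × S => ((⟪V p.1, V p.2⟫ * f p.1 * f p.2 : ℝ) : ℂ))
        (σ.prod σ) := by
      apply j25770_int
      fun_prop
    have i4 := i1.mul_prod i3
    refine i4.mono ?_ (Eventually.of_forall fun z => ?_)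
    · apply Continuous.aestronglyMeasurable
      unfold Function.uncurry
      fun_prop
    · simp only [Function.uncurry]
      rw [norm_mul, norm_mul, norm_mul]
      have h5 : ‖Complex.exp (Complex.I * ((⟪Y z.2.1 - Y z.2.2, z.1⟫ : ℝ) : ℂ))‖ = 1 := by
        rw [mul_comm, Complex.norm_exp_ofReal_mul_I]
      rw [h5, mul_one]
  rw [integral_integral_swap hint]
  refine integral_congr_ae (Eventually.of_forall fun p => ?_)
  simp only
  have h6 : (fun ξ : E n => ((Real.exp (-(‖ξ‖ ^ 2 / T ^ 2)) : ℝ) : ℂ) *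
        (((⟪V p.1, V p.2⟫ * f p.1 * f p.2 : ℝ) : ℂ) *
        Complex.exp (Complex.I * ((⟪Y p.1 - Y p.2, ξ⟫ : ℝ) : ℂ)))) = fun ξ : E n =>
      ((⟪V p.1, V p.2⟫ * f p.1 * f p.2 : ℝ) : ℂ) * (((Real.exp (-(‖ξ‖ ^ 2 / T ^ 2)) : ℝ) : ℂ) *
        Complex.exp (Complex.I * ((⟪Y p.1 - Y p.2, ξ⟫ : ℝ) : ℂ))) := by
    funext ξ; ring
  rw [h6, integral_const_mul, j25770_gauss T hT]
  push_cast
  rfl

theorem j25770_cont {S : Type} [TopologicalSpace S] [CompactSpace S] [MeasurableSpace S]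
    [BorelSpace S] [SecondCountableTopology S] {n : ℕ} (σ : Measure S) [IsFiniteMeasure σ]
    (Y : S → E n) (f : S → ℝ) (hY : Continuous Y) (hf : Continuous f) (T : ℝ) :
    AEStronglyMeasurable (fun v => ∫ v', f v' * Real.exp (-(T ^ 2 * ‖Y v - Y v'‖ ^ 2 / 4)) ∂σ) σ := by
  have h1 : StronglyMeasurable (fun p : S × S =>
      f p.2 * Real.exp (-(T ^ 2 * ‖Y p.1 - Y p.2‖ ^ 2 / 4))) := by
    apply Continuous.stronglyMeasurable
    fun_prop
  exact h1.integral_prod_right'.aestronglyMeasurable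

theorem j25770_const {n : ℕ} (T : ℝ) (hT : 0 < T) :
    T⁻¹ * (Real.pi * T ^ 2) ^ ((n : ℝ) / 2) = Real.pi ^ ((n : ℝ) / 2) * T ^ ((n : ℝ) - 1) := by
  rw [Real.mul_rpow Real.pi_pos.le (by positivity), ← Real.rpow_natCast T 2, ← Real.rpow_mul hT.le,
    Real.rpow_sub_one hT.ne']
  have : ((2 : ℕ) : ℝ) * ((n : ℝ) / 2) = n := by push_cast; ring
  rw [this]
  field_simp

theorem j25770_D {S : Type} [TopologicalSpace S] [CompactSpace S] [MeasurableSpace S]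
    [BorelSpace S] [SecondCountableTopology S] {n : ℕ} (σ : Measure S) [IsFiniteMeasure σ]
    (V Y : S → E n) (f : S → ℝ) (hV : Continuous V) (hY : Continuous Y) (hf : Continuous f)
    (hVn : ∀ v, ‖V v‖ = 1) (hf0 : ∀ v, 0 ≤ f v) (T : ℝ) (hT : 0 < T) :
    T⁻¹ * ∫ p : S × S, (⟪V p.1, V p.2⟫ * f p.1 * f p.2) * ((Real.pi * T ^ 2) ^ ((n : ℝ) / 2) *
        Real.exp (-(T ^ 2 * ‖Y p.1 - Y p.2‖ ^ 2 / 4))) ∂(σ.prod σ) ≤
      Real.pi ^ ((n : ℝ) / 2) * ∫ v, f v * (T ^ ((n : ℝ) - 1) *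
        ∫ v', f v' * Real.exp (-(T ^ 2 * ‖Y v - Y v'‖ ^ 2 / 4)) ∂σ) ∂σ := by
  obtain ⟨c, hc⟩ : ∃ c : ℝ, c = (Real.pi * T ^ 2) ^ ((n : ℝ) / 2) := ⟨_, rfl⟩
  have hc0 : 0 ≤ c := by rw [hc]; positivity
  rw [← hc]
  have h1 : ∫ p : S × S, (⟪V p.1, V p.2⟫ * f p.1 * f p.2) * (c *
        Real.exp (-(T ^ 2 * ‖Y p.1 - Y p.2‖ ^ 2 / 4))) ∂(σ.prod σ) ≤
      ∫ p : S × S, c * (f p.1 * (f p.2 * Real.exp (-(T ^ 2 * ‖Y p.1 - Y p.2‖ ^ 2 / 4))))
        ∂(σ.prod σ) := by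
    apply integral_mono
    · apply j25770_int
      fun_prop
    · apply j25770_int
      fun_prop
    · intro p
      simp only
      have h2 : ⟪V p.1, V p.2⟫ ≤ 1 := by
        have := real_inner_le_norm (V p.1) (V p.2)
        rw [hVn, hVn] at this
        linarith
      have h3 : 0 ≤ c * (f p.1 * (f p.2 * Real.exp (-(T ^ 2 * ‖Y p.1 - Y p.2‖ ^ 2 / 4)))) :=
        mul_nonneg hc0 (mul_nonneg (hf0 _) (mul_nonneg (hf0 _) (Real.exp_pos _).le))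
      have h4 := mul_le_mul_of_nonneg_right h2 h3
      linarith
  have h5 : ∫ p : S × S, c * (f p.1 * (f p.2 * Real.exp (-(T ^ 2 * ‖Y p.1 - Y p.2‖ ^ 2 / 4))))
        ∂(σ.prod σ) = c * ∫ v, f v * ∫ v', f v' * Real.exp (-(T ^ 2 * ‖Y v - Y v'‖ ^ 2 / 4)) ∂σ
        ∂σ := by
    rw [integral_const_mul]
    congr 1
    rw [integral_prod]
    · refine integral_congr_ae (Eventually.of_forall fun v => ?_)
      simp only
      rw [integral_const_mul]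
    · apply j25770_int
      fun_prop
  have h6 : ∫ v, f v * (T ^ ((n : ℝ) - 1) *
        ∫ v', f v' * Real.exp (-(T ^ 2 * ‖Y v - Y v'‖ ^ 2 / 4)) ∂σ) ∂σ =
      T ^ ((n : ℝ) - 1) * ∫ v, f v * ∫ v', f v' * Real.exp (-(T ^ 2 * ‖Y v - Y v'‖ ^ 2 / 4)) ∂σ
        ∂σ := by
    rw [← integral_const_mul]
    refine integral_congr_ae (Eventually.of_forall fun v => ?_)
    simp only
    ring
  rw [h6, ← mul_assoc, ← j25770_const T hT, ← hc, mul_assoc, ← h5]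
  exact mul_le_mul_of_nonneg_left h1 (by positivity)

theorem j25770_lim {S : Type} [TopologicalSpace S] [CompactSpace S] [MeasurableSpace S]
    [BorelSpace S] [SecondCountableTopology S] {n : ℕ} (σ : Measure S) [IsFiniteMeasure σ]
    (Y : S → E n) (f : S → ℝ) (hY : Continuous Y) (hf : Continuous f)
    (hf0 : ∀ v, 0 ≤ f v) (C L : ℝ)
    (hC : ∀ v : S, ∀ T : ℝ, 1 ≤ T → T ^ ((n : ℝ) - 1) *
      ∫ v', f v' * Real.exp (-(T ^ 2 * ‖Y v - Y v'‖ ^ 2 / 4)) ∂σ ≤ C)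
    (hL : ∀ v : S, Tendsto (fun T : ℝ => T ^ ((n : ℝ) - 1) *
      ∫ v', f v' * Real.exp (-(T ^ 2 * ‖Y v - Y v'‖ ^ 2 / 4)) ∂σ) atTop (𝓝 L)) :
    Tendsto (fun T : ℝ => ∫ v, f v * (T ^ ((n : ℝ) - 1) *
        ∫ v', f v' * Real.exp (-(T ^ 2 * ‖Y v - Y v'‖ ^ 2 / 4)) ∂σ) ∂σ) atTop
      (𝓝 (∫ v, f v * L ∂σ)) := by
  apply tendsto_integral_filter_of_dominated_convergence (fun v => f v * C)
  · refine Eventually.of_forall fun T => ?_
    apply AEStronglyMeasurable.mul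
    · exact hf.aestronglyMeasurable
    · exact (j25770_cont σ Y f hY hf T).const_mul _
  · filter_upwards [eventually_ge_atTop (1 : ℝ)] with T hT
    refine Eventually.of_forall fun v => ?_
    have h1 : 0 ≤ T ^ ((n : ℝ) - 1) *
        ∫ v', f v' * Real.exp (-(T ^ 2 * ‖Y v - Y v'‖ ^ 2 / 4)) ∂σ := by
      apply mul_nonneg (by positivity)
      apply integral_nonneg
      intro v'
      exact mul_nonneg (hf0 _) (Real.exp_pos _).le
    rw [Real.norm_eq_abs, abs_of_nonneg (mul_nonneg (hf0 v) h1)]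
    exact mul_le_mul_of_nonneg_left (hC v T hT) (hf0 v)
  · apply j25770_int
    fun_prop
  · refine Eventually.of_forall fun v => ?_
    exact (hL v).const_mul _

theorem j25770_bd {S : Type} [TopologicalSpace S] [CompactSpace S] [MeasurableSpace S]
    [BorelSpace S] [SecondCountableTopology S] {n : ℕ} (hn : 2 ≤ n) (σ : Measure S)
    [IsFiniteMeasure σ] (Y : S → E n) (f : S → ℝ) (hY : Continuous Y) (hf : Continuous f)
    (hf0 : ∀ v, 0 ≤ f v) (C : ℝ)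
    (hC : ∀ v : S, ∀ T : ℝ, 1 ≤ T → T ^ ((n : ℝ) - 1) *
      ∫ v', f v' * Real.exp (-(T ^ 2 * ‖Y v - Y v'‖ ^ 2 / 4)) ∂σ ≤ C) :
    ∃ C' : ℝ, ∀ T : ℝ, 0 < T → ∫ v, f v * (T ^ ((n : ℝ) - 1) *
        ∫ v', f v' * Real.exp (-(T ^ 2 * ‖Y v - Y v'‖ ^ 2 / 4)) ∂σ) ∂σ ≤ C' := by
  obtain ⟨D, hD⟩ : ∃ D : ℝ, D = max C (∫ v', f v' ∂σ) := ⟨_, rfl⟩
  have hfint : Integrable f σ := j25770_int σ f hf
  have hmain : ∀ T : ℝ, 0 < T → ∀ v, T ^ ((n : ℝ) - 1) *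
      ∫ v', f v' * Real.exp (-(T ^ 2 * ‖Y v - Y v'‖ ^ 2 / 4)) ∂σ ≤ D := by
    intro T hT v
    rcases le_total 1 T with h | h
    · exact (hC v T h).trans (by rw [hD]; exact le_max_left _ _)
    · have hn1 : (0 : ℝ) ≤ (n : ℝ) - 1 := by
        have : (2 : ℝ) ≤ n := by exact_mod_cast hn
        linarith
      have h1 : T ^ ((n : ℝ) - 1) ≤ 1 := Real.rpow_le_one hT.le h hn1
      have h2 : 0 ≤ ∫ v', f v' * Real.exp (-(T ^ 2 * ‖Y v - Y v'‖ ^ 2 / 4)) ∂σ := by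
        apply integral_nonneg
        intro v'
        exact mul_nonneg (hf0 _) (Real.exp_pos _).le
      have h3 : ∫ v', f v' * Real.exp (-(T ^ 2 * ‖Y v - Y v'‖ ^ 2 / 4)) ∂σ ≤ ∫ v', f v' ∂σ := by
        apply integral_mono
        · apply j25770_int
          fun_prop
        · exact hfint
        · intro v'
          simp only
          have h4 : Real.exp (-(T ^ 2 * ‖Y v - Y v'‖ ^ 2 / 4)) ≤ 1 := by
            rw [Real.exp_le_one_iff]
            have : 0 ≤ T ^ 2 * ‖Y v - Y v'‖ ^ 2 / 4 := by positivity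
            linarith
          have := mul_le_mul_of_nonneg_left h4 (hf0 v')
          linarith
      calc T ^ ((n : ℝ) - 1) * ∫ v', f v' * Real.exp (-(T ^ 2 * ‖Y v - Y v'‖ ^ 2 / 4)) ∂σ
          ≤ 1 * ∫ v', f v' * Real.exp (-(T ^ 2 * ‖Y v - Y v'‖ ^ 2 / 4)) ∂σ :=
            mul_le_mul_of_nonneg_right h1 h2
        _ ≤ ∫ v', f v' ∂σ := by rw [one_mul]; exact h3
        _ ≤ D := by rw [hD]; exact le_max_right _ _
  have hD0 : 0 ≤ D := by
    rw [hD]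
    exact le_max_of_le_right (integral_nonneg hf0)
  refine ⟨∫ v, f v * D ∂σ, fun T hT => ?_⟩
  apply integral_mono_of_nonneg
  · refine Eventually.of_forall fun v => ?_
    apply mul_nonneg (hf0 v)
    apply mul_nonneg (by positivity)
    apply integral_nonneg
    intro v'
    exact mul_nonneg (hf0 _) (Real.exp_pos _).le
  · exact hfint.mul_const D
  · refine Eventually.of_forall fun v => ?_
    exact mul_le_mul_of_nonneg_left (hmain T hT v) (hf0 v)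

theorem j25770_const2 (n : ℕ) : Real.pi ^ ((n : ℝ) / 2) * (4 * Real.pi) ^ (((n : ℝ) - 1) / 2) =
    Real.sqrt Real.pi * (2 * Real.pi) ^ ((n : ℝ) - 1) := by
  have hpi := Real.pi_pos
  have h4 : (4 * Real.pi) ^ (((n : ℝ) - 1) / 2) =
      (2 : ℝ) ^ ((n : ℝ) - 1) * Real.pi ^ (((n : ℝ) - 1) / 2) := by
    rw [Real.mul_rpow (by norm_num) hpi.le]
    congr 1
    have : (4 : ℝ) = (2 : ℝ) ^ (2 : ℝ) := by norm_num
    rw [this, ← Real.rpow_mul (by norm_num)]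
    congr 1
    ring
  rw [h4, Real.mul_rpow (by norm_num) hpi.le, Real.sqrt_eq_rpow]
  have h5 : Real.pi ^ ((n : ℝ) / 2) * ((2 : ℝ) ^ ((n : ℝ) - 1) * Real.pi ^ (((n : ℝ) - 1) / 2)) =
      (2 : ℝ) ^ ((n : ℝ) - 1) * (Real.pi ^ ((n : ℝ) / 2) * Real.pi ^ (((n : ℝ) - 1) / 2)) := by ring
  have h6 : Real.pi ^ ((1 : ℝ) / 2) * ((2 : ℝ) ^ ((n : ℝ) - 1) * Real.pi ^ ((n : ℝ) - 1)) =
      (2 : ℝ) ^ ((n : ℝ) - 1) * (Real.pi ^ ((1 : ℝ) / 2) * Real.pi ^ ((n : ℝ) - 1)) := by ring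
  rw [h5, h6, ← Real.rpow_add hpi, ← Real.rpow_add hpi]
  congr 2
  ring

theorem j25770_fd {n : ℕ} (ξ e : E n) (x : E n) :
    fderiv ℝ (fun x : E n => Complex.exp (Complex.I * ((⟪ξ, x⟫ : ℝ) : ℂ))) x e =
      Complex.I * ((⟪ξ, e⟫ : ℝ) : ℂ) * Complex.exp (Complex.I * ((⟪ξ, x⟫ : ℝ) : ℂ)) := by
  obtain ⟨L, hL⟩ : ∃ L : E n →L[ℝ] ℂ, L = Complex.I • (Complex.ofRealCLM.comp (innerSL ℝ ξ)) :=
    ⟨_, rfl⟩
  have hLx : ∀ y : E n, L y = Complex.I * ((⟪ξ, y⟫ : ℝ) : ℂ) := by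
    intro y
    rw [hL]
    rfl
  have h1 : HasFDerivAt (fun x : E n => Complex.exp (L x)) (Complex.exp (L x) • L) x :=
    L.hasFDerivAt.cexp
  have h2 : (fun x : E n => Complex.exp (Complex.I * ((⟪ξ, x⟫ : ℝ) : ℂ))) =
      fun x : E n => Complex.exp (L x) := by
    funext y
    rw [hLx]
  rw [h2, h1.fderiv]
  show Complex.exp (L x) * L e = _
  rw [hLx, hLx]
  ring

theorem stG8 (h3 : StmtG3) (h7 : StmtG7) (h8a : StmtG8a) : StmtG8 := by
  intro n hn K h X hG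
  obtain ⟨hcurv, hcpos, -, hXc, -, -⟩ := h3 n hn K h X hG
  have hne : ∀ v : sphere (0 : E n) 1, (v : E n) ≠ 0 := by
    intro v hv
    have := v.2
    rw [mem_sphere_zero_iff_norm, hv, norm_zero] at this
    norm_num at this
  have hfc : Continuous (fun v : sphere (0 : E n) 1 => curv X (v : E n)) :=
    hcurv.comp_continuous continuous_subtype_val (fun v => hne v)
  have hYc : Continuous (fun v : sphere (0 : E n) 1 => X (v : E n)) :=
    hXc.comp_continuous continuous_subtype_val (fun v => hne v)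
  have hVc : Continuous (fun v : sphere (0 : E n) 1 => (v : E n)) := continuous_subtype_val
  have hfin : IsFiniteMeasure (sph n) := by unfold sph; infer_instance
  have hf0 : ∀ v : sphere (0 : E n) 1, 0 ≤ curv X (v : E n) := fun v => (hcpos _ (hne v)).le
  have hVn : ∀ v : sphere (0 : E n) 1, ‖(v : E n)‖ = 1 := fun v => by
    have := v.2
    rwa [mem_sphere_zero_iff_norm] at this
  have hΦ : ∀ ξ e : E n, Complex.I * ((⟪ξ, e⟫ : ℝ) : ℂ) * FK K ξ =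
      ∫ v : sphere (0 : E n) 1, (⟪(v : E n), e⟫ * curv X v) •
        Complex.exp (Complex.I * ((⟪ξ, X v⟫ : ℝ) : ℂ)) ∂(sph n) := by
    intro ξ e
    have hcd : ContDiff ℝ 1 (fun x : E n => Complex.exp (Complex.I * ((⟪ξ, x⟫ : ℝ) : ℂ))) := by
      apply ContDiff.cexp
      apply ContDiff.mul contDiff_const
      exact Complex.ofRealCLM.contDiff.comp (contDiff_const.inner ℝ contDiff_id)
    rw [← h7 n hn K h X hG _ e hcd]
    simp only [j25770_fd]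
    rw [integral_const_mul]
    rfl
  obtain ⟨⟨C, hC⟩, hL⟩ := h8a n hn K h X hG
  have key : ∀ T : ℝ, 0 < T →
      T⁻¹ * ∫ ξ : E n, Real.exp (-(‖ξ‖ ^ 2 / T ^ 2)) * (‖ξ‖ ^ 2 * ‖FK K ξ‖ ^ 2) ≤
      Real.pi ^ ((n : ℝ) / 2) * ∫ v : sphere (0 : E n) 1, curv X v * (T ^ ((n : ℝ) - 1) *
        ∫ v' : sphere (0 : E n) 1, curv X v' *
          Real.exp (-(T ^ 2 * ‖X v - X v'‖ ^ 2 / 4)) ∂(sph n)) ∂(sph n) := by
    intro T hT
    rw [j25770_C (sph n) (fun v : sphere (0 : E n) 1 => (v : E n))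
      (fun v : sphere (0 : E n) 1 => X (v : E n)) (fun v : sphere (0 : E n) 1 => curv X (v : E n))
      hVc hYc hfc (FK K) hΦ T hT]
    exact j25770_D (sph n) (fun v : sphere (0 : E n) 1 => (v : E n))
      (fun v : sphere (0 : E n) 1 => X (v : E n)) (fun v : sphere (0 : E n) 1 => curv X (v : E n))
      hVc hYc hfc hVn hf0 T hT
  constructor
  · obtain ⟨C', hC'⟩ := j25770_bd hn (sph n)
      (fun v : sphere (0 : E n) 1 => X (v : E n)) (fun v : sphere (0 : E n) 1 => curv X (v : E n))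
      hYc hfc hf0 C hC
    refine ⟨Real.pi ^ ((n : ℝ) / 2) * C', fun T hT => (key T hT).trans ?_⟩
    exact mul_le_mul_of_nonneg_left (hC' T hT) (by positivity)
  · intro η hη
    have h1 := j25770_lim (sph n)
      (fun v : sphere (0 : E n) 1 => X (v : E n)) (fun v : sphere (0 : E n) 1 => curv X (v : E n))
      hYc hfc hf0 C _ hC hL
    have h2 := h1.const_mul (Real.pi ^ ((n : ℝ) / 2))
    have h3 : Real.pi ^ ((n : ℝ) / 2) * ∫ v : sphere (0 : E n) 1, curv X v *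
        (4 * Real.pi) ^ (((n : ℝ) - 1) / 2) ∂(sph n) =
        Real.sqrt Real.pi * (2 * Real.pi) ^ ((n : ℝ) - 1) *
          (∫ v : sphere (0 : E n) 1, curv X v ∂(sph n)) := by
      rw [integral_mul_const, ← j25770_const2]
      ring
    rw [h3] at h2
    have h4 := h2.eventually_lt_const (u := Real.sqrt Real.pi * (2 * Real.pi) ^ ((n : ℝ) - 1) *
          (∫ v : sphere (0 : E n) 1, curv X v ∂(sph n)) + η) (by linarith)
    filter_upwards [h4, eventually_gt_atTop (0 : ℝ)] with T hT hT0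
    exact (key T hT0).trans (le_of_lt hT)

end Pool.Agent.Helper890.Cov.JG8
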