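import Mathlib
import Pool.Agent.Helper890.Cov.StG




namespace Pool.Agent.Helper890.Cov.JG8a
open MeasureTheory Set Filter Topology Metric
open scoped RealInnerProductSpace

theorem stG8a_gaussInt {n : ℕ} {b : ℝ} (hb : 0 < b) :
    Integrable (fun y : E n => Real.exp (-b * ‖y‖ ^ 2)) := by
  have h := (GaussianFourier.integrable_cexp_neg_mul_sq_norm_add (V := E n)
    (b := (b : ℂ)) (by simpa using hb) 0 0).norm
  refine h.congr (ae_of_all _ fun y => ?_)
  show ‖Complex.exp _‖ = Real.exp _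
  rw [Complex.norm_exp]
  congr 1
  simp [← Complex.ofReal_pow]

theorem stG8a_low {n : ℕ} (hn : 2 ≤ n) {K : Set (E n)} {h : E n → ℝ} {X : E n → E n}
    (hG : Good K h X) (h1 : StmtG1) :
    ∃ c : ℝ, 0 < c ∧ ∀ v η : E n, ‖v‖ = 1 → η ≠ 0 →
      c * ‖η - v‖ ^ 2 ≤ ‖X v - X η‖ ^ 2 + (‖η‖ - 1) ^ 2 := by
  obtain ⟨c1, C, hc1, H⟩ := h1 n hn K h X hG
  refine ⟨min (1 / 2) (c1 ^ 2 / 2), by positivity, fun v η hv hη => ?_⟩
  have hη0 : 0 < ‖η‖ := norm_pos_iff.2 hη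
  set u : E n := ‖η‖⁻¹ • η with hu
  have hu1 : ‖u‖ = 1 := by
    rw [hu, norm_smul, norm_inv, norm_norm]
    exact inv_mul_cancel₀ hη0.ne'
  have hu0 : u ≠ 0 := by
    intro h0
    rw [h0, norm_zero] at hu1
    exact zero_ne_one hu1
  have hηu : η = ‖η‖ • u := by
    rw [hu, smul_smul, mul_inv_cancel₀ hη0.ne', one_smul]
  have hX : X η = X u := by
    conv_lhs => rw [hηu]
    exact hG.homogX _ _ hη0 hu0
  have h2 := (H u v hu1 hv).2.2.1
  have h3 : ‖η - v‖ ≤ |‖η‖ - 1| + ‖u - v‖ := by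
    have e : η - v = (‖η‖ - 1) • u + (u - v) := by
      rw [sub_smul, one_smul, ← hηu]
      abel
    rw [e]
    refine (norm_add_le _ _).trans ?_
    rw [norm_smul, hu1, mul_one, Real.norm_eq_abs]
  have h4 : ‖η - v‖ ^ 2 ≤ 2 * (‖η‖ - 1) ^ 2 + 2 * ‖u - v‖ ^ 2 := by
    have h5 : ‖η - v‖ ^ 2 ≤ (|‖η‖ - 1| + ‖u - v‖) ^ 2 :=
      pow_le_pow_left₀ (norm_nonneg _) h3 2
    have h6 : |‖η‖ - 1| ^ 2 = (‖η‖ - 1) ^ 2 := sq_abs _
    nlinarith [sq_nonneg (|‖η‖ - 1| - ‖u - v‖)]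
  have h5 : c1 ^ 2 * ‖u - v‖ ^ 2 ≤ ‖X v - X η‖ ^ 2 := by
    rw [hX, norm_sub_rev (X v), ← mul_pow]
    exact pow_le_pow_left₀ (by positivity) h2 2
  have m1 : min (1 / 2) (c1 ^ 2 / 2) ≤ 1 / 2 := min_le_left _ _
  have m2 : min (1 / 2) (c1 ^ 2 / 2) ≤ c1 ^ 2 / 2 := min_le_right _ _
  have m0 : 0 ≤ min (1 / 2) (c1 ^ 2 / 2) := by positivity
  have h6 := mul_le_mul_of_nonneg_left h4 m0
  have h7 := mul_le_mul_of_nonneg_right m1 (sq_nonneg (‖η‖ - 1))
  have h8 := mul_le_mul_of_nonneg_right m2 (sq_nonneg ‖u - v‖)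
  nlinarith

theorem stG8a_bd {n : ℕ} {X : E n → E n} (hc : ContinuousOn (curv X) {0}ᶜ)
    (hhom : ∀ (r : ℝ) (u : E n), 0 < r → u ≠ 0 → curv X (r • u) = curv X u) :
    ∃ M : ℝ, 0 ≤ M ∧ ∀ η : E n, η ≠ 0 → curv X η ≤ M := by
  have hcs : ContinuousOn (curv X) (sphere (0 : E n) 1) := by
    refine hc.mono fun u hu => ?_
    rw [mem_sphere_zero_iff_norm] at hu
    intro h0
    rw [mem_singleton_iff] at h0
    rw [h0, norm_zero] at hu
    exact zero_ne_one hu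
  obtain ⟨M, hM⟩ := (isCompact_sphere (0 : E n) 1).exists_bound_of_continuousOn hcs
  refine ⟨max M 0, le_max_right _ _, fun η hη => ?_⟩
  have hη0 : 0 < ‖η‖ := norm_pos_iff.2 hη
  rw [← hhom (‖η‖⁻¹) η (inv_pos.2 hη0) hη]
  have hm : ‖η‖⁻¹ • η ∈ sphere (0 : E n) 1 := by
    rw [mem_sphere_zero_iff_norm, norm_smul, norm_inv, norm_norm]
    exact inv_mul_cancel₀ hη0.ne'
  exact (le_abs_self _).trans ((hM _ hm).trans (le_max_left _ _))

/-- the integrand -/
noncomputable def stG8a_F {n : ℕ} (X : E n → E n) (v : E n) (T : ℝ) (η : E n) : ℝ :=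
  curv X η * Real.exp (-(T ^ 2 * (‖X v - X η‖ ^ 2 + (‖η‖ - 1) ^ 2) / 4))

theorem stG8a_radial (n : ℕ) (hn : 2 ≤ n) :
    (∀ T : ℝ, 1 ≤ T → Real.exp (-(1 / 4)) ≤
      T * ∫ r in Ioi (0 : ℝ), r ^ (n - 1) * Real.exp (-(T ^ 2 * (r - 1) ^ 2 / 4))) ∧
    Tendsto (fun T : ℝ => T * ∫ r in Ioi (0 : ℝ),
      r ^ (n - 1) * Real.exp (-(T ^ 2 * (r - 1) ^ 2 / 4))) atTop (𝓝 (Real.sqrt (4 * Real.pi))) := by
  have hk : n - 1 ≠ 0 := by omega
  set k := n - 1 with hkdef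
  have key : ∀ T : ℝ, 0 < T → T * ∫ r in Ioi (0 : ℝ),
      r ^ k * Real.exp (-(T ^ 2 * (r - 1) ^ 2 / 4)) =
      ∫ s : ℝ, (max (1 + T⁻¹ * s) 0) ^ k * Real.exp (-(1 / 4) * s ^ 2) := by
    intro T hT
    have e1 : ∫ r in Ioi (0 : ℝ), r ^ k * Real.exp (-(T ^ 2 * (r - 1) ^ 2 / 4)) =
        ∫ r : ℝ, (max r 0) ^ k * Real.exp (-(T ^ 2 * (r - 1) ^ 2 / 4)) := by
      rw [← integral_indicator measurableSet_Ioi]
      congr 1
      funext r
      by_cases hr : r ∈ Ioi (0 : ℝ)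
      · rw [indicator_of_mem hr, max_eq_left (le_of_lt hr)]
      · rw [indicator_of_notMem hr, max_eq_right (not_lt.1 hr), zero_pow hk, zero_mul]
    have e2 := integral_add_left_eq_self (μ := (volume : Measure ℝ))
      (fun r : ℝ => (max r 0) ^ k * Real.exp (-(T ^ 2 * (r - 1) ^ 2 / 4))) 1
    have e3 := Measure.integral_comp_mul_left
      (fun r : ℝ => (max (1 + r) 0) ^ k * Real.exp (-(T ^ 2 * ((1 + r) - 1) ^ 2 / 4))) T⁻¹
    rw [inv_inv, abs_of_pos hT, smul_eq_mul] at e3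
    rw [e1, ← e2, ← e3]
    congr 1
    funext s
    congr 2
    field_simp
    ring
  have hbd : ∀ T : ℝ, 1 ≤ T → ∀ s : ℝ,
      ‖(max (1 + T⁻¹ * s) 0) ^ k * Real.exp (-(1 / 4) * s ^ 2)‖ ≤
      Real.exp (2 * (k : ℝ) ^ 2) * Real.exp (-(1 / 8) * s ^ 2) := by
    intro T hT s
    have hT0 : 0 < T := by linarith
    rw [Real.norm_of_nonneg (by positivity)]
    have a1 : max (1 + T⁻¹ * s) 0 ≤ Real.exp |s| := by
      apply max_le _ (Real.exp_pos _).le
      have : T⁻¹ * s ≤ |s| := by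
        refine (le_abs_self _).trans ?_
        rw [abs_mul, abs_of_pos (inv_pos.2 hT0)]
        have : T⁻¹ ≤ 1 := inv_le_one_of_one_le₀ hT
        nlinarith [abs_nonneg s]
      have h2 := Real.add_one_le_exp |s|
      linarith
    have a2 : (max (1 + T⁻¹ * s) 0) ^ k ≤ Real.exp (k * |s|) := by
      rw [Real.exp_nat_mul]
      exact pow_le_pow_left₀ (le_max_right _ _) a1 k
    calc (max (1 + T⁻¹ * s) 0) ^ k * Real.exp (-(1 / 4) * s ^ 2)
        ≤ Real.exp (k * |s|) * Real.exp (-(1 / 4) * s ^ 2) :=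
          mul_le_mul_of_nonneg_right a2 (Real.exp_pos _).le
      _ = Real.exp (k * |s| + -(1 / 4) * s ^ 2) := (Real.exp_add _ _).symm
      _ ≤ Real.exp (2 * (k : ℝ) ^ 2 + -(1 / 8) * s ^ 2) := by
          apply Real.exp_le_exp.2
          nlinarith [sq_nonneg (|s| - 4 * (k : ℝ)), sq_abs s]
      _ = _ := Real.exp_add _ _
  have hbi : Integrable (fun s : ℝ => Real.exp (2 * (k : ℝ) ^ 2) * Real.exp (-(1 / 8) * s ^ 2)) :=
    (integrable_exp_neg_mul_sq (by norm_num)).const_mul _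
  have hcont : ∀ T : ℝ, Continuous
      (fun s : ℝ => (max (1 + T⁻¹ * s) 0) ^ k * Real.exp (-(1 / 4) * s ^ 2)) := by
    intro T
    fun_prop
  constructor
  · intro T hT
    have hT0 : 0 < T := by linarith
    rw [key T hT0]
    have hint : Integrable
        (fun s : ℝ => (max (1 + T⁻¹ * s) 0) ^ k * Real.exp (-(1 / 4) * s ^ 2)) :=
      hbi.mono' (hcont T).aestronglyMeasurable (ae_of_all _ (hbd T hT))
    calc Real.exp (-(1 / 4)) = ∫ s in Icc (0 : ℝ) 1, Real.exp (-(1 / 4)) := by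
          rw [setIntegral_const]
          simp
      _ ≤ ∫ s in Icc (0 : ℝ) 1, (max (1 + T⁻¹ * s) 0) ^ k * Real.exp (-(1 / 4) * s ^ 2) := by
          apply setIntegral_mono_on _ hint.integrableOn measurableSet_Icc
          · intro s hs
            have h1 : (1 : ℝ) ≤ max (1 + T⁻¹ * s) 0 := by
              apply le_max_of_le_left
              have := mul_nonneg (inv_pos.2 hT0).le hs.1
              linarith
            have h2 : (1 : ℝ) ≤ (max (1 + T⁻¹ * s) 0) ^ k := one_le_pow₀ h1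
            have h3 : Real.exp (-(1 / 4)) ≤ Real.exp (-(1 / 4) * s ^ 2) := by
              apply Real.exp_le_exp.2
              nlinarith [hs.1, hs.2]
            calc Real.exp (-(1 / 4)) ≤ 1 * Real.exp (-(1 / 4) * s ^ 2) := by rw [one_mul]; exact h3
              _ ≤ _ := mul_le_mul_of_nonneg_right h2 (Real.exp_pos _).le
          · exact integrableOn_const (by simp)
      _ ≤ ∫ s : ℝ, (max (1 + T⁻¹ * s) 0) ^ k * Real.exp (-(1 / 4) * s ^ 2) :=
          setIntegral_le_integral hint (ae_of_all _ fun s => by positivity)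
  · have hlim : Tendsto (fun T : ℝ => ∫ s : ℝ,
        (max (1 + T⁻¹ * s) 0) ^ k * Real.exp (-(1 / 4) * s ^ 2)) atTop
        (𝓝 (∫ s : ℝ, Real.exp (-(1 / 4) * s ^ 2))) := by
      apply tendsto_integral_filter_of_dominated_convergence
        (fun s : ℝ => Real.exp (2 * (k : ℝ) ^ 2) * Real.exp (-(1 / 8) * s ^ 2))
      · exact Eventually.of_forall fun T => (hcont T).aestronglyMeasurable
      · filter_upwards [eventually_ge_atTop (1 : ℝ)] with T hT
        exact ae_of_all _ (hbd T hT)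
      · exact hbi
      · refine ae_of_all _ fun s => ?_
        have h1 : Tendsto (fun T : ℝ => 1 + T⁻¹ * s) atTop (𝓝 (1 + 0 * s)) :=
          (tendsto_inv_atTop_zero.mul_const s).const_add 1
        have h2 : Tendsto (fun T : ℝ => (max (1 + T⁻¹ * s) 0) ^ k * Real.exp (-(1 / 4) * s ^ 2))
            atTop (𝓝 ((max (1 + 0 * s) 0) ^ k * Real.exp (-(1 / 4) * s ^ 2))) :=
          ((h1.max tendsto_const_nhds).pow k).mul_const _
        simpa using h2
    rw [integral_gaussian] at hlim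
    have e4 : Real.pi / (1 / 4) = 4 * Real.pi := by ring
    rw [e4] at hlim
    refine hlim.congr' ?_
    filter_upwards [eventually_gt_atTop (0 : ℝ)] with T hT
    exact (key T hT).symm

theorem stG8a_aene {n : ℕ} (hn : 2 ≤ n) (a : E n) : ∀ᵐ x : E n, x ≠ a := by
  have : Nonempty (Fin n) := ⟨⟨0, by omega⟩⟩
  have : Nontrivial (E n) := inferInstance
  exact compl_mem_ae_iff.2 (measure_singleton a)

theorem stG8a_aesm {n : ℕ} (hn : 2 ≤ n) {X : E n → E n} (hc : ContinuousOn (curv X) {0}ᶜ)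
    (hX : ContinuousOn X {0}ᶜ) (v : E n) (T : ℝ) :
    AEStronglyMeasurable (stG8a_F X v T) volume := by
  have hco : ContinuousOn (stG8a_F X v T) {0}ᶜ := by
    unfold stG8a_F
    refine hc.mul (Real.continuous_exp.comp_continuousOn ?_)
    refine ContinuousOn.neg (ContinuousOn.div_const ?_ 4)
    refine continuousOn_const.mul (ContinuousOn.add ?_ ?_)
    · exact (continuousOn_const.sub hX).norm.pow 2
    · exact (continuousOn_id.norm.sub continuousOn_const).pow 2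
  have h2 := hco.aestronglyMeasurable (μ := (volume : Measure (E n)))
    (isOpen_compl_singleton.measurableSet)
  have hr : (volume : Measure (E n)).restrict {0}ᶜ = volume := by
    refine Measure.restrict_eq_self_of_ae_mem ?_
    filter_upwards [stG8a_aene hn (0 : E n)] with x hx
    exact hx
  rwa [hr] at h2

theorem stG8a_Fle {n : ℕ} {X : E n → E n} {c M : ℝ} {v η : E n} (hη : η ≠ 0)
    (hpos : ∀ u : E n, u ≠ 0 → 0 < curv X u) (hM : ∀ η : E n, η ≠ 0 → curv X η ≤ M)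
    (hlow : c * ‖η - v‖ ^ 2 ≤ ‖X v - X η‖ ^ 2 + (‖η‖ - 1) ^ 2) (T : ℝ) :
    ‖stG8a_F X v T η‖ ≤ M * Real.exp (-(T ^ 2 * (c * ‖η - v‖ ^ 2) / 4)) := by
  unfold stG8a_F
  rw [Real.norm_of_nonneg (mul_nonneg (hpos η hη).le (Real.exp_pos _).le)]
  refine mul_le_mul (hM η hη) (Real.exp_le_exp.2 ?_) (Real.exp_pos _).le
    ((hpos η hη).le.trans (hM η hη))
  have := mul_le_mul_of_nonneg_left hlow (sq_nonneg T)
  linarith

theorem stG8a_int {n : ℕ} (hn : 2 ≤ n) {X : E n → E n} (hc : ContinuousOn (curv X) {0}ᶜ)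
    (hX : ContinuousOn X {0}ᶜ) (hpos : ∀ u : E n, u ≠ 0 → 0 < curv X u) {c M : ℝ} (hc0 : 0 < c)
    (hM : ∀ η : E n, η ≠ 0 → curv X η ≤ M) {v : E n}
    (hlow : ∀ η : E n, η ≠ 0 → c * ‖η - v‖ ^ 2 ≤ ‖X v - X η‖ ^ 2 + (‖η‖ - 1) ^ 2) {T : ℝ}
    (hT : 0 < T) : Integrable (stG8a_F X v T) := by
  have hb : 0 < c * T ^ 2 / 4 := by positivity
  have hg := ((stG8a_gaussInt (n := n) hb).comp_sub_right v).const_mul M
  refine hg.mono' (stG8a_aesm hn hc hX v T) ?_
  filter_upwards [stG8a_aene hn (0 : E n)] with η hη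
  refine (stG8a_Fle hη hpos hM (hlow η hη) T).trans (le_of_eq ?_)
  congr 2
  ring

theorem stG8a_sub {n : ℕ} (X : E n → E n) (v : E n) {T : ℝ} (hT : 0 < T) :
    ∫ y : E n, stG8a_F X v T (v + T⁻¹ • y) = T ^ n * ∫ η : E n, stG8a_F X v T η := by
  have e2 := integral_add_left_eq_self (μ := (volume : Measure (E n))) (stG8a_F X v T) v
  have e3 := Measure.integral_comp_smul (volume : Measure (E n))
    (fun z => stG8a_F X v T (v + z)) T⁻¹
  rw [e3, e2, finrank_euclideanSpace_fin, inv_pow, inv_inv, abs_of_pos (pow_pos hT n), smul_eq_mul]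

theorem stG8a_polar {n : ℕ} (hn : 2 ≤ n) (hP : StmtP) {X : E n → E n} (v : E n) {T : ℝ}
    (hcr : ∀ (r : ℝ) (u : E n), 0 < r → u ≠ 0 → curv X (r • u) = curv X u)
    (hXr : ∀ (r : ℝ) (u : E n), 0 < r → u ≠ 0 → X (r • u) = X u)
    (hint : Integrable (stG8a_F X v T)) :
    ∫ η : E n, stG8a_F X v T η =
      (∫ r in Ioi (0 : ℝ), r ^ (n - 1) * Real.exp (-(T ^ 2 * (r - 1) ^ 2 / 4))) *
      ∫ v' : sphere (0 : E n) 1, curv X v' * Real.exp (-(T ^ 2 * ‖X v - X v'‖ ^ 2 / 4)) ∂(sph n) := by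
  rw [(hP n hn).1 _ hint, ← integral_const_mul]
  congr 1
  funext v'
  have hv'1 : ‖(v' : E n)‖ = 1 := mem_sphere_zero_iff_norm.1 v'.2
  have hv'0 : (v' : E n) ≠ 0 := by
    intro h0
    rw [h0, norm_zero] at hv'1
    exact zero_ne_one hv'1
  rw [mul_comm, ← integral_const_mul]
  refine setIntegral_congr_fun measurableSet_Ioi fun r hr => ?_
  have hr0 : (0 : ℝ) < r := hr
  show r ^ (n - 1) * stG8a_F X v T (r • (v' : E n)) = _
  unfold stG8a_F
  rw [hcr r _ hr0 hv'0, hXr r _ hr0 hv'0, norm_smul, hv'1, mul_one, Real.norm_of_nonneg hr0.le]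
  have e : -(T ^ 2 * (‖X v - X (v' : E n)‖ ^ 2 + (r - 1) ^ 2) / 4) =
      -(T ^ 2 * ‖X v - X (v' : E n)‖ ^ 2 / 4) + -(T ^ 2 * (r - 1) ^ 2 / 4) := by ring
  rw [e, Real.exp_add]
  ring

theorem stG8a_BB {n : ℕ} {K : Set (E n)} {h : E n → ℝ} {X : E n → E n} (hG : Good K h X)
    {v : E n} (hv : ‖v‖ = 1) (y : E n) :
    ‖BB X v y‖ ^ 2 = ‖fderiv ℝ X v y‖ ^ 2 + ⟪v, y⟫ ^ 2 := by
  have hv0 : v ≠ 0 := by
    intro h0
    rw [h0, norm_zero] at hv
    exact zero_ne_one hv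
  have hd : HasFDerivAt X (fderiv ℝ X v) v :=
    ((hG.c1.contDiffAt (isOpen_compl_singleton.mem_nhds hv0)).differentiableAt
      (by norm_num)).hasFDerivAt
  have hDv : fderiv ℝ X v v = 0 := by
    have h1 := hd.lim_real v
    have h2 : Tendsto (fun c : ℝ => c • (X (v + c⁻¹ • v) - X v)) atTop (𝓝 0) := by
      refine tendsto_const_nhds.congr' ?_
      filter_upwards [eventually_gt_atTop (0 : ℝ)] with c hc
      have e : v + c⁻¹ • v = (1 + c⁻¹) • v := by rw [add_smul, one_smul]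
      rw [e, hG.homogX _ _ (by positivity) hv0, sub_self, smul_zero]
    exact tendsto_nhds_unique h1 h2
  have hor : ⟪fderiv ℝ X v y, v⟫ = 0 := by
    rw [hG.symm v hv0 y v, hDv, inner_zero_right]
  have e : BB X v y = fderiv ℝ X v y + ⟪v, y⟫ • v := by
    simp [BB, hv]
  rw [e, norm_add_sq_real, inner_smul_right, hor, norm_smul, hv, mul_one, Real.norm_eq_abs, sq_abs]
  ring

theorem stG8a_gauss {n : ℕ} (B : E n →L[ℝ] E n) (hB : 0 < B.det) :
    ∫ y : E n, Real.exp (-(1 / 4) * ‖B y‖ ^ 2) = B.det⁻¹ * (4 * Real.pi) ^ ((n : ℝ) / 2) := by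
  have hdet : LinearMap.det (B : E n →ₗ[ℝ] E n) = B.det := rfl
  have h1 := Measure.map_linearMap_addHaar_eq_smul_addHaar (volume : Measure (E n))
    (f := (B : E n →ₗ[ℝ] E n)) (by rw [hdet]; exact hB.ne')
  have h2 : ∫ y : E n, Real.exp (-(1 / 4) * ‖B y‖ ^ 2) =
      ∫ z, Real.exp (-(1 / 4) * ‖z‖ ^ 2) ∂(Measure.map (B : E n →ₗ[ℝ] E n) volume) := by
    rw [integral_map]
    · rfl
    · exact B.continuous.aemeasurable
    · exact (by fun_prop : Continuous (fun z : E n => Real.exp (-(1 / 4) * ‖z‖ ^ 2))).aestronglyMeasurable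
  rw [h2, h1, integral_smul_measure, GaussianFourier.integral_rexp_neg_mul_sq_norm (by norm_num),
    finrank_euclideanSpace_fin, hdet, ENNReal.toReal_ofReal (abs_nonneg _),
    abs_of_pos (inv_pos.2 hB), smul_eq_mul]
  congr 2
  ring

theorem stG8a_lim {n : ℕ} (hn : 2 ≤ n) {K : Set (E n)} {h : E n → ℝ} {X : E n → E n}
    (hG : Good K h X) (hc : ContinuousOn (curv X) {0}ᶜ)
    (hX : ContinuousOn X {0}ᶜ) (hpos : ∀ u : E n, u ≠ 0 → 0 < curv X u) {c M : ℝ} (hc0 : 0 < c)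
    (hM : ∀ η : E n, η ≠ 0 → curv X η ≤ M) {v : E n} (hv : ‖v‖ = 1)
    (hlow : ∀ η : E n, η ≠ 0 → c * ‖η - v‖ ^ 2 ≤ ‖X v - X η‖ ^ 2 + (‖η‖ - 1) ^ 2) :
    (∀ T : ℝ, 0 < T → ∫ y : E n, stG8a_F X v T (v + T⁻¹ • y) ≤
      ∫ y : E n, M * Real.exp (-(c / 4) * ‖y‖ ^ 2)) ∧
    Tendsto (fun T : ℝ => ∫ y : E n, stG8a_F X v T (v + T⁻¹ • y)) atTop
      (𝓝 ((4 * Real.pi) ^ ((n : ℝ) / 2))) := by
  have hv0 : v ≠ 0 := by
    intro h0
    rw [h0, norm_zero] at hv
    exact zero_ne_one hv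
  have hbi : Integrable (fun y : E n => M * Real.exp (-(c / 4) * ‖y‖ ^ 2)) :=
    (stG8a_gaussInt (by positivity)).const_mul M
  have hFi : ∀ T : ℝ, 0 < T → Integrable (fun y : E n => stG8a_F X v T (v + T⁻¹ • y)) := by
    intro T hT
    have h1 := (stG8a_int hn hc hX hpos hc0 hM hlow hT).comp_add_left v
    exact (integrable_comp_smul_iff (volume : Measure (E n)) (fun z => stG8a_F X v T (v + z))
      (inv_ne_zero hT.ne')).2 h1
  have hle : ∀ T : ℝ, 0 < T → ∀ᵐ y : E n, ‖stG8a_F X v T (v + T⁻¹ • y)‖ ≤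
      M * Real.exp (-(c / 4) * ‖y‖ ^ 2) := by
    intro T hT
    filter_upwards [stG8a_aene hn (-(T • v))] with y hy
    have hη : v + T⁻¹ • y ≠ 0 := by
      intro h0
      apply hy
      have h1 : T • (v + T⁻¹ • y) = 0 := by rw [h0, smul_zero]
      rw [smul_add, smul_smul, mul_inv_cancel₀ hT.ne', one_smul] at h1
      exact eq_neg_of_add_eq_zero_right h1
    refine (stG8a_Fle hη hpos hM (hlow _ hη) T).trans (le_of_eq ?_)
    rw [add_sub_cancel_left, norm_smul, norm_inv, Real.norm_of_nonneg hT.le]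
    congr 2
    field_simp
  constructor
  · intro T hT
    refine integral_mono_ae (hFi T hT) hbi ?_
    filter_upwards [hle T hT] with y hy
    exact (le_abs_self _).trans hy
  · have hlim : Tendsto (fun T : ℝ => ∫ y : E n, stG8a_F X v T (v + T⁻¹ • y)) atTop
        (𝓝 (∫ y : E n, curv X v * Real.exp (-(1 / 4) * ‖BB X v y‖ ^ 2))) := by
      apply tendsto_integral_filter_of_dominated_convergence
        (fun y : E n => M * Real.exp (-(c / 4) * ‖y‖ ^ 2))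
      · filter_upwards [eventually_gt_atTop (0 : ℝ)] with T hT
        exact (hFi T hT).aestronglyMeasurable
      · filter_upwards [eventually_gt_atTop (0 : ℝ)] with T hT
        exact hle T hT
      · exact hbi
      · refine ae_of_all _ fun y => ?_
        have hd : HasFDerivAt X (fderiv ℝ X v) v :=
          ((hG.c1.contDiffAt (isOpen_compl_singleton.mem_nhds hv0)).differentiableAt
            (by norm_num)).hasFDerivAt
        have t0 : Tendsto (fun T : ℝ => v + T⁻¹ • y) atTop (𝓝 v) := by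
          have := (tendsto_inv_atTop_zero (𝕜 := ℝ)).smul_const y
          rw [zero_smul] at this
          simpa using this.const_add v
        have t1 : Tendsto (fun T : ℝ => curv X (v + T⁻¹ • y)) atTop (𝓝 (curv X v)) :=
          ((hc.continuousAt (isOpen_compl_singleton.mem_nhds hv0)).tendsto).comp t0
        have t2 : Tendsto (fun T : ℝ => ‖T • (X (v + T⁻¹ • y) - X v)‖ ^ 2) atTop
            (𝓝 (‖fderiv ℝ X v y‖ ^ 2)) := ((hd.lim_real y).norm).pow 2
        have t3 : Tendsto (fun T : ℝ => (2 * ⟪v, y⟫ + T⁻¹ * ‖y‖ ^ 2) / (‖v + T⁻¹ • y‖ + 1)) atTop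
            (𝓝 ((2 * ⟪v, y⟫ + 0 * ‖y‖ ^ 2) / (‖v‖ + 1))) := by
          refine Tendsto.div ((tendsto_inv_atTop_zero.mul_const _).const_add _)
            (t0.norm.add_const 1) ?_
          rw [hv]
          norm_num
        have e3 : (2 * ⟪v, y⟫ + 0 * ‖y‖ ^ 2) / (‖v‖ + 1) = ⟪v, y⟫ := by
          rw [hv]
          ring
        rw [e3] at t3
        have t4 : Tendsto (fun T : ℝ => curv X (v + T⁻¹ • y) * Real.exp (-(1 / 4) *
            (‖T • (X (v + T⁻¹ • y) - X v)‖ ^ 2 +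
              ((2 * ⟪v, y⟫ + T⁻¹ * ‖y‖ ^ 2) / (‖v + T⁻¹ • y‖ + 1)) ^ 2))) atTop
            (𝓝 (curv X v * Real.exp (-(1 / 4) * (‖fderiv ℝ X v y‖ ^ 2 + ⟪v, y⟫ ^ 2)))) :=
          t1.mul ((Real.continuous_exp.tendsto _).comp ((t2.add (t3.pow 2)).const_mul _))
        rw [stG8a_BB hG hv y]
        refine t4.congr' ?_
        filter_upwards [eventually_gt_atTop (0 : ℝ)] with T hT
        unfold stG8a_F
        congr 2
        have q1 : ‖T • (X (v + T⁻¹ • y) - X v)‖ ^ 2 = T ^ 2 * ‖X v - X (v + T⁻¹ • y)‖ ^ 2 := by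
          rw [norm_smul, Real.norm_of_nonneg hT.le, mul_pow, norm_sub_rev]
        have q2 : (2 * ⟪v, y⟫ + T⁻¹ * ‖y‖ ^ 2) / (‖v + T⁻¹ • y‖ + 1) =
            T * (‖v + T⁻¹ • y‖ - 1) := by
          rw [div_eq_iff (by positivity)]
          have q3 : ‖v + T⁻¹ • y‖ ^ 2 = 1 + 2 * (T⁻¹ * ⟪v, y⟫) + T⁻¹ ^ 2 * ‖y‖ ^ 2 := by
            rw [norm_add_sq_real, hv, inner_smul_right, norm_smul, Real.norm_of_nonneg
              (inv_pos.2 hT).le]
            ring
          have q4 : T * (‖v + T⁻¹ • y‖ - 1) * (‖v + T⁻¹ • y‖ + 1) =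
              T * (‖v + T⁻¹ • y‖ ^ 2 - 1) := by ring
          rw [q4, q3]
          field_simp
          ring
        rw [q1, q2]
        ring
    rw [integral_const_mul, stG8a_gauss (BB X v) (hpos v hv0)] at hlim
    have e5 : curv X v * ((BB X v).det⁻¹ * (4 * Real.pi) ^ ((n : ℝ) / 2)) =
        (4 * Real.pi) ^ ((n : ℝ) / 2) := by
      show curv X v * ((curv X v)⁻¹ * _) = _
      rw [← mul_assoc, mul_inv_cancel₀ (hpos v hv0).ne', one_mul]
    rwa [e5] at hlim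

theorem stG8a (h1 : StmtG1) (h3 : StmtG3) (hP : StmtP) : StmtG8a := by
  intro n hn K h X hG
  obtain ⟨hc, hpos, hcr, hX, _, _⟩ := h3 n hn K h X hG
  obtain ⟨c, hc0, hlow⟩ := stG8a_low hn hG h1
  obtain ⟨M, hM0, hM⟩ := stG8a_bd hc hcr
  obtain ⟨hA1, hA2⟩ := stG8a_radial n hn
  have hmain : ∀ v : sphere (0 : E n) 1, ∀ T : ℝ, 1 ≤ T →
      T ^ ((n : ℝ) - 1) *
        ∫ v' : sphere (0 : E n) 1, curv X v' * Real.exp (-(T ^ 2 * ‖X v - X v'‖ ^ 2 / 4)) ∂(sph n) =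
      (∫ y : E n, stG8a_F X v T ((v : E n) + T⁻¹ • y)) / (T * ∫ r in Ioi (0 : ℝ),
        r ^ (n - 1) * Real.exp (-(T ^ 2 * (r - 1) ^ 2 / 4))) := by
    intro v T hT
    have hT0 : 0 < T := by linarith
    have hv : ‖(v : E n)‖ = 1 := mem_sphere_zero_iff_norm.1 v.2
    have hApos := lt_of_lt_of_le (Real.exp_pos _) (hA1 T hT)
    rw [eq_div_iff hApos.ne', stG8a_sub X v hT0, stG8a_polar hn hP v hcr hG.homogX
      (stG8a_int hn hc hX hpos hc0 hM (fun η hη => hlow v η hv hη) hT0)]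
    have e1 : T ^ ((n : ℝ) - 1) = T ^ (n - 1) := by
      rw [← Real.rpow_natCast, Nat.cast_sub (by omega)]
      simp
    have e2 : T ^ n = T ^ (n - 1) * T := by
      rw [← pow_succ]
      congr 1
      omega
    rw [e1, e2]
    ring
  constructor
  · refine ⟨(∫ y : E n, M * Real.exp (-(c / 4) * ‖y‖ ^ 2)) / Real.exp (-(1 / 4)),
      fun v T hT => ?_⟩
    have hT0 : 0 < T := by linarith
    have hv : ‖(v : E n)‖ = 1 := mem_sphere_zero_iff_norm.1 v.2
    rw [hmain v T hT]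
    have hI : 0 ≤ ∫ y : E n, M * Real.exp (-(c / 4) * ‖y‖ ^ 2) :=
      integral_nonneg fun y => by positivity
    exact div_le_div₀ hI ((stG8a_lim hn hG hc hX hpos hc0 hM hv
      (fun η hη => hlow v η hv hη)).1 T hT0) (Real.exp_pos _) (hA1 T hT)
  · intro v
    have hv : ‖(v : E n)‖ = 1 := mem_sphere_zero_iff_norm.1 v.2
    have hl := (stG8a_lim hn hG hc hX hpos hc0 hM hv (fun η hη => hlow v η hv hη)).2
    have hs : Real.sqrt (4 * Real.pi) ≠ 0 := by positivity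
    have hd := hl.div hA2 hs
    have e : (4 * Real.pi) ^ ((n : ℝ) / 2) / Real.sqrt (4 * Real.pi) =
        (4 * Real.pi) ^ (((n : ℝ) - 1) / 2) := by
      rw [Real.sqrt_eq_rpow, ← Real.rpow_sub (by positivity)]
      congr 1
      ring
    rw [e] at hd
    refine hd.congr' ?_
    filter_upwards [eventually_ge_atTop (1 : ℝ)] with T hT
    exact (hmain v T hT).symm

end Pool.Agent.Helper890.Cov.JG8a
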