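import Mathlib
import Pool.Agent.Helper890.Cov.StG




namespace Pool.Agent.Helper890.Cov.JG9
open MeasureTheory Set Filter Topology Metric
open scoped RealInnerProductSpace

lemma g9_gauss : ∫⁻ w : ℝ, ENNReal.ofReal (Real.exp (-w^2)) = ENNReal.ofReal (Real.sqrt Real.pi) := by
  have h := integral_gaussian 1
  have hi : Integrable (fun w : ℝ => Real.exp (-w^2)) := by
    have := integrable_exp_neg_mul_sq (b := 1) one_pos
    simpa using this
  rw [← ofReal_integral_eq_lintegral_ofReal hi (Filter.Eventually.of_forall fun w => (Real.exp_pos _).le)]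
  congr 1
  simpa using h

lemma g9_J {a : ℝ} (ha : 0 < a) :
    ∫⁻ u in Ioi (0:ℝ), ENNReal.ofReal (Real.exp (-(u - a / u)^2)) =
      ENNReal.ofReal (Real.sqrt Real.pi / 2) := by
  set J := ∫⁻ u in Ioi (0:ℝ), ENNReal.ofReal (Real.exp (-(u - a / u)^2)) with hJ
  -- first substitution
  have h1 : J = ∫⁻ u in Ioi (0:ℝ), ENNReal.ofReal (a / u^2) * ENNReal.ofReal (Real.exp (-(u - a / u)^2)) := by
    have hd : ∀ u ∈ Ioi (0:ℝ), HasDerivWithinAt (fun u : ℝ => a / u) (-(a / u^2)) (Ioi 0) u := by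
      intro u hu
      have hu0 : u ≠ 0 := ne_of_gt hu
      have h := ((hasDerivAt_inv hu0).const_mul a)
      have h' : HasDerivAt (fun u : ℝ => a / u) (-(a / u^2)) u := by
        have e : (fun u : ℝ => a / u) = fun y => a * y⁻¹ := by
          funext y; rw [div_eq_mul_inv]
        rw [e]
        refine h.congr_deriv ?_
        rw [div_eq_mul_inv]; ring
      exact h'.hasDerivWithinAt
    have hinj : InjOn (fun u : ℝ => a / u) (Ioi 0) := by
      intro u hu v hv huv
      have hu0 : u ≠ 0 := ne_of_gt hu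
      have hv0 : v ≠ 0 := ne_of_gt hv
      simp only at huv
      field_simp at huv
      exact huv.symm
    have himg : (fun u : ℝ => a / u) '' (Ioi 0) = Ioi 0 := by
      ext w
      constructor
      · rintro ⟨u, hu, rfl⟩
        exact div_pos ha hu
      · intro hw
        refine ⟨a / w, div_pos ha hw, ?_⟩
        have hw0 : w ≠ 0 := ne_of_gt hw
        simp only
        field_simp
    have := lintegral_image_eq_lintegral_abs_deriv_mul measurableSet_Ioi hd hinj
      (fun w => ENNReal.ofReal (Real.exp (-(w - a / w)^2)))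
    rw [himg] at this
    rw [hJ, this]
    refine setLIntegral_congr_fun measurableSet_Ioi ?_
    intro u hu
    have hu0 : u ≠ 0 := ne_of_gt hu
    simp only
    have e1 : |(-(a / u^2))| = a / u^2 := by
      rw [abs_neg, abs_of_nonneg (by positivity)]
    have e2 : (a / u - a / (a / u))^2 = (u - a / u)^2 := by
      field_simp
      ring
    rw [e1, e2]
  have h2 : J + J = ENNReal.ofReal (Real.sqrt Real.pi) := by
    have hd : ∀ u ∈ Ioi (0:ℝ), HasDerivWithinAt (fun u : ℝ => u - a / u) (1 + a / u^2) (Ioi 0) u := by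
      intro u hu
      have hu0 : u ≠ 0 := ne_of_gt hu
      have h := ((hasDerivAt_id u).sub ((hasDerivAt_inv hu0).const_mul a))
      have h' : HasDerivAt (fun u : ℝ => u - a / u) (1 + a / u^2) u := by
        have e : (fun u : ℝ => u - a / u) = (id - fun y => a * y⁻¹) := by
          funext y; simp [div_eq_mul_inv]
        rw [e]
        refine h.congr_deriv ?_
        rw [div_eq_mul_inv]; ring
      exact h'.hasDerivWithinAt
    have hmono : StrictMonoOn (fun u : ℝ => u - a / u) (Ioi 0) := by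
      intro u hu v hv huv
      simp only
      have : a / v < a / u := div_lt_div_of_pos_left ha hu huv
      linarith
    have himg : (fun u : ℝ => u - a / u) '' (Ioi 0) = univ := by
      refine eq_univ_of_forall fun w => ?_
      have hs : 0 ≤ w^2 + 4 * a := by positivity
      have hs2 : Real.sqrt (w^2 + 4*a) ^ 2 = w^2 + 4*a := Real.sq_sqrt hs
      have hgt : |w| < Real.sqrt (w^2 + 4*a) := by
        rw [← Real.sqrt_sq_eq_abs]
        exact Real.sqrt_lt_sqrt (sq_nonneg _) (by linarith)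
      have hpos : 0 < (w + Real.sqrt (w^2 + 4*a)) / 2 := by
        have := neg_abs_le w
        linarith
      refine ⟨(w + Real.sqrt (w^2 + 4*a)) / 2, hpos, ?_⟩
      simp only
      have hne : (w + Real.sqrt (w^2 + 4*a)) ≠ 0 := by
        intro h0; rw [h0] at hpos; simp at hpos
      field_simp
      nlinarith [hs2]
    have := lintegral_image_eq_lintegral_abs_deriv_mul measurableSet_Ioi hd hmono.injOn
      (fun w => ENNReal.ofReal (Real.exp (-w^2)))
    rw [himg, setLIntegral_univ, g9_gauss] at this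
    rw [this]
    nth_rewrite 2 [h1]
    rw [hJ, ← lintegral_add_left (by fun_prop)]
    refine setLIntegral_congr_fun measurableSet_Ioi ?_
    intro u hu
    have hu0 : u ≠ 0 := ne_of_gt hu
    simp only
    rw [abs_of_pos (by positivity), ENNReal.ofReal_add (by norm_num) (by positivity), add_mul]
    simp
  have h3 : ENNReal.ofReal (Real.sqrt Real.pi) = ENNReal.ofReal (Real.sqrt Real.pi / 2) + ENNReal.ofReal (Real.sqrt Real.pi / 2) := by
    rw [← ENNReal.ofReal_add (by positivity) (by positivity)]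
    congr 1; ring
  have hfin : J ≠ ⊤ := by
    intro h
    rw [h] at h2
    simp at h2
  have h4 : 2 * J = 2 * ENNReal.ofReal (Real.sqrt Real.pi / 2) := by
    rw [two_mul, two_mul, h2, h3]
  exact (ENNReal.mul_right_inj (by norm_num) (by norm_num)).1 h4

lemma g9_sub {a : ℝ} (ha : 0 < a) :
    ENNReal.ofReal (Real.exp (-(2 * a))) = ∫⁻ u in Ioi (0:ℝ),
      ENNReal.ofReal (2 / Real.sqrt Real.pi * Real.exp (-u^2)) * ENNReal.ofReal (Real.exp (-(a^2 / u^2))) := by
  have hpi : 0 < Real.sqrt Real.pi := Real.sqrt_pos.2 Real.pi_pos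
  have h1 : ∀ u ∈ Ioi (0:ℝ), ENNReal.ofReal (2 / Real.sqrt Real.pi * Real.exp (-u^2)) * ENNReal.ofReal (Real.exp (-(a^2 / u^2)))
      = ENNReal.ofReal (2 / Real.sqrt Real.pi * Real.exp (-(2*a))) * ENNReal.ofReal (Real.exp (-(u - a / u)^2)) := by
    intro u hu
    have hu0 : u ≠ 0 := ne_of_gt hu
    rw [← ENNReal.ofReal_mul (by positivity), ← ENNReal.ofReal_mul (by positivity)]
    congr 1
    rw [mul_assoc, mul_assoc, ← Real.exp_add, ← Real.exp_add]
    congr 2
    field_simp
    ring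
  rw [setLIntegral_congr_fun measurableSet_Ioi h1, lintegral_const_mul _ (by fun_prop), g9_J ha,
    ← ENNReal.ofReal_mul (by positivity)]
  congr 1
  field_simp

lemma g9_exp : ∫⁻ u in Ioi (0:ℝ), ENNReal.ofReal (2 * u * Real.exp (-u^2)) = 1 := by
  have hderiv : ∀ x ∈ Ioi (0:ℝ), HasDerivAt (fun u : ℝ => -Real.exp (-u^2)) (2 * x * Real.exp (-x^2)) x := by
    intro x hx
    have h1 : HasDerivAt (fun u : ℝ => -u^2) (-(2 * x)) x := by
      have := (hasDerivAt_pow 2 x).neg
      refine HasDerivAt.congr_deriv (f := fun u : ℝ => -u^2) this ?_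
      simp
    have := h1.exp.neg
    refine HasDerivAt.congr_deriv (f := fun u : ℝ => -Real.exp (-u^2)) this ?_
    ring
  have hcont : ContinuousWithinAt (fun u : ℝ => -Real.exp (-u^2)) (Ici 0) 0 := by
    apply Continuous.continuousWithinAt; fun_prop
  have hlim : Tendsto (fun u : ℝ => -Real.exp (-u^2)) atTop (𝓝 0) := by
    have h1 : Tendsto (fun u : ℝ => -u^2) atTop atBot :=
      tendsto_neg_atTop_atBot.comp (tendsto_pow_atTop (by norm_num))
    have := (Real.tendsto_exp_atBot.comp h1).neg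
    simpa using this
  have hpos : ∀ x ∈ Ioi (0:ℝ), 0 ≤ 2 * x * Real.exp (-x^2) := by
    intro x hx
    have : (0:ℝ) < x := hx
    positivity
  have hint := integrableOn_Ioi_deriv_of_nonneg hcont hderiv hpos hlim
  have hval := integral_Ioi_of_hasDerivAt_of_nonneg hcont hderiv hpos hlim
  rw [← ofReal_integral_eq_lintegral_ofReal hint ((ae_restrict_iff' measurableSet_Ioi).2
    (Filter.Eventually.of_forall hpos)), hval]
  simp

lemma g9_core {Ω : Type*} [MeasurableSpace Ω] (μ : Measure Ω) [SFinite μ] (N G : Ω → ℝ)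
    (hN : Measurable N) (hG : Measurable G) (hN0 : ∀ x, 0 ≤ N x) (hG0 : ∀ x, 0 ≤ G x)
    (hNG : ∀ x, N x = 0 → G x = 0)
    (hint : ∀ τ : ℝ, 0 < τ → Integrable (fun x => Real.exp (-(N x ^ 2 / τ ^ 2)) * G x) μ)
    (C L : ℝ) (hC : ∀ T : ℝ, 0 < T → T⁻¹ * ∫ x, Real.exp (-(N x ^ 2 / T ^ 2)) * G x ∂μ ≤ C)
    (hL : ∀ η : ℝ, 0 < η → ∀ᶠ T : ℝ in atTop,
      T⁻¹ * ∫ x, Real.exp (-(N x ^ 2 / T ^ 2)) * G x ∂μ ≤ L + η) :
    ∀ η : ℝ, 0 < η → ∀ᶠ T : ℝ in atTop,
      T⁻¹ * ∫ x, Real.exp (-(N x / T)) * G x ∂μ ≤ 2 / Real.sqrt Real.pi * L + η := by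
  intro η hη
  have hpi : 0 < Real.sqrt Real.pi := Real.sqrt_pos.2 Real.pi_pos
  have hη' : 0 < Real.sqrt Real.pi * η / 4 := by positivity
  set η' := Real.sqrt Real.pi * η / 4 with hη'def
  set gg : ℝ → ℝ := fun τ => ∫ x, Real.exp (-(N x ^ 2 / τ ^ 2)) * G x ∂μ with hgg
  have hgg0 : ∀ τ, 0 ≤ gg τ := fun τ => integral_nonneg fun x => mul_nonneg (Real.exp_pos _).le (hG0 x)
  have hC0 : 0 ≤ C := by
    have h1 : (1:ℝ)⁻¹ * gg 1 ≤ C := hC 1 one_pos
    have h2 := hgg0 1
    rw [inv_one, one_mul] at h1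
    linarith
  have hCg : ∀ τ : ℝ, 0 < τ → gg τ ≤ τ * C := by
    intro τ hτ
    have := hC τ hτ
    rwa [inv_mul_le_iff₀ hτ] at this
  obtain ⟨T0, hT0⟩ := eventually_atTop.1 (hL η' hη')
  set T1 := max T0 1 with hT1
  have hT1pos : 0 < T1 := lt_of_lt_of_le one_pos (le_max_right _ _)
  have hLg : ∀ τ : ℝ, T1 ≤ τ → gg τ ≤ τ * (L + η') := by
    intro τ hτ
    have := hT0 τ (le_trans (le_max_left _ _) hτ)
    rwa [inv_mul_le_iff₀ (lt_of_lt_of_le hT1pos hτ)] at this
  have hLη : 0 ≤ L + η' := by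
    have h1 := hLg T1 le_rfl
    have h2 := hgg0 T1
    by_contra hcon
    push Not at hcon
    nlinarith
  -- main estimate
  have main : ∀ T : ℝ, 0 < T → ∫ x, Real.exp (-(N x / T)) * G x ∂μ ≤
      2 / Real.sqrt Real.pi * T * (L + η') + 2 / Real.sqrt Real.pi * (T1 * C) * (T1 / (2 * T)) := by
    intro T hT
    set A := 2 / Real.sqrt Real.pi * T * (L + η') with hA
    set B := 2 / Real.sqrt Real.pi * (T1 * C) with hB
    set δ := T1 / (2 * T) with hδ
    have hA0 : 0 ≤ A := by positivity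
    have hB0 : 0 ≤ B := by positivity
    have hδ0 : 0 ≤ δ := by positivity
    rw [integral_eq_lintegral_of_nonneg_ae (Filter.Eventually.of_forall fun x =>
      mul_nonneg (Real.exp_pos _).le (hG0 x)) (by
        apply Measurable.aestronglyMeasurable; fun_prop)]
    refine ENNReal.toReal_le_of_le_ofReal (by positivity) ?_
    have e1 : ∀ x, ENNReal.ofReal (Real.exp (-(N x / T)) * G x) =
        ∫⁻ u in Ioi (0:ℝ), ENNReal.ofReal (2 / Real.sqrt Real.pi * Real.exp (-u^2)) *
          ENNReal.ofReal (Real.exp (-(N x ^ 2 / (2 * u * T) ^ 2)) * G x) := by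
      intro x
      rcases eq_or_lt_of_le (hN0 x) with h0 | h0
      · have : G x = 0 := hNG x h0.symm
        simp [this]
      · have ha : 0 < N x / (2 * T) := by positivity
        have := g9_sub ha
        rw [ENNReal.ofReal_mul (Real.exp_pos _).le]
        have e : Real.exp (-(N x / T)) = Real.exp (-(2 * (N x / (2 * T)))) := by
          congr 1; field_simp
        rw [e, this, ← lintegral_mul_const _ (by fun_prop)]
        refine setLIntegral_congr_fun measurableSet_Ioi ?_
        intro u hu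
        have hu0 : u ≠ 0 := ne_of_gt hu
        simp only
        rw [ENNReal.ofReal_mul (p := Real.exp (-(N x ^ 2 / (2 * u * T) ^ 2))) (Real.exp_pos _).le, mul_assoc]
        congr 4
        field_simp
    simp_rw [e1]
    rw [lintegral_lintegral_swap (by
      apply Measurable.aemeasurable; fun_prop)]
    have e2 : ∀ u ∈ Ioi (0:ℝ), ∫⁻ x, ENNReal.ofReal (2 / Real.sqrt Real.pi * Real.exp (-u^2)) *
          ENNReal.ofReal (Real.exp (-(N x ^ 2 / (2 * u * T) ^ 2)) * G x) ∂μ ≤
        ENNReal.ofReal A * ENNReal.ofReal (2 * u * Real.exp (-u^2)) + (Ioo 0 δ).indicator (fun _ => ENNReal.ofReal B) u := by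
      intro u hu
      have hu0 : 0 < u := hu
      rw [lintegral_const_mul _ (by fun_prop), ← ofReal_integral_eq_lintegral_ofReal (hint (2 * u * T) (by positivity))
        (Filter.Eventually.of_forall fun x => mul_nonneg (Real.exp_pos _).le (hG0 x)),
        ← ENNReal.ofReal_mul (by positivity)]
      change ENNReal.ofReal (2 / Real.sqrt Real.pi * Real.exp (-u^2) * gg (2 * u * T)) ≤ _
      by_cases hcase : T1 ≤ 2 * u * T
      · refine le_trans ?_ le_self_add
        rw [← ENNReal.ofReal_mul hA0]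
        refine ENNReal.ofReal_le_ofReal ?_
        have h1 := hLg _ hcase
        calc 2 / Real.sqrt Real.pi * Real.exp (-u^2) * gg (2 * u * T)
            ≤ 2 / Real.sqrt Real.pi * Real.exp (-u^2) * (2 * u * T * (L + η')) := by gcongr
          _ = A * (2 * u * Real.exp (-u^2)) := by rw [hA]; ring
      · push Not at hcase
        refine le_trans ?_ le_add_self
        have hmem : u ∈ Ioo 0 δ := by
          refine ⟨hu0, ?_⟩
          rw [hδ, lt_div_iff₀ (by positivity)]
          linarith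
        rw [indicator_of_mem hmem]
        refine ENNReal.ofReal_le_ofReal ?_
        have h1 := hCg (2 * u * T) (by positivity)
        have h2 : Real.exp (-u^2) ≤ 1 := Real.exp_le_one_iff.2 (by nlinarith)
        calc 2 / Real.sqrt Real.pi * Real.exp (-u^2) * gg (2 * u * T)
            ≤ 2 / Real.sqrt Real.pi * 1 * (T1 * C) := by
              gcongr
              · exact hgg0 _
              · exact h1.trans (by gcongr)
          _ = B := by rw [hB]; ring
    calc _ ≤ ∫⁻ u in Ioi (0:ℝ), (ENNReal.ofReal A * ENNReal.ofReal (2 * u * Real.exp (-u^2)) +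
          (Ioo 0 δ).indicator (fun _ => ENNReal.ofReal B) u) := setLIntegral_mono (by
            exact Measurable.add (f := fun u : ℝ => ENNReal.ofReal A * ENNReal.ofReal (2 * u * Real.exp (-u^2)))
              (by fun_prop) (Measurable.indicator measurable_const measurableSet_Ioo)) e2
      _ = ENNReal.ofReal A * 1 + ∫⁻ u in Ioi (0:ℝ), (Ioo 0 δ).indicator (fun _ => ENNReal.ofReal B) u := by
          rw [lintegral_add_left (by fun_prop), lintegral_const_mul _ (by fun_prop), g9_exp]
      _ ≤ ENNReal.ofReal A * 1 + ∫⁻ u : ℝ, (Ioo 0 δ).indicator (fun _ => ENNReal.ofReal B) u := by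
          gcongr
          exact Measure.restrict_le_self
      _ = ENNReal.ofReal A + ENNReal.ofReal B * ENNReal.ofReal δ := by
          rw [lintegral_indicator measurableSet_Ioo, lintegral_const]
          simp
      _ = ENNReal.ofReal (A + B * δ) := by
          rw [← ENNReal.ofReal_mul hB0, ← ENNReal.ofReal_add hA0 (by positivity)]
  -- conclusion
  have hlim : Tendsto (fun T : ℝ => T1 * (T1 * C) / Real.sqrt Real.pi * (T ^ 2)⁻¹) atTop (𝓝 0) := by
    have h1 : Tendsto (fun T : ℝ => (T ^ 2)⁻¹) atTop (𝓝 0) :=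
      tendsto_inv_atTop_zero.comp (tendsto_pow_atTop (by norm_num))
    simpa using h1.const_mul (T1 * (T1 * C) / Real.sqrt Real.pi)
  have hev := hlim.eventually (gt_mem_nhds (show (0:ℝ) < η / 2 by positivity))
  filter_upwards [hev, eventually_gt_atTop 0] with T h1 hT
  have h2 := main T hT
  have h3 : T⁻¹ * ∫ x, Real.exp (-(N x / T)) * G x ∂μ ≤ T⁻¹ * (2 / Real.sqrt Real.pi * T * (L + η') + 2 / Real.sqrt Real.pi * (T1 * C) * (T1 / (2 * T))) := by
    gcongr
  refine h3.trans ?_
  have h4 : T⁻¹ * (2 / Real.sqrt Real.pi * T * (L + η') + 2 / Real.sqrt Real.pi * (T1 * C) * (T1 / (2 * T)))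
      = 2 / Real.sqrt Real.pi * L + η / 2 + T1 * (T1 * C) / Real.sqrt Real.pi * (T ^ 2)⁻¹ := by
    rw [hη'def]
    field_simp
    ring
  rw [h4]
  linarith

lemma g9_cont {n : ℕ} {K : Set (E n)} (hK : IsCompact K) : Continuous (FK K) := by
  have hfin : IsFiniteMeasure ((volume : Measure (E n)).restrict K) := ⟨by
    rw [Measure.restrict_apply_univ]; exact hK.measure_lt_top⟩
  refine continuous_of_dominated (bound := fun _ => 1) ?_ ?_ ?_ ?_
  · intro ξ
    apply Continuous.aestronglyMeasurable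
    fun_prop
  · intro ξ
    refine Filter.Eventually.of_forall fun x => ?_
    rw [mul_comm, Complex.norm_exp_ofReal_mul_I]
  · exact integrable_const _
  · refine Filter.Eventually.of_forall fun x => ?_
    fun_prop

lemma g9_bound {n : ℕ} {K : Set (E n)} (hK : IsCompact K) (ξ : E n) :
    ‖FK K ξ‖ ≤ (volume : Measure (E n)).real K := by
  have := norm_setIntegral_le_of_norm_le_const (μ := (volume : Measure (E n))) (s := K) (C := 1)
    (f := fun x => Complex.exp (Complex.I * (⟪ξ, x⟫ : ℝ))) hK.measure_lt_top (by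
      intro x _
      rw [mul_comm, Complex.norm_exp_ofReal_mul_I])
  simpa [FK] using this

lemma g9_int {n : ℕ} {b : ℝ} (hb : 0 < b) :
    Integrable (fun ξ : E n => Real.exp (-(b * ‖ξ‖ ^ 2))) := by
  have h := GaussianFourier.integrable_cexp_neg_mul_sq_norm_add (V := E n) (b := (b : ℂ)) (by simpa using hb) 0 0
  have h2 := h.norm
  refine h2.congr (Filter.Eventually.of_forall fun ξ => ?_)
  simp only [Complex.norm_exp]
  congr 1
  have : (-(b:ℂ) * (‖ξ‖:ℂ) ^ 2 + 0 * ((⟪(0 : E n), ξ⟫ : ℝ) : ℂ)) = ((-(b * ‖ξ‖^2) : ℝ) : ℂ) := by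
    push_cast; ring
  rw [this, Complex.ofReal_re]

theorem stG9 (h8 : StmtG8) : StmtG9 := by
  intro n hn K h X hgood
  obtain ⟨⟨C, hC⟩, hL⟩ := h8 n hn K h X hgood
  have hK := hgood.compact
  have hcont := g9_cont hK
  have hpi : 0 < Real.sqrt Real.pi := Real.sqrt_pos.2 Real.pi_pos
  have key := g9_core (volume : Measure (E n)) (fun ξ => ‖ξ‖) (fun ξ => ‖ξ‖ ^ 2 * ‖FK K ξ‖ ^ 2)
    (by fun_prop) (by
      apply Continuous.measurable; fun_prop) (fun ξ => norm_nonneg _) (fun ξ => by positivity)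
    (fun ξ h0 => by
      have h0' : ‖ξ‖ = 0 := h0
      simp [h0']) (by
      intro τ hτ
      have hb : 0 < 1 / (2 * τ ^ 2) := by positivity
      refine Integrable.mono' ((g9_int (n := n) hb).const_mul (2 * τ ^ 2 * (volume : Measure (E n)).real K ^ 2)) ?_ ?_
      · apply Continuous.aestronglyMeasurable; fun_prop
      · refine Filter.Eventually.of_forall fun ξ => ?_
        have hB := g9_bound hK ξ
        rw [Real.norm_of_nonneg (by positivity)]
        have e0 : ‖ξ‖ ^ 2 / (2 * τ ^ 2) ≤ Real.exp (‖ξ‖ ^ 2 / (2 * τ ^ 2)) := by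
          have := Real.add_one_le_exp (‖ξ‖ ^ 2 / (2 * τ ^ 2))
          linarith
        have e1 : ‖ξ‖ ^ 2 ≤ 2 * τ ^ 2 * Real.exp (‖ξ‖ ^ 2 / (2 * τ ^ 2)) := by
          rwa [div_le_iff₀' (by positivity)] at e0
        calc Real.exp (-(‖ξ‖ ^ 2 / τ ^ 2)) * (‖ξ‖ ^ 2 * ‖FK K ξ‖ ^ 2)
            ≤ Real.exp (-(‖ξ‖ ^ 2 / τ ^ 2)) * ((2 * τ ^ 2 * Real.exp (‖ξ‖ ^ 2 / (2 * τ ^ 2))) * (volume : Measure (E n)).real K ^ 2) := by
              gcongr
          _ = 2 * τ ^ 2 * (volume : Measure (E n)).real K ^ 2 * (Real.exp (-(‖ξ‖ ^ 2 / τ ^ 2)) * Real.exp (‖ξ‖ ^ 2 / (2 * τ ^ 2))) := by ring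
          _ = 2 * τ ^ 2 * (volume : Measure (E n)).real K ^ 2 * Real.exp (-(1 / (2 * τ ^ 2) * ‖ξ‖ ^ 2)) := by
              rw [← Real.exp_add]
              congr 2
              field_simp
              ring)
    C (Real.sqrt Real.pi * (2 * Real.pi) ^ ((n : ℝ) - 1) * (∫ v : sphere (0 : E n) 1, curv X v ∂(sph n))) hC hL
  intro η hη
  filter_upwards [key η hη] with T hT
  refine hT.trans (le_of_eq ?_)
  congr 1
  field_simp

end Pool.Agent.Helper890.Cov.JG9
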