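import Mathlib
import Pool.Agent.Helper890.Cov.StA
import Pool.Agent.Helper890.Cov.StB
import Pool.Agent.Helper890.Cov.StG
import Pool.Agent.Helper890.Cov.StF




namespace Pool.Agent.Helper890.Cov.JL2
open MeasureTheory Set Filter Topology Metric
open scoped RealInnerProductSpace

theorem FT_nuz761 {n : ℕ} (K : Set (E n)) (z : E n) (t : ℂ) :
    FT (nuz K z) t = ∫ x in K, Complex.exp (Complex.I * (t * ((⟪z, x⟫ : ℝ) : ℂ))) := by
  unfold FT nuz
  rw [integral_map]
  · simp only [mul_assoc]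
  · exact (continuous_const.inner continuous_id).measurable.aemeasurable
  · exact (by fun_prop : Continuous fun s : ℝ =>
      Complex.exp (Complex.I * t * (s : ℂ))).aestronglyMeasurable

theorem curv_smul761 {n : ℕ} {K : Set (E n)} {h : E n → ℝ} {X : E n → E n} (hG : Good K h X)
    {z : E n} (hz : z ≠ 0) {t : ℝ} (ht : 0 < t) : curv X (t • z) = curv X z := by
  have h1 : t • fderiv ℝ X (t • z) = fderiv ℝ X z := by
    rw [← fderiv_comp_smul]
    apply Filter.EventuallyEq.fderiv_eq
    filter_upwards [isOpen_ne.mem_nhds hz] with u hu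
    exact hG.homogX t u ht hu
  have h2 : fderiv ℝ X (t • z) = t⁻¹ • fderiv ℝ X z := by
    rw [← h1, smul_smul, inv_mul_cancel₀ ht.ne', one_smul]
  have h3 : BB X (t • z) = BB X z := by
    unfold BB
    have hz' : ‖z‖ ≠ 0 := norm_ne_zero_iff.2 hz
    rw [h2, norm_smul, Real.norm_eq_abs, abs_of_pos ht]
    congr 1
    · rw [smul_smul]
      congr 1
      field_simp
    · refine ContinuousLinearMap.ext fun w => ?_
      simp only [ContinuousLinearMap.smul_apply, ContinuousLinearMap.smulRight_apply,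
        innerSL_apply_apply, real_inner_smul_left, smul_smul]
      congr 1
      field_simp
  unfold curv
  rw [h3]

theorem stL2 : StmtL2 := by
  intro n hn K h X hG
  refine ⟨FT_nuz761 K, fun z hz R hR => ?_⟩
  unfold errI
  apply intervalIntegral.integral_congr_ae
  refine Filter.Eventually.of_forall fun t ht => ?_
  rw [uIoc_of_le (by linarith)] at ht
  have ht0 : 0 < t := ht.1
  have hzn : 0 < ‖z‖ := norm_pos_iff.2 hz
  have e1 : FT (nuz K z) (t : ℂ) = FK K (t • z) := by
    rw [FT_nuz761]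
    unfold FK
    simp only [real_inner_smul_left, Complex.ofReal_mul]
  have e2 : Mn (h z) (h (-z)) (amp X z) (amp X (-z)) (ph n) (t : ℂ) =
      ((t ^ kap n : ℝ) : ℂ) * Mhat h X (t • z) := by
    have c1 : curv X (t • z) = curv X z := curv_smul761 hG hz ht0
    have c2 : curv X (-(t • z)) = curv X (-z) := by
      rw [← smul_neg]
      exact curv_smul761 hG (neg_ne_zero.2 hz) ht0
    have c3 : h (t • z) = t * h z := hG.homog t z ht0.le
    have c4 : h (-(t • z)) = t * h (-z) := by
      rw [← smul_neg]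
      exact hG.homog t (-z) ht0.le
    have c5 : t ^ kap n * ‖t • z‖ ^ (-kap n) = ‖z‖ ^ (-kap n) := by
      rw [norm_smul, Real.norm_eq_abs, abs_of_pos ht0, Real.mul_rpow ht0.le hzn.le, ← mul_assoc,
        ← Real.rpow_add ht0, add_neg_cancel, Real.rpow_zero, one_mul]
    unfold Mn Mhat amp
    rw [c1, c2, c3, c4, norm_neg]
    have c6 : ((t ^ kap n : ℝ) : ℂ) * ((cc n * ‖t • z‖ ^ (-kap n) : ℝ) : ℂ) =
        ((cc n * ‖z‖ ^ (-kap n) : ℝ) : ℂ) := by
      rw [← Complex.ofReal_mul, ← c5]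
      congr 1
      ring
    rw [← mul_assoc, c6]
    push_cast
    ring
  have e3 : ((t ^ kap n) ^ 2 : ℝ) = t ^ (n + 1) := by
    rw [← Real.rpow_natCast, ← Real.rpow_mul ht0.le, ← Real.rpow_natCast]
    congr 1
    unfold kap
    push_cast
    ring
  show ‖((t ^ kap n : ℝ) : ℂ) * FT (nuz K z) (t : ℂ) -
    Mn (h z) (h (-z)) (amp X z) (amp X (-z)) (ph n) (t : ℂ)‖ ^ 2 =
    t ^ (n + 1) * ‖FK K (t • z) - Mhat h X (t • z)‖ ^ 2
  rw [e1, e2, ← mul_sub, norm_mul, mul_pow, Complex.norm_real, Real.norm_eq_abs,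
    abs_of_pos (Real.rpow_pos_of_pos ht0 _), e3]

end Pool.Agent.Helper890.Cov.JL2
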