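import Mathlib
import Pool.Agent.Helper890.Cov.StA
import Pool.Agent.Helper890.Cov.StB
import Pool.Agent.Helper890.Cov.StG
import Pool.Agent.Helper890.Cov.StF




namespace Pool.Agent.Helper890.Cov.JM
open MeasureTheory Set Filter Topology Metric
open scoped RealInnerProductSpace

section stM
variable {n : ℕ} {K : Set (E n)} {h : E n → ℝ} {X : E n → E n}

theorem stM_diff (G : Good K h X) {u : E n} (hu : u ≠ 0) : DifferentiableAt ℝ X u :=
  (G.c1.differentiableOn (by norm_num)).differentiableAt (isOpen_compl_singleton.mem_nhds hu)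

theorem stM_homog (G : Good K h X) {u : E n} (hu : u ≠ 0) {r : ℝ} (hr : 0 < r) :
    fderiv ℝ X u = r • fderiv ℝ X (r • u) := by
  have hru : r • u ≠ 0 := smul_ne_zero hr.ne' hu
  have h1 : HasFDerivAt X (fderiv ℝ X (r • u)) (r • u) := (stM_diff G hru).hasFDerivAt
  have h2 : HasFDerivAt (fun x : E n => r • x) (r • ContinuousLinearMap.id ℝ (E n)) u :=
    (hasFDerivAt_id u).const_smul r
  have h3 : HasFDerivAt (fun x => X (r • x))
      ((fderiv ℝ X (r • u)).comp (r • ContinuousLinearMap.id ℝ (E n))) u := h1.comp u h2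
  have h4 : (fun x => X (r • x)) =ᶠ[𝓝 u] X := by
    filter_upwards [isOpen_compl_singleton.mem_nhds hu] with x hx
    exact G.homogX r x hr hx
  have h5 := h3.congr_of_eventuallyEq h4.symm
  rw [h5.fderiv]
  ext1 w
  simp

theorem stM_radial (G : Good K h X) {u : E n} (hu : u ≠ 0) : fderiv ℝ X u u = 0 := by
  have h1 : HasFDerivAt X (fderiv ℝ X u) u := (stM_diff G hu).hasFDerivAt
  have h2 : HasDerivAt (fun t : ℝ => t • u) u 1 := by
    simpa using (hasDerivAt_id (1 : ℝ)).smul_const u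
  have h3 : HasDerivAt (fun t : ℝ => X (t • u)) (fderiv ℝ X u u) 1 := by
    have : HasFDerivAt X (fderiv ℝ X u) ((1 : ℝ) • u) := by rwa [one_smul]
    exact this.comp_hasDerivAt 1 h2
  have h4 : (fun t : ℝ => X (t • u)) =ᶠ[𝓝 1] fun _ => X u := by
    filter_upwards [Ioi_mem_nhds one_pos] with t ht
    exact G.homogX t u ht hu
  have h5 : HasDerivAt (fun _ : ℝ => X u) (fderiv ℝ X u u) 1 := h3.congr_of_eventuallyEq h4.symm
  exact h5.unique (hasDerivAt_const 1 (X u))

theorem stM_BB_apply (X : E n → E n) {v : E n} (hv : ‖v‖ = 1) (w : E n) :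
    BB X v w = fderiv ℝ X v w + ⟪v, w⟫ • v := by
  unfold BB
  simp [hv]

theorem stM_ne {v : E n} (hv : ‖v‖ = 1) : v ≠ 0 := by
  rintro rfl
  simp at hv

theorem stM_BB_symm (G : Good K h X) {v : E n} (hv : ‖v‖ = 1) (w w' : E n) :
    ⟪BB X v w, w'⟫ = ⟪w, BB X v w'⟫ := by
  rw [stM_BB_apply X hv, stM_BB_apply X hv, inner_add_left, inner_add_right,
    G.symm v (stM_ne hv), real_inner_smul_left, real_inner_smul_right, real_inner_comm v w]
  ring

theorem stM_BB_pos (G : Good K h X) {v : E n} (hv : ‖v‖ = 1) (w : E n) (hw : w ≠ 0) :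
    0 < ⟪BB X v w, w⟫ := by
  have hv0 := stM_ne hv
  set t : ℝ := ⟪v, w⟫ with ht
  set p : E n := w - t • v with hp
  have hvv : ⟪v, v⟫ = 1 := by rw [real_inner_self_eq_norm_sq, hv, one_pow]
  have hpv : ⟪p, v⟫ = 0 := by
    rw [hp, inner_sub_left, real_inner_smul_left, hvv, real_inner_comm]
    ring
  have hw' : w = p + t • v := by rw [hp]; abel
  have hD : fderiv ℝ X v w = fderiv ℝ X v p := by
    rw [hw', map_add, map_smul, stM_radial G hv0, smul_zero, add_zero]
  have h1 : ⟪fderiv ℝ X v p, w⟫ = ⟪fderiv ℝ X v p, p⟫ := by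
    have h2 : ⟪fderiv ℝ X v p, v⟫ = 0 := by
      rw [G.symm v hv0, stM_radial G hv0, inner_zero_right]
    conv_lhs => rw [hw', inner_add_right, real_inner_smul_right, h2]
    ring
  rw [stM_BB_apply X hv, inner_add_left, hD, h1, real_inner_smul_left, ← ht]
  by_cases hp0 : p = 0
  · have ht0 : t ≠ 0 := by
      intro ht0
      apply hw
      rw [hw', hp0, ht0]
      simp
    rw [hp0, inner_zero_right, zero_add]
    exact mul_self_pos.2 ht0
  · have h3 := G.pos v hv0 p hp0 hpv
    have h4 := mul_self_nonneg t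
    linarith

theorem stM_BB_cont (G : Good K h X) :
    Continuous (fun v : sphere (0 : E n) 1 => BB X (v : E n)) := by
  have h0 : ∀ v : sphere (0 : E n) 1, (v : E n) ≠ 0 := fun v => ne_zero_of_mem_unit_sphere v
  have h1 : Continuous (fun v : sphere (0 : E n) 1 => fderiv ℝ X (v : E n)) := by
    have h2 := G.c1.continuousOn_fderiv_of_isOpen isOpen_compl_singleton (by norm_num)
    exact h2.comp_continuous continuous_subtype_val (fun v => h0 v)
  have h2 : Continuous (fun u : E n => (innerSL ℝ u).smulRight u) := by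
    have h3 : Continuous (fun u : E n => ContinuousLinearMap.smulRightL ℝ (E n) (E n)
      (innerSL ℝ u)) := (ContinuousLinearMap.continuous _).comp (ContinuousLinearMap.continuous _)
    exact h3.clm_apply continuous_id
  have h4 : (fun v : sphere (0 : E n) 1 => BB X (v : E n)) =
      fun v : sphere (0 : E n) 1 => fderiv ℝ X (v : E n) +
        (innerSL ℝ (v : E n)).smulRight (v : E n) := by
    funext v
    unfold BB
    have : ‖(v : E n)‖ = 1 := norm_eq_of_mem_sphere v
    rw [this]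
    simp
  rw [h4]
  exact h1.add (h2.comp continuous_subtype_val)

end stM

/-- the mixed trace -/
noncomputable def stMT {n : ℕ} (XK XH : E n → E n) (v : E n) : ℝ :=
  LinearMap.trace ℝ (E n)
    (((BB XK v).comp (ContinuousLinearMap.inverse (BB XH v)) : E n →L[ℝ] E n) : E n →ₗ[ℝ] E n)

theorem stM_T_cont (h3 : StmtG3) {n : ℕ} (hn : 2 ≤ n) {K H : Set (E n)} {hK hH : E n → ℝ}
    {XK XH : E n → E n} (GK : Good K hK XK) (GH : Good H hH XH) :
    Continuous (fun v : sphere (0 : E n) 1 => stMT XK XH (v : E n)) := by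
  have htr : Continuous (fun C : E n →L[ℝ] E n =>
      LinearMap.trace ℝ (E n) (C : E n →ₗ[ℝ] E n)) :=
    LinearMap.continuous_of_finiteDimensional
      ((LinearMap.trace ℝ (E n)).comp (ContinuousLinearMap.coeLM ℝ))
  have hinv : Continuous (fun v : sphere (0 : E n) 1 =>
      ContinuousLinearMap.inverse (BB XH (v : E n))) := by
    rw [continuous_iff_continuousAt]
    intro v
    have hdet : (BB XH (v : E n)).det ≠ 0 :=
      ((h3 n hn H hH XH GH).2.1 v (ne_zero_of_mem_unit_sphere v)).ne'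
    have h1 := (contDiffAt_map_inverse (𝕜 := ℝ) (n := 0)
      ((BB XH (v : E n)).toContinuousLinearEquivOfDetNeZero hdet)).continuousAt
    rw [ContinuousLinearMap.coe_toContinuousLinearEquivOfDetNeZero] at h1
    exact ContinuousAt.comp (f := fun v : sphere (0 : E n) 1 => BB XH (v : E n)) h1
      (stM_BB_cont GH).continuousAt
  exact htr.comp ((stM_BB_cont GK).clm_comp hinv)

theorem stM_T_ge (h3 : StmtG3) (hM2 : StmtM2) {n : ℕ} (hn : 2 ≤ n) {K H : Set (E n)}
    {hK hH : E n → ℝ} {XK XH : E n → E n} (GK : Good K hK XK) (GH : Good H hH XH)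
    (hc : ∀ u, u ≠ 0 → curv XK u = curv XH u) {v : E n} (hv : ‖v‖ = 1) :
    (n : ℝ) ≤ stMT XK XH v ∧ (stMT XK XH v = n → BB XK v = BB XH v) := by
  have hv0 := stM_ne hv
  have hdet : (BB XH v).det ≠ 0 := ((h3 n hn H hH XH GH).2.1 v hv0).ne'
  refine hM2 n (by omega) (BB XK v) (BB XH v) _ (stM_BB_symm GK hv) (stM_BB_symm GH hv)
    (stM_BB_pos GK hv) (stM_BB_pos GH hv) (hc v hv0) ?_
  set e := (BB XH v).toContinuousLinearEquivOfDetNeZero hdet with he
  have he2 : (e : E n →L[ℝ] E n) = BB XH v :=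
    ContinuousLinearMap.coe_toContinuousLinearEquivOfDetNeZero _ _
  rw [← he2, ContinuousLinearMap.inverse_equiv]
  ext1 w
  simp

theorem stM_int {n : ℕ} {F : sphere (0 : E n) 1 → ℝ} (hF : Continuous F) :
    Integrable F (sph n) := by
  have : IsFiniteMeasure (sph n) := by
    unfold sph
    infer_instance
  have : CompactSpace (sphere (0 : E n) 1) := isCompact_iff_compactSpace.1 (isCompact_sphere 0 1)
  exact hF.integrable_of_hasCompactSupport (HasCompactSupport.of_compactSpace F)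

theorem stM_conts (h3 : StmtG3) {n : ℕ} (hn : 2 ≤ n) {K : Set (E n)} {h : E n → ℝ}
    {X : E n → E n} (G : Good K h X) :
    Continuous (fun v : sphere (0 : E n) 1 => curv X (v : E n)) ∧
      Continuous (fun v : sphere (0 : E n) 1 => h (v : E n)) ∧
      (∀ v : sphere (0 : E n) 1, 0 < curv X (v : E n)) ∧
      ∀ v : sphere (0 : E n) 1, 0 < h (v : E n) := by
  obtain ⟨a1, a2, a3, a4, a5, a6⟩ := h3 n hn K h X G
  have h0 : ∀ v : sphere (0 : E n) 1, (v : E n) ≠ 0 := fun v => ne_zero_of_mem_unit_sphere v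
  exact ⟨a1.comp_continuous continuous_subtype_val (fun v => h0 v),
    a5.comp continuous_subtype_val, fun v => a2 v (h0 v), fun v => a6 v (h0 v)⟩

theorem stM_ineq (h3 : StmtG3) (hM1 : StmtM1) (hM2 : StmtM2) {n : ℕ} (hn : 2 ≤ n)
    {K H : Set (E n)} {hK hH : E n → ℝ} {XK XH : E n → E n} (GK : Good K hK XK)
    (GH : Good H hH XH) (hc : ∀ u, u ≠ 0 → curv XK u = curv XH u) :
    ∫ v : sphere (0 : E n) 1, hH v * curv XH v ∂(sph n) ≤
      ∫ v : sphere (0 : E n) 1, hK v * curv XH v ∂(sph n) := by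
  obtain ⟨cK1, cK2, cK3, cK4⟩ := stM_conts h3 hn GK
  obtain ⟨cH1, cH2, cH3, cH4⟩ := stM_conts h3 hn GH
  have h1 := hM1 n hn K H hK hH XK XH GK GH
  have hT := stM_T_cont h3 hn GK GH
  have h2 : ∫ v : sphere (0 : E n) 1, (hK v * curv XH v + ((n : ℝ) - 1) * (hH v * curv XH v))
      ∂(sph n) ≤ ∫ v : sphere (0 : E n) 1, (hK v + hH v * (stMT XK XH v - 1)) * curv XH v
        ∂(sph n) := by
    apply integral_mono
    · exact stM_int ((cK2.mul cH1).add (continuous_const.mul (cH2.mul cH1)))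
    · exact stM_int ((cK2.add (cH2.mul (hT.sub continuous_const))).mul cH1)
    · intro v
      have h3 := (stM_T_ge h3 hM2 hn GK GH hc (norm_eq_of_mem_sphere v)).1
      have h4 := mul_pos (cH4 v) (cH3 v)
      have h5 : 0 ≤ hH v * curv XH v * (stMT XK XH v - n) :=
        mul_nonneg h4.le (by linarith)
      show hK v * curv XH v + ((n : ℝ) - 1) * (hH v * curv XH v) ≤
        (hK v + hH v * (stMT XK XH v - 1)) * curv XH v
      nlinarith
  have I1 : Integrable (fun v : sphere (0 : E n) 1 => hK v * curv XH v) (sph n) :=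
    stM_int (cK2.mul cH1)
  have I2 : Integrable (fun v : sphere (0 : E n) 1 => ((n : ℝ) - 1) * (hH v * curv XH v))
      (sph n) := stM_int (continuous_const.mul (cH2.mul cH1))
  rw [integral_add I1 I2, integral_const_mul] at h2
  have h3 : (n : ℝ) * ∫ v : sphere (0 : E n) 1, hK v * curv XH v ∂(sph n) =
      ∫ v : sphere (0 : E n) 1, (hK v + hH v * (stMT XK XH v - 1)) * curv XH v ∂(sph n) := h1
  rw [← h3] at h2
  have hn1 : (0 : ℝ) < (n : ℝ) - 1 := by
    have : (2 : ℝ) ≤ n := by exact_mod_cast hn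
    linarith
  generalize ∫ v : sphere (0 : E n) 1, hK v * curv XH v ∂(sph n) = A at *
  generalize ∫ v : sphere (0 : E n) 1, hH v * curv XH v ∂(sph n) = B at *
  have : ((n : ℝ) - 1) * B ≤ ((n : ℝ) - 1) * A := by linarith
  exact le_of_mul_le_mul_left this hn1

theorem stM_T_eq (h3 : StmtG3) (hM1 : StmtM1) (hM2 : StmtM2) {n : ℕ} (hn : 2 ≤ n)
    {K H : Set (E n)} {hK hH : E n → ℝ} {XK XH : E n → E n} (GK : Good K hK XK)
    (GH : Good H hH XH) (hc : ∀ u, u ≠ 0 → curv XK u = curv XH u) (v : sphere (0 : E n) 1) :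
    stMT XK XH v = n := by
  obtain ⟨cK1, cK2, cK3, cK4⟩ := stM_conts h3 hn GK
  obtain ⟨cH1, cH2, cH3, cH4⟩ := stM_conts h3 hn GH
  have hT := stM_T_cont h3 hn GK GH
  have i1 := stM_ineq h3 hM1 hM2 hn GK GH hc
  have i2 := stM_ineq h3 hM1 hM2 hn GH GK (fun u hu => (hc u hu).symm)
  have hce : (fun v : sphere (0 : E n) 1 => curv XK (v : E n)) =
      fun v : sphere (0 : E n) 1 => curv XH (v : E n) := by
    funext v
    exact hc v (ne_zero_of_mem_unit_sphere v)
  have hce1 : ∫ v : sphere (0 : E n) 1, hK v * curv XK v ∂(sph n) =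
      ∫ v : sphere (0 : E n) 1, hK v * curv XH v ∂(sph n) := by
    apply integral_congr_ae
    filter_upwards with v
    rw [hc v (ne_zero_of_mem_unit_sphere v)]
  have hce2 : ∫ v : sphere (0 : E n) 1, hH v * curv XK v ∂(sph n) =
      ∫ v : sphere (0 : E n) 1, hH v * curv XH v ∂(sph n) := by
    apply integral_congr_ae
    filter_upwards with v
    rw [hc v (ne_zero_of_mem_unit_sphere v)]
  rw [hce1, hce2] at i2
  have heq := le_antisymm i1 i2
  have h1 := hM1 n hn K H hK hH XK XH GK GH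
  have h2 : (n : ℝ) * ∫ v : sphere (0 : E n) 1, hK v * curv XH v ∂(sph n) =
      ∫ v : sphere (0 : E n) 1, (hK v + hH v * (stMT XK XH v - 1)) * curv XH v ∂(sph n) := h1
  have h4 : ∫ v : sphere (0 : E n) 1, (hK v + hH v * (stMT XK XH v - 1)) * curv XH v ∂(sph n) =
      (∫ v : sphere (0 : E n) 1, hK v * curv XH v ∂(sph n)) +
      (((n : ℝ) - 1) * (∫ v : sphere (0 : E n) 1, hH v * curv XH v ∂(sph n)) +
      ∫ v : sphere (0 : E n) 1, hH v * curv XH v * (stMT XK XH v - n) ∂(sph n)) := by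
    have I1 : Integrable (fun v : sphere (0 : E n) 1 => hK v * curv XH v) (sph n) :=
      stM_int (cK2.mul cH1)
    have I2 : Integrable (fun v : sphere (0 : E n) 1 => ((n : ℝ) - 1) * (hH v * curv XH v))
        (sph n) := stM_int (continuous_const.mul (cH2.mul cH1))
    have I3 : Integrable (fun v : sphere (0 : E n) 1 => hH v * curv XH v * (stMT XK XH v - n))
        (sph n) := stM_int ((cH2.mul cH1).mul (hT.sub continuous_const))
    have I4 : Integrable (fun v : sphere (0 : E n) 1 => ((n : ℝ) - 1) * (hH v * curv XH v) +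
        hH v * curv XH v * (stMT XK XH v - n)) (sph n) := I2.add I3
    rw [← integral_const_mul, ← integral_add I2 I3, ← integral_add I1 I4]
    apply integral_congr_ae
    filter_upwards with v
    ring
  have h5 : ∫ v : sphere (0 : E n) 1, hH v * curv XH v * (stMT XK XH v - n) ∂(sph n) = 0 := by
    rw [h4, heq] at h2
    linarith
  have hcont : Continuous (fun v : sphere (0 : E n) 1 => hH v * curv XH v * (stMT XK XH v - n)) :=
    (cH2.mul cH1).mul (hT.sub continuous_const)
  have hnn : 0 ≤ fun v : sphere (0 : E n) 1 => hH v * curv XH v * (stMT XK XH v - n) := by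
    intro v
    have h3 := (stM_T_ge h3 hM2 hn GK GH hc (norm_eq_of_mem_sphere v)).1
    exact mul_nonneg (mul_pos (cH4 v) (cH3 v)).le (by linarith)
  have : (sph n).IsOpenPosMeasure := by
    unfold sph
    infer_instance
  have h6 := (integral_eq_zero_iff_of_nonneg hnn (stM_int hcont)).1 h5
  have h7 : (fun v : sphere (0 : E n) 1 => hH v * curv XH v * (stMT XK XH v - n)) = 0 :=
    (hcont.ae_eq_iff_eq (sph n) continuous_const).1 h6
  have h8 := congrFun h7 v
  have h9 : hH v * curv XH v * (stMT XK XH v - n) = 0 := h8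
  rcases mul_eq_zero.1 h9 with h10 | h10
  · exact absurd h10 (mul_pos (cH4 v) (cH3 v)).ne'
  · linarith

theorem stM_fderiv (h3 : StmtG3) (hM1 : StmtM1) (hM2 : StmtM2) {n : ℕ} (hn : 2 ≤ n)
    {K H : Set (E n)} {hK hH : E n → ℝ} {XK XH : E n → E n} (GK : Good K hK XK)
    (GH : Good H hH XH) (hc : ∀ u, u ≠ 0 → curv XK u = curv XH u) {u : E n} (hu : u ≠ 0) :
    fderiv ℝ XK u = fderiv ℝ XH u := by
  have hr : 0 < ‖u‖⁻¹ := inv_pos.2 (norm_pos_iff.2 hu)
  have hv : ‖‖u‖⁻¹ • u‖ = 1 := by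
    rw [norm_smul, norm_inv, norm_norm, inv_mul_cancel₀ (norm_pos_iff.2 hu).ne']
  have h1 := stM_T_eq h3 hM1 hM2 hn GK GH hc ⟨‖u‖⁻¹ • u, by rw [mem_sphere_zero_iff_norm, hv]⟩
  have h2 := (stM_T_ge h3 hM2 hn GK GH hc hv).2 h1
  rw [stM_homog GK hu hr, stM_homog GH hu hr]
  congr 1
  ext1 w
  have h4 := congrArg (fun L : E n →L[ℝ] E n => L w) h2
  beta_reduce at h4
  rw [stM_BB_apply XK hv, stM_BB_apply XH hv] at h4
  exact add_right_cancel h4

theorem stM (h3 : StmtG3) (hM1 : StmtM1) (hM2 : StmtM2) : StmtM := by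
  intro n hn K H hK hH XK XH GK GH hc
  have hrank : 1 < Module.rank ℝ (E n) := by
    rw [← Module.finrank_eq_rank, finrank_euclideanSpace_fin]
    exact_mod_cast hn
  have hconn : IsPreconnected ({0}ᶜ : Set (E n)) :=
    (isConnected_compl_singleton_of_one_lt_rank hrank 0).isPreconnected
  have hdK : DifferentiableOn ℝ XK {0}ᶜ := GK.c1.differentiableOn (by norm_num)
  have hdH : DifferentiableOn ℝ XH {0}ᶜ := GH.c1.differentiableOn (by norm_num)
  obtain ⟨z, hz⟩ := isOpen_compl_singleton.exists_eq_add_of_fderiv_eq hconn hdH hdK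
    (fun u hu => (stM_fderiv h3 hM1 hM2 hn GK GH hc hu).symm)
  have hh : ∀ u, hH u = hK u + ⟪z, u⟫ := by
    intro u
    by_cases hu : u = 0
    · have h1 : ∀ {K : Set (E n)} {h : E n → ℝ} {X : E n → E n}, Good K h X → h 0 = 0 := by
        intro K h X G
        have := G.homog 0 0 le_rfl
        rwa [zero_smul, zero_mul] at this
      rw [hu, h1 GK, h1 GH, inner_zero_right, add_zero]
    · have h1 : XH u = XK u + z := hz hu
      rw [← GH.eq u hu, ← GK.eq u hu, h1, inner_add_left]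
  refine ⟨z, ?_⟩
  ext x
  constructor
  · intro hx
    refine ⟨x - z, ?_, by simp⟩
    apply GK.charac
    intro u
    have h1 := GH.le x hx u
    rw [hh] at h1
    rw [inner_sub_left]
    linarith
  · rintro ⟨y, hy, rfl⟩
    apply GH.charac
    intro u
    have h1 := GK.le y hy u
    rw [hh]
    show ⟪y + z, u⟫ ≤ _
    rw [inner_add_left]
    linarith

end Pool.Agent.Helper890.Cov.JM
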