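import Mathlib
import Pool.Agent.Helper890.Cov.StA
import Pool.Agent.Helper890.Cov.StB
import Pool.Agent.Helper890.Cov.StG
import Pool.Agent.Helper890.Cov.StF




namespace Pool.Agent.Helper890.Cov.JM1
open MeasureTheory Set Filter Topology Metric
open scoped RealInnerProductSpace

section A1
variable {n : ℕ} {K : Set (E n)} {h : E n → ℝ} {X : E n → E n}

lemma a_cda (G : Good K h X) {u : E n} (hu : u ≠ 0) : ContDiffAt ℝ 1 X u :=
  G.c1.contDiffAt (isOpen_compl_singleton.mem_nhds hu)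

lemma a_fd (G : Good K h X) {u : E n} (hu : u ≠ 0) : HasFDerivAt X (fderiv ℝ X u) u :=
  ((a_cda G hu).differentiableAt one_ne_zero).hasFDerivAt

lemma a_self (G : Good K h X) {u : E n} (hu : u ≠ 0) : fderiv ℝ X u u = 0 := by
  have h1 : HasDerivAt (fun t : ℝ => (1 + t) • u) u 0 := by
    have := ((hasDerivAt_id (0:ℝ)).const_add 1).smul_const u
    simpa using this
  have h2 : HasFDerivAt X (fderiv ℝ X u) ((1 + (0:ℝ)) • u) := by
    simpa using a_fd G hu
  have h3 := h2.comp_hasDerivAt (f := fun t : ℝ => (1 + t) • u) (0:ℝ) h1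
  have h4 : HasDerivAt (X ∘ fun t : ℝ => (1 + t) • u) 0 (0:ℝ) := by
    refine (hasDerivAt_const (0:ℝ) (X u)).congr_of_eventuallyEq ?_
    have : ∀ᶠ t : ℝ in 𝓝 0, 0 < 1 + t := by
      have h5 : ContinuousAt (fun t : ℝ => 1 + t) 0 := by fun_prop
      exact h5.eventually_const_lt (by norm_num)
    filter_upwards [this] with t ht
    exact G.homogX _ _ ht hu
  exact h3.unique h4

lemma a_scale (G : Good K h X) {u : E n} (hu : u ≠ 0) {r : ℝ} (hr : 0 < r) :
    fderiv ℝ X (r • u) = r⁻¹ • fderiv ℝ X u := by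
  have hru : r • u ≠ 0 := smul_ne_zero hr.ne' hu
  have h1 : HasFDerivAt (fun y : E n => r⁻¹ • y) (r⁻¹ • ContinuousLinearMap.id ℝ (E n)) (r • u) :=
    (hasFDerivAt_id (𝕜 := ℝ) (r • u)).const_smul r⁻¹
  have h2 : HasFDerivAt X (fderiv ℝ X u) (r⁻¹ • (r • u)) := by
    rw [inv_smul_smul₀ hr.ne']; exact a_fd G hu
  have h3 := h2.comp (r • u) h1
  have h4 : HasFDerivAt X (fderiv ℝ X u ∘L (r⁻¹ • ContinuousLinearMap.id ℝ (E n))) (r • u) := by
    refine h3.congr_of_eventuallyEq ?_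
    filter_upwards [isOpen_compl_singleton.mem_nhds hru] with y hy
    exact (G.homogX r⁻¹ y (by positivity) hy).symm
  rw [h4.fderiv]
  ext w
  simp

lemma a_BBs (G : Good K h X) {u : E n} (hu : u ≠ 0) {r : ℝ} (hr : 0 < r) :
    BB X (r • u) = BB X u := by
  unfold BB
  rw [a_scale G hu hr]
  have hu' : ‖u‖ ≠ 0 := norm_ne_zero_iff.2 hu
  have hr' := hr.ne'
  congr 1
  · rw [norm_smul, Real.norm_of_nonneg hr.le, smul_smul]
    congr 1
    field_simp
  · ext1 w
    simp only [_root_.smul_apply, ContinuousLinearMap.smulRight_apply, innerSL_apply_apply,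
      norm_smul, Real.norm_of_nonneg hr.le, inner_smul_left, smul_smul, RCLike.conj_to_real]
    congr 1
    field_simp

lemma a_BB1 {v : E n} (hv : ‖v‖ = 1) (w : E n) :
    BB X v w = fderiv ℝ X v w + ⟪v, w⟫ • v := by
  simp [BB, hv]

lemma a_BBv (G : Good K h X) {v : E n} (hv : ‖v‖ = 1) : BB X v v = v := by
  have hv0 : v ≠ 0 := by rintro rfl; simp at hv
  rw [a_BB1 hv, a_self G hv0]
  simp [hv]

lemma a_BBsymm (G : Good K h X) {v : E n} (hv : ‖v‖ = 1) (w w' : E n) :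
    ⟪BB X v w, w'⟫ = ⟪w, BB X v w'⟫ := by
  have hv0 : v ≠ 0 := by rintro rfl; simp at hv
  rw [a_BB1 hv, a_BB1 hv, inner_add_left, inner_add_right, G.symm v hv0, inner_smul_left,
    inner_smul_right]
  simp only [RCLike.conj_to_real]
  rw [real_inner_comm v w]
  ring

/-- the map `Ψ` -/
noncomputable def Psi (X : E n → E n) (η : E n) : E n := ‖η‖ • X η

lemma a_norm {x : E n} (hx : x ≠ 0) : HasFDerivAt (fun y : E n => ‖y‖) (‖x‖⁻¹ • innerSL ℝ x) x := by
  have h1 := (hasStrictFDerivAt_norm_sq x).hasFDerivAt.sqrt (by positivity)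
  have h2 : (fun y : E n => Real.sqrt (‖y‖ ^ 2)) = fun y => ‖y‖ := by
    ext y; exact Real.sqrt_sq (norm_nonneg _)
  rw [h2] at h1
  refine h1.congr_fderiv ?_
  rw [Real.sqrt_sq (norm_nonneg _)]
  ext1 w
  have : ‖x‖ ≠ 0 := norm_ne_zero_iff.2 hx
  simp
  field_simp

/-- derivative of a function of the form `f(‖η‖) X(η)` at `r v` -/
lemma a_deriv (G : Good K h X) {v : E n} (hv : ‖v‖ = 1) {r : ℝ} (hr : 0 < r) (f : ℝ → ℝ) (f' : ℝ)
    (hf : HasDerivAt f f' r) :
    HasFDerivAt (fun η : E n => f ‖η‖ • X η)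
      ((f r / r) • fderiv ℝ X v + (f' • innerSL ℝ v).smulRight (X v)) (r • v) := by
  have hv0 : v ≠ 0 := by rintro rfl; simp at hv
  have hrv : r • v ≠ 0 := smul_ne_zero hr.ne' hv0
  have hn : ‖r • v‖ = r := by rw [norm_smul, Real.norm_of_nonneg hr.le, hv, mul_one]
  have h1 := a_norm hrv
  have h2 : HasDerivAt f f' ‖r • v‖ := by rw [hn]; exact hf
  have h3 := h2.comp_hasFDerivAt (r • v) h1
  have h4 := h3.smul (a_fd G hrv)
  refine HasFDerivAt.congr_fderiv (f := fun η : E n => f ‖η‖ • X η) h4 ?_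
  rw [a_scale G hv0 hr, G.homogX r v hr hv0]
  ext1 w
  simp only [ContinuousLinearMap.add_apply, _root_.smul_apply, ContinuousLinearMap.smulRight_apply,
    innerSL_apply_apply, Function.comp, hn, inner_smul_left, smul_smul, RCLike.conj_to_real, smul_eq_mul]
  congr 1
  congr 1
  field_simp

end A1
lemma a_trace {n : ℕ} (A B Bi C : E n →L[ℝ] E n) (v x k : E n) (c1 c2 m κ : ℝ) (hv : ‖v‖ = 1)
    (hA : ∀ w w', ⟪A w, w'⟫ = ⟪w, A w'⟫) (hB : ∀ w w', ⟪B w, w'⟫ = ⟪w, B w'⟫)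
    (hAv : A v = v) (hBv : B v = v) (hBi : ∀ w, B (Bi w) = w)
    (hm : m ≠ 0) (hx : ⟪x, v⟫ = m) (hk : ⟪k, v⟫ = κ)
    (hC : ∀ w, C (B w + ⟪v, w⟫ • (x - v)) = (c1 * ⟪v, w⟫) • k + c2 • (A w - ⟪v, w⟫ • v)) :
    LinearMap.trace ℝ (E n) (C : E n →ₗ[ℝ] E n) =
      c1 * κ / m + c2 * (LinearMap.trace ℝ (E n) ((A.comp Bi : E n →L[ℝ] E n) : E n →ₗ[ℝ] E n) - 1) := by
  have hvv : ⟪v, v⟫ = (1 : ℝ) := by rw [real_inner_self_eq_norm_sq, hv]; norm_num
  have hvx : ⟪v, x⟫ = m := by rw [real_inner_comm]; exact hx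
  have hvk : ⟪v, k⟫ = κ := by rw [real_inner_comm]; exact hk
  have hBiv : ∀ y, ⟪v, Bi y⟫ = ⟪v, y⟫ := by
    intro y
    calc ⟪v, Bi y⟫ = ⟪B v, Bi y⟫ := by rw [hBv]
      _ = ⟪v, B (Bi y)⟫ := hB _ _
      _ = _ := by rw [hBi]
  have hAv' : ∀ y, ⟪v, A y⟫ = ⟪v, y⟫ := by
    intro y
    calc ⟪v, A y⟫ = ⟪A v, y⟫ := (hA _ _).symm
      _ = _ := by rw [hAv]
  obtain ⟨z, hz⟩ : ∃ z : E n, z = m⁻¹ • (c1 • k - c2 • A (Bi (x - v)) - c2 • v) := ⟨_, rfl⟩
  have hCu : ∀ u, C u = c2 • A (Bi u) + ⟪v, u⟫ • z := by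
    intro u
    have h1 := hC (Bi u - (⟪v, u⟫ / m) • Bi (x - v))
    have h2 : ⟪v, Bi u - (⟪v, u⟫ / m) • Bi (x - v)⟫ = ⟪v, u⟫ / m := by
      rw [inner_sub_right, inner_smul_right, hBiv, hBiv, inner_sub_right, hvv, hvx]
      field_simp
      ring
    rw [h2] at h1
    have h3 : B (Bi u - (⟪v, u⟫ / m) • Bi (x - v)) + (⟪v, u⟫ / m) • (x - v) = u := by
      rw [map_sub, map_smul, hBi, hBi]; abel
    rw [h3] at h1
    rw [h1, hz, map_sub, map_smul, div_eq_mul_inv]
    module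
  have hC' : (C : E n →ₗ[ℝ] E n) = c2 • ((A.comp Bi : E n →L[ℝ] E n) : E n →ₗ[ℝ] E n) +
      ((innerSL ℝ v : E n →L[ℝ] ℝ) : E n →ₗ[ℝ] ℝ).smulRight z := by
    ext1 u
    simp only [LinearMap.add_apply, LinearMap.smul_apply, LinearMap.smulRight_apply,
      ContinuousLinearMap.coe_coe, ContinuousLinearMap.comp_apply, innerSL_apply_apply]
    exact hCu u
  rw [hC', map_add, map_smul, LinearMap.trace_smulRight]
  simp only [ContinuousLinearMap.coe_coe, innerSL_apply_apply, smul_eq_mul]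
  rw [hz, inner_smul_right, inner_sub_right, inner_sub_right, inner_smul_right, inner_smul_right,
    inner_smul_right, hAv', hBiv, inner_sub_right, hvv, hvx, hvk]
  field_simp
  ring

section A2
variable {n : ℕ} {K : Set (E n)} {h : E n → ℝ} {X : E n → E n}

lemma a_psi_surj (hn : 2 ≤ n) (G : Good K h X) (hc : Continuous h) (hpos : ∀ u, u ≠ 0 → 0 < h u)
    {x : E n} (hx : x ≠ 0) : ∃ η : E n, η ≠ 0 ∧ Psi X η = x := by
  have hne : (sphere (0 : E n) 1).Nonempty := ⟨‖x‖⁻¹ • x, by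
    simp [norm_smul, norm_ne_zero_iff.2 hx]⟩
  have hs0 : ∀ v ∈ sphere (0 : E n) 1, v ≠ 0 := by
    intro v hv h0
    rw [h0] at hv
    simp at hv
  have hcont : ContinuousOn (fun v : E n => ⟪x, v⟫ / h v) (sphere 0 1) := by
    refine ContinuousOn.div (by fun_prop) hc.continuousOn ?_
    intro v hv
    exact (hpos v (hs0 v hv)).ne'
  obtain ⟨v₀, hv₀, hmax⟩ := (isCompact_sphere (0 : E n) 1).exists_isMaxOn hne hcont
  obtain ⟨r, hr⟩ : ∃ r, r = ⟪x, v₀⟫ / h v₀ := ⟨_, rfl⟩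
  have hv₀n : ‖v₀‖ = 1 := by simpa using hv₀
  have hv₀0 := hs0 v₀ hv₀
  have hle : ∀ u : E n, u ≠ 0 → ⟪x, u⟫ ≤ r * h u := by
    intro u hu
    have hun : 0 < ‖u‖ := norm_pos_iff.2 hu
    have h1 : ‖u‖⁻¹ • u ∈ sphere (0 : E n) 1 := by simp [norm_smul, hun.ne']
    have h2 := hmax h1
    have h3 : ⟪x, ‖u‖⁻¹ • u⟫ / h (‖u‖⁻¹ • u) ≤ r := by rw [hr]; exact h2
    rw [inner_smul_right, G.homog _ _ (by positivity), mul_div_mul_left _ _ (by positivity),
      div_le_iff₀ (hpos u hu)] at h3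
    exact h3
  have hrpos : 0 < r := by
    have h1 := hle x hx
    have h2 := hpos x hx
    have h3 : 0 < ⟪x, x⟫ := real_inner_self_pos.2 hx
    by_contra hcon
    push Not at hcon
    nlinarith
  have heq : ⟪x, v₀⟫ = r * h v₀ := by
    rw [hr]; field_simp [(hpos v₀ hv₀0).ne']
  have hmin : IsLocalMin (fun u => r * h u - ⟪x, u⟫) v₀ := by
    have : ∀ᶠ u in 𝓝 v₀, u ≠ 0 := isOpen_compl_singleton.mem_nhds hv₀0
    filter_upwards [this] with u hu
    have := hle u hu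
    simp only [heq]
    linarith
  have hder : HasFDerivAt (fun u => r * h u - ⟪x, u⟫) (r • innerSL ℝ (X v₀) - innerSL ℝ x) v₀ := by
    refine HasFDerivAt.sub ?_ ?_
    · exact (G.grad v₀ hv₀0).const_mul r
    · exact (innerSL ℝ x).hasFDerivAt
  have hz := hmin.hasFDerivAt_eq_zero hder
  have hxe : r • X v₀ = x := by
    refine ext_inner_right ℝ fun w => ?_
    have := DFunLike.congr_fun hz w
    simp only [_root_.sub_apply, _root_.smul_apply, innerSL_apply_apply, smul_eq_mul,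
      _root_.zero_apply] at this
    rw [inner_smul_left]
    simp only [RCLike.conj_to_real]
    linarith
  refine ⟨r • v₀, smul_ne_zero hrpos.ne' hv₀0, ?_⟩
  unfold Psi
  rw [G.homogX r v₀ hrpos hv₀0, norm_smul, hv₀n, mul_one, Real.norm_of_nonneg hrpos.le, hxe]

lemma a_unit {u : E n} (hu : u ≠ 0) : ‖‖u‖⁻¹ • u‖ = 1 := by
  have : ‖u‖ ≠ 0 := norm_ne_zero_iff.2 hu
  rw [norm_smul, norm_inv, norm_norm, inv_mul_cancel₀ this]

lemma a_psi_eq (G : Good K h X) {u : E n} (hu : u ≠ 0) : Psi X u = ‖u‖ • X (‖u‖⁻¹ • u) := by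
  unfold Psi
  rw [G.homogX _ _ (by positivity) hu]

lemma a_psi_inj (G : Good K h X) (hpos : ∀ u, u ≠ 0 → 0 < h u)
    (hG : ∃ c C : ℝ, 0 < c ∧ ∀ u v : E n, ‖u‖ = 1 → ‖v‖ = 1 →
    c * ‖u - v‖ ^ 2 ≤ h v - ⟪X u, v⟫ ∧ h v - ⟪X u, v⟫ ≤ C * ‖u - v‖ ^ 2 ∧
    c * ‖u - v‖ ≤ ‖X u - X v‖ ∧ ‖X u - X v‖ ≤ C * ‖u - v‖) {η η' : E n} (hη : η ≠ 0) (hη' : η' ≠ 0)
    (he : Psi X η = Psi X η') : η = η' := by
  obtain ⟨c, C, hc, hcC⟩ := hG
  have key : ∀ η η' : E n, η ≠ 0 → η' ≠ 0 → Psi X η = Psi X η' → ‖η‖ ≤ ‖η'‖ := by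
    intro η η' hη hη' he
    have h1 : ⟪Psi X η, η⟫ = ‖η‖ * h η := by
      unfold Psi; rw [inner_smul_left, G.eq η hη]; simp
    have h2 : ⟪Psi X η', η⟫ ≤ ‖η'‖ * h η := by
      unfold Psi; rw [inner_smul_left]
      simp only [RCLike.conj_to_real]
      exact mul_le_mul_of_nonneg_left (G.le _ (G.mem η' hη') η) (norm_nonneg _)
    rw [← he, h1] at h2
    exact le_of_mul_le_mul_right h2 (hpos η hη)
  have hnn := le_antisymm (key η η' hη hη' he) (key η' η hη' hη he.symm)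
  have hn0 : ‖η‖ ≠ 0 := norm_ne_zero_iff.2 hη
  rw [a_psi_eq G hη, a_psi_eq G hη', ← hnn] at he
  have h3 := smul_right_injective (E n) hn0 he
  have h4 := (hcC (‖η‖⁻¹ • η) (‖η‖⁻¹ • η') (a_unit hη) (by rw [hnn]; exact a_unit hη')).2.2.1
  skip
  rw [h3, sub_self, norm_zero] at h4
  have h5 : ‖‖η‖⁻¹ • η - ‖η‖⁻¹ • η'‖ ≤ 0 := by
    by_contra hcon
    push Not at hcon
    have := mul_pos hc hcon
    linarith
  have h6 : ‖η‖⁻¹ • η = ‖η‖⁻¹ • η' := by
    rw [← sub_eq_zero, ← norm_le_zero_iff]; exact h5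
  exact smul_right_injective (E n) (inv_ne_zero hn0) h6

lemma a_lower (hn : 2 ≤ n) (G : Good K h X) (hc : Continuous h) (hpos : ∀ u, u ≠ 0 → 0 < h u) :
    ∃ c : ℝ, 0 < c ∧ ∀ η : E n, η ≠ 0 → c * ‖η‖ ≤ ‖Psi X η‖ := by
  have hne : (sphere (0 : E n) 1).Nonempty := by
    haveI : Nontrivial (E n) := by
      haveI : Nonempty (Fin n) := ⟨⟨0, by omega⟩⟩
      infer_instance
    exact NormedSpace.sphere_nonempty.2 zero_le_one
  obtain ⟨v₀, hv₀, hmin⟩ := (isCompact_sphere (0 : E n) 1).exists_isMinOn hne hc.continuousOn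
  have hv0 : v₀ ≠ 0 := by rintro rfl; simp at hv₀
  refine ⟨h v₀, hpos v₀ hv0, fun η hη => ?_⟩
  have h1 : ‖η‖⁻¹ • η ∈ sphere (0 : E n) 1 := by simpa using a_unit hη
  have h2 : h v₀ ≤ h (‖η‖⁻¹ • η) := hmin h1
  have hu := a_unit hη
  have hu0 : ‖η‖⁻¹ • η ≠ 0 := by
    intro h0; rw [h0] at hu; simp at hu
  have h3 : h (‖η‖⁻¹ • η) ≤ ‖X (‖η‖⁻¹ • η)‖ := by
    rw [← G.eq _ hu0]
    refine (real_inner_le_norm _ _).trans ?_
    rw [hu, mul_one]
  rw [a_psi_eq G hη, norm_smul, norm_norm]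
  have := norm_nonneg η
  nlinarith

end A2
/-- the cutoff -/
noncomputable def xi (r : ℝ) : ℝ := Real.smoothTransition (2 * r - 1)

lemma xi_cd : ContDiff ℝ 1 xi := by
  unfold xi
  exact (Real.smoothTransition.contDiff (n := 1)).comp (by fun_prop)

lemma xi_zero {r : ℝ} (hr : r ≤ 1 / 2) : xi r = 0 :=
  Real.smoothTransition.zero_of_nonpos (by linarith)

lemma xi_one : xi 1 = 1 := Real.smoothTransition.one_of_one_le (by norm_num)

lemma xi_nonneg (r : ℝ) : 0 ≤ xi r := Real.smoothTransition.nonneg _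

lemma xi_pos {r : ℝ} (hr : 1 / 2 < r) : 0 < xi r :=
  Real.smoothTransition.pos_of_pos (by linarith)

lemma xi_hd (r : ℝ) : HasDerivAt xi (deriv xi r) r :=
  (xi_cd.differentiable one_ne_zero r).hasDerivAt

section A3
variable {n : ℕ} {K : Set (E n)} {h : E n → ℝ} {X : E n → E n}

lemma a_DXv (G : Good K h X) {v : E n} (hv0 : v ≠ 0) (w : E n) : ⟪v, fderiv ℝ X v w⟫ = 0 := by
  rw [← G.symm v hv0, a_self G hv0, inner_zero_left]

lemma a_inj (G : Good K h X) (hpos : ∀ u, u ≠ 0 → 0 < h u) {v : E n} (hv : ‖v‖ = 1) :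
    Function.Injective ((fderiv ℝ X v + (innerSL ℝ v).smulRight (X v) : E n →L[ℝ] E n) :
      E n →ₗ[ℝ] E n) := by
  have hv0 : v ≠ 0 := by rintro rfl; simp at hv
  rw [← LinearMap.ker_eq_bot, LinearMap.ker_eq_bot']
  intro w hw
  simp only [ContinuousLinearMap.coe_coe, _root_.add_apply,
    ContinuousLinearMap.smulRight_apply, innerSL_apply_apply] at hw
  have h1 : ⟪v, w⟫ = 0 := by
    have h2 := congrArg (fun y => ⟪v, y⟫) hw
    simp only [inner_add_right, a_DXv G hv0, inner_smul_right, inner_zero_right, zero_add] at h2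
    rw [real_inner_comm (X v) v] at h2
    have h3 := hpos v hv0
    rw [← G.eq v hv0] at h3
    rcases mul_eq_zero.1 h2 with h4 | h4
    · exact h4
    · exfalso
      first
        | exact h3.ne' h4
        | (rw [real_inner_comm] at h4; exact h3.ne' h4)
  rw [h1, zero_smul, add_zero] at hw
  by_contra hw0
  have h5 := G.pos v hv0 w hw0 (by rw [real_inner_comm]; exact h1)
  rw [hw, inner_zero_left] at h5
  exact lt_irrefl _ h5

lemma a_injBB (G : Good K h X) {v : E n} (hv : ‖v‖ = 1) :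
    Function.Injective (BB X v : E n →ₗ[ℝ] E n) := by
  have hv0 : v ≠ 0 := by rintro rfl; simp at hv
  rw [← LinearMap.ker_eq_bot, LinearMap.ker_eq_bot']
  intro w hw
  rw [ContinuousLinearMap.coe_coe, a_BB1 hv] at hw
  have h1 : ⟪v, w⟫ = 0 := by
    have h2 := congrArg (fun y => ⟪v, y⟫) hw
    simp only [inner_add_right, a_DXv G hv0, inner_smul_right, inner_zero_right, zero_add,
      real_inner_self_eq_norm_sq, hv] at h2
    simpa using h2
  rw [h1, zero_smul, add_zero] at hw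
  by_contra hw0
  have h5 := G.pos v hv0 w hw0 (by rw [real_inner_comm]; exact h1)
  rw [hw, inner_zero_left] at h5
  exact lt_irrefl _ h5

lemma a_equiv (L : E n →L[ℝ] E n) (hL : Function.Injective (L : E n →ₗ[ℝ] E n)) :
    ∃ e : E n ≃L[ℝ] E n, (e : E n →L[ℝ] E n) = L :=
  ⟨(LinearEquiv.ofInjectiveEndo (L : E n →ₗ[ℝ] E n) hL).toContinuousLinearEquiv, by
    ext1 w; rfl⟩

lemma a_BBinv (G : Good K h X) {v : E n} (hv : ‖v‖ = 1) (w : E n) :
    BB X v ((BB X v).inverse w) = w := by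
  obtain ⟨e, he⟩ := a_equiv (BB X v) (a_injBB G hv)
  rw [← he, ContinuousLinearMap.inverse_equiv]
  simp

/-- a nonzero vector in polar form -/
lemma a_pol {η : E n} (hη : η ≠ 0) : 0 < ‖η‖ ∧ ‖‖η‖⁻¹ • η‖ = 1 ∧ ‖η‖ • (‖η‖⁻¹ • η) = η := by
  have h1 : 0 < ‖η‖ := norm_pos_iff.2 hη
  exact ⟨h1, a_unit hη, by rw [smul_smul, mul_inv_cancel₀ h1.ne', one_smul]⟩

lemma a_Z (hn : 2 ≤ n) {K' : Set (E n)} {h' : E n → ℝ} {X' : E n → E n} (G' : Good K' h' X')
    (G : Good K h X) (hc : Continuous h) (hpos : ∀ u, u ≠ 0 → 0 < h u)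
    (hG : ∃ c C : ℝ, 0 < c ∧ ∀ u v : E n, ‖u‖ = 1 → ‖v‖ = 1 →
    c * ‖u - v‖ ^ 2 ≤ h v - ⟪X u, v⟫ ∧ h v - ⟪X u, v⟫ ≤ C * ‖u - v‖ ^ 2 ∧
    c * ‖u - v‖ ≤ ‖X u - X v‖ ∧ ‖X u - X v‖ ≤ C * ‖u - v‖) :
    ∃ Z : E n → E n, ContDiff ℝ 1 Z ∧ (∀ η, η ≠ 0 → Z (Psi X η) = xi ‖η‖ • X' η) ∧
      ∃ δ : ℝ, 0 < δ ∧ ∀ x, ‖x‖ < δ → Z x = 0 := by
  classical
  have hsurj : ∀ x : E n, x ≠ 0 → ∃ η : E n, η ≠ 0 ∧ Psi X η = x := fun x hx =>
    a_psi_surj hn G hc hpos hx
  obtain ⟨c, hc0, hlow⟩ := a_lower hn G hc hpos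
  choose! N hN0 hN using hsurj
  have hΨ0 : ∀ η : E n, η ≠ 0 → Psi X η ≠ 0 := by
    intro η hη h0
    have h1 := hlow η hη
    rw [h0, norm_zero] at h1
    have h2 : 0 < ‖η‖ := norm_pos_iff.2 hη
    have := mul_pos hc0 h2
    linarith
  have hNΨ : ∀ η : E n, η ≠ 0 → N (Psi X η) = η := fun η hη =>
    a_psi_inj G hpos hG (hN0 _ (hΨ0 η hη)) hη (hN _ (hΨ0 η hη))
  have hZsmall : ∀ x : E n, x ≠ 0 → ‖x‖ < c / 2 → xi ‖N x‖ = 0 := by
    intro x hx hxc
    apply xi_zero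
    have h1 := hlow (N x) (hN0 x hx)
    rw [hN x hx] at h1
    by_contra hcon
    push Not at hcon
    nlinarith
  refine ⟨fun x => if x = 0 then 0 else xi ‖N x‖ • X' (N x), ?_, ?_, c / 2, by positivity, ?_⟩
  · rw [contDiff_iff_contDiffAt]
    intro x
    by_cases hx : x = 0
    · subst hx
      refine (contDiffAt_const (c := (0 : E n))).congr_of_eventuallyEq ?_
      filter_upwards [ball_mem_nhds (0 : E n) (show 0 < c / 2 by positivity)] with y hy
      by_cases hy0 : y = 0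
      · simp [hy0]
      · rw [if_neg hy0, hZsmall y hy0 (by simpa using hy), zero_smul]
    · obtain ⟨η, hη⟩ : ∃ η, η = N x := ⟨_, rfl⟩
      have hη0 : η ≠ 0 := by rw [hη]; exact hN0 x hx
      have hxη : Psi X η = x := by rw [hη]; exact hN x hx
      obtain ⟨hr, hv, hrv⟩ := a_pol hη0
      have hcd : ContDiffAt ℝ 1 (Psi X) η := by
        unfold Psi
        exact (contDiffAt_norm ℝ hη0).smul (a_cda G hη0)
      obtain ⟨e, he⟩ := a_equiv _ (a_inj G hpos hv)
      have hfd : HasFDerivAt (Psi X) (e : E n →L[ℝ] E n) η := by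
        have h1 := a_deriv G hv hr (fun r => r) 1 (hasDerivAt_id _)
        rw [hrv] at h1
        rw [he]
        refine h1.congr_fderiv ?_
        rw [div_self hr.ne', one_smul, one_smul]
      have hinv : ContDiffAt ℝ 1 (hcd.localInverse hfd one_ne_zero) x := by
        rw [← hxη]; exact hcd.to_localInverse hfd one_ne_zero
      have hev1 : ∀ᶠ y in 𝓝 x, Psi X (hcd.localInverse hfd one_ne_zero y) = y := by
        rw [← hxη]
        exact (hcd.hasStrictFDerivAt' hfd one_ne_zero).eventually_right_inverse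
      have hval : hcd.localInverse hfd one_ne_zero x = η := by
        have := hcd.localInverse_apply_image hfd one_ne_zero
        rwa [hxη] at this
      have hev2 : ∀ᶠ y in 𝓝 x, hcd.localInverse hfd one_ne_zero y ≠ 0 := by
        have h1 := hinv.continuousAt
        have h2 : ∀ᶠ z in 𝓝 (hcd.localInverse hfd one_ne_zero x), z ≠ 0 := by
          rw [hval]; exact isOpen_compl_singleton.mem_nhds hη0
        exact h1.eventually h2
      have hev3 : ∀ᶠ y in 𝓝 x, y ≠ 0 := isOpen_compl_singleton.mem_nhds hx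
      have hNd : ContDiffAt ℝ 1 N x := by
        refine hinv.congr_of_eventuallyEq ?_
        filter_upwards [hev1, hev2, hev3] with y h1 h2 h3
        exact a_psi_inj G hpos hG (hN0 y h3) h2 ((hN y h3).trans h1.symm)
      have hZd : ContDiffAt ℝ 1 (fun y => xi ‖N y‖ • X' (N y)) x := by
        have h1 : ContDiffAt ℝ 1 (fun y => ‖N y‖) x := hNd.norm ℝ (hN0 x hx)
        have h2 : ContDiffAt ℝ 1 (fun y => xi ‖N y‖) x := xi_cd.contDiffAt.comp x h1
        have h3 : ContDiffAt ℝ 1 (fun y => X' (N y)) x :=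
          ContDiffAt.comp x (a_cda G' (hN0 x hx)) hNd
        exact h2.smul h3
      refine hZd.congr_of_eventuallyEq ?_
      filter_upwards [hev3] with y hy
      rw [if_neg hy]
  · intro η hη
    dsimp only
    rw [if_neg (hΨ0 η hη), hNΨ η hη]
  · intro x hx
    dsimp only
    by_cases hx0 : x = 0
    · rw [if_pos hx0]
    · rw [if_neg hx0, hZsmall x hx0 hx, zero_smul]

end A3
lemma a_trZ {n : ℕ} {K : Set (E n)} {h : E n → ℝ} {X : E n → E n} (hpos : ∀ u, u ≠ 0 → 0 < h u)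
    {K' : Set (E n)} {h' : E n → ℝ} {X' : E n → E n} (G' : Good K' h' X')
    (G : Good K h X) {Z : E n → E n} (hZ : ContDiff ℝ 1 Z)
    (hZΨ : ∀ η, η ≠ 0 → Z (Psi X η) = xi ‖η‖ • X' η) {v : E n} (hv : ‖v‖ = 1) {r : ℝ} (hr : 0 < r) :
    LinearMap.trace ℝ (E n) ((fderiv ℝ Z (Psi X (r • v)) : E n →L[ℝ] E n) : E n →ₗ[ℝ] E n) =
      deriv xi r * h' v / h v + (xi r / r) * (LinearMap.trace ℝ (E n)
      (((BB X' v).comp (ContinuousLinearMap.inverse (BB X v)) : E n →L[ℝ] E n) : E n →ₗ[ℝ] E n) - 1) := by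
  have hv0 : v ≠ 0 := by rintro rfl; simp at hv
  have hrv : r • v ≠ 0 := smul_ne_zero hr.ne' hv0
  refine a_trace (BB X' v) (BB X v) (BB X v).inverse _ v (X v) (X' v) (deriv xi r) (xi r / r) (h v) (h' v)
    hv (a_BBsymm G' hv) (a_BBsymm G hv) (a_BBv G' hv) (a_BBv G hv) (a_BBinv G hv) (hpos v hv0).ne'
    (G.eq v hv0) (G'.eq v hv0) ?_
  intro w
  have h1 : HasFDerivAt (Psi X) (fderiv ℝ X v + (innerSL ℝ v).smulRight (X v)) (r • v) := by
    have h1 := a_deriv G hv hr (fun r => r) 1 (hasDerivAt_id _)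
    refine h1.congr_fderiv ?_
    rw [div_self hr.ne', one_smul, one_smul]
  have h2 : HasFDerivAt Z (fderiv ℝ Z (Psi X (r • v))) (Psi X (r • v)) :=
    (hZ.differentiable one_ne_zero _).hasFDerivAt
  have h3 := h2.comp (r • v) h1
  have h4 := a_deriv G' hv hr xi (deriv xi r) (xi_hd r)
  have h5 : HasFDerivAt (Z ∘ Psi X)
      ((xi r / r) • fderiv ℝ X' v + (deriv xi r • innerSL ℝ v).smulRight (X' v)) (r • v) := by
    refine h4.congr_of_eventuallyEq ?_
    filter_upwards [isOpen_compl_singleton.mem_nhds hrv] with y hy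
    exact hZΨ y hy
  have h6 := DFunLike.congr_fun (h3.unique h5) w
  simp only [ContinuousLinearMap.comp_apply, _root_.add_apply, _root_.smul_apply,
    ContinuousLinearMap.smulRight_apply, innerSL_apply_apply, smul_eq_mul] at h6
  rw [a_BB1 hv, a_BB1 hv]
  have h7 : fderiv ℝ X v w + ⟪v, w⟫ • v + ⟪v, w⟫ • (X v - v) = fderiv ℝ X v w + ⟪v, w⟫ • X v := by
    rw [smul_sub]; abel
  rw [h7, h6]
  rw [add_sub_cancel_right, add_comm]

lemma xi_deriv_zero {r : ℝ} (hr : r < 1 / 2) : deriv xi r = 0 := by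
  have h1 : xi =ᶠ[𝓝 r] fun _ => 0 := by
    filter_upwards [Iio_mem_nhds hr] with y hy
    exact xi_zero (le_of_lt hy)
  rw [h1.deriv_eq]
  simp

lemma a_ab (n : ℕ) (hn : 2 ≤ n) : ∃ a b : ℝ, 0 < b ∧ a + ((n : ℝ) - 1) * b = 1 ∧ ∀ p q : ℝ,
    ∫ r in Ioo (0 : ℝ) 1, (r ^ (n - 1) * deriv xi r * p + r ^ (n - 2) * xi r * q) = a * p + b * q := by
  obtain ⟨m, rfl⟩ : ∃ m, n = m + 2 := ⟨n - 2, by omega⟩
  have e1 : m + 2 - 1 = m + 1 := by omega
  have e2 : m + 2 - 2 = m := by omega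
  rw [e1, e2]
  have hc1 : Continuous (fun r : ℝ => r ^ (m + 1) * deriv xi r) :=
    (continuous_pow _).mul (xi_cd.continuous_deriv le_rfl)
  have hc2 : Continuous (fun r : ℝ => r ^ m * xi r) := (continuous_pow _).mul xi_cd.continuous
  refine ⟨∫ r in (0 : ℝ)..1, r ^ (m + 1) * deriv xi r, ∫ r in (0 : ℝ)..1, r ^ m * xi r, ?_, ?_, ?_⟩
  · refine intervalIntegral.integral_pos zero_lt_one hc2.continuousOn ?_ ⟨1, by simp, ?_⟩
    · intro x hx
      exact mul_nonneg (pow_nonneg hx.1.le _) (xi_nonneg x)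
    · rw [xi_one]; norm_num
  · have h1 : ∀ x ∈ Set.uIcc (0 : ℝ) 1, HasDerivAt (fun r : ℝ => r ^ (m + 1) * xi r)
        (((m + 1 : ℕ) : ℝ) * x ^ m * xi x + x ^ (m + 1) * deriv xi x) x := by
      intro x _
      have := HasDerivAt.fun_mul (hasDerivAt_pow (m + 1) x) (xi_hd x)
      simpa using this
    have hc3 : Continuous (fun x : ℝ => ((m + 1 : ℕ) : ℝ) * x ^ m * xi x + x ^ (m + 1) * deriv xi x) := by
      refine Continuous.add ?_ hc1
      simp only [mul_assoc]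
      exact hc2.const_mul _
    have h2 := intervalIntegral.integral_eq_sub_of_hasDerivAt h1 (hc3.intervalIntegrable 0 1)
    have h3 : ∫ x in (0 : ℝ)..1, (((m + 1 : ℕ) : ℝ) * x ^ m * xi x + x ^ (m + 1) * deriv xi x) =
        ((m + 1 : ℕ) : ℝ) * (∫ r in (0 : ℝ)..1, r ^ m * xi r) +
        ∫ r in (0 : ℝ)..1, r ^ (m + 1) * deriv xi r := by
      rw [← intervalIntegral.integral_const_mul, ← intervalIntegral.integral_add
        ((hc2.const_mul _).intervalIntegrable 0 1) (hc1.intervalIntegrable 0 1)]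
      simp only [mul_assoc]
    rw [h3] at h2
    simp only [one_pow, one_mul, xi_one, ne_eq, Nat.succ_ne_zero, not_false_eq_true, zero_pow,
      zero_mul, sub_zero] at h2
    push_cast at h2 ⊢
    linarith
  · intro p q
    rw [← integral_Ioc_eq_integral_Ioo, ← intervalIntegral.integral_of_le zero_le_one,
      intervalIntegral.integral_add ((hc1.mul_const _).intervalIntegrable 0 1)
        ((hc2.mul_const _).intervalIntegrable 0 1),
      intervalIntegral.integral_mul_const, intervalIntegral.integral_mul_const]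

instance a_fin (n : ℕ) : IsFiniteMeasure (sph n) := by unfold sph; infer_instance

lemma a_csph {n : ℕ} {f : E n → ℝ} (hf : ContinuousOn f {0}ᶜ) :
    Continuous (fun v : sphere (0 : E n) 1 => f v) := by
  refine hf.comp_continuous continuous_subtype_val ?_
  intro v h0
  have h1 : (v : E n) = 0 := h0
  have h2 := v.2
  rw [h1] at h2
  simp at h2

lemma a_isph {n : ℕ} {f : sphere (0 : E n) 1 → ℝ} (hf : Continuous f) : Integrable f (sph n) :=
  hf.integrable_of_hasCompactSupport (HasCompactSupport.of_compactSpace _)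

lemma a_div {n : ℕ} (hn : 2 ≤ n) (h7 : StmtG7) {K : Set (E n)} {h : E n → ℝ} {X : E n → E n}
    (hcu : ContinuousOn (curv X) {0}ᶜ)
    {K' : Set (E n)} {h' : E n → ℝ} {X' : E n → E n} (G' : Good K' h' X')
    (G : Good K h X) {Z : E n → E n} (hZ : ContDiff ℝ 1 Z)
    (hZΨ : ∀ η, η ≠ 0 → Z (Psi X η) = xi ‖η‖ • X' η) :
    ∫ x in K, LinearMap.trace ℝ (E n) ((fderiv ℝ Z x : E n →L[ℝ] E n) : E n →ₗ[ℝ] E n) =
      ∫ v : sphere (0 : E n) 1, h' v * curv X v ∂(sph n) := by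
  obtain ⟨b, hb⟩ : ∃ b, b = EuclideanSpace.basisFun (Fin n) ℝ := ⟨_, rfl⟩
  have hreal : ∀ i, ∫ x in K, ⟪b i, fderiv ℝ Z x (b i)⟫ =
      ∫ v : sphere (0 : E n) 1, ⟪(v : E n), b i⟫ * curv X v * ⟪b i, X' v⟫ ∂(sph n) := by
    intro i
    have hg : ContDiff ℝ 1 (fun x => (((⟪b i, Z x⟫ : ℝ)) : ℂ)) :=
      Complex.ofRealCLM.contDiff.comp ((innerSL ℝ (b i)).contDiff.comp hZ)
    have h1 := h7 n hn K h X G (fun x => (((⟪b i, Z x⟫ : ℝ)) : ℂ)) (b i) hg
    have h2 : ∀ x, fderiv ℝ (fun x => (((⟪b i, Z x⟫ : ℝ)) : ℂ)) x (b i) =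
        ((⟪b i, fderiv ℝ Z x (b i)⟫ : ℝ) : ℂ) := by
      intro x
      have h3 : HasFDerivAt Z (fderiv ℝ Z x) x := (hZ.differentiable one_ne_zero x).hasFDerivAt
      have h4 := (Complex.ofRealCLM.hasFDerivAt (x := innerSL ℝ (b i) (Z x))).comp x
        ((innerSL ℝ (b i)).hasFDerivAt.comp x h3)
      have h5 : fderiv ℝ (fun x => (((⟪b i, Z x⟫ : ℝ)) : ℂ)) x = _ := h4.fderiv
      rw [h5]
      rfl
    simp only [h2] at h1
    rw [integral_complex_ofReal] at h1
    have h3 : ∀ v : sphere (0 : E n) 1, (⟪(v : E n), b i⟫ * curv X v) • (((⟪b i, Z (X v)⟫ : ℝ)) : ℂ) =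
        ((⟪(v : E n), b i⟫ * curv X v * ⟪b i, X' v⟫ : ℝ) : ℂ) := by
      intro v
      have hv : ‖(v : E n)‖ = 1 := by simpa using v.2
      have hv0 : (v : E n) ≠ 0 := by intro h0; rw [h0] at hv; simp at hv
      have h4 : Z (X v) = X' v := by
        have := hZΨ v hv0
        unfold Psi at this
        rw [hv, xi_one, one_smul, one_smul] at this
        exact this
      rw [h4, Complex.real_smul]
      push_cast
      ring
    simp only [h3] at h1
    rw [integral_complex_ofReal] at h1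
    exact Complex.ofReal_injective h1
  have hcf : Continuous (fderiv ℝ Z) := hZ.continuous_fderiv one_ne_zero
  simp only [LinearMap.trace_eq_sum_inner _ b]
  rw [integral_finsetSum]
  · simp only [ContinuousLinearMap.coe_coe]
    simp only [hreal]
    rw [← integral_finsetSum]
    · congr 1
      ext v
      have hv : ‖(v : E n)‖ = 1 := by simpa using v.2
      have hv0 : (v : E n) ≠ 0 := by intro h0; rw [h0] at hv; simp at hv
      have h4 : ∀ i, ⟪(v : E n), b i⟫ * curv X v * ⟪b i, X' v⟫ = (⟪(v : E n), b i⟫ * ⟪b i, X' v⟫) * curv X v := by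
        intro i; ring
      simp only [h4]
      rw [← Finset.sum_mul, b.sum_inner_mul_inner, real_inner_comm, G'.eq _ hv0]
    · intro i _
      refine a_isph ?_
      refine ((Continuous.mul (by fun_prop) (a_csph hcu)).mul ?_)
      have : ContinuousOn (fun v : E n => ⟪b i, X' v⟫) {0}ᶜ :=
        ContinuousOn.inner continuousOn_const G'.c1.continuousOn
      exact a_csph this
  · intro i _
    refine ContinuousOn.integrableOn_compact G.compact (Continuous.continuousOn ?_)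
    have : Continuous (fun x => fderiv ℝ Z x (b i)) := hcf.clm_apply continuous_const
    exact Continuous.inner continuous_const this

theorem stM1 (h1 : StmtG1) (h3 : StmtG3) (h6 : StmtG6) (h7 : StmtG7) (hP : StmtP) : StmtM1 := by
  intro n hn K' K h' h X' X G' G
  obtain ⟨hcu, hcpos, hchom, hXc, hc, hpos⟩ := h3 n hn K h X G
  obtain ⟨hcu', hcpos', hchom', hXc', hc', hpos'⟩ := h3 n hn K' h' X' G'
  obtain ⟨Z, hZ, hZΨ, -⟩ := a_Z hn G' G hc hpos (h1 n hn K h X G)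
  obtain ⟨a, b, hb, hab, hI⟩ := a_ab n hn
  have hdiv := a_div hn h7 hcu G' G hZ hZΨ
  obtain ⟨D, hD⟩ : ∃ D : E n → ℝ, D = fun x =>
    LinearMap.trace ℝ (E n) ((fderiv ℝ Z x : E n →L[ℝ] E n) : E n →ₗ[ℝ] E n) := ⟨_, rfl⟩
  have hDc : Continuous D := by
    rw [hD]
    simp only [LinearMap.trace_eq_sum_inner _ (EuclideanSpace.basisFun (Fin n) ℝ)]
    refine continuous_finsetSum _ fun i _ => ?_
    refine Continuous.inner continuous_const ?_
    exact (hZ.continuous_fderiv one_ne_zero).clm_apply continuous_const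
  obtain ⟨t, ht⟩ : ∃ t : E n → ℝ, t = fun v => LinearMap.trace ℝ (E n)
      (((BB X' v).comp (ContinuousLinearMap.inverse (BB X v)) : E n →L[ℝ] E n) : E n →ₗ[ℝ] E n) - 1 := ⟨_, rfl⟩
  have hDr : ∀ v : E n, ‖v‖ = 1 → ∀ r : ℝ, 0 < r →
      D (Psi X (r • v)) = deriv xi r * h' v / h v + (xi r / r) * t v := by
    intro v hv r hr
    rw [hD, ht]
    exact a_trZ hpos G' G hZ hZΨ hv hr
  obtain ⟨F, hF⟩ : ∃ F : E n → ℝ, F = fun η => h η / ‖η‖ * curv X η * D (Psi X η) := ⟨_, rfl⟩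
  have hFr : ∀ v : E n, ‖v‖ = 1 → ∀ r : ℝ, 0 < r →
      F (r • v) = curv X v * (deriv xi r * h' v + xi r / r * (h v * t v)) := by
    intro v hv r hr
    have hv0 : v ≠ 0 := by rintro rfl; simp at hv
    have hhv := (hpos v hv0).ne'
    rw [hF]
    dsimp only
    rw [hDr v hv r hr, hchom r v hr hv0, G.homog r v hr.le, norm_smul, hv, mul_one,
      Real.norm_of_nonneg hr.le]
    field_simp
  have hF0 : ∀ η : E n, ‖η‖ < 1 / 2 → F η = 0 := by
    intro η hη
    by_cases h0 : η = 0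
    · rw [hF, h0]; simp
    · obtain ⟨p1, p2, p3⟩ := a_pol h0
      rw [← p3, hFr _ p2 _ p1, xi_deriv_zero hη, xi_zero hη.le]
      simp
  have hFc : Continuous F := by
    rw [continuous_iff_continuousAt]
    intro η
    by_cases h0 : η = 0
    · have : F =ᶠ[𝓝 η] fun _ => 0 := by
        rw [h0]
        filter_upwards [ball_mem_nhds (0 : E n) (show (0 : ℝ) < 1 / 2 by norm_num)] with y hy
        exact hF0 y (by simpa using hy)
      exact this.continuousAt
    · have hn0 : {0}ᶜ ∈ 𝓝 η := isOpen_compl_singleton.mem_nhds h0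
      have c1 : ContinuousAt (Psi X) η := by
        unfold Psi
        exact continuous_norm.continuousAt.smul (hXc.continuousAt hn0)
      rw [hF]
      exact ((hc.continuousAt.div continuous_norm.continuousAt (norm_ne_zero_iff.2 h0)).mul
        (hcu.continuousAt hn0)).mul (hDc.continuousAt.comp c1)
  -- change of variables
  have hcv : ∫ x in K, D x = ∫ η in ball (0 : E n) 1, F η := by
    have e1 := h6 n hn K h X G (fun x => ((D x : ℝ) : ℂ))
    have e2 : ∀ η : E n, (h η / ‖η‖ * curv X η) • ((D (‖η‖ • X η) : ℝ) : ℂ) = ((F η : ℝ) : ℂ) := by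
      intro η
      rw [hF, Complex.real_smul]
      unfold Psi
      push_cast
      ring
    simp only [e2] at e1
    rw [integral_complex_ofReal, integral_complex_ofReal] at e1
    exact Complex.ofReal_injective e1
  have hFi : IntegrableOn F (ball (0 : E n) 1) :=
    (hFc.continuousOn.integrableOn_compact (isCompact_closedBall (0 : E n) 1)).mono_set
      ball_subset_closedBall
  have hpolar := (hP n hn).1 ((ball (0 : E n) 1).indicator F)
    (hFi.integrable_indicator measurableSet_ball)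
  rw [integral_indicator measurableSet_ball] at hpolar
  have hinner : ∀ v : sphere (0 : E n) 1,
      ∫ r in Ioi (0 : ℝ), r ^ (n - 1) * (ball (0 : E n) 1).indicator F (r • (v : E n)) =
      a * (h' v * curv X v) + b * (h v * t v * curv X v) := by
    intro v
    have hv : ‖(v : E n)‖ = 1 := by simpa using v.2
    rw [← hI]
    have e1 : ∀ r ∈ Ioi (0 : ℝ), r ^ (n - 1) * (ball (0 : E n) 1).indicator F (r • (v : E n)) =
        (Ioo (0 : ℝ) 1).indicator (fun r => r ^ (n - 1) * deriv xi r * (h' v * curv X v) +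
          r ^ (n - 2) * xi r * (h v * t v * curv X v)) r := by
      intro r hr
      have hr0 : 0 < r := hr
      by_cases hr1 : r < 1
      · rw [indicator_of_mem (show r ∈ Ioo (0 : ℝ) 1 from ⟨hr0, hr1⟩), indicator_of_mem, hFr _ hv r hr0]
        · have e3 : r ^ (n - 1) = r ^ (n - 2) * r := by
            rw [← pow_succ]; congr 1; omega
          rw [e3]
          field_simp
        · rw [mem_ball_zero_iff, norm_smul, hv, mul_one, Real.norm_of_nonneg hr0.le]; exact hr1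
      · rw [indicator_of_notMem (fun hh : r ∈ Ioo (0 : ℝ) 1 => hr1 hh.2), indicator_of_notMem, mul_zero]
        rw [mem_ball_zero_iff, norm_smul, hv, mul_one, Real.norm_of_nonneg hr0.le]; exact hr1
    rw [setIntegral_congr_fun measurableSet_Ioi e1, setIntegral_indicator measurableSet_Ioo]
    congr 2
    ext r
    simp only [mem_inter_iff, mem_Ioi, mem_Ioo]
    tauto
  simp only [hinner] at hpolar
  have hi1 : Integrable (fun v : sphere (0 : E n) 1 => h' v * curv X v) (sph n) :=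
    a_isph ((hc'.comp continuous_subtype_val).mul (a_csph hcu))
  have hi2 : Integrable (fun v : sphere (0 : E n) 1 => h v * t v * curv X v) (sph n) := by
    have e1 : ∀ v : sphere (0 : E n) 1, h v * t v * curv X v =
        F v - deriv xi 1 * (h' v * curv X v) := by
      intro v
      have hv : ‖(v : E n)‖ = 1 := by simpa using v.2
      have e2 := hFr v hv 1 one_pos
      rw [one_smul, xi_one] at e2
      rw [e2]
      ring
    simp only [e1]
    exact a_isph ((hFc.comp continuous_subtype_val).sub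
      (continuous_const.mul ((hc'.comp continuous_subtype_val).mul (a_csph hcu))))
  rw [integral_add (hi1.const_mul a) (hi2.const_mul b), integral_const_mul, integral_const_mul] at hpolar
  have hfin : ∫ v : sphere (0 : E n) 1, h' v * curv X v ∂(sph n) =
      a * ∫ v : sphere (0 : E n) 1, h' v * curv X v ∂(sph n) +
      b * ∫ v : sphere (0 : E n) 1, h v * t v * curv X v ∂(sph n) := by
    rw [← hpolar, ← hcv, ← hdiv, hD]
  have hsplit : ∫ v : sphere (0 : E n) 1, (h' v + h v * (LinearMap.trace ℝ (E n)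
      (((BB X' v).comp (ContinuousLinearMap.inverse (BB X v)) : E n →L[ℝ] E n) : E n →ₗ[ℝ] E n) - 1)) *
      curv X v ∂(sph n) = (∫ v : sphere (0 : E n) 1, h' v * curv X v ∂(sph n)) +
      ∫ v : sphere (0 : E n) 1, h v * t v * curv X v ∂(sph n) := by
    rw [← integral_add hi1 hi2]
    congr 1
    ext v
    rw [ht]
    ring
  rw [hsplit]
  obtain ⟨I1, hI1⟩ : ∃ I, I = ∫ v : sphere (0 : E n) 1, h' v * curv X v ∂(sph n) := ⟨_, rfl⟩
  obtain ⟨I2, hI2⟩ : ∃ I, I = ∫ v : sphere (0 : E n) 1, h v * t v * curv X v ∂(sph n) := ⟨_, rfl⟩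
  rw [← hI1, ← hI2] at hfin ⊢
  have e1 : b * (((n : ℝ) - 1) * I1 - I2) = 0 := by
    have : a = 1 - ((n : ℝ) - 1) * b := by linarith
    rw [this] at hfin
    linarith
  rcases mul_eq_zero.1 e1 with e2 | e2
  · exact absurd e2 hb.ne'
  · linarith

end Pool.Agent.Helper890.Cov.JM1
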