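import Mathlib
import Pool.Agent.Helper890.Cov.StA
import Pool.Agent.Helper890.Cov.StB
import Pool.Agent.Helper890.Cov.StG
import Pool.Agent.Helper890.Cov.StF




namespace Pool.Agent.Helper890.Cov.JM2
open MeasureTheory Set Filter Topology Metric
open scoped RealInnerProductSpace

open Matrix in
open scoped MatrixOrder Matrix.Norms.L2Operator in
theorem tr_aux {n : ℕ} (A B C : Matrix (Fin n) (Fin n) ℝ) (hA : A.PosDef) (hB : B.PosDef)
    (hdet : A.det = B.det) (hC : C * B = A) :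
    (n : ℝ) ≤ C.trace ∧ (C.trace = n → A = B) := by
  obtain ⟨P, hP⟩ : ∃ P : Matrix (Fin n) (Fin n) ℝ, B = Pᴴ * P := by
    have h := CStarAlgebra.nonneg_iff_eq_star_mul_self.mp
      (Matrix.nonneg_iff_posSemidef.mpr hB.posSemidef)
    simpa [Matrix.star_eq_conjTranspose] using h
  have hBd : 0 < B.det := hB.det_pos
  have hPd : P.det ≠ 0 := by
    intro h
    rw [hP, Matrix.det_mul, h, mul_zero] at hBd
    exact lt_irrefl _ hBd
  have hPu : IsUnit P.det := isUnit_iff_ne_zero.mpr hPd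
  have hPQ : P * P⁻¹ = 1 := Matrix.mul_nonsing_inv P hPu
  have hQP : P⁻¹ * P = 1 := Matrix.nonsing_inv_mul P hPu
  set Q := P⁻¹ with hQ
  have hQinj : Function.Injective Q.mulVec := by
    intro x y hxy
    have h := congrArg (fun v => P *ᵥ v) hxy
    simpa [Matrix.mulVec_mulVec, hPQ] using h
  set D := Qᴴ * A * Q with hD
  have hDpd : D.PosDef := hA.conjTranspose_mul_mul_same hQinj
  have hD2 : D = Qᴴ * C * Pᴴ := by
    rw [hD, ← hC, hP]
    have : Qᴴ * (C * (Pᴴ * P)) * Q = Qᴴ * C * Pᴴ * (P * Q) := by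
      simp only [Matrix.mul_assoc]
    rw [this, hPQ, Matrix.mul_one]
  have hDtr : D.trace = C.trace := by
    rw [hD2, Matrix.mul_assoc, Matrix.trace_mul_comm, Matrix.mul_assoc, ← Matrix.conjTranspose_mul,
      hQP, Matrix.conjTranspose_one, Matrix.mul_one]
  have hDdet : D.det = 1 := by
    have h1 : Pᴴ * D * P = A := by
      rw [hD]
      have : Pᴴ * (Qᴴ * A * Q) * P = (Pᴴ * Qᴴ) * A * (Q * P) := by
        simp only [Matrix.mul_assoc]
      rw [this, ← Matrix.conjTranspose_mul, hQP, Matrix.conjTranspose_one, Matrix.one_mul,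
        Matrix.mul_one]
    have h2 : (Pᴴ).det * D.det * P.det = (Pᴴ).det * P.det := by
      rw [← Matrix.det_mul, ← Matrix.det_mul, h1, hdet, hP, Matrix.det_mul]
    have h3 : (Pᴴ).det ≠ 0 := by
      rw [Matrix.det_conjTranspose]
      simpa using hPd
    have h4 : (Pᴴ).det * P.det ≠ 0 := mul_ne_zero h3 hPd
    have h5 : ((Pᴴ).det * P.det) * D.det = ((Pᴴ).det * P.det) * 1 := by
      rw [mul_one]; linarith [h2, mul_right_comm (Pᴴ).det D.det P.det]
    exact mul_left_cancel₀ h4 h5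
  have hev : ∀ i, 0 < hDpd.1.eigenvalues i := fun i => hDpd.eigenvalues_pos i
  have htr : D.trace = ∑ i, hDpd.1.eigenvalues i := by
    have := hDpd.1.trace_eq_sum_eigenvalues
    simpa using this
  have hpr : ∏ i, hDpd.1.eigenvalues i = 1 := by
    have := hDpd.1.det_eq_prod_eigenvalues
    rw [hDdet] at this
    simpa using this.symm
  have hlog : ∑ i, Real.log (hDpd.1.eigenvalues i) = 0 := by
    rw [← Real.log_prod (fun i _ => (hev i).ne'), hpr, Real.log_one]
  have hle : ∀ i, Real.log (hDpd.1.eigenvalues i) ≤ hDpd.1.eigenvalues i - 1 := fun i =>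
    Real.log_le_sub_one_of_pos (hev i)
  have hsum : ∑ i, (hDpd.1.eigenvalues i - 1) = C.trace - n := by
    rw [Finset.sum_sub_distrib, ← htr, hDtr]
    simp
  constructor
  · have := Finset.sum_le_sum (fun i (_ : i ∈ Finset.univ) => hle i)
    rw [hlog, hsum] at this
    linarith
  · intro heq
    have h1 : ∀ i, hDpd.1.eigenvalues i = 1 := by
      intro i
      by_contra hne
      have hlt : ∑ i, Real.log (hDpd.1.eigenvalues i) < ∑ i, (hDpd.1.eigenvalues i - 1) :=
        Finset.sum_lt_sum (fun i _ => hle i)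
          ⟨i, Finset.mem_univ i, Real.log_lt_sub_one_of_pos (hev i) hne⟩
      rw [hlog, hsum, heq] at hlt
      simp at hlt
    have hD1 : D = 1 := by
      have h := hDpd.1.spectral_theorem
      have h2 : Matrix.diagonal ((RCLike.ofReal : ℝ → ℝ) ∘ hDpd.1.eigenvalues) = 1 := by
        rw [← Matrix.diagonal_one]
        congr 1
        funext i
        simp [h1 i]
      rw [h2] at h
      simpa using h
    have h1' : Pᴴ * D * P = A := by
      rw [hD]
      have : Pᴴ * (Qᴴ * A * Q) * P = (Pᴴ * Qᴴ) * A * (Q * P) := by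
        simp only [Matrix.mul_assoc]
      rw [this, ← Matrix.conjTranspose_mul, hQP, Matrix.conjTranspose_one, Matrix.one_mul,
        Matrix.mul_one]
    rw [← h1', hD1, Matrix.mul_one, hP]


theorem stM2 : StmtM2 := by
  intro n _ B₁ B₂ C hs1 hs2 hp1 hp2 hdet hC
  have key : ∀ B : E n →L[ℝ] E n, ∃ M : Matrix (Fin n) (Fin n) ℝ,
      Matrix.toEuclideanCLM (n := Fin n) (𝕜 := ℝ) M = B := fun B =>
    ⟨(Matrix.toEuclideanCLM (n := Fin n) (𝕜 := ℝ)).symm B,
      (Matrix.toEuclideanCLM (n := Fin n) (𝕜 := ℝ)).apply_symm_apply B⟩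
  obtain ⟨M1, rfl⟩ := key B₁
  obtain ⟨M2, rfl⟩ := key B₂
  obtain ⟨M, rfl⟩ := key C
  have pd : ∀ N : Matrix (Fin n) (Fin n) ℝ,
      (∀ w w', ⟪Matrix.toEuclideanCLM (n := Fin n) (𝕜 := ℝ) N w, w'⟫ =
        ⟪w, Matrix.toEuclideanCLM (n := Fin n) (𝕜 := ℝ) N w'⟫) →
      (∀ w, w ≠ 0 → 0 < ⟪Matrix.toEuclideanCLM (n := Fin n) (𝕜 := ℝ) N w, w⟫) → N.PosDef := by
    intro N hs hp
    refine Matrix.PosDef.of_dotProduct_mulVec_pos ?_ ?_
    · have hsa : IsSelfAdjoint (Matrix.toEuclideanCLM (n := Fin n) (𝕜 := ℝ) N) := by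
        rw [ContinuousLinearMap.isSelfAdjoint_iff_isSymmetric]
        exact hs
      have h2 : Matrix.toEuclideanCLM (n := Fin n) (𝕜 := ℝ) (star N) =
          Matrix.toEuclideanCLM (n := Fin n) (𝕜 := ℝ) N := by
        rw [map_star]
        exact hsa
      exact (Matrix.toEuclideanCLM (n := Fin n) (𝕜 := ℝ)).injective h2
    · intro x hx
      have h := hp (WithLp.toLp 2 x) (by
        intro h0
        apply hx
        have := congrArg WithLp.ofLp h0
        simpa using this)
      rw [real_inner_comm, Matrix.inner_toEuclideanCLM] at h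
      simpa using h
  have hd : ∀ N : Matrix (Fin n) (Fin n) ℝ,
      (Matrix.toEuclideanCLM (n := Fin n) (𝕜 := ℝ) N).det = N.det := by
    intro N
    show LinearMap.det (Matrix.toEuclideanLin N) = N.det
    rw [Matrix.toEuclideanLin_eq_toLin_orthonormal]
    exact LinearMap.det_toLin _ _
  have ht : ∀ N : Matrix (Fin n) (Fin n) ℝ, LinearMap.trace ℝ (E n)
      ((Matrix.toEuclideanCLM (n := Fin n) (𝕜 := ℝ) N : E n →L[ℝ] E n) : E n →ₗ[ℝ] E n) =
        N.trace := by
    intro N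
    show LinearMap.trace ℝ (E n) (Matrix.toEuclideanLin N) = N.trace
    rw [Matrix.toEuclideanLin_eq_toLin_orthonormal]
    exact Matrix.trace_toLin_eq _ _
  have hmul : M * M2 = M1 := by
    apply (Matrix.toEuclideanCLM (n := Fin n) (𝕜 := ℝ)).injective
    rw [map_mul]
    exact hC
  rw [hd, hd] at hdet
  rw [ht]
  obtain ⟨h1, h2⟩ := tr_aux M1 M2 M (pd M1 hs1 hp1) (pd M2 hs2 hp2) hdet hmul
  exact ⟨h1, fun h => by rw [h2 h]⟩

end Pool.Agent.Helper890.Cov.JM2
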