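import Mathlib
import Pool.Agent.Helper890.Cov.StG




namespace Pool.Agent.Helper890.Cov.JP
open MeasureTheory Set Filter Topology Metric
open scoped RealInnerProductSpace

theorem polar_bochner {n : ℕ} (hn : 2 ≤ n) {F : Type*} [NormedAddCommGroup F] [NormedSpace ℝ F]
    (f : E n → F) (hf : Integrable f) :
    ∫ ξ, f ξ = ∫ v : sphere (0 : E n) 1,
      (∫ r in Ioi (0 : ℝ), r ^ (n - 1) • f (r • (v : E n))) ∂(sph n) := by
  have hdim : Module.finrank ℝ (E n) = n := by simp [E]
  haveI : Nontrivial (E n) := by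
    apply Module.nontrivial_of_finrank_pos (R := ℝ)
    rw [hdim]; omega
  set μ : Measure (E n) := volume with hμ
  have hmp := μ.measurePreserving_homeomorphUnitSphereProd
  rw [hdim] at hmp
  set g : sphere (0 : E n) 1 × Ioi (0 : ℝ) → F := fun p => f ((p.2 : ℝ) • (p.1 : E n)) with hg
  have hcomp : ∀ x : ({(0 : E n)}ᶜ : Set (E n)), g (homeomorphUnitSphereProd (E n) x) = f x := by
    intro x
    have h1 := (homeomorphUnitSphereProd (E n)).symm_apply_apply x
    have h2 := congrArg Subtype.val h1
    simp only [hg]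
    congr 1
  have e1 : ∫ ξ, f ξ ∂μ = ∫ x : ({(0 : E n)}ᶜ : Set (E n)), f x ∂(μ.comap (↑)) := by
    rw [integral_subtype_comap (measurableSet_singleton _).compl f,
      restrict_compl_singleton]
  have e2 : ∫ x : ({(0 : E n)}ᶜ : Set (E n)), f x ∂(μ.comap (↑)) =
      ∫ p, g p ∂(μ.toSphere.prod (.volumeIoiPow (n - 1))) := by
    rw [← hmp.integral_comp (Homeomorph.measurableEmbedding _) g]
    exact integral_congr_ae (Eventually.of_forall fun x => (hcomp x).symm)
  have hint : Integrable g (μ.toSphere.prod (.volumeIoiPow (n - 1))) := by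
    rw [← hmp.integrable_comp_emb (Homeomorph.measurableEmbedding _)]
    have h3 : Integrable (fun x : ({(0 : E n)}ᶜ : Set (E n)) => f x) (μ.comap (↑)) := by
      have h4 := (integrableOn_iff_comap_subtypeVal (μ := μ) (f := f)
        (measurableSet_singleton (0 : E n)).compl).1 hf.integrableOn
      exact h4
    refine h3.congr (Eventually.of_forall fun x => (hcomp x).symm)
  rw [e1, e2, integral_prod _ hint]
  refine integral_congr_ae (Eventually.of_forall fun v => ?_)
  simp only [Measure.volumeIoiPow, ENNReal.ofReal]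
  rw [integral_withDensity_eq_integral_smul]
  · rw [integral_subtype_comap measurableSet_Ioi fun a ↦ Real.toNNReal (a ^ (n - 1)) • f (a • (v : E n))]
    refine setIntegral_congr_fun measurableSet_Ioi fun x hx ↦ ?_
    rw [NNReal.smul_def, Real.coe_toNNReal _ (pow_nonneg (le_of_lt hx) _)]
  · exact (measurable_subtype_coe.pow_const _).real_toNNReal

theorem polar_lintegral {n : ℕ} (hn : 2 ≤ n) (f : E n → ENNReal) (hf : Measurable f) :
    ∫⁻ ξ, f ξ =
    ∫⁻ v : sphere (0 : E n) 1, (∫⁻ r in Ioi (0 : ℝ), ENNReal.ofReal (r ^ (n - 1)) * f (r • (v : E n))) ∂(sph n) := by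
  have hdim : Module.finrank ℝ (E n) = n := by simp [E]
  haveI : Nontrivial (E n) := by
    apply Module.nontrivial_of_finrank_pos (R := ℝ)
    rw [hdim]; omega
  set μ : Measure (E n) := volume with hμ
  have hmp := μ.measurePreserving_homeomorphUnitSphereProd
  rw [hdim] at hmp
  set g : sphere (0 : E n) 1 × Ioi (0 : ℝ) → ENNReal := fun p => f ((p.2 : ℝ) • (p.1 : E n)) with hg
  have hgm : Measurable g := by
    apply hf.comp
    exact (continuous_subtype_val.comp continuous_snd).smul
      (continuous_subtype_val.comp continuous_fst) |>.measurable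
  have hcomp : ∀ x : ({(0 : E n)}ᶜ : Set (E n)), g (homeomorphUnitSphereProd (E n) x) = f x := by
    intro x
    have h1 := (homeomorphUnitSphereProd (E n)).symm_apply_apply x
    have h2 := congrArg Subtype.val h1
    simp only [hg]
    congr 1
  have e1 : ∫⁻ ξ, f ξ ∂μ = ∫⁻ x : ({(0 : E n)}ᶜ : Set (E n)), f x ∂(μ.comap (↑)) := by
    rw [lintegral_subtype_comap (measurableSet_singleton _).compl f,
      restrict_compl_singleton]
  have e2 : ∫⁻ x : ({(0 : E n)}ᶜ : Set (E n)), f x ∂(μ.comap (↑)) =
      ∫⁻ p, g p ∂(μ.toSphere.prod (.volumeIoiPow (n - 1))) := by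
    rw [← hmp.lintegral_comp_emb (Homeomorph.measurableEmbedding _) g]
    exact lintegral_congr fun x => (hcomp x).symm
  rw [e1, e2, lintegral_prod _ hgm.aemeasurable]
  refine lintegral_congr fun v => ?_
  simp only [Measure.volumeIoiPow]
  have hgv : Measurable (fun r : Ioi (0:ℝ) => g (v, r)) := hgm.comp (measurable_prodMk_left)
  have hden : Measurable (fun r : Ioi (0:ℝ) => ENNReal.ofReal ((r : ℝ) ^ (n - 1))) :=
    (measurable_subtype_coe.pow_const _).ennreal_ofReal
  rw [lintegral_withDensity_eq_lintegral_mul _ hden hgv]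
  rw [← lintegral_subtype_comap measurableSet_Ioi]
  rfl

theorem stP : StmtP := by
  intro n hn
  refine ⟨fun f hf => ?_, fun f hf => ?_, fun f hf => polar_lintegral hn f hf⟩
  · simpa only [smul_eq_mul] using polar_bochner hn f hf
  · simpa only [Complex.real_smul] using polar_bochner hn f hf

end Pool.Agent.Helper890.Cov.JP
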