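import Mathlib
import Pool.Agent.Helper890.Cov.StA
import Pool.Agent.Helper890.Cov.StB
import Pool.Agent.Helper890.Cov.StG
import Pool.Agent.Helper890.Cov.StF




namespace Pool.Agent.Helper890.Cov.JS
open MeasureTheory Set Filter Topology Metric
open scoped RealInnerProductSpace

noncomputable def stS_T (n : ℕ) : (E n →L[ℝ] ℝ) →L[ℝ] E n :=
  ((InnerProductSpace.toDual ℝ (E n)).symm.toContinuousLinearEquiv : StrongDual ℝ (E n) →L⋆[ℝ] E n)

theorem stS_T_inner (n : ℕ) (L : E n →L[ℝ] ℝ) (x : E n) : ⟪stS_T n L, x⟫ = L x :=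
  InnerProductSpace.toDual_symm_apply

theorem stS_T_inner' (n : ℕ) (L : E n →L[ℝ] ℝ) (x : E n) : ⟪x, stS_T n L⟫ = L x := by
  rw [real_inner_comm, stS_T_inner]

noncomputable def stS_I (n : ℕ) : E n →L[ℝ] (E n →L[ℝ] ℝ) := innerSL ℝ

theorem stS_sf {n : ℕ} (K : Set (E n)) (q u : E n) (hq : q ∈ K) (hmax : ∀ y ∈ K, ⟪y, u⟫ ≤ ⟪q, u⟫) :
    sf K u = ⟪q, u⟫ := by
  unfold sf
  apply IsGreatest.csSup_eq
  refine ⟨⟨q, hq, rfl⟩, ?_⟩
  rintro _ ⟨y, hy, rfl⟩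
  exact hmax y hy

theorem stS_slope {n : ℕ} (ρ : E n → ℝ) (q v : E n) (hρq : ρ q = 0) (hd : DifferentiableAt ℝ ρ q) :
    Tendsto (fun t : ℝ => t⁻¹ * ρ (q + t • v)) (𝓝[>] 0) (𝓝 (fderiv ℝ ρ q v)) := by
  have h1 := hd.hasFDerivAt.hasLineDerivAt v
  have h2 : HasDerivAt (fun t : ℝ => ρ (q + t • v)) (fderiv ℝ ρ q v) 0 := h1
  rw [hasDerivAt_iff_tendsto_slope_zero] at h2
  have h3 := h2.mono_left (nhdsGT_le_nhdsNE (0 : ℝ))
  refine h3.congr fun t => ?_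
  simp only [zero_add, zero_smul, add_zero, hρq, sub_zero, smul_eq_mul]

theorem stS_line {n : ℕ} (q v : E n) : Tendsto (fun t : ℝ => q + t • v) (𝓝[>] 0) (𝓝 q) := by
  have h : Tendsto (fun t : ℝ => q + t • v) (𝓝 0) (𝓝 (q + (0 : ℝ) • v)) :=
    (continuous_const.add (continuous_id.smul continuous_const)).tendsto 0
  rw [zero_smul, add_zero] at h
  exact h.mono_left nhdsWithin_le_nhds

/-- first-order condition from convexity -/
theorem stS_conv {n : ℕ} (K : Set (E n)) (hK : Convex ℝ K) (ρ : E n → ℝ) (q : E n) (hq : q ∈ K)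
    (hρq : ρ q = 0) (hd : DifferentiableAt ℝ ρ q) (hev : ∀ᶠ x in 𝓝 q, x ∈ K ↔ ρ x ≤ 0) (y : E n)
    (hy : y ∈ K) : fderiv ℝ ρ q (y - q) ≤ 0 := by
  refine le_of_tendsto (stS_slope ρ q (y - q) hρq hd) ?_
  have h1 : ∀ᶠ t : ℝ in 𝓝[>] 0, t < 1 :=
    (eventually_lt_nhds one_pos).filter_mono nhdsWithin_le_nhds
  filter_upwards [h1, self_mem_nhdsWithin, (stS_line q (y - q)).eventually hev] with t ht1 ht0 ht
  have ht0' : 0 < t := ht0
  have h2 : q + t • (y - q) ∈ K := by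
    have h3 := hK hq hy (by linarith : (0 : ℝ) ≤ 1 - t) ht0'.le (by ring)
    have h4 : q + t • (y - q) = (1 - t) • q + t • y := by
      rw [smul_sub, sub_smul, one_smul]
      abel
    rw [h4]
    exact h3
  have h5 := ht.1 h2
  exact mul_nonpos_of_nonneg_of_nonpos (inv_nonneg.2 ht0'.le) h5

/-- normal directions -/
theorem stS_normal {n : ℕ} (K : Set (E n)) (ρ : E n → ℝ) (p u : E n) (hρp : ρ p = 0)
    (hd : DifferentiableAt ℝ ρ p) (hev : ∀ᶠ x in 𝓝 p, x ∈ K ↔ ρ x ≤ 0)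
    (hmax : ∀ y ∈ K, ⟪y, u⟫ ≤ ⟪p, u⟫) (w : E n) (hw : fderiv ℝ ρ p w < 0) : ⟪w, u⟫ ≤ 0 := by
  have h1 : ∀ᶠ t : ℝ in 𝓝[>] 0, t⁻¹ * ρ (p + t • w) < 0 :=
    (stS_slope ρ p w hρp hd).eventually (gt_mem_nhds hw)
  obtain ⟨t, h2, h3, h4⟩ := (h1.and ((eventually_mem_nhdsWithin (a := (0 : ℝ)) (s := Ioi 0)).and
    ((stS_line p w).eventually hev))).exists
  have ht : 0 < t := h3
  have h5 : ρ (p + t • w) ≤ 0 := by
    by_contra hc
    push Not at hc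
    have := mul_pos (inv_pos.2 ht) hc
    linarith
  have h6 := hmax _ (h4.2 h5)
  rw [inner_add_left, inner_smul_left] at h6
  simp only [conj_trivial] at h6
  by_contra hc
  push Not at hc
  have := mul_pos ht hc
  linarith

theorem stS_parallel {n : ℕ} (N u : E n) (hN : N ≠ 0) (hu : u ≠ 0)
    (h : ∀ w, ⟪N, w⟫ < 0 → ⟪w, u⟫ ≤ 0) : ∃ c : ℝ, 0 < c ∧ u = c • N := by
  have hN2 : 0 < ⟪N, N⟫ := real_inner_self_pos.2 hN
  set c : ℝ := ⟪N, u⟫ / ⟪N, N⟫ with hc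
  set v : E n := u - c • N with hv
  have hNv : ⟪N, v⟫ = 0 := by
    rw [hv, inner_sub_right, inner_smul_right, hc]
    field_simp
    ring
  have huv : u = v + c • N := by rw [hv]; abel
  have hvu : ⟪v, u⟫ = ⟪v, v⟫ := by
    conv_lhs => rw [huv]
    rw [inner_add_right, inner_smul_right, real_inner_comm N v, hNv]
    ring
  have hw : ∀ ε : ℝ, 0 < ε → ⟪v, v⟫ ≤ ε * ⟪N, u⟫ := by
    intro ε hε
    have h1 := h (v - ε • N) (by
      rw [inner_sub_right, inner_smul_right, hNv]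
      have := mul_pos hε hN2
      linarith)
    rw [inner_sub_left, inner_smul_left, hvu] at h1
    simp only [conj_trivial] at h1
    linarith
  have hNu : 0 ≤ ⟪N, u⟫ := by
    have h1 := hw 1 one_pos
    have h2 : 0 ≤ ⟪v, v⟫ := real_inner_self_nonneg
    linarith
  have hv0 : ⟪v, v⟫ = 0 := by
    have h2 : 0 ≤ ⟪v, v⟫ := real_inner_self_nonneg
    by_contra hne
    have h3 : 0 < ⟪v, v⟫ := lt_of_le_of_ne h2 (Ne.symm hne)
    have h4 := hw (⟪v, v⟫ / (2 * (⟪N, u⟫ + 1))) (by positivity)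
    rw [div_mul_eq_mul_div, le_div_iff₀ (by positivity)] at h4
    nlinarith
  have hv1 : v = 0 := inner_self_eq_zero.1 hv0
  rw [hv1, zero_add] at huv
  refine ⟨c, ?_, huv⟩
  have hc0 : 0 ≤ c := div_nonneg hNu hN2.le
  refine lt_of_le_of_ne hc0 fun e => hu ?_
  rw [huv, ← e, zero_smul]

theorem stS_local {n : ℕ} (K : Set (E n)) (hK : Convex ℝ K) (ρ : E n → ℝ) (p u₀ : E n) (lam : ℝ)
    (hρ : ContDiffAt ℝ 2 ρ p) (hev : ∀ᶠ x in 𝓝 p, x ∈ K ↔ ρ x ≤ 0) (hρp : ρ p = 0) (hlam : 0 < lam)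
    (hu : u₀ = lam • stS_T n (fderiv ℝ ρ p)) (hN : fderiv ℝ ρ p ≠ 0)
    (hpos : ∀ w, w ≠ 0 → fderiv ℝ ρ p w = 0 → 0 < fderiv ℝ (fderiv ℝ ρ) p w w) :
    ∃ x : E n → E n, ContDiffAt ℝ 1 x u₀ ∧
      (∀ᶠ u in 𝓝 u₀, x u ∈ K ∧ ∀ y ∈ K, ⟪y, u⟫ ≤ ⟪x u, u⟫) ∧
      ∃ A : E n →L[ℝ] E n, HasFDerivAt x A u₀ ∧ ∀ w, w ≠ 0 → ⟪w, u₀⟫ = 0 → 0 < ⟪A w, w⟫ := by
  have hG1 : ContDiffAt ℝ 1 (fderiv ℝ ρ) p := hρ.fderiv_right (by norm_num)
  set B : E n →L[ℝ] (E n →L[ℝ] ℝ) := fderiv ℝ (fderiv ℝ ρ) p with hBdef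
  have hB : HasFDerivAt (fderiv ℝ ρ) B p := (hG1.differentiableAt one_ne_zero).hasFDerivAt
  set N : E n := stS_T n (fderiv ℝ ρ p) with hNdef
  have hN0 : N ≠ 0 := by
    intro e
    apply hN
    ext x
    rw [← stS_T_inner, ← hNdef, e, inner_zero_left]
    rfl
  set Φ : E n × ℝ → E n × ℝ := fun z => (z.2 • stS_T n (fderiv ℝ ρ z.1), ρ z.1) with hΦdef
  have hΦ : ContDiffAt ℝ 1 Φ (p, lam) := by
    have c1 : ContDiffAt ℝ 1 (fun z : E n × ℝ => z.1) (p, lam) := contDiffAt_fst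
    have c2 : ContDiffAt ℝ 1 (fun z : E n × ℝ => z.2) (p, lam) := contDiffAt_snd
    have c3 : ContDiffAt ℝ 1 (fun z : E n × ℝ => fderiv ℝ ρ z.1) (p, lam) :=
      ContDiffAt.comp (p, lam) (f := fun z : E n × ℝ => z.1) (g := fderiv ℝ ρ) hG1 c1
    have c4 : ContDiffAt ℝ 1 (fun z : E n × ℝ => stS_T n (fderiv ℝ ρ z.1)) (p, lam) :=
      (stS_T n).contDiff.contDiffAt.comp (p, lam) c3
    have c5 : ContDiffAt ℝ 1 (fun z : E n × ℝ => ρ z.1) (p, lam) :=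
      ContDiffAt.comp (p, lam) (f := fun z : E n × ℝ => z.1) (g := ρ)
        (hρ.of_le one_le_two) c1
    exact (c2.smul c4).prodMk c5
  have hρd : HasFDerivAt ρ (fderiv ℝ ρ p) p := (hρ.differentiableAt two_ne_zero).hasFDerivAt
  obtain ⟨D, hD, hDa⟩ : ∃ D : (E n × ℝ) →L[ℝ] (E n × ℝ), HasFDerivAt Φ D (p, lam) ∧
      ∀ z, D z = (lam • stS_T n (B z.1) + z.2 • N, fderiv ℝ ρ p z.1) := by
    have d1 : HasFDerivAt (fun z : E n × ℝ => z.1) (ContinuousLinearMap.fst ℝ (E n) ℝ) (p, lam) :=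
      hasFDerivAt_fst
    have d2 : HasFDerivAt (fun z : E n × ℝ => z.2) (ContinuousLinearMap.snd ℝ (E n) ℝ) (p, lam) :=
      hasFDerivAt_snd
    have d3 : HasFDerivAt (fun z : E n × ℝ => fderiv ℝ ρ z.1)
        (B.comp (ContinuousLinearMap.fst ℝ (E n) ℝ)) (p, lam) :=
      HasFDerivAt.comp (p, lam) (g := fderiv ℝ ρ) (f := fun z : E n × ℝ => z.1) hB d1
    have d4 : HasFDerivAt (fun z : E n × ℝ => stS_T n (fderiv ℝ ρ z.1))
        ((stS_T n).comp (B.comp (ContinuousLinearMap.fst ℝ (E n) ℝ))) (p, lam) :=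
      (stS_T n).hasFDerivAt.comp (p, lam) d3
    have d5 : HasFDerivAt (fun z : E n × ℝ => ρ z.1)
        ((fderiv ℝ ρ p).comp (ContinuousLinearMap.fst ℝ (E n) ℝ)) (p, lam) :=
      HasFDerivAt.comp (p, lam) (g := ρ) (f := fun z : E n × ℝ => z.1) hρd d1
    refine ⟨_, (d2.smul d4).prodMk d5, fun z => ?_⟩
    rfl
  have hinj : ∀ z, D z = 0 → z = 0 := by
    intro z hz
    rw [hDa] at hz
    have h1 : lam • stS_T n (B z.1) + z.2 • N = 0 := congrArg Prod.fst hz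
    have h2 : fderiv ℝ ρ p z.1 = 0 := congrArg Prod.snd hz
    have h3 : z.1 = 0 := by
      by_contra hne
      have h4 := hpos z.1 hne h2
      have h5 : ⟪z.1, lam • stS_T n (B z.1) + z.2 • N⟫ = 0 := by rw [h1, inner_zero_right]
      rw [inner_add_right, inner_smul_right, inner_smul_right, stS_T_inner', hNdef, stS_T_inner',
        h2, mul_zero, add_zero] at h5
      have := mul_pos hlam h4
      linarith
    have h6 : z.2 = 0 := by
      rw [h3, map_zero, map_zero, smul_zero, zero_add] at h1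
      exact (smul_eq_zero.1 h1).resolve_right hN0
    exact Prod.ext h3 h6
  set e : (E n × ℝ) ≃L[ℝ] (E n × ℝ) :=
    (LinearEquiv.ofInjectiveEndo (D : (E n × ℝ) →ₗ[ℝ] (E n × ℝ))
      ((injective_iff_map_eq_zero _).2 hinj)).toContinuousLinearEquiv with hedef
  have heD : (e : (E n × ℝ) →L[ℝ] (E n × ℝ)) = D := by
    ext z <;> rfl
  have hD' : HasFDerivAt Φ (e : (E n × ℝ) →L[ℝ] (E n × ℝ)) (p, lam) := by
    rw [heD]
    exact hD
  have hS : HasStrictFDerivAt Φ (e : (E n × ℝ) →L[ℝ] (E n × ℝ)) (p, lam) :=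
    hΦ.hasStrictFDerivAt' hD' one_ne_zero
  set Ψ : E n × ℝ → E n × ℝ := hS.localInverse Φ e (p, lam) with hΨdef
  have hΦp : Φ (p, lam) = (u₀, 0) := by
    rw [hΦdef]
    simp only
    rw [hρp, ← hNdef, ← hu]
  have hΨC : ContDiffAt ℝ 1 Ψ (u₀, 0) := by
    rw [← hΦp]
    exact hΦ.to_localInverse hD' one_ne_zero
  have hΨ0 : Ψ (u₀, 0) = (p, lam) := by
    rw [← hΦp]
    exact hS.localInverse_apply_image
  have hΨD : HasFDerivAt Ψ (e.symm : (E n × ℝ) →L[ℝ] (E n × ℝ)) (u₀, 0) := by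
    rw [← hΦp]
    exact hS.to_localInverse.hasFDerivAt
  have hΨr : ∀ᶠ y in 𝓝 ((u₀, 0) : E n × ℝ), Φ (Ψ y) = y := by
    rw [← hΦp]
    exact hS.eventually_right_inverse
  have hι : Tendsto (fun u : E n => ((u, 0) : E n × ℝ)) (𝓝 u₀) (𝓝 (u₀, 0)) :=
    (continuous_id.prodMk continuous_const).tendsto u₀
  have hΨc : Tendsto (fun u : E n => Ψ (u, 0)) (𝓝 u₀) (𝓝 (p, lam)) := by
    have := hΨC.continuousAt.tendsto.comp hι
    rw [hΨ0] at this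
    exact this
  have hx1 : Tendsto (fun u : E n => (Ψ (u, 0)).1) (𝓝 u₀) (𝓝 p) :=
    (continuous_fst.tendsto (p, lam)).comp hΨc
  have hx2 : Tendsto (fun u : E n => (Ψ (u, 0)).2) (𝓝 u₀) (𝓝 lam) :=
    (continuous_snd.tendsto (p, lam)).comp hΨc
  refine ⟨fun u => (Ψ (u, 0)).1, ?_, ?_, ?_⟩
  · have c1 : ContDiffAt ℝ 1 (fun u : E n => ((u, 0) : E n × ℝ)) u₀ :=
      contDiffAt_id.prodMk contDiffAt_const
    have c2 : ContDiffAt ℝ 1 (fun u : E n => Ψ (u, 0)) u₀ :=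
      ContDiffAt.comp u₀ (g := Ψ) (f := fun u : E n => ((u, 0) : E n × ℝ)) hΨC c1
    exact c2.fst
  · have hd : ∀ᶠ y in 𝓝 p, ContDiffAt ℝ 2 ρ y := hρ.eventually (by simp)
    filter_upwards [hι.eventually hΨr, hx2.eventually (lt_mem_nhds hlam),
      hx1.eventually (eventually_eventually_nhds.2 hev), hx1.eventually hd] with u h1 h2 h3 h4
    have h5 : (Ψ (u, 0)).2 • stS_T n (fderiv ℝ ρ (Ψ (u, 0)).1) = u := congrArg Prod.fst h1
    have h6 : ρ (Ψ (u, 0)).1 = 0 := congrArg Prod.snd h1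
    have h7 : (Ψ (u, 0)).1 ∈ K := h3.self_of_nhds.2 h6.le
    refine ⟨h7, fun y hy => ?_⟩
    have h8 := stS_conv K hK ρ _ h7 h6 (h4.differentiableAt two_ne_zero) h3 y hy
    rw [← stS_T_inner] at h8
    have h9 : ⟪u, y - (Ψ (u, 0)).1⟫ ≤ 0 := by
      nth_rewrite 1 [← h5]
      rw [inner_smul_left]
      simp only [conj_trivial]
      exact mul_nonpos_of_nonneg_of_nonpos h2.le h8
    rw [inner_sub_right, real_inner_comm, real_inner_comm (Ψ (u, 0)).1 u] at h9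
    linarith
  · have d1 : HasFDerivAt (fun u : E n => ((u, 0) : E n × ℝ)) (ContinuousLinearMap.inl ℝ (E n) ℝ)
        u₀ := (ContinuousLinearMap.inl ℝ (E n) ℝ).hasFDerivAt
    have d2 : HasFDerivAt (fun u : E n => Ψ (u, 0))
        ((e.symm : (E n × ℝ) →L[ℝ] (E n × ℝ)).comp (ContinuousLinearMap.inl ℝ (E n) ℝ)) u₀ :=
      HasFDerivAt.comp u₀ (g := Ψ) (f := fun u : E n => ((u, 0) : E n × ℝ)) hΨD d1
    refine ⟨_, d2.fst, fun w hw hwu => ?_⟩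
    set z : E n × ℝ := e.symm (w, 0) with hz
    have hDz : D z = (w, 0) := by
      rw [← heD]
      exact e.apply_symm_apply (w, 0)
    rw [hDa] at hDz
    have h1 : lam • stS_T n (B z.1) + z.2 • N = w := congrArg Prod.fst hDz
    have h2 : fderiv ℝ ρ p z.1 = 0 := congrArg Prod.snd hDz
    show 0 < ⟪z.1, w⟫
    have h3 : ⟪z.1, w⟫ = lam * B z.1 z.1 := by
      nth_rewrite 1 [← h1]
      rw [inner_add_right, inner_smul_right, inner_smul_right, stS_T_inner', hNdef, stS_T_inner',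
        h2, mul_zero, add_zero]
    rw [h3]
    have h4 : z.1 ≠ 0 := by
      intro hz0
      apply hw
      rw [hz0, map_zero, map_zero, smul_zero, zero_add] at h1
      have h5 : ⟪w, N⟫ = 0 := by
        rw [hu, inner_smul_right] at hwu
        exact (mul_eq_zero.1 hwu).resolve_left hlam.ne'
      have h6 : ⟪w, w⟫ = 0 := by
        nth_rewrite 2 [← h1]
        rw [inner_smul_right, h5, mul_zero]
      exact inner_self_eq_zero.1 h6
    exact mul_pos hlam (hpos z.1 h4 h2)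

theorem stS_key {n : ℕ} (K : Set (E n)) (hKc : IsCompact K) (hK : Convex ℝ K)
    (hKi : (interior K).Nonempty) (hB : BdryC2Plus K) (u₀ : E n) (hu₀ : u₀ ≠ 0) :
    ∃ x : E n → E n, ContDiffAt ℝ 1 x u₀ ∧
      (∀ᶠ u in 𝓝 u₀, x u ∈ K ∧ ∀ y ∈ K, ⟪y, u⟫ ≤ ⟪x u, u⟫) ∧
      ∃ A : E n →L[ℝ] E n, HasFDerivAt x A u₀ ∧ ∀ w, w ≠ 0 → ⟪w, u₀⟫ = 0 → 0 < ⟪A w, w⟫ := by
  have hKne : K.Nonempty := hKi.mono interior_subset
  have hcont : Continuous (fun y : E n => ⟪y, u₀⟫) := continuous_id.inner continuous_const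
  obtain ⟨p, hp, hmax⟩ := hKc.exists_isMaxOn hKne hcont.continuousOn
  have hmax' : ∀ y ∈ K, ⟪y, u₀⟫ ≤ ⟪p, u₀⟫ := fun y hy => hmax hy
  have hpi : p ∉ interior K := by
    intro hpi
    have h1 : ∀ᶠ t : ℝ in 𝓝[>] 0, p + t • u₀ ∈ K :=
      (stS_line p u₀).eventually (mem_interior_iff_mem_nhds.1 hpi)
    obtain ⟨t, h2, h3⟩ := (h1.and (eventually_mem_nhdsWithin (a := (0 : ℝ)) (s := Ioi 0))).exists
    have h4 := hmax' _ h2
    rw [inner_add_left, inner_smul_left] at h4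
    simp only [conj_trivial] at h4
    have h5 : 0 < ⟪u₀, u₀⟫ := real_inner_self_pos.2 hu₀
    have ht : 0 < t := h3
    have := mul_pos ht h5
    linarith
  have hpf : p ∈ frontier K := ⟨subset_closure hp, hpi⟩
  obtain ⟨ρ, hρ, hN, hev, hpos⟩ := hB p hpf
  have hρc : ContinuousAt ρ p := hρ.continuousAt
  have hρp : ρ p = 0 := by
    have h1 : ρ p ≤ 0 := hev.self_of_nhds.1 hp
    rcases lt_or_eq_of_le h1 with h2 | h2
    · exfalso
      apply hpi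
      rw [mem_interior_iff_mem_nhds]
      filter_upwards [hev, hρc.eventually (gt_mem_nhds h2)] with y h3 h4
      exact h3.2 (le_of_lt h4)
    · exact h2
  have hρd : DifferentiableAt ℝ ρ p := hρ.differentiableAt two_ne_zero
  have hN0 : stS_T n (fderiv ℝ ρ p) ≠ 0 := by
    intro e
    apply hN
    ext x
    rw [← stS_T_inner, e, inner_zero_left]
    rfl
  obtain ⟨lam, hlam, hu⟩ := stS_parallel (stS_T n (fderiv ℝ ρ p)) u₀ hN0 hu₀ (fun w hw =>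
    stS_normal K ρ p u₀ hρp hρd hev hmax' w (by rwa [stS_T_inner] at hw))
  exact stS_local K hK ρ p u₀ lam hρ hev hρp hlam hu hN hpos

theorem stS_deriv {n : ℕ} (K : Set (E n)) (x : E n → E n) (u : E n) (hc : ContinuousAt x u)
    (h : ∀ᶠ v in 𝓝 u, x v ∈ K ∧ ∀ y ∈ K, ⟪y, v⟫ ≤ ⟪x v, v⟫) :
    HasFDerivAt (sf K) (stS_I n (x u)) u := by
  have h0 := h.self_of_nhds
  refine HasFDerivAt.of_isLittleO ?_
  rw [Asymptotics.isLittleO_iff]
  intro c hc0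
  have h1 : ∀ᶠ v in 𝓝 u, ‖x v - x u‖ < c := by
    have h2 : Tendsto (fun v => ‖x v - x u‖) (𝓝 u) (𝓝 0) := by
      have := (hc.tendsto.sub_const (x u)).norm
      rwa [sub_self, norm_zero] at this
    exact h2.eventually (gt_mem_nhds hc0)
  filter_upwards [h, h1] with v hv hv1
  rw [stS_sf K (x v) v hv.1 hv.2, stS_sf K (x u) u h0.1 h0.2]
  have e0 : stS_I n (x u) (v - u) = ⟪x u, v - u⟫ := rfl
  rw [e0]
  have h2 : ⟪x u, v⟫ ≤ ⟪x v, v⟫ := hv.2 _ h0.1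
  have h3 : ⟪x v, u⟫ ≤ ⟪x u, u⟫ := h0.2 _ hv.1
  have h4 : 0 ≤ ⟪x v, v⟫ - ⟪x u, u⟫ - ⟪x u, v - u⟫ := by
    rw [inner_sub_right]
    linarith
  have h5 : ⟪x v, v⟫ - ⟪x u, u⟫ - ⟪x u, v - u⟫ ≤ ⟪x v - x u, v - u⟫ := by
    rw [inner_sub_left, inner_sub_right, inner_sub_right]
    linarith
  rw [Real.norm_eq_abs, abs_of_nonneg h4]
  calc _ ≤ ⟪x v - x u, v - u⟫ := h5
    _ ≤ ‖x v - x u‖ * ‖v - u‖ := real_inner_le_norm _ _
    _ ≤ c * ‖v - u‖ := mul_le_mul_of_nonneg_right hv1.le (norm_nonneg _)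

theorem stS : StmtS := by
  intro n _ K hKc hK hKi hB
  have key : ∀ u₀ : E n, u₀ ≠ 0 → ∃ x : E n → E n, ContDiffAt ℝ 1 x u₀ ∧
      (∀ᶠ u in 𝓝 u₀, HasFDerivAt (sf K) (stS_I n (x u)) u) ∧
      ∃ A : E n →L[ℝ] E n, HasFDerivAt x A u₀ ∧ ∀ w, w ≠ 0 → ⟪w, u₀⟫ = 0 → 0 < ⟪A w, w⟫ := by
    intro u₀ hu₀
    obtain ⟨x, hx, hev, hA⟩ := stS_key K hKc hK hKi hB u₀ hu₀
    refine ⟨x, hx, ?_, hA⟩
    have h1 : ∀ᶠ u in 𝓝 u₀, ContDiffAt ℝ 1 x u := hx.eventually (by simp)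
    filter_upwards [eventually_eventually_nhds.2 hev, h1] with u h2 h3
    exact stS_deriv K x u h3.continuousAt h2
  constructor
  · intro u₀ hu₀
    obtain ⟨x, hx, hev, -⟩ := key u₀ hu₀
    apply ContDiffAt.contDiffWithinAt
    have h2 : ContDiffAt ℝ (((1 : ℕ) : WithTop ℕ∞) + 1) (sf K) u₀ := by
      rw [contDiffAt_succ_iff_hasFDerivAt]
      refine ⟨fun u => stS_I n (x u), ⟨_, hev, fun u hu => hu⟩, ?_⟩
      exact (stS_I n).contDiff.contDiffAt.comp u₀ hx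
    have e : (((1 : ℕ) : WithTop ℕ∞) + 1) = 2 := by norm_num
    rwa [e] at h2
  · intro u₀ hu₀ w hw hwu
    obtain ⟨x, hx, hev, A, hA, hpos⟩ := key u₀ hu₀
    have h1 : gradient (sf K) =ᶠ[𝓝 u₀] x := by
      filter_upwards [hev] with u hu
      have h2 : HasGradientAt (sf K) (x u) u := by
        rw [hasGradientAt_iff_hasFDerivAt]
        exact hu
      exact h2.gradient
    rw [h1.fderiv_eq, hA.fderiv]
    exact hpos w hw hwu

end Pool.Agent.Helper890.Cov.JS
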