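import Mathlib
import Pool.Agent.Helper890.Cov.StA
import Pool.Agent.Helper890.Cov.StB
import Pool.Agent.Helper890.Cov.StG
import Pool.Agent.Helper890.Cov.StF
import Pool.Agent.Helper890.Cov.StS




namespace Pool.Agent.Helper890.Cov.JS0
open MeasureTheory Set Filter Topology Metric
open scoped RealInnerProductSpace

theorem s0_sym {n : ℕ} {ρ : E n → ℝ} {p : E n} (h : ContDiffAt ℝ 2 ρ p) (v w : E n) :
    fderiv ℝ (fderiv ℝ ρ) p v w = fderiv ℝ (fderiv ℝ ρ) p w v := by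
  have h1 := h.isSymmSndFDerivAt (by simp)
  exact h1 v w

theorem s0_taylor {n : ℕ} {ρ : E n → ℝ} {p : E n} (h : ContDiffAt ℝ 2 ρ p) (ε : ℝ) (hε : 0 < ε) :
    ∃ δ > 0, ∀ z : E n, ‖z‖ < δ →
      |ρ (p + z) - ρ p - fderiv ℝ ρ p z - (1/2) * fderiv ℝ (fderiv ℝ ρ) p z z| ≤ ε * ‖z‖ ^ 2 := by
  set Q := fderiv ℝ (fderiv ℝ ρ) p with hQ
  have hd1 : ContDiffAt ℝ 1 (fderiv ℝ ρ) p := h.fderiv_right (by norm_num)
  have hd : HasFDerivAt (fderiv ℝ ρ) Q p := (hd1.differentiableAt (by simp)).hasFDerivAt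
  have he : ∀ᶠ y in 𝓝 p, DifferentiableAt ℝ ρ y := by
    have h2 := h.eventually (by simp)
    filter_upwards [h2] with y hy
    exact hy.differentiableAt (by simp)
  have ho : ∀ᶠ y in 𝓝 p, ‖fderiv ℝ ρ y - fderiv ℝ ρ p - Q (y - p)‖ ≤ ε * ‖y - p‖ :=
    hd.isLittleO.def hε
  obtain ⟨δ, hδ, hball⟩ := Metric.eventually_nhds_iff_ball.1 (he.and ho)
  refine ⟨δ, hδ, fun z hz => ?_⟩
  have key := Convex.norm_image_sub_le_of_norm_hasFDerivWithin_le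
    (f := fun u : E n => ρ (p + u) - fderiv ℝ ρ p u - (1/2) * Q u u)
    (f' := fun u : E n => fderiv ℝ ρ (p + u) - fderiv ℝ ρ p - Q u)
    (s := closedBall (0 : E n) ‖z‖) (C := ε * ‖z‖) (x := 0) (y := z) (𝕜 := ℝ) ?_ ?_
    (convex_closedBall _ _) (by simp) (by simp)
  · have e1 : ρ (p + z) - fderiv ℝ ρ p z - (1/2) * Q z z -
        (ρ (p + 0) - fderiv ℝ ρ p 0 - (1/2) * Q 0 0) =
        ρ (p + z) - ρ p - fderiv ℝ ρ p z - (1/2) * Q z z := by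
      simp; ring
    rw [e1, Real.norm_eq_abs, sub_zero] at key
    calc _ ≤ _ := key
      _ = ε * ‖z‖ ^ 2 := by ring
  · intro u hu
    have hu1 : ‖u‖ ≤ ‖z‖ := by simpa using hu
    have hub : p + u ∈ ball p δ := by
      simp only [mem_ball, dist_self_add_left]; linarith
    have h1 : HasFDerivAt (fun u : E n => ρ (p + u)) (fderiv ℝ ρ (p + u)) u := by
      have h3 := (hball _ hub).1.hasFDerivAt
      have h4 : HasFDerivAt (fun u : E n => p + u) (ContinuousLinearMap.id ℝ (E n)) u :=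
        (hasFDerivAt_id u).const_add p
      have h5 := h3.comp u h4
      rw [ContinuousLinearMap.comp_id] at h5
      exact h5
    have h2 : HasFDerivAt (fun u : E n => Q u u) ((Q u).comp (ContinuousLinearMap.id ℝ (E n)) + Q.flip u) u :=
      Q.hasFDerivAt.clm_apply (hasFDerivAt_id u)
    have h6 := (h1.sub (fderiv ℝ ρ p).hasFDerivAt).sub (h2.const_mul (1/2 : ℝ))
    have h7 : fderiv ℝ ρ (p + u) - fderiv ℝ ρ p -
        (1/2 : ℝ) • ((Q u).comp (ContinuousLinearMap.id ℝ (E n)) + Q.flip u) =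
        fderiv ℝ ρ (p + u) - fderiv ℝ ρ p - Q u := by
      ext v
      have h8 : Q v u = Q u v := s0_sym h v u
      simp [h8]
      ring
    rw [h7] at h6
    exact h6.hasFDerivWithinAt
  · intro u hu
    have hu1 : ‖u‖ ≤ ‖z‖ := by simpa using hu
    have hub : p + u ∈ ball p δ := by
      simp only [mem_ball, dist_self_add_left]; linarith
    have h3 := (hball _ hub).2
    rw [add_sub_cancel_left] at h3
    exact h3.trans (by gcongr)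

theorem s0_zero {n : ℕ} {K : Set (E n)} {ρ : E n → ℝ} {p : E n} (hK : IsCompact K)
    (hp : p ∈ frontier K) (h : ContDiffAt ℝ 2 ρ p) (he : ∀ᶠ x in 𝓝 p, x ∈ K ↔ ρ x ≤ 0) :
    ρ p = 0 := by
  have hpK : p ∈ K := by
    have h1 := frontier_subset_closure hp
    rwa [hK.isClosed.closure_eq] at h1
  have h1 : ρ p ≤ 0 := he.self_of_nhds.1 hpK
  rcases h1.lt_or_eq with h2 | h2
  · exfalso
    have h3 : ∀ᶠ x in 𝓝 p, ρ x < 0 := h.continuousAt.eventually_lt_const h2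
    have h4 : ∀ᶠ x in 𝓝 p, x ∈ K := by
      filter_upwards [h3, he] with x hx hx2
      exact hx2.2 hx.le
    exact hp.2 (mem_interior_iff_mem_nhds.2 h4)
  · exact h2

theorem s0_num1 (r s c α β X Y N : ℝ) (hs : 0 < s) (hc : 0 < c) (hα : 0 ≤ α) (hβ : 0 ≤ β)
    (h : r - 0 - s ^ 2 * c - 1 / 2 * (s ^ 2 * (-4 * c) + X + Y) ≤ N) (hN : N ≤ c / 4 * s ^ 2)
    (hX : X ≤ s ^ 2 * (s * α)) (hY : Y ≤ s ^ 2 * (s * β)) (hB : s * (α + β + 1) ≤ c / 4) :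
    r ≤ 0 := by
  have h1 : s ^ 2 * (s * (α + β + 1)) ≤ s ^ 2 * (c / 4) := by gcongr
  have h2 : s ^ 2 * (s * (α + β + 1)) = s ^ 2 * (s * α) + s ^ 2 * (s * β) + s ^ 2 * s := by ring
  have h3 : 0 < s ^ 2 * s := by positivity
  have h4 : 0 < s ^ 2 * c := by positivity
  linarith

theorem s0_num2 (r s c α β Y N : ℝ) (hs : 0 < s) (hc : 0 < c) (hα : 0 ≤ α) (hβ : 0 ≤ β)
    (h : -N ≤ r - 0 - s ^ 2 * c - 1 / 2 * Y) (hN : N ≤ c / 4 * s ^ 2)
    (hY : -(s ^ 2 * (s * β)) ≤ Y) (hB : s * (α + β + 1) ≤ c / 4) :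
    0 < r := by
  have h1 : s ^ 2 * (s * (α + β + 1)) ≤ s ^ 2 * (c / 4) := by gcongr
  have h2 : s ^ 2 * (s * (α + β + 1)) = s ^ 2 * (s * α) + s ^ 2 * (s * β) + s ^ 2 * s := by ring
  have h3 : 0 < s ^ 2 * s := by positivity
  have h4 : 0 < s ^ 2 * c := by positivity
  have h5 : 0 ≤ s ^ 2 * (s * α) := by positivity
  linarith

theorem s0_num3 (s c q : ℝ) (hs : 0 < s) (hs1 : s ≤ 1/2) :
    |(s ^ 2 * c) ^ 2 * q| ≤ s ^ 2 * (s * (c ^ 2 * |q|)) := by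
  have h1 : |(s ^ 2 * c) ^ 2 * q| = s ^ 2 * (s ^ 2 * (c ^ 2 * |q|)) := by
    rw [abs_mul, abs_of_nonneg (by positivity : (0:ℝ) ≤ (s ^ 2 * c) ^ 2)]; ring
  rw [h1]
  have h2 : s ^ 2 ≤ s := by nlinarith
  gcongr

theorem s0_num4 (σ s c a b : ℝ) (hs : 0 < s) (hc : 0 < c) (hσ : |σ| = s) :
    σ * (s ^ 2 * c) * (a + b) ≤ s ^ 2 * (s * (c * (|a| + |b|))) := by
  have h7 : |σ * (s ^ 2 * c) * (a + b)| ≤ s * (s ^ 2 * c) * (|a| + |b|) := by
    rw [abs_mul, abs_mul, hσ, abs_of_pos (by positivity : 0 < s ^ 2 * c)]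
    gcongr
    exact abs_add_le _ _
  calc _ ≤ _ := le_abs_self _
    _ ≤ _ := h7
    _ = _ := by ring

theorem s0_norm {n : ℕ} (w e : E n) (σ s c : ℝ) (hs : 0 < s) (hs1 : s ≤ 1/2) (hc : 0 < c)
    (hσ : |σ| ≤ s) :
    ‖σ • w + (s ^ 2 * c) • e‖ ≤ s * (‖w‖ + c * ‖e‖ + 1) := by
  have h0 : s ^ 2 ≤ s := by nlinarith
  have h2 : 0 ≤ c * ‖e‖ := by positivity
  have h1 : s ^ 2 * c * ‖e‖ ≤ s * (c * ‖e‖) := by
    calc s ^ 2 * c * ‖e‖ = s ^ 2 * (c * ‖e‖) := by ring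
      _ ≤ s * (c * ‖e‖) := by gcongr
  have h3 : |σ| * ‖w‖ ≤ s * ‖w‖ := by gcongr
  calc ‖σ • w + (s ^ 2 * c) • e‖ ≤ ‖σ • w‖ + ‖(s ^ 2 * c) • e‖ := norm_add_le _ _
    _ = |σ| * ‖w‖ + s ^ 2 * c * ‖e‖ := by
        rw [norm_smul, norm_smul, Real.norm_eq_abs, Real.norm_eq_abs,
          abs_of_pos (by positivity : 0 < s ^ 2 * c)]
    _ ≤ s * (‖w‖ + c * ‖e‖ + 1) := by
        have : s * (‖w‖ + c * ‖e‖ + 1) = s * ‖w‖ + s * (c * ‖e‖) + s := by ring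
        rw [this]
        linarith

theorem s0_quad {n : ℕ} (Q : E n →L[ℝ] E n →L[ℝ] ℝ) (w e : E n) (a b : ℝ) :
    Q (a • w + b • e) (a • w + b • e) = a ^ 2 * Q w w + a * b * (Q w e + Q e w) + b ^ 2 * Q e e := by
  have h1 : Q (a • w + b • e) = a • Q w + b • Q e := by rw [map_add, map_smul, map_smul]
  rw [h1]
  have h2 : (a • Q w + b • Q e) (a • w + b • e) = a * Q w (a • w + b • e) + b * Q e (a • w + b • e) := rfl
  rw [h2, map_add, map_smul, map_smul, map_add, map_smul, map_smul]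
  simp only [smul_eq_mul]
  ring

theorem s0_nonneg {n : ℕ} {K : Set (E n)} {ρ : E n → ℝ} {p : E n} (hK : IsCompact K)
    (hc : Convex ℝ K)
    (hp : p ∈ frontier K) (h : ContDiffAt ℝ 2 ρ p) (hne : fderiv ℝ ρ p ≠ 0)
    (he : ∀ᶠ x in 𝓝 p, x ∈ K ↔ ρ x ≤ 0) (w : E n) (hw : fderiv ℝ ρ p w = 0) :
    0 ≤ fderiv ℝ (fderiv ℝ ρ) p w w := by
  by_contra hneg
  push Not at hneg
  have hr0 := s0_zero hK hp h he
  obtain ⟨e, hee⟩ : ∃ e : E n, fderiv ℝ ρ p e = 1 := by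
    obtain ⟨e, he⟩ : ∃ e : E n, fderiv ℝ ρ p e ≠ 0 := by
      by_contra hcon
      push Not at hcon
      exact hne (ContinuousLinearMap.ext hcon)
    refine ⟨(fderiv ℝ ρ p e)⁻¹ • e, ?_⟩
    rw [map_smul, smul_eq_mul, inv_mul_cancel₀ he]
  have hTT := fun ε hε => s0_taylor h ε hε
  generalize fderiv ℝ (fderiv ℝ ρ) p = Q at hneg hTT
  obtain ⟨c, hcdef⟩ : ∃ c : ℝ, c = -(Q w w) / 4 := ⟨_, rfl⟩
  have hc0 : 0 < c := by rw [hcdef]; linarith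
  obtain ⟨M, hM⟩ : ∃ M : ℝ, M = ‖w‖ + c * ‖e‖ + 1 := ⟨_, rfl⟩
  have hM0 : 0 < M := by rw [hM]; positivity
  obtain ⟨α, hα⟩ : ∃ α : ℝ, α = c * (|Q w e| + |Q e w|) := ⟨_, rfl⟩
  obtain ⟨β, hβ⟩ : ∃ β : ℝ, β = c ^ 2 * |Q e e| := ⟨_, rfl⟩
  have hα0 : 0 ≤ α := by rw [hα]; positivity
  have hβ0 : 0 ≤ β := by rw [hβ]; positivity
  have hB0 : 0 < α + β + 1 := by positivity
  obtain ⟨δ, hδ, hT⟩ := hTT (c / (4 * M ^ 2)) (by positivity)
  obtain ⟨δ', hδ', hK'⟩ := Metric.eventually_nhds_iff_ball.1 he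
  obtain ⟨s, hs0, hs1, hs2, hs3⟩ : ∃ s : ℝ, 0 < s ∧ s ≤ 1/2 ∧ s ≤ min δ δ' / (2 * M) ∧
      s ≤ c / (4 * (α + β + 1)) :=
    ⟨min (min (1/2) (min δ δ' / (2 * M))) (c / (4 * (α + β + 1))), by positivity,
      (min_le_left _ _).trans (min_le_left _ _), (min_le_left _ _).trans (min_le_right _ _),
      min_le_right _ _⟩
  have hs2' : s * M < min δ δ' := by
    have h1 : s * (2 * M) ≤ min δ δ' := by
      rwa [le_div_iff₀ (by positivity)] at hs2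
    have h2 := mul_pos hs0 hM0
    linarith
  have hs3' : s * (α + β + 1) ≤ c / 4 := by
    rw [le_div_iff₀ (by positivity)] at hs3
    linarith
  have hN : ∀ z : E n, ‖z‖ ≤ s * M → c / (4 * M ^ 2) * ‖z‖ ^ 2 ≤ c / 4 * s ^ 2 := by
    intro z hz
    calc c / (4 * M ^ 2) * ‖z‖ ^ 2 ≤ c / (4 * M ^ 2) * (s * M) ^ 2 := by gcongr
      _ = c / 4 * s ^ 2 := by field_simp
  have hest : ∀ σ : ℝ, |σ| = s → p + (σ • w + (s ^ 2 * c) • e) ∈ K := by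
    intro σ hσ
    have hσ2 : σ ^ 2 = s ^ 2 := by rw [← hσ, sq_abs]
    have hnorm : ‖σ • w + (s ^ 2 * c) • e‖ ≤ s * M := by
      rw [hM]; exact s0_norm w e σ s c hs0 hs1 hc0 hσ.le
    have hlt : ‖σ • w + (s ^ 2 * c) • e‖ < min δ δ' := lt_of_le_of_lt hnorm hs2'
    have h1 := hT _ (lt_of_lt_of_le hlt (min_le_left _ _))
    have h2 : fderiv ℝ ρ p (σ • w + (s ^ 2 * c) • e) = s ^ 2 * c := by
      rw [map_add, map_smul, map_smul, hw, hee]; simp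
    have h16 : Q w w = -4 * c := by rw [hcdef]; ring
    rw [hr0, h2, s0_quad, hσ2, h16] at h1
    have hρ : ρ (p + (σ • w + (s ^ 2 * c) • e)) ≤ 0 :=
      s0_num1 _ s c α β _ _ _ hs0 hc0 hα0 hβ0 (abs_le.1 h1).2 (hN _ hnorm)
        (by rw [hα]; exact s0_num4 σ s c _ _ hs0 hc0 hσ)
        (by rw [hβ]; exact (le_abs_self _).trans (s0_num3 s c _ hs0 hs1)) hs3'
    have hb : p + (σ • w + (s ^ 2 * c) • e) ∈ ball p δ' := by
      rw [mem_ball, dist_self_add_left]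
      exact lt_of_lt_of_le hlt (min_le_right _ _)
    exact (hK' _ hb).2 hρ
  have hp1 := hest s (abs_of_pos hs0)
  have hp2 := hest (-s) (by rw [abs_neg, abs_of_pos hs0])
  have hmid : p + ((0 : ℝ) • w + (s ^ 2 * c) • e) ∈ K := by
    have h1 := hc hp1 hp2 (by norm_num : (0 : ℝ) ≤ 1/2) (by norm_num : (0 : ℝ) ≤ 1/2) (by norm_num)
    have h2 : (1/2 : ℝ) • (p + (s • w + (s ^ 2 * c) • e)) + (1/2 : ℝ) • (p + (-s • w + (s ^ 2 * c) • e)) =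
        p + ((0 : ℝ) • w + (s ^ 2 * c) • e) := by
      module
    rwa [h2] at h1
  have hn : ‖(0 : ℝ) • w + (s ^ 2 * c) • e‖ ≤ s * M := by
    rw [hM]; exact s0_norm w e 0 s c hs0 hs1 hc0 (by simpa using hs0.le)
  have hlt : ‖(0 : ℝ) • w + (s ^ 2 * c) • e‖ < min δ δ' := lt_of_le_of_lt hn hs2'
  have hmem : p + ((0 : ℝ) • w + (s ^ 2 * c) • e) ∈ ball p δ' := by
    rw [mem_ball, dist_self_add_left]
    exact lt_of_lt_of_le hlt (min_le_right _ _)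
  have hρ := (hK' _ hmem).1 hmid
  have h1 := hT _ (lt_of_lt_of_le hlt (min_le_left _ _))
  have h2 : fderiv ℝ ρ p ((0 : ℝ) • w + (s ^ 2 * c) • e) = s ^ 2 * c := by
    rw [map_add, map_smul, map_smul, hw, hee]; simp
  have h3 : (0 : ℝ) ^ 2 * Q w w + 0 * (s ^ 2 * c) * (Q w e + Q e w) + (s ^ 2 * c) ^ 2 * Q e e =
      (s ^ 2 * c) ^ 2 * Q e e := by ring
  rw [hr0, h2, s0_quad, h3] at h1
  have hpos := s0_num2 _ s c α β _ _ hs0 hc0 hα0 hβ0 (abs_le.1 h1).1 (hN _ hn)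
    (by rw [hβ]; exact (neg_le_neg (s0_num3 s c _ hs0 hs1)).trans (neg_abs_le _)) hs3'
  linarith

theorem stS0 : StmtS0 := by
  intro n K hK hc _ hC p hp
  obtain ⟨ρ, h1, h2, h3, h4⟩ := hC p hp
  refine ⟨ρ, h1, h2, h3, fun w hw hw0 => ?_⟩
  have hnn := s0_nonneg hK hc hp h1 h2 h3
  rcases (hnn w hw0).lt_or_eq with h | h
  · exact h
  · exfalso
    obtain ⟨w', hw', hne⟩ := h4 w hw hw0
    set Q := fderiv ℝ (fderiv ℝ ρ) p with hQ
    have hs : Q w' w = Q w w' := s0_sym h1 w' w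
    set t : ℝ := -(Q w' w' + 1) / (2 * Q w w') with ht
    have h5 := hnn (w' + t • w) (by simp [hw', hw0])
    have h6 : Q (w' + t • w) (w' + t • w) = Q w' w' + 2 * t * Q w w' + t ^ 2 * Q w w := by
      have h10 := s0_quad Q w' w 1 t
      rw [one_smul] at h10
      rw [h10, hs]
      ring
    have h7 : 2 * t * Q w w' = -(Q w' w' + 1) := by
      rw [ht]; field_simp
    have h8 : Q w w = 0 := h.symm
    have h9 : 0 ≤ Q (w' + t • w) (w' + t • w) := h5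
    rw [h6, h7, h8] at h9
    linarith

end Pool.Agent.Helper890.Cov.JS0
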