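import Mathlib
import Pool.Agent.Helper890.Cov.StB




namespace Pool.Agent.Helper890.Cov.JS3a
open MeasureTheory Set Filter Topology Metric
open scoped RealInnerProductSpace

theorem st3a (hc1 : StmtC1a) (hc2 : StmtC2) : Stmt3a := by
  classical
  intro κ φ p P δ₀ hκ hp hδ₀
  by_cases hP : 0 < P
  swap
  · refine ⟨1, 1, 1, one_pos, one_pos, one_pos, ?_⟩
    intro ν₁ ν₂ h₁ h₁' h₂ h₂' a b w hd
    exfalso
    have h1 := hd.h1
    have h2 := hd.h2
    linarith
  have hπ := Real.pi_pos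
  obtain ⟨δ, R₂, hδ, hR₂, hC2⟩ := hc2 φ p P (1 / (4 * P)) (p / (2 * Real.pi)) hp (by positivity)
    (by positivity)
  obtain ⟨ε, R₁, hε, hR₁, hC1⟩ := hc1 κ φ p P δ₀ (1 / (4 * P)) δ hκ hp hδ₀ (by positivity) hδ
  refine ⟨p / (2 * Real.pi), ε, max R₁ R₂, by positivity, hε, lt_max_of_lt_left hR₁, ?_⟩
  intro ν₁ ν₂ h₁ h₁' h₂ h₂' a b w hd₁ hd₂ hw₁ hw₂ hab R hR herr
  obtain ⟨G, hG1, hG2, hG3⟩ := hC1 ν₁ ν₂ h₁ h₁' h₂ h₂' a b w hd₁ hd₂ hw₁ hw₂ hab R
    ((le_max_left _ _).trans hR) herr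
  have hRpos : 0 < R := hR₁.trans_le ((le_max_left _ _).trans hR)
  have hw2p : 2 * p ≤ w := by
    have := hd₁.h1
    have := hd₁.h3
    linarith
  have hw2P : w ≤ 2 * P := by
    have := hd₁.h2
    have := hd₁.h4
    linarith
  have hwpos : 0 < w := by linarith
  have hch : ∀ m, ∃ t : ℂ, m ∈ G → ‖t - tz w φ a b m‖ ≤ 1 / (4 * P) ∧ FT ν₁ t = 0 ∧
      FT ν₂ (-t) ≠ 0 := by
    intro m
    by_cases hm : m ∈ G
    · obtain ⟨_, t, ht⟩ := hG3 m hm
      exact ⟨t, fun _ => ht⟩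
    · exact ⟨0, fun h => absurd h hm⟩
  choose t ht using hch
  have hmain := hC2 a b w hw2p hw2P hd₁.a1 hd₁.a2 hd₁.b1 hd₁.b2 R G t
    ((le_max_right _ _).trans hR) hG1 hG2 (fun m hm => ⟨(hG3 m hm).1, (ht m hm).1⟩)
  have hinj : Set.InjOn t (G : Set ℕ) := by
    intro m hm m' hm' he
    by_contra hne
    have h1 := (ht m hm).1
    have h2 := (ht m' hm').1
    rw [← he] at h2
    have h3 : ‖tz w φ a b m - tz w φ a b m'‖ ≤ 1 / (4 * P) + 1 / (4 * P) := by
      calc ‖tz w φ a b m - tz w φ a b m'‖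
          = ‖(t m - tz w φ a b m') - (t m - tz w φ a b m)‖ := by congr 1; ring
        _ ≤ ‖t m - tz w φ a b m'‖ + ‖t m - tz w φ a b m‖ := norm_sub_le _ _
        _ ≤ 1 / (4 * P) + 1 / (4 * P) := add_le_add h2 h1
    have h4 : tz w φ a b m - tz w φ a b m' =
        ((2 * ((m : ℝ) - (m' : ℝ)) * Real.pi / w : ℝ) : ℂ) := by
      unfold tz
      push_cast
      ring
    rw [h4, Complex.norm_real, Real.norm_eq_abs, abs_div, abs_mul, abs_mul, abs_of_pos hwpos,
      abs_of_pos hπ, abs_of_pos (by norm_num : (0:ℝ) < 2)] at h3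
    have h5 : (1 : ℝ) ≤ |(m : ℝ) - (m' : ℝ)| := by
      have h6 : (1 : ℤ) ≤ |(m : ℤ) - (m' : ℤ)| := by
        apply Int.one_le_abs
        intro h
        apply hne
        omega
      exact_mod_cast h6
    have h7 : Real.pi / P ≤ 2 * |(m : ℝ) - (m' : ℝ)| * Real.pi / w := by
      rw [div_le_div_iff₀ hP hwpos]
      have h8 : w ≤ 2 * P * |(m : ℝ) - (m' : ℝ)| := by
        nlinarith
      nlinarith
    have h9 : 1 / (4 * P) + 1 / (4 * P) = (1 / 2) / P := by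
      field_simp
      norm_num
    rw [h9] at h3
    have h10 : Real.pi / P ≤ (1 / 2) / P := h7.trans h3
    rw [div_le_div_iff_of_pos_right hP] at h10
    have := Real.pi_gt_three
    linarith
  refine ⟨(G.filter (fun m => ‖t m‖ < R)).image t, ?_, ?_⟩
  · intro z hz
    rw [Finset.mem_image] at hz
    obtain ⟨m, hm, rfl⟩ := hz
    rw [Finset.mem_filter] at hm
    exact ⟨hm.2, (ht m hm.1).2.1, (ht m hm.1).2.2⟩
  · rw [Finset.sum_image (fun m hm m' hm' he =>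
      hinj (Finset.mem_of_mem_filter m hm) (Finset.mem_of_mem_filter m' hm') he)]
    refine le_trans ?_ hmain
    apply mul_le_mul_of_nonneg_right _ hRpos.le
    have h1 : p / (2 * Real.pi) + p / (2 * Real.pi) ≤ w / (2 * Real.pi) := by
      rw [← add_div]
      apply div_le_div_of_nonneg_right _ (by positivity)
      linarith
    linarith

end Pool.Agent.Helper890.Cov.JS3a
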