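import Mathlib
import Pool.Agent.Helper890.Cov.StB




namespace Pool.Agent.Helper890.Cov.JS3b
open MeasureTheory Set Filter Topology Metric
open scoped RealInnerProductSpace

theorem FT_neg_conj (ν : Measure ℝ) (t : ℂ) :
    FT ν (-(starRingEnd ℂ t)) = starRingEnd ℂ (FT ν t) := by
  unfold FT
  rw [← integral_conj]
  congr 1
  funext s
  rw [← Complex.exp_conj]
  congr 1
  simp

theorem re_tz (w φ a b : ℝ) (m : ℕ) :
    (tz w φ a b m).re = ((2 * (m : ℝ) + 1) * Real.pi - 2 * φ) / w := by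
  unfold tz
  rw [Complex.div_ofReal_re]
  simp

theorem tz_sep (w φ a b r₀ : ℝ) (hw : 0 < w) (hr : r₀ * w < Real.pi) (t : ℂ) (m m' : ℕ)
    (h1 : ‖t - tz w φ a b m‖ ≤ r₀) (h2 : ‖t - tz w φ a b m'‖ ≤ r₀) : m = m' := by
  have h3 : |(t - tz w φ a b m).re| ≤ r₀ := (Complex.abs_re_le_norm _).trans h1
  have h4 : |(t - tz w φ a b m').re| ≤ r₀ := (Complex.abs_re_le_norm _).trans h2
  rw [Complex.sub_re, re_tz, abs_le] at h3 h4
  have h5 : ((2 * (m : ℝ) + 1) * Real.pi - 2 * φ) / w -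
      ((2 * (m' : ℝ) + 1) * Real.pi - 2 * φ) / w = 2 * Real.pi * ((m : ℝ) - m') / w := by
    ring
  have hpi := Real.pi_pos
  have h6 : 2 * Real.pi * ((m : ℝ) - m') / w ≤ 2 * r₀ := by linarith [h3.1, h3.2, h4.1, h4.2]
  have h7 : -(2 * r₀) ≤ 2 * Real.pi * ((m : ℝ) - m') / w := by
    linarith [h3.1, h3.2, h4.1, h4.2]
  rw [div_le_iff₀ hw] at h6
  rw [le_div_iff₀ hw] at h7
  have h8 : (m : ℝ) - m' < 1 := by
    by_contra h
    push Not at h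
    nlinarith
  have h9 : -1 < (m : ℝ) - m' := by
    by_contra h
    push Not at h
    nlinarith
  have h10 : (m : ℤ) - m' < 1 := by exact_mod_cast h8
  have h11 : (-1 : ℤ) < (m : ℤ) - m' := by exact_mod_cast h9
  omega

theorem combine (F₁ F₂ : ℂ → ℂ) (hF₁ : ∀ t, F₁ (-(starRingEnd ℂ t)) = starRingEnd ℂ (F₁ t))
    (hF₂ : ∀ t, F₂ (-(starRingEnd ℂ t)) = starRingEnd ℂ (F₂ t)) (R B L : ℝ)
    (hJ : ∀ S : Finset ℂ, (∀ t ∈ S, ‖t‖ < R ∧ F₁ t = 0) → ∑ t ∈ S, Real.log (R / ‖t‖) ≤ B)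
    (G : Finset ℕ) (t : ℕ → ℂ) (hinj : ∀ m ∈ G, ∀ m' ∈ G, t m = t m' → m = m')
    (hre : ∀ m ∈ G, 0 < (t m).re) (h1 : ∀ m ∈ G, F₁ (t m) = 0) (h2 : ∀ m ∈ G, F₂ (t m) ≠ 0)
    (hL : L ≤ ∑ m ∈ G with ‖t m‖ < R, Real.log (R / ‖t m‖)) (S : Finset ℂ)
    (hS : ∀ t ∈ S, ‖t‖ < R ∧ F₁ t = 0 ∧ F₂ t = 0) :
    ∑ t ∈ S, Real.log (R / ‖t‖) ≤ B - 2 * L := by
  classical
  obtain ⟨G', hG'⟩ : ∃ G' : Finset ℕ, G' = {m ∈ G | ‖t m‖ < R} := ⟨_, rfl⟩
  rw [← hG'] at hL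
  have hmem : ∀ m ∈ G', m ∈ G ∧ ‖t m‖ < R := by
    intro m hm
    rw [hG', Finset.mem_filter] at hm
    exact hm
  obtain ⟨A, hA⟩ : ∃ A : Finset ℂ, A = G'.image t := ⟨_, rfl⟩
  obtain ⟨A', hA'⟩ : ∃ A' : Finset ℂ, A' = G'.image (fun m => -(starRingEnd ℂ (t m))) :=
    ⟨_, rfl⟩
  have hsA : ∑ t ∈ A, Real.log (R / ‖t‖) = ∑ m ∈ G', Real.log (R / ‖t m‖) := by
    rw [hA, Finset.sum_image]
    intro m hm m' hm' h
    exact hinj m (hmem m hm).1 m' (hmem m' hm').1 h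
  have hsA' : ∑ t ∈ A', Real.log (R / ‖t‖) = ∑ m ∈ G', Real.log (R / ‖t m‖) := by
    rw [hA', Finset.sum_image]
    · apply Finset.sum_congr rfl
      intro m _
      rw [norm_neg, Complex.norm_conj]
    · intro m hm m' hm' h
      have h3 := neg_injective h
      exact hinj m (hmem m hm).1 m' (hmem m' hm').1 ((starRingEnd ℂ).injective h3)
  have hdAA : Disjoint A A' := by
    rw [Finset.disjoint_left]
    intro z hz hz'
    rw [hA, Finset.mem_image] at hz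
    rw [hA', Finset.mem_image] at hz'
    obtain ⟨m, hm, rfl⟩ := hz
    obtain ⟨m', hm', h⟩ := hz'
    have h3 := hre m (hmem m hm).1
    have h4 := hre m' (hmem m' hm').1
    rw [← h] at h3
    simp at h3
    linarith
  have hdS : Disjoint S (A ∪ A') := by
    rw [Finset.disjoint_left]
    intro z hz hz'
    have h0 := (hS z hz).2.2
    rw [Finset.mem_union, hA, hA', Finset.mem_image, Finset.mem_image] at hz'
    rcases hz' with ⟨m, hm, rfl⟩ | ⟨m, hm, rfl⟩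
    · exact h2 m (hmem m hm).1 h0
    · rw [hF₂, map_eq_zero] at h0
      exact h2 m (hmem m hm).1 h0
  have hfin := hJ (S ∪ (A ∪ A')) (by
    intro z hz
    rw [Finset.mem_union, Finset.mem_union] at hz
    rcases hz with hz | hz | hz
    · exact ⟨(hS z hz).1, (hS z hz).2.1⟩
    · rw [hA, Finset.mem_image] at hz
      obtain ⟨m, hm, rfl⟩ := hz
      exact ⟨(hmem m hm).2, h1 m (hmem m hm).1⟩
    · rw [hA', Finset.mem_image] at hz
      obtain ⟨m, hm, rfl⟩ := hz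
      refine ⟨?_, ?_⟩
      · rw [norm_neg, Complex.norm_conj]
        exact (hmem m hm).2
      · rw [hF₁, h1 m (hmem m hm).1, map_zero])
  rw [Finset.sum_union hdS, Finset.sum_union hdAA, hsA, hsA'] at hfin
  linarith

theorem st3b (hc1 : StmtC1b) (hc2 : StmtC2) (hc3 : StmtC3) : Stmt3b := by
  intro κ φ p P δ₀ η hκ hp hδ₀ hη
  obtain ⟨Q, hQ⟩ : ∃ Q : ℝ, Q = max P 1 := ⟨_, rfl⟩
  have hQ1 : 1 ≤ Q := by rw [hQ]; exact le_max_right _ _
  have hQP : P ≤ Q := by rw [hQ]; exact le_max_left _ _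
  have hQ0 : 0 < Q := by linarith
  obtain ⟨r₀, hr₀⟩ : ∃ r₀ : ℝ, r₀ = 1 / (4 * Q) := ⟨_, rfl⟩
  have hr0 : 0 < r₀ := by rw [hr₀]; positivity
  have hr1 : r₀ ≤ 1 / 4 := by
    rw [hr₀]
    apply one_div_le_one_div_of_le (by norm_num)
    linarith
  obtain ⟨δ, R₁, hδ, hR₁, h2⟩ := hc2 φ p P r₀ (η / 2) hp hr0 (by positivity)
  obtain ⟨ε, R₀, hε, hR₀, h1⟩ := hc1 κ φ p P δ₀ r₀ δ hκ hp hδ₀ hr0 hδ
  refine ⟨ε, max R₀ R₁, hε, lt_max_of_lt_left hR₀, ?_⟩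
  intro ν₁ ν₂ h₁ h₁' h₂ h₂' a b w hL₁ hL₂ hw₁ hw₂ hab R hR herr S hS
  have hR0 : R₀ ≤ R := (le_max_left _ _).trans hR
  have hR1 : R₁ ≤ R := (le_max_right _ _).trans hR
  have hRpos : 0 < R := by linarith
  obtain ⟨G, hGlt, hGcard, hG⟩ :=
    h1 ν₁ ν₂ h₁ h₁' h₂ h₂' a b w hL₁ hL₂ hw₁ hw₂ hab R hR0 herr
  have hch : ∀ m, ∃ t : ℂ, m ∈ G → ‖t - tz w φ a b m‖ ≤ r₀ ∧ FT ν₁ t = 0 ∧ FT ν₂ t ≠ 0 := by
    intro m
    by_cases hm : m ∈ G
    · obtain ⟨_, t, ht⟩ := hG m hm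
      exact ⟨t, fun _ => ht⟩
    · exact ⟨0, fun h => absurd h hm⟩
  choose t ht using hch
  have hwlo : 2 * p ≤ w := by
    have := hL₁.h1
    have := hL₁.h3
    linarith
  have hwhi : w ≤ 2 * P := by
    have := hL₁.h2
    have := hL₁.h4
    linarith
  have hw0 : 0 < w := by linarith
  have hlow := h2 a b w hwlo hwhi hL₁.a1 hL₁.a2 hL₁.b1 hL₁.b2 R G t hR1 hGlt hGcard
    (fun m hm => ⟨(hG m hm).1, (ht m hm).1⟩)
  have hrw : r₀ * w < Real.pi := by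
    have h3 : r₀ * w ≤ r₀ * (2 * Q) := mul_le_mul_of_nonneg_left (by linarith) hr0.le
    have h4 : r₀ * (2 * Q) = 1 / 2 := by
      rw [hr₀]
      field_simp
      norm_num
    have h5 := Real.pi_gt_three
    linarith
  have hres := combine (FT ν₁) (FT ν₂) (FT_neg_conj ν₁) (FT_neg_conj ν₂) R
    ((h₁ + h₁') * R / Real.pi) ((w / (2 * Real.pi) - η / 2) * R)
    (fun S hS => hc3 ν₁ h₁ h₁' hL₁.fin hL₁.supp (hp.trans_le hL₁.mass) (hp.le.trans hL₁.h1)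
      (hp.le.trans hL₁.h3) R hRpos S hS) G t
    (fun m hm m' hm' h => tz_sep w φ a b r₀ hw0 hrw (t m) m m' (ht m hm).1
      (by rw [h]; exact (ht m' hm').1))
    (fun m hm => by
      have h3 : |(t m - tz w φ a b m).re| ≤ r₀ := (Complex.abs_re_le_norm _).trans (ht m hm).1
      rw [Complex.sub_re, re_tz, abs_le] at h3
      have h4 := (hG m hm).1
      linarith [h3.1])
    (fun m hm => (ht m hm).2.1) (fun m hm => (ht m hm).2.2) hlow S hS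
  refine hres.trans (le_of_eq ?_)
  rw [← hw₁]
  have hpi := Real.pi_ne_zero
  field_simp
  ring

end Pool.Agent.Helper890.Cov.JS3b
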