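import Mathlib
import Pool.Agent.Helper890.Cov.StA
import Pool.Agent.Helper890.Cov.StB
import Pool.Agent.Helper890.Cov.StG
import Pool.Agent.Helper890.Cov.StF




namespace Pool.Agent.Helper890.Cov.JT
open MeasureTheory Set Filter Topology Metric
open scoped RealInnerProductSpace

theorem stT_fderiv {n : ℕ} {K : Set (E n)} {h : E n → ℝ} {X : E n → E n} (G : Good K h X)
    (u : E n) (hu : u ≠ 0) : HasFDerivAt (fun u => -X (-u)) (fderiv ℝ X (-u)) u := by
  have hnu : -u ≠ 0 := neg_ne_zero.2 hu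
  have hopen : IsOpen ({0}ᶜ : Set (E n)) := isOpen_compl_singleton
  have hd : HasFDerivAt X (fderiv ℝ X (-u)) (-u) :=
    ((G.c1.differentiableOn one_ne_zero).differentiableAt (hopen.mem_nhds hnu)).hasFDerivAt
  have h1 := (hd.comp u (hasFDerivAt_id u).neg).neg
  have e : -((fderiv ℝ X (-u)).comp (-(ContinuousLinearMap.id ℝ (E n)))) = fderiv ℝ X (-u) := by
    ext w
    simp
  rw [e] at h1
  exact h1

theorem stT_good {n : ℕ} {K : Set (E n)} {h : E n → ℝ} {X : E n → E n} (G : Good K h X) :
    Good ((fun x : E n => -x) '' K) (fun u => h (-u)) (fun u => -X (-u)) := by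
  have hfd : ∀ u : E n, u ≠ 0 → fderiv ℝ (fun u => -X (-u)) u = fderiv ℝ X (-u) :=
    fun u hu => (stT_fderiv G u hu).fderiv
  refine ⟨?_, ?_, ?_, ?_, ?_, ?_, ?_, ?_, ?_, ?_, ?_, ?_, ?_⟩
  · exact G.compact.image continuous_neg
  · have := G.convex.neg
    rwa [← Set.image_neg_eq_neg] at this
  · have h1 := (Homeomorph.neg (E n)).image_interior K
    have h2 : (0 : E n) ∈ (Homeomorph.neg (E n)) '' interior K := ⟨0, G.zero_mem, by simp⟩
    rw [h1] at h2
    exact h2
  · intro u hu
    have h1 := (G.grad (-u) (neg_ne_zero.2 hu)).comp u (hasFDerivAt_id u).neg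
    have e : (innerSL ℝ (X (-u))).comp (-(ContinuousLinearMap.id ℝ (E n))) =
        innerSL ℝ (-X (-u)) := by
      ext w
      simp
    rw [e] at h1
    exact h1
  · have h1 : ContDiffOn ℝ 1 (fun u : E n => X (-u)) {0}ᶜ := by
      apply G.c1.comp contDiff_neg.contDiffOn
      intro u hu
      simpa using hu
    exact h1.neg
  · intro u hu
    exact ⟨X (-u), G.mem (-u) (neg_ne_zero.2 hu), rfl⟩
  · rintro _ ⟨y, hy, rfl⟩ u
    have := G.le y hy (-u)
    simp only [inner_neg_left, inner_neg_right] at this ⊢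
    exact this
  · intro u hu
    have := G.eq (-u) (neg_ne_zero.2 hu)
    simp only [inner_neg_left, inner_neg_right] at this ⊢
    exact this
  · intro x hx
    refine ⟨-x, G.charac (-x) ?_, neg_neg x⟩
    intro u
    have := hx (-u)
    rw [neg_neg] at this
    simp only [inner_neg_left, inner_neg_right] at this ⊢
    exact this
  · intro r u hr
    have := G.homog r (-u) hr
    rw [smul_neg] at this
    exact this
  · intro r u hr hu
    have := G.homogX r (-u) hr (neg_ne_zero.2 hu)
    rw [smul_neg] at this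
    show -X (-(r • u)) = -X (-u)
    rw [this]
  · intro u hu w hw hwu
    rw [hfd u hu]
    apply G.pos (-u) (neg_ne_zero.2 hu) w hw
    rw [inner_neg_right, hwu, neg_zero]
  · intro u hu w w'
    rw [hfd u hu]
    exact G.symm (-u) (neg_ne_zero.2 hu) w w'

theorem stT_curv {n : ℕ} {K : Set (E n)} {h : E n → ℝ} {X : E n → E n} (G : Good K h X)
    (u : E n) (hu : u ≠ 0) : curv (fun u => -X (-u)) u = curv X (-u) := by
  have hfd : fderiv ℝ (fun u => -X (-u)) u = fderiv ℝ X (-u) := (stT_fderiv G u hu).fderiv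
  unfold curv
  congr 1
  unfold BB
  rw [hfd, norm_neg]
  congr 2
  ext w
  simp

theorem stT (h3 : StmtG3) (hF3 : StmtF3) (hZ : StmtZ) (hM : StmtM) : StmtT := by
  intro n hn K H hK hH XK XH GK GH hcov
  have hF := hF3 n hn K H hK hH XK XH GK GH hcov
  have hdich : ∀ u, u ≠ 0 → curv XH u = curv XK u ∨ curv XH u = curv XK (-u) := by
    intro u hu
    obtain ⟨h1, h2⟩ := hF u hu
    have h4 : (curv XH u - curv XK u) * (curv XH u - curv XK (-u)) = 0 := by
      have : (curv XH u - curv XK u) * (curv XH u - curv XK (-u)) =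
          curv XH u ^ 2 - (curv XK u + curv XK (-u)) * curv XH u + curv XK u * curv XK (-u) := by
        ring
      rw [this, h1, h2]
      ring
    rcases mul_eq_zero.1 h4 with h5 | h5
    · exact Or.inl (sub_eq_zero.1 h5)
    · exact Or.inr (sub_eq_zero.1 h5)
  by_cases hex : ∃ u₂, u₂ ≠ 0 ∧ curv XH u₂ ≠ curv XK u₂
  · obtain ⟨u₂, hu₂, hne⟩ := hex
    have h5 : curv XH u₂ = curv XK (-u₂) := (hdich u₂ hu₂).resolve_left hne
    have h6 : curv XK u₂ ≠ curv XK (-u₂) := by
      rw [← h5]
      exact fun h => hne h.symm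
    have hall : ∀ u, u ≠ 0 → curv XH u = curv XK (-u) := by
      intro u hu
      by_contra hcon
      have h7 : curv XH u = curv XK u := (hdich u hu).resolve_right hcon
      apply hZ n hn K H hK hH XK XH GK GH hcov
      refine ⟨u, u₂, hu, hu₂, h7, ?_, h5, h6⟩
      rw [← h7]
      exact hcon
    obtain ⟨z, hz⟩ := hM n hn _ H _ hH _ XH (stT_good GK) GH (by
      intro u hu
      rw [stT_curv GK u hu, hall u hu])
    refine ⟨z, Or.inr ?_⟩
    rw [hz, Set.image_image]
  · push Not at hex
    obtain ⟨z, hz⟩ := hM n hn K H hK hH XK XH GK GH (fun u hu => (hex u hu).symm)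
    exact ⟨z, Or.inl hz⟩

end Pool.Agent.Helper890.Cov.JT
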