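import Mathlib
import Pool.Agent.Helper890.Cov.StA
import Pool.Agent.Helper890.Cov.StB
import Pool.Agent.Helper890.Cov.StG
import Pool.Agent.Helper890.Cov.StF




namespace Pool.Agent.Helper890.Cov.JZ
open MeasureTheory Set Filter Topology Metric
open scoped RealInnerProductSpace

theorem _root_.Pool.Agent.Helper890.Cov.LineData.mono508 {p P p' P' : ℝ} {ν : Measure ℝ} {h h' a b : ℝ} (L : LineData p P ν h h' a b)
    (hp : p' ≤ p) (hP : P ≤ P') : LineData p' P' ν h h' a b :=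
  ⟨L.fin, L.supp, hp.trans L.mass, L.mass'.trans hP, hp.trans L.h1, L.h2.trans hP, hp.trans L.h3,
    L.h4.trans hP, hp.trans L.a1, L.a2.trans hP, hp.trans L.b1, L.b2.trans hP⟩

theorem genInt508 {n : ℕ} {F : E n → ℝ} {C : ℝ} (h0 : ∀ ξ, 0 ≤ F ξ) (hc : ContinuousOn F {0}ᶜ)
    (hb : ∀ ξ, ξ ≠ 0 → ‖ξ‖ ^ (n + 1) * F ξ ≤ C * (1 + ‖ξ‖ ^ (n + 1))) {z : E n} (hz : z ≠ 0) {R : ℝ}
    (hR : 0 ≤ R) : IntervalIntegrable (fun t : ℝ => t ^ (n + 1) * F (t • z)) volume 0 (2 * R) := by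
  rw [intervalIntegrable_iff_integrableOn_Ioc_of_le (by positivity)]
  have hcont : ContinuousOn (fun t : ℝ => t ^ (n + 1) * F (t • z)) (Ioc 0 (2 * R)) := by
    refine (continuous_pow _).continuousOn.mul
      (hc.comp (by fun_prop : Continuous fun t : ℝ => t • z).continuousOn ?_)
    intro t ht
    simp only [mem_compl_iff, mem_singleton_iff, smul_eq_zero, not_or]
    exact ⟨ht.1.ne', hz⟩
  have hzn : 0 < ‖z‖ := norm_pos_iff.2 hz
  refine Integrable.mono' (integrable_const (|C| * (1 + (2 * R * ‖z‖) ^ (n + 1)) / ‖z‖ ^ (n + 1)))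
    (hcont.aestronglyMeasurable measurableSet_Ioc) ?_
  rw [ae_restrict_iff' measurableSet_Ioc]
  refine Eventually.of_forall fun t ht => ?_
  have ht0 : 0 < t := ht.1
  rw [Real.norm_of_nonneg (mul_nonneg (by positivity) (h0 _))]
  rw [le_div_iff₀ (by positivity)]
  have h1 := hb (t • z) (smul_ne_zero ht0.ne' hz)
  rw [norm_smul, Real.norm_of_nonneg ht0.le] at h1
  calc t ^ (n + 1) * F (t • z) * ‖z‖ ^ (n + 1) = (t * ‖z‖) ^ (n + 1) * F (t • z) := by rw [mul_pow]; ring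
    _ ≤ C * (1 + (t * ‖z‖) ^ (n + 1)) := h1
    _ ≤ |C| * (1 + (t * ‖z‖) ^ (n + 1)) := by gcongr; exact le_abs_self C
    _ ≤ |C| * (1 + (2 * R * ‖z‖) ^ (n + 1)) := by
        have := ht.2
        gcongr

theorem quad508 {a b c d : ℝ} (h1 : a + b = c + d) (h2 : a * b = c * d) :
    (c = a ∧ d = b) ∨ (c = b ∧ d = a) := by
  have h : (c - a) * (c - b) = 0 := by linear_combination (-c) * h1 + h2
  rcases mul_eq_zero.1 h with h | h
  · exact Or.inl ⟨by linarith, by linarith⟩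
  · exact Or.inr ⟨by linarith, by linarith⟩

/-- the linear form -/
noncomputable def Lf508 {n : ℕ} (a b : E n) (v t : ℂ) : E n →L[ℝ] ℂ :=
  (t * v) • (Complex.ofRealCLM.comp (innerSL ℝ a)) + (t * ((1 + v ^ 2) / 2)) • (Complex.ofRealCLM.comp (innerSL ℝ b))

theorem Lf508_apply {n : ℕ} (a b : E n) (v t : ℂ) (x : E n) :
    Lf508 a b v t x = t * (v * ((⟪a, x⟫ : ℝ) : ℂ) + (1 + v ^ 2) / 2 * ((⟪b, x⟫ : ℝ) : ℂ)) := by
  simp [Lf508]
  ring

theorem F2prod508 (h0 : StmtF0) {n : ℕ} (hn : 1 ≤ n) {K H : Set (E n)} (hK : IsCompact K) (hH : IsCompact H)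
    (hcov : ∀ x, covg K x = covg H x) (a b : E n) (v t : ℂ) :
    F2 K a b (v, t) * F2 K a b (v, -t) = F2 H a b (v, t) * F2 H a b (v, -t) := by
  have h := h0 n hn K H hK hH hcov (Lf508 a b v t)
  have e1 : ∀ M : Set (E n), F2 M a b (v, t) = ∫ x in M, Complex.exp (Complex.I * Lf508 a b v t x) := by
    intro M
    unfold F2
    congr 1
    funext x
    rw [Lf508_apply]
  have e2 : ∀ M : Set (E n), F2 M a b (v, -t) = ∫ x in M, Complex.exp (-(Complex.I * Lf508 a b v t x)) := by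
    intro M
    unfold F2
    congr 1
    funext x
    rw [Lf508_apply]
    congr 1
    ring
  rw [e1, e1, e2, e2]
  exact h

theorem F2zero508 {n : ℕ} (K : Set (E n)) (hK : IsCompact K) (hi : (0 : E n) ∈ interior K) (a b : E n)
    (v : ℂ) : F2 K a b (v, 0) ≠ 0 := by
  have e : F2 K a b (v, 0) = ((volume : Measure (E n)).real K : ℂ) := by
    unfold F2
    simp
  rw [e]
  have h1 : 0 < (volume : Measure (E n)).real K := by
    have h2 : 0 < (volume : Measure (E n)) K :=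
      lt_of_lt_of_le (isOpen_interior.measure_pos _ ⟨0, hi⟩) (measure_mono interior_subset)
    exact ENNReal.toReal_pos h2.ne' hK.measure_lt_top.ne
  exact_mod_cast h1.ne'

theorem F2half508 (hL2 : StmtL2) {n : ℕ} (hn : 2 ≤ n) {K : Set (E n)} {h : E n → ℝ} {X : E n → E n}
    (g : Good K h X) (a b : E n) (t : ℂ) :
    F2 K a b (0, t) = FT (nuz K ((1 / 2 : ℝ) • b)) t := by
  rw [(hL2 n hn K h X g).1]
  unfold F2
  congr 1
  funext x
  congr 1
  simp only [real_inner_smul_left]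
  push_cast
  ring

theorem F2circ508 (hL2 : StmtL2) {n : ℕ} (hn : 2 ≤ n) {K : Set (E n)} {h : E n → ℝ} {X : E n → E n}
    (g : Good K h X) (a b : E n) (v t : ℂ) (hv : ‖v‖ = 1) :
    F2 K a b (v, t) = FT (nuz K (a + v.re • b)) (t * v) := by
  have hv2 : 1 + v ^ 2 = 2 * v * (v.re : ℂ) := by
    have h1 : v * (starRingEnd ℂ) v = 1 := by
      rw [Complex.mul_conj, Complex.normSq_eq_norm_sq, hv]; norm_num
    have h2 : v + (starRingEnd ℂ) v = 2 * (v.re : ℂ) := by
      rw [Complex.add_conj]; push_cast; ring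
    linear_combination v * h2 - h1
  rw [(hL2 n hn K h X g).1]
  unfold F2
  congr 1
  funext x
  congr 1
  simp only [inner_add_left, real_inner_smul_left]
  push_cast
  linear_combination (Complex.I * t / 2 * ((⟪b, x⟫ : ℝ) : ℂ)) * hv2

theorem amp508_cont {n : ℕ} {X : E n → E n} (hc : ContinuousOn (curv X) {0}ᶜ) :
    ContinuousOn (amp X) {0}ᶜ := by
  unfold amp
  refine (continuousOn_const.mul (continuous_norm.continuousOn.rpow_const ?_)).mul
    (Real.continuous_sqrt.comp_continuousOn hc)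
  intro z hz
  left
  exact norm_ne_zero_iff.2 hz

theorem amp508_eq {n : ℕ} {X X' : E n → E n} {z z' : E n} (hz : ‖z‖ = ‖z'‖) (hc : curv X z = curv X' z') :
    amp X z = amp X' z' := by
  unfold amp
  rw [hz, hc]

theorem amp508_ne {n : ℕ} {X : E n → E n} {z : E n} (hz : z ≠ 0) (h1 : 0 < curv X z) (h2 : 0 < curv X (-z))
    (hc : curv X z ≠ curv X (-z)) : amp X z ≠ amp X (-z) := by
  unfold amp
  rw [norm_neg]
  intro h
  have hcc : 0 < cc n := by unfold cc; positivity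
  have hzn : 0 < ‖z‖ ^ (-kap n) := Real.rpow_pos_of_pos (norm_pos_iff.2 hz) _
  have h3 := mul_left_cancel₀ (mul_pos hcc hzn).ne' h
  exact hc ((Real.sqrt_inj h1.le h2.le).1 h3)

theorem stZ (hA : StmtA) (h3a : Stmt3a) (h3b : Stmt3b) (hC3 : StmtC3) (h3 : StmtG3) (h11 : StmtG11)
    (h0 : StmtF0) (h1 : StmtF1) (hF3 : StmtF3) (hF2 : StmtF2) (hL1 : StmtL1) (hL2 : StmtL2)
    (hZ0 : StmtZ0) (hZ1 : StmtZ1) (hZ2 : StmtZ2) : StmtZ := by
  intro n hn K H hK hH XK XH gK gH hcov hcon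
  obtain ⟨u₁, u₂, hu₁, hu₂, e1, e2, e3, e4⟩ := hcon
  obtain ⟨cKc, cKpos, cKh, -, -, -⟩ := h3 n hn K hK XK gK
  obtain ⟨cHc, cHpos, cHh, -, -, -⟩ := h3 n hn H hH XH gH
  have q : ∀ u, u ≠ 0 → (curv XH u = curv XK u ∧ curv XH (-u) = curv XK (-u)) ∨
      (curv XH u = curv XK (-u) ∧ curv XH (-u) = curv XK u) := by
    intro u hu
    obtain ⟨a1, a2⟩ := hF3 n hn K H hK hH XK XH gK gH hcov u hu
    exact quad508 a1 a2
  have hcontat : ∀ (X : E n → E n), ContinuousOn (curv X) {0}ᶜ → ∀ u, u ≠ 0 → ContinuousAt (curv X) u :=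
    fun X hX u hu => hX.continuousAt (isOpen_compl_singleton.mem_nhds hu)
  have hcontneg : ∀ (X : E n → E n), ContinuousOn (curv X) {0}ᶜ → ∀ u, u ≠ 0 →
      ContinuousAt (fun z => curv X (-z)) u := fun X hX u hu =>
    ContinuousAt.comp (f := fun z : E n => -z) (g := curv X)
      (hcontat X hX (-u) (neg_ne_zero.2 hu)) continuous_neg.continuousAt
  have hne : ∀ (f g : E n → ℝ) (u : E n), ContinuousAt f u → ContinuousAt g u → f u ≠ g u →
      ∀ᶠ z in 𝓝 u, f z ≠ g z := by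
    intro f g u hf hg hfg
    have := (hf.sub hg).eventually_ne (sub_ne_zero.2 hfg)
    filter_upwards [this] with z hz h
    exact hz (sub_eq_zero.2 h)
  have hnz : ∀ u : E n, u ≠ 0 → ∀ᶠ z in 𝓝 u, z ≠ 0 := fun u hu => isOpen_compl_singleton.mem_nhds hu
  have ev1 : ∀ᶠ z in 𝓝 u₁, z ≠ 0 ∧ curv XH z = curv XK z ∧ curv XH (-z) = curv XK (-z) ∧
      curv XK z ≠ curv XK (-z) := by
    filter_upwards [hnz u₁ hu₁, hne _ _ u₁ (hcontat XH cHc u₁ hu₁) (hcontneg XK cKc u₁ hu₁)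
      (by rw [e1]; exact e2), hne _ _ u₁ (hcontat XK cKc u₁ hu₁) (hcontneg XK cKc u₁ hu₁) e2]
      with z z0 z1 z2
    rcases q z z0 with h | h
    · exact ⟨z0, h.1, h.2, z2⟩
    · exact absurd h.1 z1
  have ev2 : ∀ᶠ z in 𝓝 u₂, z ≠ 0 ∧ curv XH z = curv XK (-z) ∧ curv XH (-z) = curv XK z ∧
      curv XK z ≠ curv XK (-z) := by
    filter_upwards [hnz u₂ hu₂, hne _ _ u₂ (hcontat XH cHc u₂ hu₂) (hcontat XK cKc u₂ hu₂)
      (by rw [e3]; exact e4.symm), hne _ _ u₂ (hcontat XK cKc u₂ hu₂) (hcontneg XK cKc u₂ hu₂) e4]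
      with z z0 z1 z2
    rcases q z z0 with h | h
    · exact absurd h.1 z1
    · exact ⟨z0, h.1, h.2, z2⟩
  obtain ⟨r₁, hr₁, hb₁⟩ := Metric.eventually_nhds_iff_ball.1 ev1
  obtain ⟨ρ, hρ, hb₂⟩ := Metric.eventually_nhds_iff_ball.1 ev2
  set r : ℝ := r₁ / 2 with hr
  have hrpos : 0 < r := by positivity
  set N : ℝ := (2 * r + ‖u₁‖ + 1) / ρ with hN
  have hNpos : 0 < N := by positivity
  set a₀ : E n := N • u₂ with ha₀
  have P1 : ∀ b ∈ closedBall u₁ r, (1 / 2 : ℝ) • b ≠ 0 ∧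
      curv XH ((1 / 2 : ℝ) • b) = curv XK ((1 / 2 : ℝ) • b) ∧
      curv XH (-((1 / 2 : ℝ) • b)) = curv XK (-((1 / 2 : ℝ) • b)) ∧
      curv XK ((1 / 2 : ℝ) • b) ≠ curv XK (-((1 / 2 : ℝ) • b)) := by
    intro b hb
    obtain ⟨b0, b1, b2, b3⟩ := hb₁ b (closedBall_subset_ball (by linarith) hb)
    have hb' : -b ≠ 0 := neg_ne_zero.2 b0
    rw [← smul_neg, cKh _ _ (by norm_num) b0, cHh _ _ (by norm_num) b0, cKh _ _ (by norm_num) hb',
      cHh _ _ (by norm_num) hb']
    exact ⟨smul_ne_zero (by norm_num) b0, b1, b2, b3⟩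
  have P2 : ∀ a ∈ closedBall a₀ r, ∀ b ∈ closedBall u₁ r, ∀ s ∈ Icc (-1 : ℝ) 1, a + s • b ≠ 0 ∧
      curv XH (a + s • b) = curv XK (-(a + s • b)) ∧ curv XH (-(a + s • b)) = curv XK (a + s • b) ∧
      curv XK (a + s • b) ≠ curv XK (-(a + s • b)) := by
    intro a ha b hb s hs
    set z := a + s • b with hz
    have hzN : z = N • (N⁻¹ • z) := by rw [smul_smul, mul_inv_cancel₀ hNpos.ne', one_smul]
    have hmem : N⁻¹ • z ∈ ball u₂ ρ := by
      rw [mem_ball, dist_eq_norm]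
      have e : N⁻¹ • z - u₂ = N⁻¹ • ((a - a₀) + s • b) := by
        rw [ha₀, hz]
        simp only [smul_add, smul_sub, smul_smul, inv_mul_cancel₀ hNpos.ne', one_smul]
        abel
      rw [e, norm_smul, Real.norm_of_nonneg (by positivity)]
      have i1 : ‖a - a₀‖ ≤ r := by rw [← dist_eq_norm]; exact ha
      have i2 : ‖b‖ ≤ ‖u₁‖ + r := by
        have : ‖b - u₁‖ ≤ r := by rw [← dist_eq_norm]; exact hb
        have := norm_le_norm_add_norm_sub' b u₁
        linarith [norm_sub_rev u₁ b]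
      have i3 : ‖s • b‖ ≤ ‖u₁‖ + r := by
        rw [norm_smul]
        have : ‖s‖ ≤ 1 := by rw [Real.norm_eq_abs, abs_le]; exact hs
        nlinarith [norm_nonneg b, norm_nonneg s]
      have i4 : ‖(a - a₀) + s • b‖ ≤ 2 * r + ‖u₁‖ := (norm_add_le _ _).trans (by linarith)
      have i5 : N * ρ = 2 * r + ‖u₁‖ + 1 := by rw [hN]; field_simp
      rw [inv_mul_lt_iff₀ hNpos, i5]
      linarith
    obtain ⟨b0, b1, b2, b3⟩ := hb₂ _ hmem
    have hb' : -(N⁻¹ • z) ≠ 0 := neg_ne_zero.2 b0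
    have k1 : curv XK z = curv XK (N⁻¹ • z) := by
      conv_lhs => rw [hzN]
      exact cKh _ _ hNpos b0
    have k2 : curv XH z = curv XH (N⁻¹ • z) := by
      conv_lhs => rw [hzN]
      exact cHh _ _ hNpos b0
    have k3 : curv XK (-z) = curv XK (-(N⁻¹ • z)) := by
      conv_lhs => rw [hzN, ← smul_neg]
      exact cKh _ _ hNpos hb'
    have k4 : curv XH (-z) = curv XH (-(N⁻¹ • z)) := by
      conv_lhs => rw [hzN, ← smul_neg]
      exact cHh _ _ hNpos hb'
    rw [k1, k2, k3, k4]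
    refine ⟨?_, b1, b2, b3⟩
    rw [hzN]
    exact smul_ne_zero hNpos.ne' b0
  -- the compact set
  set C : Set (E n) := (fun b : E n => (1 / 2 : ℝ) • b) '' closedBall u₁ r ∪
    (fun q : E n × E n × ℝ => q.1 + q.2.2 • q.2.1) ''
      (closedBall a₀ r ×ˢ (closedBall u₁ r ×ˢ Icc (-1 : ℝ) 1)) with hC
  have hCc : IsCompact C := by
    refine IsCompact.union ((isCompact_closedBall _ _).image (by fun_prop)) ?_
    exact (((isCompact_closedBall _ _).prod ((isCompact_closedBall _ _).prod isCompact_Icc))).image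
      (by fun_prop)
  have hCP : ∀ z ∈ C, z ≠ 0 ∧ curv XK z ≠ curv XK (-z) := by
    rintro z (⟨b, hb, rfl⟩ | ⟨⟨a, b, s⟩, ⟨ha, hb, hs⟩, rfl⟩)
    · exact ⟨(P1 b hb).1, (P1 b hb).2.2.2⟩
    · exact ⟨(P2 a ha b hb s hs).1, (P2 a ha b hb s hs).2.2.2⟩
  have hC0 : (0 : E n) ∉ C := fun h => (hCP 0 h).1 rfl
  have hCne : C.Nonempty := ⟨(1 / 2 : ℝ) • u₁, Or.inl ⟨u₁, mem_closedBall_self hrpos.le, rfl⟩⟩
  obtain ⟨pK, PK, hpK, LK⟩ := hL1 n hn K hK XK gK C hCc hC0
  obtain ⟨pH, PH, hpH, LH⟩ := hL1 n hn H hH XH gH C hCc hC0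
  set p : ℝ := min pK pH with hp
  set P : ℝ := max PK PH with hP
  have hppos : 0 < p := lt_min hpK hpH
  have LK' : ∀ z ∈ C, LineData p P (nuz K z) (hK z) (hK (-z)) (amp XK z) (amp XK (-z)) := fun z hz =>
    (LK z hz).mono508 (min_le_left _ _) (le_max_left _ _)
  have LH' : ∀ z ∈ C, LineData p P (nuz H z) (hH z) (hH (-z)) (amp XH z) (amp XH (-z)) := fun z hz =>
    (LH z hz).mono508 (min_le_right _ _) (le_max_right _ _)
  have hPpos : 0 < P := by
    obtain ⟨z, hz⟩ := hCne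
    have := LK' z hz
    linarith [this.h1, this.h2]
  -- lower bound for the amplitude difference
  have hCsub : C ⊆ {0}ᶜ := fun z hz => (hCP z hz).1
  have hDc : ContinuousOn (fun z => |amp XK z - amp XK (-z)|) C := by
    refine ContinuousOn.abs (((amp508_cont cKc).mono hCsub).sub ?_)
    refine ContinuousOn.comp (amp508_cont cKc) continuous_neg.continuousOn ?_
    intro z hz
    exact neg_ne_zero.2 (hCP z hz).1
  obtain ⟨zm, hzm, hmin⟩ := hCc.exists_isMinOn hCne hDc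
  set δ₀ : ℝ := |amp XK zm - amp XK (-zm)| with hδ₀
  have hδ₀pos : 0 < δ₀ := by
    rw [hδ₀, abs_pos, sub_ne_zero]
    obtain ⟨z0, z1⟩ := hCP zm hzm
    exact amp508_ne z0 (cKpos _ z0) (cKpos _ (neg_ne_zero.2 z0)) z1
  have hδ : ∀ z ∈ C, δ₀ ≤ |amp XK z - amp XK (-z)| := fun z hz => hmin hz
  -- the error function
  obtain ⟨GKc, CK, hCK⟩ := hZ0 n hn K hK XK gK
  obtain ⟨GHc, CH, hCH⟩ := hZ0 n hn H hH XH gH
  set GK : E n → ℝ := fun ξ => ‖FK K ξ - Mhat hK XK ξ‖ ^ 2 with hGK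
  set GH : E n → ℝ := fun ξ => ‖FK H ξ - Mhat hH XH ξ‖ ^ 2 with hGH
  have GK0 : ∀ ξ, 0 ≤ GK ξ := fun ξ => by positivity
  have GH0 : ∀ ξ, 0 ≤ GH ξ := fun ξ => by positivity
  set G : E n → ℝ := fun ξ => GK ξ + GH ξ with hG
  have G0 : ∀ ξ, 0 ≤ G ξ := fun ξ => add_nonneg (GK0 ξ) (GH0 ξ)
  have Gc : ContinuousOn G {0}ᶜ := GKc.add GHc
  have Gb : ∀ ξ, ξ ≠ 0 → ‖ξ‖ ^ (n + 1) * G ξ ≤ (CK + CH) * (1 + ‖ξ‖ ^ (n + 1)) := by
    intro ξ hξ
    have := hCK ξ hξ
    have := hCH ξ hξ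
    simp only [hG, mul_add, add_mul] at *
    linarith
  obtain ⟨iK, tK⟩ := h11 n hn K hK XK gK
  obtain ⟨iH, tH⟩ := h11 n hn H hH XH gH
  have iG : ∀ T : ℝ, 0 < T → Integrable (fun ξ : E n => Real.exp (-(‖ξ‖ / T)) * (‖ξ‖ ^ 2 * G ξ)) := by
    intro T hT
    have := (iK T hT).add (iH T hT)
    refine this.congr (Eventually.of_forall fun ξ => ?_)
    simp only [Pi.add_apply, hG, hGK, hGH]
    ring
  have tG : Tendsto (fun T : ℝ => T⁻¹ * ∫ ξ : E n, Real.exp (-(‖ξ‖ / T)) * (‖ξ‖ ^ 2 * G ξ)) atTop (𝓝 0) := by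
    have := tK.add tH
    rw [add_zero] at this
    refine this.congr' ?_
    filter_upwards [eventually_gt_atTop 0] with T hT
    rw [← mul_add, ← integral_add (iK T hT) (iH T hT)]
    congr 1
    refine integral_congr_ae (Eventually.of_forall fun ξ => ?_)
    simp only [hG, hGK, hGH]
    ring
  have hkap : 1 ≤ kap n := by
    unfold kap
    have : (2 : ℝ) ≤ n := by exact_mod_cast hn
    linarith
  obtain ⟨c₀, εa, Ra, hc₀, hεa, hRa, H3a⟩ := h3a (kap n) (ph n) p P δ₀ hkap hppos hδ₀pos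
  obtain ⟨εb, Rb, hεb, hRb, H3b⟩ := h3b (kap n) (ph n) p P δ₀ (c₀ / 4) hkap hppos hδ₀pos (by positivity)
  set W : ℝ := 2 * P / Real.pi with hW
  have hWpos : 0 < W := by positivity
  set ε : ℝ := min εa (εb * c₀ / (4 * (W + 1))) with hε
  have hεpos : 0 < ε := lt_min hεa (by positivity)
  have hWε : W / εb * ε ≤ c₀ / 4 := by
    have i1 : ε ≤ εb * c₀ / (4 * (W + 1)) := min_le_right _ _
    calc W / εb * ε ≤ W / εb * (εb * c₀ / (4 * (W + 1))) := by gcongr
      _ = (W / (W + 1)) * (c₀ / 4) := by field_simp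
      _ ≤ 1 * (c₀ / 4) := by
          gcongr
          rw [div_le_one (by positivity)]; linarith
      _ = c₀ / 4 := one_mul _
  have hnz2 : ∀ a ∈ closedBall a₀ r, ∀ b ∈ closedBall u₁ r, ∀ s ∈ Icc (-1 : ℝ) 1, a + s • b ≠ 0 ∧ b ≠ 0 :=
    fun a ha b hb s hs => ⟨(P2 a ha b hb s hs).1, fun h => (P1 b hb).1 (by rw [h, smul_zero])⟩
  obtain ⟨R₀, hR₀, HZ1⟩ := hZ1 n hn G (CK + CH) G0 Gc Gb iG tG a₀ u₁ r hrpos hnz2 ε hεpos
  set R : ℝ := max R₀ (max Ra Rb) with hR
  have hRR₀ : R₀ ≤ R := le_max_left _ _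
  have hRRa : Ra ≤ R := (le_max_left _ _).trans (le_max_right _ _)
  have hRRb : Rb ≤ R := (le_max_right _ _).trans (le_max_right _ _)
  have hRpos : 0 < R := hR₀.trans_le hRR₀
  obtain ⟨a, ha, b, hb, herr1, herr2⟩ := HZ1 R hRR₀
  have ha' := ball_subset_closedBall ha
  have hb' := ball_subset_closedBall hb
  -- sum of the errors on a line
  have herrsum : ∀ z ∈ C, errI (kap n) (ph n) (nuz K z) (hK z) (hK (-z)) (amp XK z) (amp XK (-z)) R +
      errI (kap n) (ph n) (nuz H z) (hH z) (hH (-z)) (amp XH z) (amp XH (-z)) R =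
      ∫ t in (0 : ℝ)..(2 * R), t ^ (n + 1) * G (t • z) := by
    intro z hz
    have z0 := (hCP z hz).1
    rw [(hL2 n hn K hK XK gK).2 z z0 R hRpos.le, (hL2 n hn H hH XH gH).2 z z0 R hRpos.le,
      ← intervalIntegral.integral_add (genInt508 GK0 GKc hCK z0 hRpos.le) (genInt508 GH0 GHc hCH z0 hRpos.le)]
    congr 1
    funext t
    simp only [hG, hGK, hGH]
    ring
  -- matched direction
  set z₁ : E n := (1 / 2 : ℝ) • b with hz₁
  have hz₁C : z₁ ∈ C := Or.inl ⟨b, hb', rfl⟩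
  obtain ⟨z10, z11, z12, z13⟩ := P1 b hb'
  have am1 : amp XH z₁ = amp XK z₁ := amp508_eq rfl z11
  have am2 : amp XH (-z₁) = amp XK (-z₁) := amp508_eq rfl z12
  have LH1 := LH' z₁ hz₁C
  have hs1 := herrsum z₁ hz₁C
  rw [am1, am2] at LH1 hs1
  obtain ⟨S₀, hS₀, hS₀sum⟩ := H3a (nuz K z₁) (nuz H z₁) (hK z₁) (hK (-z₁)) (hH z₁) (hH (-z₁))
    (amp XK z₁) (amp XK (-z₁)) (hK z₁ + hK (-z₁)) (LK' z₁ hz₁C) LH1 rfl
    (h1 n hn K H hK hH XK XH gK gH hcov z₁ z10) (hδ z₁ hz₁C) R hRRa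
    (by rw [hs1]; exact herr1.trans (by
          have : ε ≤ εa := min_le_left _ _
          gcongr))
  -- the functions of two variables
  set err : ℂ → ℝ := fun v => ∫ t in (0 : ℝ)..(2 * R), t ^ (n + 1) * G (t • (a + v.re • b)) with herr
  have herr0 : ∀ v, 0 ≤ err v := by
    intro v
    refine intervalIntegral.integral_nonneg (by positivity) fun t ht => ?_
    exact mul_nonneg (pow_nonneg ht.1 _) (G0 _)
  set B : ℂ → ℝ := fun v => c₀ / 4 * R + W / εb * err v with hB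
  have herrc : ContinuousOn err (sphere 0 1) :=
    hZ2 n hn G (CK + CH) G0 Gc Gb a b R hRpos fun s hs => (P2 a ha' b hb' s hs).1
  have hBc : ContinuousOn B (sphere 0 1) := continuousOn_const.add (continuousOn_const.mul herrc)
  have hfd := hF2 n K a b gK.compact
  have hgd := hF2 n H a b gH.compact
  have key := hA (F2 K a b) (F2 H a b) R B hfd hgd hRpos
    (fun v => F2zero508 K gK.compact gK.zero_mem a b v) hBc ?_ S₀ ?_
  · -- final contradiction
    have hcirc : Real.circleAverage B 0 1 = c₀ / 4 * R + W / εb * Real.circleAverage err 0 1 := by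
      have e : B = fun v => (fun _ => c₀ / 4 * R) v + (fun v => (W / εb) • err v) v := by
        funext v; simp [hB]
      have ci : CircleIntegrable err 0 1 := herrc.circleIntegrable zero_le_one
      rw [e, Real.circleAverage_fun_add (circleIntegrable_const _ _ _) (by
        exact ((continuousOn_const.mul herrc : ContinuousOn (fun v => (W / εb) * err v)
          (sphere 0 1))).circleIntegrable zero_le_one),
        Real.circleAverage_const, Real.circleAverage_fun_smul]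
      simp
    rw [hcirc] at key
    have i1 : W / εb * Real.circleAverage err 0 1 ≤ c₀ / 4 * R := by
      calc W / εb * Real.circleAverage err 0 1 ≤ W / εb * (ε * R) := by
            gcongr
        _ = (W / εb * ε) * R := by ring
        _ ≤ c₀ / 4 * R := by gcongr
    have : 0 < c₀ * R := by positivity
    linarith
  · -- bound on the circle
    intro v hv S hS
    have hv1 : ‖v‖ = 1 := by simpa using hv
    have hv0 : v ≠ 0 := by rw [← norm_pos_iff, hv1]; exact one_pos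
    have hvre : v.re ∈ Icc (-1 : ℝ) 1 := by
      have := Complex.abs_re_le_norm v
      rw [hv1, abs_le] at this
      exact this
    set z : E n := a + v.re • b with hz
    have hzC : z ∈ C := Or.inr ⟨(a, b, v.re), ⟨ha', hb', hvre⟩, rfl⟩
    obtain ⟨y0, y1, y2, y3⟩ := P2 a ha' b hb' v.re hvre
    have hinj : Function.Injective fun t : ℂ => t * v := fun t t' h => mul_right_cancel₀ hv0 h
    set S' : Finset ℂ := S.map ⟨fun t => t * v, hinj⟩ with hS'
    have hsumS : ∑ t ∈ S, Real.log (R / ‖t‖) = ∑ t ∈ S', Real.log (R / ‖t‖) := by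
      rw [hS', Finset.sum_map]
      refine Finset.sum_congr rfl fun t _ => ?_
      simp [hv1]
    have hS'1 : ∀ t ∈ S', ‖t‖ < R ∧ FT (nuz K z) t = 0 ∧ FT (nuz H z) t = 0 := by
      intro t ht
      rw [hS', Finset.mem_map] at ht
      obtain ⟨t', ht', rfl⟩ := ht
      obtain ⟨w1, w2, w3⟩ := hS t' ht'
      refine ⟨by simpa [hv1] using w1, ?_, ?_⟩
      · rw [F2circ508 hL2 hn gK a b v t' hv1] at w2
        exact w2
      · rw [F2circ508 hL2 hn gH a b v t' hv1] at w3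
        exact w3
    rw [hsumS]
    rcases le_or_gt (err v) (εb * R) with hle | hgt
    · have am3 : amp XH z = amp XK (-z) := amp508_eq (norm_neg z).symm y1
      have am4 : amp XH (-z) = amp XK z := amp508_eq (norm_neg z) y2
      have LH2 := LH' z hzC
      have hs2 := herrsum z hzC
      rw [am3, am4] at LH2 hs2
      have := H3b (nuz K z) (nuz H z) (hK z) (hK (-z)) (hH z) (hH (-z))
        (amp XK z) (amp XK (-z)) (hK z + hK (-z)) (LK' z hzC) LH2 rfl
        (h1 n hn K H hK hH XK XH gK gH hcov z y0) (hδ z hzC) R hRRb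
        (by rw [hs2]; exact hle) S' hS'1
      have h5 : 0 ≤ W / εb * err v := mul_nonneg (by positivity) (herr0 v)
      simp only [hB]
      linarith
    · have LKz := LK' z hzC
      have h6 := hC3 (nuz K z) (hK z) (hK (-z)) LKz.fin LKz.supp (hppos.trans_le LKz.mass)
        (hppos.le.trans LKz.h1) (hppos.le.trans LKz.h3) R hRpos S' (fun t ht => ⟨(hS'1 t ht).1, (hS'1 t ht).2.1⟩)
      have h7 : (hK z + hK (-z)) * R / Real.pi ≤ W * R := by
        have := LKz.h2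
        have := LKz.h4
        rw [hW, div_mul_eq_mul_div]
        gcongr
        linarith
      have h8 : W * R ≤ W / εb * err v := by
        have : W * R = W / εb * (εb * R) := by field_simp
        rw [this]
        gcongr
      have h9 : 0 ≤ c₀ / 4 * R := by positivity
      simp only [hB]
      linarith
  · -- the zeros on the line
    intro t ht
    obtain ⟨w1, w2, w3⟩ := hS₀ t ht
    refine ⟨w1, ?_, ?_⟩
    · rw [F2half508 hL2 hn gK a b t]
      exact w2
    · have hne0 : F2 H a b (0, -t) ≠ 0 := by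
        rw [F2half508 hL2 hn gH a b (-t)]
        exact w3
      have hcont : ContinuousAt (fun q : ℂ × ℂ => F2 H a b (q.1, -q.2)) (0, t) := by
        have : Continuous (fun q : ℂ × ℂ => F2 H a b (q.1, -q.2)) :=
          hgd.continuous.comp (by fun_prop)
        exact this.continuousAt
      have := hcont.eventually_ne hne0
      filter_upwards [this] with q hq hfq
      have hpr := F2prod508 h0 (by omega) gK.compact gH.compact hcov a b q.1 q.2
      have e : (q.1, q.2) = q := rfl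
      rw [e, hfq, zero_mul] at hpr
      exact (mul_eq_zero.1 hpr.symm).resolve_right hq

end Pool.Agent.Helper890.Cov.JZ
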