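import Mathlib
import Pool.Agent.Helper890.Cov.StA
import Pool.Agent.Helper890.Cov.StB
import Pool.Agent.Helper890.Cov.StG
import Pool.Agent.Helper890.Cov.StF




namespace Pool.Agent.Helper890.Cov.JZ0
open MeasureTheory Set Filter Topology Metric
open scoped RealInnerProductSpace

theorem stZ0 (h3 : StmtG3) : StmtZ0 := by
  intro n hn K h X hG
  obtain ⟨hc1, hc2, hc3, hc4, hc5, hc6⟩ := h3 n hn K h X hG
  have hKfin : (volume : Measure (E n)) K < ⊤ := hG.compact.measure_lt_top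
  have hfm : IsFiniteMeasure ((volume : Measure (E n)).restrict K) :=
    ⟨by rw [Measure.restrict_apply_univ]; exact hKfin⟩
  have hnorm1 : ∀ (ξ x : E n), ‖Complex.exp (Complex.I * ((⟪ξ, x⟫ : ℝ) : ℂ))‖ = 1 := by
    intro ξ x
    rw [mul_comm, Complex.norm_exp_ofReal_mul_I]
  have hFc : Continuous (fun ξ : E n => FK K ξ) := by
    unfold FK
    refine continuous_of_dominated (bound := fun _ => (1 : ℝ)) ?_ ?_ (integrable_const 1) ?_
    · intro ξ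
      exact (Continuous.aestronglyMeasurable (by fun_prop))
    · intro ξ
      exact Eventually.of_forall fun x => (hnorm1 ξ x).le
    · exact Eventually.of_forall fun x => by fun_prop
  have hFb : ∀ ξ : E n, ‖FK K ξ‖ ≤ (volume : Measure (E n)).real K := by
    intro ξ
    unfold FK
    have h1 : ‖∫ x in K, Complex.exp (Complex.I * ((⟪ξ, x⟫ : ℝ) : ℂ))‖ ≤
        1 * (volume : Measure (E n)).real K :=
      norm_setIntegral_le_of_norm_le_const hKfin (fun x _ => (hnorm1 ξ x).le)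
    rwa [one_mul] at h1
  have hneg : ContinuousOn (fun ξ : E n => curv X (-ξ)) {0}ᶜ := by
    refine hc1.comp continuous_neg.continuousOn ?_
    intro ξ hξ
    simpa using hξ
  have hMc : ContinuousOn (fun ξ : E n => Mhat h X ξ) {0}ᶜ := by
    unfold Mhat
    have e1 : ContinuousOn (fun ξ : E n => ‖ξ‖ ^ (-kap n)) {0}ᶜ := by
      refine ContinuousOn.rpow_const continuous_norm.continuousOn ?_
      intro ξ hξ
      left
      exact norm_ne_zero_iff.2 hξ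
    have e2 : ContinuousOn (fun ξ : E n => ((cc n * ‖ξ‖ ^ (-kap n) : ℝ) : ℂ)) {0}ᶜ :=
      Complex.continuous_ofReal.comp_continuousOn (continuousOn_const.mul e1)
    have e3 : ContinuousOn (fun ξ : E n => ((Real.sqrt (curv X ξ) : ℝ) : ℂ)) {0}ᶜ :=
      Complex.continuous_ofReal.comp_continuousOn (Real.continuous_sqrt.comp_continuousOn hc1)
    have e4 : ContinuousOn (fun ξ : E n => ((Real.sqrt (curv X (-ξ)) : ℝ) : ℂ)) {0}ᶜ :=
      Complex.continuous_ofReal.comp_continuousOn (Real.continuous_sqrt.comp_continuousOn hneg)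
    have e5 : Continuous (fun ξ : E n => Complex.exp (Complex.I * (((h ξ + ph n : ℝ)) : ℂ))) := by
      fun_prop
    have e6 : Continuous (fun ξ : E n =>
        Complex.exp (-(Complex.I * (((h (-ξ) + ph n : ℝ)) : ℂ)))) := by
      fun_prop
    exact e2.mul ((e3.mul e5.continuousOn).add (e4.mul e6.continuousOn))
  refine ⟨((hFc.continuousOn.sub hMc).norm.pow 2), ?_⟩
  -- bound of the curvature
  obtain ⟨B, hB⟩ := (isCompact_sphere (0 : E n) 1).exists_bound_of_continuousOn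
    (hc1.mono (by
      intro u hu h0
      rw [Set.mem_singleton_iff] at h0
      rw [h0] at hu
      simp at hu))
  have hcb : ∀ ξ : E n, ξ ≠ 0 → curv X ξ ≤ |B| := by
    intro ξ hξ
    have hn0 : 0 < ‖ξ‖ := norm_pos_iff.2 hξ
    have e1 : curv X (‖ξ‖⁻¹ • ξ) = curv X ξ := hc3 _ ξ (inv_pos.2 hn0) hξ
    have e2 : ‖ξ‖⁻¹ • ξ ∈ sphere (0 : E n) 1 := by
      rw [mem_sphere_zero_iff_norm, norm_smul, norm_inv, norm_norm]
      exact inv_mul_cancel₀ hn0.ne'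
    have e3 := hB _ e2
    rw [e1] at e3
    exact (le_abs_self _).trans (e3.trans (le_abs_self _))
  have hsq : ∀ ξ : E n, ξ ≠ 0 → Real.sqrt (curv X ξ) ≤ Real.sqrt |B| := fun ξ hξ =>
    Real.sqrt_le_sqrt (hcb ξ hξ)
  have hMb : ∀ ξ : E n, ξ ≠ 0 → ‖Mhat h X ξ‖ ≤ |cc n| * ‖ξ‖ ^ (-kap n) * (2 * Real.sqrt |B|) := by
    intro ξ hξ
    have hr : 0 ≤ ‖ξ‖ ^ (-kap n) := Real.rpow_nonneg (norm_nonneg _) _
    unfold Mhat
    rw [norm_mul, Complex.norm_real, Real.norm_eq_abs, abs_mul, abs_of_nonneg hr]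
    refine mul_le_mul_of_nonneg_left ?_ (by positivity)
    refine (norm_add_le _ _).trans ?_
    rw [norm_mul, norm_mul, Complex.norm_real, Complex.norm_real,
      Real.norm_of_nonneg (Real.sqrt_nonneg _), Real.norm_of_nonneg (Real.sqrt_nonneg _)]
    have e1 : ‖Complex.exp (Complex.I * (((h ξ + ph n : ℝ)) : ℂ))‖ = 1 := by
      rw [mul_comm, Complex.norm_exp_ofReal_mul_I]
    have e2 : ‖Complex.exp (-(Complex.I * (((h (-ξ) + ph n : ℝ)) : ℂ)))‖ = 1 := by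
      have : -(Complex.I * (((h (-ξ) + ph n : ℝ)) : ℂ)) =
          ((-(h (-ξ) + ph n) : ℝ) : ℂ) * Complex.I := by
        push_cast; ring
      rw [this, Complex.norm_exp_ofReal_mul_I]
    rw [e1, e2, mul_one, mul_one]
    have e3 := hsq ξ hξ
    have e4 := hsq (-ξ) (neg_ne_zero.2 hξ)
    linarith
  refine ⟨2 * (volume : Measure (E n)).real K ^ 2 + 2 * (|cc n| * (2 * Real.sqrt |B|)) ^ 2, ?_⟩
  intro ξ hξ
  have hn0 : 0 < ‖ξ‖ := norm_pos_iff.2 hξ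
  have hr : 0 ≤ ‖ξ‖ ^ (-kap n) := Real.rpow_nonneg (norm_nonneg _) _
  have hk : ‖ξ‖ ^ (n + 1) * (‖ξ‖ ^ (-kap n)) ^ 2 = 1 := by
    rw [← Real.rpow_natCast (‖ξ‖ ^ (-kap n)) 2, ← Real.rpow_mul hn0.le, ← Real.rpow_natCast ‖ξ‖ (n + 1),
      ← Real.rpow_add hn0]
    have : (((n + 1 : ℕ) : ℝ)) + -kap n * ((2 : ℕ) : ℝ) = 0 := by
      unfold kap
      push_cast
      ring
    rw [this, Real.rpow_zero]
  have hF := hFb ξ
  have hM := hMb ξ hξ
  have h1 : ‖FK K ξ - Mhat h X ξ‖ ^ 2 ≤ 2 * ‖FK K ξ‖ ^ 2 + 2 * ‖Mhat h X ξ‖ ^ 2 := by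
    have e1 := norm_sub_le (FK K ξ) (Mhat h X ξ)
    have e2 : 0 ≤ ‖FK K ξ - Mhat h X ξ‖ := norm_nonneg _
    nlinarith [sq_nonneg (‖FK K ξ‖ - ‖Mhat h X ξ‖)]
  have h2 : ‖FK K ξ‖ ^ 2 ≤ (volume : Measure (E n)).real K ^ 2 :=
    pow_le_pow_left₀ (norm_nonneg _) hF 2
  have h3' : ‖Mhat h X ξ‖ ^ 2 ≤ (|cc n| * ‖ξ‖ ^ (-kap n) * (2 * Real.sqrt |B|)) ^ 2 :=
    pow_le_pow_left₀ (norm_nonneg _) hM 2
  have h4 : ‖ξ‖ ^ (n + 1) * (|cc n| * ‖ξ‖ ^ (-kap n) * (2 * Real.sqrt |B|)) ^ 2 =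
      (|cc n| * (2 * Real.sqrt |B|)) ^ 2 := by
    linear_combination (|cc n| * (2 * Real.sqrt |B|)) ^ 2 * hk
  have hp : 0 ≤ ‖ξ‖ ^ (n + 1) := by positivity
  set V := (volume : Measure (E n)).real K with hV
  set D := (|cc n| * (2 * Real.sqrt |B|)) ^ 2 with hD
  have hD0 : 0 ≤ D := by positivity
  have hV0 : 0 ≤ V ^ 2 := by positivity
  calc ‖ξ‖ ^ (n + 1) * ‖FK K ξ - Mhat h X ξ‖ ^ 2
      ≤ ‖ξ‖ ^ (n + 1) * (2 * V ^ 2 + 2 * (|cc n| * ‖ξ‖ ^ (-kap n) * (2 * Real.sqrt |B|)) ^ 2) := by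
        apply mul_le_mul_of_nonneg_left _ hp
        linarith
    _ = 2 * V ^ 2 * ‖ξ‖ ^ (n + 1) + 2 * D := by
        linear_combination 2 * h4
    _ ≤ (2 * V ^ 2 + 2 * D) * (1 + ‖ξ‖ ^ (n + 1)) := by nlinarith

end Pool.Agent.Helper890.Cov.JZ0
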