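import Mathlib
import Pool.Agent.Helper890.Cov.StA
import Pool.Agent.Helper890.Cov.StB
import Pool.Agent.Helper890.Cov.StG
import Pool.Agent.Helper890.Cov.StF




namespace Pool.Agent.Helper890.Cov.JZ1
open MeasureTheory Set Filter Topology Metric
open scoped RealInnerProductSpace

theorem z1_scale (n : ℕ) {t : ℝ} (ht : 0 < t) (F : E n → ENNReal) (hF : Measurable F) :
    ∫⁻ z, F (t • z) = ENNReal.ofReal ((t ^ n)⁻¹) * ∫⁻ ξ, F ξ := by
  have h1 : ∫⁻ z, F (t • z) = ∫⁻ ξ, F ξ ∂(Measure.map (fun z : E n => t • z) volume) :=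
    (lintegral_map hF (measurable_const_smul t)).symm
  have h2 : Measure.map (fun z : E n => t • z) volume = ENNReal.ofReal ((t ^ n)⁻¹) • volume := by
    have := Measure.map_addHaar_smul (volume : Measure (E n)) ht.ne'
    rw [finrank_euclideanSpace_fin, abs_of_pos (by positivity)] at this
    exact this
  rw [h1, h2, lintegral_smul_measure]
  rfl

theorem z1_pt (n : ℕ) (g : E n → ENNReal) (D : Set (E n)) {m M R : ℝ} (hm : 0 < m) (hM : 0 ≤ M)
    (hD : ∀ z ∈ D, m ≤ ‖z‖ ∧ ‖z‖ ≤ M) (hR : 0 < R) {t : ℝ} (ht : t ∈ Ioc 0 (2 * R)) (ξ : E n) :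
    ENNReal.ofReal t * {ξ : E n | t⁻¹ • ξ ∈ D}.indicator g ξ ≤
      {p : ℝ × E n | p.1 ≤ ‖p.2‖ / m}.indicator (fun p : ℝ × E n => ENNReal.ofReal (‖p.2‖ / m) *
        (ENNReal.ofReal (Real.exp (2 * M) * Real.exp (-(‖p.2‖ / R))) * g p.2)) (t, ξ) := by
  by_cases h : t⁻¹ • ξ ∈ D
  · rw [indicator_of_mem (show ξ ∈ {ξ : E n | t⁻¹ • ξ ∈ D} from h)]
    obtain ⟨h1, h2⟩ := hD _ h
    rw [norm_smul, Real.norm_eq_abs, abs_of_pos (inv_pos.2 ht.1)] at h1 h2
    have ht0 := ht.1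
    have h3 : t ≤ ‖ξ‖ / m := by
      rw [le_div_iff₀ hm]
      rw [le_inv_mul_iff₀ ht0] at h1
      linarith
    rw [indicator_of_mem (show (t, ξ) ∈ {p : ℝ × E n | p.1 ≤ ‖p.2‖ / m} from h3)]
    refine mul_le_mul' (ENNReal.ofReal_le_ofReal h3) ?_
    have h4 : (1 : ENNReal) ≤ ENNReal.ofReal (Real.exp (2 * M) * Real.exp (-(‖ξ‖ / R))) := by
      rw [← ENNReal.ofReal_one]
      apply ENNReal.ofReal_le_ofReal
      rw [← Real.exp_add]
      apply Real.one_le_exp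
      have h5 : ‖ξ‖ ≤ 2 * R * M := by
        rw [inv_mul_le_iff₀ ht0] at h2
        exact h2.trans (mul_le_mul_of_nonneg_right ht.2 hM)
      have h6 : ‖ξ‖ / R ≤ 2 * M := by
        rw [div_le_iff₀ hR]
        linarith
      linarith
    calc g ξ = 1 * g ξ := (one_mul _).symm
      _ ≤ _ := mul_le_mul' h4 le_rfl
  · rw [indicator_of_notMem (show ξ ∉ {ξ : E n | t⁻¹ • ξ ∈ D} from h), mul_zero]
    exact zero_le

theorem z1_key (n : ℕ) (g : E n → ENNReal) (hg : Measurable g) (D : Set (E n))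
    (hDm : MeasurableSet D) {m M R : ℝ} (hm : 0 < m) (hM : 0 ≤ M)
    (hD : ∀ z ∈ D, m ≤ ‖z‖ ∧ ‖z‖ ≤ M) (hR : 0 < R) :
    ∫⁻ z in D, ∫⁻ t in Ioc 0 (2 * R), ENNReal.ofReal (t ^ (n + 1)) * g (t • z) ≤
      ENNReal.ofReal (Real.exp (2 * M) / m ^ 2) *
        ∫⁻ ξ, ENNReal.ofReal (Real.exp (-(‖ξ‖ / R)) * ‖ξ‖ ^ 2) * g ξ := by
  have hm1 : Measurable (fun p : E n × ℝ => ENNReal.ofReal (p.2 ^ (n + 1)) * g (p.2 • p.1)) :=
    ((measurable_snd.pow_const _).ennreal_ofReal).mul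
      (hg.comp (measurable_snd.smul measurable_fst))
  rw [lintegral_lintegral_swap hm1.aemeasurable]
  have h1 : ∀ t ∈ Ioc (0 : ℝ) (2 * R), ∫⁻ z in D, ENNReal.ofReal (t ^ (n + 1)) * g (t • z) ≤
      ∫⁻ ξ, {p : ℝ × E n | p.1 ≤ ‖p.2‖ / m}.indicator (fun p : ℝ × E n => ENNReal.ofReal (‖p.2‖ / m) *
        (ENNReal.ofReal (Real.exp (2 * M) * Real.exp (-(‖p.2‖ / R))) * g p.2)) (t, ξ) := by
    intro t ht
    have ht0 := ht.1
    have hDt : MeasurableSet {ξ : E n | t⁻¹ • ξ ∈ D} := hDm.preimage (measurable_const_smul t⁻¹)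
    have e1 : ∫⁻ z in D, g (t • z) = ∫⁻ z, {ξ : E n | t⁻¹ • ξ ∈ D}.indicator g (t • z) := by
      rw [← lintegral_indicator hDm]
      refine lintegral_congr fun z => ?_
      by_cases h : z ∈ D
      · rw [indicator_of_mem h, indicator_of_mem]
        show t⁻¹ • t • z ∈ D
        rw [inv_smul_smul₀ ht0.ne']
        exact h
      · rw [indicator_of_notMem h, indicator_of_notMem]
        show ¬ t⁻¹ • t • z ∈ D
        rw [inv_smul_smul₀ ht0.ne']
        exact h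
    rw [lintegral_const_mul' _ _ ENNReal.ofReal_ne_top, e1, z1_scale n ht0 _ (hg.indicator hDt),
      ← mul_assoc, ← ENNReal.ofReal_mul (by positivity)]
    have e2 : t ^ (n + 1) * (t ^ n)⁻¹ = t := by
      rw [pow_succ]
      field_simp
    rw [e2, ← lintegral_const_mul' _ _ ENNReal.ofReal_ne_top]
    exact lintegral_mono fun ξ => z1_pt n g D hm hM hD hR ht ξ
  refine (setLIntegral_mono' measurableSet_Ioc h1).trans ?_
  have hset : MeasurableSet {p : ℝ × E n | p.1 ≤ ‖p.2‖ / m} :=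
    measurableSet_le measurable_fst (measurable_snd.norm.div_const m)
  have hm2 : Measurable (fun p : ℝ × E n => {p : ℝ × E n | p.1 ≤ ‖p.2‖ / m}.indicator
      (fun p : ℝ × E n => ENNReal.ofReal (‖p.2‖ / m) *
        (ENNReal.ofReal (Real.exp (2 * M) * Real.exp (-(‖p.2‖ / R))) * g p.2)) p) := by
    refine Measurable.indicator ?_ hset
    refine ((measurable_snd.norm.div_const m).ennreal_ofReal).mul (Measurable.mul ?_ (hg.comp measurable_snd))
    exact (measurable_const.mul (Real.measurable_exp.comp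
      ((measurable_snd.norm.div_const R).neg))).ennreal_ofReal
  rw [lintegral_lintegral_swap (f := fun t ξ => {p : ℝ × E n | p.1 ≤ ‖p.2‖ / m}.indicator
      (fun p : ℝ × E n => ENNReal.ofReal (‖p.2‖ / m) *
        (ENNReal.ofReal (Real.exp (2 * M) * Real.exp (-(‖p.2‖ / R))) * g p.2)) (t, ξ)) hm2.aemeasurable,
    ← lintegral_const_mul' _ _ ENNReal.ofReal_ne_top]
  refine lintegral_mono fun ξ => ?_
  beta_reduce
  have e3 : ∀ t : ℝ, {p : ℝ × E n | p.1 ≤ ‖p.2‖ / m}.indicator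
      (fun p : ℝ × E n => ENNReal.ofReal (‖p.2‖ / m) *
        (ENNReal.ofReal (Real.exp (2 * M) * Real.exp (-(‖p.2‖ / R))) * g p.2)) (t, ξ) =
      (Iic (‖ξ‖ / m)).indicator (fun _ => ENNReal.ofReal (‖ξ‖ / m) *
        (ENNReal.ofReal (Real.exp (2 * M) * Real.exp (-(‖ξ‖ / R))) * g ξ)) t := by
    intro t
    by_cases h : t ≤ ‖ξ‖ / m
    · rw [indicator_of_mem (show (t, ξ) ∈ {p : ℝ × E n | p.1 ≤ ‖p.2‖ / m} from h),
        indicator_of_mem (show t ∈ Iic (‖ξ‖ / m) from h)]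
    · rw [indicator_of_notMem (show (t, ξ) ∉ {p : ℝ × E n | p.1 ≤ ‖p.2‖ / m} from h),
        indicator_of_notMem (show t ∉ Iic (‖ξ‖ / m) from h)]
  rw [lintegral_congr e3, lintegral_indicator measurableSet_Iic, setLIntegral_const,
    Measure.restrict_apply measurableSet_Iic]
  have e4 : volume (Iic (‖ξ‖ / m) ∩ Ioc 0 (2 * R)) ≤ ENNReal.ofReal (‖ξ‖ / m) := by
    have : Iic (‖ξ‖ / m) ∩ Ioc 0 (2 * R) ⊆ Ioc 0 (‖ξ‖ / m) := fun t ht => ⟨ht.2.1, ht.1⟩
    refine (measure_mono this).trans ?_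
    rw [Real.volume_Ioc, sub_zero]
  refine (mul_le_mul' le_rfl e4).trans (le_of_eq ?_)
  have e5 : ENNReal.ofReal (Real.exp (2 * M) / m ^ 2) *
      (ENNReal.ofReal (Real.exp (-(‖ξ‖ / R)) * ‖ξ‖ ^ 2) * g ξ) =
      ENNReal.ofReal (‖ξ‖ / m * (Real.exp (2 * M) * Real.exp (-(‖ξ‖ / R))) * (‖ξ‖ / m)) * g ξ := by
    rw [← mul_assoc, ← ENNReal.ofReal_mul (by positivity)]
    congr 2
    field_simp
  have e6 : ENNReal.ofReal (‖ξ‖ / m * (Real.exp (2 * M) * Real.exp (-(‖ξ‖ / R))) * (‖ξ‖ / m)) =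
      ENNReal.ofReal (‖ξ‖ / m) * ENNReal.ofReal (Real.exp (2 * M) * Real.exp (-(‖ξ‖ / R))) *
        ENNReal.ofReal (‖ξ‖ / m) := by
    rw [ENNReal.ofReal_mul (by positivity), ENNReal.ofReal_mul (p := ‖ξ‖ / m) (by positivity)]
  rw [e5, e6]
  ring

theorem z1_ex {α : Type} [MeasurableSpace α] {μ : Measure α} {D : Set α} (hD : MeasurableSet D)
    {W : α → ENNReal} {c : ENNReal} (h : ∫⁻ z in D, W z ∂μ < c * μ D) : ∃ z ∈ D, W z ≤ c := by
  by_contra hcon
  push Not at hcon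
  have h1 : ∫⁻ _ in D, c ∂μ ≤ ∫⁻ z in D, W z ∂μ :=
    setLIntegral_mono' hD fun z hz => (hcon z hz).le
  rw [setLIntegral_const] at h1
  exact absurd h (not_lt.2 h1)

theorem z1_int {α : Type} [MeasurableSpace α] {μ : Measure α} {f : α → ℝ} (hf : 0 ≤ᵐ[μ] f) :
    ENNReal.ofReal (∫ x, f x ∂μ) ≤ ∫⁻ x, ENNReal.ofReal (f x) ∂μ := by
  by_cases hm : AEStronglyMeasurable f μ
  · rw [integral_eq_lintegral_of_nonneg_ae hf hm]
    exact ENNReal.ofReal_toReal_le
  · rw [integral_undef fun h => hm h.1, ENNReal.ofReal_zero]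
    exact zero_le

theorem z1_int2 {n : ℕ} {G : E n → ℝ} (hG : ∀ ξ, 0 ≤ G ξ) {R : ℝ} (hR : 0 < R) (z : E n) :
    0 ≤ (∫ t in (0 : ℝ)..(2 * R), t ^ (n + 1) * G (t • z)) ∧
    ENNReal.ofReal (∫ t in (0 : ℝ)..(2 * R), t ^ (n + 1) * G (t • z)) ≤
      ∫⁻ t in Ioc 0 (2 * R), ENNReal.ofReal (t ^ (n + 1)) * ENNReal.ofReal (G (t • z)) := by
  have hle : (0 : ℝ) ≤ 2 * R := by positivity
  rw [intervalIntegral.integral_of_le hle]
  have h0 : ∀ t ∈ Ioc (0 : ℝ) (2 * R), 0 ≤ t ^ (n + 1) * G (t • z) := fun t ht =>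
    mul_nonneg (pow_nonneg ht.1.le _) (hG _)
  constructor
  · exact setIntegral_nonneg measurableSet_Ioc h0
  · refine (z1_int ?_).trans ?_
    · exact (ae_restrict_iff' measurableSet_Ioc).2 (ae_of_all _ h0)
    · refine setLIntegral_mono' measurableSet_Ioc fun t ht => ?_
      rw [ENNReal.ofReal_mul (pow_nonneg ht.1.le _)]

theorem z1_trans (n : ℕ) (W : E n → ENNReal) (a c : E n) (r : ℝ) :
    ∫⁻ z in ball a r, W (z + c) = ∫⁻ z in ball (a + c) r, W z := by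
  have h0 := lintegral_add_right_eq_self (μ := (volume : Measure (E n)))
    ((ball (a + c) r).indicator W) c
  rw [← lintegral_indicator measurableSet_ball, ← lintegral_indicator measurableSet_ball, ← h0]
  refine lintegral_congr fun z => ?_
  by_cases h : z ∈ ball a r
  · rw [indicator_of_mem h, indicator_of_mem]
    rw [mem_ball] at h ⊢
    rwa [dist_add_right]
  · rw [indicator_of_notMem h, indicator_of_notMem]
    rw [mem_ball] at h ⊢
    rwa [dist_add_right]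

/-- uniform bounds -/
theorem z1_bd (n : ℕ) (a₀ b₀ : E n) (r : ℝ) (hr : 0 < r)
    (h : ∀ a ∈ closedBall a₀ r, ∀ b ∈ closedBall b₀ r, ∀ s ∈ Icc (-1 : ℝ) 1, a + s • b ≠ 0 ∧ b ≠ 0) :
    ∃ m M : ℝ, 0 < m ∧ 0 ≤ M ∧ (∀ a ∈ closedBall a₀ r, ∀ b ∈ closedBall b₀ r, ∀ s ∈ Icc (-1 : ℝ) 1,
      m ≤ ‖a + s • b‖ ∧ ‖a + s • b‖ ≤ M) ∧
      ∀ b ∈ closedBall b₀ r, m ≤ ‖(1 / 2 : ℝ) • b‖ ∧ ‖(1 / 2 : ℝ) • b‖ ≤ M := by
  have hc1 : IsCompact (closedBall a₀ r ×ˢ (closedBall b₀ r ×ˢ Icc (-1 : ℝ) 1)) :=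
    (isCompact_closedBall a₀ r).prod ((isCompact_closedBall b₀ r).prod isCompact_Icc)
  have hcf : Continuous (fun p : E n × (E n × ℝ) => ‖p.1 + p.2.2 • p.2.1‖) :=
    (continuous_fst.add (continuous_snd.snd.smul continuous_snd.fst)).norm
  have hcg : Continuous (fun b : E n => ‖(1 / 2 : ℝ) • b‖) :=
    (continuous_const_smul (1 / 2 : ℝ)).norm
  have h0r : (0 : ℝ) ∈ Icc (-1 : ℝ) 1 := by norm_num
  obtain ⟨m₁, hm₁, hm₁'⟩ := hc1.exists_forall_le' (a := (0 : ℝ)) hcf.continuousOn (by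
    rintro ⟨a, b, s⟩ hp
    obtain ⟨ha, hb, hs⟩ := hp
    exact norm_pos_iff.2 (h a ha b hb s hs).1)
  obtain ⟨m₂, hm₂, hm₂'⟩ := (isCompact_closedBall b₀ r).exists_forall_le' (a := (0 : ℝ))
    hcg.continuousOn (by
    intro b hb
    have h1 := (h a₀ (mem_closedBall_self hr.le) b hb 0 h0r).2
    exact norm_pos_iff.2 (smul_ne_zero (by norm_num) h1))
  have hnb : ∀ b ∈ closedBall b₀ r, ‖b‖ ≤ ‖b₀‖ + r := by
    intro b hb
    rw [mem_closedBall, dist_eq_norm] at hb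
    have := norm_add_le b₀ (b - b₀)
    rw [add_sub_cancel] at this
    linarith
  have hna : ∀ a ∈ closedBall a₀ r, ‖a‖ ≤ ‖a₀‖ + r := by
    intro b hb
    rw [mem_closedBall, dist_eq_norm] at hb
    have := norm_add_le a₀ (b - a₀)
    rw [add_sub_cancel] at this
    linarith
  refine ⟨min m₁ m₂, (‖a₀‖ + r) + (‖b₀‖ + r), lt_min hm₁ hm₂, by positivity, ?_, ?_⟩
  · intro a ha b hb s hs
    refine ⟨(min_le_left _ _).trans (hm₁' (a, b, s) (Set.mk_mem_prod ha (Set.mk_mem_prod hb hs))), ?_⟩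
    refine (norm_add_le _ _).trans (add_le_add (hna a ha) ?_)
    rw [norm_smul]
    have h1 : ‖s‖ ≤ 1 := by
      rw [Real.norm_eq_abs]
      exact abs_le.2 hs
    calc ‖s‖ * ‖b‖ ≤ 1 * ‖b‖ := mul_le_mul_of_nonneg_right h1 (norm_nonneg _)
      _ ≤ _ := by rw [one_mul]; exact hnb b hb
  · intro b hb
    refine ⟨(min_le_right _ _).trans (hm₂' b hb), ?_⟩
    rw [norm_smul]
    have h1 : ‖(1 / 2 : ℝ)‖ ≤ 1 := by
      rw [Real.norm_eq_abs]
      norm_num [abs_of_pos]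
    have h2 := norm_nonneg a₀
    calc ‖(1 / 2 : ℝ)‖ * ‖b‖ ≤ 1 * ‖b‖ := mul_le_mul_of_nonneg_right h1 (norm_nonneg _)
      _ ≤ _ := by
        rw [one_mul]
        have := hnb b hb
        linarith

theorem stZ1 : StmtZ1 := by
  intro n hn G C hG0 hGc hGb hGi hGt a₀ b₀ r hr hab ε hε
  obtain ⟨m, M, hm, hM, hbd1, hbd2⟩ := z1_bd n a₀ b₀ r hr hab
  obtain ⟨K, hK⟩ : ∃ K, K = Real.exp (2 * M) / m ^ 2 := ⟨_, rfl⟩
  have hK0 : 0 < K := by rw [hK]; positivity
  obtain ⟨Vb, hVb⟩ : ∃ V, V = (volume (ball ((1 / 2 : ℝ) • b₀) (r / 2))).toReal := ⟨_, rfl⟩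
  obtain ⟨Va, hVa⟩ : ∃ V, V = (volume (ball a₀ r)).toReal := ⟨_, rfl⟩
  have hVbt : volume (ball ((1 / 2 : ℝ) • b₀) (r / 2)) ≠ ⊤ := measure_ball_lt_top.ne
  have hVat : volume (ball a₀ r) ≠ ⊤ := measure_ball_lt_top.ne
  have hVb0 : 0 < Vb := by
    rw [hVb]
    exact ENNReal.toReal_pos (measure_ball_pos _ _ (by positivity)).ne' hVbt
  have hVa0 : 0 < Va := by
    rw [hVa]
    exact ENNReal.toReal_pos (measure_ball_pos _ _ hr).ne' hVat
  have hVbe : volume (ball ((1 / 2 : ℝ) • b₀) (r / 2)) = ENNReal.ofReal Vb := by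
    rw [hVb, ENNReal.ofReal_toReal hVbt]
  have hVae : volume (ball a₀ r) = ENNReal.ofReal Va := by
    rw [hVa, ENNReal.ofReal_toReal hVat]
  obtain ⟨e, he⟩ : ∃ e : ℝ → ℝ, e = fun T : ℝ => T⁻¹ * ∫ ξ : E n, Real.exp (-(‖ξ‖ / T)) * (‖ξ‖ ^ 2 * G ξ) :=
    ⟨_, rfl⟩
  have het : ∀ᶠ T in atTop, K * e T < ε * min Va Vb := by
    have h1 : Tendsto (fun T => K * e T) atTop (𝓝 (K * 0)) := by
      rw [he]
      exact hGt.const_mul K
    rw [mul_zero] at h1
    exact h1.eventually_lt_const (mul_pos hε (lt_min hVa0 hVb0))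
  obtain ⟨R₁, hR₁⟩ := eventually_atTop.1 het
  refine ⟨max R₁ 1, lt_max_of_lt_right one_pos, fun R hR => ?_⟩
  have hR0 : 0 < R := lt_of_lt_of_le one_pos ((le_max_right _ _).trans hR)
  have hRe := hR₁ R ((le_max_left _ _).trans hR)
  -- measurability
  have hGm : Measurable G := measurable_of_continuousOn_compl_singleton 0 hGc
  have hgm : Measurable (fun ξ => ENNReal.ofReal (G ξ)) := hGm.ennreal_ofReal
  obtain ⟨W, hW⟩ : ∃ W : E n → ENNReal, W = fun z => ∫⁻ t in Ioc 0 (2 * R),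
    ENNReal.ofReal (t ^ (n + 1)) * ENNReal.ofReal (G (t • z)) := ⟨_, rfl⟩
  have hm1 : Measurable (fun p : E n × ℝ => ENNReal.ofReal (p.2 ^ (n + 1)) *
      ENNReal.ofReal (G (p.2 • p.1))) :=
    ((measurable_snd.pow_const _).ennreal_ofReal).mul
      (hgm.comp (measurable_snd.smul measurable_fst))
  have hWm : Measurable W := by
    rw [hW]
    exact hm1.lintegral_prod_right'
  have hTot : ∫⁻ ξ, ENNReal.ofReal (Real.exp (-(‖ξ‖ / R)) * ‖ξ‖ ^ 2) * ENNReal.ofReal (G ξ) =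
      ENNReal.ofReal (R * e R) := by
    have h1 : R * e R = ∫ ξ : E n, Real.exp (-(‖ξ‖ / R)) * (‖ξ‖ ^ 2 * G ξ) := by
      rw [he]
      beta_reduce
      rw [← mul_assoc, mul_inv_cancel₀ hR0.ne', one_mul]
    rw [h1, ofReal_integral_eq_lintegral_ofReal (hGi R hR0)
      (ae_of_all _ fun ξ => mul_nonneg (Real.exp_pos _).le (mul_nonneg (by positivity) (hG0 ξ)))]
    refine lintegral_congr fun ξ => ?_
    rw [← ENNReal.ofReal_mul (by positivity), mul_assoc]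
  have hRe0 : 0 ≤ e R := by
    rw [he]
    exact mul_nonneg (inv_nonneg.2 hR0.le) (integral_nonneg fun ξ =>
      mul_nonneg (Real.exp_pos _).le (mul_nonneg (by positivity) (hG0 ξ)))
  have hkey : ∀ D : Set (E n), MeasurableSet D → (∀ z ∈ D, m ≤ ‖z‖ ∧ ‖z‖ ≤ M) →
      ∫⁻ z in D, W z ≤ ENNReal.ofReal (K * (R * e R)) := by
    intro D hD hD2
    have h1 := z1_key n _ hgm D hD hm hM hD2 hR0
    rw [hTot, ← hK, ← ENNReal.ofReal_mul hK0.le] at h1
    rw [hW]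
    exact h1
  -- the choice of `b`
  obtain ⟨z, hz, hzW⟩ : ∃ z ∈ ball ((1 / 2 : ℝ) • b₀) (r / 2), W z ≤ ENNReal.ofReal (ε * R) := by
    apply z1_ex measurableSet_ball
    refine (hkey _ measurableSet_ball ?_).trans_lt ?_
    · intro z hz
      have h2 : (2 : ℝ) • z ∈ closedBall b₀ r := by
        rw [mem_closedBall, dist_eq_norm]
        rw [mem_ball, dist_eq_norm] at hz
        have h3 : (2 : ℝ) • z - b₀ = (2 : ℝ) • (z - (1 / 2 : ℝ) • b₀) := by
          rw [smul_sub, smul_smul]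
          norm_num
        rw [h3, norm_smul, Real.norm_eq_abs, abs_of_pos (by norm_num : (0 : ℝ) < 2)]
        linarith
      have h4 := hbd2 _ h2
      rw [smul_smul] at h4
      norm_num at h4
      exact h4
    · rw [hVbe, ← ENNReal.ofReal_mul (by positivity)]
      apply (ENNReal.ofReal_lt_ofReal_iff (by positivity)).2
      have h5 : K * e R < ε * Vb := hRe.trans_le (mul_le_mul_of_nonneg_left (min_le_right _ _) hε.le)
      calc K * (R * e R) = R * (K * e R) := by ring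
        _ < R * (ε * Vb) := mul_lt_mul_of_pos_left h5 hR0
        _ = ε * R * Vb := by ring
  obtain ⟨b, hbz⟩ : ∃ b, b = (2 : ℝ) • z := ⟨_, rfl⟩
  have hb : b ∈ ball b₀ r := by
    rw [mem_ball, dist_eq_norm, hbz]
    rw [mem_ball, dist_eq_norm] at hz
    have h3 : (2 : ℝ) • z - b₀ = (2 : ℝ) • (z - (1 / 2 : ℝ) • b₀) := by
      rw [smul_sub, smul_smul]
      norm_num
    rw [h3, norm_smul, Real.norm_eq_abs, abs_of_pos (by norm_num : (0 : ℝ) < 2)]
    linarith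
  have hzb : z = (1 / 2 : ℝ) • b := by
    rw [hbz, smul_smul]
    norm_num
  -- the choice of `a`
  have hm2 : Measurable (fun p : E n × ℝ => W (p.1 + Real.cos p.2 • b)) :=
    hWm.comp (measurable_fst.add ((Real.measurable_cos.comp measurable_snd).smul_const b))
  obtain ⟨a, ha, haW⟩ : ∃ a ∈ ball a₀ r, ∫⁻ θ in Ioc 0 (2 * Real.pi), W (a + Real.cos θ • b) ≤
      ENNReal.ofReal (2 * Real.pi * (ε * R)) := by
    apply z1_ex (μ := volume) measurableSet_ball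
    rw [lintegral_lintegral_swap (μ := volume.restrict (ball a₀ r))
      (ν := volume.restrict (Ioc 0 (2 * Real.pi))) (f := fun a θ => W (a + Real.cos θ • b))
      hm2.aemeasurable]
    have h6 : ∀ θ : ℝ, ∫⁻ a in ball a₀ r, W (a + Real.cos θ • b) ≤ ENNReal.ofReal (K * (R * e R)) := by
      intro θ
      rw [z1_trans]
      apply hkey _ measurableSet_ball
      intro z hz
      have h7 : z - Real.cos θ • b ∈ closedBall a₀ r := by
        rw [mem_closedBall, dist_eq_norm]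
        rw [mem_ball, dist_eq_norm] at hz
        have h8 : z - Real.cos θ • b - a₀ = z - (a₀ + Real.cos θ • b) := by abel
        rw [h8]
        exact hz.le
      have h9 := hbd1 _ h7 b (ball_subset_closedBall hb) (Real.cos θ)
        ⟨Real.neg_one_le_cos θ, Real.cos_le_one θ⟩
      rw [sub_add_cancel] at h9
      exact h9
    refine (lintegral_mono h6).trans_lt ?_
    rw [setLIntegral_const, Real.volume_Ioc, sub_zero, hVae, ← ENNReal.ofReal_mul (by positivity),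
      ← ENNReal.ofReal_mul (by positivity)]
    have hpi := Real.pi_pos
    apply (ENNReal.ofReal_lt_ofReal_iff (by positivity)).2
    have h5 : K * e R < ε * Va := hRe.trans_le (mul_le_mul_of_nonneg_left (min_le_left _ _) hε.le)
    calc K * (R * e R) * (2 * Real.pi) = (2 * Real.pi * R) * (K * e R) := by ring
      _ < (2 * Real.pi * R) * (ε * Va) := mul_lt_mul_of_pos_left h5 (by positivity)
      _ = 2 * Real.pi * (ε * R) * Va := by ring
  refine ⟨a, ha, b, hb, ?_, ?_⟩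
  · have h1 := (z1_int2 hG0 hR0 ((1 / 2 : ℝ) • b)).2
    rw [← hzb] at h1 ⊢
    have h2 : ENNReal.ofReal (∫ t in (0 : ℝ)..(2 * R), t ^ (n + 1) * G (t • z)) ≤
        ENNReal.ofReal (ε * R) := by
      refine h1.trans ?_
      rw [hW] at hzW
      exact hzW
    exact (ENNReal.ofReal_le_ofReal_iff (by positivity)).1 h2
  · rw [Real.circleAverage_def]
    have hpi := Real.pi_pos
    have hpi2 : (0 : ℝ) ≤ 2 * Real.pi := by positivity
    have hcos : ∀ θ : ℝ, (circleMap 0 1 θ).re = Real.cos θ := by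
      intro θ
      rw [circleMap_zero, Complex.ofReal_one, one_mul, Complex.exp_ofReal_mul_I_re]
    simp only [hcos]
    rw [intervalIntegral.integral_of_le hpi2, smul_eq_mul]
    have h3 : ENNReal.ofReal (∫ θ in Ioc 0 (2 * Real.pi),
        (∫ t in (0 : ℝ)..(2 * R), t ^ (n + 1) * G (t • (a + Real.cos θ • b)))) ≤
        ENNReal.ofReal (2 * Real.pi * (ε * R)) := by
      refine (z1_int (ae_of_all _ fun θ => (z1_int2 hG0 hR0 _).1)).trans ?_
      refine le_trans (lintegral_mono fun θ => (z1_int2 hG0 hR0 _).2) ?_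
      rw [hW] at haW
      exact haW
    have h4 := (ENNReal.ofReal_le_ofReal_iff (by positivity)).1 h3
    rw [inv_mul_le_iff₀ (by positivity)]
    exact h4

end Pool.Agent.Helper890.Cov.JZ1
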