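import Mathlib
import Pool.Agent.Helper890.Cov.StA
import Pool.Agent.Helper890.Cov.StB
import Pool.Agent.Helper890.Cov.StG
import Pool.Agent.Helper890.Cov.StF




namespace Pool.Agent.Helper890.Cov.JZ2
open MeasureTheory Set Filter Topology Metric
open scoped RealInnerProductSpace

theorem stZ2 : StmtZ2 := by
  intro n _ G C hG0 hG hGC a b R hR hab
  -- lower bound
  obtain ⟨m, hm, hmz⟩ : ∃ m : ℝ, 0 < m ∧ ∀ s ∈ Icc (-1 : ℝ) 1, m ≤ ‖a + s • b‖ := by
    have hc : ContinuousOn (fun s : ℝ => ‖a + s • b‖) (Icc (-1 : ℝ) 1) := by fun_prop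
    obtain ⟨s₀, hs₀, hmin⟩ := isCompact_Icc.exists_isMinOn (Set.nonempty_Icc.2 (by norm_num)) hc
    exact ⟨‖a + s₀ • b‖, norm_pos_iff.2 (hab s₀ hs₀), fun s hs => hmin hs⟩
  have hre : ∀ v ∈ sphere (0 : ℂ) 1, v.re ∈ Icc (-1 : ℝ) 1 := by
    intro v hv
    rw [mem_sphere_zero_iff_norm] at hv
    have h1 := Complex.abs_re_le_norm v
    rw [hv] at h1
    exact abs_le.1 h1
  have hne : ∀ v ∈ sphere (0 : ℂ) 1, ∀ t : ℝ, 0 < t → t • (a + v.re • b) ≠ 0 := fun v hv t ht =>
    smul_ne_zero ht.ne' (hab _ (hre v hv))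
  intro v₀ hv₀
  refine intervalIntegral.continuousWithinAt_of_dominated_interval
    (bound := fun _ => |C| * ((m ^ (n + 1))⁻¹ + (2 * R) ^ (n + 1))) ?_ ?_ ?_ ?_
  · filter_upwards [self_mem_nhdsWithin] with v hv
    rw [Set.uIoc_of_le (by linarith)]
    refine ContinuousOn.aestronglyMeasurable ?_ measurableSet_Ioc
    refine ContinuousOn.mul (by fun_prop) ?_
    refine hG.comp (by fun_prop) fun t ht => ?_
    exact hne v hv t ht.1
  · filter_upwards [self_mem_nhdsWithin] with v hv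
    refine Filter.Eventually.of_forall fun t ht => ?_
    rw [Set.uIoc_of_le (by linarith)] at ht
    have ht0 : 0 < t := ht.1
    set z := a + v.re • b with hz
    have hzm : m ≤ ‖z‖ := hmz _ (hre v hv)
    have hz0 : 0 < ‖z‖ := hm.trans_le hzm
    have h1 := hGC (t • z) (hne v hv t ht0)
    rw [norm_smul, Real.norm_eq_abs, abs_of_pos ht0, mul_pow] at h1
    have hGz := hG0 (t • z)
    have htp : 0 < t ^ (n + 1) := by positivity
    have hzp : 0 < ‖z‖ ^ (n + 1) := by positivity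
    rw [Real.norm_eq_abs, abs_of_nonneg (mul_nonneg htp.le hGz)]
    have h2 : t ^ (n + 1) * G (t • z) ≤ |C| * ((‖z‖ ^ (n + 1))⁻¹ + t ^ (n + 1)) := by
      have h3 : ‖z‖ ^ (n + 1) * (t ^ (n + 1) * G (t • z)) ≤
          ‖z‖ ^ (n + 1) * (|C| * ((‖z‖ ^ (n + 1))⁻¹ + t ^ (n + 1))) := by
        have h4 : C * (1 + t ^ (n + 1) * ‖z‖ ^ (n + 1)) ≤ |C| * (1 + t ^ (n + 1) * ‖z‖ ^ (n + 1)) :=
          mul_le_mul_of_nonneg_right (le_abs_self C) (by positivity)
        have h5 : ‖z‖ ^ (n + 1) * (|C| * ((‖z‖ ^ (n + 1))⁻¹ + t ^ (n + 1)))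
            = |C| * (1 + t ^ (n + 1) * ‖z‖ ^ (n + 1)) := by
          field_simp
        rw [h5]
        calc ‖z‖ ^ (n + 1) * (t ^ (n + 1) * G (t • z)) = t ^ (n + 1) * ‖z‖ ^ (n + 1) * G (t • z) := by ring
          _ ≤ _ := h1.trans h4
      exact le_of_mul_le_mul_left h3 hzp
    refine h2.trans (mul_le_mul_of_nonneg_left (add_le_add ?_ ?_) (abs_nonneg C))
    · exact inv_anti₀ (by positivity) (pow_le_pow_left₀ hm.le hzm _)
    · exact pow_le_pow_left₀ ht0.le ht.2 _
  · exact intervalIntegrable_const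
  · refine Filter.Eventually.of_forall fun t ht => ?_
    rw [Set.uIoc_of_le (by linarith)] at ht
    have h1 : ContinuousAt G (t • (a + v₀.re • b)) :=
      hG.continuousAt (isOpen_compl_singleton.mem_nhds (hne v₀ hv₀ t ht.1))
    have h2 : ContinuousAt (fun v : ℂ => t • (a + v.re • b)) v₀ := by
      have : Continuous (fun v : ℂ => t • (a + v.re • b)) := by
        have := Complex.continuous_re
        fun_prop
      exact this.continuousAt
    have h3 : ContinuousAt (fun v : ℂ => G (t • (a + v.re • b))) v₀ :=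
      ContinuousAt.comp (f := fun v : ℂ => t • (a + v.re • b)) h1 h2
    exact (continuousAt_const.mul h3).continuousWithinAt

end Pool.Agent.Helper890.Cov.JZ2
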