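import Pool.Agent.Helper890.Cov.JA
import Pool.Agent.Helper890.Cov.JA1
import Pool.Agent.Helper890.Cov.JA2
import Pool.Agent.Helper890.Cov.JA3
import Pool.Agent.Helper890.Cov.JA4
import Pool.Agent.Helper890.Cov.JA5
import Pool.Agent.Helper890.Cov.JA6
import Pool.Agent.Helper890.Cov.JA7
import Pool.Agent.Helper890.Cov.JA7a
import Pool.Agent.Helper890.Cov.JA8
import Pool.Agent.Helper890.Cov.JB1
import Pool.Agent.Helper890.Cov.JB2
import Pool.Agent.Helper890.Cov.JB3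
import Pool.Agent.Helper890.Cov.JB4
import Pool.Agent.Helper890.Cov.JC1a
import Pool.Agent.Helper890.Cov.JC1b
import Pool.Agent.Helper890.Cov.JC2
import Pool.Agent.Helper890.Cov.JC3
import Pool.Agent.Helper890.Cov.JS3a
import Pool.Agent.Helper890.Cov.JS3b
import Pool.Agent.Helper890.Cov.JG0
import Pool.Agent.Helper890.Cov.JG1
import Pool.Agent.Helper890.Cov.JG3
import Pool.Agent.Helper890.Cov.JG4
import Pool.Agent.Helper890.Cov.JG5
import Pool.Agent.Helper890.Cov.JG5a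
import Pool.Agent.Helper890.Cov.JP
import Pool.Agent.Helper890.Cov.JG6
import Pool.Agent.Helper890.Cov.JG7
import Pool.Agent.Helper890.Cov.JG8a
import Pool.Agent.Helper890.Cov.JG8
import Pool.Agent.Helper890.Cov.JG9
import Pool.Agent.Helper890.Cov.JG10
import Pool.Agent.Helper890.Cov.JG11
import Pool.Agent.Helper890.Cov.JF0
import Pool.Agent.Helper890.Cov.JF1
import Pool.Agent.Helper890.Cov.JF2
import Pool.Agent.Helper890.Cov.JF3
import Pool.Agent.Helper890.Cov.JL1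
import Pool.Agent.Helper890.Cov.JL2
import Pool.Agent.Helper890.Cov.JZ0
import Pool.Agent.Helper890.Cov.JZ1
import Pool.Agent.Helper890.Cov.JZ2
import Pool.Agent.Helper890.Cov.JZ
import Pool.Agent.Helper890.Cov.JM2
import Pool.Agent.Helper890.Cov.JM1
import Pool.Agent.Helper890.Cov.JM
import Pool.Agent.Helper890.Cov.JT
import Pool.Agent.Helper890.Cov.JS
import Pool.Agent.Helper890.Cov.JS0
import Pool.Agent.Helper890.Cov.JFin
import Pool.Agent.Helper890.Cov.JBall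

namespace Pool.Agent.Helper890.Cov

theorem a4 : StmtA4 := JA4.stA4 JA2.stA2 JA3.stA3
theorem a5 : StmtA5 := JA5.stA5 a4
theorem a6 : StmtA6 := JA6.stA6 JA1.stA1 JA2.stA2 JA3.stA3
theorem a7a : StmtA7a := JA7a.stA7a a5 a6
theorem a7 : StmtA7 := JA7.stA7 JA2.stA2 a7a
theorem aA : StmtA := JA.stA a7 JA8.stA8
theorem b2 : StmtB2 := JB2.stB2 JB1.stB1
theorem c1a : StmtC1a := JC1a.stC1a b2 JB3.stB3 JB4.stB4
theorem c1b : StmtC1b := JC1b.stC1b b2 JB3.stB3 JB4.stB4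
theorem s3a : Stmt3a := JS3a.st3a c1a JC2.stC2
theorem s3b : Stmt3b := JS3b.st3b c1b JC2.stC2 JC3.stC3
theorem g4 : StmtG4 := JG4.stG4 JG1.stG1 JG3.stG3
theorem g5 : StmtG5 := JG5.stG5 JG1.stG1 JG3.stG3 JG5a.stG5a
theorem g6 : StmtG6 := JG6.stG6 JG1.stG1 JG3.stG3
theorem g7 : StmtG7 := JG7.stG7 JG1.stG1 JG3.stG3 g6 JP.stP
theorem g8a : StmtG8a := JG8a.stG8a JG1.stG1 JG3.stG3 JP.stP
theorem g8 : StmtG8 := JG8.stG8 JG3.stG3 g7 g8a
theorem g9 : StmtG9 := JG9.stG9 g8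
theorem g10 : StmtG10 := JG10.stG10 JG3.stG3 g4 g5
theorem g11 : StmtG11 := JG11.stG11 JG3.stG3 JP.stP g9 g10
theorem f3 : StmtF3 := JF3.stF3 JF0.stF0 JF1.stF1 JG3.stG3 JP.stP g11
theorem z : StmtZ := JZ.stZ aA s3a s3b JC3.stC3 JG3.stG3 g11 JF0.stF0 JF1.stF1 f3 JF2.stF2
  (JL1.stL1 JG3.stG3) JL2.stL2 (JZ0.stZ0 JG3.stG3) JZ1.stZ1 JZ2.stZ2
theorem m1 : StmtM1 := JM1.stM1 JG1.stG1 JG3.stG3 g6 g7 JP.stP
theorem m : StmtM := JM.stM JG3.stG3 m1 JM2.stM2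
theorem t : StmtT := JT.stT JG3.stG3 f3 z m
theorem fin : StmtFin := JFin.stFin JS0.stS0 JS.stS JG0.stG0 t

end Pool.Agent.Helper890.Cov
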