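import Mathlib
import Pool.Agent.Helper890.Cov.StA




namespace Pool.Agent.Helper890.Cov.JA
open MeasureTheory Set Filter Topology Metric
open scoped RealInnerProductSpace

theorem stA_fin (φ : ℂ → ℂ) (hφ : Differentiable ℂ φ) (h0 : φ 0 ≠ 0) (R : ℝ) :
    {t : ℂ | ‖t‖ < R ∧ φ t = 0}.Finite := by
  by_contra hcon
  have hinf : {t : ℂ | ‖t‖ < R ∧ φ t = 0}.Infinite := hcon
  obtain ⟨x, _, hx⟩ := hinf.exists_accPt_of_subset_isCompact (isCompact_closedBall (0 : ℂ) R) (by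
    intro t ht
    rw [mem_closedBall_zero_iff]
    exact ht.1.le)
  rw [accPt_iff_frequently_nhdsNE] at hx
  have hfr : ∃ᶠ z in 𝓝[≠] x, φ z = 0 := hx.mono (fun y hy => hy.2)
  have han : AnalyticOnNhd ℂ φ Set.univ := fun z _ => hφ.analyticAt z
  have h1 := han.eqOn_zero_of_preconnected_of_frequently_eq_zero isPreconnected_univ (Set.mem_univ x) hfr
  exact h0 (h1 (Set.mem_univ 0))

theorem stA_finPP (f g : ℂ × ℂ → ℂ) (hf : Differentiable ℂ f) (hf0 : ∀ v, f (v, 0) ≠ 0) (R : ℝ) (v : ℂ) :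
    {t : ℂ | ‖t‖ < R ∧ PP f g (v, t)}.Finite := by
  have hφ : Differentiable ℂ (fun t => f (v, t)) :=
    hf.comp ((differentiable_const v).prodMk differentiable_id)
  refine (stA_fin (fun t => f (v, t)) hφ (hf0 v) R).subset ?_
  intro t ht
  exact ⟨ht.1, ht.2.1⟩

theorem stA (h7 : StmtA7) (h8 : StmtA8) : StmtA := by
  intro f g R B hf hg hR hf0 hB hS S hS0
  have hAf : ∀ v, Afun f g R v = ∑ t ∈ (stA_finPP f g hf hf0 R v).toFinset, Real.log (R / ‖t‖) := by
    intro v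
    unfold Afun
    exact finsum_mem_eq_finite_toFinset_sum _ (stA_finPP f g hf hf0 R v)
  have hle : ∀ v ∈ sphere (0 : ℂ) 1, Afun f g R v ≤ B v := by
    intro v hv
    rw [hAf]
    apply hS v hv
    intro t ht
    rw [Set.Finite.mem_toFinset] at ht
    exact ⟨ht.1, ht.2.1, ht.2.2.self_of_nhds ht.2.1⟩
  have h1 := h8 (Afun f g R) B (h7 f g R hf hg hR hf0) hB hle
  refine le_trans ?_ h1
  rw [hAf]
  apply Finset.sum_le_sum_of_subset_of_nonneg
  · intro t ht
    rw [Set.Finite.mem_toFinset]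
    obtain ⟨h2, h3, h4⟩ := hS0 t ht
    exact ⟨h2, h3, h4⟩
  · intro t ht _
    rw [Set.Finite.mem_toFinset] at ht
    have ht0 : t ≠ 0 := by
      intro h
      apply hf0 0
      rw [← h]
      have h5 := ht.2.1
      rw [h] at h5 ⊢
      exact h5
    have htp : 0 < ‖t‖ := norm_pos_iff.mpr ht0
    apply Real.log_nonneg
    rw [le_div_iff₀ htp, one_mul]
    exact ht.1.le

end Pool.Agent.Helper890.Cov.JA
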