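import Mathlib
import Pool.Agent.Helper890.Cov.StB




namespace Pool.Agent.Helper890.Cov.JB3
open MeasureTheory Set Filter Topology Metric
open scoped RealInnerProductSpace

theorem stB3 : StmtB3 := by
  intro φ p P r₀ hp hr hr1 hr2
  -- compact annulus
  have hK : ∃ μ : ℝ, 0 < μ ∧ ∀ z : ℂ, 2 * p * r₀ ≤ ‖z‖ → ‖z‖ ≤ 2 → μ ≤ ‖1 - Complex.exp z‖ := by
    set K : Set ℂ := {z | 2 * p * r₀ ≤ ‖z‖} ∩ Metric.closedBall 0 2 with hKdef
    have hKc : IsCompact K := by
      refine (isCompact_closedBall (0:ℂ) 2).inter_left ?_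
      exact isClosed_le continuous_const continuous_norm
    by_cases hne : K.Nonempty
    · obtain ⟨z0, hz0, hmin⟩ := hKc.exists_isMinOn hne
        (f := fun z : ℂ => ‖1 - Complex.exp z‖) (by fun_prop)
      refine ⟨‖1 - Complex.exp z0‖, ?_, fun z h1 h2 => hmin ⟨h1, by simpa using h2⟩⟩
      rw [norm_pos_iff]
      intro h0
      have h1 : Complex.exp z0 = 1 := (sub_eq_zero.1 h0).symm
      rw [Complex.exp_eq_one_iff] at h1
      obtain ⟨n, hn⟩ := h1
      have h2 : ‖z0‖ ≤ 2 := by simpa using hz0.2
      have h3 : 2 * p * r₀ ≤ ‖z0‖ := hz0.1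
      have h4 : ‖z0‖ = |(n:ℝ)| * (2 * Real.pi) := by
        rw [hn]
        simp [abs_of_pos Real.pi_pos]
      have hn0 : n ≠ 0 := by
        rintro rfl
        rw [h4] at h3
        have : 0 < 2 * p * r₀ := by positivity
        simp at h3
        linarith
      have h5 : (1:ℝ) ≤ |(n:ℝ)| := by
        have := Int.one_le_abs hn0
        exact_mod_cast this
      have := Real.pi_gt_three
      nlinarith
    · refine ⟨1, one_pos, fun z h1 h2 => ?_⟩
      exact absurd ⟨z, h1, by simpa using h2⟩ hne
  obtain ⟨μ, hμ, hK⟩ := hK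
  set B : ℝ := (Real.log (P / p) / (2 * p) + r₀) * P with hB
  refine ⟨Real.exp (-B) * p * μ, by positivity, ?_⟩
  intro h h' a b w m hh1 hh2 hh3 hh4 ha1 ha2 hb1 hb2 hw
  have hP : 0 < P := by linarith
  have ha : 0 < a := by linarith
  have hb : 0 < b := by linarith
  have hw0 : 0 < w := by linarith
  have hwC : (w : ℂ) ≠ 0 := by exact_mod_cast hw0.ne'
  set z0 : ℂ := tz w φ a b m with hz0
  have hz1 : z0 * (w : ℂ) = (((2 * (m : ℝ) + 1) * Real.pi - 2 * φ : ℝ) : ℂ) +
      Complex.I * ((Real.log (a / b) : ℝ) : ℂ) := by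
    rw [hz0, tz, div_mul_cancel₀ _ hwC]
  have hexp : Complex.exp (Complex.I * (z0 * (w : ℂ) + 2 * (φ : ℂ))) = -((b / a : ℝ) : ℂ) := by
    have h1 : Complex.I * (z0 * (w : ℂ) + 2 * (φ : ℂ)) =
        ((-Real.log (a / b) : ℝ) : ℂ) + (Real.pi * Complex.I + (m:ℕ) * (2 * Real.pi * Complex.I)) := by
      rw [hz1]
      push_cast
      linear_combination (-(Complex.I ^ 2 * 0) + ((Real.log (a/b) : ℝ) : ℂ) * 1) * Complex.I_sq
    rw [h1, Complex.exp_add, Complex.exp_add, Complex.exp_nat_mul_two_pi_mul_I, Complex.exp_pi_mul_I,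
      ← Complex.ofReal_exp, Real.exp_neg, Real.exp_log (by positivity)]
    push_cast
    rw [inv_div]
    ring
  have hfac : ∀ s : ℂ, Mn h h' a b φ (z0 + s) =
      Complex.exp (-(Complex.I * ((z0 + s) * (h' : ℂ) + (φ : ℂ)))) *
        ((b:ℂ) * (1 - Complex.exp (Complex.I * s * (w:ℂ)))) := by
    intro s
    have haC : (a:ℂ) ≠ 0 := by exact_mod_cast ha.ne'
    have h1 : Complex.exp (Complex.I * ((z0 + s) * (h : ℂ) + (φ : ℂ))) =
        Complex.exp (-(Complex.I * ((z0 + s) * (h' : ℂ) + (φ : ℂ)))) *
        (Complex.exp (Complex.I * (z0 * (w : ℂ) + 2 * (φ : ℂ))) *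
          Complex.exp (Complex.I * s * (w:ℂ))) := by
      rw [← Complex.exp_add, ← Complex.exp_add]
      congr 1
      rw [hw]
      push_cast
      ring
    unfold Mn
    rw [h1, hexp]
    push_cast
    field_simp
    ring
  constructor
  · have := hfac 0
    rw [add_zero] at this
    rw [this]
    simp
  · intro t ht
    have ht2 : t = z0 + (t - z0) := by ring
    rw [ht2, hfac (t - z0), norm_mul, norm_mul, Complex.norm_exp, ← ht2]
    have hs : ‖Complex.I * (t - z0) * (w:ℂ)‖ = r₀ * w := by
      rw [norm_mul, norm_mul, Complex.norm_I, one_mul, ht, Complex.norm_real, Real.norm_eq_abs,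
        abs_of_pos hw0]
    have hmu : μ ≤ ‖1 - Complex.exp (Complex.I * (t - z0) * (w:ℂ))‖ := by
      apply hK
      · rw [hs]
        nlinarith
      · rw [hs]
        have : r₀ * P ≤ 1 := by
          rwa [le_div_iff₀ hP] at hr2
        nlinarith
    have hre : (-(Complex.I * (t * (h' : ℂ) + (φ : ℂ)))).re = t.im * h' := by
      simp
    have him : |t.im| ≤ Real.log (P / p) / (2 * p) + r₀ := by
      have h1 : |z0.im| ≤ Real.log (P / p) / (2 * p) := by
        have h2 : z0.im * w = Real.log (a / b) := by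
          have := congrArg Complex.im hz1
          simpa using this
        have h3 : z0.im = Real.log (a / b) / w := by
          rw [← h2]
          field_simp
        rw [h3, abs_div, abs_of_pos hw0]
        have h4 : |Real.log (a / b)| ≤ Real.log (P / p) := by
          rw [abs_le]
          constructor
          · rw [← Real.log_inv, inv_div]
            apply Real.log_le_log (by positivity)
            rw [div_le_div_iff₀ hP hb]
            nlinarith
          · apply Real.log_le_log (by positivity)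
            rw [div_le_div_iff₀ hb hp]
            nlinarith
        have h5 : 0 ≤ Real.log (P / p) := le_trans (abs_nonneg _) h4
        exact div_le_div₀ h5 h4 (by positivity) (by linarith)
      have h2 : |(t - z0).im| ≤ r₀ := by
        rw [← ht]
        exact Complex.abs_im_le_norm _
      have h3 : t.im = z0.im + (t - z0).im := by simp
      rw [h3]
      exact le_trans (abs_add_le _ _) (add_le_add h1 h2)
    have hBle : -B ≤ t.im * h' := by
      have h1 : |t.im * h'| ≤ B := by
        rw [abs_mul, abs_of_pos (by linarith : (0:ℝ) < h'), hB]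
        exact mul_le_mul him hh4 (by linarith) (le_trans (abs_nonneg _) him)
      linarith [(abs_le.1 h1).1]
    have hE : Real.exp (-B) ≤ Real.exp ((-(Complex.I * (t * (h' : ℂ) + (φ : ℂ)))).re) := by
      rw [hre]
      exact Real.exp_le_exp.2 hBle
    have hbn : p ≤ ‖(b:ℂ)‖ := by
      rw [Complex.norm_real, Real.norm_eq_abs, abs_of_pos hb]
      exact hb1
    calc Real.exp (-B) * p * μ = Real.exp (-B) * (p * μ) := by ring
      _ ≤ _ := by
        apply mul_le_mul hE (mul_le_mul hbn hmu hμ.le (norm_nonneg _)) (by positivity)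
          (Real.exp_pos _).le
end Pool.Agent.Helper890.Cov.JB3
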