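import Mathlib
import Pool.Agent.Helper890.Cov.StA
import Pool.Agent.Helper890.Cov.StB
import Pool.Agent.Helper890.Cov.StG
import Pool.Agent.Helper890.Cov.StF
import Pool.Agent.Helper890.Cov.StS
import Pool.Agent.Helper890.Cov.StE




namespace Pool.Agent.Helper890.Cov.JBall
open MeasureTheory Set Filter Topology Metric
open scoped RealInnerProductSpace

theorem stBall_f1 {n : ℕ} : fderiv ℝ (fun x : E n => ‖x‖ ^ 2 - 1)
    = ((2 : ℝ) • (innerSL ℝ : E n →L[ℝ] E n →L[ℝ] ℝ) : E n →L[ℝ] E n →L[ℝ] ℝ) := by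
  funext x
  have h : HasFDerivAt (fun x : E n => ‖x‖ ^ 2 - 1) (2 • innerSL ℝ x) x :=
    (hasStrictFDerivAt_norm_sq x).hasFDerivAt.sub_const 1
  rw [h.fderiv]
  ext v
  simp

theorem stBall_f2 {n : ℕ} (p w w' : E n) :
    fderiv ℝ (fderiv ℝ (fun x : E n => ‖x‖ ^ 2 - 1)) p w w' = 2 * ⟪w, w'⟫ := by
  rw [stBall_f1, ContinuousLinearMap.fderiv]
  rfl

theorem stBall : StmtBall := by
  intro n hn p hp
  have : Nonempty (Fin n) := ⟨⟨0, hn⟩⟩
  have hp1 : ‖p‖ = 1 := by
    rw [frontier_closedBall (0 : E n) one_ne_zero, mem_sphere_zero_iff_norm] at hp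
    exact hp
  have hp0 : p ≠ 0 := by
    intro h
    rw [h, norm_zero] at hp1
    exact zero_ne_one hp1
  refine ⟨fun x => ‖x‖ ^ 2 - 1, ?_, ?_, ?_, ?_⟩
  · exact ((contDiff_norm_sq ℝ).sub contDiff_const).contDiffAt
  · intro h
    have h1 : fderiv ℝ (fun x : E n => ‖x‖ ^ 2 - 1) p p = 0 := by rw [h]; rfl
    rw [stBall_f1] at h1
    simp [hp1] at h1
  · refine Filter.Eventually.of_forall fun x => ?_
    rw [mem_closedBall_zero_iff]
    constructor
    · intro h
      have := norm_nonneg x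
      nlinarith
    · intro h
      have h2 : ‖x‖ ^ 2 - 1 ≤ 0 := h
      nlinarith [norm_nonneg x]
  · intro w hw hw0
    refine ⟨w, hw0, ?_⟩
    rw [stBall_f2, real_inner_self_eq_norm_sq]
    have := norm_pos_iff.mpr hw
    positivity

end Pool.Agent.Helper890.Cov.JBall
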