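import Mathlib
import Pool.Agent.Helper890.Cov.StG




namespace Pool.Agent.Helper890.Cov.JG5a
open MeasureTheory Set Filter Topology Metric
open scoped RealInnerProductSpace

theorem g5a_int (m : ℕ) : ∫ s in (0:ℝ)..1, √(2 * s) ^ m = (2:ℝ) ^ ((m:ℝ) / 2) / ((m:ℝ) / 2 + 1) := by
  have h1 : ∫ s in (0:ℝ)..1, √(2 * s) ^ m = ∫ s in (0:ℝ)..1, (2:ℝ) ^ ((m:ℝ) / 2) * s ^ ((m:ℝ) / 2) := by
    apply intervalIntegral.integral_congr
    intro s hs
    rw [uIcc_of_le zero_le_one] at hs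
    have hs0 : 0 ≤ s := hs.1
    show √(2 * s) ^ m = (2:ℝ) ^ ((m:ℝ) / 2) * s ^ ((m:ℝ) / 2)
    rw [← Real.mul_rpow (by norm_num) hs0, Real.sqrt_eq_rpow, ← Real.rpow_natCast,
      ← Real.rpow_mul (by positivity)]
    congr 1
    ring
  have hm : (0:ℝ) ≤ (m:ℝ) / 2 := by positivity
  rw [h1, intervalIntegral.integral_const_mul, integral_rpow (Or.inl (by linarith)), Real.one_rpow,
    Real.zero_rpow (by positivity)]
  ring

theorem g5a_slice (m : ℕ) (hm : 0 < m) (s : ℝ) :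
    (volume : Measure (Fin m → ℝ)) {y | (∑ i, y i ^ 2) / 2 ≤ s ∧ s ≤ 1} =
      (Icc (0:ℝ) 1).indicator (fun s => ENNReal.ofReal (√(2 * s) ^ m *
        (√Real.pi ^ m / Real.Gamma ((m:ℝ) / 2 + 1)))) s := by
  by_cases hs : s ∈ Icc (0:ℝ) 1
  · rw [indicator_of_mem hs]
    have : Nonempty (Fin m) := ⟨⟨0, hm⟩⟩
    have hset : {y : Fin m → ℝ | (∑ i, y i ^ 2) / 2 ≤ s ∧ s ≤ 1} =
        (WithLp.toLp 2 : (Fin m → ℝ) → E m) ⁻¹' closedBall (0 : E m) (√(2 * s)) := by
      ext y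
      simp only [Set.mem_ofPred_eq, mem_preimage, mem_closedBall, dist_zero_right]
      have hn : ‖(WithLp.toLp 2 y : E m)‖ ^ 2 = ∑ i, y i ^ 2 := by
        rw [EuclideanSpace.norm_sq_eq]
        simp
      rw [Real.le_sqrt (norm_nonneg _) (by have := hs.1; positivity), hn]
      constructor
      · rintro ⟨h1, _⟩; linarith
      · intro h1; exact ⟨by linarith, hs.2⟩
    rw [hset, (PiLp.volume_preserving_toLp (Fin m)).measure_preimage
      measurableSet_closedBall.nullMeasurableSet, EuclideanSpace.volume_closedBall, Fintype.card_fin,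
      ← ENNReal.ofReal_pow (Real.sqrt_nonneg _), ← ENNReal.ofReal_mul (by positivity)]
  · rw [indicator_of_notMem hs]
    have hset : {y : Fin m → ℝ | (∑ i, y i ^ 2) / 2 ≤ s ∧ s ≤ 1} = ∅ := by
      ext y
      simp only [Set.mem_ofPred_eq, mem_empty_iff_false, iff_false]
      rintro ⟨h1, h2⟩
      apply hs
      refine ⟨?_, h2⟩
      have : 0 ≤ ∑ i, y i ^ 2 := Finset.sum_nonneg fun i _ => sq_nonneg _
      linarith
    rw [hset, measure_empty]

theorem g5a_model (m : ℕ) (hm : 0 < m) :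
    (volume : Measure (E (m + 1))).real
      {z | ‖z - z 0 • (EuclideanSpace.single 0 (1:ℝ) : E (m + 1))‖ ^ 2 / 2 ≤ z 0 ∧ z 0 ≤ 1} =
    cc (m + 1) / Real.Gamma (kap (m + 1) + 1) := by
  have hnorm : ∀ z : E (m + 1), ‖z - z 0 • (EuclideanSpace.single 0 (1:ℝ) : E (m + 1))‖ ^ 2 =
      ∑ i : Fin m, z i.succ ^ 2 := by
    intro z
    rw [EuclideanSpace.norm_sq_eq, Fin.sum_univ_succ]
    simp
  let S : Set (ℝ × (Fin m → ℝ)) := {p | (∑ i, p.2 i ^ 2) / 2 ≤ p.1 ∧ p.1 ≤ 1}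
  have hS : MeasurableSet S := by
    apply IsClosed.measurableSet
    exact (isClosed_le (by fun_prop) continuous_fst).inter (isClosed_le continuous_fst continuous_const)
  have hΦ : MeasurePreserving (fun z : E (m + 1) => (z 0, fun i : Fin m => z i.succ))
      volume volume := by
    have h := (volume_preserving_piFinSuccAbove (fun _ : Fin (m + 1) => ℝ) 0).comp
      (PiLp.volume_preserving_ofLp (Fin (m + 1)))
    have hfun : (fun z : E (m + 1) => (z 0, fun i : Fin m => z i.succ)) =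
        (MeasurableEquiv.piFinSuccAbove (fun _ : Fin (m + 1) => ℝ) 0) ∘ WithLp.ofLp := by
      funext z
      rfl
    rw [hfun]
    exact h
  have hpre : {z : E (m + 1) | ‖z - z 0 • (EuclideanSpace.single 0 (1:ℝ) : E (m + 1))‖ ^ 2 / 2 ≤ z 0
      ∧ z 0 ≤ 1} = (fun z : E (m + 1) => (z 0, fun i : Fin m => z i.succ)) ⁻¹' S := by
    ext z
    simp only [Set.mem_ofPred_eq, mem_preimage, hnorm, S]
  have hΓ : 0 < Real.Gamma ((m:ℝ) / 2 + 1) := Real.Gamma_pos_of_pos (by positivity)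
  have hcont : Continuous (fun s : ℝ => √(2 * s) ^ m *
        (√Real.pi ^ m / Real.Gamma ((m:ℝ) / 2 + 1))) := by fun_prop
  rw [measureReal_def, hpre, hΦ.measure_preimage hS.nullMeasurableSet, Measure.volume_eq_prod,
    Measure.prod_apply hS]
  have hsl : ∀ s : ℝ, (volume : Measure (Fin m → ℝ)) (Prod.mk s ⁻¹' S) =
      (Icc (0:ℝ) 1).indicator (fun s => ENNReal.ofReal (√(2 * s) ^ m *
        (√Real.pi ^ m / Real.Gamma ((m:ℝ) / 2 + 1)))) s := fun s => g5a_slice m hm s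
  simp only [hsl]
  rw [lintegral_indicator measurableSet_Icc, ← ofReal_integral_eq_lintegral_ofReal
    hcont.continuousOn.integrableOn_Icc (Filter.Eventually.of_forall fun s => by positivity),
    ENNReal.toReal_ofReal (integral_nonneg fun s => by positivity),
    integral_Icc_eq_integral_Ioc, ← intervalIntegral.integral_of_le zero_le_one,
    intervalIntegral.integral_mul_const, g5a_int]
  have h1 : kap (m + 1) + 1 = ((m:ℝ) / 2 + 1) + 1 := by
    unfold kap; push_cast; ring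
  have h2 : cc (m + 1) = (2:ℝ) ^ ((m:ℝ) / 2) * Real.pi ^ ((m:ℝ) / 2) := by
    unfold cc
    rw [← Real.mul_rpow (by norm_num) Real.pi_pos.le]
    congr 1
    push_cast; ring
  have h3 : √Real.pi ^ m = Real.pi ^ ((m:ℝ) / 2) := by
    rw [Real.sqrt_eq_rpow, ← Real.rpow_natCast, ← Real.rpow_mul Real.pi_pos.le]
    congr 1; ring
  have h4 : ((m:ℝ) / 2 + 1) ≠ 0 := by positivity
  rw [h1, h2, h3, Real.Gamma_add_one h4]
  field_simp

theorem stG5a : StmtG5a := by
  intro n hn u hu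
  obtain ⟨m, rfl⟩ : ∃ m, n = m + 1 := ⟨n - 1, by omega⟩
  have hm : 0 < m := by omega
  rw [← g5a_model m hm]
  set e0 : E (m + 1) := EuclideanSpace.single 0 (1:ℝ) with he0
  have hne : ‖e0‖ = ‖u‖ := by rw [hu, he0]; simp
  let g : E (m + 1) ≃ₗᵢ[ℝ] E (m + 1) := (ℝ ∙ (e0 - u))ᗮ.reflection
  have hg : g e0 = u := Submodule.reflection_sub hne
  have hcl : MeasurableSet {z : E (m + 1) | ‖z - ⟪z, u⟫ • u‖ ^ 2 / 2 ≤ ⟪z, u⟫ ∧ ⟪z, u⟫ ≤ 1} := by
    have c1 : Continuous (fun z : E (m + 1) => ‖z - ⟪z, u⟫ • u‖ ^ 2 / 2) := by fun_prop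
    have c2 : Continuous (fun z : E (m + 1) => ⟪z, u⟫) := by fun_prop
    exact ((isClosed_le c1 c2).inter (isClosed_le c2 continuous_const)).measurableSet
  have hpre := g.measurePreserving.measure_preimage hcl.nullMeasurableSet
  rw [measureReal_def, ← hpre, measureReal_def]
  congr 2
  ext z
  have h1 : ⟪g z, u⟫ = z 0 := by
    rw [← hg, g.inner_map_map, he0, EuclideanSpace.inner_single_right]
    simp
  have h2 : ‖g z - z 0 • u‖ = ‖z - z 0 • e0‖ := by
    rw [← hg, ← map_smul, ← map_sub, g.norm_map]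
  simp only [mem_preimage, Set.mem_ofPred_eq, h1, h2]

end Pool.Agent.Helper890.Cov.JG5a
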