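import Mathlib
import Pool.Agent.Helper890.Cov.StA
import Pool.Agent.Helper890.Cov.StB
import Pool.Agent.Helper890.Cov.StG
import Pool.Agent.Helper890.Cov.StF




namespace Pool.Agent.Helper890.Cov.JL1
open MeasureTheory Set Filter Topology Metric
open scoped RealInnerProductSpace

theorem stL1 (h3 : StmtG3) : StmtL1 := by
  intro n hn K h X hG C hC h0C
  obtain ⟨hcc, hcp, hch, hXc, hhc, hhp⟩ := h3 n hn K h X hG
  have hCne : ∀ z ∈ C, z ≠ 0 := fun z hz h0 => h0C (h0 ▸ hz)
  have ampc : ContinuousOn (amp X) {0}ᶜ := by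
    unfold amp
    refine ContinuousOn.mul (ContinuousOn.mul continuousOn_const ?_) ?_
    · exact ContinuousOn.rpow_const (continuous_norm.continuousOn)
        (fun z hz => Or.inl (norm_ne_zero_iff.mpr hz))
    · exact hcc.sqrt
  have ampp : ∀ z : E n, z ≠ 0 → 0 < amp X z := by
    intro z hz
    unfold amp
    refine mul_pos (mul_pos ?_ ?_) (Real.sqrt_pos.mpr (hcp z hz))
    · exact Real.rpow_pos_of_pos (by positivity) _
    · exact Real.rpow_pos_of_pos (norm_pos_iff.mpr hz) _
  have hKfin : (volume : Measure (E n)) K < ⊤ := hG.compact.measure_lt_top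
  have hKpos : 0 < (volume : Measure (E n)) K :=
    lt_of_lt_of_le (isOpen_interior.measure_pos volume ⟨0, hG.zero_mem⟩)
      (measure_mono interior_subset)
  have hvol : 0 < (volume : Measure (E n)).real K := by
    rw [Measure.real, ENNReal.toReal_pos_iff]
    exact ⟨hKpos, hKfin⟩
  have key : ∀ f : E n → ℝ, ContinuousOn f C → (∀ z ∈ C, 0 < f z) →
      ∃ p P : ℝ, 0 < p ∧ ∀ z ∈ C, p ≤ f z ∧ f z ≤ P := by
    intro f hf hpos
    rcases C.eq_empty_or_nonempty with hE | hne
    · exact ⟨1, 1, one_pos, fun z hz => by simp [hE] at hz⟩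
    · obtain ⟨x, hx, hxm⟩ := hC.exists_isMinOn hne hf
      obtain ⟨y, hy, hyM⟩ := hC.exists_isMaxOn hne hf
      exact ⟨f x, f y, hpos x hx, fun z hz => ⟨hxm hz, hyM hz⟩⟩
  obtain ⟨p1, P1, hp1, H1⟩ := key h hhc.continuousOn (fun z hz => hhp z (hCne z hz))
  obtain ⟨p2, P2, hp2, H2⟩ := key (fun z => h (-z)) (hhc.comp continuous_neg).continuousOn
    (fun z hz => hhp (-z) (neg_ne_zero.mpr (hCne z hz)))
  obtain ⟨p3, P3, hp3, H3⟩ := key (amp X) (ampc.mono (fun z hz => hCne z hz))
    (fun z hz => ampp z (hCne z hz))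
  obtain ⟨p4, P4, hp4, H4⟩ := key (fun z => amp X (-z))
    (ampc.comp continuous_neg.continuousOn (fun z hz => neg_ne_zero.mpr (hCne z hz)))
    (fun z hz => ampp (-z) (neg_ne_zero.mpr (hCne z hz)))
  refine ⟨min (min p1 p2) (min (min p3 p4) ((volume : Measure (E n)).real K)),
    max (max P1 P2) (max (max P3 P4) ((volume : Measure (E n)).real K)), ?_, ?_⟩
  · exact lt_min (lt_min hp1 hp2) (lt_min (lt_min hp3 hp4) hvol)
  · intro z hz
    have hmeas : Measurable (fun x : E n => ⟪z, x⟫) :=
      (continuous_const.inner continuous_id).measurable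
    have hmass : (nuz K z).real univ = (volume : Measure (E n)).real K := by
      unfold nuz
      rw [Measure.real, Measure.map_apply hmeas MeasurableSet.univ, preimage_univ,
        Measure.restrict_apply_univ, Measure.real]
    obtain ⟨a1, b1⟩ := H1 z hz
    obtain ⟨a2, b2⟩ := H2 z hz
    obtain ⟨a3, b3⟩ := H3 z hz
    obtain ⟨a4, b4⟩ := H4 z hz
    refine ⟨?_, ?_, ?_, ?_, ?_, ?_, ?_, ?_, ?_, ?_, ?_, ?_⟩
    · constructor
      unfold nuz
      rw [Measure.map_apply hmeas MeasurableSet.univ, preimage_univ, Measure.restrict_apply_univ]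
      exact hKfin
    · unfold nuz
      rw [Measure.map_apply hmeas measurableSet_Icc.compl]
      rw [Measure.restrict_apply (hmeas measurableSet_Icc.compl)]
      have : (fun x : E n => ⟪z, x⟫) ⁻¹' (Icc (-h (-z)) (h z))ᶜ ∩ K = ∅ := by
        rw [eq_empty_iff_forall_notMem]
        rintro x ⟨hx1, hx2⟩
        apply hx1
        have e1 := hG.le x hx2 z
        have e2 := hG.le x hx2 (-z)
        rw [inner_neg_right] at e2
        have e3 : ⟪z, x⟫ = ⟪x, z⟫ := real_inner_comm _ _
        show ⟪z, x⟫ ∈ Icc (-h (-z)) (h z)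
        rw [e3]
        constructor <;> linarith
      rw [this, measure_empty]
    · rw [hmass]; exact (min_le_right _ _).trans (min_le_right _ _)
    · rw [hmass]; exact (le_max_right _ _).trans (le_max_right _ _)
    · exact ((min_le_left _ _).trans (min_le_left _ _)).trans a1
    · exact b1.trans ((le_max_left _ _).trans (le_max_left _ _))
    · exact ((min_le_left _ _).trans (min_le_right _ _)).trans a2
    · exact b2.trans ((le_max_right _ _).trans (le_max_left _ _))
    · exact ((min_le_right _ _).trans ((min_le_left _ _).trans (min_le_left _ _))).trans a3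
    · exact b3.trans ((le_max_left _ _).trans ((le_max_left _ _).trans (le_max_right _ _)))
    · exact ((min_le_right _ _).trans ((min_le_left _ _).trans (min_le_right _ _))).trans a4
    · exact b4.trans ((le_max_right _ _).trans ((le_max_left _ _).trans (le_max_right _ _)))

end Pool.Agent.Helper890.Cov.JL1
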